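import Pool.Agent.LibLB.Api

/-!
[K3A AJ1] Jets of sections of `n D` (`D` of class `A`). `g` is a local equation of `D` at `x`, `a, b`
parameters of `x`. By `S.jet` (with the order function `E` of `x`: `h.exists_ord`; `Ge E 2` of an element
of `x` is `InPow x a b 2`, `IsOrd.le_iff`) there are sections `f₀, f₁, f₂` of `D` with
`f₀ g ≡ 1`, `f₁ g ≡ a`, `f₂ g ≡ b` modulo `(a, b) ^ 2`.
`aj1_mul`: congruences multiply: `f f' - p p' = (f - p) f' + p (f' - p')` (`f' = p' + (f' - p')` lies in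
`(a, b) ^ l`), with `inPow_mul`, `inPow_add`, `inPow_anti` of LibLOC.
`exists_jet_pow`: induction on `K`. `K = 0`: `s = 0` (`inPow_zero_iff`). Step: `s` for `K`; `exists_lead`
(LibLOC F2) for `z - s g ^ n ∈ (a, b) ^ K`: `z - s g ^ n - form a b K F ∈ (a, b) ^ (K + 1)`; put
`s' = s + ∑ i ∈ range (K + 1), F.coeff i • (f₁ ^ i * f₂ ^ (K - i) * f₀ ^ (n - K))` (`K + 1 ≤ n`), and
`(f₁ g) ^ i (f₂ g) ^ (K - i) (f₀ g) ^ (n - K) ≡ a ^ i b ^ (K - i)` modulo `(a, b) ^ (K + 1)`.
Products of sections: `sec_mul` (LibKB.Api), or directly from the definition of `sec`.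
-/

set_option autoImplicit false

open Pool.Agent.LibGMM Pool.Agent.LibK Pool.Agent.LibKB
open Pool.Agent.LibLB (PSurf RLR InPow)

namespace Pool.Agent.LibK3

variable {L : Type} [Field L] [Algebra ℂ L] {S : PSurf L}

theorem aj1_mul {x : Subalgebra ℂ L} {a b : L} (ha : a ∈ x) (hb : b ∈ x) {k l : ℕ} {f f' p p' : L}
    (hp : InPow x a b k p) (hp' : InPow x a b l p') (h : InPow x a b (k + 1) (f - p))
    (h' : InPow x a b (l + 1) (f' - p')) : InPow x a b (k + l + 1) (f * f' - p * p') := by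
  have h1 : InPow x a b l f' := by
    have h2 := LibLOC.inPow_add hp' (LibLOC.inPow_anti ha hb (Nat.le_succ l) h')
    rwa [add_sub_cancel] at h2
  have h2 := LibLOC.inPow_mul ha hb h h1
  have h3 := LibLOC.inPow_mul ha hb hp h'
  rw [show k + 1 + l = k + l + 1 by omega] at h2
  rw [← add_assoc] at h3
  have h4 := LibLOC.inPow_add h2 h3
  have h5 : (f - p) * f' + p * (f' - p') = f * f' - p * p' := by ring
  rwa [h5] at h4

private theorem aj1_pow {x : Subalgebra ℂ L} {a b : L} (ha : a ∈ x) (hb : b ∈ x) {k : ℕ}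
    {f p : L} (hp : InPow x a b k p) (h : InPow x a b (k + 1) (f - p)) (n : ℕ) :
    InPow x a b (k * n) (p ^ n) ∧ InPow x a b (k * n + 1) (f ^ n - p ^ n) := by
  induction n with
  | zero =>
    rw [pow_zero, pow_zero, sub_self, Nat.mul_zero]
    exact ⟨LibLOC.inPow_zero_iff.2 x.one_mem, LibLOC.inPow_zero_right⟩
  | succ n ih =>
    rw [pow_succ, pow_succ, Nat.mul_succ]
    exact ⟨LibLOC.inPow_mul ha hb ih.1 hp, aj1_mul ha hb ih.1 hp ih.2 h⟩

theorem exists_jet_pow {x : Subalgebra ℂ L} (hx : x ∈ S.pts) {a b : L} (h : RLR x a b)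
    {D : DVal L → ℤ} (hD : IsDiv S.prm D) (hDA : S.cl D = S.A) {g : L} (hg : LocEqn S.prm x D g)
    (K n : ℕ) (hn : K ≤ n) {z : L} (hz : z ∈ x) :
    ∃ s ∈ sec S.prm (fun ν => n * D ν), InPow x a b K (s * g ^ n - z) := by
  have ha := h.memA
  have hb := h.memB
  obtain ⟨E, hE⟩ := h.exists_ord
  -- sections with prescribed jets of order two
  have hjet : ∀ z ∈ x, ∃ f ∈ sec S.prm D, InPow x a b 2 (f * g - z) := by
    intro z hz
    obtain ⟨f, hf, h1⟩ := S.jet D hD hDA x hx E hE g hg z hz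
    refine ⟨f, hf, ?_⟩
    have h2 : f * g - z ∈ x := sub_mem ((S.pt hx).germ_mem hg hf) hz
    by_cases h0 : f * g - z = 0
    · rw [h0]
      exact LibLOC.inPow_zero_right
    · exact (hE.le_iff h h2 h0 2).1 (h1 h0)
  obtain ⟨f₀, hf₀, hj₀⟩ := hjet 1 x.one_mem
  obtain ⟨f₁, hf₁, hj₁⟩ := hjet a ha
  obtain ⟨f₂, hf₂, hj₂⟩ := hjet b hb
  have hIa : InPow x a b 1 a := by
    have := LibLOC.inPow_monom (x := x) (a := a) (b := b) 1 0
    simpa using this
  have hIb : InPow x a b 1 b := by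
    have := LibLOC.inPow_monom (x := x) (a := a) (b := b) 0 1
    simpa using this
  -- powers of sections
  have hpow : ∀ (m : ℕ) (f : L), f ∈ sec S.prm D → f ^ m ∈ sec S.prm (fun ν => m * D ν) := by
    intro m f hf ν hν h0
    change 0 ≤ ν.ord (f ^ m) + m * D ν
    by_cases hm : m = 0
    · rw [hm]
      simp
    · have hf0 : f ≠ 0 := by
        rintro rfl
        exact h0 (zero_pow hm)
      have h1 := hf ν hν hf0
      rw [DVal.ord_pow, ← mul_add]
      exact mul_nonneg (Int.natCast_nonneg m) h1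
  -- monomials
  have hmon : ∀ i j l : ℕ, i + j + l = n → f₁ ^ i * f₂ ^ j * f₀ ^ l ∈ sec S.prm (fun ν => n * D ν) ∧
      InPow x a b (i + j + 1) ((f₁ ^ i * f₂ ^ j * f₀ ^ l) * g ^ n - a ^ i * b ^ j) := by
    intro i j l hijl
    constructor
    · have h1 := sec_mul (sec_mul (hpow i f₁ hf₁) (hpow j f₂ hf₂)) (hpow l f₀ hf₀)
      rw [sec_congr (D' := fun ν => n * D ν)] at h1
      · exact h1
      · intro ν _
        rw [← hijl]
        push_cast
        ring
    · have h1 := aj1_pow ha hb (k := 1) hIa hj₁ i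
      have h2 := aj1_pow ha hb (k := 1) hIb hj₂ j
      have h3 := aj1_pow ha hb (k := 0) (f := f₀ * g) (p := 1)
        (LibLOC.inPow_zero_iff.2 x.one_mem) (LibLOC.inPow_anti ha hb (by norm_num) hj₀) l
      rw [one_mul] at h1 h2
      rw [zero_mul, one_pow] at h3
      have h4 := aj1_mul ha hb h1.1 h2.1 h1.2 h2.2
      have h5 := aj1_mul ha hb (LibLOC.inPow_mul ha hb h1.1 h2.1) h3.1 h4 h3.2
      rw [mul_one, add_zero] at h5
      have h6 : (f₁ * g) ^ i * (f₂ * g) ^ j * (f₀ * g) ^ l = f₁ ^ i * f₂ ^ j * f₀ ^ l * g ^ n := by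
        rw [← hijl, pow_add, pow_add]
        ring
      rwa [h6] at h5
  induction K with
  | zero =>
    refine ⟨0, Submodule.zero_mem _, ?_⟩
    rw [zero_mul, zero_sub]
    exact LibLOC.inPow_zero_iff.2 (neg_mem hz)
  | succ K ih =>
    obtain ⟨s, hs, h1⟩ := ih (by omega)
    have h2 : InPow x a b K (z - s * g ^ n) := by
      have := LibLOC.inPow_neg h1
      rwa [neg_sub] at this
    obtain ⟨F, hF, h3⟩ := LibLOC.exists_lead h h2
    refine ⟨s + ∑ i ∈ Finset.range (K + 1),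
      F.coeff i • (f₁ ^ i * f₂ ^ (K - i) * f₀ ^ (n - K)), ?_, ?_⟩
    · refine Submodule.add_mem _ hs (Submodule.sum_mem _ fun i hi => Submodule.smul_mem _ _ ?_)
      rw [Finset.mem_range] at hi
      exact (hmon i (K - i) (n - K) (by omega)).1
    · have h4 : (s + ∑ i ∈ Finset.range (K + 1),
          F.coeff i • (f₁ ^ i * f₂ ^ (K - i) * f₀ ^ (n - K))) * g ^ n - z =
          (∑ i ∈ Finset.range (K + 1), algebraMap ℂ L (F.coeff i) *
            ((f₁ ^ i * f₂ ^ (K - i) * f₀ ^ (n - K)) * g ^ n - a ^ i * b ^ (K - i))) -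
            (z - s * g ^ n - LibLOC.form a b K F) := by
        have h5 : LibLOC.form a b K F = ∑ i ∈ Finset.range (K + 1),
            algebraMap ℂ L (F.coeff i) * (a ^ i * b ^ (K - i)) := by
          unfold LibLOC.form
          exact Finset.sum_congr rfl fun i _ => by ring
        rw [h5]
        simp only [mul_sub, Finset.sum_sub_distrib, Algebra.smul_def, add_mul, Finset.sum_mul]
        have h6 : ∑ i ∈ Finset.range (K + 1), algebraMap ℂ L (F.coeff i) *
            (f₁ ^ i * f₂ ^ (K - i) * f₀ ^ (n - K)) * g ^ n = ∑ i ∈ Finset.range (K + 1),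
            algebraMap ℂ L (F.coeff i) * (f₁ ^ i * f₂ ^ (K - i) * f₀ ^ (n - K) * g ^ n) :=
          Finset.sum_congr rfl fun i _ => by ring
        rw [h6]
        ring
      rw [h4]
      refine LibLOC.inPow_sub (LibLOC.inPow_sum _ _ fun i hi => ?_) h3
      rw [Finset.mem_range] at hi
      have h5 := (hmon i (K - i) (n - K) (by omega)).2
      rw [show i + (K - i) + 1 = K + 1 by omega] at h5
      exact LibLOC.inPow_smul (x.algebraMap_mem _) h5

end Pool.Agent.LibK3
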