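import Pool.Agent.LibK3.AJ1

/-!
[K3A AJ2] `exists_jet` from `exists_jet_pow`.
-/

set_option autoImplicit false

open Pool.Agent.LibGMM Pool.Agent.LibK Pool.Agent.LibKB
open Pool.Agent.LibLB (PSurf RLR InPow)

namespace Pool.Agent.LibK3

variable {L : Type} [Field L] [Algebra ℂ L] {S : PSurf L}

/-- Sections of `n A` generate jets. -/
theorem exists_jet {x : Subalgebra ℂ L} (hx : x ∈ S.pts) {E : DVal L} (hE : LibLB.IsOrd x E)
    (K : ℕ) : ∃ n₀ : ℕ, ∀ n : ℕ, n₀ ≤ n → ∀ D, IsDiv S.prm D → S.cl D = n • S.A →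
      ∀ g, LocEqn S.prm x D g → ∀ z ∈ x, ∃ s ∈ sec S.prm D, Ge E K (s * g - z) := by
  refine ⟨K, fun n hn D hD hcl g hg z hz => ?_⟩
  obtain ⟨a, b, hab⟩ := S.coord x hx
  have hA := S.isDiv_rep S.A
  obtain ⟨g₀, hg₀⟩ := (S.pt hx).exists_loc hA
  have hnA : IsDiv S.prm (fun ν => (n : ℤ) * S.rep S.A ν) := hA.zsmul n
  have hcl' : S.cl D = S.cl (fun ν => (n : ℤ) * S.rep S.A ν) := by
    rw [hcl]
    change _ = LibLB.clOf S.prm S.cls _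
    rw [LibLB.clOf_zsmul (n : ℤ) hA]
    change _ = (n : ℤ) • S.cl (S.rep S.A)
    rw [S.cl_rep, natCast_zsmul]
  obtain ⟨e, he, hDe⟩ := PSurf.exists_lin hnA hD hcl'
  have hloc : LocEqn S.prm x D (g₀ ^ n * e) := by
    refine ⟨mul_ne_zero (pow_ne_zero _ hg₀.1) he, fun ν hν hxν => ?_⟩
    rw [ν.ord_mul _ _ (pow_ne_zero _ hg₀.1) he, ord_pow ν hg₀.1, hg₀.2 ν hν hxν, hDe ν hν]
  have hu : g / (g₀ ^ n * e) ∈ x := (S.pt hx).loc_div_mem hg hloc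
  have hu' : (g₀ ^ n * e) / g ∈ x := (S.pt hx).loc_div_mem hloc hg
  obtain ⟨s₀, hs₀, h1⟩ := exists_jet_pow hx hab hA (S.cl_rep _) hg₀ K n hn (x.mul_mem hz hu')
  refine ⟨s₀ / e, ?_, ?_⟩
  · have h2 := sec_div he hs₀
    intro ν hν h0
    have h3 := h2 ν hν h0
    rw [hDe ν hν]
    exact h3
  · have h2 : s₀ / e * g - z = g / (g₀ ^ n * e) * (s₀ * g₀ ^ n - z * ((g₀ ^ n * e) / g)) := by
      have := hg₀.1
      have := hg.1
      field_simp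
    rw [h2]
    intro h0
    have h3 : s₀ * g₀ ^ n - z * ((g₀ ^ n * e) / g) ≠ 0 := right_ne_zero_of_mul h0
    have h4 : g / (g₀ ^ n * e) ≠ 0 := left_ne_zero_of_mul h0
    have hmem : s₀ * g₀ ^ n - z * ((g₀ ^ n * e) / g) ∈ x :=
      LibLOC.inPow_mem hab.memA hab.memB h1
    have h5 := (hE.le_iff hab hmem h3 K).2 h1
    have h6 : 0 ≤ E.ord (g / (g₀ ^ n * e)) := hE.le_ring hu
    rw [E.ord_mul _ _ h4 h3]
    linarith

end Pool.Agent.LibK3
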