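import Pool.Agent.LibK3.Base

/-!
THEOREM K3: basic facts on the residue map `ψ` of a rational curve and on the units of its ring.
-/

set_option autoImplicit false

open Pool.Agent.LibGMM Pool.Agent.LibK Pool.Agent.LibKB
open Pool.Agent.LibLB (PSurf RLR)

namespace Pool.Agent.LibK3

namespace RC

variable {L : Type} [Field L] [Algebra ℂ L] (C : RC L)

theorem const_mem (c : ℂ) : algebraMap ℂ L c ∈ C.ν.ring := C.ν.ring.algebraMap_mem c

theorem ψ_zero : C.ψ 0 = 0 := (C.zero_iff 0 C.ν.ring.zero_mem).2 (Or.inl rfl)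

theorem ψ_one : C.ψ 1 = 1 := by
  have h := C.const 1
  rwa [map_one, map_one] at h

theorem ψ_neg {z : L} (hz : z ∈ C.ν.ring) : C.ψ (-z) = - C.ψ z := by
  have h := C.add z hz (-z) (C.ν.ring.neg_mem hz)
  rw [add_neg_cancel, C.ψ_zero] at h
  linear_combination -h

theorem ψ_sub {z w : L} (hz : z ∈ C.ν.ring) (hw : w ∈ C.ν.ring) :
    C.ψ (z - w) = C.ψ z - C.ψ w := by
  rw [sub_eq_add_neg, C.add z hz _ (C.ν.ring.neg_mem hw), C.ψ_neg hw, sub_eq_add_neg]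

theorem ψ_pow {z : L} (hz : z ∈ C.ν.ring) (n : ℕ) : C.ψ (z ^ n) = C.ψ z ^ n := by
  induction n with
  | zero => rw [pow_zero, pow_zero, C.ψ_one]
  | succ n ih => rw [pow_succ, pow_succ, C.mul _ (C.ν.ring.pow_mem hz n) _ hz, ih]

theorem ψ_smul (c : ℂ) {z : L} (hz : z ∈ C.ν.ring) : C.ψ (c • z) = c • C.ψ z := by
  rw [Algebra.smul_def, C.mul _ (C.const_mem c) _ hz, C.const, Algebra.smul_def,
    RatFunc.algebraMap_eq_C]

theorem ψ_algebraMap (c : ℂ) : C.ψ (algebraMap ℂ L c) = algebraMap ℂ (RatFunc ℂ) c := by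
  rw [C.const, RatFunc.algebraMap_eq_C]

theorem ψ_sum {ι : Type} (s : Finset ι) (F : ι → L) (h : ∀ i ∈ s, F i ∈ C.ν.ring) :
    C.ψ (∑ i ∈ s, F i) = ∑ i ∈ s, C.ψ (F i) := by
  classical
  induction s using Finset.induction_on with
  | empty => rw [Finset.sum_empty, Finset.sum_empty, C.ψ_zero]
  | insert i s hi ih =>
    rw [Finset.sum_insert hi, Finset.sum_insert hi, C.add _ (h i (Finset.mem_insert_self i s)) _
      (C.ν.ring.sum_mem fun j hj => h j (Finset.mem_insert_of_mem hj)),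
      ih fun j hj => h j (Finset.mem_insert_of_mem hj)]

theorem ψ_prod {ι : Type} (s : Finset ι) (F : ι → L) (h : ∀ i ∈ s, F i ∈ C.ν.ring) :
    C.ψ (∏ i ∈ s, F i) = ∏ i ∈ s, C.ψ (F i) := by
  classical
  induction s using Finset.induction_on with
  | empty => rw [Finset.prod_empty, Finset.prod_empty, C.ψ_one]
  | insert i s hi ih =>
    rw [Finset.prod_insert hi, Finset.prod_insert hi, C.mul _ (h i (Finset.mem_insert_self i s)) _
      (C.ν.ring.prod_mem fun j hj => h j (Finset.mem_insert_of_mem hj)),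
      ih fun j hj => h j (Finset.mem_insert_of_mem hj)]

/-- `ψ z ≠ 0` if and only if `z` is a unit of the ring of `C`. -/
theorem ψ_ne_iff {z : L} (hz : z ∈ C.ν.ring) : C.ψ z ≠ 0 ↔ z ≠ 0 ∧ C.ν.ord z = 0 := by
  rw [Ne, C.zero_iff z hz]
  have h1 : 0 ≤ C.ν.ord z := hz
  constructor
  · intro h
    refine ⟨fun h0 => h (Or.inl h0), ?_⟩
    by_contra h2
    exact h (Or.inr (by omega))
  · rintro ⟨h2, h3⟩ (h4 | h4)
    · exact h2 h4
    · omega

theorem ψ_ne_of_ord {z : L} (h0 : z ≠ 0) (h : C.ν.ord z = 0) : C.ψ z ≠ 0 :=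
  (C.ψ_ne_iff (by change 0 ≤ C.ν.ord z; omega)).2 ⟨h0, h⟩

theorem inv_mem {z : L} (h0 : z ≠ 0) (h : C.ν.ord z = 0) : z⁻¹ ∈ C.ν.ring := by
  change 0 ≤ C.ν.ord z⁻¹
  rw [ord_inv C.ν h0]
  omega

theorem ψ_inv {z : L} (h0 : z ≠ 0) (h : C.ν.ord z = 0) : C.ψ z⁻¹ = (C.ψ z)⁻¹ := by
  have hz : z ∈ C.ν.ring := by change 0 ≤ C.ν.ord z; omega
  have h1 := C.mul z hz z⁻¹ (C.inv_mem h0 h)
  rw [mul_inv_cancel₀ h0, C.ψ_one] at h1
  exact eq_inv_of_mul_eq_one_right h1.symm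

theorem ψ_div {z w : L} (hz : z ∈ C.ν.ring) (h0 : w ≠ 0) (h : C.ν.ord w = 0) :
    C.ψ (z / w) = C.ψ z / C.ψ w := by
  rw [div_eq_mul_inv, C.mul z hz _ (C.inv_mem h0 h), C.ψ_inv h0 h, div_eq_mul_inv]

/-- Elements of positive order have residue zero. -/
theorem ψ_pos {z : L} (h : 0 < C.ν.ord z) : C.ψ z = 0 :=
  (C.zero_iff z (by change 0 ≤ C.ν.ord z; omega)).2 (Or.inr h)

theorem ψ_congr {z w : L} (hz : z ∈ C.ν.ring) (hw : w ∈ C.ν.ring) (h : 0 < C.ν.ord (z - w)) :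
    C.ψ z = C.ψ w := by
  have h1 := C.ψ_sub hz hw
  rw [C.ψ_pos h] at h1
  linear_combination -h1

/-- `ψ` of a polynomial. -/
theorem ψ_aeval {n : ℕ} (v : Fin n → L) (hv : ∀ i, v i ∈ C.ν.ring) (G : MvPolynomial (Fin n) ℂ) :
    MvPolynomial.aeval v G ∈ C.ν.ring ∧
      C.ψ (MvPolynomial.aeval v G) = MvPolynomial.aeval (fun i => C.ψ (v i)) G := by
  induction G using MvPolynomial.induction_on with
  | C a =>
    rw [MvPolynomial.aeval_C, MvPolynomial.aeval_C]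
    exact ⟨C.const_mem a, C.ψ_algebraMap a⟩
  | add p q hp hq =>
    rw [map_add, map_add, C.add _ hp.1 _ hq.1, hp.2, hq.2]
    exact ⟨C.ν.ring.add_mem hp.1 hq.1, rfl⟩
  | mul_X p i hp =>
    rw [map_mul, map_mul, MvPolynomial.aeval_X, MvPolynomial.aeval_X, C.mul _ hp.1 _ (hv i), hp.2]
    exact ⟨C.ν.ring.mul_mem hp.1 (hv i), rfl⟩

end RC

end Pool.Agent.LibK3
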