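import Pool.Agent.LibK3.N03
import Pool.Agent.LibK3.RCA

/-!
[K3A AJ3] Orders along `C` at the place `v`, `x` the centre of `v`.
`ordP_of_inPow`: `z = ∑ i, c i * a ^ i * b ^ (k - i)` with `c i ∈ x`; `ψ z` is the sum of the
`ψ (c i) ψ (a) ^ i ψ (b) ^ (k - i)` (`RC.ψ_sum`, `C.mul`, `RC.ψ_pow`; `x ≤ C.ν.ring`), each summand is `0`
or has order `≥ k` at `v` (`IsCtr.nonneg`; `a, b` are not invertible in `x`, from `RLR.nonunit`, so
`IsCtr.pos`). Work with the discrete valuation `P` of `exists_pl` and `geSub P k` (`Ge P k f` means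
`f ≠ 0 → k ≤ P.ord f`; `(geSub P k)` is a subspace).
`ordP_of_ge`: `Ge E k z` for `z ∈ x` gives `InPow x a b k z` (`hE.le_iff`; `z = 0` is trivial).
`ordP_sec_sub`: `s` is a section of `D - B`, `g` a local equation of `D` at `x`, `f` one of `prd B`:
`g / f` is a local equation of `D - B`, so `s * (g / f) ∈ x` (`Pt.germ_mem`), `s g = s (g / f) f`; so `ψ (s g)`
is `0` or has order at least that of `ψ f`; `kap S C v B = ordP v (ψ f)` by `ct_eq` with `c = 1`
(`prd B C.ν = 0`), and `x ≤ C.ν.ring`.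
-/

set_option autoImplicit false

open Pool.Agent.LibGMM Pool.Agent.LibK Pool.Agent.LibKB
open Pool.Agent.LibLB (PSurf RLR InPow)

namespace Pool.Agent.LibK3

variable {L : Type} [Field L] [Algebra ℂ L] {S : PSurf L} {C : RC L}

private theorem aj3_pow {P : DVal (RatFunc ℂ)} {f : RatFunc ℂ} (hf : Ge P 1 f) (n : ℕ) :
    Ge P n (f ^ n) := by
  induction n with
  | zero =>
    intro _
    rw [pow_zero, ord_one]
    exact le_rfl
  | succ n ih =>
    rw [pow_succ]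
    have h := ih.mul hf
    push_cast
    exact h

theorem ordP_of_inPow {v : Plc} {x : Subalgebra ℂ L} (hx : IsCtr S C v x) {a b : L}
    (h : RLR x a b) {k : ℕ} {z : L} (hz : InPow x a b k z) :
    C.ψ z ≠ 0 → (k : ℤ) ≤ ordP v (C.ψ z) := by
  obtain ⟨P, hP⟩ := exists_pl v
  obtain ⟨c, hc, rfl⟩ := hz
  have ha : Ge P 1 (C.ψ a) := by
    intro h0
    have h1 : a⁻¹ ∉ x := by
      intro h1
      have h2 := h.nonunit _ h1 0 x.zero_mem
      rw [mul_inv_cancel₀ h.a_ne, mul_zero, add_zero] at h2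
      exact h2 rfl
    rw [hP]
    rcases hx.pos a h.memA h1 with h2 | h2
    · exact absurd h2 h0
    · omega
  have hb : Ge P 1 (C.ψ b) := by
    intro h0
    by_cases hb0 : b = 0
    · rw [hb0, C.ψ_zero] at h0
      exact absurd rfl h0
    have h1 : b⁻¹ ∉ x := by
      intro h1
      have h2 := h.nonunit 0 x.zero_mem _ h1
      rw [mul_inv_cancel₀ hb0, mul_zero, zero_add] at h2
      exact h2 rfl
    rw [hP]
    rcases hx.pos b h.memB h1 with h2 | h2
    · exact absurd h2 h0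
    · omega
  have hmem : ∀ i ∈ Finset.range (k + 1), c i * a ^ i * b ^ (k - i) ∈ C.ν.ring := fun i _ =>
    hx.le (x.mul_mem (x.mul_mem (hc i) (x.pow_mem h.memA i)) (x.pow_mem h.memB _))
  have key : Ge P k (C.ψ (∑ i ∈ Finset.range (k + 1), c i * a ^ i * b ^ (k - i))) := by
    rw [C.ψ_sum _ _ hmem]
    have h1 : ∑ i ∈ Finset.range (k + 1), C.ψ (c i * a ^ i * b ^ (k - i)) ∈ geSub P (k : ℤ) := by
      refine Submodule.sum_mem _ fun i hi => ?_
      have hik : i ≤ k := Nat.lt_succ_iff.1 (Finset.mem_range.1 hi)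
      rw [C.mul _ (hx.le (x.mul_mem (hc i) (x.pow_mem h.memA i))) _
        (hx.le (x.pow_mem h.memB _)), C.mul _ (hx.le (hc i)) _ (hx.le (x.pow_mem h.memA i)),
        C.ψ_pow (hx.le h.memA), C.ψ_pow (hx.le h.memB)]
      have h2 : Ge P 0 (C.ψ (c i)) := fun _ => by
        rw [hP]
        exact hx.nonneg _ (hc i)
      have h3 := (h2.mul (aj3_pow ha i)).mul (aj3_pow hb (k - i))
      refine h3.mono ?_
      push_cast [Nat.cast_sub hik]
      omega
    exact h1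
  intro h0
  rw [← hP]
  exact key h0

theorem ordP_of_ge {v : Plc} {x : Subalgebra ℂ L} (hx : IsCtr S C v x) {E : DVal L}
    (hE : LibLB.IsOrd x E) {k : ℕ} {z : L} (hz : z ∈ x) (hk : Ge E k z) :
    C.ψ z ≠ 0 → (k : ℤ) ≤ ordP v (C.ψ z) := by
  intro h0
  have hz0 : z ≠ 0 := by
    rintro rfl
    exact h0 C.ψ_zero
  obtain ⟨a, b, hR, h⟩ := hE
  exact ordP_of_inPow hx hR ((h z hz hz0 k).1 (hk hz0)) h0

theorem ordP_sec_sub (hC : C.ν ∈ S.prm) {v : Plc} {x : Subalgebra ℂ L} (hx : IsCtr S C v x)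
    {B : DVal L} (hB : B ∈ S.prm) (hBC : B ≠ C.ν) {D : DVal L → ℤ} (hD : IsDiv S.prm D) {g : L}
    (hg : LocEqn S.prm x D g) {s : L} (hs : s ∈ sec S.prm (fun ν => D ν - prd B ν)) :
    s * g ∈ x ∧ (C.ψ (s * g) ≠ 0 → kap S C v B ≤ ordP v (C.ψ (s * g))) := by
  have hpt := S.pt hx.pts
  obtain ⟨f, hf⟩ := hpt.exists_loc (isDiv_prd B)
  have hgf : LocEqn S.prm x (fun ν => D ν - prd B ν) (g / f) := by
    refine ⟨div_ne_zero hg.1 hf.1, fun ν hν hxν => ?_⟩
    rw [ord_div ν hg.1 hf.1, hg.2 ν hν hxν, hf.2 ν hν hxν]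
  have hfx : f ∈ x := by
    rw [hpt.mem_iff]
    intro ν hν hxν
    rw [hf.2 ν hν hxν]
    exact prd_nonneg B ν
  have h1 : s * (g / f) ∈ x := hpt.germ_mem hgf hs
  have h2 : s * g = s * (g / f) * f := by
    rw [mul_assoc, div_mul_cancel₀ _ hf.1]
  refine ⟨by rw [h2]; exact x.mul_mem h1 hfx, fun h0 => ?_⟩
  have h3 : C.ν.ord 1 = - prd B C.ν := by
    rw [ord_one, prd_ne hBC.symm, neg_zero]
  have h4 := (ct_eq hC hx (isDiv_prd B) hf one_ne_zero h3).1
  rw [one_mul] at h4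
  have h5 : C.ψ (s * g) = C.ψ (s * (g / f)) * C.ψ f := by
    rw [h2]
    exact C.mul _ (hx.le h1) _ (hx.le hfx)
  rw [h5] at h0 ⊢
  have h6 : kap S C v B = ordP v (C.ψ f) := h4
  rw [h6, ordP_mul v (left_ne_zero_of_mul h0) (right_ne_zero_of_mul h0)]
  have h7 := hx.nonneg _ h1
  omega

end Pool.Agent.LibK3
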