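import Pool.Agent.LibKB.Api

/-!
[K3A AJ4] Linear algebra. `count_mod`: the `s i` are linearly independent modulo `W`, so their span `U`
satisfies `U ⊓ W = ⊥`, `finrank U = N`, `U ⊔ W ≤ V` (`Submodule.finrank_sup_add_finrank_inf_eq`; or work in
the quotient of `V` by `W`). `indep_orders`: elements of pairwise different orders `< c` are linearly
independent modulo the elements of order `≥ c`: if `a ≠ 0` let `i` be the index with `a i ≠ 0` of smallest
order; `∑ a j • f j = a i • f i + (elements of order > ord (f i))` has order `ord (f i) < c`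
(`ord_add_of_ge` in LibKB.Api; `Ge`, `geSub`).
-/

set_option autoImplicit false

open Pool.Agent.LibGMM Pool.Agent.LibK Pool.Agent.LibKB

namespace Pool.Agent.LibK3

theorem count_mod {L : Type} [Field L] [Algebra ℂ L] {V W : Submodule ℂ L} [Module.Finite ℂ V]
    (hWV : W ≤ V) {N : ℕ} (s : Fin N → L) (hs : ∀ i, s i ∈ V)
    (h : ∀ a : Fin N → ℂ, ∑ i, a i • s i ∈ W → a = 0) :
    N + Module.finrank ℂ W ≤ Module.finrank ℂ V := by
  set f : V →ₗ[ℂ] L ⧸ W := W.mkQ.comp V.subtype with hf
  have h1 : LinearIndependent ℂ (fun i : Fin N =>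
      (⟨f ⟨s i, hs i⟩, LinearMap.mem_range_self _ _⟩ : LinearMap.range f)) := by
    rw [Fintype.linearIndependent_iff]
    intro a ha i
    have h2 : ∑ i, a i • s i ∈ W := by
      have h3 := congrArg Subtype.val ha
      simp only [Submodule.coe_sum, Submodule.coe_smul, Submodule.coe_zero] at h3
      rw [← (Submodule.Quotient.mk_eq_zero W), ← Submodule.mkQ_apply, map_sum]
      rw [← h3]
      refine Finset.sum_congr rfl fun i _ => ?_
      rw [map_smul]
      rfl
    exact congrFun (h a h2) i
  have h2 := h1.fintype_card_le_finrank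
  rw [Fintype.card_fin] at h2
  have h3 := LinearMap.finrank_range_add_finrank_ker f
  have h4 : Module.finrank ℂ (LinearMap.ker f) = Module.finrank ℂ W := by
    have h5 : LinearMap.ker f = W.comap V.subtype := by
      rw [hf, LinearMap.ker_comp, Submodule.ker_mkQ]
    rw [h5]
    exact (Submodule.comapSubtypeEquivOfLe hWV).finrank_eq
  omega

theorem indep_orders {κ : Type} [Field κ] [Algebra ℂ κ] (P : DVal κ) {N : ℕ} (f : Fin N → κ)
    (hf : ∀ i, f i ≠ 0) (hinj : Function.Injective fun i => P.ord (f i)) (c : ℤ)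
    (hc : ∀ i, P.ord (f i) < c) (a : Fin N → ℂ) (h : Ge P c (∑ i, a i • f i)) : a = 0 := by
  classical
  by_contra hne
  have hS : (Finset.univ.filter fun i => a i ≠ 0).Nonempty := by
    by_contra hcon
    rw [Finset.not_nonempty_iff_eq_empty] at hcon
    apply hne
    funext i
    by_contra hi
    have h1 : i ∈ Finset.univ.filter fun i => a i ≠ 0 := by simpa using hi
    rw [hcon] at h1
    exact absurd h1 (Finset.notMem_empty i)
  obtain ⟨i, hi, hmin⟩ := Finset.exists_min_image _ (fun i => P.ord (f i)) hS
  rw [Finset.mem_filter] at hi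
  have hai : algebraMap ℂ κ (a i) ≠ 0 := by
    rw [Ne, map_eq_zero]
    exact hi.2
  have h1 : a i • f i ≠ 0 := smul_ne_zero hi.2 (hf i)
  have h2 : P.ord (a i • f i) = P.ord (f i) := by
    rw [Algebra.smul_def, P.ord_mul _ _ hai (hf i), P.ord_const, zero_add]
  have h3 : Ge P (P.ord (a i • f i) + 1) (∑ j ∈ Finset.univ.erase i, a j • f j) := by
    have h4 : ∑ j ∈ Finset.univ.erase i, a j • f j ∈ geSub P (P.ord (a i • f i) + 1) := by
      refine Submodule.sum_mem _ fun j hj => ?_
      by_cases haj : a j = 0
      · rw [haj, zero_smul]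
        exact Submodule.zero_mem _
      · refine Submodule.smul_mem _ _ ?_
        intro _
        have h5 := hmin j (by simpa using haj)
        have h6 : P.ord (f j) ≠ P.ord (f i) := fun h7 => (Finset.mem_erase.1 hj).1 (hinj h7)
        have h7 : P.ord (f i) ≤ P.ord (f j) := h5
        rw [h2]
        omega
    exact h4
  have h5 := ord_add_of_ge P h1 h3
  rw [Finset.add_sum_erase Finset.univ (fun j => a j • f j) (Finset.mem_univ i)] at h5
  have h6 := h h5.1
  rw [h5.2, h2] at h6
  exact absurd h6 (not_le.2 (hc i))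

end Pool.Agent.LibK3
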