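import Pool.Agent.LibCUR2.Facts

/-!
[K3A SP0] Dimension of the sections of `n A` modulo those vanishing along `B` or `T`.
-/

set_option autoImplicit false

open Pool.Agent.LibGMM Pool.Agent.LibK Pool.Agent.LibKB
open Pool.Agent.LibLB (PSurf RLR)

namespace Pool.Agent.LibK3

variable {L : Type} [Field L] [Algebra ℂ L] (S : PSurf L)

private theorem sp0_serre (F : S.Λ) : ∃ n₀ : ℕ, ∀ n : ℕ, n₀ ≤ n →
    2 * (S.hh (n • S.A + F) : ℤ) = 2 * S.chi0 + S.form (n • S.A + F) (n • S.A + F - S.K) := by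
  obtain ⟨n₀, h⟩ := S.serre F
  refine ⟨n₀, fun n hn => ?_⟩
  have h1 := (h n hn (S.rep (n • S.A + F)) (S.isDiv_rep _) (S.cl_rep _)).1
  have h2 : LibLB.clOf S.prm S.cls (S.rep (n • S.A + F)) = n • S.A + F := S.cl_rep _
  rw [h2] at h1
  exact h1

theorem hh_four (β τ : S.Λ) : ∃ n₀ : ℕ, ∀ n : ℕ, n₀ ≤ n →
    (S.hh (n • S.A) : ℤ) + S.hh (n • S.A - β - τ) =
      S.hh (n • S.A - β) + S.hh (n • S.A - τ) + S.form β τ := by
  obtain ⟨n₁, h1⟩ := sp0_serre S 0
  obtain ⟨n₂, h2⟩ := sp0_serre S (-β - τ)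
  obtain ⟨n₃, h3⟩ := sp0_serre S (-β)
  obtain ⟨n₄, h4⟩ := sp0_serre S (-τ)
  refine ⟨max (max n₁ n₂) (max n₃ n₄), fun n hn => ?_⟩
  have e1 := h1 n (((le_max_left _ _).trans (le_max_left _ _)).trans hn)
  have e2 := h2 n (((le_max_right _ _).trans (le_max_left _ _)).trans hn)
  have e3 := h3 n (((le_max_left _ _).trans (le_max_right _ _)).trans hn)
  have e4 := h4 n (((le_max_right _ _).trans (le_max_right _ _)).trans hn)
  rw [add_zero] at e1
  have f2 : n • S.A + (-β - τ) = n • S.A - β - τ := by abel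
  have f3 : n • S.A + -β = n • S.A - β := by abel
  have f4 : n • S.A + -τ = n • S.A - τ := by abel
  rw [f2] at e2
  rw [f3] at e3
  rw [f4] at e4
  generalize n • S.A = a at *
  have s1 := S.symm τ β
  simp only [map_sub, LinearMap.sub_apply] at e1 e2 e3 e4
  have s2 := S.symm a β
  have s3 := S.symm a τ
  linarith

theorem finrank_two {B T : DVal L} (hB : B ∈ S.prm) (hT : T ∈ S.prm) (hBT : B ≠ T) :
    ∃ n₀ : ℕ, ∀ n : ℕ, n₀ ≤ n → ∀ D, IsDiv S.prm D → S.cl D = n • S.A →
      sec S.prm (fun ν => D ν - prd B ν) ⊔ sec S.prm (fun ν => D ν - prd T ν) ≤ sec S.prm D ∧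
      (Module.finrank ℂ (sec S.prm D) : ℤ) = Module.finrank ℂ
        (sec S.prm (fun ν => D ν - prd B ν) ⊔ sec S.prm (fun ν => D ν - prd T ν) : Submodule ℂ L) +
        S.form (S.cls B) (S.cls T) := by
  obtain ⟨n₀, h0⟩ := hh_four S (S.cls B) (S.cls T)
  refine ⟨n₀, fun n hn D hD hcl => ?_⟩
  have h1 := h0 n hn
  have hDB : IsDiv S.prm (fun ν => D ν - prd B ν) := by
    have := hD.add (isDiv_prd (P := S.prm) B).neg
    exact this.congr fun ν _ => by ring
  have hDT : IsDiv S.prm (fun ν => D ν - prd T ν) := by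
    have := hD.add (isDiv_prd (P := S.prm) T).neg
    exact this.congr fun ν _ => by ring
  have hDBT : IsDiv S.prm (fun ν => D ν - prd B ν - prd T ν) := by
    have := hDB.add (isDiv_prd (P := S.prm) T).neg
    exact this.congr fun ν _ => by ring
  have hclB : S.cl (fun ν => D ν - prd B ν) = S.cl D - S.cls B := by
    have h2 := LibCUR2.cl_sub S hD (isDiv_prd (P := S.prm) B)
    have h3 : S.cl (prd B) = S.cls B := LibLB.clOf_prd hB
    rw [h3] at h2
    exact h2
  have e1 : (Module.finrank ℂ (sec S.prm D) : ℤ) = S.hh (n • S.A) := by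
    rw [← hcl, PSurf.hh_cl hD]
    rfl
  have e2 : (Module.finrank ℂ (sec S.prm (fun ν => D ν - prd B ν)) : ℤ) =
      S.hh (n • S.A - S.cls B) := by
    rw [← hcl, ← LibCUR2.h0_sub S hB hD]
    rfl
  have e3 : (Module.finrank ℂ (sec S.prm (fun ν => D ν - prd T ν)) : ℤ) =
      S.hh (n • S.A - S.cls T) := by
    rw [← hcl, ← LibCUR2.h0_sub S hT hD]
    rfl
  have e4 : (Module.finrank ℂ (sec S.prm (fun ν => D ν - prd B ν - prd T ν)) : ℤ) =
      S.hh (n • S.A - S.cls B - S.cls T) := by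
    rw [← hcl, ← hclB, ← LibCUR2.h0_sub S hT hDB]
    rfl
  have hinf : sec S.prm (fun ν => D ν - prd B ν) ⊓ sec S.prm (fun ν => D ν - prd T ν) =
      sec S.prm (fun ν => D ν - prd B ν - prd T ν) := by
    ext f
    rw [Submodule.mem_inf]
    constructor
    · rintro ⟨h2, h3⟩ ν hν hf
      have h4 := h2 ν hν hf
      have h5 := h3 ν hν hf
      simp only at h4 h5 ⊢
      by_cases h6 : ν = B
      · have h7 : ν ≠ T := fun h => hBT (h6.symm.trans h)
        rw [prd_ne h7]
        linarith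
      · rw [prd_ne h6]
        linarith
    · intro h2
      constructor
      · intro ν hν hf
        have h4 := h2 ν hν hf
        have h5 := prd_nonneg T ν
        simp only at h4 ⊢
        linarith
      · intro ν hν hf
        have h4 := h2 ν hν hf
        have h5 := prd_nonneg B ν
        simp only at h4 ⊢
        linarith
  have hle : sec S.prm (fun ν => D ν - prd B ν) ⊔ sec S.prm (fun ν => D ν - prd T ν) ≤
      sec S.prm D := by
    refine sup_le (sec_mono fun ν _ => ?_) (sec_mono fun ν _ => ?_)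
    · have := prd_nonneg B ν
      linarith
    · have := prd_nonneg T ν
      linarith
  refine ⟨hle, ?_⟩
  have i1 := S.finSec _ hDB
  have i2 := S.finSec _ hDT
  have h5 := Submodule.finrank_sup_add_finrank_inf_eq (sec S.prm (fun ν => D ν - prd B ν))
    (sec S.prm (fun ν => D ν - prd T ν))
  rw [hinf] at h5
  have h6 : (Module.finrank ℂ
        (sec S.prm (fun ν => D ν - prd B ν) ⊔ sec S.prm (fun ν => D ν - prd T ν) : Submodule ℂ L) : ℤ)
        + Module.finrank ℂ (sec S.prm (fun ν => D ν - prd B ν - prd T ν)) =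
      Module.finrank ℂ (sec S.prm (fun ν => D ν - prd B ν)) +
        Module.finrank ℂ (sec S.prm (fun ν => D ν - prd T ν)) := by
    exact_mod_cast h5
  rw [e2, e3, e4] at h6
  rw [e1]
  linarith

end Pool.Agent.LibK3
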