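import Pool.Agent.LibK3.AJ2
import Pool.Agent.LibK3.AJ3
import Pool.Agent.LibK3.AJ4
import Pool.Agent.LibK3.SP0

/-!
[K3A AJ5] ARC. `x := ctr S C v` (`isCtr_ctr`), `E` its order function, `c := min (kap B) (kap T)`,
`F := form (cls B) (cls T) ≥ 0` (`LibCUR2.C1'`), `μ := ordP v (ψ u) ≥ 1` (`IsCtr.pos`). Suppose
`μ F < c`; then `c > 0`. Let `K := c.toNat`, `n` large for `exists_jet K` and `finrank_two`,
`D := S.rep (n • S.A)`, `g := leq S D x` (`leq_spec`). For `j : Fin (F.toNat + 1)` let `s j ∈ sec D` with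
`Ge E K (s j * g - u ^ j)`. Then `ψ (s j g) = ψ (u) ^ j + ψ (s j g - u ^ j)`, the second term is `0` or has
order `≥ c > j μ` at `v` (`ordP_of_ge`), so `ψ (s j g) ≠ 0` has order `j μ` (`ord_add_of_ge` for the
valuation `P` of `exists_pl`). `V := sec D`, `W := sec (D - B) ⊔ sec (D - T)`: for `w ∈ W`, `ψ (w g)` is `0` or
of order `≥ c` (`ordP_sec_sub`, `kap ≥ c`). `count_mod`: if `∑ a j • s j ∈ W` then
`Ge P c (∑ a j • ψ (s j g))` (`RC.ψ_sum`, `RC.ψ_smul`), so `a = 0` by `indep_orders`. Hence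
`F + 1 + finrank W ≤ finrank V = finrank W + F`, a contradiction.
-/

set_option autoImplicit false

open Pool.Agent.LibGMM Pool.Agent.LibK Pool.Agent.LibKB
open Pool.Agent.LibLB (PSurf RLR)

namespace Pool.Agent.LibK3

variable {L : Type} [Field L] [Algebra ℂ L] {S : PSurf L} {C : RC L}

/-- **Two curves with a common arc.** -/
theorem arc_le (hC : C.ν ∈ S.prm) {B T : DVal L} (hB : B ∈ S.prm) (hT : T ∈ S.prm) (hBT : B ≠ T)
    (hBC : B ≠ C.ν) (hTC : T ≠ C.ν) (v : Plc) {u : L} (hu : u ∈ ctr S C v) (hu' : u⁻¹ ∉ ctr S C v)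
    (hu0 : C.ψ u ≠ 0) : min (kap S C v B) (kap S C v T) ≤
      ordP v (C.ψ u) * S.form (S.cls B) (S.cls T) := by
  obtain ⟨x, hxe⟩ : ∃ x, x = ctr S C v := ⟨_, rfl⟩
  have hx : IsCtr S C v x := by rw [hxe]; exact isCtr_ctr hC v
  rw [← hxe] at hu hu'
  have hxp := S.pt hx.pts
  obtain ⟨E, hE⟩ := hxp.exists_ord
  have hF : 0 ≤ S.form (S.cls B) (S.cls T) := LibCUR2.C1' S hB hT hBT
  have hμ : 1 ≤ ordP v (C.ψ u) := by
    rcases hx.pos u hu hu' with h | h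
    · exact absurd h hu0
    · omega
  by_contra hlt
  rw [not_le] at hlt
  obtain ⟨c, hc⟩ : ∃ c, c = min (kap S C v B) (kap S C v T) := ⟨_, rfl⟩
  rw [← hc] at hlt
  obtain ⟨μ, hμe⟩ : ∃ μ, μ = ordP v (C.ψ u) := ⟨_, rfl⟩
  obtain ⟨F, hFe⟩ : ∃ F, F = S.form (S.cls B) (S.cls T) := ⟨_, rfl⟩
  rw [← hμe, ← hFe] at hlt
  rw [← hμe] at hμ
  rw [← hFe] at hF
  have hcpos : 0 < c := lt_of_le_of_lt (mul_nonneg (by omega) hF) hlt
  have hK : ((c.toNat : ℕ) : ℤ) = c := Int.toNat_of_nonneg hcpos.le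
  have hFn : ((F.toNat : ℕ) : ℤ) = F := Int.toNat_of_nonneg hF
  obtain ⟨n₁, hn₁⟩ := exists_jet hx.pts hE c.toNat
  obtain ⟨n₂, hn₂⟩ := finrank_two S hB hT hBT
  have hD := S.isDiv_rep (max n₁ n₂ • S.A)
  have hcl := S.cl_rep (max n₁ n₂ • S.A)
  obtain ⟨D, hDe⟩ : ∃ D, D = S.rep (max n₁ n₂ • S.A) := ⟨_, rfl⟩
  rw [← hDe] at hD hcl
  obtain ⟨g, hg⟩ := hxp.exists_loc hD
  obtain ⟨h1, h2⟩ := hn₂ _ (le_max_right _ _) _ hD hcl
  have hfin := S.finSec _ hD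
  have hs : ∀ j : ℕ, ∃ s ∈ sec S.prm D, Ge E c (s * g - u ^ j) := fun j => by
    have h := hn₁ _ (le_max_left _ _) _ hD hcl g hg (u ^ j) (x.pow_mem hu j)
    rwa [hK] at h
  choose s hs1 hs2 using hs
  obtain ⟨P, hP⟩ := exists_pl v
  have hsx : ∀ j, s j * g ∈ x := fun j => hxp.germ_mem hg (hs1 j)
  have hux : ∀ j, u ^ j ∈ x := fun j => x.pow_mem hu j
  have huu : ∀ j : ℕ, C.ψ (u ^ j) ≠ 0 ∧ P.ord (C.ψ (u ^ j)) = j * μ := fun j => by
    rw [C.ψ_pow (hx.le hu), ord_pow P hu0, hP, ← hμe]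
    exact ⟨pow_ne_zero _ hu0, rfl⟩
  have hf : ∀ j : ℕ, j ≤ F.toNat → C.ψ (s j * g) ≠ 0 ∧ P.ord (C.ψ (s j * g)) = j * μ := by
    intro j hj
    have h3 : C.ψ (s j * g) = C.ψ (u ^ j) + C.ψ (s j * g - u ^ j) := by
      rw [← C.add _ (hx.le (hux j)) _ (hx.le (x.sub_mem (hsx j) (hux j)))]
      congr 1
      ring
    have h4 : (j : ℤ) * μ ≤ μ * F := by
      have h5 : (j : ℤ) ≤ F := by rw [← hFn]; exact_mod_cast hj
      nlinarith
    have h5 : Ge P (P.ord (C.ψ (u ^ j)) + 1) (C.ψ (s j * g - u ^ j)) := by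
      intro h6
      have h7 := ordP_of_ge hx hE (k := c.toNat) (x.sub_mem (hsx j) (hux j))
        (by rw [hK]; exact hs2 j) h6
      rw [hK] at h7
      rw [(huu j).2, hP]
      omega
    have h6 := ord_add_of_ge P (huu j).1 h5
    rw [← h3] at h6
    exact ⟨h6.1, h6.2.trans (huu j).2⟩
  have h3 := count_mod (V := sec S.prm D)
    (W := sec S.prm (fun ν => D ν - prd B ν) ⊔ sec S.prm (fun ν => D ν - prd T ν)) h1
    (N := F.toNat + 1) (fun i => s i) (fun i => hs1 _) ?_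
  · have h4 : ((F.toNat + 1 : ℕ) : ℤ) + (Module.finrank ℂ
        (sec S.prm (fun ν => D ν - prd B ν) ⊔ sec S.prm (fun ν => D ν - prd T ν) :
          Submodule ℂ L) : ℕ) ≤ (Module.finrank ℂ (sec S.prm D) : ℕ) := by
      exact_mod_cast h3
    rw [h2, ← hFe] at h4
    push_cast at h4
    rw [hFn] at h4
    linarith
  · intro a ha
    refine indep_orders P (fun i : Fin (F.toNat + 1) => C.ψ (s i * g))
      (fun i => (hf _ (Nat.lt_succ_iff.1 i.2)).1) ?_ c ?_ a ?_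
    · intro i j hij
      have h4 : P.ord (C.ψ (s i * g)) = P.ord (C.ψ (s j * g)) := hij
      rw [(hf _ (Nat.lt_succ_iff.1 i.2)).2, (hf _ (Nat.lt_succ_iff.1 j.2)).2] at h4
      have h5 : ((i : ℕ) : ℤ) = ((j : ℕ) : ℤ) := mul_right_cancel₀ (by omega) h4
      exact Fin.ext (by exact_mod_cast h5)
    · intro i
      rw [(hf _ (Nat.lt_succ_iff.1 i.2)).2]
      have h5 : ((i : ℕ) : ℤ) ≤ F := by
        have h6 : ((i : ℕ) : ℤ) ≤ (F.toNat : ℕ) := by exact_mod_cast Nat.lt_succ_iff.1 i.2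
        omega
      nlinarith
    · have hsum : (∑ i : Fin (F.toNat + 1), a i • C.ψ (s i * g)) =
          C.ψ ((∑ i : Fin (F.toNat + 1), a i • s i) * g) := by
        rw [Finset.sum_mul, C.ψ_sum]
        · refine Finset.sum_congr rfl fun i _ => ?_
          rw [smul_mul_assoc, C.ψ_smul _ (hx.le (hsx _))]
        · intro i _
          rw [smul_mul_assoc]
          exact C.ν.ring.smul_mem (hx.le (hsx _)) _
      rw [hsum]
      obtain ⟨p, hp, q, hq, hpq⟩ := Submodule.mem_sup.1 ha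
      have hp1 := ordP_sec_sub hC hx hB hBC hD hg hp
      have hq1 := ordP_sec_sub hC hx hT hTC hD hg hq
      rw [← hpq, add_mul, C.add _ (hx.le hp1.1) _ (hx.le hq1.1)]
      refine Ge.add (fun h4 => ?_) fun h4 => ?_
      · rw [hP]
        exact le_trans (hc ▸ min_le_left _ _) (hp1.2 h4)
      · rw [hP]
        exact le_trans (hc ▸ min_le_right _ _) (hq1.2 h4)

end Pool.Agent.LibK3
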