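import Pool.Agent.LibK3.BAD

/-! ROW BAB (block BA of the K3 bridge): finite extensions. 50 min.
PLAN. `basis` (BA11). INDEPENDENCE of `b' i = algebraMap F' L' (b i)` over `L`: let `∑ l i • b' i = 0`,
`l i ∈ L`. Common denominator: `h.frac` gives `l i = u i / v i`, multiply by `v = ∏ v i`: all `l i v` are in
`cadj L univ = cadj L (⊤ : Subalgebra k F)`; so assume `l i ∈ cadj L ⊤`. `h.comb ⊤`: `l i = ∑_j (c j) (f i j)`, `c`
independent over `k`, `f i j ∈ F`. In `L'`: `algebraMap L L' (algebraMap ℂ L c) = algebraMap ℂ L' c` (tower) and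
`hc`: `∑_j (c j) (algebraMap F' L' (∑_i f i j • b i)) = 0`, so by `h'.indep'` `∑_i f i j • b i = 0` for every `j`, hence
`f i j = 0`. GENERATION: the `L`-span `S` of the `b' i` contains `1` and is closed under multiplication
(`b i * b j` is an `F`-combination of the `b`, `b.sum_repr`, and scalars of `F` become scalars of `L` by `hc`),
contains the image of `F'` and of `ℂ`; make it a `Subalgebra L L'` (`Submodule.toSubalgebra`), finite
dimensional, so all its elements are algebraic over `L` and `S` is closed under inverses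
(`Subalgebra.inv_mem_of_algebraic`); `h'.frac` and `cadj L' univ ⊆ S` (`Algebra.adjoin_le`, as a
`ℂ`-subalgebra) give `S = ⊤`. `Basis.mk`.
`finite` (BA10): `Module.finBasis F F'` and `basis`; `Module.finrank_eq_card_basis`,
`Module.Basis.finiteDimensional_of_finite`. -/

set_option autoImplicit false

open Pool.Agent.LibGMM Pool.Agent.LibCov80
open scoped TensorProduct

namespace Pool.Agent.LibK3

variable {k : Type} [Field k] [CharZero k] [Algebra k ℂ]

variable {F L F' L' : Type} [Field F] [Field F'] [Field L] [Field L'] [Algebra k F]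
  [Algebra k F'] [Algebra ℂ L] [Algebra F L] [Algebra ℂ L'] [Algebra F' L']

omit [CharZero k] in
/-- A common denominator. -/
private theorem BAB_den (h : IsCx k F L) {n : ℕ} (l : Fin n → L) :
    ∃ v : L, v ≠ 0 ∧ ∀ i, v * l i ∈ cadj L ((⊤ : Subalgebra k F) : Set F) := by
  have ht : ((⊤ : Subalgebra k F) : Set F) = Set.univ := Algebra.coe_top
  rw [ht]
  choose u hu v hv hv0 hl using fun i => h.frac (l i)
  refine ⟨∏ i, v i, Finset.prod_ne_zero_iff.2 fun i _ => hv0 i, fun i => ?_⟩
  have h1 : (∏ j, v j) * l i = (∏ j ∈ Finset.univ.erase i, v j) * u i := by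
    rw [← Finset.prod_erase_mul Finset.univ v (Finset.mem_univ i), hl i]
    have := hv0 i
    field_simp
  rw [h1]
  exact mul_mem (Subalgebra.prod_mem _ fun j _ => hv j) (hu i)

private theorem BAB_map [Algebra F F'] [Algebra L L'] [IsScalarTower ℂ L L']
    (hc : ∀ z : F, algebraMap L L' (algebraMap F L z) = algebraMap F' L' (algebraMap F F' z))
    (c : ℂ) (z : F) : algebraMap L L' (algebraMap ℂ L c * algebraMap F L z) =
      algebraMap ℂ L' c * algebraMap F' L' (algebraMap F F' z) := by
  rw [map_mul, hc, ← IsScalarTower.algebraMap_apply ℂ L L']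

private theorem BAB_indep (h : IsCx k F L) (h' : IsCx k F' L') [Algebra F F']
    [Algebra L L'] [IsScalarTower ℂ L L']
    (hc : ∀ z : F, algebraMap L L' (algebraMap F L z) = algebraMap F' L' (algebraMap F F' z))
    {n : ℕ} (b : Module.Basis (Fin n) F F') :
    LinearIndependent L fun i => algebraMap F' L' (b i) := by
  rw [Fintype.linearIndependent_iff]
  intro l hl
  obtain ⟨v, hv, hm⟩ := BAB_den h l
  obtain ⟨m, c, f, hci, -, hf⟩ := h.comb ⊤ (fun i => v * l i) hm
  have h1 : ∑ i, algebraMap L L' (v * l i) * algebraMap F' L' (b i) = 0 := by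
    have h2 : ∑ i, algebraMap L L' (v * l i) * algebraMap F' L' (b i) =
        algebraMap L L' v * ∑ i, l i • algebraMap F' L' (b i) := by
      rw [Finset.mul_sum]
      refine Finset.sum_congr rfl fun i _ => ?_
      rw [Algebra.smul_def, map_mul]
      ring
    rw [h2, hl, mul_zero]
  have h3 : ∑ j, (∑ i, algebraMap F F' (f i j) * b i) • algebraMap ℂ L' (c j) = 0 := by
    rw [← h1]
    have h4 : ∀ i, algebraMap L L' (v * l i) * algebraMap F' L' (b i) =
        ∑ j, algebraMap ℂ L' (c j) * algebraMap F' L' (algebraMap F F' (f i j)) *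
          algebraMap F' L' (b i) := by
      intro i
      have h5 := congrArg (algebraMap L L') (hf i)
      rw [h5, map_sum, Finset.sum_mul]
      refine Finset.sum_congr rfl fun j _ => ?_
      rw [BAB_map hc]
    rw [Finset.sum_congr rfl fun i _ => h4 i, Finset.sum_comm]
    refine Finset.sum_congr rfl fun j _ => ?_
    rw [Algebra.smul_def, map_sum, Finset.sum_mul]
    refine Finset.sum_congr rfl fun i _ => ?_
    rw [map_mul]
    ring
  have h6 := Fintype.linearIndependent_iff.1 (h'.indep' m c hci) _ h3
  have h7 : ∀ j i, f i j = 0 := by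
    intro j
    have h8 := h6 j
    have h9 : ∑ i, f i j • b i = 0 := by
      rw [← h8]
      refine Finset.sum_congr rfl fun i _ => ?_
      rw [Algebra.smul_def]
    exact Fintype.linearIndependent_iff.1 b.linearIndependent _ h9
  intro i
  have h10 : v * l i = 0 := by
    have h11 := hf i
    rw [h11]
    refine Finset.sum_eq_zero fun j _ => ?_
    rw [h7 j i, map_zero, mul_zero]
  exact (mul_eq_zero.1 h10).resolve_left hv

omit [Algebra ℂ L] [Algebra ℂ L'] in
private theorem BAB_mem [Algebra F F'] [Algebra L L']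
    (hc : ∀ z : F, algebraMap L L' (algebraMap F L z) = algebraMap F' L' (algebraMap F F' z))
    {n : ℕ} (b : Module.Basis (Fin n) F F') (z : F') :
    algebraMap F' L' z ∈ Submodule.span L (Set.range fun i => algebraMap F' L' (b i)) := by
  have h1 : algebraMap F' L' z = ∑ i, algebraMap F L (b.repr z i) • algebraMap F' L' (b i) := by
    conv_lhs => rw [← b.sum_repr z]
    rw [map_sum]
    refine Finset.sum_congr rfl fun i _ => ?_
    rw [Algebra.smul_def, Algebra.smul_def, map_mul, hc]
  rw [h1]
  exact Submodule.sum_mem _ fun i _ => Submodule.smul_mem _ _ (Submodule.subset_span ⟨i, rfl⟩)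

omit [Algebra ℂ L] [Algebra ℂ L'] in
private theorem BAB_mul [Algebra F F'] [Algebra L L']
    (hc : ∀ z : F, algebraMap L L' (algebraMap F L z) = algebraMap F' L' (algebraMap F F' z))
    {n : ℕ} (b : Module.Basis (Fin n) F F') (x y : L')
    (hx : x ∈ Submodule.span L (Set.range fun i => algebraMap F' L' (b i)))
    (hy : y ∈ Submodule.span L (Set.range fun i => algebraMap F' L' (b i))) :
    x * y ∈ Submodule.span L (Set.range fun i => algebraMap F' L' (b i)) := by
  refine Submodule.span_induction ?_ ?_ ?_ ?_ hx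
  · rintro x ⟨i, rfl⟩
    refine Submodule.span_induction ?_ ?_ ?_ ?_ hy
    · rintro y ⟨j, rfl⟩
      show algebraMap F' L' (b i) * algebraMap F' L' (b j) ∈ _
      rw [← map_mul]
      exact BAB_mem hc b _
    · rw [mul_zero]
      exact Submodule.zero_mem _
    · intro y1 y2 _ _ h1 h2
      rw [mul_add]
      exact Submodule.add_mem _ h1 h2
    · intro l y1 _ h1
      rw [mul_smul_comm]
      exact Submodule.smul_mem _ _ h1
  · rw [zero_mul]
    exact Submodule.zero_mem _
  · intro y1 y2 _ _ h1 h2
    rw [add_mul]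
    exact Submodule.add_mem _ h1 h2
  · intro l y1 _ h1
    rw [smul_mul_assoc]
    exact Submodule.smul_mem _ _ h1

omit [CharZero k] [Algebra k F] in
private theorem BAB_top (h' : IsCx k F' L') [Algebra F F']
    [Algebra L L'] [IsScalarTower ℂ L L']
    (hc : ∀ z : F, algebraMap L L' (algebraMap F L z) = algebraMap F' L' (algebraMap F F' z))
    {n : ℕ} (b : Module.Basis (Fin n) F F') :
    ⊤ ≤ Submodule.span L (Set.range fun i => algebraMap F' L' (b i)) := by
  set S := Submodule.span L (Set.range fun i => algebraMap F' L' (b i)) with hS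
  have h1 : (1 : L') ∈ S := by
    rw [← map_one (algebraMap F' L')]
    exact BAB_mem hc b 1
  let T : Subalgebra L L' := S.toSubalgebra h1 (fun x y hx hy => BAB_mul hc b x y hx hy)
  have hT : ∀ x, x ∈ T ↔ x ∈ S := fun x => Iff.rfl
  have hfg : (Subalgebra.toSubmodule T).FG := by
    have h2 : Subalgebra.toSubmodule T = S := by
      ext x
      exact Iff.rfl
    rw [h2, hS]
    exact Submodule.fg_span (Set.finite_range _)
  have hle : cadj L' (Set.univ : Set F') ≤ T.restrictScalars ℂ := by
    refine Algebra.adjoin_le ?_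
    rintro x ⟨z, -, rfl⟩
    show algebraMap F' L' z ∈ S
    exact BAB_mem hc b z
  intro z _
  obtain ⟨u, hu, v, hv, -, rfl⟩ := h'.frac z
  have hu' : u ∈ T := hle hu
  have hv' : v ∈ T := hle hv
  have hint : IsAlgebraic L ((⟨v, hv'⟩ : T) : L') :=
    (IsIntegral.of_mem_of_fg T hfg v hv').isAlgebraic
  have hinv : v⁻¹ ∈ T := T.inv_mem_of_algebraic hint
  rw [div_eq_mul_inv]
  exact (hT _).1 (mul_mem hu' hinv)

/-- BA11. A basis of `F'` over `F` is a basis of `L'` over `L`. -/
theorem IsCx.basis (h : IsCx k F L) (h' : IsCx k F' L') [Algebra F F'] [IsScalarTower k F F']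
    [Algebra L L'] [IsScalarTower ℂ L L'] [FiniteDimensional F F']
    (hc : ∀ z : F, algebraMap L L' (algebraMap F L z) = algebraMap F' L' (algebraMap F F' z))
    {n : ℕ} (b : Module.Basis (Fin n) F F') :
    ∃ b' : Module.Basis (Fin n) L L', ∀ i, b' i = algebraMap F' L' (b i) :=
  ⟨Module.Basis.mk (BAB_indep h h' hc b) (BAB_top h' hc b), fun i => by
    rw [Module.Basis.mk_apply]⟩

/-- BA10. Finite extensions. -/
theorem IsCx.finite (h : IsCx k F L) (h' : IsCx k F' L') [Algebra F F'] [IsScalarTower k F F']
    [Algebra L L'] [IsScalarTower ℂ L L'] [FiniteDimensional F F']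
    (hc : ∀ z : F, algebraMap L L' (algebraMap F L z) = algebraMap F' L' (algebraMap F F' z)) :
    FiniteDimensional L L' ∧ Module.finrank L L' = Module.finrank F F' := by
  obtain ⟨b', -⟩ := h.basis h' hc (Module.finBasis F F')
  exact ⟨Module.Finite.of_basis b', by
    rw [Module.finrank_eq_card_basis b', Fintype.card_fin]⟩

end Pool.Agent.LibK3
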