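import Pool.Agent.LibK3.BAT

/-! ROW BAF (block BA of the K3 bridge): functoriality. 40 min.
PLAN. `exists_lift` (BA9): `letI : Algebra k M := ((algebraMap ℂ M).comp (algebraMap k ℂ)).toAlgebra`; `j` is a
`k`-algebra homomorphism (`hj`), `ψ = Algebra.TensorProduct.lift (Algebra.ofId ℂ M) j' _ : ℂ ⊗ F →ₐ[ℂ] M` is
injective (as in `exists_tensor`: a basis `b` of `F` over `k`; the images `j (b i)` are independent over `ℂ` by
`hind` for all finite subfamilies; alternatively make `M` itself no field of fractions but use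
`h.exists_tensor` and write an element of the kernel in the basis `Algebra.TensorProduct.basis ℂ b`). With
`e` of `exists_tensor`: `ψ ∘ e.symm : cadj L univ →ₐ[ℂ] M` injective, extends to `L` by
`h.isFractionRing` (`IsFractionRing.liftAlgHom` or `IsFractionRing.lift`, `IsFractionRing.lift_algebraMap`);
`ℂ`-linearity: check on `algebraMap ℂ L c`, the image of an element of `cadj`. `J (algebraMap F L z) =
ψ (1 ⊗ₜ z) = j z`.
`exists_map` (BA6): `exists_lift` with `M = L'` and `(algebraMap F' L').comp j`; `hj` from `h'.compat` and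
`j.commutes`; `hind`: `hb.map'` with the injective `k`-linear `j`, then `h'.indep`.
`hom_ext` (BA7): `J = J'` on `cadj L univ` (`AlgHom` equality on `Algebra.adjoin`: induction
`Algebra.adjoin_induction`), then `h.frac` and `map_div₀`.
`exists_equiv` (BA8): `exists_map` for `j` and `j.symm`, `AlgEquiv.ofAlgHom`, both compositions are the identity by
`hom_ext`. -/

set_option autoImplicit false

open Pool.Agent.LibGMM Pool.Agent.LibCov80
open scoped TensorProduct

namespace Pool.Agent.LibK3

variable {k : Type} [Field k] [CharZero k] [Algebra k ℂ]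

variable {F L F' L' : Type} [Field F] [Field F'] [Field L] [Field L'] [Algebra k F]
  [Algebra k F'] [Algebra ℂ L] [Algebra F L] [Algebra ℂ L'] [Algebra F' L']

omit [CharZero k] [Algebra k ℂ] [Algebra k F'] [Algebra ℂ L] [Algebra F L] in
private theorem BAF_indep {M : Type} [Field M] [Algebra ℂ M] (j : F →+* M)
    (hind : ∀ (n : ℕ) (b : Fin n → F), LinearIndependent k b → LinearIndependent ℂ fun i => j (b i))
    {ι : Type} {b : ι → F} (hb : LinearIndependent k b) :
    LinearIndependent ℂ fun i => j (b i) := by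
  rw [linearIndependent_iff_finset_linearIndependent]
  intro s
  have h1 : LinearIndependent k (b ∘ fun i : Fin s.card => (s.equivFin.symm i : ι)) :=
    hb.comp _ (Subtype.val_injective.comp s.equivFin.symm.injective)
  have h2 := hind _ _ h1
  have h3 := h2.comp s.equivFin s.equivFin.injective
  have h4 : ((fun i => j ((b ∘ fun i : Fin s.card => (s.equivFin.symm i : ι)) i)) ∘ s.equivFin) =
      (fun i => j (b i)) ∘ (Subtype.val : s → ι) := by
    funext i
    simp
  rw [h4] at h3
  exact h3

/-- BA9. A map to a third field. -/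
theorem IsCx.exists_lift (h : IsCx k F L) {M : Type} [Field M] [Algebra ℂ M] (j : F →+* M)
    (hj : ∀ c : k, j (algebraMap k F c) = algebraMap ℂ M (algebraMap k ℂ c))
    (hind : ∀ (n : ℕ) (b : Fin n → F), LinearIndependent k b → LinearIndependent ℂ fun i => j (b i)) :
    ∃ J : L →ₐ[ℂ] M, ∀ z : F, J (algebraMap F L z) = j z := by
  obtain ⟨e, he⟩ := h.exists_tensor
  let _ : Algebra k M := ((algebraMap ℂ M).comp (algebraMap k ℂ)).toAlgebra
  have : IsScalarTower k ℂ M := IsScalarTower.of_algebraMap_eq (fun _ => rfl)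
  let j' : F →ₐ[k] M := { j with commutes' := fun c => hj c }
  let ψ : (ℂ ⊗[k] F) →ₐ[ℂ] M :=
    Algebra.TensorProduct.lift (Algebra.ofId ℂ M) j' (fun _ _ => Commute.all _ _)
  have hψ1 : ∀ z : F, ψ (1 ⊗ₜ[k] z) = j z := by
    intro z
    have h1 : ψ (1 ⊗ₜ[k] z) = Algebra.ofId ℂ M 1 * j' z :=
      Algebra.TensorProduct.lift_tmul _ _ _ _ _
    rw [h1, map_one, one_mul]
    rfl
  have hψ : Function.Injective ψ := by
    rw [injective_iff_map_eq_zero]
    intro x hx
    let b := Module.Basis.ofVectorSpace k F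
    let B := Algebra.TensorProduct.basis ℂ b
    have h1 : LinearIndependent ℂ fun i => j (b i) := BAF_indep (k := k) j hind b.linearIndependent
    have h2 : Finsupp.linearCombination ℂ (fun i => j (b i)) (B.repr x) = 0 := by
      have h3 := Finsupp.apply_linearCombination ℂ ψ.toLinearMap B (B.repr x)
      rw [B.linearCombination_repr] at h3
      have h4 : (ψ.toLinearMap ∘ B : _ → M) = fun i => j (b i) := by
        funext i
        simp only [Function.comp_apply, B, Algebra.TensorProduct.basis_apply]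
        exact hψ1 (b i)
      rw [h4] at h3
      rw [← h3]
      exact hx
    have h5 := linearIndependent_iff.mp h1 _ h2
    exact B.repr.map_eq_zero_iff.mp h5
  have := h.isFractionRing
  let φ : cadj L (Set.univ : Set F) →ₐ[ℂ] M := ψ.comp (e.symm : _ →ₐ[ℂ] (ℂ ⊗[k] F))
  have hφ : Function.Injective φ := hψ.comp e.symm.injective
  refine ⟨IsFractionRing.liftAlgHom (K := L) hφ, fun z => ?_⟩
  have h6 : algebraMap F L z = algebraMap (cadj L (Set.univ : Set F)) L (e (1 ⊗ₜ[k] z)) := by
    have h7 := he 1 z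
    rw [map_one, one_mul] at h7
    exact h7.symm
  rw [h6, IsFractionRing.liftAlgHom_apply, IsFractionRing.lift_algebraMap]
  have h8 : φ (e (1 ⊗ₜ[k] z)) = ψ (e.symm (e (1 ⊗ₜ[k] z))) := rfl
  have h9 : φ (e (1 ⊗ₜ[k] z)) = j z := by rw [h8, e.symm_apply_apply, hψ1]
  exact h9

/-- BA6. Functoriality. -/
theorem IsCx.exists_map (h : IsCx k F L) (h' : IsCx k F' L') (j : F →ₐ[k] F') :
    ∃ J : L →ₐ[ℂ] L', ∀ z : F, J (algebraMap F L z) = algebraMap F' L' (j z) := by
  refine h.exists_lift ((algebraMap F' L').comp (j : F →+* F')) ?_ ?_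
  · intro c
    have h1 : ((algebraMap F' L').comp (j : F →+* F')) (algebraMap k F c) =
        algebraMap F' L' (j (algebraMap k F c)) := rfl
    rw [h1, j.commutes, h'.compat]
  · intro n b hb
    exact h'.indep n _ (hb.map' j.toLinearMap (LinearMap.ker_eq_bot.mpr j.toRingHom.injective))

/-- BA7. -/
theorem IsCx.hom_ext (h : IsCx k F L) {M : Type} [Field M] [Algebra ℂ M] (J J' : L →ₐ[ℂ] M)
    (hJ : ∀ z : F, J (algebraMap F L z) = J' (algebraMap F L z)) : J = J' := by
  have h1 : cadj L (Set.univ : Set F) ≤ AlgHom.equalizer J J' := by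
    refine Algebra.adjoin_le ?_
    rintro _ ⟨z, -, rfl⟩
    exact hJ z
  refine AlgHom.ext fun z => ?_
  obtain ⟨u, hu, v, hv, -, rfl⟩ := h.frac z
  rw [map_div₀, map_div₀]
  have h2 : J u = J' u := h1 hu
  have h3 : J v = J' v := h1 hv
  rw [h2, h3]

/-- BA8. -/
theorem IsCx.exists_equiv (h : IsCx k F L) (j : F ≃ₐ[k] F) :
    ∃ J : L ≃ₐ[ℂ] L, (∀ z : F, J (algebraMap F L z) = algebraMap F L (j z)) ∧
      ∀ z : F, J.symm (algebraMap F L z) = algebraMap F L (j.symm z) := by
  obtain ⟨J, hJ⟩ := h.exists_map h (j : F →ₐ[k] F)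
  obtain ⟨J', hJ'⟩ := h.exists_map h (j.symm : F →ₐ[k] F)
  have hJ1 : ∀ z : F, J (algebraMap F L z) = algebraMap F L (j z) := hJ
  have hJ1' : ∀ z : F, J' (algebraMap F L z) = algebraMap F L (j.symm z) := hJ'
  refine ⟨AlgEquiv.ofAlgHom J J' ?_ ?_, ?_, ?_⟩
  · refine h.hom_ext _ _ fun z => ?_
    rw [AlgHom.comp_apply, hJ1', hJ1, j.apply_symm_apply, AlgHom.id_apply]
  · refine h.hom_ext _ _ fun z => ?_
    rw [AlgHom.comp_apply, hJ1, hJ1', j.symm_apply_apply, AlgHom.id_apply]
  · intro z
    exact hJ1 z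
  · intro z
    exact hJ1' z

end Pool.Agent.LibK3
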