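import Pool.Agent.LibK3.BAT

/-! ROW BAR (block BA of the K3 bridge): transcendence degree. 45 min.
PLAN. Let `x : ι → F` be a transcendence basis of `F` over `k` (`exists_isTranscendenceBasis'`); claim
`y i = algebraMap F L (x i)` is a transcendence basis of `L` over `ℂ`. Then both `trdeg` are `#ι`
(`IsTranscendenceBasis.cardinalMk_eq_trdeg` or the lift version). INDEPENDENCE: `AlgebraicIndependent k x` means that
the monomials `∏ x i ^ (m i)`, `m : ι →₀ ℕ`, are independent over `k`
(`algebraicIndependent_iff`; e.g. `MvPolynomial.basisMonomials` mapped by the injective linear map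
`aeval x`); their images are independent over `ℂ` (`h.indep_any`) and are the monomials of `y`; so `aeval y` is
injective over `ℂ` (a polynomial is the sum of its coefficients times monomials,
`MvPolynomial.aeval_def`, `MvPolynomial.as_sum`). GENERATION: `L` is algebraic over
`E = IntermediateField.adjoin ℂ (range y)` (or `Algebra.adjoin`): every `z ∈ F` is algebraic over
`Algebra.adjoin k (range x)` (`IsTranscendenceBasis.isAlgebraic`), map a nonzero polynomial through `F → L`
(its coefficients land in `E`, `h.compat`), so the image of `z` is algebraic over `E`; the elements of `L` algebraic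
over the field `E` form a field (`algebraicClosure E L`) containing `ℂ` and the image of `F`, hence
everything by `h.frac`. Conclude with `isTranscendenceBasis_iff_algebraicIndependent_isAlgebraic` (or the
variant for an intermediate field, `AlgebraicIndependent.isTranscendenceBasis_iff_isAlgebraic`). -/

set_option autoImplicit false

open Pool.Agent.LibGMM Pool.Agent.LibCov80
open scoped TensorProduct

namespace Pool.Agent.LibK3

variable {k : Type} [Field k] [CharZero k] [Algebra k ℂ]

variable {F L : Type} [Field F] [Field L] [Algebra k F] [Algebra ℂ L] [Algebra F L]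

private theorem BAR_indep (h : IsCx k F L) {ι : Type} {x : ι → F}
    (hx : AlgebraicIndependent k x) :
    AlgebraicIndependent ℂ fun i => algebraMap F L (x i) := by
  have h1 : LinearIndependent k fun m : ι →₀ ℕ => m.prod fun i n => x i ^ n := by
    have h2 := (MvPolynomial.basisMonomials ι k).linearIndependent.map'
      (MvPolynomial.aeval x : MvPolynomial ι k →ₐ[k] F).toLinearMap
      (LinearMap.ker_eq_bot.2 hx)
    have h3 : (fun m : ι →₀ ℕ => m.prod fun i n => x i ^ n) =
        (MvPolynomial.aeval x : MvPolynomial ι k →ₐ[k] F).toLinearMap ∘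
          (MvPolynomial.basisMonomials ι k) := by
      funext m
      rw [Function.comp_apply, MvPolynomial.coe_basisMonomials, AlgHom.toLinearMap_apply,
        MvPolynomial.aeval_monomial, map_one, one_mul]
    rw [h3]
    exact h2
  have h3 := h.indep_any h1
  rw [algebraicIndependent_iff]
  intro p hp
  rw [MvPolynomial.aeval_def, MvPolynomial.eval₂_eq] at hp
  ext m
  rw [MvPolynomial.coeff_zero]
  by_contra hm
  refine hm (linearIndependent_iff'.1 h3 p.support (fun m => p.coeff m) ?_ m
    (MvPolynomial.mem_support_iff.2 hm))
  rw [← hp]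
  refine Finset.sum_congr rfl fun d _ => ?_
  rw [Algebra.smul_def, map_finsuppProd]
  congr 1
  refine Finset.prod_congr rfl fun i _ => ?_
  exact map_pow _ _ _

omit [CharZero k] in
private theorem BAR_mem (h : IsCx k F L) {ι : Type} (x : ι → F) (a : F)
    (ha : a ∈ Algebra.adjoin k (Set.range x)) :
    algebraMap F L a ∈ Algebra.adjoin ℂ (Set.range fun i => algebraMap F L (x i)) := by
  induction ha using Algebra.adjoin_induction with
  | mem a ha =>
    obtain ⟨i, rfl⟩ := ha
    exact Algebra.subset_adjoin ⟨i, rfl⟩
  | algebraMap c =>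
    rw [h.compat]
    exact Subalgebra.algebraMap_mem _ _
  | add a b _ _ ha hb =>
    rw [map_add]
    exact Subalgebra.add_mem _ ha hb
  | mul a b _ _ ha hb =>
    rw [map_mul]
    exact Subalgebra.mul_mem _ ha hb

omit [CharZero k] in
private theorem BAR_alg (h : IsCx k F L) {ι : Type} {x : ι → F} (hx : IsTranscendenceBasis k x) :
    Algebra.IsAlgebraic (Algebra.adjoin ℂ (Set.range fun i => algebraMap F L (x i))) L := by
  have h1 := hx.isAlgebraic
  have hF : ∀ z : F, IsAlgebraic
      (Algebra.adjoin ℂ (Set.range fun i => algebraMap F L (x i))) (algebraMap F L z) := by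
    intro z
    let f : Algebra.adjoin k (Set.range x) →+*
        Algebra.adjoin ℂ (Set.range fun i => algebraMap F L (x i)) :=
      { toFun := fun a => ⟨algebraMap F L a, BAR_mem h x a.1 a.2⟩
        map_one' := Subtype.ext (map_one _)
        map_mul' := fun a b => Subtype.ext (map_mul _ _ _)
        map_zero' := Subtype.ext (map_zero _)
        map_add' := fun a b => Subtype.ext (map_add _ _ _) }
    refine (h1.isAlgebraic z).ringHom_of_comp_eq f (algebraMap F L) (fun a b hab => ?_) rfl
    exact Subtype.ext ((algebraMap F L).injective (congrArg Subtype.val hab))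
  have hA : ∀ z ∈ cadj L (Set.univ : Set F), IsAlgebraic
      (Algebra.adjoin ℂ (Set.range fun i => algebraMap F L (x i))) z := by
    intro z hz
    induction hz using Algebra.adjoin_induction with
    | mem a ha =>
      obtain ⟨b, _, rfl⟩ := ha
      exact hF b
    | algebraMap c =>
      exact isAlgebraic_algebraMap
        (algebraMap ℂ (Algebra.adjoin ℂ (Set.range fun i => algebraMap F L (x i))) c)
    | add a b _ _ ha hb => exact ha.add hb
    | mul a b _ _ ha hb => exact ha.mul hb
  refine ⟨fun z => ?_⟩
  obtain ⟨u, hu, v, hv, _, rfl⟩ := h.frac z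
  rw [div_eq_mul_inv]
  exact (hA u hu).mul (hA v hv).inv

/-- BA12. -/
theorem IsCx.trdeg (h : IsCx k F L) : Algebra.trdeg ℂ L = Algebra.trdeg k F := by
  obtain ⟨ι, x, hx⟩ := exists_isTranscendenceBasis' k F
  have hy : IsTranscendenceBasis ℂ fun i => algebraMap F L (x i) :=
    isTranscendenceBasis_iff_algebraicIndependent_isAlgebraic.2 ⟨BAR_indep h hx.1, BAR_alg h hx⟩
  rw [← hx.cardinalMk_eq_trdeg, ← hy.cardinalMk_eq_trdeg]

end Pool.Agent.LibK3
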