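import Pool.Agent.LibK3.BAX
import Pool.Agent.LibK3.BAB
import Pool.Agent.LibK3.BAF
import Pool.Agent.LibK3.BAR

/-!
Block BA: the field `L = Frac (ℂ ⊗ F)`. Everything is in the imported files: BAT (tensor product), BAM (BA2, BA4), BAD
(BA3, BA5), BAX (BA1), BAF (BA6 to BA9), BAB (BA10, BA11), BAR (BA12).
-/
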