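import Pool.Agent.LibK3.BAM

/-! ROW BAD (block BA of the K3 bridge): coefficients with respect to a basis of `ℂ` over `k`. 40 min.
PLAN. `indep'`: suppose `∑ (f i) * (c i) = 0` in `L` with `f i ∈ F` (`Fintype.linearIndependent_iff`). In
`ℂ ⊗ F` (`exists_tensor`) the element `∑ c i ⊗ₜ f i` is `0`. Since the `c i` are independent over `k`, all `f i` are
zero (`TensorProduct` over a field: e.g. the symmetric basis `Algebra.TensorProduct.basis` for
`F ⊗ ℂ` after `TensorProduct.comm`, or: choose a finite independent family `b j` of `F` over `k` spanning the `f i`,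
`f i = ∑ a i j b j`, `a i j ∈ k`; then `∑_j (∑_i a i j c i) (b j) = 0`, `h.indep` gives `∑_i a i j c i = 0` in `ℂ`
for each `j`, so `a i j = 0`). The second way needs no tensor product.
`comb`: every element of `ℂ B` is `∑ c i * b' i` with `c` independent over `k` and `b' i ∈ B`, and two elements
have such representations with the same `c`: `mem_cadj` for both, take a basis `c'` (indexed by `Fin n`) of
the finite dimensional `k`-subspace of `ℂ` spanned by all coefficients (`Module.finBasis`,
`Submodule.subtype` keeps independence), expand the coefficients, exchange the sums.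
`descent`: `comb` for `b`, `a`: `∑ c i * (z b' i - a' i) = 0` in `L`, `indep'`. If all `b' i = 0` then `b = 0`. -/

set_option autoImplicit false

open Pool.Agent.LibGMM Pool.Agent.LibCov80
open scoped TensorProduct

namespace Pool.Agent.LibK3

variable {k : Type} [Field k] [CharZero k] [Algebra k ℂ]

variable {F L : Type} [Field F] [Field L] [Algebra k F] [Algebra ℂ L] [Algebra F L]

/-- BA5. Elements of `ℂ` which are linearly independent over `k` stay independent over `F`. -/
theorem IsCx.indep' (h : IsCx k F L) (n : ℕ) (c : Fin n → ℂ) (hc : LinearIndependent k c) :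
    LinearIndependent F fun i => algebraMap ℂ L (c i) := by
  rw [Fintype.linearIndependent_iff] at hc ⊢
  intro f hf
  let W : Submodule k F := Submodule.span k (Set.range f)
  haveI : FiniteDimensional k W := FiniteDimensional.span_of_finite k (Set.finite_range f)
  let b := Module.finBasis k W
  have hfW : ∀ i, f i ∈ W := fun i => Submodule.subset_span ⟨i, rfl⟩
  let r : Fin n → Fin (Module.finrank k W) → k := fun i j => b.repr ⟨f i, hfW i⟩ j
  have hfr : ∀ i, f i = ∑ j, r i j • (b j : F) := by
    intro i
    have h4 := congrArg (W.subtype) (b.sum_repr ⟨f i, hfW i⟩)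
    rw [map_sum] at h4
    exact h4.symm
  have hbF : LinearIndependent k fun j => (b j : F) :=
    b.linearIndependent.map' W.subtype W.ker_subtype
  have hbL := h.indep _ _ hbF
  rw [Fintype.linearIndependent_iff] at hbL
  have h1 : ∀ j, ∑ i, r i j • c i = 0 := by
    refine hbL (fun j => ∑ i, r i j • c i) ?_
    have h2 : ∀ j, (∑ i, r i j • c i) • algebraMap F L (b j : F) =
        ∑ i, algebraMap F L (r i j • (b j : F)) * algebraMap ℂ L (c i) := by
      intro j
      rw [Finset.sum_smul]
      refine Finset.sum_congr rfl fun i _ => ?_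
      rw [BAM_smul, Algebra.smul_def, Algebra.smul_def, map_mul, map_mul, h.compat]
      ring
    simp only [h2]
    rw [Finset.sum_comm]
    refine Eq.trans ?_ hf
    refine Finset.sum_congr rfl fun i _ => ?_
    rw [Algebra.smul_def, ← Finset.sum_mul, ← map_sum, ← hfr i]
  intro i
  rw [hfr i]
  refine Finset.sum_eq_zero fun j _ => ?_
  rw [hc (fun i => r i j) (h1 j) i, zero_smul]

theorem IsCx.comb (h : IsCx k F L) (B : Subalgebra k F) {m : ℕ} (a : Fin m → L)
    (ha : ∀ j, a j ∈ cadj L (B : Set F)) :
    ∃ (n : ℕ) (c : Fin n → ℂ) (a' : Fin m → Fin n → F), LinearIndependent k c ∧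
      (∀ j i, a' j i ∈ B) ∧ ∀ j, a j = ∑ i, algebraMap ℂ L (c i) * algebraMap F L (a' j i) := by
  choose n c b hb hli hz using fun j => (h.mem_cadj B (a j)).1 (ha j)
  let T : Submodule k ℂ := Submodule.span k (Set.range fun p : (Σ j : Fin m, Fin (n j)) => c p.1 p.2)
  haveI : FiniteDimensional k T := FiniteDimensional.span_of_finite k (Set.finite_range _)
  let t := Module.finBasis k T
  have hcT : ∀ j i, c j i ∈ T := fun j i => Submodule.subset_span ⟨⟨j, i⟩, rfl⟩
  let r : ∀ j, Fin (n j) → Fin (Module.finrank k T) → k := fun j i l => t.repr ⟨c j i, hcT j i⟩ l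
  have hcr : ∀ j i, c j i = ∑ l, r j i l • (t l : ℂ) := by
    intro j i
    have h4 := congrArg (T.subtype) (t.sum_repr ⟨c j i, hcT j i⟩)
    rw [map_sum] at h4
    exact h4.symm
  refine ⟨_, fun l => (t l : ℂ), fun j l => ∑ i, r j i l • b j i, ?_, ?_, ?_⟩
  · exact t.linearIndependent.map' T.subtype T.ker_subtype
  · intro j l
    exact Subalgebra.sum_mem _ fun i _ => Subalgebra.smul_mem _ (hb j i) _
  · intro j
    rw [hz j]
    have h1 : ∀ i, algebraMap ℂ L (c j i) * algebraMap F L (b j i) =
        ∑ l, algebraMap ℂ L (t l : ℂ) * algebraMap F L (r j i l • b j i) := by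
      intro i
      rw [hcr j i, map_sum, Finset.sum_mul]
      refine Finset.sum_congr rfl fun l _ => ?_
      rw [Algebra.smul_def, Algebra.smul_def, map_mul, map_mul, h.compat]
      ring
    simp only [h1]
    rw [Finset.sum_comm]
    refine Finset.sum_congr rfl fun l _ => ?_
    rw [map_sum, Finset.mul_sum]

/-- BA3. Descent: if `z b = a` with `a, b ∈ ℂ B`, `b ≠ 0`, `z ∈ F`, then `z` is a fraction of `B`; more
precisely `z b' = a'` for the coefficients with respect to a basis of `ℂ` over `k`. -/
theorem IsCx.descent (h : IsCx k F L) (B : Subalgebra k F) (z : F) {a b : L}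
    (ha : a ∈ cadj L (B : Set F)) (hb : b ∈ cadj L (B : Set F)) (hb0 : b ≠ 0)
    (hz : algebraMap F L z * b = a) :
    ∃ (n : ℕ) (c : Fin n → ℂ) (b' a' : Fin n → F), (∀ i, b' i ∈ B) ∧ (∀ i, a' i ∈ B) ∧
      LinearIndependent k c ∧ (∃ i, b' i ≠ 0) ∧ (∀ i, z * b' i = a' i) ∧
      b = ∑ i, algebraMap ℂ L (c i) * algebraMap F L (b' i) := by
  obtain ⟨n, c, a', hc, hB, he⟩ := h.comb B ![a, b] (by
    intro j
    fin_cases j
    · exact ha
    · exact hb)
  have ea : a = ∑ i, algebraMap ℂ L (c i) * algebraMap F L (a' 0 i) := he 0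
  have eb : b = ∑ i, algebraMap ℂ L (c i) * algebraMap F L (a' 1 i) := he 1
  refine ⟨n, c, a' 1, a' 0, hB 1, hB 0, hc, ?_, ?_, eb⟩
  · by_contra hn
    push Not at hn
    apply hb0
    rw [eb]
    refine Finset.sum_eq_zero fun i _ => ?_
    rw [hn i, map_zero, mul_zero]
  · have h1 := h.indep' n c hc
    rw [Fintype.linearIndependent_iff] at h1
    have h2 := h1 (fun i => z * a' 1 i - a' 0 i) (by
      have h3 : algebraMap F L z * b - a = 0 := by rw [hz, sub_self]
      rw [eb, ea, Finset.mul_sum, ← Finset.sum_sub_distrib] at h3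
      refine Eq.trans ?_ h3
      refine Finset.sum_congr rfl fun i _ => ?_
      rw [Algebra.smul_def, map_sub, map_mul]
      ring)
    intro i
    exact sub_eq_zero.1 (h2 i)

end Pool.Agent.LibK3
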