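import Pool.Agent.LibK3.BAT

/-! ROW BAM (block BA of the K3 bridge): elements of `ℂ B`. 30 min.
PLAN. `mem_cadj`: from right to left: sums and products in the subalgebra `cadj L B`
(`Algebra.subset_adjoin`). From left to right: `Algebra.adjoin_eq_span` and `B` is multiplicatively closed,
so `cadj L B` is the `ℂ`-span of the image of `B` (or `Algebra.adjoin_induction`, showing that the set of
the elements which are finite sums `∑ c i * b i`, `b i ∈ B`, is closed under sums and products); every
`b ∈ B` is a `k`-combination of a basis of the `k`-space `B` (`Basis.ofVectorSpace k B`), so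
`z = ∑_(i ∈ s) c i * b i` with distinct basis elements; reindex the finite set `s` by `Fin n`
(`Finset.equivFin`). `h.compat` moves the scalars of `k` from `F` to `ℂ`. The vectors `b i` are independent over `k`:
`LinearIndependent.map'` with the inclusion `B → F`.
`mem_of_mem_cadj`: `z = ∑ c i * b i` with `b i ∈ B` independent over `k` (`mem_cadj`). If `z` is not in
`span k (range b)`, the family `(z, b)` is independent (`LinearIndependent.finCons` /
`linearIndependent_finCons`), so its image is independent over `ℂ` (`h.indep (n + 1)`), against the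
relation `z - ∑ c i * b i = 0`. So `z ∈ span k (range b) ⊆ B`. -/

set_option autoImplicit false

open Pool.Agent.LibGMM Pool.Agent.LibCov80
open scoped TensorProduct

namespace Pool.Agent.LibK3

variable {k : Type} [Field k] [CharZero k] [Algebra k ℂ]

variable {F L : Type} [Field F] [Field L] [Algebra k F] [Algebra ℂ L] [Algebra F L]

theorem BAM_span (B : Subalgebra k F) (z : L) (hz : z ∈ cadj L (B : Set F)) :
    z ∈ Submodule.span ℂ (algebraMap F L '' (B : Set F)) := by
  have h1 : z ∈ Subalgebra.toSubmodule (Algebra.adjoin ℂ (algebraMap F L '' (B : Set F))) := hz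
  rw [Algebra.adjoin_eq_span] at h1
  have h2 : (Submonoid.closure (algebraMap F L '' (B : Set F)) : Set L) ⊆
      algebraMap F L '' (B : Set F) := by
    have h3 : Submonoid.closure (algebraMap F L '' (B : Set F)) ≤
        B.toSubmonoid.map (algebraMap F L) := by
      rw [Submonoid.closure_le]
      rintro _ ⟨b, hb, rfl⟩
      exact ⟨b, hb, rfl⟩
    intro x hx
    obtain ⟨b, hb, hbx⟩ := h3 hx
    exact ⟨b, hb, hbx⟩
  exact Submodule.span_mono h2 h1

theorem BAM_smul (c : ℂ) (x : L) : c • x = algebraMap ℂ L c * x := Algebra.smul_def c x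

/-- BA2. Elements of `ℂ B`. -/
theorem IsCx.mem_cadj (h : IsCx k F L) (B : Subalgebra k F) (z : L) :
    z ∈ cadj L (B : Set F) ↔ ∃ (n : ℕ) (c : Fin n → ℂ) (b : Fin n → F), (∀ i, b i ∈ B) ∧
      LinearIndependent k b ∧ z = ∑ i, algebraMap ℂ L (c i) * algebraMap F L (b i) := by
  classical
  constructor
  · intro hz
    have h1 := BAM_span B z hz
    let v := Module.Basis.ofVectorSpace k B
    have h2 : Submodule.span ℂ (algebraMap F L '' (B : Set F)) ≤
        Submodule.span ℂ (Set.range fun i => algebraMap F L (v i : F)) := by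
      rw [Submodule.span_le]
      rintro _ ⟨b, hb, rfl⟩
      have h3 : b = ∑ i ∈ (v.repr ⟨b, hb⟩).support, (v.repr ⟨b, hb⟩ i) • (v i : F) := by
        have h4 := congrArg (Subtype.val : B → F) (v.linearCombination_repr ⟨b, hb⟩)
        rw [Finsupp.linearCombination_apply, Finsupp.sum] at h4
        have h5 : (B.val : B → F) (∑ i ∈ (v.repr ⟨b, hb⟩).support,
            (v.repr ⟨b, hb⟩ i) • v i) = b := h4
        rw [map_sum] at h5
        exact h5.symm
      rw [h3, map_sum]
      refine Submodule.sum_mem _ fun i _ => ?_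
      rw [Algebra.smul_def, map_mul, h.compat, ← BAM_smul]
      exact Submodule.smul_mem _ _ (Submodule.subset_span ⟨i, rfl⟩)
    obtain ⟨c, hc⟩ := (Finsupp.mem_span_range_iff_exists_finsupp).1 (h2 h1)
    refine ⟨c.support.card, fun j => c (c.support.equivFin.symm j),
      fun j => (v (c.support.equivFin.symm j) : F), fun j => (v _).2, ?_, ?_⟩
    · have h3 : LinearIndependent k fun i => (v i : F) :=
        v.linearIndependent.map' B.val.toLinearMap
          (LinearMap.ker_eq_bot.2 Subtype.val_injective)
      exact h3.comp _ (Subtype.val_injective.comp c.support.equivFin.symm.injective)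
    · rw [← hc, Finsupp.sum, ← Finset.sum_coe_sort]
      rw [← Equiv.sum_comp c.support.equivFin.symm]
      refine Finset.sum_congr rfl fun j _ => ?_
      rw [BAM_smul]
  · rintro ⟨n, c, b, hb, -, rfl⟩
    refine Subalgebra.sum_mem _ fun i _ => Subalgebra.mul_mem _ (Subalgebra.algebraMap_mem _ _) ?_
    exact Algebra.subset_adjoin ⟨b i, hb i, rfl⟩

/-- BA4. -/
theorem IsCx.mem_of_mem_cadj (h : IsCx k F L) (B : Subalgebra k F) (z : F)
    (hz : algebraMap F L z ∈ cadj L (B : Set F)) : z ∈ B := by
  obtain ⟨n, c, b, hb, hind, hzb⟩ := (h.mem_cadj B _).1 hz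
  by_contra hzB
  have h1 : z ∉ Submodule.span k (Set.range b) := by
    intro hmem
    apply hzB
    have h2 : Submodule.span k (Set.range b) ≤ Subalgebra.toSubmodule B := by
      rw [Submodule.span_le]
      rintro _ ⟨i, rfl⟩
      exact hb i
    exact h2 hmem
  have h2 : LinearIndependent k (Fin.cons z b : Fin (n + 1) → F) :=
    linearIndependent_finCons.2 ⟨hind, h1⟩
  have h3 := h.indep (n + 1) _ h2
  rw [Fintype.linearIndependent_iff] at h3
  have h4 := h3 (Fin.cons 1 (fun i => -c i) : Fin (n + 1) → ℂ) (by
    rw [Fin.sum_univ_succ]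
    simp only [Fin.cons_zero, Fin.cons_succ, one_smul]
    rw [hzb, ← Finset.sum_add_distrib]
    refine Finset.sum_eq_zero fun i _ => ?_
    rw [BAM_smul, map_neg]
    ring) 0
  rw [Fin.cons_zero] at h4
  exact one_ne_zero h4

end Pool.Agent.LibK3
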