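import Pool.Agent.LibK3.BDefs

/-! ROW BAT (block BA of the K3 bridge): the tensor product and the algebra `ℂ F`. 40 min.
PLAN. `indep_any`: `linearIndependent_iff_finset_linearIndependent` (a finite subfamily is indexed by
`Fin n` through `Finset.equivFin`; `LinearIndependent.comp`, `h.indep`; reindex by the equivalence).
`exists_tensor`: local instance `letI : Algebra k L := ((algebraMap ℂ L).comp (algebraMap k ℂ)).toAlgebra`,
scalar towers `k ℂ L` (rfl) and `k F L` (`h.compat`); the map `φ = Algebra.TensorProduct.lift
(Algebra.ofId ℂ L) (IsScalarTower.toAlgHom k F L) (fun _ _ => Commute.all _ _)`, with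
`φ (c ⊗ₜ z) = algebraMap ℂ L c * algebraMap F L z`. Its range is `cadj L univ` (`Algebra.adjoin_le` and
induction on tensors; the image of `F` is hit by `1 ⊗ₜ z`). Injective: let `b` be a basis of `F` over `k`
(`Module.Free.chooseBasis` or `Basis.ofVectorSpace`), `Algebra.TensorProduct.basis ℂ b` a basis of
`ℂ ⊗ F` over `ℂ` whose image under `φ` is independent (`indep_any`): `LinearMap` injective on a basis
(`LinearMap.ker_eq_bot` / `Basis.ext`, e.g. `LinearIndependent` of the image gives
`(Algebra.TensorProduct.basis ℂ b).linearIndependent ... LinearMap.injective_of_linearIndependent`-like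
argument: write `x` in the basis, `map_eq_zero`). Then `AlgEquiv.ofInjective` and equality of the range.
`isFractionRing`: `IsFractionRing.of_field`-like: every element of `L` is a quotient of two elements of the
subring (`h.frac`); construct `IsLocalization (nonZeroDivisors _) L` by its three fields. -/

set_option autoImplicit false

open Pool.Agent.LibGMM Pool.Agent.LibCov80
open scoped TensorProduct

namespace Pool.Agent.LibK3

variable {k : Type} [Field k] [CharZero k] [Algebra k ℂ]

variable {F L : Type} [Field F] [Field L] [Algebra k F] [Algebra ℂ L] [Algebra F L]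

theorem IsCx.indep_any (h : IsCx k F L) {ι : Type} {b : ι → F} (hb : LinearIndependent k b) :
    LinearIndependent ℂ fun i => algebraMap F L (b i) := by
  rw [linearIndependent_iff_finset_linearIndependent]
  intro s
  have e := s.equivFin
  have h1 : LinearIndependent k fun i : Fin s.card => b (e.symm i).1 :=
    hb.comp (fun i : Fin s.card => (e.symm i).1)
      (Subtype.val_injective.comp e.symm.injective)
  have h2 := h.indep s.card _ h1
  have h3 := h2.comp e e.injective
  have h4 : ((fun i => algebraMap F L (b (e.symm i).1)) ∘ e) =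
      ((fun i => algebraMap F L (b i)) ∘ (Subtype.val : s → ι)) := by
    funext i
    simp only [Function.comp_apply, Equiv.symm_apply_apply]
  rw [h4] at h3
  exact h3

theorem IsCx.exists_tensor (h : IsCx k F L) :
    ∃ e : (ℂ ⊗[k] F) ≃ₐ[ℂ] cadj L (Set.univ : Set F),
      ∀ (c : ℂ) (z : F), (e (c ⊗ₜ[k] z) : L) = algebraMap ℂ L c * algebraMap F L z := by
  letI : Algebra k L := ((algebraMap ℂ L).comp (algebraMap k ℂ)).toAlgebra
  haveI : IsScalarTower k ℂ L := IsScalarTower.of_algebraMap_eq fun c => rfl
  haveI : IsScalarTower k F L := IsScalarTower.of_algebraMap_eq fun c => (h.compat c).symm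
  let φ : (ℂ ⊗[k] F) →ₐ[ℂ] L := Algebra.TensorProduct.lift (Algebra.ofId ℂ L)
    (IsScalarTower.toAlgHom k F L) (fun _ _ => Commute.all _ _)
  have hφ : ∀ (c : ℂ) (z : F), φ (c ⊗ₜ[k] z) = algebraMap ℂ L c * algebraMap F L z := by
    intro c z
    rw [Algebra.TensorProduct.lift_tmul]
    rfl
  have hinj : Function.Injective φ := by
    let b := Module.Basis.ofVectorSpace k F
    have hb : LinearIndependent ℂ fun i => algebraMap F L (b i) := h.indep_any b.linearIndependent
    have hB : ∀ i, φ ((Algebra.TensorProduct.basis ℂ b) i) = algebraMap F L (b i) := by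
      intro i
      rw [Algebra.TensorProduct.basis_apply, hφ, map_one, one_mul]
    rw [injective_iff_map_eq_zero]
    intro x hx
    have h1 := (Algebra.TensorProduct.basis ℂ b).linearCombination_repr x
    rw [← h1] at hx
    rw [Finsupp.linearCombination_apply, Finsupp.sum, map_sum] at hx
    have h2 : ∑ i ∈ ((Algebra.TensorProduct.basis ℂ b).repr x).support,
        ((Algebra.TensorProduct.basis ℂ b).repr x) i • algebraMap F L (b i) = 0 := by
      rw [← hx]
      refine Finset.sum_congr rfl fun i _ => ?_
      rw [map_smul, hB]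
    have h3 := linearIndependent_iff.1 hb ((Algebra.TensorProduct.basis ℂ b).repr x) h2
    exact (Algebra.TensorProduct.basis ℂ b).repr.map_eq_zero_iff.1 h3
  have hr : φ.range = cadj L (Set.univ : Set F) := by
    apply le_antisymm
    · rintro _ ⟨x, rfl⟩
      induction x using TensorProduct.induction_on with
      | zero => exact (map_zero φ).symm ▸ (cadj L (Set.univ : Set F)).zero_mem
      | tmul c z =>
        have : φ (c ⊗ₜ[k] z) ∈ cadj L (Set.univ : Set F) := by
          rw [hφ]
          exact (cadj L (Set.univ : Set F)).mul_mem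
            ((cadj L (Set.univ : Set F)).algebraMap_mem c)
            (Algebra.subset_adjoin ⟨z, Set.mem_univ z, rfl⟩)
        exact this
      | add x y hx hy =>
        have : φ (x + y) ∈ cadj L (Set.univ : Set F) := by
          rw [map_add]
          exact (cadj L (Set.univ : Set F)).add_mem hx hy
        exact this
    · refine Algebra.adjoin_le ?_
      rintro _ ⟨z, _, rfl⟩
      refine ⟨(1 : ℂ) ⊗ₜ[k] z, ?_⟩
      have : φ ((1 : ℂ) ⊗ₜ[k] z) = algebraMap F L z := by
        rw [hφ, map_one, one_mul]
      exact this
  refine ⟨(AlgEquiv.ofInjective φ hinj).trans (Subalgebra.equivOfEq _ _ hr), ?_⟩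
  intro c z
  exact hφ c z

theorem IsCx.isFractionRing (h : IsCx k F L) :
    IsFractionRing (cadj L (Set.univ : Set F)) L := by
  haveI : FaithfulSMul (cadj L (Set.univ : Set F)) L :=
    (faithfulSMul_iff_algebraMap_injective _ _).2 Subtype.val_injective
  refine IsFractionRing.of_field _ _ fun z => ?_
  obtain ⟨u, hu, v, hv, -, e⟩ := h.frac z
  exact ⟨⟨u, hu⟩, ⟨v, hv⟩, e⟩

end Pool.Agent.LibK3
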