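import Pool.Agent.LibK3.BDefs
import Pool.Agent.LibFB.Reg

/-! ROW BAX (block BA of the K3 bridge): existence of the field `L`. 30 min.
PLAN. `T = ℂ ⊗[k] F` is a domain: `LibFB.isDomain_regular` (with `B := F`, `F := ℂ`). `L = FractionRing T`,
`Algebra ℂ L` the standard one through `T` (`Algebra.TensorProduct.leftAlgebra`), `Algebra F L :=
((algebraMap T L).comp (Algebra.TensorProduct.includeRight : F →ₐ[k] T).toRingHom).toAlgebra`. `compat`:
`1 ⊗ₜ algebraMap k F c = algebraMap k ℂ c ⊗ₜ 1` (`Algebra.TensorProduct.algebraMap_apply'`,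
`TensorProduct.smul_tmul`). `indep`: extend `b` to a basis of `F` over `k` (`Basis.extend` or
`LinearIndependent.extend`), `Algebra.TensorProduct.basis ℂ _` with `basis_apply`, so `1 ⊗ₜ b i` is
independent over `ℂ` (there may be a direct lemma for the base change of an independent family); map it by the injective
`ℂ`-linear map `T → L` (`IsFractionRing.injective`, `LinearIndependent.map'`). `frac`:
`IsFractionRing.div_surjective`; the image of `x : T` is in `cadj L univ` by induction on tensors
(`c ⊗ₜ z ↦ c * z`, `Algebra.subset_adjoin`). -/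

set_option autoImplicit false

open Pool.Agent.LibGMM Pool.Agent.LibCov80
open scoped TensorProduct

namespace Pool.Agent.LibK3

variable {k : Type} [Field k] [CharZero k] [Algebra k ℂ]

omit [CharZero k] in
private theorem BAX_indep {F L : Type} [Field F] [Field L] [Algebra k F] [Algebra ℂ L]
    (f : (ℂ ⊗[k] F) →ₗ[ℂ] L) (hf : Function.Injective f) {n : ℕ} {b : Fin n → F}
    (hb : LinearIndependent k b) :
    LinearIndependent ℂ fun i => f ((1 : ℂ) ⊗ₜ[k] b i) := by
  have h1 : LinearIndependent ℂ fun i => ((1 : ℂ) ⊗ₜ[k] b i : ℂ ⊗[k] F) := by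
    let B := Module.Basis.extend hb.linearIndepOn_id
    have hB := (Algebra.TensorProduct.basis ℂ B).linearIndependent
    have hinj : Function.Injective b := hb.injective
    let e : Fin n → (hb.linearIndepOn_id.extend (Set.subset_univ _)) := fun i =>
      ⟨b i, hb.linearIndepOn_id.subset_extend (Set.subset_univ _) ⟨i, rfl⟩⟩
    have he : Function.Injective e := fun i j hij => hinj (congrArg Subtype.val hij)
    have h2 := hB.comp e he
    have h3 : (⇑(Algebra.TensorProduct.basis ℂ B) ∘ e) =
        fun i => ((1 : ℂ) ⊗ₜ[k] b i : ℂ ⊗[k] F) := by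
      funext i
      simp only [Function.comp, Algebra.TensorProduct.basis_apply]
      congr 1
      exact Module.Basis.extend_apply_self hb.linearIndepOn_id (e i)
    rwa [h3] at h2
  exact h1.map' f (LinearMap.ker_eq_bot.2 hf)

/-- BA1. -/
theorem exists_cx (F : Type) [Field F] [Algebra k F]
    (h : ∀ b : F, IsAlgebraic k b → ∃ c : k, algebraMap k F c = b) :
    ∃ (L : Type) (_ : Field L) (_ : Algebra ℂ L) (_ : Algebra F L), IsCx k F L := by
  have : IsDomain (ℂ ⊗[k] F) := LibFB.isDomain_regular h
  let T := ℂ ⊗[k] F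
  let L := FractionRing T
  let aF : Algebra F L := ((algebraMap T L).comp
    (Algebra.TensorProduct.includeRight : F →ₐ[k] T).toRingHom).toAlgebra
  have hF : ∀ z : F, algebraMap F L z = algebraMap T L (1 ⊗ₜ[k] z) := fun z => rfl
  have hC : ∀ z : ℂ, algebraMap ℂ L z = algebraMap T L (z ⊗ₜ[k] 1) := fun z => by
    rw [IsScalarTower.algebraMap_apply ℂ T L]
    rfl
  have hinj : Function.Injective (algebraMap T L) := IsFractionRing.injective T L
  refine ⟨L, inferInstance, inferInstance, aF, ?_, ?_, ?_⟩
  · intro c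
    rw [hF, hC]
    congr 1
    rw [Algebra.algebraMap_eq_smul_one, Algebra.algebraMap_eq_smul_one,
      TensorProduct.tmul_smul, TensorProduct.smul_tmul']
  · intro n b hb
    exact BAX_indep (Algebra.linearMap T L |>.restrictScalars ℂ) hinj hb
  · intro z
    obtain ⟨x, y, hy, hxy⟩ := IsFractionRing.div_surjective (A := T) z
    have hmem : ∀ t : T, algebraMap T L t ∈ cadj L (Set.univ : Set F) := by
      intro t
      induction t using TensorProduct.induction_on with
      | zero => rw [map_zero]; exact Subalgebra.zero_mem _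
      | tmul c z =>
        have h1 : (c ⊗ₜ[k] z : T) = (c ⊗ₜ[k] 1) * (1 ⊗ₜ[k] z) := by
          rw [Algebra.TensorProduct.tmul_mul_tmul, mul_one, one_mul]
        rw [h1, map_mul, ← hC, ← hF]
        exact Subalgebra.mul_mem _ (Subalgebra.algebraMap_mem _ _)
          (Algebra.subset_adjoin ⟨z, Set.mem_univ _, rfl⟩)
      | add a b ha hb => rw [map_add]; exact Subalgebra.add_mem _ ha hb
    refine ⟨_, hmem x, _, hmem y, ?_, hxy.symm⟩
    intro h0
    rw [map_eq_zero_iff _ hinj] at h0
    exact nonZeroDivisors.ne_zero hy h0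

end Pool.Agent.LibK3
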