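import Pool.Agent.LibK3.BW12

/-!
Block BB: base change of discrete valuations from `k` to `ℂ`.
-/

set_option autoImplicit false

open Pool.Agent.LibGMM Pool.Agent.LibCov80

open scoped TensorProduct

namespace Pool.Agent.LibK3

variable {k : Type} [Field k] [CharZero k] [Algebra k ℂ]

variable {F L : Type} [Field F] [Field L] [Algebra k F] [Algebra ℂ L] [Algebra F L]

/-- BB1. Existence. -/
theorem exists_cxOver (h : IsCx k F L) (v : KVal k F) (B : Subalgebra k F) (hB : v.On B) :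
    ∃ μ : DVal L, CxOver v μ := by
  obtain ⟨κ, _, _, r, hr⟩ := v.exists_res
  have hnt : Nontrivial (ℂ ⊗[k] κ) :=
    (Algebra.TensorProduct.includeRight_injective (R := k) (A := ℂ) (B := κ)
      (algebraMap k ℂ).injective).nontrivial
  obtain ⟨q, hq⟩ := Ideal.nonempty_minimalPrimes (bot_ne_top (α := Ideal (ℂ ⊗[k] κ)))
  obtain ⟨μ, hμ, -⟩ := exists_cen h v B hB hr q hq
  exact ⟨μ, hμ⟩

/-- BB2. It is enough to know one model `B`. -/
theorem CxOver.of_one (h : IsCx k F L) (v : KVal k F) (B : Subalgebra k F) (hB : v.On B)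
    (μ : DVal L) (hμ : ∀ z : F, μ.ord (algebraMap F L z) = v.ord z)
    (hloc : ∀ z, 0 ≤ μ.ord z →
      ∃ a ∈ cadj L (B : Set F), ∃ b ∈ cadj L (B : Set F), b ≠ 0 ∧ μ.ord b = 0 ∧ z = a / b) :
    CxOver v μ :=
  CxOver.of_one' h v B hB μ hμ hloc

/-- BB3. If `k` is algebraically closed in the residue field of `v`: residues which are independent
over `k` stay independent over `ℂ`. -/
theorem CxOver.resIndep (h : IsCx k F L) {v : KVal k F} (hv : v.ResClosed) {B : Subalgebra k F}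
    (hB : v.On B) {μ : DVal L} (hμ : CxOver v μ) (n : ℕ) (b : Fin n → F) (hb : v.ResIndep b)
    (c : Fin n → ℂ) (hc : c ≠ 0) :
    ∑ i, algebraMap ℂ L (c i) * algebraMap F L (b i) ≠ 0 ∧
      μ.ord (∑ i, algebraMap ℂ L (c i) * algebraMap F L (b i)) = 0 := by
  obtain ⟨κ, _, _, r, hr⟩ := v.exists_res
  have hcen := cen_bot h hv hB hμ hr
  have h1 := KVal.IsRes.cMap_sum_ne v hr b hb c hc
  set z : ℂ ⊗[k] v.ring := ∑ i, c i ⊗ₜ[k] (⟨b i, hb.1 i⟩ : v.ring) with hz
  have h2 : h.Phi v.ring z = ∑ i, algebraMap ℂ L (c i) * algebraMap F L (b i) := by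
    rw [hz, map_sum]
    exact Finset.sum_congr rfl fun i _ => h.Phi_tmul _ _ _
  have h3 := hcen.nonneg z
  have h4 := mt (hcen.pos z).1 (by rwa [Ideal.mem_bot])
  rw [h2] at h3 h4
  push Not at h4
  exact ⟨h4.1, le_antisymm h4.2 h3⟩

/-- BB4. Uniqueness. -/
theorem CxOver.unique (h : IsCx k F L) {v : KVal k F} (hv : v.ResClosed) {B : Subalgebra k F}
    (hB : v.On B) {μ μ' : DVal L} (hμ : CxOver v μ) (hμ' : CxOver v μ') : μ = μ' := by
  obtain ⟨κ, _, _, r, hr⟩ := v.exists_res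
  exact (cen_bot h hv hB hμ hr).unique h (cen_bot h hv hB hμ' hr)

variable {F' L' : Type} [Field F'] [Field L'] [Algebra k F'] [Algebra ℂ L'] [Algebra F' L']
  [Algebra F F'] [IsScalarTower k F F'] [FiniteDimensional F F'] [Algebra L L']
  [IsScalarTower ℂ L L']

/-- BB5. The integral closure of a model of `v` is a model of `v'`. -/
theorem KVal.on_of_over {v : KVal k F} {B : Subalgebra k F} (hB : v.On B) (v' : KVal k F') (e : ℕ)
    (he : 0 < e) (hv' : ∀ z : F, v'.ord (algebraMap F F' z) = e * v.ord z) :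
    ∃ B' : Subalgebra k F', v'.On B' ∧ ∀ b ∈ B, algebraMap F F' b ∈ B' :=
  KVal.on_of_over' hB v' e he hv'

/-- BB6. Going down: the ramification index is kept. -/
theorem exists_cx_under (h : IsCx k F L) (h' : IsCx k F' L')
    (hc : ∀ z : F, algebraMap L L' (algebraMap F L z) = algebraMap F' L' (algebraMap F F' z))
    {v : KVal k F} {B : Subalgebra k F} (hB : v.On B) (v' : KVal k F') (e : ℕ)
    (he : 0 < e) (hv' : ∀ z : F, v'.ord (algebraMap F F' z) = e * v.ord z) {μ' : DVal L'}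
    (hμ' : CxOver v' μ') : ∃ μ : DVal L, CxOver v μ ∧ Over μ' μ e := by
  obtain ⟨B', hB', -⟩ := KVal.on_of_over' hB v' e he hv'
  obtain ⟨κ, _, _, r, hr⟩ := v.exists_res
  obtain ⟨κ', _, _, r', hr'⟩ := v'.exists_res
  obtain ⟨q', hq', hcen⟩ := exists_cen_of h' hB' hμ' hr'
  exact cen_comap h h' hc hB v' e he hv' hμ' hr hr' hq' hcen

/-- BB7. Residue degree one is kept. -/
theorem resOne_cx (h : IsCx k F L) (h' : IsCx k F' L')
    (hc : ∀ z : F, algebraMap L L' (algebraMap F L z) = algebraMap F' L' (algebraMap F F' z))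
    {v : KVal k F} (hv : v.ResClosed) {B : Subalgebra k F} (hB : v.On B) (v' : KVal k F') (e : ℕ)
    (he : 0 < e) (hv' : ∀ z : F, v'.ord (algebraMap F F' z) = e * v.ord z)
    (hres : ∀ z : F', 0 ≤ v'.ord z → ∃ w : F, 0 ≤ v.ord w ∧
      (z = algebraMap F F' w ∨ 0 < v'.ord (z - algebraMap F F' w)))
    {μ : DVal L} {μ' : DVal L'} (hμ : CxOver v μ) (hμ' : CxOver v' μ') (z : L')
    (hz : 0 ≤ μ'.ord z) : ∃ w : L, 0 ≤ μ.ord w ∧
      (z = algebraMap L L' w ∨ 0 < μ'.ord (z - algebraMap L L' w)) :=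
  resOne_cx' h h' hc hv hB v' e he hv' hres hμ hμ' z hz

/-- BB8. The case needed for the curves `C_m`. -/
theorem exists_resOne (h : IsCx k F L) (h' : IsCx k F' L')
    (hc : ∀ z : F, algebraMap L L' (algebraMap F L z) = algebraMap F' L' (algebraMap F F' z))
    {v : KVal k F} (hv : v.ResClosed) {B : Subalgebra k F} (hB : v.On B) (v' : KVal k F') (e : ℕ)
    (he : 0 < e) (hv' : ∀ z : F, v'.ord (algebraMap F F' z) = e * v.ord z)
    (hres : ∀ z : F', 0 ≤ v'.ord z → ∃ w : F, 0 ≤ v.ord w ∧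
      (z = algebraMap F F' w ∨ 0 < v'.ord (z - algebraMap F F' w)))
    {μ : DVal L} (hμ : CxOver v μ) : ∃ μ' : DVal L', Over μ' μ e ∧
      ∀ z : L', 0 ≤ μ'.ord z → ∃ w : L, 0 ≤ μ.ord w ∧
        (z = algebraMap L L' w ∨ 0 < μ'.ord (z - algebraMap L L' w)) := by
  obtain ⟨B', hB', -⟩ := KVal.on_of_over' hB v' e he hv'
  obtain ⟨μ', hμ'⟩ := exists_cxOver h' v' B' hB'
  obtain ⟨μ₁, hμ₁, ho⟩ := exists_cx_under h h' hc hB v' e he hv' hμ'
  rw [CxOver.unique h hv hB hμ₁ hμ] at ho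
  exact ⟨μ', ho, resOne_cx h h' hc hv hB v' e he hv' hres hμ hμ'⟩

/-- BB9. The case needed for a ramified prime. -/
theorem exists_ramified_cx (h : IsCx k F L) (h' : IsCx k F' L')
    (hc : ∀ z : F, algebraMap L L' (algebraMap F L z) = algebraMap F' L' (algebraMap F F' z))
    {v : KVal k F} {B : Subalgebra k F} (hB : v.On B) (v' : KVal k F') (e : ℕ)
    (he : 0 < e) (hv' : ∀ z : F, v'.ord (algebraMap F F' z) = e * v.ord z) :
    ∃ (μ : DVal L) (μ' : DVal L'), CxOver v μ ∧ Over μ' μ e := by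
  obtain ⟨B', hB', -⟩ := KVal.on_of_over' hB v' e he hv'
  obtain ⟨μ', hμ'⟩ := exists_cxOver h' v' B' hB'
  obtain ⟨μ, hμ, ho⟩ := exists_cx_under h h' hc hB v' e he hv' hμ'
  exact ⟨μ, μ', hμ, ho⟩

end Pool.Agent.LibK3
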