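import Pool.Agent.LibK3.BDefs

/-!
Block BB, base file: the ring and the residue field of a discrete valuation over `k`, the maps
`Φ : ℂ ⊗ S → L` and `ρ : ℂ ⊗ v.ring → ℂ ⊗ κ`.
-/

set_option autoImplicit false

open Pool.Agent.LibGMM Pool.Agent.LibCov80

open scoped TensorProduct

namespace Pool.Agent.LibK3

section kval

variable {k F : Type} [Field k] [Field F] [Algebra k F] (v : KVal k F)

theorem KVal.ord_one : v.ord 1 = 0 := by
  have := v.ord_const 1
  rwa [map_one] at this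

/-- The ring of a discrete valuation over `k`. -/
def KVal.ring : Subalgebra k F where
  carrier := {x | 0 ≤ v.ord x}
  mul_mem' := by
    intro a b ha hb
    simp only [Set.mem_setOf_eq] at *
    by_cases h0 : a = 0
    · simp [h0, v.ord_zero]
    by_cases h1 : b = 0
    · simp [h1, v.ord_zero]
    rw [v.ord_mul a b h0 h1]; omega
  add_mem' := by
    intro a b ha hb
    simp only [Set.mem_setOf_eq] at *
    by_cases h0 : a = 0
    · simpa [h0] using hb
    by_cases h1 : b = 0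
    · simpa [h1] using ha
    by_cases h2 : a + b = 0
    · simp [h2, v.ord_zero]
    exact le_trans (le_min ha hb) (v.ord_add a b h0 h1 h2)
  algebraMap_mem' := by
    intro c
    simp [v.ord_const]

theorem KVal.mem_ring {x : F} : x ∈ v.ring ↔ 0 ≤ v.ord x := Iff.rfl

theorem KVal.ord_inv (x : F) : v.ord x⁻¹ = -v.ord x := by
  by_cases hx : x = 0
  · simp [hx, v.ord_zero]
  have h := v.ord_mul x x⁻¹ hx (inv_ne_zero hx)
  rw [mul_inv_cancel₀ hx, v.ord_one] at h
  omega

theorem KVal.ord_div {x y : F} (hx : x ≠ 0) (hy : y ≠ 0) : v.ord (x / y) = v.ord x - v.ord y := by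
  rw [div_eq_mul_inv, v.ord_mul _ _ hx (inv_ne_zero hy), v.ord_inv]
  ring

theorem KVal.ord_pow (x : F) (n : ℕ) : v.ord (x ^ n) = n * v.ord x := by
  by_cases hx : x = 0
  · rcases Nat.eq_zero_or_pos n with rfl | hn
    · simp [v.ord_one]
    · rw [hx, zero_pow hn.ne', v.ord_zero, mul_zero]
  induction n with
  | zero => simp [v.ord_one]
  | succ n ih =>
    rw [pow_succ, v.ord_mul _ _ (pow_ne_zero _ hx) hx, ih]
    push_cast
    ring

theorem KVal.ord_zpow (x : F) (n : ℤ) : v.ord (x ^ n) = n * v.ord x := by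
  cases n with
  | ofNat n =>
    rw [Int.ofNat_eq_natCast, zpow_natCast, v.ord_pow]
  | negSucc n =>
    rw [zpow_negSucc, v.ord_inv, v.ord_pow, Int.negSucc_eq]
    push_cast
    ring

theorem KVal.ord_neg (x : F) : v.ord (-x) = v.ord x := by
  by_cases hx : x = 0
  · simp [hx]
  have h1 : v.ord (-1 : F) = 0 := by
    have := v.ord_const (-1)
    rwa [map_neg, map_one] at this
  have h2 : (-1 : F) ≠ 0 := neg_ne_zero.2 one_ne_zero
  rw [← neg_one_mul, v.ord_mul _ _ h2 hx, h1, zero_add]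

theorem KVal.pos_add {x y : F} (hx : x = 0 ∨ 0 < v.ord x) (hy : y = 0 ∨ 0 < v.ord y) :
    x + y = 0 ∨ 0 < v.ord (x + y) := by
  by_cases h0 : x = 0
  · rw [h0, zero_add]; exact hy
  by_cases h1 : y = 0
  · rw [h1, add_zero]; exact hx
  by_cases h2 : x + y = 0
  · exact Or.inl h2
  right
  have h3 := v.ord_add x y h0 h1 h2
  have h4 : 0 < v.ord x := hx.resolve_left h0
  have h5 : 0 < v.ord y := hy.resolve_left h1
  exact lt_of_lt_of_le (lt_min h4 h5) h3

theorem KVal.pos_mul {x y : F} (hx : 0 ≤ v.ord x) (hy : y = 0 ∨ 0 < v.ord y) :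
    x * y = 0 ∨ 0 < v.ord (x * y) := by
  by_cases h0 : x = 0
  · left; rw [h0, zero_mul]
  by_cases h1 : y = 0
  · left; rw [h1, mul_zero]
  right
  have h5 : 0 < v.ord y := hy.resolve_left h1
  rw [v.ord_mul _ _ h0 h1]
  omega

/-- The maximal ideal of the ring of `v`. -/
def KVal.maxI : Ideal v.ring where
  carrier := {x | (x : F) = 0 ∨ 0 < v.ord (x : F)}
  add_mem' := by
    intro a b ha hb
    exact v.pos_add ha hb
  zero_mem' := Or.inl rfl
  smul_mem' := by
    intro c x hx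
    exact v.pos_mul c.2 hx

theorem KVal.mem_maxI {x : v.ring} : x ∈ v.maxI ↔ ((x : F) = 0 ∨ 0 < v.ord (x : F)) := Iff.rfl

instance KVal.maxI_isMaximal : v.maxI.IsMaximal := by
  rw [Ideal.isMaximal_iff]
  constructor
  · rw [v.mem_maxI]
    rintro (h | h)
    · exact one_ne_zero h
    · rw [OneMemClass.coe_one, v.ord_one] at h
      omega
  · intro J x _ hx hxJ
    rw [v.mem_maxI, not_or] at hx
    have h0 := v.mem_ring.1 x.2
    have h1 : v.ord (x : F) = 0 := by omega
    have h2 : (x : F)⁻¹ ∈ v.ring := by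
      rw [v.mem_ring, v.ord_inv, h1]
      omega
    have h3 : (1 : v.ring) = ⟨(x : F)⁻¹, h2⟩ * x := by
      apply Subtype.ext
      rw [MulMemClass.coe_mul, OneMemClass.coe_one, inv_mul_cancel₀ hx.1]
    rw [h3]
    exact J.mul_mem_left _ hxJ

/-- `r : v.ring → κ` is the residue map of `v`. -/
structure KVal.IsRes {κ : Type} [Field κ] [Algebra k κ] (r : v.ring →ₐ[k] κ) : Prop where
  surj : Function.Surjective r
  zero : ∀ x : v.ring, r x = 0 ↔ ((x : F) = 0 ∨ 0 < v.ord (x : F))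

theorem KVal.exists_res : ∃ (κ : Type) (_ : Field κ) (_ : Algebra k κ) (r : v.ring →ₐ[k] κ),
    v.IsRes r := by
  let _ : Field (v.ring ⧸ v.maxI) := Ideal.Quotient.field v.maxI
  exact ⟨v.ring ⧸ v.maxI, inferInstance, inferInstance, Ideal.Quotient.mkₐ k v.maxI,
    Ideal.Quotient.mkₐ_surjective k v.maxI, fun x => Ideal.Quotient.eq_zero_iff_mem⟩

variable {v} in
theorem KVal.IsRes.ne_zero {κ : Type} [Field κ] [Algebra k κ] {r : v.ring →ₐ[k] κ}
    (hr : v.IsRes r) {x : v.ring} (h0 : (x : F) ≠ 0) (h : v.ord (x : F) = 0) : r x ≠ 0 := by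
  intro h1
  rcases (hr.zero x).1 h1 with h2 | h2
  · exact h0 h2
  · omega

end kval

section rho

variable {k : Type} [Field k] [Algebra k ℂ]

/-- The map `ℂ ⊗ A → ℂ ⊗ B` of a homomorphism `A → B` of `k`-algebras. -/
noncomputable def cMap {A B : Type} [CommRing A] [Algebra k A] [CommRing B] [Algebra k B]
    (r : A →ₐ[k] B) : ℂ ⊗[k] A →ₐ[ℂ] ℂ ⊗[k] B :=
  Algebra.TensorProduct.map (AlgHom.id ℂ ℂ) r

theorem cMap_tmul {A B : Type} [CommRing A] [Algebra k A] [CommRing B] [Algebra k B]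
    (r : A →ₐ[k] B) (c : ℂ) (x : A) : cMap r (c ⊗ₜ[k] x) = c ⊗ₜ[k] r x := rfl

end rho

section phi

variable {k : Type} [Field k] [Algebra k ℂ] {F L : Type} [Field F] [Field L] [Algebra k F]
  [Algebra ℂ L] [Algebra F L]

/-- The map `ℂ ⊗ S → L`. -/
noncomputable def IsCx.Phi (h : IsCx k F L) (S : Subalgebra k F) : ℂ ⊗[k] S →ₐ[ℂ] L :=
  letI : Algebra k L := ((algebraMap ℂ L).comp (algebraMap k ℂ)).toAlgebra
  haveI : IsScalarTower k ℂ L := IsScalarTower.of_algebraMap_eq fun _ => rfl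
  haveI : IsScalarTower k F L := IsScalarTower.of_algebraMap_eq fun c => (h.compat c).symm
  Algebra.TensorProduct.lift (Algebra.ofId ℂ L) ((IsScalarTower.toAlgHom k F L).comp S.val)
    fun _ _ => Commute.all _ _

theorem IsCx.Phi_tmul (h : IsCx k F L) (S : Subalgebra k F) (c : ℂ) (x : S) :
    h.Phi S (c ⊗ₜ[k] x) = algebraMap ℂ L c * algebraMap F L (x : F) := by
  let _ : Algebra k L := ((algebraMap ℂ L).comp (algebraMap k ℂ)).toAlgebra
  have : IsScalarTower k ℂ L := IsScalarTower.of_algebraMap_eq fun _ => rfl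
  have : IsScalarTower k F L := IsScalarTower.of_algebraMap_eq fun c => (h.compat c).symm
  unfold IsCx.Phi
  rw [Algebra.TensorProduct.lift_tmul]
  rfl

/-- The prime `q` of `ℂ ⊗ κ` is the centre of the prime divisor `μ` over `v`; `r : v.ring → κ` is the
residue map. -/
structure Cen (h : IsCx k F L) (v : KVal k F) (μ : DVal L) {κ : Type} [Field κ] [Algebra k κ]
    (r : v.ring →ₐ[k] κ) (q : Ideal (ℂ ⊗[k] κ)) : Prop where
  nonneg : ∀ z : ℂ ⊗[k] v.ring, 0 ≤ μ.ord (h.Phi v.ring z)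
  pos : ∀ z : ℂ ⊗[k] v.ring, (h.Phi v.ring z = 0 ∨ 0 < μ.ord (h.Phi v.ring z)) ↔ cMap r z ∈ q
  loc : ∀ x : L, 0 ≤ μ.ord x → ∃ a b : ℂ ⊗[k] v.ring, cMap r b ∉ q ∧
    x = h.Phi v.ring a / h.Phi v.ring b

end phi

section prolong

variable {k F F' : Type} [Field k] [Field F] [Field F'] [Algebra k F] [Algebra k F']
  [Algebra F F'] [IsScalarTower k F F']

/-- The map from the ring of `v` to the ring of a prolongation `v'`. -/
def KVal.ringMap (v : KVal k F) (v' : KVal k F') (e : ℕ)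
    (hv' : ∀ z : F, v'.ord (algebraMap F F' z) = e * v.ord z) : v.ring →ₐ[k] v'.ring :=
  ((IsScalarTower.toAlgHom k F F').comp v.ring.val).codRestrict v'.ring fun x => by
    change 0 ≤ v'.ord (algebraMap F F' (x : F))
    rw [hv']
    exact mul_nonneg (Int.natCast_nonneg e) x.2

theorem KVal.ringMap_coe (v : KVal k F) (v' : KVal k F') (e : ℕ)
    (hv' : ∀ z : F, v'.ord (algebraMap F F' z) = e * v.ord z) (x : v.ring) :
    (v.ringMap v' e hv' x : F') = algebraMap F F' (x : F) := rfl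

/-- The map of the residue fields. -/
theorem KVal.exists_resMap (v : KVal k F) (v' : KVal k F') (e : ℕ) (he : 0 < e)
    (hv' : ∀ z : F, v'.ord (algebraMap F F' z) = e * v.ord z) {κ κ' : Type} [Field κ] [Field κ']
    [Algebra k κ] [Algebra k κ'] {r : v.ring →ₐ[k] κ} (hr : v.IsRes r) {r' : v'.ring →ₐ[k] κ'}
    (hr' : v'.IsRes r') : ∃ j : κ →ₐ[k] κ', ∀ x, j (r x) = r' (v.ringMap v' e hv' x) := by
  have hker : ∀ x, r x = 0 → r' (v.ringMap v' e hv' x) = 0 := by
    intro x hx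
    rw [hr'.zero, v.ringMap_coe]
    rcases (hr.zero x).1 hx with h | h
    · left
      rw [h, map_zero]
    · right
      rw [hv']
      have : (0 : ℤ) < e := by exact_mod_cast he
      positivity
  refine ⟨AlgHom.liftOfSurjective r hr.surj (r'.comp (v.ringMap v' e hv')) ?_, fun x => ?_⟩
  · intro x hx
    exact hker x hx
  · rw [AlgHom.liftOfSurjective_apply]
    rfl

end prolong

end Pool.Agent.LibK3
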