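import Pool.Agent.LibK3.CDefs
import Pool.Agent.LibK3.BV
import Pool.Agent.LibL.Base
import Pool.Agent.LibLB.Base0

/-!
Block BC: from the surface over `k` to the surface over `ℂ`: basic definitions.
-/

set_option autoImplicit false

open Pool.Agent.LibGMM Pool.Agent.LibHP Pool.Agent.LibK Pool.Agent.LibLB

namespace Pool.Agent.LibK3

section

variable {k F : Type} [Field k] [Field F] [Algebra k F]

theorem KVal.ord_add_ge (v : KVal k F) {n : ℤ} {a b : F} (ha : a = 0 ∨ n ≤ v.ord a)
    (hb : b = 0 ∨ n ≤ v.ord b) : a + b = 0 ∨ n ≤ v.ord (a + b) := by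
  rcases ha with rfl | ha
  · rw [zero_add]; exact hb
  rcases hb with rfl | hb
  · rw [add_zero]; exact Or.inr ha
  by_cases h0 : a = 0
  · rw [h0, zero_add]; exact Or.inr hb
  by_cases h1 : b = 0
  · rw [h1, add_zero]; exact Or.inr ha
  by_cases h2 : a + b = 0
  · exact Or.inl h2
  · exact Or.inr (le_trans (le_min ha hb) (v.ord_add a b h0 h1 h2))

end

section model

variable (k : Type) {K : Type} [Field k] [Field K] [Algebra k K] {ι : Type}

/-- The data of a smooth projective surface over `k` with function field `K`, in terms of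
homogeneous coordinates. -/
structure KModel (c : ι → K) : Prop where
  fin : Finite ι
  ne : Nonempty ι
  c_ne : ∀ i, c i ≠ 0
  frac : ∀ i (z : K), ∃ a ∈ kchart k c i, ∃ b ∈ kchart k c i, b ≠ 0 ∧ z = a / b
  etale : HasEtaleCharts k c
  dim : Algebra.trdeg k K = 2
  closed : ∀ b : K, IsAlgebraic k b → ∃ a : k, algebraMap k K a = b

end model

section cx

variable {k : Type} [Field k] [CharZero k] [Algebra k ℂ]
variable {K L : Type} [Field K] [Field L] [Algebra k K] [Algebra ℂ L] [Algebra K L]
variable {ι : Type}

/-- The homogeneous coordinates over `ℂ`. -/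
noncomputable def cxg {c : ι → K} (hc : KModel k c) (L : Type) [Field L] [Algebra K L] :
    ι → Lˣ :=
  fun i => Units.mk0 (algebraMap K L (c i)) (by
    rw [Ne, map_eq_zero]
    exact hc.c_ne i)

end cx

end Pool.Agent.LibK3
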