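import Pool.Agent.LibK3.BC0

/-!
ROW [K3 BC1].

A normalised discrete valuation (over `k`) is determined by its ring; containment of the rings is enough.

Proof. Let `v.ring ⊆ w.ring`. (1) `v x > 0` implies `w x > 0`... : suppose `v x = 0`, then `x, x⁻¹ ∈ v.ring ⊆ w.ring`, so `w x = 0` (`KVal.ord_inv`). (2) Let `t` with
`v t = 1` (`exists_ord_one`); every `x ≠ 0` is `x = t ^ n * u` with `n = v x`, `v u = 0` (zpow; prove `v (t ^ n) = n` for integers `n` by `ord_mul` and induction, as in the
existing lemmas for `DVal`: `DVal.ext_ring` in `LibKB1a`/`LibCov80` or grep for theorem DVal.ext_ring in Pool Agent), so `w x = n * w t` with `w t ≥ 0`. (3) `w` takes the value `1`, so `w t = 1`.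
So `v.ord x = w.ord x` for `x ≠ 0`, and both are `0` at `0`; `KVal` is a structure: `cases`/`congr`.
-/

set_option autoImplicit false

open Pool.Agent.LibGMM Pool.Agent.LibHP Pool.Agent.LibK Pool.Agent.LibLB

namespace Pool.Agent.LibK3

variable {k F : Type} [Field k] [Field F] [Algebra k F]

theorem KVal.ext_ord {v w : KVal k F} (h : ∀ x, v.ord x = w.ord x) : v = w := by
  cases v
  cases w
  have h' := funext h
  dsimp only at h'
  subst h'
  rfl

private theorem BC1_pow (v : KVal k F) {t : F} (ht : t ≠ 0) (n : ℕ) :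
    v.ord (t ^ n) = n * v.ord t := by
  induction n with
  | zero => simp [v.ord_one]
  | succ n ih =>
    rw [pow_succ, v.ord_mul _ _ (pow_ne_zero n ht) ht, ih]
    push_cast
    ring

private theorem BC1_zpow (v : KVal k F) {t : F} (ht : t ≠ 0) (n : ℤ) :
    v.ord (t ^ n) = n * v.ord t := by
  obtain ⟨m, rfl | rfl⟩ := n.eq_nat_or_neg
  · rw [zpow_natCast, BC1_pow v ht]
  · rw [zpow_neg, zpow_natCast, v.ord_inv, BC1_pow v ht]
    ring

theorem KVal.ext_ring {v w : KVal k F} (h : ∀ x, 0 ≤ v.ord x → 0 ≤ w.ord x) : v = w := by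
  have h0 : ∀ x, v.ord x = 0 → w.ord x = 0 := by
    intro x hx
    have h1 := h x hx.ge
    have h2 := h x⁻¹ (by rw [v.ord_inv, hx, neg_zero])
    rw [w.ord_inv] at h2
    omega
  obtain ⟨t, ht⟩ := v.exists_ord_one
  have ht0 : t ≠ 0 := by
    rintro rfl
    rw [v.ord_zero] at ht
    omega
  have key : ∀ x, x ≠ 0 → w.ord x = v.ord x * w.ord t := by
    intro x hx
    have hp : t ^ (v.ord x) ≠ 0 := zpow_ne_zero _ ht0
    have hu : v.ord (x * (t ^ (v.ord x))⁻¹) = 0 := by
      rw [v.ord_mul _ _ hx (inv_ne_zero hp), v.ord_inv, BC1_zpow v ht0, ht]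
      ring
    have hw := h0 _ hu
    rw [w.ord_mul _ _ hx (inv_ne_zero hp), w.ord_inv, BC1_zpow w ht0] at hw
    omega
  have htw : 0 ≤ w.ord t := h t (by omega)
  have h1 : w.ord t = 1 := by
    obtain ⟨s, hs⟩ := w.exists_ord_one
    have hs0 : s ≠ 0 := by
      rintro rfl
      rw [w.ord_zero] at hs
      omega
    have h2 := key s hs0
    rw [hs] at h2
    exact Int.eq_one_of_mul_eq_one_left htw h2.symm
  apply KVal.ext_ord
  intro x
  by_cases hx : x = 0
  · rw [hx, v.ord_zero, w.ord_zero]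
  · rw [key x hx, h1, mul_one]

end Pool.Agent.LibK3
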