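import Pool.Agent.LibK3.BC0

/-!
ROW [K3 BC3].

`ℂ R ≅ ℂ ⊗ R`, and étale charts over `ℂ`.

(a) `ctensor`: the map `ℂ ⊗[k] R → L`, `c ⊗ r ↦ c r` (`Algebra.TensorProduct.lift`/`productMap`; give `L` the algebra structure over `k` by `(algebraMap ℂ L).comp (algebraMap k ℂ)`; by `hL.compat` the map
`R → L` is `k`-linear) is injective by `hL.indep` (write an element as `∑ c_i ⊗ b_i` with `b_i` linearly independent over `k`: basis of `R` over `k`, `Module.Basis.ofVectorSpace`; see `isDomain_regular` in
`Pool/Agent/LibFB/Reg.lean` for exactly this argument), with range `cadj L R`.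
(b) `Algebra.Etale.baseChange`: `ℂ ⊗[k] R` is étale over `ℂ ⊗[k] MvPolynomial (Fin n) k`, and `MvPolynomial.algebraTensorAlgEquiv : ℂ ⊗[k] MvPolynomial (Fin n) k ≃ₐ[ℂ] MvPolynomial (Fin n) ℂ`
(see `LibHP/E3.lean` for the handling of `RingHom.Etale` and base change, e.g. the proof of `isIntegrallyClosed_of_etale`). Or use `RingHom.Etale.isStableUnderBaseChange` and a pushout square.
`Ψ` is the composite `ℂ[x] ≅ ℂ ⊗ k[x] → ℂ ⊗ R ≅ cadj L R`.
-/

set_option autoImplicit false

open Pool.Agent.LibGMM Pool.Agent.LibHP Pool.Agent.LibK Pool.Agent.LibLB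

namespace Pool.Agent.LibK3

variable {k : Type} [Field k] [CharZero k] [Algebra k ℂ]
variable {K L : Type} [Field K] [Field L] [Algebra k K] [Algebra ℂ L] [Algebra K L]
variable {ι : Type}

open scoped TensorProduct in
theorem ctensor (hL : IsCx k K L) (R : Subalgebra k K) :
    ∃ e : ℂ ⊗[k] R ≃ₐ[ℂ] cadj L (R : Set K), ∀ (z : ℂ) (r : R),
      ((e (z ⊗ₜ r) : cadj L (R : Set K)) : L) = algebraMap ℂ L z * algebraMap K L r := by
  let algkL : Algebra k L := ((algebraMap ℂ L).comp (algebraMap k ℂ)).toAlgebra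
  have : IsScalarTower k ℂ L := IsScalarTower.of_algebraMap_eq fun _ => rfl
  let f : R →ₐ[k] L :=
    { toRingHom := (algebraMap K L).comp R.val.toRingHom
      commutes' := fun c => hL.compat c }
  have hf : ∀ r : R, f r = algebraMap K L r := fun _ => rfl
  let φ : ℂ ⊗[k] R →ₐ[ℂ] L :=
    Algebra.TensorProduct.lift (Algebra.ofId ℂ L) f (fun _ _ => Commute.all _ _)
  have hφ : ∀ (z : ℂ) (r : R), φ (z ⊗ₜ r) = algebraMap ℂ L z * algebraMap K L r := by
    intro z r
    rw [← hf]
    exact Algebra.TensorProduct.lift_tmul _ _ _ _ _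
  -- the images of a basis are linearly independent
  let B := Module.Basis.ofVectorSpace k R
  have hind : LinearIndependent ℂ (fun i => algebraMap K L (B i : K)) := by
    rw [linearIndependent_iff_finset_linearIndependent]
    intro s
    have h1 : LinearIndependent k (fun j : Fin s.card => ((B (s.equivFin.symm j : _) : R) : K)) := by
      have h2 : LinearIndependent k (fun j : Fin s.card => B (s.equivFin.symm j : _)) :=
        B.linearIndependent.comp (fun j : Fin s.card => (s.equivFin.symm j : _)) fun a b hab =>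
          s.equivFin.symm.injective (Subtype.ext hab)
      exact h2.map' R.val.toLinearMap (LinearMap.ker_eq_bot.2 Subtype.val_injective)
    have h3 := hL.indep s.card _ h1
    rw [← linearIndependent_equiv s.equivFin.symm]
    exact h3
  have hinj : Function.Injective φ := by
    rw [injective_iff_map_eq_zero]
    intro x hx
    let Bc := Algebra.TensorProduct.basis ℂ B
    have h1 : Finsupp.linearCombination ℂ (fun i => algebraMap K L (B i : K)) (Bc.repr x) = 0 := by
      have h2 : (fun i => algebraMap K L (B i : K)) = φ.toLinearMap ∘ Bc := by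
        funext i
        rw [Function.comp_apply, Algebra.TensorProduct.basis_apply]
        show _ = φ (1 ⊗ₜ B i)
        rw [hφ, map_one, one_mul]
      rw [h2, ← Finsupp.apply_linearCombination, Module.Basis.linearCombination_repr]
      exact hx
    have h4 := linearIndependent_iff.1 hind _ h1
    exact Bc.repr.map_eq_zero_iff.1 h4
  have hrange : φ.range = cadj L (R : Set K) := by
    apply le_antisymm
    · rintro _ ⟨x, rfl⟩
      show φ x ∈ cadj L (R : Set K)
      induction x using TensorProduct.induction_on with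
      | zero => rw [map_zero]; exact Subalgebra.zero_mem _
      | tmul z r =>
        rw [hφ]
        exact Subalgebra.mul_mem _ (Subalgebra.algebraMap_mem _ _)
          (Algebra.subset_adjoin ⟨r, r.2, rfl⟩)
      | add x y hx hy => rw [map_add]; exact Subalgebra.add_mem _ hx hy
    · refine Algebra.adjoin_le ?_
      rintro _ ⟨r, hr, rfl⟩
      refine ⟨1 ⊗ₜ ⟨r, hr⟩, ?_⟩
      show φ (1 ⊗ₜ ⟨r, hr⟩) = _
      rw [hφ, map_one, one_mul]
  refine ⟨(AlgEquiv.ofInjective φ hinj).trans (Subalgebra.equivOfEq _ _ hrange), fun z r => ?_⟩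
  exact hφ z r

open scoped TensorProduct in
theorem etale_cx (hL : IsCx k K L) (R : Subalgebra k K) {n : ℕ}
    (ψ : MvPolynomial (Fin n) k →ₐ[k] R) (hψ : ψ.toRingHom.Etale) :
    ∃ Ψ : MvPolynomial (Fin n) ℂ →ₐ[ℂ] cadj L (R : Set K), Ψ.toRingHom.Etale ∧
      ∀ j, ((Ψ (MvPolynomial.X j) : cadj L (R : Set K)) : L) =
        algebraMap K L (ψ (MvPolynomial.X j)) := by
  have hmem : ∀ r : R, algebraMap K L r ∈ cadj L (R : Set K) := fun r =>
    Algebra.subset_adjoin ⟨r, r.2, rfl⟩
  obtain ⟨e, he⟩ := ctensor hL R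
  let g : R →+* cadj L (R : Set K) :=
    ((algebraMap K L).comp R.val.toRingHom).codRestrict (cadj L (R : Set K)) hmem
  have hg : ∀ r : R, ((g r : cadj L (R : Set K)) : L) = algebraMap K L r := fun _ => rfl
  let Ψ : MvPolynomial (Fin n) ℂ →ₐ[ℂ] cadj L (R : Set K) :=
    MvPolynomial.aeval fun j => g (ψ (MvPolynomial.X j))
  have hΨX : ∀ j, Ψ (MvPolynomial.X j) = g (ψ (MvPolynomial.X j)) := fun j =>
    MvPolynomial.aeval_X _ _
  refine ⟨Ψ, ?_, fun j => by rw [hΨX, hg]⟩
  -- the algebra structures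
  let i0 : Algebra (MvPolynomial (Fin n) k) (MvPolynomial (Fin n) ℂ) :=
    MvPolynomial.algebraMvPolynomial
  let i1 : Algebra k (cadj L (R : Set K)) :=
    ((algebraMap ℂ (cadj L (R : Set K))).comp (algebraMap k ℂ)).toAlgebra
  let i2 : Algebra R (cadj L (R : Set K)) := g.toAlgebra
  let i3 : Algebra (MvPolynomial (Fin n) k) R := ψ.toRingHom.toAlgebra
  let i4 : Algebra (MvPolynomial (Fin n) k) (cadj L (R : Set K)) :=
    (g.comp ψ.toRingHom).toAlgebra
  let i5 : Algebra (MvPolynomial (Fin n) ℂ) (cadj L (R : Set K)) := Ψ.toRingHom.toAlgebra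
  have t1 : IsScalarTower k ℂ (cadj L (R : Set K)) := IsScalarTower.of_algebraMap_eq fun _ => rfl
  have t2 : IsScalarTower k R (cadj L (R : Set K)) := by
    refine IsScalarTower.of_algebraMap_eq fun c => Subtype.ext ?_
    exact (hL.compat c).symm
  have t3 : IsScalarTower (MvPolynomial (Fin n) k) R (cadj L (R : Set K)) :=
    IsScalarTower.of_algebraMap_eq fun _ => rfl
  have t4 : IsScalarTower ℂ (MvPolynomial (Fin n) ℂ) (cadj L (R : Set K)) :=
    IsScalarTower.of_algebraMap_eq fun c => (Ψ.commutes c).symm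
  have t5 : IsScalarTower (MvPolynomial (Fin n) k) (MvPolynomial (Fin n) ℂ)
      (cadj L (R : Set K)) := by
    refine IsScalarTower.of_algebraMap_eq fun p => ?_
    show g (ψ p) = Ψ (MvPolynomial.map (algebraMap k ℂ) p)
    have h1 : g.comp ψ.toRingHom = Ψ.toRingHom.comp (MvPolynomial.map (algebraMap k ℂ)) := by
      apply MvPolynomial.ringHom_ext
      · intro c
        rw [RingHom.comp_apply, RingHom.comp_apply, MvPolynomial.map_C]
        show g (ψ (algebraMap k _ c)) = Ψ (algebraMap ℂ _ (algebraMap k ℂ c))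
        rw [ψ.commutes, Ψ.commutes]
        exact Subtype.ext (hL.compat c)
      · intro j
        rw [RingHom.comp_apply, RingHom.comp_apply, MvPolynomial.map_X]
        exact (hΨX j).symm
    exact RingHom.congr_fun h1 p
  have t6 : IsScalarTower k (MvPolynomial (Fin n) ℂ) (cadj L (R : Set K)) := by
    refine IsScalarTower.of_algebraMap_eq fun c => ?_
    show algebraMap ℂ (cadj L (R : Set K)) (algebraMap k ℂ c) =
      Ψ (algebraMap k (MvPolynomial (Fin n) ℂ) c)
    rw [IsScalarTower.algebraMap_apply k ℂ (MvPolynomial (Fin n) ℂ), Ψ.commutes]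
  have p1 : Algebra.IsPushout k ℂ R (cadj L (R : Set K)) := by
    constructor
    refine IsBaseChange.of_equiv e.toLinearEquiv fun r => ?_
    refine Subtype.ext ?_
    show ((e (1 ⊗ₜ r) : cadj L (R : Set K)) : L) = _
    rw [he, map_one, one_mul]
    rfl
  have p2 : Algebra.IsPushout k R ℂ (cadj L (R : Set K)) := p1.symm
  have p3 : Algebra.IsPushout (MvPolynomial (Fin n) k) R (MvPolynomial (Fin n) ℂ)
      (cadj L (R : Set K)) :=
    (Algebra.IsPushout.comp_iff k (MvPolynomial (Fin n) k) ℂ (MvPolynomial (Fin n) ℂ)).1 p2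
  exact RingHom.Etale.isStableUnderBaseChange (MvPolynomial (Fin n) k) R
    (MvPolynomial (Fin n) ℂ) (cadj L (R : Set K)) hψ

end Pool.Agent.LibK3
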