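import Pool.Agent.LibK3.BC0
import Pool.Agent.LibK3.BB
import Pool.Agent.LibK3.BA
import Pool.Agent.LibK3.BC3
import Pool.Agent.LibGMM.Api
import Pool.Agent.LibHP.E2

/-!
ROW [K3 BC10].

The residue map over `ℂ`.

Proof. `v.ResClosed`: from `r` (BC15 `resClosed_of_res`, hypothesis `hcl` here). Define `ψ` first on `ℂ O`, `O = v.ring`: `ctensor`-like: the map `ℂ ⊗[k] O → RatFunc ℂ`, `z ⊗ a ↦ C z * rmap (r a)`, is well defined; `ℂ ⊗[k] O → L` is injective with image `cadj L O` (BC3 `ctensor` with `R = v.ring`).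
Its kernel is `{z ∈ ℂ O | z = 0 ∨ 0 < μ.ord z}`: write `z = ∑ c_i b_i`, `b_i ∈ O`, and choose a basis of the span of the residues: `z = ∑ c_i' b_i' + (element of ℂ m)` with the residues of the `b_i'` independent over `k`, `c_i'` in `ℂ`; if some `c_i' ≠ 0` then `μ.ord z = 0` by BB3
(`CxOver.resIndep`) and the image is `≠ 0` since elements of `k(t)` independent over `k` stay independent over `ℂ` in `ℂ(t)`; if all `c_i' = 0` both are zero. [Alternative: `r` identifies the residue field with `k(t)`; the kernel of `ℂ ⊗ O → ℂ ⊗ k(t) → ℂ(t)` is `ℂ ⊗ m = m (ℂ O)`,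
`ℂ ⊗ k(t) → ℂ(t)` being injective.] By `hμ.loc B hB` every `z ∈ μ.ring` is `a / b` with `a, b ∈ ℂ B ⊆ ℂ O`, `μ.ord b = 0`: put `ψ z = ψ a / ψ b` (`IsLocalization.lift` or a direct definition through `Classical.choose` with uniqueness). Surjective: `t = r a`, the image contains `ℂ` and `C(t)`-fractions: `X = rmap (r a)`,
and a polynomial `q(X) ≠ 0` is the image of an element of order `0`, so its inverse is in the image too.
-/

set_option autoImplicit false

open Pool.Agent.LibGMM Pool.Agent.LibHP Pool.Agent.LibK Pool.Agent.LibLB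

namespace Pool.Agent.LibK3

variable {k : Type} [Field k] [CharZero k] [Algebra k ℂ]
variable {K L : Type} [Field K] [Field L] [Algebra k K] [Algebra ℂ L] [Algebra K L]
variable {ι : Type}

/-- Elements of `k(t)` which are independent over `k` stay independent over `ℂ` in `ℂ(t)`. -/
private theorem BC10_indep {m : ℕ} {x : Fin m → RatFunc k} (hx : LinearIndependent k x)
    (c : Fin m → ℂ) (h : ∑ i, RatFunc.C (c i) * rmap (algebraMap k ℂ) (x i) = 0) : c = 0 := by
  obtain ⟨q, hq⟩ := IsLocalization.exist_integer_multiples_of_finite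
    (nonZeroDivisors (Polynomial k)) x
  choose p hp using hq
  have hq0 : (q : Polynomial k) ≠ 0 := nonZeroDivisors.coe_ne_zero q
  have hq1 : algebraMap (Polynomial k) (RatFunc k) q ≠ 0 := by
    rw [Ne, map_eq_zero_iff _ (IsFractionRing.injective (Polynomial k) (RatFunc k))]
    exact hq0
  have hp' : ∀ i, algebraMap (Polynomial k) (RatFunc k) (p i) =
      algebraMap (Polynomial k) (RatFunc k) q * x i := by
    intro i
    rw [hp i, Algebra.smul_def]
  -- the polynomials are independent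
  have hpi : ∀ a : Fin m → k, ∑ i, a i • p i = 0 → ∀ i, a i = 0 := by
    intro a ha
    have h1 : algebraMap (Polynomial k) (RatFunc k) q * ∑ i, a i • x i = 0 := by
      rw [Finset.mul_sum]
      have h2 := congrArg (algebraMap (Polynomial k) (RatFunc k)) ha
      rw [map_sum, map_zero] at h2
      rw [← h2]
      refine Finset.sum_congr rfl fun i _ => ?_
      rw [Algebra.smul_def, Algebra.smul_def, map_mul, hp' i,
        ← IsScalarTower.algebraMap_apply k (Polynomial k) (RatFunc k)]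
      ring
    have h3 := (mul_eq_zero.1 h1).resolve_left hq1
    exact Fintype.linearIndependent_iff.1 hx a h3
  -- the relation for the polynomials over `ℂ`
  have h1 : ∑ i, Polynomial.C (c i) * (p i).map (algebraMap k ℂ) = 0 := by
    have h2 : algebraMap (Polynomial ℂ) (RatFunc ℂ)
        (∑ i, Polynomial.C (c i) * (p i).map (algebraMap k ℂ)) = 0 := by
      rw [map_sum]
      have h3 : rmap (algebraMap k ℂ) (algebraMap (Polynomial k) (RatFunc k) q) *
          ∑ i, RatFunc.C (c i) * rmap (algebraMap k ℂ) (x i) = 0 := by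
        rw [h, mul_zero]
      rw [← h3, Finset.mul_sum]
      refine Finset.sum_congr rfl fun i _ => ?_
      rw [map_mul, ← rmap_algebraMap_c, hp' i, map_mul, RatFunc.algebraMap_C]
      ring
    exact (map_eq_zero_iff _ (IsFractionRing.injective (Polynomial ℂ) (RatFunc ℂ))).1 h2
  funext i
  rw [Pi.zero_apply, ← Module.forall_dual_apply_eq_zero_iff k (c i)]
  intro φ
  refine hpi (fun i => φ (c i)) ?_ i
  ext n
  have h4 := congrArg (fun f : Polynomial ℂ => f.coeff n) h1
  simp only [Polynomial.finsetSum_coeff, Polynomial.coeff_C_mul, Polynomial.coeff_map,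
    Polynomial.coeff_zero] at h4
  have h5 : ∑ i, (p i).coeff n • c i = 0 := by
    rw [← h4]
    exact Finset.sum_congr rfl fun i _ => by rw [Algebra.smul_def, mul_comm]
  have h6 := congrArg φ h5
  rw [map_sum, map_zero] at h6
  rw [Polynomial.finsetSum_coeff, Polynomial.coeff_zero, ← h6]
  refine Finset.sum_congr rfl fun i _ => ?_
  rw [Polynomial.coeff_smul, map_smul, smul_eq_mul, smul_eq_mul, mul_comm]

/-- The map on `ℂ O`. -/
private theorem BC10_psi0 (hL : IsCx k K L) {v : KVal k K} (r : v.ring →ₐ[k] RatFunc k) :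
    ∃ ψ : cadj L (v.ring : Set K) →ₐ[ℂ] RatFunc ℂ, ∀ (z : cadj L (v.ring : Set K)) (c : ℂ)
      (b : v.ring), (z : L) = algebraMap ℂ L c * algebraMap K L b →
        ψ z = RatFunc.C c * rmap (algebraMap k ℂ) (r b) := by
  obtain ⟨e, he⟩ := ctensor hL v.ring
  have hC : ∀ a : k, algebraMap k (RatFunc ℂ) a = RatFunc.C (algebraMap k ℂ a) := fun a => rfl
  let g : v.ring →ₐ[k] RatFunc ℂ :=
    { toRingHom := (rmap (algebraMap k ℂ)).comp r.toRingHom
      commutes' := by
        intro a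
        have h1 : r (algebraMap k v.ring a) = algebraMap k (RatFunc k) a := r.commutes a
        have h2 : algebraMap k (RatFunc k) a =
            algebraMap (Polynomial k) (RatFunc k) (Polynomial.C a) := rfl
        show rmap (algebraMap k ℂ) (r (algebraMap k v.ring a)) = _
        rw [h1, h2, rmap_algebraMap_c, Polynomial.map_C, hC, RatFunc.algebraMap_C] }
  refine ⟨(Algebra.TensorProduct.lift (Algebra.ofId ℂ (RatFunc ℂ)) g
    fun _ _ => Commute.all _ _).comp e.symm.toAlgHom, ?_⟩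
  intro z c b hz
  have h1 : e.symm z = c ⊗ₜ[k] b := by
    rw [AlgEquiv.symm_apply_eq]
    exact Subtype.ext (by rw [hz, he])
  show (Algebra.TensorProduct.lift (Algebra.ofId ℂ (RatFunc ℂ)) g
    fun _ _ => Commute.all _ _) (e.symm z) = _
  rw [h1, Algebra.TensorProduct.lift_tmul]
  rfl

/-- Extension to the local ring. -/
private theorem BC10_ext {F : Type} [Field F] [Algebra ℂ F] (μ : DVal L) (A : Subalgebra ℂ L)
    (ψ₀ : A →ₐ[ℂ] F) (hker : ∀ a : A, ψ₀ a = 0 ↔ ((a : L) = 0 ∨ 0 < μ.ord (a : L)))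
    (hloc : ∀ z, 0 ≤ μ.ord z → ∃ a b : A, (b : L) ≠ 0 ∧ μ.ord (b : L) = 0 ∧ z = (a : L) / b) :
    ∃ ψ : μ.ring →ₐ[ℂ] F, (∀ z, ψ z = 0 ↔ ((z : L) = 0 ∨ 0 < μ.ord (z : L))) ∧
      ∀ (a : A) (h : (a : L) ∈ μ.ring), ψ ⟨a, h⟩ = ψ₀ a := by
  have hloc' : ∀ z : μ.ring, ∃ a b : A, (b : L) ≠ 0 ∧ μ.ord (b : L) = 0 ∧ (z : L) = (a : L) / b :=
    fun z => hloc z z.2
  choose nu de h1 h2 h3 using hloc'
  have h4 : ∀ z : μ.ring, ψ₀ (de z) ≠ 0 := by
    intro z h
    rcases (hker _).1 h with h5 | h5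
    · exact h1 z h5
    · rw [h2 z] at h5
      exact lt_irrefl _ h5
  have key : ∀ (z : μ.ring) (a b : A), ψ₀ b ≠ 0 → (z : L) * b = a →
      ψ₀ (nu z) / ψ₀ (de z) = ψ₀ a / ψ₀ b := by
    intro z a b hb hz
    rw [div_eq_div_iff (h4 z) hb, ← map_mul, ← map_mul]
    congr 1
    refine Subtype.ext ?_
    show (nu z : L) * b = a * de z
    rw [← hz, h3 z]
    field_simp [h1 z]
  have hz' : ∀ z : μ.ring, (z : L) * de z = nu z := by
    intro z
    rw [h3 z, div_mul_cancel₀ _ (h1 z)]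
  have hone : ψ₀ 1 ≠ 0 := by rw [map_one]; exact one_ne_zero
  refine ⟨{ toFun := fun z => ψ₀ (nu z) / ψ₀ (de z)
            map_one' := ?_, map_mul' := ?_, map_zero' := ?_, map_add' := ?_, commutes' := ?_ },
    ?_, ?_⟩
  · show ψ₀ (nu 1) / ψ₀ (de 1) = 1
    rw [key 1 1 1 hone (by simp), map_one, div_one]
  · intro z w
    show ψ₀ (nu (z * w)) / ψ₀ (de (z * w)) = ψ₀ (nu z) / ψ₀ (de z) * (ψ₀ (nu w) / ψ₀ (de w))
    rw [key (z * w) (nu z * nu w) (de z * de w) (by
        rw [map_mul]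
        exact mul_ne_zero (h4 z) (h4 w)) (by
        show (z : L) * w * ((de z : L) * de w) = nu z * nu w
        rw [← hz' z, ← hz' w]
        ring), map_mul, map_mul, div_mul_div_comm]
  · show ψ₀ (nu 0) / ψ₀ (de 0) = 0
    rw [key 0 0 1 hone (by simp), map_zero, zero_div]
  · intro z w
    show ψ₀ (nu (z + w)) / ψ₀ (de (z + w)) = ψ₀ (nu z) / ψ₀ (de z) + ψ₀ (nu w) / ψ₀ (de w)
    rw [key (z + w) (nu z * de w + de z * nu w) (de z * de w) (by
        rw [map_mul]
        exact mul_ne_zero (h4 z) (h4 w)) (by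
        show ((z : L) + w) * ((de z : L) * de w) = nu z * de w + de z * nu w
        rw [← hz' z, ← hz' w]
        ring), map_add, map_mul, map_mul, map_mul, div_add_div _ _ (h4 z) (h4 w)]
  · intro c
    show ψ₀ (nu (algebraMap ℂ μ.ring c)) / ψ₀ (de (algebraMap ℂ μ.ring c)) = algebraMap ℂ F c
    rw [key (algebraMap ℂ μ.ring c) (algebraMap ℂ A c) 1 hone (by
      show algebraMap ℂ L c * ((1 : A) : L) = algebraMap ℂ L c
      rw [OneMemClass.coe_one, mul_one]), map_one, div_one, AlgHom.commutes]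
  · intro z
    show ψ₀ (nu z) / ψ₀ (de z) = 0 ↔ _
    rw [div_eq_zero_iff, or_iff_left (h4 z), hker, h3 z, div_eq_zero_iff, or_iff_left (h1 z)]
    refine or_congr_right' fun hn => ?_
    rw [μ.ord_div hn (h1 z), h2 z, sub_zero]
  · intro a h
    show ψ₀ (nu ⟨a, h⟩) / ψ₀ (de ⟨a, h⟩) = ψ₀ a
    rw [key ⟨a, h⟩ a 1 hone (by
      show (a : L) * ((1 : A) : L) = a
      rw [OneMemClass.coe_one, mul_one]), map_one, div_one]

/-- The kernel on `ℂ O`. -/
private theorem BC10_ker (hL : IsCx k K L) {v : KVal k K} (hcl : v.ResClosed)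
    {B : Subalgebra k K} (hB : v.On B) (r : v.ring →ₐ[k] RatFunc k)
    (hrs : Function.Surjective r)
    (hr : ∀ z, r z = 0 ↔ ((z : K) = 0 ∨ 0 < v.ord (z : K))) {μ : DVal L} (hμ : CxOver v μ)
    (ψ : cadj L (v.ring : Set K) →ₐ[ℂ] RatFunc ℂ)
    (hψ : ∀ (z : cadj L (v.ring : Set K)) (c : ℂ)
      (b : v.ring), (z : L) = algebraMap ℂ L c * algebraMap K L b →
        ψ z = RatFunc.C c * rmap (algebraMap k ℂ) (r b))
    (a : cadj L (v.ring : Set K)) : ψ a = 0 ↔ ((a : L) = 0 ∨ 0 < μ.ord (a : L)) := by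
  classical
  -- elementary elements
  have hmem : ∀ (c : ℂ) (b : v.ring), algebraMap ℂ L c * algebraMap K L b ∈
      cadj L (v.ring : Set K) := fun c b =>
    Subalgebra.mul_mem _ (Subalgebra.algebraMap_mem _ c)
      (Algebra.subset_adjoin ⟨(b : K), b.2, rfl⟩)
  have hsum : ∀ {n : ℕ} (c : Fin n → ℂ) (b : Fin n → v.ring) (z : cadj L (v.ring : Set K)),
      (z : L) = ∑ i, algebraMap ℂ L (c i) * algebraMap K L (b i) →
        ψ z = ∑ i, RatFunc.C (c i) * rmap (algebraMap k ℂ) (r (b i)) := by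
    intro n c b z hz
    have h1 : z = ∑ i, (⟨_, hmem (c i) (b i)⟩ : cadj L (v.ring : Set K)) := by
      refine Subtype.ext ?_
      rw [hz, AddSubmonoidClass.coe_finsetSum]
    rw [h1, map_sum]
    exact Finset.sum_congr rfl fun i _ => hψ _ _ _ rfl
  obtain ⟨n, c, b, hb, -, ha⟩ := (hL.mem_cadj v.ring (a : L)).1 a.2
  obtain ⟨b, rfl⟩ : ∃ b' : Fin n → v.ring, b = fun i => (b' i : K) := ⟨fun i => ⟨b i, hb i⟩, rfl⟩
  let V : Submodule k (RatFunc k) := Submodule.span k (Set.range fun i => r (b i))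
  haveI : FiniteDimensional k V := FiniteDimensional.span_of_finite k (Set.finite_range _)
  let β := Module.finBasis k V
  have hβ : LinearIndependent k fun j => ((β j : V) : RatFunc k) :=
    β.linearIndependent.map' V.subtype (Submodule.ker_subtype V)
  choose B' hB' using fun j => hrs ((β j : V) : RatFunc k)
  let rb : Fin n → V := fun i => ⟨r (b i), Submodule.subset_span ⟨i, rfl⟩⟩
  let M : Fin n → Fin (Module.finrank k V) → k := fun i j => β.repr (rb i) j
  have hM : ∀ i, r (b i) = ∑ j, M i j • ((β j : V) : RatFunc k) := by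
    intro i
    have h1 := congrArg V.subtype (β.sum_repr (rb i))
    rw [map_sum] at h1
    simp only [map_smul, Submodule.subtype_apply] at h1
    exact h1.symm
  let b' : Fin n → v.ring := fun i => b i - ∑ j, M i j • B' j
  have hb' : ∀ i, r (b' i) = 0 := by
    intro i
    show r (b i - ∑ j, M i j • B' j) = 0
    rw [map_sub, map_sum, hM i, sub_eq_zero]
    refine Finset.sum_congr rfl fun j _ => ?_
    rw [map_smul, hB']
  let c' : Fin (Module.finrank k V) → ℂ := fun j => ∑ i, c i * algebraMap k ℂ (M i j)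
  have hbi : ∀ i, algebraMap K L (b i : K) = algebraMap K L (b' i : K) +
      ∑ j, algebraMap ℂ L (algebraMap k ℂ (M i j)) * algebraMap K L (B' j : K) := by
    intro i
    have h1 : (b i : K) = (b' i : K) + ∑ j, algebraMap k K (M i j) * (B' j : K) := by
      have h2 : b i = b' i + ∑ j, M i j • B' j := by
        show b i = b i - ∑ j, M i j • B' j + ∑ j, M i j • B' j
        rw [sub_add_cancel]
      conv_lhs => rw [h2]
      rw [AddMemClass.coe_add, AddSubmonoidClass.coe_finsetSum]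
      congr 1
      refine Finset.sum_congr rfl fun j _ => ?_
      rw [Subalgebra.coe_smul, Algebra.smul_def]
    rw [h1, map_add, map_sum]
    congr 1
    refine Finset.sum_congr rfl fun j _ => ?_
    rw [map_mul, hL.compat]
  have hdec : (a : L) = ∑ j, algebraMap ℂ L (c' j) * algebraMap K L (B' j : K) +
      ∑ i, algebraMap ℂ L (c i) * algebraMap K L (b' i : K) := by
    rw [ha]
    have h1 : ∀ i, algebraMap ℂ L (c i) * algebraMap K L (b i : K) =
        algebraMap ℂ L (c i) * algebraMap K L (b' i : K) +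
          ∑ j, algebraMap ℂ L (c i) * (algebraMap ℂ L (algebraMap k ℂ (M i j)) *
            algebraMap K L (B' j : K)) := by
      intro i
      rw [hbi i, mul_add, Finset.mul_sum]
    rw [Finset.sum_congr rfl fun i _ => h1 i, Finset.sum_add_distrib, Finset.sum_comm, add_comm]
    congr 1
    refine Finset.sum_congr rfl fun j _ => ?_
    show _ = algebraMap ℂ L (∑ i, c i * algebraMap k ℂ (M i j)) * _
    rw [map_sum, Finset.sum_mul]
    refine Finset.sum_congr rfl fun i _ => ?_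
    rw [map_mul, mul_assoc]
  -- the value of `ψ`
  have hψa : ψ a = ∑ j, RatFunc.C (c' j) * rmap (algebraMap k ℂ) ((β j : V) : RatFunc k) := by
    let a₁ : cadj L (v.ring : Set K) := ∑ j, ⟨_, hmem (c' j) (B' j)⟩
    let a₂ : cadj L (v.ring : Set K) := ∑ i, ⟨_, hmem (c i) (b' i)⟩
    have h1 : (a₁ : L) = ∑ j, algebraMap ℂ L (c' j) * algebraMap K L (B' j : K) :=
      AddSubmonoidClass.coe_finsetSum _ _
    have h2 : (a₂ : L) = ∑ i, algebraMap ℂ L (c i) * algebraMap K L (b' i : K) :=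
      AddSubmonoidClass.coe_finsetSum _ _
    have h3 : a = a₁ + a₂ := Subtype.ext (by rw [hdec, AddMemClass.coe_add, h1, h2])
    rw [h3, map_add, hsum c' B' a₁ h1, hsum c b' a₂ h2]
    have h4 : ∑ i, RatFunc.C (c i) * rmap (algebraMap k ℂ) (r (b' i)) = 0 :=
      Finset.sum_eq_zero fun i _ => by rw [hb' i, map_zero, mul_zero]
    rw [h4, add_zero]
    exact Finset.sum_congr rfl fun j _ => by rw [hB']
  -- the remainder has positive order
  have hpos : (∑ i, algebraMap ℂ L (c i) * algebraMap K L (b' i : K)) = 0 ∨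
      1 ≤ μ.ord (∑ i, algebraMap ℂ L (c i) * algebraMap K L (b' i : K)) := by
    have h1 : ∀ s : Finset (Fin n), (∑ i ∈ s, algebraMap ℂ L (c i) * algebraMap K L (b' i : K)) = 0 ∨
        1 ≤ μ.ord (∑ i ∈ s, algebraMap ℂ L (c i) * algebraMap K L (b' i : K)) := by
      intro s
      induction s using Finset.induction_on with
      | empty => exact Or.inl Finset.sum_empty
      | insert i s hi ih =>
        rw [Finset.sum_insert hi]
        refine μ.ord_add_ge ?_ ih
        by_cases h0 : algebraMap ℂ L (c i) * algebraMap K L (b' i : K) = 0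
        · exact Or.inl h0
        right
        have h2 := mul_ne_zero_iff.1 h0
        have h3 : (b' i : K) ≠ 0 := fun h => h2.2 (by rw [h, map_zero])
        have h4 := ((hr (b' i)).1 (hb' i)).resolve_left h3
        rw [μ.ord_mul _ _ h2.1 h2.2, μ.ord_const, hμ.ord]
        omega
    exact h1 Finset.univ
  by_cases hc : c' = 0
  · have h1 : ψ a = 0 := by
      rw [hψa]
      exact Finset.sum_eq_zero fun j _ => by rw [hc, Pi.zero_apply, map_zero, zero_mul]
    have h2 : (a : L) = ∑ i, algebraMap ℂ L (c i) * algebraMap K L (b' i : K) := by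
      rw [hdec, Finset.sum_eq_zero fun j _ => by rw [hc, Pi.zero_apply, map_zero, zero_mul],
        zero_add]
    refine ⟨fun _ => ?_, fun _ => h1⟩
    rw [h2]
    rcases hpos with h | h
    · exact Or.inl h
    · exact Or.inr (by omega)
  · have h1 : ψ a ≠ 0 := fun h => hc (BC10_indep hβ c' (by rw [← hψa, h]))
    have hri : v.ResIndep fun j => (B' j : K) := by
      refine ⟨fun j => (B' j).2, fun d hd => ?_⟩
      have h2 : r (∑ j, d j • B' j) = 0 := by
        rw [hr]
        have h3 : ((∑ j, d j • B' j : v.ring) : K) = ∑ j, algebraMap k K (d j) * (B' j : K) := by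
          rw [AddSubmonoidClass.coe_finsetSum]
          refine Finset.sum_congr rfl fun j _ => ?_
          rw [Subalgebra.coe_smul, Algebra.smul_def]
        rw [h3]
        exact hd
      rw [map_sum] at h2
      funext j
      refine Fintype.linearIndependent_iff.1 hβ d ?_ j
      rw [← h2]
      exact Finset.sum_congr rfl fun j _ => by rw [map_smul, hB']
    obtain ⟨h2, h3⟩ := CxOver.resIndep hL hcl hB hμ _ (fun j => (B' j : K)) hri c' hc
    obtain ⟨h4, h5⟩ := μ.ord_add_eq h2 (b := ∑ i, algebraMap ℂ L (c i) * algebraMap K L (b' i : K))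
      (by
        rcases hpos with h | h
        · exact Or.inl h
        · exact Or.inr (by rw [h3]; omega))
    rw [← hdec] at h4 h5
    refine ⟨fun h => absurd h h1, fun h => ?_⟩
    rcases h with h | h
    · exact absurd h h5
    · rw [h4, h3] at h
      exact absurd h (lt_irrefl _)

theorem exists_psi (hL : IsCx k K L) {v : KVal k K} (hcl : v.ResClosed) {B : Subalgebra k K}
    (hB : v.On B) (r : v.ring →ₐ[k] RatFunc k) (hrs : Function.Surjective r)
    (hr : ∀ z, r z = 0 ↔ ((z : K) = 0 ∨ 0 < v.ord (z : K))) {μ : DVal L} (hμ : CxOver v μ) :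
    ∃ ψ : μ.ring →ₐ[ℂ] RatFunc ℂ, Function.Surjective ψ ∧
      (∀ z, ψ z = 0 ↔ ((z : L) = 0 ∨ 0 < μ.ord (z : L))) ∧
      ∀ (z : v.ring) (hz : algebraMap K L z ∈ μ.ring),
        ψ ⟨algebraMap K L z, hz⟩ = rmap (algebraMap k ℂ) (r z) := by
  obtain ⟨ψ₀, hψ₀⟩ := BC10_psi0 hL r
  have hBO : cadj L (B : Set K) ≤ cadj L (v.ring : Set K) := by
    refine Algebra.adjoin_mono ?_
    rintro _ ⟨b, hb, rfl⟩
    exact ⟨b, hB.2.1 b hb, rfl⟩
  obtain ⟨ψ, hψ1, hψ2⟩ := BC10_ext μ (cadj L (v.ring : Set K)) ψ₀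
    (BC10_ker hL hcl hB r hrs hr hμ ψ₀ hψ₀) (by
      intro z hz
      obtain ⟨a, ha, b, hb, h1, h2, h3⟩ := hμ.loc B hB z hz
      exact ⟨⟨a, hBO ha⟩, ⟨b, hBO hb⟩, h1, h2, h3⟩)
  have hψ3 : ∀ (z : v.ring) (hz : algebraMap K L z ∈ μ.ring),
      ψ ⟨algebraMap K L z, hz⟩ = rmap (algebraMap k ℂ) (r z) := by
    intro z hz
    have h1 : algebraMap K L (z : K) ∈ cadj L (v.ring : Set K) :=
      Algebra.subset_adjoin ⟨(z : K), z.2, rfl⟩
    rw [hψ2 ⟨_, h1⟩ hz, hψ₀ ⟨_, h1⟩ 1 z (by
      show algebraMap K L (z : K) = _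
      rw [map_one, one_mul]), map_one, one_mul]
  refine ⟨ψ, ?_, hψ1, hψ3⟩
  obtain ⟨t, ht⟩ := hrs (algebraMap (Polynomial k) (RatFunc k) Polynomial.X)
  have hT : algebraMap K L (t : K) ∈ μ.ring := by
    show 0 ≤ μ.ord _
    rw [hμ.ord]
    exact t.2
  obtain ⟨T, hTd⟩ : ∃ T : μ.ring, T = ⟨_, hT⟩ := ⟨_, rfl⟩
  have hψT : ψ T = algebraMap (Polynomial ℂ) (RatFunc ℂ) Polynomial.X := by
    rw [hTd, hψ3, ht, rmap_algebraMap_c, Polynomial.map_X]
  have hpol : ∀ p : Polynomial ℂ, ψ (Polynomial.aeval T p) =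
      algebraMap (Polynomial ℂ) (RatFunc ℂ) p := by
    intro p
    rw [← Polynomial.aeval_algHom_apply, hψT, Polynomial.aeval_algebraMap_apply,
      Polynomial.aeval_X_left_apply]
  intro x
  obtain ⟨p, q, hq, rfl⟩ := IsFractionRing.div_surjective (A := Polynomial ℂ) x
  have hq0 : algebraMap (Polynomial ℂ) (RatFunc ℂ) q ≠ 0 := by
    rw [Ne, map_eq_zero_iff _ (IsFractionRing.injective (Polynomial ℂ) (RatFunc ℂ))]
    exact nonZeroDivisors.ne_zero hq
  have h1 : ψ (Polynomial.aeval T q) ≠ 0 := by rw [hpol]; exact hq0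
  obtain ⟨Q, hQ⟩ : ∃ Q : μ.ring, Q = Polynomial.aeval T q := ⟨_, rfl⟩
  rw [← hQ] at h1
  have h2 : (Q : L) ≠ 0 := fun h => h1 ((hψ1 Q).2 (Or.inl h))
  have h3 : ¬ 0 < μ.ord (Q : L) := fun h => h1 ((hψ1 Q).2 (Or.inr h))
  have h4 : (Q : L)⁻¹ ∈ μ.ring := by
    show 0 ≤ μ.ord _
    rw [μ.ord_inv]
    omega
  have h5 : ψ ⟨(Q : L)⁻¹, h4⟩ * ψ Q = 1 := by
    rw [← map_mul, ← map_one ψ]
    congr 1
    exact Subtype.ext (inv_mul_cancel₀ h2)
  refine ⟨Polynomial.aeval T p * ⟨(Q : L)⁻¹, h4⟩, ?_⟩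
  rw [map_mul, hpol, div_eq_mul_inv]
  have h6 : ψ Q = algebraMap (Polynomial ℂ) (RatFunc ℂ) q := by rw [hQ, hpol]
  rw [h6] at h5
  rw [eq_inv_of_mul_eq_one_left h5]

end Pool.Agent.LibK3
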