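import Pool.Agent.LibK3.BC0

/-!
ROW [K3 BC11].

The points of `X` are the points of the charts.

Proof. `hc : IsProjEmb f c` gives the affine open sets `U i`; the instance `Algebra k X.functionField` is equal to `(toStalk f (genericPoint X)).toAlgebra` (`Algebra.algebra_ext` and `hk`; do this first, `subst`/`convert`), so `kchart k c i` is the range of the germ map `Γ(X, U i) → X.functionField`
(injective; `functionField_isFractionRing_of_isAffineOpen`). For `x ∈ U i` the stalk is the localisation of `Γ(X, U i)` at the prime of `x` (`IsAffineOpen.isLocalization_stalk`, used in `isDiscreteValuationRing_stalk`, LibHP/S2.lean), whose image in the function field is `locAt (kchart k c i) P`, `P` the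
corresponding prime under the isomorphism `Γ(X, U i) ≅ kchart k c i` (a `RingEquiv`); `ringKrullDim (stalk) = height` by `IsLocalization.AtPrime.ringKrullDim_eq_height` and the height is invariant under ring isomorphisms (`RingEquiv.height_comap` or `Ideal.height_comap_equiv`...). Second statement: a prime of
`Γ(X, U i)` is a point of `U i` (`hU.fromSpec`, see the end of the proof of `finEt_of_presAt` in LibHP/S2.lean, `isLocalization_stalk'`).
-/

set_option autoImplicit false

open Pool.Agent.LibGMM Pool.Agent.LibHP Pool.Agent.LibK Pool.Agent.LibLB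
open AlgebraicGeometry CategoryTheory

namespace Pool.Agent.LibK3

variable {k : Type} [Field k] [CharZero k] {X : Scheme} [IsIntegral X]
  (f : X ⟶ Spec (CommRingCat.of k)) [Algebra k X.functionField]

/-- The local ring at `x`, as a subset of the function field. -/
def stk (X : Scheme) [IsIntegral X] (x : X) : Set X.functionField :=
  Set.range (algebraMap (X.presheaf.stalk x) X.functionField)

/-- localisations inside a field -/
private theorem bc11_loc {k K A₀ O : Type} [Field k] [Field K] [Algebra k K] [CommRing A₀]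
    [CommRing O] [Algebra A₀ O] [Algebra O K] (A : Subalgebra k K) (φ : A₀ →+* K)
    (hφ : ∀ a, algebraMap O K (algebraMap A₀ O a) = φ a) (e : A₀ ≃+* A) (he : ∀ a, (e a : K) = φ a)
    (p : Ideal A₀) [p.IsPrime] [IsLocalization.AtPrime O p] (P : Ideal A)
    (hP : ∀ a, e a ∈ P ↔ a ∈ p) :
    Set.range (algebraMap O K) = locAt A P := by
  have hne : ∀ s : A₀, s ∉ p → φ s ≠ 0 := by
    intro s hs h0
    have h1 := (IsLocalization.map_units O (⟨s, hs⟩ : p.primeCompl)).map (algebraMap O K)
    change IsUnit (algebraMap O K (algebraMap A₀ O s)) at h1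
    rw [hφ, h0] at h1
    exact not_isUnit_zero h1
  ext z
  constructor
  · rintro ⟨y, rfl⟩
    obtain ⟨a, s, rfl⟩ := IsLocalization.exists_mk'_eq p.primeCompl y
    refine ⟨e a, e s, fun h => s.2 ((hP _).1 h), ?_⟩
    rw [he, he, eq_div_iff (hne s s.2), ← hφ, ← map_mul, IsLocalization.mk'_spec, hφ]
  · rintro ⟨a, b, hb, rfl⟩
    obtain ⟨a, rfl⟩ := e.surjective a
    obtain ⟨b, rfl⟩ := e.surjective b
    have hb' : b ∉ p := fun h => hb ((hP _).2 h)
    refine ⟨IsLocalization.mk' O a (⟨b, hb'⟩ : p.primeCompl), ?_⟩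
    rw [he, he, eq_div_iff (hne b hb')]
    have h1 := IsLocalization.mk'_spec O a (⟨b, hb'⟩ : p.primeCompl)
    have h2 := congrArg (algebraMap O K) h1
    rw [map_mul, hφ, hφ] at h2
    exact h2

private theorem bc11_equiv {X : Scheme} [IsIntegral X] {k : Type} [Field k]
    [Algebra k X.functionField] (U : X.Opens) (h : genericPoint X ∈ U)
    (A : Subalgebra k X.functionField)
    (hA : ∀ z : X.functionField, (∃ s, X.presheaf.germ U (genericPoint X) h s = z) ↔ z ∈ A) :
    ∃ e : Γ(X, U) ≃+* A, ∀ s, (e s : X.functionField) =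
      (X.presheaf.germ U (genericPoint X) h).hom s := by
  let g : Γ(X, U) →+* A := (X.presheaf.germ U (genericPoint X) h).hom.codRestrict A.toSubring
    (fun s => (hA _).1 ⟨s, rfl⟩)
  have hg : Function.Bijective g := by
    constructor
    · intro a b hab
      exact germ_injective_of_isIntegral X _ h (congrArg Subtype.val hab)
    · rintro ⟨z, hz⟩
      obtain ⟨s, hs⟩ := (hA z).2 hz
      exact ⟨s, Subtype.ext hs⟩
  exact ⟨RingEquiv.ofBijective g hg, fun s => rfl⟩

theorem exists_chart_of_stk (hk : ∀ a : k, algebraMap k X.functionField a =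
    toStalk f (genericPoint X) a) {ι : Type} {c : ι → X.functionField} (hc : IsProjEmb f c) (x : X) :
    ∃ (i : ι) (P : Ideal (kchart k c i)), P.IsPrime ∧ stk X x = locAt (kchart k c i) P ∧
      ringKrullDim (X.presheaf.stalk x) = P.height := by
  rename_i inst
  have hinst : inst = (toStalk f (genericPoint X)).toAlgebra := Algebra.algebra_ext _ _ hk
  subst hinst
  let _ : Algebra k X.functionField := (toStalk f (genericPoint X)).toAlgebra
  obtain ⟨_, U, hU, hcov, hch⟩ := hc
  obtain ⟨i, hx⟩ := hcov x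
  obtain ⟨hgp, hA⟩ := hch i
  have hne : Nonempty (U i) := ⟨⟨x, hx⟩⟩
  obtain ⟨e, he⟩ := bc11_equiv (U i) hgp (kchart k c i) hA
  let _i1 : Algebra Γ(X, U i) (X.presheaf.stalk x) :=
    TopCat.Presheaf.algebra_section_stalk X.presheaf (⟨x, hx⟩ : U i)
  obtain ⟨p, hpp, hloc⟩ : ∃ (p : Ideal Γ(X, U i)) (_ : p.IsPrime),
      IsLocalization.AtPrime (X.presheaf.stalk x) p :=
    ⟨_, ((hU i).primeIdealOf ⟨x, hx⟩).isPrime, (hU i).isLocalization_stalk ⟨x, hx⟩⟩
  have htow : IsScalarTower Γ(X, U i) (X.presheaf.stalk x) X.functionField :=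
    functionField_isScalarTower X (U i) ⟨x, hx⟩
  have hφ : ∀ a : Γ(X, U i), algebraMap (X.presheaf.stalk x) X.functionField
      (algebraMap Γ(X, U i) (X.presheaf.stalk x) a) =
      (X.presheaf.germ (U i) (genericPoint X) hgp).hom a := fun a =>
    (IsScalarTower.algebraMap_apply Γ(X, U i) (X.presheaf.stalk x) X.functionField a).symm
  refine ⟨i, p.comap (e.symm : kchart k c i →+* Γ(X, U i)), Ideal.comap_isPrime _ _, ?_, ?_⟩
  · exact bc11_loc (kchart k c i) _ hφ e he p _ (fun a => by
      rw [Ideal.mem_comap, RingHom.coe_coe, RingEquiv.symm_apply_apply])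
  · rw [IsLocalization.AtPrime.ringKrullDim_eq_height p]
    congr 1
    exact (RingEquiv.height_comap e.symm p).symm

theorem exists_stk_of_isPtRing (hk : ∀ a : k, algebraMap k X.functionField a =
    toStalk f (genericPoint X) a) {ι : Type} {c : ι → X.functionField} (hc : IsProjEmb f c)
    (O : Set X.functionField) (hO : IsPtRing k c O) : ∃ x : X, O = stk X x := by
  rename_i inst
  have hinst : inst = (toStalk f (genericPoint X)).toAlgebra := Algebra.algebra_ext _ _ hk
  subst hinst
  let _ : Algebra k X.functionField := (toStalk f (genericPoint X)).toAlgebra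
  obtain ⟨i, P, hP, rfl⟩ := hO
  obtain ⟨_, U, hU, hcov, hch⟩ := hc
  obtain ⟨hgp, hA⟩ := hch i
  have hne : Nonempty (U i) := ⟨⟨_, hgp⟩⟩
  obtain ⟨e, he⟩ := bc11_equiv (U i) hgp (kchart k c i) hA
  have hpp : (P.comap (e : Γ(X, U i) →+* kchart k c i)).IsPrime := Ideal.comap_isPrime _ _
  obtain ⟨y, hy, hloc⟩ : ∃ (y : X) (hy : y ∈ U i),
      @IsLocalization.AtPrime Γ(X, U i) _ (X.presheaf.stalk y) _
        (TopCat.Presheaf.algebra_section_stalk X.presheaf (⟨y, hy⟩ : U i))
        (P.comap (e : Γ(X, U i) →+* kchart k c i)) _ := by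
    have hy : (hU i).fromSpec ⟨P.comap (e : Γ(X, U i) →+* kchart k c i), hpp⟩ ∈ U i := by
      have : (hU i).fromSpec ⟨P.comap (e : Γ(X, U i) →+* kchart k c i), hpp⟩ ∈
        Set.range (hU i).fromSpec := ⟨_, rfl⟩
      rwa [(hU i).range_fromSpec] at this
    exact ⟨_, hy, (hU i).isLocalization_stalk' ⟨_, hpp⟩ hy⟩
  let _i1 : Algebra Γ(X, U i) (X.presheaf.stalk y) :=
    TopCat.Presheaf.algebra_section_stalk X.presheaf (⟨y, hy⟩ : U i)
  have htow : IsScalarTower Γ(X, U i) (X.presheaf.stalk y) X.functionField :=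
    functionField_isScalarTower X (U i) ⟨y, hy⟩
  have hφ : ∀ a : Γ(X, U i), algebraMap (X.presheaf.stalk y) X.functionField
      (algebraMap Γ(X, U i) (X.presheaf.stalk y) a) =
      (X.presheaf.germ (U i) (genericPoint X) hgp).hom a := fun a =>
    (IsScalarTower.algebraMap_apply Γ(X, U i) (X.presheaf.stalk y) X.functionField a).symm
  refine ⟨y, ?_⟩
  exact (bc11_loc (kchart k c i) _ hφ e he (P.comap (e : Γ(X, U i) →+* kchart k c i)) P
    (fun a => by rw [Ideal.mem_comap, RingHom.coe_coe])).symm

end Pool.Agent.LibK3
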