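import Pool.Agent.LibK3.BC11

/-!
ROW [K3 BC12].

Étale charts of a smooth projective variety.
-/

set_option autoImplicit false

open Pool.Agent.LibGMM Pool.Agent.LibHP Pool.Agent.LibK Pool.Agent.LibLB
open AlgebraicGeometry CategoryTheory

namespace Pool.Agent.LibK3

section helpers

variable {X : Scheme} [IsIntegral X]

/-- sections in the function field -/
private noncomputable def BC12_gm (V : X.Opens) (h : genericPoint X ∈ V) :
    Γ(X, V) →+* X.functionField :=
  (X.presheaf.germ V (genericPoint X) h).hom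

private theorem BC12_gm_inj (V : X.Opens) (h : genericPoint X ∈ V) :
    Function.Injective (BC12_gm V h) :=
  germ_injective_of_isIntegral X (genericPoint X) h

private theorem BC12_gm_res {V W : X.Opens} (e : W ≤ V) (hV : genericPoint X ∈ V)
    (hW : genericPoint X ∈ W) (s : Γ(X, V)) :
    BC12_gm W hW ((X.presheaf.map (homOfLE e).op).hom s) = BC12_gm V hV s :=
  TopCat.Presheaf.germ_res_apply X.presheaf (homOfLE e) (genericPoint X) hW s

private theorem BC12_range {k : Type} [Field k] [Algebra k X.functionField] {U W : X.Opens}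
    (hU : IsAffineOpen U) (s : Γ(X, U)) (hWs : W = X.basicOpen s) (hgU : genericPoint X ∈ U)
    (hgW : genericPoint X ∈ W) (A : Subalgebra k X.functionField)
    (hA : ∀ z, (∃ t, BC12_gm U hgU t = z) ↔ z ∈ A) (z : X.functionField) :
    (∃ t, BC12_gm W hgW t = z) ↔
      z ∈ Algebra.adjoin k (insert (BC12_gm U hgU s)⁻¹ (A : Set X.functionField)) := by
  subst hWs
  have hloc := hU.isLocalization_basicOpen s
  have hres : ∀ a : Γ(X, U), BC12_gm (X.basicOpen s) hgW
      (algebraMap Γ(X, U) Γ(X, X.basicOpen s) a) = BC12_gm U hgU a :=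
    fun a => BC12_gm_res (X.basicOpen_le s) hgU hgW a
  have hunit : IsUnit (algebraMap Γ(X, U) Γ(X, X.basicOpen s) s) :=
    IsLocalization.Away.algebraMap_isUnit s
  have hs0 : BC12_gm U hgU s ≠ 0 := by
    rw [← hres]
    exact (hunit.map (BC12_gm (X.basicOpen s) hgW)).ne_zero
  constructor
  · rintro ⟨t, rfl⟩
    obtain ⟨n, a, ha⟩ := IsLocalization.Away.surj s t
    have h1 := congrArg (BC12_gm (X.basicOpen s) hgW) ha
    rw [map_mul, map_pow, hres, hres] at h1
    have h2 : BC12_gm (X.basicOpen s) hgW t =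
        BC12_gm U hgU a * ((BC12_gm U hgU s)⁻¹) ^ n := by
      rw [← h1, inv_pow, mul_assoc, mul_inv_cancel₀ (pow_ne_zero n hs0), mul_one]
    rw [h2]
    have h3 : BC12_gm U hgU a ∈
        Algebra.adjoin k (insert (BC12_gm U hgU s)⁻¹ (A : Set X.functionField)) :=
      Algebra.subset_adjoin (Set.mem_insert_of_mem _ ((hA _).1 ⟨a, rfl⟩))
    have h4 : (BC12_gm U hgU s)⁻¹ ∈
        Algebra.adjoin k (insert (BC12_gm U hgU s)⁻¹ (A : Set X.functionField)) :=
      Algebra.subset_adjoin (Set.mem_insert _ _)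
    exact mul_mem h3 (pow_mem h4 n)
  · intro hz
    have hAr : ∀ x ∈ A, ∃ t, BC12_gm (X.basicOpen s) hgW t = x := by
      intro x hx
      obtain ⟨t, ht⟩ := (hA x).2 hx
      exact ⟨_, (hres t).trans ht⟩
    induction hz using Algebra.adjoin_induction with
    | mem x hx =>
      rcases hx with rfl | hx
      · obtain ⟨w, hw⟩ := hunit.exists_left_inv
        refine ⟨w, ?_⟩
        have h1 : BC12_gm (X.basicOpen s) hgW w * BC12_gm U hgU s = 1 := by
          rw [← hres, ← map_mul, hw, map_one]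
        exact eq_inv_of_mul_eq_one_left h1
      · exact hAr x hx
    | algebraMap r => exact hAr _ (A.algebraMap_mem r)
    | add x y _ _ hx hy =>
      obtain ⟨t, rfl⟩ := hx
      obtain ⟨t', rfl⟩ := hy
      exact ⟨t + t', map_add _ _ _⟩
    | mul x y _ _ hx hy =>
      obtain ⟨t, rfl⟩ := hx
      obtain ⟨t', rfl⟩ := hy
      exact ⟨t * t', map_mul _ _ _⟩

private theorem BC12_gen (W : X.Opens) (x : X) (hx : x ∈ W) : genericPoint X ∈ W :=
  ((genericPoint_spec X).mem_open_set_iff W.isOpen).mpr (by simpa using ⟨x, hx⟩)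

end helpers

variable {k : Type} [Field k] [CharZero k] {X : Scheme} [IsIntegral X]
  (f : X ⟶ Spec (CommRingCat.of k)) [Algebra k X.functionField]

theorem hasEtaleCharts [Smooth f] (hk : ∀ a : k, algebraMap k X.functionField a =
    toStalk f (genericPoint X) a) {ι : Type} {c : ι → X.functionField} (hc : IsProjEmb f c) :
    HasEtaleCharts k c := by
  have hinst : (toStalk f (genericPoint X)).toAlgebra = ‹Algebra k X.functionField› :=
    Algebra.algebra_ext _ _ fun a => (hk a).symm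
  obtain ⟨-, U, hU, -, hch⟩ : (∀ i, c i ≠ 0) ∧ ∃ U : ι → X.Opens, (∀ i, IsAffineOpen (U i)) ∧
      (∀ x : X, ∃ i, x ∈ U i) ∧ ∀ i, ∃ h : genericPoint X ∈ U i, ∀ z : X.functionField,
      (∃ s, X.presheaf.germ (U i) (genericPoint X) h s = z) ↔ z ∈ kchart k c i := by
    unfold IsProjEmb at hc
    rw [hinst] at hc
    exact hc
  intro i P hP
  obtain ⟨hg, hA'⟩ := hch i
  have hA : ∀ z, (∃ t, BC12_gm (U i) hg t = z) ↔ z ∈ kchart k c i := hA'
  let e' : Γ(X, U i) →+* kchart k c i :=
    (BC12_gm (U i) hg).codRestrict (kchart k c i) (fun s => (hA _).1 ⟨s, rfl⟩)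
  let q : Ideal Γ(X, U i) := P.comap e'
  have hq : q.IsPrime := Ideal.IsPrime.comap e'
  obtain ⟨x, hxdef⟩ : ∃ x, x = (hU i).fromSpec ⟨q, hq⟩ := ⟨_, rfl⟩
  have hxU : x ∈ U i := by
    have h1 : (hU i).fromSpec ⟨q, hq⟩ ∈ Set.range (hU i).fromSpec := ⟨_, rfl⟩
    rw [(hU i).range_fromSpec] at h1
    rw [hxdef]
    exact h1
  have hxs : ∀ s : Γ(X, U i), x ∈ X.basicOpen s → e' s ∉ P := by
    intro s hs hsP
    have h1 : (⟨q, hq⟩ : PrimeSpectrum Γ(X, U i)) ∈
        (hU i).fromSpec ⁻¹ᵁ X.basicOpen s := by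
      rw [hxdef] at hs
      exact hs
    rw [(hU i).fromSpec_preimage_basicOpen] at h1
    exact h1 hsP
  -- the smooth chart
  obtain ⟨U0, hU0, V, hV, hxV, e, hs⟩ := Smooth.exists_isStandardSmooth f x
  obtain ⟨n, g, hgC, het⟩ := hs.exists_etale_mvPolynomial
  have hUtop : U0 = ⊤ := by
    have hne : (U0 : Set (Spec (CommRingCat.of k))).Nonempty := ⟨f x, e hxV⟩
    have : Subsingleton (Spec (CommRingCat.of k)) :=
      inferInstanceAs (Subsingleton (PrimeSpectrum k))
    exact TopologicalSpace.Opens.ext (Set.Nonempty.eq_univ hne)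
  subst hUtop
  obtain ⟨s, s', hss, hxs0⟩ := exists_basicOpen_le_affine_inter (hU i) hV x ⟨hxU, hxV⟩
  have hxW : x ∈ X.basicOpen s' := hss ▸ hxs0
  have hgW : genericPoint X ∈ X.basicOpen s' := BC12_gen _ x hxW
  have hgV : genericPoint X ∈ V := BC12_gen _ x hxV
  refine ⟨e' s, hxs s hxs0, n, ?_⟩
  have hR := BC12_range (hU i) s hss.symm hg hgW (kchart k c i) hA
  let B : Subalgebra k X.functionField :=
    Algebra.adjoin k (insert (((e' s : kchart k c i) : X.functionField)⁻¹)
      (kchart k c i : Set X.functionField))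
  have hRB : ∀ z, (∃ t, BC12_gm (X.basicOpen s') hgW t = z) ↔ z ∈ B := hR
  let φ : Γ(X, X.basicOpen s') →+* B :=
    (BC12_gm (X.basicOpen s') hgW).codRestrict B (fun t => (hRB _).1 ⟨t, rfl⟩)
  have hφ : Function.Bijective φ := by
    constructor
    · intro a b hab
      exact BC12_gm_inj _ hgW (congrArg Subtype.val hab)
    · rintro ⟨z, hz⟩
      obtain ⟨t, ht⟩ := (hRB z).2 hz
      exact ⟨t, Subtype.ext ht⟩
  have hloc := hV.isLocalization_basicOpen s'
  have hρ : (algebraMap Γ(X, V) Γ(X, X.basicOpen s')).Etale :=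
    RingHom.etale_algebraMap.2 (Algebra.Etale.of_isLocalizationAway s')
  have hb : Function.Bijective (Scheme.ΓSpecIso (CommRingCat.of k)).inv.hom :=
    ConcreteCategory.bijective_of_isIso (Scheme.ΓSpecIso (CommRingCat.of k)).inv
  have hψ0 : (g.comp (MvPolynomial.map (Scheme.ΓSpecIso (CommRingCat.of k)).inv.hom)).Etale :=
    RingHom.Etale.stableUnderComposition _ _ (RingHom.Etale.of_bijective
      ⟨MvPolynomial.map_injective _ hb.1, MvPolynomial.map_surjective _ hb.2⟩) het
  let Ψ : MvPolynomial (Fin n) k →+* B :=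
    φ.comp ((algebraMap Γ(X, V) Γ(X, X.basicOpen s')).comp
      (g.comp (MvPolynomial.map (Scheme.ΓSpecIso (CommRingCat.of k)).inv.hom)))
  have hΨ : Ψ.Etale :=
    RingHom.Etale.stableUnderComposition _ _
      (RingHom.Etale.stableUnderComposition _ _ hψ0 hρ) (RingHom.Etale.of_bijective hφ)
  have hΨk : ∀ a : k, Ψ (algebraMap k (MvPolynomial (Fin n) k) a) = algebraMap k B a := by
    intro a
    apply Subtype.ext
    change BC12_gm (X.basicOpen s') hgW (algebraMap Γ(X, V) Γ(X, X.basicOpen s')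
      (g (MvPolynomial.map (Scheme.ΓSpecIso (CommRingCat.of k)).inv.hom (MvPolynomial.C a)))) =
      algebraMap k X.functionField a
    rw [MvPolynomial.map_C]
    have h1 : g (MvPolynomial.C ((Scheme.ΓSpecIso (CommRingCat.of k)).inv.hom a)) =
        (f.appLE ⊤ V e).hom ((Scheme.ΓSpecIso (CommRingCat.of k)).inv.hom a) :=
      RingHom.congr_fun hgC _
    rw [h1, hk]
    have h2 : BC12_gm (X.basicOpen s') hgW (algebraMap Γ(X, V) Γ(X, X.basicOpen s')
        ((f.appLE ⊤ V e).hom ((Scheme.ΓSpecIso (CommRingCat.of k)).inv.hom a))) =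
        BC12_gm V hgV ((f.appLE ⊤ V e).hom ((Scheme.ΓSpecIso (CommRingCat.of k)).inv.hom a)) :=
      BC12_gm_res (X.basicOpen_le s') hgV hgW _
    rw [h2]
    have h3 := BC12_gm_res (V := ⊤) (W := V) le_top trivial hgV
      ((f.app ⊤).hom ((Scheme.ΓSpecIso (CommRingCat.of k)).inv.hom a))
    exact h3
  exact ⟨⟨Ψ, hΨk⟩, hΨ⟩

end Pool.Agent.LibK3
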