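import Pool.Agent.LibK3.BC11
import Pool.Agent.LibK3.BC1

/-!
ROW [K3 BC13].

The valuation of a point of codimension one.

Proof. `isDiscreteValuationRing_stalk` (LibHP/S2.lean): the stalk `O` at `x` is a discrete valuation ring, with field of fractions `K = X.functionField` (`IsFractionRing (X.presheaf.stalk x) X.functionField` is an instance in Mathlib). Define `v.ord z` through a uniformiser `ϖ`: every `z ≠ 0` of `K` is `ϖ ^ n * u`, `n : ℤ`, `u` a unit of `O`, `n` unique
(or through `IsDedekindDomain.HeightOneSpectrum.valuation`, or `multiplicity`; if you find a lemma in the library producing a `DVal` or an integer valued function from a `DiscreteValuationRing`, e.g. `exists_dval_of_prime` in LibKC/RowL5.lean or `LibBG`, adapt it). `ord_const`: constants of `k` are units of `O` (`hk` and `toStalk f x`).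
`v.On (kchart k c i)`: `i, P` from BC11, `stk X x = locAt A P`; `A.FG`: `A = kchart k c i` is generated by the finitely many `c j / c i` (`Finite ι`, `Subalgebra.fg_def`/`Set.finite_range`). For `z` with `0 ≤ v.ord z`: `z = a / b`, `b ∉ P`; `v.ord b = 0`, because `b` is a unit in `locAt A P` (`1 / b ∈ locAt A P`) .
-/

set_option autoImplicit false

open Pool.Agent.LibGMM Pool.Agent.LibHP Pool.Agent.LibK Pool.Agent.LibLB
open AlgebraicGeometry CategoryTheory

namespace Pool.Agent.LibK3

variable {k : Type} [Field k] [CharZero k] {X : Scheme} [IsIntegral X]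
  (f : X ⟶ Spec (CommRingCat.of k)) [Algebra k X.functionField]

/-- The integer valued valuation of a discrete valuation ring. -/
private theorem BC13_ord (O K : Type) [CommRing O] [IsDomain O] [IsDiscreteValuationRing O]
    [Field K] [Algebra O K] [IsFractionRing O K] : ∃ ord : K → ℤ, ord 0 = 0 ∧
    (∀ a b, a ≠ 0 → b ≠ 0 → ord (a * b) = ord a + ord b) ∧
    (∀ a b, a ≠ 0 → b ≠ 0 → a + b ≠ 0 → min (ord a) (ord b) ≤ ord (a + b)) ∧
    (∃ t, ord t = 1) ∧ ∀ z, 0 ≤ ord z ↔ z ∈ Set.range (algebraMap O K) := by
  classical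
  set v := (IsDiscreteValuationRing.maximalIdeal O).valuation K with hv
  have hne : ∀ a : K, a ≠ 0 → v a ≠ 0 := fun a ha => (Valuation.ne_zero_iff v).2 ha
  refine ⟨fun z => - WithZero.log (v z), ?_, ?_, ?_, ?_, ?_⟩
  · simp only [map_zero, WithZero.log_zero, neg_zero]
  · intro a b ha hb
    simp only [map_mul]
    rw [WithZero.log_mul (hne a ha) (hne b hb)]
    ring
  · intro a b ha hb hab
    have h1 := v.map_add a b
    have h2 : WithZero.log (v (a + b)) ≤ max (WithZero.log (v a)) (WithZero.log (v b)) := by
      rcases le_max_iff.1 h1 with h | h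
      · exact le_max_of_le_left ((WithZero.log_le_log (hne _ hab) (hne _ ha)).2 h)
      · exact le_max_of_le_right ((WithZero.log_le_log (hne _ hab) (hne _ hb)).2 h)
    show min (- WithZero.log (v a)) (- WithZero.log (v b)) ≤ - WithZero.log (v (a + b))
    rw [min_neg_neg]
    exact neg_le_neg h2
  · obtain ⟨t, ht⟩ := (IsDiscreteValuationRing.maximalIdeal O).valuation_exists_uniformizer K
    refine ⟨t, ?_⟩
    show - WithZero.log (v t) = 1
    rw [hv, ht, WithZero.log_exp, neg_neg]
  · intro z
    show 0 ≤ - WithZero.log (v z) ↔ _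
    rw [neg_nonneg]
    constructor
    · intro h
      by_cases hz : z = 0
      · exact ⟨0, by rw [hz, map_zero]⟩
      · have h1 : v z ≤ 1 := by
          rw [WithZero.log_le_iff_le_exp (hne z hz), WithZero.exp_zero] at h
          exact h
        exact IsDiscreteValuationRing.exists_lift_of_le_one h1
    · rintro ⟨a, rfl⟩
      by_cases ha : algebraMap O K a = 0
      · rw [ha, map_zero, WithZero.log_zero]
      · rw [WithZero.log_le_iff_le_exp (hne _ ha), WithZero.exp_zero]
        exact (IsDiscreteValuationRing.maximalIdeal O).valuation_le_one a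

omit [CharZero k] [Algebra k X.functionField] in
/-- The structure map of the local ring and of the function field. -/
private theorem BC13_toStalk (x : X) (a : k) :
    algebraMap (X.presheaf.stalk x) X.functionField (toStalk f x a) =
      toStalk f (genericPoint X) a := by
  have h1 : toStalk f (genericPoint X) =
      (X.presheaf.stalkSpecializes ((genericPoint_spec X).specializes trivial)).hom.comp
        (toStalk f x) := by
    unfold toStalk
    rw [← CommRingCat.hom_comp]
    congr 1
    simp only [Category.assoc]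
    rw [TopCat.Presheaf.germ_stalkSpecializes]
  rw [h1]
  rfl

theorem exists_kval [Smooth f] (hk : ∀ a : k, algebraMap k X.functionField a =
    toStalk f (genericPoint X) a) {ι : Type} [Finite ι] {c : ι → X.functionField}
    (hc : IsProjEmb f c) (x : X) (hx : ringKrullDim (X.presheaf.stalk x) = 1) :
    ∃ v : KVal k X.functionField, (∀ z, 0 ≤ v.ord z ↔ z ∈ stk X x) ∧
      ∃ i, v.On (kchart k c i) := by
  have := isDiscreteValuationRing_stalk f x hx
  obtain ⟨ord, h0, hmul, hadd, hone, hring⟩ := BC13_ord (X.presheaf.stalk x) X.functionField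
  have hinv : ∀ z, z ≠ 0 → ord z⁻¹ = - ord z := by
    intro z hz
    have h1 := hmul z z⁻¹ hz (inv_ne_zero hz)
    rw [mul_inv_cancel₀ hz] at h1
    have h2 := hmul 1 1 one_ne_zero one_ne_zero
    rw [mul_one] at h2
    omega
  have hconst : ∀ c : k, ord (algebraMap k X.functionField c) = 0 := by
    intro c
    by_cases hc0 : c = 0
    · rw [hc0, map_zero, h0]
    · have h1 : ∀ d : k, 0 ≤ ord (algebraMap k X.functionField d) := by
        intro d
        rw [hring, hk d, ← BC13_toStalk f x d]
        exact ⟨_, rfl⟩
      have h2 := h1 c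
      have h3 := h1 c⁻¹
      rw [map_inv₀, hinv _ ((map_ne_zero _).2 hc0)] at h3
      omega
  let v : KVal k X.functionField := ⟨ord, h0, hmul, hadd, hconst, hone⟩
  refine ⟨v, hring, ?_⟩
  obtain ⟨i, P, hP, hstk, -⟩ := exists_chart_of_stk f hk hc x
  have hloc : ∀ z, 0 ≤ ord z ↔ z ∈ locAt (kchart k c i) P := by
    intro z
    rw [hring, ← hstk]
    rfl
  have h1P : (1 : kchart k c i) ∉ P := fun h => hP.ne_top (P.eq_top_iff_one.2 h)
  refine ⟨i, ?_, ?_, ?_⟩
  · unfold kchart
    exact Subalgebra.fg_def.2 ⟨_, Set.finite_range _, rfl⟩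
  · intro b hb
    show 0 ≤ ord b
    rw [hloc]
    exact ⟨⟨b, hb⟩, 1, h1P, by simp⟩
  · intro z hz
    obtain ⟨a, b, hb, rfl⟩ := (hloc z).1 hz
    have hb0 : (b : X.functionField) ≠ 0 := by
      intro h
      apply hb
      have : b = 0 := Subtype.ext h
      rw [this]
      exact P.zero_mem
    refine ⟨a, a.2, b, b.2, hb0, ?_, rfl⟩
    have h2 : 0 ≤ ord (b : X.functionField) := (hloc _).2 ⟨b, 1, h1P, by simp⟩
    have h3 : 0 ≤ ord (b : X.functionField)⁻¹ := (hloc _).2 ⟨1, b, hb, by simp⟩
    rw [hinv _ hb0] at h3
    show ord (b : X.functionField) = 0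
    omega

end Pool.Agent.LibK3
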