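import Pool.Agent.LibK3.BC11

/-!
ROW [K3 BC14].

The residue map of a rational curve.

Proof. `hx.2` gives `φ : X.residueField x ≃+* RatFunc k`. For `z ∈ v.ring`, i.e. `0 ≤ v.ord z`, `z` is the image of a unique element `s` of the stalk at `x` (`hv`, `IsFractionRing.injective`); put `r z = φ (X.residue x s)`. It is a ring homomorphism (use a `RingEquiv` between the stalk and `v.ring`), compatible with `k` by `hk` and
`hx.2` (`toStalk f x a` maps to `toStalk f (genericPoint X) a` in the function field: there is such a lemma in LibHP/S2 or S4 or write it: both are `germ`s, `TopCat.Presheaf.germ_stalkSpecializes`). Surjective: `X.residue x` is surjective. Kernel: `r z = 0` iff `s` is in the maximal ideal iff `s` is not a unit iff `z = 0` or `z⁻¹ ∉ v.ring`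
iff `z = 0 ∨ 0 < v.ord z` (`KVal.ord_inv`).
-/

set_option autoImplicit false

open Pool.Agent.LibGMM Pool.Agent.LibHP Pool.Agent.LibK Pool.Agent.LibLB
open AlgebraicGeometry CategoryTheory

namespace Pool.Agent.LibK3

variable {k : Type} [Field k] [CharZero k] {X : Scheme} [IsIntegral X]
  (f : X ⟶ Spec (CommRingCat.of k)) [Algebra k X.functionField]

omit [CharZero k] [Algebra k X.functionField] in
private theorem BC14_toStalk (x : X) (a : k) :
    algebraMap (X.presheaf.stalk x) X.functionField (toStalk f x a) =
      toStalk f (genericPoint X) a := by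
  have h := TopCat.Presheaf.germ_stalkSpecializes X.presheaf (U := ⊤) (y := x) (x := genericPoint X)
    trivial ((genericPoint_spec X).specializes trivial)
  have h2 : algebraMap (X.presheaf.stalk x) X.functionField (toStalk f x a) =
      (((Scheme.ΓSpecIso (CommRingCat.of k)).inv ≫ f.appTop ≫
        X.presheaf.germ ⊤ x trivial) ≫ X.presheaf.stalkSpecializes
          ((genericPoint_spec X).specializes trivial)).hom a := rfl
  rw [h2, Category.assoc, Category.assoc, h]
  rfl

theorem exists_res (hk : ∀ a : k, algebraMap k X.functionField a =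
    toStalk f (genericPoint X) a) (x : X) (hx : IsRatPt f x) (v : KVal k X.functionField)
    (hv : ∀ z, 0 ≤ v.ord z ↔ z ∈ stk X x) :
    ∃ r : v.ring →ₐ[k] RatFunc k, Function.Surjective r ∧
      ∀ z, r z = 0 ↔ ((z : X.functionField) = 0 ∨ 0 < v.ord (z : X.functionField)) := by
  obtain ⟨-, φ, hφ⟩ := hx
  have hinj : Function.Injective (algebraMap (X.presheaf.stalk x) X.functionField) :=
    IsFractionRing.injective (X.presheaf.stalk x) X.functionField
  have hS : ∀ z : v.ring, ∃ s : X.presheaf.stalk x,
      algebraMap (X.presheaf.stalk x) X.functionField s = (z : X.functionField) := by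
    intro z
    exact (hv z).1 z.2
  choose S hS using hS
  have hmem : ∀ s : X.presheaf.stalk x,
      0 ≤ v.ord (algebraMap (X.presheaf.stalk x) X.functionField s) := fun s => (hv _).2 ⟨s, rfl⟩
  let ρ : X.presheaf.stalk x →+* RatFunc k := φ.toRingHom.comp (X.residue x).hom
  have hρ : ∀ s, ρ s = φ (X.residue x s) := fun s => rfl
  have hSeq : ∀ (z : v.ring) (s : X.presheaf.stalk x),
      algebraMap (X.presheaf.stalk x) X.functionField s = (z : X.functionField) → S z = s := by
    intro z s h
    apply hinj
    rw [hS, h]
  let r : v.ring →ₐ[k] RatFunc k :=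
    { toFun := fun z => ρ (S z)
      map_one' := by
        rw [hSeq 1 1 (by rw [map_one]; rfl), map_one]
      map_mul' := by
        intro a b
        rw [hSeq (a * b) (S a * S b) (by rw [map_mul, hS, hS]; rfl), map_mul]
      map_zero' := by
        rw [hSeq 0 0 (by rw [map_zero]; rfl), map_zero]
      map_add' := by
        intro a b
        rw [hSeq (a + b) (S a + S b) (by rw [map_add, hS, hS]; rfl), map_add]
      commutes' := by
        intro a
        rw [hSeq (algebraMap k v.ring a) (toStalk f x a)
          (by rw [BC14_toStalk, ← hk]; rfl), hρ, hφ]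
        exact (RatFunc.algebraMap_eq_C (K := k) ▸ rfl) }
  have hr : ∀ z, r z = ρ (S z) := fun z => rfl
  refine ⟨r, ?_, ?_⟩
  · intro y
    obtain ⟨s, hs⟩ := X.residue_surjective x (φ.symm y)
    refine ⟨⟨algebraMap (X.presheaf.stalk x) X.functionField s, hmem s⟩, ?_⟩
    rw [hr, hSeq _ s rfl, hρ, hs, RingEquiv.apply_symm_apply]
  · intro z
    have h1 : r z = 0 ↔ S z ∈ IsLocalRing.maximalIdeal (X.presheaf.stalk x) := by
      rw [hr, hρ, map_eq_zero_iff φ φ.injective]
      exact IsLocalRing.residue_eq_zero_iff (S z)
    rw [h1, IsLocalRing.mem_maximalIdeal, mem_nonunits_iff]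
    constructor
    · intro h
      by_contra hcon
      push Not at hcon
      obtain ⟨hz0, hz1⟩ := hcon
      have hz : v.ord (z : X.functionField) = 0 := le_antisymm hz1 z.2
      have hinv : 0 ≤ v.ord (z : X.functionField)⁻¹ := by
        rw [v.ord_inv, hz, neg_zero]
      obtain ⟨s', hs'⟩ := (hv _).1 hinv
      apply h
      refine IsUnit.of_mul_eq_one s' ?_
      apply hinj
      rw [map_mul, hS, hs', map_one, mul_inv_cancel₀ hz0]
    · rintro h hu
      obtain ⟨u, hu⟩ := hu
      have h2 : algebraMap (X.presheaf.stalk x) X.functionField ((u⁻¹ : (X.presheaf.stalk x)ˣ) :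
          X.presheaf.stalk x) * (z : X.functionField) = 1 := by
        rw [← hS z, ← map_mul, ← hu, Units.inv_mul, map_one]
      have hz0 : (z : X.functionField) ≠ 0 := by
        intro h0
        rw [h0, mul_zero] at h2
        exact zero_ne_one h2
      have hz1 : 0 < v.ord (z : X.functionField) := by
        rcases h with h | h
        · exact absurd h hz0
        · exact h
      have h3 := hmem ((u⁻¹ : (X.presheaf.stalk x)ˣ) : X.presheaf.stalk x)
      rw [eq_inv_of_mul_eq_one_left h2, v.ord_inv] at h3
      omega

end Pool.Agent.LibK3
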