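import Pool.Agent.LibK3.BC0

/-!
ROW [K3 BC15].

`k` is algebraically closed in fields with a valuation with residue field in `k(t)`.

Proof. (a) `closed_of_res`: let `b : K` be algebraic over `k`, `b ≠ 0`. Then `v.ord b = 0`: an element of positive order is transcendental (induction on the polynomial), and `b⁻¹` is algebraic too. `r b ∈ RatFunc k` is algebraic over `k`
so it is a constant `a` (`RatFunc.transcendental_of_ne_C`). So `b - a` has positive order or is zero, but it is algebraic over `k`, so by the first remark it is zero.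
(b) `resClosed_of_res`: `0 ≤ v.ord z`, `P ≠ 0`, `aeval z P = 0 ∨ 0 < v.ord (aeval z P)`: then `r (aeval z P) = aeval (r z) P = 0`, so `r z` is algebraic over `k`, a constant `a`, and `r (z - a) = 0`.
-/

set_option autoImplicit false

open Pool.Agent.LibGMM Pool.Agent.LibHP Pool.Agent.LibK Pool.Agent.LibLB

namespace Pool.Agent.LibK3

section

variable {k : Type} [Field k] {K : Type} [Field K] [Algebra k K]

private theorem BC15_aeval (v : KVal k K) {b : K} (hb : 0 ≤ v.ord b) (P : Polynomial k) :
    ((Polynomial.aeval (⟨b, hb⟩ : v.ring) P : v.ring) : K) = Polynomial.aeval b P := by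
  have h := Polynomial.aeval_algHom_apply v.ring.val (⟨b, hb⟩ : v.ring) P
  exact h.symm

private theorem BC15_ord_neg (v : KVal k K) (a : K) : v.ord (-a) = v.ord a := by
  by_cases h : a = 0
  · rw [h, neg_zero]
  · have h1 : v.ord (-1 : K) = 0 := by
      have := v.ord_const (-1)
      rwa [map_neg, map_one] at this
    rw [← neg_one_mul, v.ord_mul _ _ (by norm_num) h, h1, zero_add]

/-- An element of positive order is transcendental. -/
private theorem BC15_trans (v : KVal k K) {b : K} (hb : 0 < v.ord b) :
    ∀ (n : ℕ) (P : Polynomial k), P.natDegree ≤ n → P ≠ 0 → Polynomial.aeval b P ≠ 0 := by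
  have hb0 : b ≠ 0 := by
    rintro rfl
    rw [v.ord_zero] at hb
    exact lt_irrefl _ hb
  intro n
  induction n with
  | zero =>
    intro P hn hP
    rw [Polynomial.eq_C_of_natDegree_le_zero hn, Polynomial.aeval_C]
    intro h
    apply hP
    rw [Polynomial.eq_C_of_natDegree_le_zero hn, (map_eq_zero _).1 h, Polynomial.C_0]
  | succ n ih =>
    intro P hn hP h
    have hdec : Polynomial.aeval b P = b * Polynomial.aeval b P.divX + algebraMap k K (P.coeff 0) := by
      conv_lhs => rw [← Polynomial.divX_mul_X_add P]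
      rw [map_add, map_mul, Polynomial.aeval_X, Polynomial.aeval_C, mul_comm]
    have hdeg : P.divX.natDegree ≤ n := by
      rw [Polynomial.natDegree_divX_eq_natDegree_tsub_one]
      omega
    rw [hdec] at h
    by_cases hc : P.coeff 0 = 0
    · rw [hc, map_zero, add_zero] at h
      have hX : P.divX ≠ 0 := by
        intro h0
        apply hP
        rw [← Polynomial.divX_mul_X_add P, h0, hc]
        simp
      rcases mul_eq_zero.1 h with h1 | h1
      · exact hb0 h1
      · exact ih _ hdeg hX h1
    · have h2 : b * Polynomial.aeval b P.divX = -algebraMap k K (P.coeff 0) :=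
        eq_neg_of_add_eq_zero_left h
      have hw : Polynomial.aeval b P.divX ≠ 0 := by
        intro h0
        rw [h0, mul_zero] at h2
        exact hc ((map_eq_zero (algebraMap k K)).1 (neg_eq_zero.1 h2.symm))
      have hw1 : 0 ≤ v.ord (Polynomial.aeval b P.divX) := by
        rw [← BC15_aeval v hb.le]
        exact (Polynomial.aeval (⟨b, hb.le⟩ : v.ring) P.divX).2
      have h3 := v.ord_mul _ _ hb0 hw
      rw [h2, BC15_ord_neg, v.ord_const] at h3
      omega

private theorem BC15_ord_alg (v : KVal k K) {b : K} (hb : IsAlgebraic k b) : v.ord b = 0 := by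
  rcases lt_trichotomy (v.ord b) 0 with h | h | h
  · exfalso
    obtain ⟨P, hP, h1⟩ := hb.inv
    have h2 : 0 < v.ord b⁻¹ := by
      rw [v.ord_inv]
      omega
    exact BC15_trans v h2 _ P le_rfl hP h1
  · exact h
  · exfalso
    obtain ⟨P, hP, h1⟩ := hb
    exact BC15_trans v h _ P le_rfl hP h1

/-- `x` is in the maximal ideal. -/
private def BC15_m (v : KVal k K) (x : K) : Prop := x = 0 ∨ 1 ≤ v.ord x

private theorem BC15_m_iff (v : KVal k K) (x : K) : BC15_m v x ↔ (x = 0 ∨ 0 < v.ord x) := Iff.rfl

private theorem BC15_m_add (v : KVal k K) {x y : K} (hx : BC15_m v x) (hy : BC15_m v y) :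
    BC15_m v (x + y) := v.ord_add_ge hx hy

private theorem BC15_m_neg (v : KVal k K) {x : K} (hx : BC15_m v x) : BC15_m v (-x) := by
  rcases hx with rfl | hx
  · left; exact neg_zero
  · right; rwa [BC15_ord_neg]

private theorem BC15_m_sub (v : KVal k K) {x y : K} (hx : BC15_m v x) (hy : BC15_m v y) :
    BC15_m v (x - y) := by
  rw [sub_eq_add_neg]
  exact BC15_m_add v hx (BC15_m_neg v hy)

private theorem BC15_m_mul (v : KVal k K) {x y : K} (hx : BC15_m v x) (hy : 0 ≤ v.ord y) :
    BC15_m v (x * y) := by
  by_cases h0 : x = 0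
  · left; rw [h0, zero_mul]
  by_cases h1 : y = 0
  · left; rw [h1, mul_zero]
  rcases hx with hx | hx
  · exact absurd hx h0
  · right
    rw [v.ord_mul _ _ h0 h1]
    omega

end

variable {k : Type} [Field k] [CharZero k] {K : Type} [Field K] [Algebra k K]

theorem ratFunc_const (x : RatFunc k) (P : Polynomial k) (hP : P ≠ 0)
    (h : Polynomial.aeval x P = 0) : ∃ a : k, x = RatFunc.C a := by
  by_contra hcon
  exact RatFunc.transcendental_of_ne_C x hcon ⟨P, hP, h⟩

theorem closed_of_res (v : KVal k K) (r : v.ring →ₐ[k] RatFunc k)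
    (hr : ∀ z, r z = 0 ↔ ((z : K) = 0 ∨ 0 < v.ord (z : K))) (b : K) (hb : IsAlgebraic k b) :
    ∃ a : k, algebraMap k K a = b := by
  have hb0 : 0 ≤ v.ord b := (BC15_ord_alg v hb).ge
  obtain ⟨P, hP, h1⟩ := hb
  have h2 : Polynomial.aeval (⟨b, hb0⟩ : v.ring) P = 0 := by
    apply Subtype.ext
    rw [BC15_aeval v hb0 P, h1]
    rfl
  have h3 : Polynomial.aeval (r ⟨b, hb0⟩) P = 0 := by
    rw [Polynomial.aeval_algHom_apply, h2, map_zero]
  obtain ⟨a, ha⟩ := ratFunc_const _ P hP h3
  refine ⟨a, ?_⟩
  have h4 : r (⟨b, hb0⟩ - algebraMap k v.ring a) = 0 := by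
    rw [map_sub, ha, AlgHom.commutes, RatFunc.algebraMap_eq_C, sub_self]
  rw [hr] at h4
  have h5 : ((⟨b, hb0⟩ - algebraMap k v.ring a : v.ring) : K) = b - algebraMap k K a := rfl
  rw [h5] at h4
  rcases h4 with h4 | h4
  · exact (sub_eq_zero.1 h4).symm
  · have hb' : IsAlgebraic k b := ⟨P, hP, h1⟩
    have h6 := BC15_ord_alg v (hb'.sub (isAlgebraic_algebraMap a))
    omega

theorem resClosed_of_res (v : KVal k K) (r : v.ring →ₐ[k] RatFunc k)
    (hr : ∀ z, r z = 0 ↔ ((z : K) = 0 ∨ 0 < v.ord (z : K))) : v.ResClosed := by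
  intro z P hz hP hPz
  have h2 : r (Polynomial.aeval (⟨z, hz⟩ : v.ring) P) = 0 := by
    rw [hr, BC15_aeval v hz P]
    exact hPz
  have h3 : Polynomial.aeval (r ⟨z, hz⟩) P = 0 := by
    rw [Polynomial.aeval_algHom_apply, h2]
  obtain ⟨a, ha⟩ := ratFunc_const _ P hP h3
  refine ⟨a, ?_⟩
  have h4 : r (⟨z, hz⟩ - algebraMap k v.ring a) = 0 := by
    rw [map_sub, ha, AlgHom.commutes, RatFunc.algebraMap_eq_C, sub_self]
  rw [hr] at h4
  have h5 : ((⟨z, hz⟩ - algebraMap k v.ring a : v.ring) : K) = z - algebraMap k K a := rfl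
  rw [h5] at h4
  rcases h4 with h4 | h4
  · exact Or.inl (sub_eq_zero.1 h4)
  · exact Or.inr h4

/-- A valuation of residue degree one over `v` has the same residue field. -/
theorem exists_res_over {M : Type} [Field M] [Algebra k M] [Algebra K M] [IsScalarTower k K M]
    (v : KVal k K) (r : v.ring →ₐ[k] RatFunc k) (hrs : Function.Surjective r)
    (hr : ∀ z, r z = 0 ↔ ((z : K) = 0 ∨ 0 < v.ord (z : K))) (v' : KVal k M) (e : ℕ) (he : 0 < e)
    (hv' : ∀ z, v'.ord (algebraMap K M z) = e * v.ord z)
    (hres : ∀ z : M, 0 ≤ v'.ord z → ∃ w : K, 0 ≤ v.ord w ∧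
      (z = algebraMap K M w ∨ 0 < v'.ord (z - algebraMap K M w))) :
    ∃ r' : v'.ring →ₐ[k] RatFunc k, Function.Surjective r' ∧
      (∀ z, r' z = 0 ↔ ((z : M) = 0 ∨ 0 < v'.ord (z : M))) ∧
      ∀ (z : v.ring) (hz : algebraMap K M z ∈ v'.ring), r' ⟨algebraMap K M z, hz⟩ = r z := by
  have he' : (0 : ℤ) < e := by exact_mod_cast he
  have hm : ∀ w : K, BC15_m v' (algebraMap K M w) ↔ BC15_m v w := by
    intro w
    rw [BC15_m_iff, BC15_m_iff, map_eq_zero, hv']
    constructor
    · rintro (h | h)
      · exact Or.inl h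
      · exact Or.inr ((mul_pos_iff_of_pos_left he').1 h)
    · rintro (h | h)
      · exact Or.inl h
      · exact Or.inr (mul_pos he' h)
  have hres' : ∀ z : v'.ring, ∃ w : v.ring, BC15_m v' ((z : M) - algebraMap K M (w : K)) := by
    intro z
    obtain ⟨w, hw, h⟩ := hres z z.2
    refine ⟨⟨w, hw⟩, ?_⟩
    rw [BC15_m_iff]
    rcases h with h | h
    · left; exact sub_eq_zero.2 h
    · right; exact h
  choose W hW using hres'
  have huniq : ∀ (z : M) (w w' : v.ring), BC15_m v' (z - algebraMap K M (w : K)) →
      BC15_m v' (z - algebraMap K M (w' : K)) → r w = r w' := by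
    intro z w w' h h'
    have h1 : BC15_m v' (algebraMap K M ((w : K) - (w' : K))) := by
      have := BC15_m_sub v' h' h
      rw [map_sub]
      have h2 : z - algebraMap K M (w' : K) - (z - algebraMap K M (w : K)) =
          algebraMap K M (w : K) - algebraMap K M (w' : K) := by ring
      rwa [h2] at this
    rw [hm, BC15_m_iff] at h1
    have h2 : r (w - w') = 0 := (hr _).2 h1
    rw [map_sub] at h2
    exact sub_eq_zero.1 h2
  have hmem : ∀ w : v.ring, 0 ≤ v'.ord (algebraMap K M (w : K)) := by
    intro w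
    rw [hv']
    exact mul_nonneg he'.le w.2
  let r' : v'.ring →ₐ[k] RatFunc k :=
    { toFun := fun z => r (W z)
      map_one' := by
        rw [← map_one r]
        refine huniq 1 _ _ (hW 1) ?_
        left
        have : ((1 : v.ring) : K) = 1 := rfl
        rw [this, map_one, sub_self]
      map_mul' := by
        intro x y
        rw [← map_mul r]
        refine huniq ((x * y : v'.ring) : M) _ _ (hW _) ?_
        have h1 : ((x * y : v'.ring) : M) - algebraMap K M ((W x * W y : v.ring) : K) =
            ((x : M) - algebraMap K M (W x : K)) * (y : M) +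
              ((y : M) - algebraMap K M (W y : K)) * algebraMap K M (W x : K) := by
          have e1 : ((x * y : v'.ring) : M) = (x : M) * (y : M) := rfl
          have e2 : ((W x * W y : v.ring) : K) = (W x : K) * (W y : K) := rfl
          rw [e1, e2, map_mul]
          ring
        rw [h1]
        exact BC15_m_add v' (BC15_m_mul v' (hW x) y.2) (BC15_m_mul v' (hW y) (hmem _))
      map_zero' := by
        rw [← map_zero r]
        refine huniq 0 _ _ (hW 0) ?_
        left
        have : ((0 : v.ring) : K) = 0 := rfl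
        rw [this, map_zero, sub_self]
      map_add' := by
        intro x y
        rw [← map_add r]
        refine huniq ((x + y : v'.ring) : M) _ _ (hW _) ?_
        have h1 : ((x + y : v'.ring) : M) - algebraMap K M ((W x + W y : v.ring) : K) =
            ((x : M) - algebraMap K M (W x : K)) + ((y : M) - algebraMap K M (W y : K)) := by
          have e1 : ((x + y : v'.ring) : M) = (x : M) + (y : M) := rfl
          have e2 : ((W x + W y : v.ring) : K) = (W x : K) + (W y : K) := rfl
          rw [e1, e2, map_add]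
          ring
        rw [h1]
        exact BC15_m_add v' (hW x) (hW y)
      commutes' := by
        intro a
        rw [← r.commutes a]
        refine huniq ((algebraMap k v'.ring a : v'.ring) : M) _ _ (hW _) ?_
        left
        have e1 : ((algebraMap k v'.ring a : v'.ring) : M) = algebraMap k M a := rfl
        have e2 : ((algebraMap k v.ring a : v.ring) : K) = algebraMap k K a := rfl
        rw [e1, e2, ← IsScalarTower.algebraMap_apply, sub_self] }
  have hr'eq : ∀ (z : v'.ring), r' z = r (W z) := fun z => rfl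
  have hcomp : ∀ (z : v.ring) (hz : algebraMap K M z ∈ v'.ring),
      r' ⟨algebraMap K M z, hz⟩ = r z := by
    intro z hz
    rw [hr'eq]
    refine huniq (algebraMap K M z) _ _ (hW ⟨algebraMap K M z, hz⟩) ?_
    left
    exact sub_self _
  refine ⟨r', ?_, ?_, hcomp⟩
  · intro y
    obtain ⟨z, hz⟩ := hrs y
    exact ⟨⟨algebraMap K M z, hmem z⟩, by rw [hcomp, hz]⟩
  · intro z
    rw [hr'eq, hr, ← BC15_m_iff, ← BC15_m_iff, ← hm]
    constructor
    · intro h
      have := BC15_m_add v' (hW z) h
      rwa [sub_add_cancel] at this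
    · intro h
      have := BC15_m_sub v' h (hW z)
      rwa [sub_sub_cancel] at this

end Pool.Agent.LibK3
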