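import Pool.Agent.LibK3.BC11

set_option autoImplicit false

open Pool.Agent.LibGMM Pool.Agent.LibHP Pool.Agent.LibK Pool.Agent.LibLB
open AlgebraicGeometry CategoryTheory

namespace Pool.Agent.LibK3

variable {k : Type} [Field k] [CharZero k] {X : Scheme} [IsIntegral X]
  (f : X ⟶ Spec (CommRingCat.of k)) [Algebra k X.functionField]

private theorem BC16_germ_id (φ : X ⟶ X) (hφ : φ = 𝟙 X) (U : X.Opens) (x : X) (h1 : x ∈ U)
    (h2 : x ∈ φ ⁻¹ᵁ U) (s : Γ(X, U)) :
    X.presheaf.germ (φ ⁻¹ᵁ U) x h2 (φ.app U s) = X.presheaf.germ U x h1 s := by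
  subst hφ
  simp
  rfl

private theorem BC16_inv (g : X ≅ X) (z : X.functionField) : kap g.hom (kap g.inv z) = z := by
  obtain ⟨U, h1, s, rfl⟩ := X.presheaf.exists_germ_eq z
  have h2 := genericPoint_mem_preimage g.inv U h1
  have h3 := genericPoint_mem_preimage g.hom (g.inv ⁻¹ᵁ U) h2
  rw [kap_germ g.inv U h1 h2 s, kap_germ g.hom _ h2 h3]
  have h4 : g.hom.app (g.inv ⁻¹ᵁ U) (g.inv.app U s) = (g.hom ≫ g.inv).app U s := by
    rw [Scheme.Hom.comp_app]; rfl
  rw [h4]
  exact BC16_germ_id (g.hom ≫ g.inv) g.hom_inv_id U _ h1 h3 s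

private theorem BC16_mem (x : X) (z : X.functionField) : z ∈ stk X x ↔
    ∃ (U : X.Opens) (h : genericPoint X ∈ U) (s : Γ(X, U)), x ∈ U ∧
      X.presheaf.germ U (genericPoint X) h s = z := by
  constructor
  · rintro ⟨w, rfl⟩
    obtain ⟨U, h1, s, rfl⟩ := X.presheaf.exists_germ_eq w
    have h2 := genericPoint_mem U x h1
    have : Nonempty U := ⟨⟨x, h1⟩⟩
    refine ⟨U, h2, s, h1, ?_⟩
    rw [Scheme.algebraMap_germ_eq_germToFunctionField]
  · rintro ⟨U, h, s, hx, rfl⟩
    have : Nonempty U := ⟨⟨x, hx⟩⟩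
    refine ⟨X.presheaf.germ U x hx s, ?_⟩
    rw [Scheme.algebraMap_germ_eq_germToFunctionField]

private theorem BC16_sub (g : X ≅ X) (x : X) (z : X.functionField) (hz : z ∈ stk X (g.hom x)) :
    kap g.hom z ∈ stk X x := by
  rw [BC16_mem] at hz ⊢
  obtain ⟨U, h, s, hx, rfl⟩ := hz
  have h2 := genericPoint_mem_preimage g.hom U h
  refine ⟨g.hom ⁻¹ᵁ U, h2, g.hom.app U s, hx, ?_⟩
  rw [kap_germ g.hom U h h2 s]

private theorem BC16_pt (g : X ≅ X) (x : X) : g.inv (g.hom x) = x := by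
  rw [← Scheme.Hom.comp_apply, g.hom_inv_id]
  rfl

theorem exists_gam (hk : ∀ a : k, algebraMap k X.functionField a =
    toStalk f (genericPoint X) a) (g : X ≅ X) (hg : g.hom ≫ f = f) :
    ∃ γ : X.functionField ≃ₐ[k] X.functionField, (∀ z, γ z = kap g.hom z) ∧
      (∀ z, γ.symm z = kap g.inv z) ∧ ∀ x : X, γ '' stk X (g.hom x) = stk X x := by
  have hlin : ∀ a : k, kap g.hom (algebraMap k X.functionField a) = algebraMap k X.functionField a := by
    intro a
    rw [hk a]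
    have h1 : genericPoint X ∈ (⊤ : X.Opens) := trivial
    have h2 := genericPoint_mem_preimage g.hom (⊤ : X.Opens) h1
    have e1 : toStalk f (genericPoint X) a = X.presheaf.germ ⊤ (genericPoint X) h1
        (f.appTop ((Scheme.ΓSpecIso (CommRingCat.of k)).inv a)) := rfl
    rw [e1, kap_germ g.hom ⊤ h1 h2]
    have e2 : ∀ (φ : X ⟶ Spec (CommRingCat.of k)) (hφ : φ = f) (t : Γ(Spec (CommRingCat.of k), ⊤)),
        X.presheaf.germ ⊤ (genericPoint X) h1 (φ.appTop t) =
          X.presheaf.germ ⊤ (genericPoint X) h1 (f.appTop t) := by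
      intro φ hφ t
      subst hφ
      rfl
    have e3 : (g.hom.app ⊤) (f.appTop ((Scheme.ΓSpecIso (CommRingCat.of k)).inv a)) =
        (g.hom ≫ f).appTop ((Scheme.ΓSpecIso (CommRingCat.of k)).inv a) := by
      rw [Scheme.Hom.comp_appTop]; rfl
    rw [e3]
    exact e2 (g.hom ≫ f) hg _
  have hinv2 : ∀ z, kap g.inv (kap g.hom z) = z := BC16_inv g.symm
  refine ⟨AlgEquiv.ofRingEquiv (f := RingEquiv.ofRingHom (kap g.hom) (kap g.inv)
    (RingHom.ext (BC16_inv g)) (RingHom.ext hinv2)) hlin, fun z => rfl, fun z => rfl, ?_⟩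
  intro x
  ext z
  constructor
  · rintro ⟨w, hw, rfl⟩
    exact BC16_sub g x w hw
  · intro hz
    refine ⟨kap g.inv z, ?_, BC16_inv g z⟩
    have h1 := BC16_sub g.symm (g.hom x) z (by
      show z ∈ stk X (g.inv (g.hom x))
      rw [BC16_pt]; exact hz)
    exact h1

theorem isPtRing_gam (hk : ∀ a : k, algebraMap k X.functionField a =
    toStalk f (genericPoint X) a) {ι : Type} {c : ι → X.functionField} (hc : IsProjEmb f c)
    (g : X ≅ X) (γ : X.functionField ≃ₐ[k] X.functionField)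
    (hγ : ∀ x : X, γ '' stk X (g.hom x) = stk X x) (O : Set X.functionField)
    (hO : IsPtRing k c O) : IsPtRing k c (γ '' O) ∧ IsPtRing k c (γ.symm '' O) := by
  have hpt : ∀ x : X, IsPtRing k c (stk X x) := by
    intro x
    obtain ⟨i, P, hP, h1, -⟩ := exists_chart_of_stk f hk hc x
    exact ⟨i, P, hP, h1⟩
  obtain ⟨x, rfl⟩ := exists_stk_of_isPtRing f hk hc O hO
  constructor
  · have h1 := hγ (g.inv x)
    have h2 : g.hom (g.inv x) = x := BC16_pt g.symm x
    rw [h2] at h1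
    rw [h1]
    exact hpt _
  · have h1 := hγ x
    have h2 : γ.symm '' (stk X x) = stk X (g.hom x) := by
      rw [← h1, Set.image_image]
      simp
    rw [h2]
    exact hpt _

end Pool.Agent.LibK3
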