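import Pool.Agent.LibK3.BC12

/-!
ROW [K3 BC17].

The model.

Proof. `fin`, `c_ne`, `dim`, `closed`: hypotheses. `ne`: `X` has a point, which lies in some `U i`. `frac`: `kchart k c i` is the image of `Γ(X, U i)` and `functionField_isFractionRing_of_isAffineOpen` (see BC11). `etale`: BC12.
-/

set_option autoImplicit false

open Pool.Agent.LibGMM Pool.Agent.LibHP Pool.Agent.LibK Pool.Agent.LibLB
open AlgebraicGeometry CategoryTheory

namespace Pool.Agent.LibK3

variable {k : Type} [Field k] [CharZero k] {X : Scheme} [IsIntegral X]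
  (f : X ⟶ Spec (CommRingCat.of k)) [Algebra k X.functionField]

theorem kmodel [Smooth f] (hk : ∀ a : k, algebraMap k X.functionField a =
    toStalk f (genericPoint X) a) {ι : Type} [Finite ι] {c : ι → X.functionField}
    (hc : IsProjEmb f c) (hdim : Algebra.trdeg k X.functionField = 2)
    (hcl : ∀ b : X.functionField, IsAlgebraic k b → ∃ a : k, algebraMap k X.functionField a = b) :
    KModel k c := by
  have het : HasEtaleCharts k c := hasEtaleCharts f hk hc
  rename_i i1 i2 i3 alg i5 i6
  have halg : alg = (toStalk f (genericPoint X)).toAlgebra := Algebra.algebra_ext _ _ hk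
  subst halg
  letI : Algebra k X.functionField := (toStalk f (genericPoint X)).toAlgebra
  obtain ⟨hc0, U, hU, hcov, hch⟩ := hc
  refine ⟨inferInstance, ?_, hc0, ?_, het, hdim, hcl⟩
  · obtain ⟨i, -⟩ := hcov (genericPoint X)
    exact ⟨i⟩
  · intro i z
    obtain ⟨hi, hz⟩ := hch i
    haveI : Nonempty (U i) := ⟨⟨genericPoint X, hi⟩⟩
    haveI := functionField_isFractionRing_of_isAffineOpen X (U i) (hU i)
    obtain ⟨a, b, hb, hab⟩ := IsFractionRing.div_surjective (A := Γ(X, U i)) z
    have hb0 : algebraMap Γ(X, U i) X.functionField b ≠ 0 :=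
      IsFractionRing.to_map_ne_zero_of_mem_nonZeroDivisors hb
    exact ⟨algebraMap Γ(X, U i) X.functionField a, (hz _).1 ⟨a, rfl⟩,
      algebraMap Γ(X, U i) X.functionField b, (hz _).1 ⟨b, rfl⟩, hb0, hab.symm⟩

end Pool.Agent.LibK3
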