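import Pool.Agent.LibK3.BC11
import Pool.Agent.LibHP2.D1

/-!
ROW [K3 BC18].

A point of codimension one where the extension is not unramified.
-/

set_option autoImplicit false

open Pool.Agent.LibGMM Pool.Agent.LibHP Pool.Agent.LibK Pool.Agent.LibLB
open AlgebraicGeometry CategoryTheory

namespace Pool.Agent.LibK3

section helpers

open IsDedekindDomain WithZero Polynomial

private theorem BC18_lift {R R' M : Type} [CommRing R] [CommRing R'] [Field M] (f : R →+* M)
    (g : R' →+* M) (h : ∀ r, ∃ r', g r' = f r) {z : M} (hz : f.IsIntegralElem z) :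
    g.IsIntegralElem z := by
  obtain ⟨p, hp, hp0⟩ := hz
  have h1 : p.map f ∈ Polynomial.lifts g := by
    rw [Polynomial.lifts_iff_coeff_lifts]
    intro n
    rw [Polynomial.coeff_map]
    exact h _
  obtain ⟨q, hq, -, hqm⟩ := Polynomial.lifts_and_natDegree_eq_and_monic h1 (hp.map f)
  refine ⟨q, hqm, ?_⟩
  rw [← Polynomial.eval_map, hq, Polynomial.eval_map]
  exact hp0

variable {k K : Type} [Field k] [Field K] [Algebra k K]

/-- The ring of `v` as a valuation subring. -/
private def BC18_O (v : KVal k K) : ValuationSubring K :=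
  { v.ring.toSubring with
    mem_or_inv_mem' := by
      intro x
      change 0 ≤ v.ord x ∨ 0 ≤ v.ord x⁻¹
      rw [v.ord_inv]
      omega }

private theorem BC18_mem (v : KVal k K) (x : K) : x ∈ BC18_O v ↔ 0 ≤ v.ord x := Iff.rfl

private theorem BC18_pow (v : KVal k K) {x : K} (hx : x ≠ 0) (n : ℕ) :
    v.ord (x ^ n) = n * v.ord x := by
  induction n with
  | zero => rw [pow_zero, v.ord_one]; simp
  | succ n ih =>
    rw [pow_succ, v.ord_mul _ _ (pow_ne_zero n hx) hx, ih]
    push_cast
    ring

private theorem BC18_unif (v : KVal k K) {π : K} (hπ : v.ord π = 1) : IsUnif (BC18_O v) π := by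
  have h0 : π ≠ 0 := by
    rintro rfl
    rw [v.ord_zero] at hπ
    omega
  refine ⟨?_, h0, ?_, ?_⟩
  · rw [BC18_mem, hπ]
    omega
  · rw [BC18_mem, v.ord_inv, hπ]
    omega
  · intro a ha ha0
    rw [BC18_mem] at ha
    have h1 : v.ord (π ^ (v.ord a).toNat) = v.ord a := by
      rw [BC18_pow v h0, hπ]
      omega
    have h2 : π ^ (v.ord a).toNat ≠ 0 := pow_ne_zero _ h0
    have h3 : v.ord (a * (π ^ (v.ord a).toNat)⁻¹) = 0 := by
      rw [v.ord_mul _ _ ha0 (inv_ne_zero h2), v.ord_inv, h1]
      omega
    refine ⟨(v.ord a).toNat, a * (π ^ (v.ord a).toNat)⁻¹, ?_, ?_, ?_⟩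
    · rw [BC18_mem, h3]
    · rw [BC18_mem, v.ord_inv, h3]
      omega
    · rw [inv_mul_cancel_right₀ h2]

private theorem BC18_unram {M : Type} [Field M] [Algebra k M] [Algebra K M] [IsScalarTower k K M]
    [FiniteDimensional K M] [CharZero K] (v : KVal k K)
    (h : ∀ (v' : KVal k M) (e : ℕ), (∀ z, v'.ord (algebraMap K M z) = e * v.ord z) → e ≤ 1)
    {π : K} (hπ : v.ord π = 1) (W : ValuationSubring M)
    (hW : W.comap (algebraMap K M) = BC18_O v) : Unram W (algebraMap K M π) := by
  classical
  have hU := BC18_unif v hπ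
  have := D1_isDVR (BC18_O v) π hU
  obtain ⟨hπO, hπ0, hπi, hπf⟩ := hU
  have : Algebra.IsSeparable K M := inferInstance
  let B := integralClosure (BC18_O v) M
  have : IsDedekindDomain B := integralClosure.isDedekindDomain (BC18_O v) K M
  have : IsFractionRing B M := integralClosure.isFractionRing_of_finite_extension K M
  have : Algebra.IsIntegral (BC18_O v) B := IsIntegralClosure.isIntegral_algebra (BC18_O v) M
  have hOW : ∀ a ∈ BC18_O v, algebraMap K M a ∈ W := by
    intro a ha
    rw [← hW] at ha
    exact ha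
  have hBW : ∀ b : B, algebraMap B M b ∈ W := by
    intro b
    have h1 : (algebraMap (BC18_O v) M).IsIntegralElem (b : M) := b.2
    have h2 : (algebraMap W M).IsIntegralElem (b : M) :=
      BC18_lift _ _ (fun r => ⟨⟨algebraMap K M (r : K), hOW _ r.2⟩, rfl⟩) h1
    obtain ⟨y, hy⟩ := (IsIntegrallyClosed.isIntegral_iff (R := W) (K := M)).1 h2
    have h3 : (y : M) = (b : M) := hy
    change (b : M) ∈ W
    rw [← h3]
    exact y.2
  let incl : B →+* W := (algebraMap B M).codRestrict W.toSubring hBW
  have hincl : ∀ b, ((incl b : W) : M) = algebraMap B M b := fun b => rfl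
  have hπW : algebraMap K M π ∈ W := hOW π hπO
  have hπM0 : algebraMap K M π ≠ 0 := fun h => hπ0 ((algebraMap K M).injective (by
    rw [h, map_zero]))
  have hπlt : W.valuation (algebraMap K M π) < 1 := by
    have h1 : W.valuation (algebraMap K M π) ≤ 1 := (W.valuation_le_one_iff _).2 hπW
    refine lt_of_le_of_ne h1 fun h2 => hπi ?_
    have h3 : (algebraMap K M π)⁻¹ ∈ W := by
      rw [← W.valuation_le_one_iff, map_inv₀, h2, inv_one]
    rw [← hW, ValuationSubring.mem_comap, map_inv₀]
    exact h3
  let P : Ideal B := (IsLocalRing.maximalIdeal W).comap incl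
  have hmemP : ∀ b : B, b ∈ P ↔ W.valuation (algebraMap B M b) < 1 := by
    intro b
    rw [Ideal.mem_comap, ValuationSubring.valuation_lt_one_iff, hincl]
  have hPprime : P.IsPrime := Ideal.IsPrime.comap incl
  have hPne : P ≠ ⊥ := by
    intro hbot
    have h1 : algebraMap (BC18_O v) B ⟨π, hπO⟩ ∈ P := by
      rw [hmemP]
      exact hπlt
    rw [hbot, Ideal.mem_bot] at h1
    have h2 : algebraMap K M π = 0 := congrArg (algebraMap B M) h1
    exact hπM0 h2
  let p : HeightOneSpectrum B := ⟨P, hPprime, hPne⟩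
  -- the two valuations are the same
  have hunitW : ∀ d : B, d ∉ P → W.valuation (algebraMap B M d) = 1 := by
    intro d hd
    rw [hmemP, not_lt] at hd
    exact le_antisymm ((W.valuation_le_one_iff _).2 (hBW d)) hd
  have c1 : ∀ x : M, p.valuation M x ≤ 1 → x ∈ W := by
    intro x hx
    obtain ⟨n, d, hd⟩ := p.exists_primeCompl_mul_eq_of_integer x hx
    have h1 := hunitW d d.2
    rw [← W.valuation_le_one_iff]
    have h2 : W.valuation x * W.valuation (algebraMap B M d) = W.valuation (algebraMap B M n) := by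
      rw [← map_mul, hd]
    rw [h1, mul_one] at h2
    rw [h2]
    exact (W.valuation_le_one_iff _).2 (hBW n)
  have c2 : ∀ x : M, p.valuation M x < 1 → W.valuation x < 1 := by
    intro x hx
    obtain ⟨n, d, hd⟩ := p.exists_primeCompl_mul_eq_of_integer x hx.le
    have h1 := hunitW d d.2
    have h2 : W.valuation x * W.valuation (algebraMap B M d) = W.valuation (algebraMap B M n) := by
      rw [← map_mul, hd]
    rw [h1, mul_one] at h2
    rw [h2, ← hmemP]
    have h3 : p.valuation M (algebraMap B M n) < 1 := by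
      rw [← hd, map_mul]
      exact lt_of_le_of_lt (mul_le_mul' le_rfl (p.valuation_le_one _)) (by rwa [mul_one])
    exact (p.valuation_lt_one_iff_mem n).1 h3
  have c3 : ∀ x : M, W.valuation x < 1 → p.valuation M x < 1 := by
    intro x hx
    by_contra hcon
    rw [not_lt] at hcon
    have hx0 : x ≠ 0 := by
      rintro rfl
      rw [map_zero] at hcon
      exact absurd hcon (not_le.2 zero_lt_one)
    have h1 : p.valuation M x⁻¹ ≤ 1 := by
      rw [map_inv₀]
      exact inv_le_one_of_one_le₀ hcon
    have h2 := (W.valuation_le_one_iff _).2 (c1 _ h1)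
    have h3 : W.valuation x * W.valuation x⁻¹ = 1 := by
      rw [← map_mul, mul_inv_cancel₀ hx0, map_one]
    have h4 : W.valuation x * W.valuation x⁻¹ < 1 :=
      lt_of_le_of_lt (mul_le_mul' le_rfl h2) (by rwa [mul_one])
    exact absurd h3 h4.ne
  -- the valuation of `M`
  have hv0 : ∀ {x : M}, x ≠ 0 → p.valuation M x ≠ 0 := fun {x} hx =>
    ((p.valuation M).ne_zero_iff).2 hx
  have hOle : ∀ a ∈ BC18_O v, p.valuation M (algebraMap K M a) ≤ 1 := fun a ha =>
    p.valuation_le_one (K := M) (algebraMap (BC18_O v) B ⟨a, ha⟩)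
  have hunit : ∀ a : K, a ≠ 0 → v.ord a = 0 → p.valuation M (algebraMap K M a) = 1 := by
    intro a ha0 ha
    have h1 : p.valuation M (algebraMap K M a) ≤ 1 := hOle a (by rw [BC18_mem, ha])
    have h2 : p.valuation M (algebraMap K M a⁻¹) ≤ 1 := hOle a⁻¹ (by
      rw [BC18_mem, v.ord_inv, ha]
      omega)
    have h3 : p.valuation M (algebraMap K M a) * p.valuation M (algebraMap K M a⁻¹) = 1 := by
      rw [← map_mul, ← map_mul, mul_inv_cancel₀ ha0, map_one, map_one]
    refine le_antisymm h1 ?_
    rw [← h3]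
    exact (mul_le_mul' le_rfl h2).trans (by rw [mul_one])
  obtain ⟨ϖ, hϖ⟩ := p.valuation_exists_uniformizer M
  let v' : KVal k M :=
    { ord := fun x => -log (p.valuation M x)
      ord_zero := by rw [map_zero, log_zero, neg_zero]
      ord_mul := by
        intro a b ha hb
        rw [map_mul, log_mul (hv0 ha) (hv0 hb)]
        ring
      ord_add := by
        intro a b ha hb hab
        have h1 := (p.valuation M).map_add a b
        rcases le_max_iff.1 h1 with h2 | h2
        · have h3 := (log_le_log (hv0 hab) (hv0 ha)).2 h2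
          exact (min_le_left _ _).trans (neg_le_neg h3)
        · have h3 := (log_le_log (hv0 hab) (hv0 hb)).2 h2
          exact (min_le_right _ _).trans (neg_le_neg h3)
      ord_const := by
        intro c
        by_cases hc : c = 0
        · rw [hc, map_zero, map_zero, log_zero, neg_zero]
        · rw [IsScalarTower.algebraMap_apply k K M, hunit _ (by
            rw [Ne, map_eq_zero]
            exact hc) (v.ord_const c), log_one, neg_zero]
      exists_ord_one := ⟨ϖ, by
        change -log (p.valuation M ϖ) = 1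
        rw [hϖ, log_exp]
        norm_num⟩ }
  have hv' : ∀ x, v'.ord x = -log (p.valuation M x) := fun x => rfl
  have hπp : p.valuation M (algebraMap K M π) < 1 := c3 _ hπlt
  have hlog : log (p.valuation M (algebraMap K M π)) < 0 := by
    have h1 : p.valuation M (algebraMap K M π) = exp (log (p.valuation M (algebraMap K M π))) :=
      (exp_log (hv0 hπM0)).symm
    rw [h1, ← exp_zero, exp_lt_exp] at hπp
    exact hπp
  obtain ⟨e, he⟩ : ∃ e : ℕ, (e : ℤ) = -log (p.valuation M (algebraMap K M π)) :=
    ⟨(-log (p.valuation M (algebraMap K M π))).toNat, by omega⟩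
  have hrel0 : ∀ z : K, z ≠ 0 → 0 ≤ v.ord z →
      v'.ord (algebraMap K M z) = e * v.ord z := by
    intro z hz0 hz
    obtain ⟨n, u, hu, hui, hzu⟩ := hπf z hz hz0
    have hu0 : u ≠ 0 := by
      rintro rfl
      rw [zero_mul] at hzu
      exact hz0 hzu
    have hu1 : v.ord u = 0 := by
      rw [BC18_mem] at hu hui
      rw [v.ord_inv] at hui
      omega
    have h1 : v.ord z = n := by
      rw [hzu, v.ord_mul _ _ hu0 (pow_ne_zero _ hπ0), hu1, BC18_pow v hπ0, hπ]
      ring
    rw [hv', h1, hzu, map_mul, map_mul, hunit u hu0 hu1, one_mul, map_pow, map_pow, log_pow, he,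
      nsmul_eq_mul]
    ring
  have hrel : ∀ z : K, v'.ord (algebraMap K M z) = e * v.ord z := by
    intro z
    by_cases hz0 : z = 0
    · rw [hz0, map_zero, v'.ord_zero, v.ord_zero, mul_zero]
    rcases le_or_gt 0 (v.ord z) with hz | hz
    · exact hrel0 z hz0 hz
    · have h1 := hrel0 z⁻¹ (inv_ne_zero hz0) (by
        rw [v.ord_inv]
        omega)
      rw [map_inv₀, v'.ord_inv, v.ord_inv] at h1
      linarith
  have he1 := h v' e hrel
  have hπe : p.valuation M (algebraMap K M π) = exp (-1 : ℤ) := by
    rw [← exp_log (hv0 hπM0)]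
    congr 1
    omega
  intro z hz
  have h1 := c3 z hz
  rcases eq_or_ne z 0 with rfl | hz0
  · rw [map_zero]
    exact zero_le'
  have h2 : p.valuation M z ≤ exp (-1 : ℤ) := by
    rw [← exp_log (hv0 hz0), exp_le_exp]
    rw [← exp_log (hv0 hz0), ← exp_zero, exp_lt_exp] at h1
    omega
  have h3 : p.valuation M (z / algebraMap K M π) ≤ 1 := by
    rw [map_div₀, hπe]
    exact div_le_one_of_le₀ h2 zero_le'
  have h4 := (W.valuation_le_one_iff _).2 (c1 _ h3)
  have h5 : W.valuation z = W.valuation (z / algebraMap K M π) * W.valuation (algebraMap K M π) := by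
    rw [← map_mul, div_mul_cancel₀ _ hπM0]
  rw [h5]
  exact (mul_le_mul' h4 le_rfl).trans (by rw [one_mul])

end helpers

variable {k : Type} [Field k] [CharZero k] {X : Scheme} [IsIntegral X]
  (f : X ⟶ Spec (CommRingCat.of k)) [Algebra k X.functionField]

/-- The field version. -/
theorem exists_ramified_field {K M : Type} [Field K] [Field M] [Algebra k K] [Algebra k M]
    [Algebra K M] [IsScalarTower k K M] [FiniteDimensional K M] (v : KVal k K)
    (h : ∀ (v' : KVal k M) (e : ℕ), (∀ z, v'.ord (algebraMap K M z) = e * v.ord z) → e ≤ 1)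
    (D : Derivation ℤ M M) (hD : ∀ a : K, 0 ≤ v.ord a → ∃ b : K, 0 ≤ v.ord b ∧
      D (algebraMap K M a) = algebraMap K M b) (z : M) (hz : IsIntegral v.ring z) :
    IsIntegral v.ring (D z) := by
  have hc : CharZero K := charZero_of_injective_algebraMap (algebraMap k K).injective
  obtain ⟨π, hπ⟩ := v.exists_ord_one
  have h1 : (algebraMap (BC18_O v) M).IsIntegralElem z :=
    BC18_lift (algebraMap v.ring M) _ (fun r => ⟨⟨(r : K), r.2⟩, rfl⟩) hz
  have h2 : IsIntegral (BC18_O v) (D z) := by
    refine isIntegral_derivation K M (BC18_O v) π (BC18_unif v hπ) ?_ D ?_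
      (Or.inr fun W hW => BC18_unram v h hπ W hW) z h1
    · intro n hn
      rw [BC18_mem, v.ord_inv, ← map_natCast (algebraMap k K), v.ord_const]
      norm_num
    · intro a ha
      obtain ⟨b, hb, hb'⟩ := hD a ha
      exact ⟨b, hb, hb'⟩
  exact BC18_lift (algebraMap (BC18_O v) M) (algebraMap v.ring M)
    (fun r => ⟨⟨(r : K), r.2⟩, rfl⟩) h2

theorem exists_ramified {M : Type} [Field M] [Algebra k M] [Algebra X.functionField M]
    [IsScalarTower k X.functionField M] [FiniteDimensional X.functionField M]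
    (x : X) (h : ¬ PresAt (algebraMap X.functionField M) x) (v : KVal k X.functionField)
    (hv : ∀ z, 0 ≤ v.ord z ↔ z ∈ stk X x) :
    ∃ (v' : KVal k M) (e : ℕ), 2 ≤ e ∧
      ∀ z, v'.ord (algebraMap X.functionField M z) = e * v.ord z := by
  by_contra hcon
  push Not at hcon
  apply h
  intro D hD b hb
  have h1 : ∀ (v' : KVal k M) (e : ℕ),
      (∀ z, v'.ord (algebraMap X.functionField M z) = e * v.ord z) → e ≤ 1 := by
    intro v' e hz
    by_contra he
    obtain ⟨z, hz'⟩ := hcon v' e (by omega)
    exact hz' (hz z)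
  have h2 : ∀ r : X.presheaf.stalk x, ∃ r' : v.ring,
      algebraMap v.ring M r' = stalkTo (algebraMap X.functionField M) x r := by
    intro r
    exact ⟨⟨algebraMap (X.presheaf.stalk x) X.functionField r, (hv _).2 ⟨r, rfl⟩⟩, rfl⟩
  have h3 : ∀ r : v.ring, ∃ r' : X.presheaf.stalk x,
      stalkTo (algebraMap X.functionField M) x r' = algebraMap v.ring M r := by
    intro r
    obtain ⟨r', hr'⟩ := (hv (r : X.functionField)).1 r.2
    refine ⟨r', ?_⟩
    change algebraMap X.functionField M (algebraMap (X.presheaf.stalk x) X.functionField r') =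
      algebraMap X.functionField M (r : X.functionField)
    rw [hr']
  have h4 : IsIntegral v.ring (D b) := by
    refine exists_ramified_field v h1 D ?_ b (BC18_lift _ _ h2 hb)
    intro a ha
    obtain ⟨y, hy⟩ := (hv a).1 ha
    obtain ⟨y', hy'⟩ := hD y
    refine ⟨algebraMap (X.presheaf.stalk x) X.functionField y', (hv _).2 ⟨y', rfl⟩, ?_⟩
    rw [← hy]
    exact hy'
  exact BC18_lift _ _ h3 h4

end Pool.Agent.LibK3
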