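import Pool.Agent.LibK3.BC11

/-!
ROW [K3 BC19].

The relation of the hyperplane classes in terms of coefficients.

Proof. `h : HypRel c g a` gives `φ ≠ 0` with equality of spans over every stalk. The left hand generators `{z | ∃ i j, z = ..}` form the range of a finite family indexed by `ι × ι`, the right hand ones the range of a family indexed by `Fin a → ι`; `Submodule.mem_span_range_iff_exists_fun` gives coefficients in the stalk, whose images in the
function field are in `stk X x`; the scalar action of the stalk on the function field is multiplication by the image (`Algebra.smul_def`).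
-/

set_option autoImplicit false

open Pool.Agent.LibGMM Pool.Agent.LibHP Pool.Agent.LibK Pool.Agent.LibLB
open AlgebraicGeometry CategoryTheory

namespace Pool.Agent.LibK3

private theorem bc19_aux {X : Scheme} [IsIntegral X] {κ : Type} [Fintype κ] (x : X)
    (v : κ → X.functionField) (z : X.functionField)
    (h : z ∈ Submodule.span (X.presheaf.stalk x) (Set.range v)) :
    ∃ o : κ → X.functionField, (∀ s, o s ∈ stk X x) ∧ z = ∑ s, o s * v s := by
  obtain ⟨o, ho⟩ := (Submodule.mem_span_range_iff_exists_fun _).1 h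
  refine ⟨fun s => algebraMap (X.presheaf.stalk x) X.functionField (o s), fun s => ⟨o s, rfl⟩, ?_⟩
  rw [← ho]
  exact Finset.sum_congr rfl fun s _ => Algebra.smul_def _ _

theorem hypRel_coeff {X : Scheme} [IsIntegral X] {ι : Type} [Fintype ι]
    {c : ι → X.functionField} (g : X ≅ X) (a : ℕ)
    (h : HypRel c g a) : ∃ φ : X.functionField, φ ≠ 0 ∧ ∀ x : X,
      (∀ i j, ∃ o : (Fin a → ι) → X.functionField, (∀ s, o s ∈ stk X x) ∧
        kap g.hom (c i) * kap g.inv (c j) = ∑ s, o s * (φ * ∏ t, c (s t))) ∧
      ∀ s : Fin a → ι, ∃ o : ι → ι → X.functionField, (∀ i j, o i j ∈ stk X x) ∧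
        φ * ∏ t, c (s t) = ∑ i, ∑ j, o i j * (kap g.hom (c i) * kap g.inv (c j)) := by
  classical
  obtain ⟨φ, hφ, h1⟩ := h
  refine ⟨φ, hφ, fun x => ?_⟩
  have hL : {z : X.functionField | ∃ i j, z = kap g.hom (c i) * kap g.inv (c j)} =
      Set.range fun p : ι × ι => kap g.hom (c p.1) * kap g.inv (c p.2) := by
    ext z
    constructor
    · rintro ⟨i, j, rfl⟩
      exact ⟨(i, j), rfl⟩
    · rintro ⟨p, rfl⟩
      exact ⟨p.1, p.2, rfl⟩
  have hR : {z : X.functionField | ∃ s : Fin a → ι, z = φ * ∏ t, c (s t)} =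
      Set.range fun s : Fin a → ι => φ * ∏ t, c (s t) := by
    ext z
    constructor
    · rintro ⟨s, rfl⟩
      exact ⟨s, rfl⟩
    · rintro ⟨s, rfl⟩
      exact ⟨s, rfl⟩
  have h2 := h1 x
  rw [hL, hR] at h2
  constructor
  · intro i j
    refine bc19_aux x (fun s : Fin a → ι => φ * ∏ t, c (s t)) _ ?_
    rw [← h2]
    exact Submodule.subset_span ⟨(i, j), rfl⟩
  · intro s
    obtain ⟨o, ho, hz⟩ := bc19_aux x (fun p : ι × ι => kap g.hom (c p.1) * kap g.inv (c p.2))
      (φ * ∏ t, c (s t)) (by
        rw [h2]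
        exact Submodule.subset_span ⟨s, rfl⟩)
    refine ⟨fun i j => o (i, j), fun i j => ho (i, j), ?_⟩
    rw [hz, Fintype.sum_prod_type]

end Pool.Agent.LibK3
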