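import Pool.Agent.LibK3.BC0

/-!
ROW [K3 BC2].

The charts over `ℂ` are `ℂ A`, `A` the charts over `k`; their field of fractions is `L`.

Proof. `chart g i = Algebra.adjoin ℂ (Set.range fun j => (g j : L) / g i)` and `cadj L S = Algebra.adjoin ℂ (algebraMap K L '' S)`. `≤`: `(g j : L) / g i = algebraMap K L (c j / c i)` (`map_div₀`), and
`c j / c i ∈ kchart k c i`. `≥`: `algebraMap K L a ∈ chart` for `a ∈ kchart k c i = Algebra.adjoin k ..` by `Algebra.adjoin_induction`; for the constants `algebraMap K L (algebraMap k K a) = algebraMap ℂ L (algebraMap k ℂ a)`: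
this is `hL.compat`. Fractions: by `hL.frac` every `x : L` is `u / v` with `u, v ∈ cadj L univ`, i.e. (by `Algebra.adjoin_induction`) it is enough that the set of the fractions `a / b`,
`a, b ∈ chart`, `b ≠ 0`, contains the constants and `algebraMap K L z` for `z : K` (`hc.frac i z` and `map_div₀`), and is closed under `+`, `*` and `/`.
-/

set_option autoImplicit false

open Pool.Agent.LibGMM Pool.Agent.LibHP Pool.Agent.LibK Pool.Agent.LibLB

namespace Pool.Agent.LibK3

variable {k : Type} [Field k] [CharZero k] [Algebra k ℂ]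
variable {K L : Type} [Field K] [Field L] [Algebra k K] [Algebra ℂ L] [Algebra K L]
variable {ι : Type}

theorem chart_eq (hL : IsCx k K L) {c : ι → K} (hc : KModel k c) (i : ι) :
    chart (cxg hc L) i = cadj L (kchart k c i : Set K) := by
  have hq : ∀ j, ((cxg hc L j : L) / (cxg hc L i : L)) = algebraMap K L (c j / c i) := by
    intro j
    rw [map_div₀]
    rfl
  apply le_antisymm
  · refine Algebra.adjoin_le ?_
    rintro _ ⟨j, rfl⟩
    simp only [hq]
    exact Algebra.subset_adjoin ⟨c j / c i, Algebra.subset_adjoin ⟨j, rfl⟩, rfl⟩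
  · refine Algebra.adjoin_le ?_
    rintro _ ⟨a, ha, rfl⟩
    have ha' : a ∈ Algebra.adjoin k (Set.range fun j => c j / c i) := ha
    show algebraMap K L a ∈ chart (cxg hc L) i
    induction ha' using Algebra.adjoin_induction with
    | mem x hx =>
      obtain ⟨j, rfl⟩ := hx
      refine Algebra.subset_adjoin ⟨j, ?_⟩
      exact hq j
    | algebraMap r =>
      rw [hL.compat]
      exact Subalgebra.algebraMap_mem _ _
    | add x y hx hy h1 h2 =>
      rw [map_add]
      exact Subalgebra.add_mem _ (h1 hx) (h2 hy)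
    | mul x y hx hy h1 h2 =>
      rw [map_mul]
      exact Subalgebra.mul_mem _ (h1 hx) (h2 hy)

theorem cxg_frac (hL : IsCx k K L) {c : ι → K} (hc : KModel k c) (i : ι) (x : L) :
    ∃ a ∈ chart (cxg hc L) i, ∃ b ∈ chart (cxg hc L) i, b ≠ 0 ∧ x = a / b := by
  set P : L → Prop := fun z =>
    ∃ a ∈ chart (cxg hc L) i, ∃ b ∈ chart (cxg hc L) i, b ≠ 0 ∧ z = a / b with hP
  have hK : ∀ z : K, P (algebraMap K L z) := by
    intro z
    obtain ⟨a, ha, b, hb, hb0, hz⟩ := hc.frac i z
    refine ⟨algebraMap K L a, ?_, algebraMap K L b, ?_, ?_, ?_⟩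
    · rw [chart_eq hL hc i]
      exact Algebra.subset_adjoin ⟨a, ha, rfl⟩
    · rw [chart_eq hL hc i]
      exact Algebra.subset_adjoin ⟨b, hb, rfl⟩
    · rw [Ne, map_eq_zero]
      exact hb0
    · rw [hz, map_div₀]
  have hadd : ∀ x y, P x → P y → P (x + y) := by
    rintro x y ⟨a, ha, b, hb, hb0, rfl⟩ ⟨a', ha', b', hb', hb0', rfl⟩
    exact ⟨a * b' + b * a', Subalgebra.add_mem _ (Subalgebra.mul_mem _ ha hb')
      (Subalgebra.mul_mem _ hb ha'), b * b', Subalgebra.mul_mem _ hb hb', mul_ne_zero hb0 hb0',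
      div_add_div _ _ hb0 hb0'⟩
  have hmul : ∀ x y, P x → P y → P (x * y) := by
    rintro x y ⟨a, ha, b, hb, hb0, rfl⟩ ⟨a', ha', b', hb', hb0', rfl⟩
    exact ⟨a * a', Subalgebra.mul_mem _ ha ha', b * b', Subalgebra.mul_mem _ hb hb',
      mul_ne_zero hb0 hb0', div_mul_div_comm _ _ _ _⟩
  have hinv : ∀ x, x ≠ 0 → P x → P x⁻¹ := by
    rintro x hx ⟨a, ha, b, hb, hb0, rfl⟩
    refine ⟨b, hb, a, ha, ?_, inv_div _ _⟩
    rintro rfl
    exact hx (zero_div _)
  have huniv : ∀ z ∈ cadj L (Set.univ : Set K), P z := by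
    intro z hz
    have hz' : z ∈ Algebra.adjoin ℂ (algebraMap K L '' Set.univ) := hz
    induction hz' using Algebra.adjoin_induction with
    | mem x hx =>
      obtain ⟨w, -, rfl⟩ := hx
      exact hK w
    | algebraMap r =>
      exact ⟨algebraMap ℂ L r, Subalgebra.algebraMap_mem _ _, 1, Subalgebra.one_mem _, one_ne_zero,
        (div_one _).symm⟩
    | add x y hx hy h1 h2 => exact hadd _ _ (h1 hx) (h2 hy)
    | mul x y hx hy h1 h2 => exact hmul _ _ (h1 hx) (h2 hy)
  obtain ⟨u, hu, v, hv, hv0, rfl⟩ := hL.frac x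
  rw [div_eq_mul_inv]
  exact hmul _ _ (huniv u hu) (hinv _ hv0 (huniv v hv))

end Pool.Agent.LibK3
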