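import Pool.Agent.LibK3.BC2
import Pool.Agent.LibK3.BC3

/-!
ROW [K3 BC4].

Normality of the charts over `ℂ`.

Proof. Let `z : L` be integral over `chart g i = ℂ A`, `A = kchart k c i` (BC2 `chart_eq`). The set `J = {b ∈ ℂ A | b z ∈ ℂ A}` is an ideal of `ℂ A`; if `J ≠ ⊤` it is contained in a maximal (prime) ideal `Q`. Let `P = Q ∩ A`
(`Ideal.comap` along the ring homomorphism `A → ℂ A`), a prime of `A`. `hc.etale i P` gives `h ∉ P` and `R = A[1/h]` étale over `k[x]`; BC3: `ℂ R` is étale over `ℂ[x]`, a domain, so integrally closed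
(`Pool.Agent.LibHP.isIntegrallyClosed_of_etale ℂ n (cadj L R)`; check the exact form of its hypotheses). `z` is integral over `ℂ A ⊆ ℂ R`, `L` is the field of fractions of `ℂ R` (BC2 `cxg_frac`: the fractions of `ℂ A` are
everything; `IsFractionRing` from this), so `z ∈ ℂ R` (`IsIntegrallyClosed.isIntegral_iff`). Every element of `R = Algebra.adjoin k (insert h⁻¹ A)` is `a / h ^ m` with `a ∈ A` (`Algebra.adjoin_induction`), so every element
of `ℂ R` is `b / (algebraMap K L h) ^ m` with `b ∈ ℂ A`: so `(algebraMap h) ^ m ∈ J ⊆ Q`, so `h ∈ P`: contradiction. So `1 ∈ J`.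
-/

set_option autoImplicit false

open Pool.Agent.LibGMM Pool.Agent.LibHP Pool.Agent.LibK Pool.Agent.LibLB

namespace Pool.Agent.LibK3

variable {k : Type} [Field k] [CharZero k] [Algebra k ℂ]
variable {K L : Type} [Field K] [Field L] [Algebra k K] [Algebra ℂ L] [Algebra K L]
variable {ι : Type}

private theorem bc4_pow {F X : Type} [Field F] [Field X] [Algebra F X] (B : Subalgebra F X) (t : X)
    (ht : t ∈ B) (S : Set X) (hS : ∀ s ∈ S, ∃ m : ℕ, t ^ m * s ∈ B) (z : X)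
    (hz : z ∈ Algebra.adjoin F S) : ∃ m : ℕ, t ^ m * z ∈ B := by
  induction hz using Algebra.adjoin_induction with
  | mem x hx => exact hS x hx
  | algebraMap r => exact ⟨0, by simp⟩
  | add x y _ _ hx hy =>
    obtain ⟨m, hm⟩ := hx
    obtain ⟨n, hn⟩ := hy
    refine ⟨m + n, ?_⟩
    have h1 : t ^ (m + n) * (x + y) = t ^ n * (t ^ m * x) + t ^ m * (t ^ n * y) := by ring
    rw [h1]
    exact B.add_mem (B.mul_mem (B.pow_mem ht n) hm) (B.mul_mem (B.pow_mem ht m) hn)
  | mul x y _ _ hx hy =>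
    obtain ⟨m, hm⟩ := hx
    obtain ⟨n, hn⟩ := hy
    refine ⟨m + n, ?_⟩
    have h1 : t ^ (m + n) * (x * y) = (t ^ m * x) * (t ^ n * y) := by ring
    rw [h1]
    exact B.mul_mem hm hn

/-- Elements of `A[1/h]` (over `ℂ`). -/
theorem exists_pow_mul_mem_cadj (hL : IsCx k K L) (A : Subalgebra k K) (h : A) (h0 : (h : K) ≠ 0) (z : L)
    (hz : z ∈ cadj L ((Algebra.adjoin k (insert ((h : K)⁻¹) (A : Set K)) : Subalgebra k K) :
      Set K)) : ∃ m : ℕ, algebraMap K L h ^ m * z ∈ cadj L (A : Set K) := by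
  have hA : ∀ a : K, a ∈ A → algebraMap K L a ∈ cadj L (A : Set K) := fun a ha =>
    Algebra.subset_adjoin ⟨a, ha, rfl⟩
  refine bc4_pow (cadj L (A : Set K)) (algebraMap K L h) (hA _ h.2) _ ?_ z hz
  rintro _ ⟨r, hr, rfl⟩
  obtain ⟨m, hm⟩ := bc4_pow A (h : K) h.2 _ (fun s hs => by
    rcases hs with rfl | hs
    · refine ⟨1, ?_⟩
      rw [pow_one, mul_inv_cancel₀ h0]
      exact A.one_mem
    · exact ⟨0, by simpa using hs⟩) r hr
  refine ⟨m, ?_⟩
  rw [← map_pow, ← map_mul]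
  exact hA _ hm

private theorem bc4_etale (C : Subalgebra ℂ L) {n : ℕ} (Ψ : MvPolynomial (Fin n) ℂ →ₐ[ℂ] C)
    (hΨ : Ψ.toRingHom.Etale) : IsIntegrallyClosed C := by
  let _ : Algebra (MvPolynomial (Fin n) ℂ) C := Ψ.toRingHom.toAlgebra
  have hEt : Algebra.Etale (MvPolynomial (Fin n) ℂ) C := hΨ
  exact isIntegrallyClosed_of_etale ℂ n C

private theorem bc4_core (B C : Subalgebra ℂ L) (hBC : B ≤ C)
    (hfr : ∀ z : L, ∃ a ∈ B, ∃ b ∈ B, b ≠ 0 ∧ z = a / b) (x : L) (hx : IsIntegral B x)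
    (hIC : IsIntegrallyClosed C) : x ∈ C := by
  have hfrac : IsFractionRing C L := by
    refine IsFractionRing.of_field C L fun z => ?_
    obtain ⟨a, ha, b, hb, -, hz⟩ := hfr z
    exact ⟨⟨a, hBC ha⟩, ⟨b, hBC hb⟩, hz⟩
  have hxC : IsIntegral C x := by
    obtain ⟨p, hp, hp0⟩ := hx
    refine ⟨p.map (Subalgebra.inclusion hBC).toRingHom, hp.map _, ?_⟩
    rw [Polynomial.eval₂_map]
    exact hp0
  obtain ⟨y, hy⟩ := IsIntegrallyClosed.isIntegral_iff.1 hxC
  rw [← hy]
  exact y.2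

private theorem bc4_ideal {F E : Type} [Field F] [Field E] [Algebra F E] [Algebra E L]
    (A : Subalgebra F E) (B : Subalgebra ℂ L) (hAB : ∀ a : E, a ∈ A → algebraMap E L a ∈ B) (x : L)
    (hx : ∀ P : Ideal A, P.IsPrime → ∃ h : A, h ∉ P ∧ ∃ m : ℕ, algebraMap E L h ^ m * x ∈ B) :
    x ∈ B := by
  let J : Ideal B :=
    { carrier := {b | (b : L) * x ∈ B}
      zero_mem' := by
        show ((0 : B) : L) * x ∈ B
        rw [ZeroMemClass.coe_zero, zero_mul]
        exact B.zero_mem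
      add_mem' := by
        intro a b ha hb
        show ((a + b : B) : L) * x ∈ B
        rw [AddMemClass.coe_add, add_mul]
        exact B.add_mem ha hb
      smul_mem' := by
        intro a b hb
        show ((a * b : B) : L) * x ∈ B
        rw [MulMemClass.coe_mul, mul_assoc]
        exact B.mul_mem a.2 hb }
  by_cases hJ : J = ⊤
  · have h1 : (1 : B) ∈ J := by rw [hJ]; exact Submodule.mem_top
    have h2 : ((1 : B) : L) * x ∈ B := h1
    rwa [OneMemClass.coe_one, one_mul] at h2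
  exfalso
  obtain ⟨Q, hQ, hJQ⟩ := Ideal.exists_le_maximal J hJ
  let φ : A →+* B :=
    { toFun := fun a => ⟨algebraMap E L a, hAB a a.2⟩
      map_one' := Subtype.ext (by simp)
      map_mul' := fun a b => Subtype.ext (by simp)
      map_zero' := Subtype.ext (by simp)
      map_add' := fun a b => Subtype.ext (by simp) }
  have hQp : Q.IsPrime := hQ.isPrime
  obtain ⟨h, hhP, m, hm⟩ := hx (Q.comap φ) (Ideal.comap_isPrime φ Q)
  have h3 : φ h ^ m ∈ J := by
    show ((φ h ^ m : B) : L) * x ∈ B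
    rw [SubmonoidClass.coe_pow]
    exact hm
  exact hhP (hQp.mem_of_pow_mem m (hJQ h3))

theorem cxg_normal (hL : IsCx k K L) {c : ι → K} (hc : KModel k c) (i : ι) (x : L)
    (hx : IsIntegral (chart (cxg hc L) i) x) : x ∈ chart (cxg hc L) i := by
  have hfr := cxg_frac hL hc i
  rw [chart_eq hL hc i] at hx hfr ⊢
  refine bc4_ideal (kchart k c i) (cadj L (kchart k c i : Set K))
    (fun a ha => Algebra.subset_adjoin ⟨a, ha, rfl⟩) x fun P hP => ?_
  obtain ⟨h, hhP, n, ψ, hψ⟩ := hc.etale i P hP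
  have h0 : (h : K) ≠ 0 := by
    intro h0
    apply hhP
    have : h = 0 := Subtype.ext h0
    rw [this]
    exact Ideal.zero_mem _
  obtain ⟨Ψ, hΨ, -⟩ := etale_cx hL (Algebra.adjoin k (insert ((h : K)⁻¹) (kchart k c i : Set K))) ψ hψ
  have hIC := bc4_etale _ Ψ hΨ
  have hxmem := bc4_core (cadj L (kchart k c i : Set K)) _ (Algebra.adjoin_mono (Set.image_mono
    fun a ha => Algebra.subset_adjoin (Set.mem_insert_of_mem _ ha))) hfr x hx hIC
  obtain ⟨m, hm⟩ := exists_pow_mul_mem_cadj hL (kchart k c i) h h0 x hxmem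
  exact ⟨h, hhP, m, hm⟩

end Pool.Agent.LibK3
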