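import Pool.Agent.LibK3.BC3

/-!
ROW [K3 BC5].

The number of variables of an étale chart is two.

Proof. `R` is étale over `k[x_1..x_n]` (`ψ`), a domain with field of fractions `K` (`hR`). So `ψ` is injective (étale maps are flat: `Algebra.Etale` → `Module.Flat`, and a flat algebra `≠ 0` over a domain which is a domain has an injective
structure map; see `LibHP/E3.lean`) and `K` is algebraic over `k(ψ x_1, …, ψ x_n)` (étale = quasi-finite / unramified: the generic fibre `Frac (k[x]) ⊗ R` is a finite product of finite separable field extensions; or: every derivation of `K` over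
`k(x)` is zero: `Ω[R/k[x]] = 0` by `Algebra.FormallyUnramified`, so `Ω[K/k(x)] = 0`, and a finitely generated field extension in characteristic zero with `Ω = 0` is algebraic). So `x_1..x_n` is a transcendence basis and
`n = trdeg = 2`. (`LibHP/E3.lean` and `LibHP/F2.lean` contain such arguments: look there first; `Algebra.trdeg`: `IsTranscendenceBasis.cardinalMk_eq_trdeg` or similar.)
-/

set_option autoImplicit false

open Pool.Agent.LibGMM Pool.Agent.LibHP Pool.Agent.LibK Pool.Agent.LibLB

namespace Pool.Agent.LibK3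

variable {k : Type} [Field k] [CharZero k] [Algebra k ℂ]
variable {K L : Type} [Field K] [Field L] [Algebra k K] [Algebra ℂ L] [Algebra K L]
variable {ι : Type}

theorem etale_card {K : Type} [Field K] [Algebra k K] (R : Subalgebra k K)
    (hR : ∀ z : K, ∃ a ∈ R, ∃ b ∈ R, b ≠ 0 ∧ z = a / b) {n : ℕ}
    (ψ : MvPolynomial (Fin n) k →ₐ[k] R) (hψ : ψ.toRingHom.Etale) :
    Algebra.trdeg k K = n := by
  let _ : Algebra (MvPolynomial (Fin n) k) R := ψ.toRingHom.toAlgebra
  have : IsScalarTower k (MvPolynomial (Fin n) k) R :=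
    IsScalarTower.of_algebraMap_eq fun x => (ψ.commutes x).symm
  have : Algebra.Etale (MvPolynomial (Fin n) k) R := hψ
  have : Module.Flat (MvPolynomial (Fin n) k) R := inferInstance
  have : Module.IsTorsionFree (MvPolynomial (Fin n) k) R := inferInstance
  have : FaithfulSMul (MvPolynomial (Fin n) k) R := inferInstance
  have : Algebra.IsAlgebraic (MvPolynomial (Fin n) k) R :=
    isAlgebraic_of_etale (MvPolynomial (Fin n) k) R
  have : Algebra.IsAlgebraic R K := by
    refine ⟨fun z => ?_⟩
    obtain ⟨a, ha, b, hb, hb0, rfl⟩ := hR z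
    refine ⟨Polynomial.C ⟨b, hb⟩ * Polynomial.X - Polynomial.C ⟨a, ha⟩, ?_, ?_⟩
    · intro h0
      have h1 := congrArg (fun p => Polynomial.coeff p 1) h0
      simp only [Polynomial.coeff_sub, Polynomial.coeff_C_mul, Polynomial.coeff_X_one, mul_one,
        Polynomial.coeff_C_succ, sub_zero, Polynomial.coeff_zero] at h1
      exact hb0 (congrArg Subtype.val h1)
    · rw [map_sub, map_mul, Polynomial.aeval_C, Polynomial.aeval_C, Polynomial.aeval_X]
      show b * (a / b) - a = 0
      rw [mul_div_cancel₀ _ hb0, sub_self]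
  have h1 : Algebra.trdeg k (MvPolynomial (Fin n) k) +
      Algebra.trdeg (MvPolynomial (Fin n) k) R = Algebra.trdeg k R :=
    trdeg_add_eq k (MvPolynomial (Fin n) k)
  have h2 : Algebra.trdeg k R + Algebra.trdeg R K = Algebra.trdeg k K :=
    trdeg_add_eq k R
  have h3 : Algebra.trdeg (MvPolynomial (Fin n) k) R = 0 := trdeg_eq_zero
  have h4 : Algebra.trdeg R K = 0 := trdeg_eq_zero
  rw [← h2, ← h1, h3, h4, add_zero, add_zero,
    MvPolynomial.trdeg_of_isDomain, Cardinal.mk_fin, Cardinal.lift_natCast]

end Pool.Agent.LibK3
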