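import Pool.Agent.LibK3.BCM
import Pool.Agent.LibK3.BC5
import Pool.Agent.LibK3.BA

/-!
ROW [K3 BC6].

The surface over `ℂ` is smooth.

Proof. `dim`: `IsCx.trdeg` (BA12) and `hc.dim`. `smooth`: let `p : Y.Pt`, `Y = cxModel hc hL`, `i = p.i`, `p.P` a maximal ideal of `chart g i = ℂ A` (BC2), `A = kchart k c i`, `P = p.P ∩ A` a prime, `h ∉ P`, `R = A[1/h]`
and `ψ` from `hc.etale i P`, `n = 2` by BC5 (`hc.dim`) . `Ψ : ℂ[x_1, x_2] → ℂ R` étale (BC3). Let `Q` be the set of the elements of `ℂ R` which are `a / h ^ m` with `a ∈ p.P` (BC4 `exists_pow_mul_mem_cadj`): a maximal ideal of `ℂ R`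
(`ℂ R = (ℂ A)[1/h]`, `h ∉ p.P`; or: the evaluation `ℂ A → ℂ` at `p.P` (Nullstellensatz, `ℂ A` is finitely generated; see `A3_exists_char` in LibKY/A3 or `IsAlgClosed.algebraMap_bijective_of_isIntegral`) extends to `χ : ℂ R →ₐ[ℂ] ℂ`, and
`Q = ker χ`). Put `a_j = χ (Ψ x_j)`. CLAIM: for every `q ∈ Q` there are `s ∈ ℂ R`, `χ s ≠ 0`, and `u, v ∈ ℂ R` with `s q = u (Ψ x_1 - a_1) + v (Ψ x_2 - a_2)`. Proof of the claim: `ℂ R` is unramified over `ℂ[x]`; so
`ℂ R / (Ψ x_j - a_j)_j = ℂ R ⊗_{ℂ[x]} ℂ` is unramified over `ℂ`, of finite type, so reduced and a finite product of copies of `ℂ` (`Algebra.FormallyUnramified`, Mathlib `RingTheory/Unramified/Field.lean`, `LocalRing`: there is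
`Algebra.FormallyUnramified.map_maximalIdeal` / `Localization.AtPrime` versions: the maximal ideal of the local ring upstairs is generated by the one downstairs). Alternatively by hand: `D(q) := ` class of `q` in `Q/Q²`; a `ℂ`-derivation
`ℂ R → ℂ R / Q = ℂ` vanishing on the `Ψ x_j` is zero, so `Q = Q² + (Ψ x_j - a_j)`, and Nakayama in the Noetherian local ring.
So the two elements `a = Ψ x_1 - a_1`, `b = Ψ x_2 - a_2` (they lie in `maxLoc Y p`, since `ℂ R ⊆ Y.loc p`) generate `maxLoc Y p`: `x = a' / b'` with `a' ∈ p.P`, `b' ∉ p.P`, and `s a' = u a + v b`.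
-/

set_option autoImplicit false

open Pool.Agent.LibGMM Pool.Agent.LibHP Pool.Agent.LibK Pool.Agent.LibLB

namespace Pool.Agent.LibK3

variable {k : Type} [Field k] [CharZero k] [Algebra k ℂ]
variable {K L : Type} [Field K] [Field L] [Algebra k K] [Algebra ℂ L] [Algebra K L]
variable {ι : Type}

/-- The maximal ideal of a point of an étale algebra is generated, near the point, by the
coordinates. -/
private theorem BC6_core {T : Type} [CommRing T] [Algebra ℂ T] {n : ℕ}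
    (Ψ : MvPolynomial (Fin n) ℂ →ₐ[ℂ] T) (hΨ : Ψ.toRingHom.Etale) (χ : T →ₐ[ℂ] ℂ) (q : T)
    (hq : χ q = 0) : ∃ s : T, χ s ≠ 0 ∧ s * q ∈ Ideal.span
      (Set.range fun j => Ψ (MvPolynomial.X j) - algebraMap ℂ T (χ (Ψ (MvPolynomial.X j)))) := by
  classical
  let _ : Algebra (MvPolynomial (Fin n) ℂ) T := Ψ.toRingHom.toAlgebra
  have : Algebra.Etale (MvPolynomial (Fin n) ℂ) T := hΨ
  have : IsNoetherianRing T := Algebra.FiniteType.isNoetherianRing (MvPolynomial (Fin n) ℂ) T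
  set I : Ideal T := Ideal.span
      (Set.range fun j => Ψ (MvPolynomial.X j) - algebraMap ℂ T (χ (Ψ (MvPolynomial.X j)))) with hI
  set Q : Ideal T := RingHom.ker (χ : T →+* ℂ) with hQ
  have hmemQ : ∀ t : T, t ∈ Q ↔ χ t = 0 := fun t => RingHom.mem_ker
  have hcc : ∀ c : ℂ, χ (algebraMap ℂ T c) = c := fun c => χ.commutes c
  have hIQ : I ≤ Q := by
    rw [hI, Ideal.span_le]
    rintro _ ⟨j, rfl⟩
    show _ ∈ Q
    rw [hmemQ, map_sub, hcc, sub_self]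
  have h1 : ∀ a : MvPolynomial (Fin n) ℂ, Ψ a - algebraMap ℂ T (χ (Ψ a)) ∈ I := by
    intro a
    induction a using MvPolynomial.induction_on with
    | C c =>
      have h2 : Ψ (MvPolynomial.C c) = algebraMap ℂ T c := Ψ.commutes c
      rw [h2, hcc, sub_self]
      exact I.zero_mem
    | add a b ha hb =>
      have h2 := I.add_mem ha hb
      rw [map_add, map_add, map_add]
      convert h2 using 1
      ring
    | mul_X a j ha =>
      have h2 : Ψ (MvPolynomial.X j) - algebraMap ℂ T (χ (Ψ (MvPolynomial.X j))) ∈ I :=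
        Ideal.subset_span ⟨j, rfl⟩
      have h3 := I.add_mem (I.mul_mem_left (Ψ a) h2)
        (I.mul_mem_left (algebraMap ℂ T (χ (Ψ (MvPolynomial.X j)))) ha)
      rw [map_mul, map_mul, map_mul]
      convert h3 using 1
      ring
  set J : Ideal T := I ⊔ Q ^ 2 with hJ
  let g : T →ₐ[MvPolynomial (Fin n) ℂ] T ⧸ J :=
    { toRingHom := ((Ideal.Quotient.mk J).comp (algebraMap ℂ T)).comp (χ : T →+* ℂ)
      commutes' := fun a => by
        show Ideal.Quotient.mk J (algebraMap ℂ T (χ (Ψ a))) = Ideal.Quotient.mk J (Ψ a)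
        rw [eq_comm, Ideal.Quotient.eq]
        exact (le_sup_left : I ≤ J) (h1 a) }
  have hnil : IsNilpotent (Q.map (Ideal.Quotient.mk J)) := by
    refine ⟨2, ?_⟩
    rw [← Ideal.map_pow, Ideal.zero_eq_bot, eq_bot_iff, Ideal.map_le_iff_le_comap]
    intro t ht
    rw [Ideal.mem_comap, Ideal.mem_bot, Ideal.Quotient.eq_zero_iff_mem]
    exact (le_sup_right : Q ^ 2 ≤ J) ht
  have hfg : Ideal.Quotient.mkₐ (MvPolynomial (Fin n) ℂ) J = g := by
    refine Algebra.FormallyUnramified.ext (Q.map (Ideal.Quotient.mk J)) hnil fun t => ?_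
    rw [Ideal.Quotient.eq]
    have h2 : t - algebraMap ℂ T (χ t) ∈ Q := by
      rw [hmemQ, map_sub, hcc, sub_self]
    have h3 := Ideal.mem_map_of_mem (Ideal.Quotient.mk J) h2
    rw [map_sub] at h3
    exact h3
  have hQJ : Q ≤ I ⊔ Q • Q := by
    intro t ht
    have h2 : Ideal.Quotient.mk J t = Ideal.Quotient.mk J (algebraMap ℂ T (χ t)) :=
      congrArg (fun f => f t) hfg
    rw [(hmemQ t).1 ht, map_zero, map_zero, Ideal.Quotient.eq_zero_iff_mem, hJ, pow_two] at h2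
    exact h2
  obtain ⟨r, hr1, hr2⟩ := Submodule.exists_sub_one_mem_and_smul_le_of_fg_of_le_sup
    (IsNoetherian.noetherian Q) le_rfl hQJ
  refine ⟨r, ?_, ?_⟩
  · rw [hmemQ, map_sub, map_one, sub_eq_zero] at hr1
    rw [hr1]
    exact one_ne_zero
  · exact hr2 (Submodule.smul_mem_pointwise_smul q r Q ((hmemQ q).2 hq))

/-- The residue character of a maximal ideal. -/
private theorem BC6_char {C : Type} [CommRing C] [Algebra ℂ C] [Algebra.FiniteType ℂ C]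
    (P : Ideal C) (hP : P.IsMaximal) : ∃ χ : C →ₐ[ℂ] ℂ, ∀ c, χ c = 0 ↔ c ∈ P := by
  have : IsJacobsonRing C := isJacobsonRing_of_finiteType (A := ℂ)
  let _ : Field (C ⧸ P) := Ideal.Quotient.field P
  have : Module.Finite ℂ (C ⧸ P) := finite_of_finite_type_of_isJacobsonRing ℂ (C ⧸ P)
  have hb : Function.Bijective (algebraMap ℂ (C ⧸ P)) :=
    IsAlgClosed.algebraMap_bijective_of_isIntegral
  let e : ℂ ≃ₐ[ℂ] (C ⧸ P) := AlgEquiv.ofBijective (Algebra.ofId ℂ (C ⧸ P)) hb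
  refine ⟨e.symm.toAlgHom.comp (Ideal.Quotient.mkₐ ℂ P), fun c => ?_⟩
  show e.symm (Ideal.Quotient.mk P c) = 0 ↔ _
  rw [EmbeddingLike.map_eq_zero_iff, Ideal.Quotient.eq_zero_iff_mem]

/-- Characters extend to a localisation. -/
private theorem BC6_ext {L : Type} [Field L] [Algebra ℂ L] (C S : Subalgebra ℂ L) (hCS : C ≤ S)
    (h : C) (h0 : (h : L) ≠ 0) (hinv : (h : L)⁻¹ ∈ S) (hS : ∀ z ∈ S, ∃ m : ℕ, (h : L) ^ m * z ∈ C)
    (χ₀ : C →ₐ[ℂ] ℂ) (hh : χ₀ h ≠ 0) :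
    ∃ χ : S →ₐ[ℂ] ℂ, ∀ c : C, χ ⟨c, hCS c.2⟩ = χ₀ c := by
  let _ : Algebra C S := (Subalgebra.inclusion hCS).toRingHom.toAlgebra
  have halg : ∀ c : C, ((algebraMap C S c : S) : L) = c := fun c => rfl
  have hinj : Function.Injective (algebraMap C S) := fun a b hab =>
    Subtype.ext (by rw [← halg, ← halg, hab])
  have hloc : IsLocalization.Away h S :=
    { map_units := by
        rintro ⟨_, m, rfl⟩
        refine IsUnit.of_mul_eq_one (⟨(h : L)⁻¹ ^ m, pow_mem hinv m⟩ : S) ?_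
        apply Subtype.ext
        show ((h : L) ^ m) * (h : L)⁻¹ ^ m = 1
        rw [← mul_pow, mul_inv_cancel₀ h0, one_pow]
      surj := by
        intro z
        obtain ⟨m, hm⟩ := hS z z.2
        refine ⟨(⟨_, hm⟩, ⟨h ^ m, m, rfl⟩), ?_⟩
        apply Subtype.ext
        show (z : L) * (h : L) ^ m = (h : L) ^ m * z
        rw [mul_comm]
      exists_of_eq := by
        intro a b hab
        exact ⟨1, by rw [hinj hab]⟩ }
  have hu : IsUnit ((χ₀ : C →+* ℂ) h) := IsUnit.mk0 _ hh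
  let φ : S →+* ℂ := IsLocalization.Away.lift h hu
  have hφ : ∀ c : C, φ (algebraMap C S c) = χ₀ c := fun c => IsLocalization.Away.lift_eq h hu c
  refine ⟨{ toRingHom := φ, commutes' := fun r => ?_ }, hφ⟩
  have h1 := hφ (algebraMap ℂ C r)
  rw [AlgHom.commutes] at h1
  exact h1

private theorem BC6_point {L : Type} [Field L] [Algebra ℂ L] (C S : Subalgebra ℂ L)
    (hCfg : Algebra.FiniteType ℂ C) (P : Ideal C) (hP : P.IsMaximal) (hCS : C ≤ S)
    (h : C) (hhP : h ∉ P) (hinv : (h : L)⁻¹ ∈ S)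
    (hS : ∀ z ∈ S, ∃ m : ℕ, (h : L) ^ m * z ∈ C)
    (Ψ : MvPolynomial (Fin 2) ℂ →ₐ[ℂ] S) (hΨ : Ψ.toRingHom.Etale) :
    ∃ a ∈ {x : L | ∃ a b : C, a ∈ P ∧ b ∉ P ∧ x = (a : L) / b},
    ∃ b ∈ {x : L | ∃ a b : C, a ∈ P ∧ b ∉ P ∧ x = (a : L) / b},
    ∀ x ∈ {x : L | ∃ a b : C, a ∈ P ∧ b ∉ P ∧ x = (a : L) / b},
      ∃ u ∈ {x : L | ∃ a b : C, b ∉ P ∧ x = (a : L) / b},
      ∃ v ∈ {x : L | ∃ a b : C, b ∉ P ∧ x = (a : L) / b}, x = u * a + v * b := by
  obtain ⟨χ₀, hχ₀⟩ := BC6_char P hP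
  have hne : ∀ c : C, c ∉ P → (c : L) ≠ 0 := by
    intro c hc h0
    have h1 : c = 0 := Subtype.ext h0
    exact hc (h1 ▸ P.zero_mem)
  have h0 : (h : L) ≠ 0 := hne h hhP
  have hh : χ₀ h ≠ 0 := fun h1 => hhP ((hχ₀ h).1 h1)
  obtain ⟨χ, hχ⟩ := BC6_ext C S hCS h h0 hinv hS χ₀ hh
  have hprime : P.IsPrime := hP.isPrime
  have hpow : ∀ m : ℕ, h ^ m ∉ P := fun m hm => hhP (hprime.mem_of_pow_mem m hm)
  -- elements of `S` are in the local ring
  have hcl : ∀ (z : S) (m : ℕ) (hm : (h : L) ^ m * (z : L) ∈ C),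
      χ₀ ⟨_, hm⟩ = χ₀ h ^ m * χ z := by
    intro z m hm
    rw [← hχ, ← hχ, ← map_pow, ← map_mul]
    rfl
  have hO : ∀ z : S, (z : L) ∈ {x : L | ∃ a b : C, b ∉ P ∧ x = (a : L) / b} := by
    intro z
    obtain ⟨m, hm⟩ := hS z z.2
    refine ⟨⟨_, hm⟩, h ^ m, hpow m, ?_⟩
    rw [eq_div_iff (hne _ (hpow m))]
    show (z : L) * (h : L) ^ m = (h : L) ^ m * z
    rw [mul_comm]
  have hM : ∀ z : S, χ z = 0 → (z : L) ∈ {x : L | ∃ a b : C, a ∈ P ∧ b ∉ P ∧ x = (a : L) / b} := by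
    intro z hz
    obtain ⟨m, hm⟩ := hS z z.2
    refine ⟨⟨_, hm⟩, h ^ m, ?_, hpow m, ?_⟩
    · rw [← hχ₀, hcl, hz, mul_zero]
    · rw [eq_div_iff (hne _ (hpow m))]
      show (z : L) * (h : L) ^ m = (h : L) ^ m * z
      rw [mul_comm]
  have hdiv : ∀ x ∈ {x : L | ∃ a b : C, b ∉ P ∧ x = (a : L) / b}, ∀ c : C, c ∉ P →
      x / c ∈ {x : L | ∃ a b : C, b ∉ P ∧ x = (a : L) / b} := by
    rintro _ ⟨a, b, hb, rfl⟩ c hc
    refine ⟨a, b * c, fun hbc => (hprime.mem_or_mem hbc).elim hb hc, ?_⟩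
    rw [div_div]
    rfl
  have hcc : ∀ c : ℂ, χ (algebraMap ℂ S c) = c := fun c => χ.commutes c
  let b : Fin 2 → S := fun j => Ψ (MvPolynomial.X j) -
    algebraMap ℂ S (χ (Ψ (MvPolynomial.X j)))
  have hb : ∀ j, χ (b j) = 0 := by
    intro j
    show χ (_ - _) = 0
    rw [map_sub, hcc, sub_self]
  refine ⟨b 0, hM _ (hb 0), b 1, hM _ (hb 1), ?_⟩
  rintro _ ⟨a', b', ha', hb', rfl⟩
  have ha0 : χ ⟨(a' : L), hCS a'.2⟩ = 0 := by
    rw [hχ, hχ₀]
    exact ha'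
  obtain ⟨s, hs, hsa⟩ := BC6_core Ψ hΨ χ ⟨(a' : L), hCS a'.2⟩ ha0
  rw [Ideal.mem_span_range_iff_exists_fun] at hsa
  obtain ⟨c, hc⟩ := hsa
  rw [Fin.sum_univ_two] at hc
  obtain ⟨m, hm⟩ := hS s s.2
  have hs' : (⟨_, hm⟩ : C) ∉ P := by
    rw [← hχ₀, hcl]
    exact mul_ne_zero (pow_ne_zero _ hh) hs
  have hsb : (⟨_, hm⟩ : C) * b' ∉ P := fun h1 => (hprime.mem_or_mem h1).elim hs' hb'
  have hhS : (h : L) ∈ S := hCS h.2
  refine ⟨(((⟨(h : L), hhS⟩ : S) ^ m * c 0 : S) : L) / ((⟨_, hm⟩ * b' : C) : L),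
    hdiv _ (hO _) _ hsb, (((⟨(h : L), hhS⟩ : S) ^ m * c 1 : S) : L) / ((⟨_, hm⟩ * b' : C) : L),
    hdiv _ (hO _) _ hsb, ?_⟩
  have hc' : (c 0 : L) * (b 0 : L) + (c 1 : L) * (b 1 : L) = (s : L) * (a' : L) :=
    congrArg (fun z : S => (z : L)) hc
  have hs0 : (s : L) ≠ 0 := by
    intro h1
    apply hs
    have h2 : s = 0 := Subtype.ext h1
    rw [h2, map_zero]
  have hb0 : (b' : L) ≠ 0 := hne b' hb'
  show (a' : L) / b' = ((h : L) ^ m * (c 0 : L)) / (((h : L) ^ m * s) * b') * (b 0 : L) +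
    ((h : L) ^ m * (c 1 : L)) / (((h : L) ^ m * s) * b') * (b 1 : L)
  have hhm : (h : L) ^ m ≠ 0 := pow_ne_zero _ h0
  rw [div_mul_eq_mul_div, div_mul_eq_mul_div, ← add_div, mul_assoc, mul_assoc, ← mul_add, hc']
  field_simp

private theorem BC6_local {c : ι → K} (hc : KModel k c) (hL : IsCx k K L) (i : ι)
    (P : Ideal (chart (cxg hc L) i)) (hP : P.IsMaximal) :
    ∃ a ∈ {x : L | ∃ a b : chart (cxg hc L) i, a ∈ P ∧ b ∉ P ∧ x = (a : L) / b},
    ∃ b ∈ {x : L | ∃ a b : chart (cxg hc L) i, a ∈ P ∧ b ∉ P ∧ x = (a : L) / b},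
    ∀ x ∈ {x : L | ∃ a b : chart (cxg hc L) i, a ∈ P ∧ b ∉ P ∧ x = (a : L) / b},
      ∃ u ∈ {x : L | ∃ a b : chart (cxg hc L) i, b ∉ P ∧ x = (a : L) / b},
      ∃ v ∈ {x : L | ∃ a b : chart (cxg hc L) i, b ∉ P ∧ x = (a : L) / b},
        x = u * a + v * b := by
  classical
  have hPp : P.IsPrime := hP.isPrime
  have hCe : chart (cxg hc L) i = cadj L (kchart k c i : Set K) := chart_eq hL hc i
  have hmem : ∀ a : kchart k c i, algebraMap K L a ∈ chart (cxg hc L) i := by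
    intro a
    rw [hCe]
    exact Algebra.subset_adjoin ⟨a, a.2, rfl⟩
  let j : kchart k c i →+* chart (cxg hc L) i :=
    ((algebraMap K L).comp (kchart k c i).val.toRingHom).codRestrict
      (chart (cxg hc L) i).toSubring hmem
  have hj : ∀ a, ((j a : chart (cxg hc L) i) : L) = algebraMap K L a := fun a => rfl
  obtain ⟨h, hhP, n, ψ, hψ⟩ := hc.etale i (P.comap j) (Ideal.IsPrime.comap j)
  have h0 : (h : K) ≠ 0 := by
    intro h1
    apply hhP
    have h2 : h = 0 := Subtype.ext h1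
    rw [h2]
    exact Ideal.zero_mem _
  have hAR : kchart k c i ≤ Algebra.adjoin k (insert ((h : K)⁻¹) (kchart k c i : Set K)) :=
    fun a ha => Algebra.subset_adjoin (Or.inr ha)
  have hn : Algebra.trdeg k K = n := etale_card _ (fun z => by
    obtain ⟨a, ha, b, hb, hb0, hz⟩ := hc.frac i z
    exact ⟨a, hAR ha, b, hAR hb, hb0, hz⟩) ψ hψ
  have hn2 : n = 2 := by
    rw [hc.dim] at hn
    exact_mod_cast hn.symm
  subst hn2
  obtain ⟨Ψ, hΨ, -⟩ := etale_cx hL _ ψ hψ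
  have hfin := hc.fin
  have hCfg : Algebra.FiniteType ℂ (chart (cxg hc L) i) := by
    rw [← Subalgebra.fg_iff_finiteType]
    exact Subalgebra.fg_def.2 ⟨_, Set.finite_range _, rfl⟩
  refine BC6_point (chart (cxg hc L) i) _ hCfg P hP ?_ (j h) hhP ?_ ?_ Ψ hΨ
  · rw [hCe]
    exact Algebra.adjoin_mono (Set.image_mono hAR)
  · rw [hj, ← map_inv₀]
    exact Algebra.subset_adjoin ⟨_, Algebra.subset_adjoin (Or.inl rfl), rfl⟩
  · intro z hz
    obtain ⟨m, hm⟩ := exists_pow_mul_mem_cadj hL (kchart k c i) h h0 z hz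
    refine ⟨m, ?_⟩
    show algebraMap K L (h : K) ^ m * z ∈ chart (cxg hc L) i
    rw [hCe]
    exact hm

theorem cxModel_smooth {c : ι → K} (hc : KModel k c) (hL : IsCx k K L) :
    Pool.Agent.LibL.IsSmoothSurface (cxModel hc hL) :=
  ⟨by rw [hL.trdeg, hc.dim], fun p hp => BC6_local hc hL p.i p.P hp⟩

end Pool.Agent.LibK3
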