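import Pool.Agent.LibK3.BCM

/-!
ROW [K3 BC7].

A prime divisor of the surface over `k` gives a prime divisor of the surface over `ℂ`.

Proof. Unfold `primes`, `NormalModel.IsPrimeDiv`. Take the point `p = ⟨i, {a | a = 0 ∨ 0 < μ.ord a}⟩` of `chart g i = ℂ A`, `A = kchart k c i` (BC2 `chart_eq`): a prime ideal, since `0 ≤ μ.ord` on `ℂ A` (`μ.ring` is a subalgebra containing `A`: `hμ.ord`
and `hv.2.1`) and `μ.ord` is a valuation. `IsCentre` is clear, and `hμ.loc (kchart k c i) hv` gives the last condition.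
-/

set_option autoImplicit false

open Pool.Agent.LibGMM Pool.Agent.LibHP Pool.Agent.LibK Pool.Agent.LibLB

namespace Pool.Agent.LibK3

variable {k : Type} [Field k] [CharZero k] [Algebra k ℂ]
variable {K L : Type} [Field K] [Field L] [Algebra k K] [Algebra ℂ L] [Algebra K L]
variable {ι : Type}

private theorem BC7_add (μ : DVal L) {a b : L} (ha : a = 0 ∨ 0 < μ.ord a)
    (hb : b = 0 ∨ 0 < μ.ord b) : a + b = 0 ∨ 0 < μ.ord (a + b) := by
  rcases ha with rfl | ha
  · rw [zero_add]; exact hb
  rcases hb with rfl | hb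
  · rw [add_zero]; exact Or.inr ha
  have h0 : a ≠ 0 := by
    rintro rfl
    rw [μ.ord_zero] at ha
    exact lt_irrefl _ ha
  have h1 : b ≠ 0 := by
    rintro rfl
    rw [μ.ord_zero] at hb
    exact lt_irrefl _ hb
  by_cases h2 : a + b = 0
  · exact Or.inl h2
  · exact Or.inr (lt_of_lt_of_le (lt_min ha hb) (μ.ord_add a b h0 h1 h2))

private theorem BC7_one (μ : DVal L) : μ.ord 1 = 0 := by
  have := μ.ord_const 1
  rwa [map_one] at this

theorem mem_primes_of_cxOver {c : ι → K} (hc : KModel k c) (hL : IsCx k K L) {v : KVal k K}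
    {i : ι} (hv : v.On (kchart k c i)) {μ : DVal L} (hμ : CxOver v μ) :
    μ ∈ primes (cxModel hc hL) := by
  have hC : ∀ a ∈ chart (cxg hc L) i, 0 ≤ μ.ord a := by
    have hle : chart (cxg hc L) i ≤ μ.ring := by
      rw [chart_eq hL hc i]
      refine Algebra.adjoin_le ?_
      rintro _ ⟨a, ha, rfl⟩
      show 0 ≤ μ.ord (algebraMap K L a)
      rw [hμ.ord]
      exact hv.2.1 a ha
    exact fun a ha => hle ha
  let P : Ideal (chart (cxg hc L) i) :=
    { carrier := {a | (a : L) = 0 ∨ 0 < μ.ord a}
      zero_mem' := Or.inl rfl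
      add_mem' := fun {a b} ha hb => BC7_add μ ha hb
      smul_mem' := fun a b hb => by
        show ((a * b : chart (cxg hc L) i) : L) = 0 ∨ 0 < μ.ord ((a * b : chart (cxg hc L) i) : L)
        rw [MulMemClass.coe_mul]
        rcases hb with hb | hb
        · left; rw [hb, mul_zero]
        · by_cases ha : (a : L) = 0
          · left; rw [ha, zero_mul]
          · right
            have hb0 : (b : L) ≠ 0 := by
              intro h0
              rw [h0, μ.ord_zero] at hb
              exact lt_irrefl _ hb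
            rw [μ.ord_mul _ _ ha hb0]
            have := hC a a.2
            omega }
  have hP : ∀ a : chart (cxg hc L) i, a ∈ P ↔ ((a : L) = 0 ∨ 0 < μ.ord a) := fun a => Iff.rfl
  have hprime : P.IsPrime := by
    refine ⟨?_, ?_⟩
    · intro h
      have h1 : (1 : chart (cxg hc L) i) ∈ P := by rw [h]; trivial
      rcases (hP 1).1 h1 with h2 | h2
      · exact one_ne_zero h2
      · rw [OneMemClass.coe_one, BC7_one μ] at h2
        exact lt_irrefl _ h2
    · intro a b hab
      rw [hP, MulMemClass.coe_mul] at hab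
      rw [hP, hP]
      by_cases ha : (a : L) = 0
      · exact Or.inl (Or.inl ha)
      by_cases hb : (b : L) = 0
      · exact Or.inr (Or.inl hb)
      rcases hab with hab | hab
      · exact absurd hab (mul_ne_zero ha hb)
      · rw [μ.ord_mul _ _ ha hb] at hab
        have h1 := hC a a.2
        have h2 := hC b b.2
        by_cases h3 : 0 < μ.ord a
        · exact Or.inl (Or.inr h3)
        · right; right; omega
  refine ⟨⟨i, P, hprime⟩, fun a => ⟨hC a a.2, ?_⟩, fun x hx => ?_⟩
  · refine (hP a).trans (or_congr_left ?_)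
    exact ⟨fun h => Subtype.ext h, fun h => congrArg Subtype.val h⟩
  obtain ⟨a, ha, b, hb, hb0, hbo, hxe⟩ := hμ.loc (kchart k c i) hv x hx
  rw [← chart_eq hL hc i] at ha hb
  refine ⟨⟨a, ha⟩, ⟨b, hb⟩, ?_, hxe⟩
  intro hbP
  rcases (hP ⟨b, hb⟩).1 hbP with h1 | h1
  · exact hb0 h1
  · have h2 : 0 < μ.ord b := h1
    rw [hbo] at h2
    exact lt_irrefl _ h2

end Pool.Agent.LibK3
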