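import Pool.Agent.LibK3.BCM

/-!
ROW [K3 BC8].

An automorphism `γ` of `K` permuting the local rings of the points of the surface over `k` extends to an automorphism of the surface over `ℂ`.

Proof. Write `A_i = kchart k c i`, `ℂ A_i = chart g i` (BC2). Let `x = locAlg Y p`, `p.P` maximal in `ℂ A_i`, `i = p.i`. `m_x` = the elements `a / b`, `a ∈ p.P`, `b ∉ p.P`; `x` is a local ring, an element of `x` not in `m_x` is a unit of `x`,
and `x = ℂ + m_x` (Nullstellensatz for the finitely generated algebra `ℂ A_i`: `ℂ A_i / p.P = ℂ`; see `A3_exists_char` in LibKY/A3 for the argument).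
(1) `P = p.P ∩ A_i` is prime, `O = locAt A_i P ⊆ x`, and for `z ∈ O`: `z ∈ m_x` iff `z = a / b` with `a ∈ P`, `b ∉ P`. By `hγ`: `γ '' O = locAt A_j Q` for some `j`, `Q` prime. So `A_j ⊆ γ O ⊆ Γ x` and `ℂ A_j ⊆ Γ x` (a `ℂ`-algebra).
(2) `Q' = {a ∈ ℂ A_j | Γ⁻¹ a ∈ m_x}` is a maximal ideal of `ℂ A_j` (`ℂ A_j / Q' ↪ x / m_x = ℂ`). Let `y = locAlg Y ⟨j, Q'⟩ ⊆ Γ x` (denominators outside `Q'` are units in `Γ x`), and the non units of `y` are non units of `Γ x` and conversely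
(`z ∈ y`: `z ∈ m_y ↔ Γ⁻¹ z ∈ m_x`).
(3) The units of `locAt A_j Q` go to units: for `b ∈ A_j`, `b ∉ Q`: `b⁻¹ ∈ γ O`, `Γ⁻¹ b⁻¹ ∈ O ⊆ x`, so `b ∉ Q'`. Hence `γ O = locAt A_j Q ⊆ y`, so `O ⊆ Γ⁻¹ y`, so `A_i ⊆ Γ⁻¹ y` and `ℂ A_i ⊆ Γ⁻¹ y`. An element `b ∈ ℂ A_i`, `b ∉ p.P` is a unit of `x`, `b ∈ Γ⁻¹ y`, so
`Γ b ∈ y` is not in `m_y` by (2), so `Γ b⁻¹ ∈ y`. Hence `x ⊆ Γ⁻¹ y`, i.e. `Γ x ⊆ y`; with (2) `Γ x = y`.
-/

set_option autoImplicit false

open Pool.Agent.LibGMM Pool.Agent.LibHP Pool.Agent.LibK Pool.Agent.LibLB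

namespace Pool.Agent.LibK3

section loc

variable {L : Type} [Field L] [Algebra ℂ L] {Y : NormalModel L} {p : Y.Pt}

private theorem BC8_ne {b : chart Y.g p.i} (hb : b ∉ p.P) : (b : L) ≠ 0 := fun h => hb (by
  rw [(Subtype.ext h : b = 0)]
  exact p.P.zero_mem)

private theorem BC8_mul {z w : L} (hz : z ∈ locAlg Y p) (hw : w ∈ LibL.maxLoc Y p) :
    z * w ∈ LibL.maxLoc Y p := by
  obtain ⟨a, b, hb, rfl⟩ := hz
  obtain ⟨c, d, hc, hd, rfl⟩ := hw
  refine ⟨a * c, b * d, p.P.mul_mem_left a hc, fun h => ?_, ?_⟩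
  · rcases p.prime.mem_or_mem h with h1 | h1
    · exact hb h1
    · exact hd h1
  · push_cast
    exact div_mul_div_comm _ _ _ _

private theorem BC8_add {z w : L} (hz : z ∈ LibL.maxLoc Y p) (hw : w ∈ LibL.maxLoc Y p) :
    z + w ∈ LibL.maxLoc Y p := by
  obtain ⟨a, b, ha, hb, rfl⟩ := hz
  obtain ⟨c, d, hc, hd, rfl⟩ := hw
  refine ⟨a * d + b * c, b * d, p.P.add_mem (p.P.mul_mem_right d ha) (p.P.mul_mem_left b hc),
    fun h => ?_, ?_⟩
  · rcases p.prime.mem_or_mem h with h1 | h1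
    · exact hb h1
    · exact hd h1
  · push_cast
    exact div_add_div _ _ (BC8_ne hb) (BC8_ne hd)

private theorem BC8_zero : (0 : L) ∈ LibL.maxLoc Y p :=
  ⟨0, 1, p.P.zero_mem, fun h => p.prime.ne_top ((Ideal.eq_top_iff_one _).2 h), by simp⟩

private theorem BC8_unit {z : L} (hz : z ∈ locAlg Y p) (h : z ∉ LibL.maxLoc Y p) :
    z⁻¹ ∈ locAlg Y p := by
  obtain ⟨a, b, hb, rfl⟩ := hz
  refine ⟨b, a, fun ha => h ⟨a, b, ha, hb, rfl⟩, ?_⟩
  rw [inv_div]

private theorem BC8_one : (1 : L) ∉ LibL.maxLoc Y p := by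
  rintro ⟨a, b, ha, hb, h⟩
  have hb0 := BC8_ne hb
  rw [eq_div_iff hb0, one_mul] at h
  exact hb (by rwa [(Subtype.ext h : b = a)])

private theorem BC8_mem_iff (a : chart Y.g p.i) : (a : L) ∈ LibL.maxLoc Y p ↔ a ∈ p.P := by
  constructor
  · rintro ⟨c, d, hc, hd, h⟩
    have hd0 := BC8_ne hd
    rw [eq_div_iff hd0] at h
    have h1 : a * d = c := Subtype.ext h
    rcases p.prime.mem_or_mem (h1.symm ▸ hc) with h2 | h2
    · exact h2
    · exact absurd h2 hd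
  · intro ha
    exact ⟨a, 1, ha, fun h => p.prime.ne_top ((Ideal.eq_top_iff_one _).2 h), by simp⟩

private theorem BC8_le {z : L} (hz : z ∈ chart Y.g p.i) : z ∈ locAlg Y p :=
  ⟨⟨z, hz⟩, 1, fun h => p.prime.ne_top ((Ideal.eq_top_iff_one _).2 h), by simp⟩

private theorem BC8_null (i : Y.ι) (P : Ideal (chart Y.g i)) (hP : P.IsMaximal)
    (a : chart Y.g i) : ∃ c : ℂ, a - algebraMap ℂ (chart Y.g i) c ∈ P := by
  have := Y.fin
  have hfg : (chart Y.g i).FG := Subalgebra.fg_def.2 ⟨_, Set.finite_range _, rfl⟩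
  have : Algebra.FiniteType ℂ (chart Y.g i) := (Subalgebra.fg_iff_finiteType _).1 hfg
  have := hP
  let : Field (chart Y.g i ⧸ P) := Ideal.Quotient.field P
  have : Module.Finite ℂ (chart Y.g i ⧸ P) :=
    finite_of_finite_type_of_isJacobsonRing ℂ (chart Y.g i ⧸ P)
  obtain ⟨c, hc⟩ := (IsAlgClosed.algebraMap_bijective_of_isIntegral
    (k := ℂ) (K := chart Y.g i ⧸ P)).2 (Ideal.Quotient.mk P a)
  refine ⟨c, ?_⟩
  rw [← Ideal.Quotient.eq]
  exact hc.symm

private theorem BC8_const (hp : p.P.IsMaximal) {z : L} (hz : z ∈ locAlg Y p) :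
    ∃ c : ℂ, z - algebraMap ℂ L c ∈ LibL.maxLoc Y p := by
  obtain ⟨a, b, hb, rfl⟩ := hz
  obtain ⟨c, hc⟩ := BC8_null p.i p.P hp a
  obtain ⟨d, hd⟩ := BC8_null p.i p.P hp b
  have hd0 : d ≠ 0 := by
    rintro rfl
    rw [map_zero, sub_zero] at hd
    exact hb hd
  have hdL : algebraMap ℂ L d ≠ 0 := by
    rw [Ne, map_eq_zero]
    exact hd0
  refine ⟨c / d, algebraMap ℂ _ d * a - algebraMap ℂ _ c * b, algebraMap ℂ _ d * b, ?_, ?_, ?_⟩
  · have h1 : algebraMap ℂ (chart Y.g p.i) d * a - algebraMap ℂ _ c * b =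
        algebraMap ℂ _ d * (a - algebraMap ℂ _ c) - algebraMap ℂ _ c * (b - algebraMap ℂ _ d) := by
      ring
    rw [h1]
    exact p.P.sub_mem (p.P.mul_mem_left _ hc) (p.P.mul_mem_left _ hd)
  · intro h
    rcases p.prime.mem_or_mem h with h1 | h1
    · apply p.prime.ne_top
      rw [Ideal.eq_top_iff_one]
      have h2 : (1 : chart Y.g p.i) = algebraMap ℂ _ d⁻¹ * algebraMap ℂ _ d := by
        rw [← map_mul, inv_mul_cancel₀ hd0, map_one]
      rw [h2]
      exact p.P.mul_mem_left _ h1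
    · exact hb h1
  · have hb0 := BC8_ne hb
    push_cast
    show (a : L) / b - algebraMap ℂ L c / algebraMap ℂ L d =
      (algebraMap ℂ L d * a - algebraMap ℂ L c * b) / (algebraMap ℂ L d * b)
    field_simp

end loc

variable {k : Type} [Field k] [CharZero k] [Algebra k ℂ]
variable {K L : Type} [Field K] [Field L] [Algebra k K] [Algebra ℂ L] [Algebra K L]
variable {ι : Type}

omit [CharZero k] [Algebra k ℂ] in
private theorem BC8_self (A : Subalgebra k K) {P : Ideal A} (hP : P.IsPrime) {a : K}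
    (ha : a ∈ A) : a ∈ locAt A P :=
  ⟨⟨a, ha⟩, 1, fun h => hP.ne_top ((Ideal.eq_top_iff_one _).2 h), by simp⟩

omit [CharZero k] [Algebra k ℂ] in
private theorem BC8_main (Y : NormalModel L) (c : Y.ι → K)
    (hch : ∀ i : Y.ι, chart Y.g i = cadj L (kchart k c i : Set K)) (γ : K ≃ₐ[k] K)
    (hγ : ∀ O, IsPtRing k c O → IsPtRing k c (γ '' O)) (Γ : L ≃ₐ[ℂ] L)
    (hΓ : ∀ z : K, Γ (algebraMap K L z) = algebraMap K L (γ z)) :
    ∀ x ∈ closedPts Y, x.map (Γ : L →ₐ[ℂ] L) ∈ closedPts Y := by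
  rintro x ⟨p, hp, rfl⟩
  have hsub : ∀ (i : Y.ι) (S : Subalgebra ℂ L),
      (∀ a ∈ kchart k c i, algebraMap K L a ∈ S) → chart Y.g i ≤ S := by
    intro i S h
    rw [hch i]
    apply Algebra.adjoin_le
    rintro _ ⟨a, ha, rfl⟩
    exact h a ha
  have hmem : ∀ (i : Y.ι) (a : K), a ∈ kchart k c i → algebraMap K L a ∈ chart Y.g i := by
    intro i a ha
    rw [hch i]
    exact Algebra.subset_adjoin ⟨a, ha, rfl⟩
  -- the map of the charts
  let res : ∀ i : Y.ι, kchart k c i →+* chart Y.g i := fun i =>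
    { toFun := fun a => ⟨algebraMap K L a, hmem i a a.2⟩
      map_one' := Subtype.ext (by simp)
      map_mul' := fun a b => Subtype.ext (by simp)
      map_zero' := Subtype.ext (by simp)
      map_add' := fun a b => Subtype.ext (by simp) }
  have hres : ∀ (i : Y.ι) (a : kchart k c i), ((res i a : chart Y.g i) : L) = algebraMap K L a :=
    fun i a => rfl
  set M := LibL.maxLoc Y p with hM
  set P : Ideal (kchart k c p.i) := p.P.comap (res p.i) with hPdef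
  have hPp : P.IsPrime := p.prime.comap (res p.i)
  obtain ⟨j, Q, hQ, hγO⟩ := hγ (locAt (kchart k c p.i) P) ⟨p.i, P, hPp, rfl⟩
  have hOx : ∀ z ∈ locAt (kchart k c p.i) P, algebraMap K L z ∈ locAlg Y p := by
    rintro z ⟨a, b, hb, rfl⟩
    refine ⟨res p.i a, res p.i b, hb, ?_⟩
    rw [hres, hres, map_div₀]
  -- elements of the chart `j` are in the image of `x`
  have hj1 : ∀ a ∈ kchart k c j, Γ.symm (algebraMap K L a) ∈ locAlg Y p := by
    intro a ha
    have h1 : a ∈ γ '' locAt (kchart k c p.i) P := by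
      rw [hγO]
      exact BC8_self _ hQ ha
    obtain ⟨z, hz, rfl⟩ := h1
    rw [← hΓ, AlgEquiv.symm_apply_apply]
    exact hOx z hz
  have hj2 : ∀ a ∈ chart Y.g j, Γ.symm a ∈ locAlg Y p := by
    intro a ha
    have h1 := hsub j ((locAlg Y p).comap (Γ.symm : L →ₐ[ℂ] L)) (fun b hb => hj1 b hb)
    exact h1 ha
  let Q' : Ideal (chart Y.g j) :=
    { carrier := {a | Γ.symm (a : L) ∈ M}
      add_mem' := by
        intro a b ha hb
        show Γ.symm ((a + b : chart Y.g j) : L) ∈ M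
        push_cast
        rw [map_add]
        exact BC8_add ha hb
      zero_mem' := by
        show Γ.symm ((0 : chart Y.g j) : L) ∈ M
        push_cast
        rw [map_zero]
        exact BC8_zero
      smul_mem' := by
        intro r a ha
        show Γ.symm ((r * a : chart Y.g j) : L) ∈ M
        push_cast
        rw [map_mul]
        exact BC8_mul (hj2 _ r.2) ha }
  have hQ'mem : ∀ a : chart Y.g j, a ∈ Q' ↔ Γ.symm (a : L) ∈ M := fun a => Iff.rfl
  have hQ'1 : (1 : chart Y.g j) ∉ Q' := by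
    rw [hQ'mem]
    push_cast
    rw [map_one]
    exact BC8_one
  have hQ'max : Q'.IsMaximal := by
    rw [Ideal.isMaximal_iff]
    refine ⟨hQ'1, fun J a hJ ha haJ => ?_⟩
    obtain ⟨z, hz⟩ := BC8_const hp (hj2 _ a.2)
    have h1 : a - algebraMap ℂ (chart Y.g j) z ∈ Q' := by
      rw [hQ'mem]
      push_cast
      rw [map_sub]
      have h2 : Γ.symm (algebraMap ℂ L z) = algebraMap ℂ L z := AlgEquiv.commutes _ _
      show Γ.symm (a : L) - Γ.symm (algebraMap ℂ L z) ∈ M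
      rw [h2]
      exact hz
    have hz0 : z ≠ 0 := by
      rintro rfl
      rw [map_zero, sub_zero] at h1
      exact ha h1
    have h3 : algebraMap ℂ (chart Y.g j) z ∈ J := by
      have h4 := J.sub_mem haJ (hJ h1)
      rwa [sub_sub_cancel] at h4
    have h5 : (1 : chart Y.g j) = algebraMap ℂ _ z⁻¹ * algebraMap ℂ _ z := by
      rw [← map_mul, inv_mul_cancel₀ hz0, map_one]
    rw [h5]
    exact J.mul_mem_left _ h3
  let q : Y.Pt := ⟨j, Q', hQ'max.isPrime⟩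
  refine ⟨q, hQ'max, ?_⟩
  -- inverses
  have hunit : ∀ z ∈ locAlg Y q, Γ.symm z ∉ M → z⁻¹ ∈ locAlg Y q := by
    rintro z ⟨a, b, hb, rfl⟩ hz
    refine ⟨b, a, fun ha => hz ?_, ?_⟩
    · rw [map_div₀, div_eq_mul_inv, mul_comm]
      exact BC8_mul (BC8_unit (hj2 _ b.2) hb) ha
    · rw [inv_div]
  -- the local ring over `k` is in `y`
  have hQy : ∀ z ∈ locAt (kchart k c j) Q, algebraMap K L z ∈ locAlg Y q := by
    rintro z ⟨a, b, hb, rfl⟩
    refine ⟨res j a, res j b, fun h => ?_, ?_⟩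
    · have hb0 : (b : K) ≠ 0 := fun h0 => hb (by
        rw [(Subtype.ext h0 : b = 0)]
        exact Q.zero_mem)
      have h1 : (b : K)⁻¹ ∈ γ '' locAt (kchart k c p.i) P := by
        rw [hγO]
        exact ⟨1, b, hb, by simp⟩
      obtain ⟨w, hw, hwb⟩ := h1
      have h2 : Γ.symm (algebraMap K L (b : K))⁻¹ ∈ locAlg Y p := by
        rw [← map_inv₀ (algebraMap K L), ← hwb, ← hΓ, AlgEquiv.symm_apply_apply]
        exact hOx w hw
      have h3 := BC8_mul h2 h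
      rw [hres, ← map_mul, inv_mul_cancel₀ (by rw [Ne, map_eq_zero]; exact hb0), map_one] at h3
      exact BC8_one h3
    · rw [hres, hres, map_div₀]
  have hi1 : ∀ a ∈ kchart k c p.i, Γ (algebraMap K L a) ∈ locAlg Y q := by
    intro a ha
    rw [hΓ]
    apply hQy
    rw [← hγO]
    exact ⟨a, BC8_self _ hPp ha, rfl⟩
  have hi2 : ∀ a ∈ chart Y.g p.i, Γ a ∈ locAlg Y q := by
    intro a ha
    have h1 := hsub p.i ((locAlg Y q).comap (Γ : L →ₐ[ℂ] L)) (fun b hb => hi1 b hb)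
    exact h1 ha
  apply le_antisymm
  · rintro _ ⟨z, ⟨a, b, hb, rfl⟩, rfl⟩
    show Γ ((a : L) / b) ∈ locAlg Y q
    rw [map_div₀, div_eq_mul_inv]
    apply (locAlg Y q).mul_mem (hi2 _ a.2)
    apply hunit _ (hi2 _ b.2)
    rw [AlgEquiv.symm_apply_apply]
    intro h
    exact hb ((BC8_mem_iff b).1 h)
  · rintro z ⟨a, b, hb, rfl⟩
    refine ⟨Γ.symm ((a : L) / b), ?_, ?_⟩
    · rw [map_div₀, div_eq_mul_inv]
      exact (locAlg Y p).mul_mem (hj2 _ a.2) (BC8_unit (hj2 _ b.2) hb)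
    · exact AlgEquiv.apply_symm_apply _ _

theorem closedPts_map {c : ι → K} (hc : KModel k c) (hL : IsCx k K L) (γ : K ≃ₐ[k] K)
    (hγ : ∀ O, IsPtRing k c O → IsPtRing k c (γ '' O)) (Γ : L ≃ₐ[ℂ] L)
    (hΓ : ∀ z : K, Γ (algebraMap K L z) = algebraMap K L (γ z)) :
    ∀ x ∈ closedPts (cxModel hc hL), x.map (Γ : L →ₐ[ℂ] L) ∈ closedPts (cxModel hc hL) :=
  BC8_main (cxModel hc hL) c (fun i => chart_eq hL hc i) γ hγ Γ hΓ

end Pool.Agent.LibK3
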