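import Pool.Agent.LibK3.BCM

/-!
ROW [K3 BC9].

The relation `g^* h + (g⁻¹)^* h = a h` at the prime divisors over `ℂ`.

Proof. Let `ν ∈ primes Y`, `Y = cxModel hc hL`, `p` its centre, `i = p.i`, `A = kchart k c i`, `P = {z ∈ A | algebraMap z ∈ p.P}` a prime of `A`, `O = locAt A P` a point ring; for `z ∈ O`: `0 ≤ ν.ord (algebraMap K L z)` (denominators are outside `p.P`, so of order `0`).
`hypZ Y ν = - ⨅ j, ν.ord (algebraMap K L (c j))`; write `m` for this infimum over the finite nonempty type `ι`; similarly `m1 = ⨅ j, ν.ord (Γ (algebraMap (c j)))`, `m2 = ⨅ j, ν.ord (Γ⁻¹ (algebraMap (c j)))` (these are `- hypZ Y (μ1)`, `- hypZ Y (μ2)` by `h1`, `h2`).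
The infimum of a finite family of integers is attained (`exists_eq_ciInf_of_finite`, `ciInf_le`). (≥): take `i, j` attaining `m1`, `m2`; by `hrel1` the product `γ (c i) * γ⁻¹ (c j)` is a sum of terms of order `≥ ν(φ) + a m`, so
`m1 + m2 ≥ ν(φ) + a m` (or the product is zero, impossible). (≤): take `s` constant with value the index attaining `m`; `φ * (c i) ^ a` is a sum of terms of order `≥ m1 + m2` by `hrel2`.
-/

set_option autoImplicit false

open Pool.Agent.LibGMM Pool.Agent.LibHP Pool.Agent.LibK Pool.Agent.LibLB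

namespace Pool.Agent.LibK3

variable {k : Type} [Field k] [CharZero k] [Algebra k ℂ]
variable {K L : Type} [Field K] [Field L] [Algebra k K] [Algebra ℂ L] [Algebra K L]
variable {ι : Type}

section BC9_val

variable {F : Type} [Field F] [Algebra ℂ F]

private theorem BC9_one (ν : DVal F) : ν.ord 1 = 0 := by
  have := ν.ord_const 1
  rwa [map_one] at this

private theorem BC9_inv (ν : DVal F) {b : F} (hb : b ≠ 0) : ν.ord b⁻¹ = - ν.ord b := by
  have h1 := ν.ord_mul b b⁻¹ hb (inv_ne_zero hb)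
  rw [mul_inv_cancel₀ hb, BC9_one] at h1
  omega

private theorem BC9_add (ν : DVal F) {n : ℤ} {a b : F} (ha : a = 0 ∨ n ≤ ν.ord a)
    (hb : b = 0 ∨ n ≤ ν.ord b) : a + b = 0 ∨ n ≤ ν.ord (a + b) := by
  rcases ha with rfl | ha
  · rw [zero_add]; exact hb
  rcases hb with rfl | hb
  · rw [add_zero]; exact Or.inr ha
  by_cases h0 : a = 0
  · rw [h0, zero_add]; exact Or.inr hb
  by_cases h1 : b = 0
  · rw [h1, add_zero]; exact Or.inr ha
  by_cases h2 : a + b = 0
  · exact Or.inl h2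
  · exact Or.inr (le_trans (le_min ha hb) (ν.ord_add a b h0 h1 h2))

private theorem BC9_sum (ν : DVal F) {α : Type} (s : Finset α) (f : α → F) (n : ℤ)
    (h : ∀ i ∈ s, f i = 0 ∨ n ≤ ν.ord (f i)) :
    ∑ i ∈ s, f i = 0 ∨ n ≤ ν.ord (∑ i ∈ s, f i) := by
  classical
  induction s using Finset.induction_on with
  | empty => left; simp
  | insert a s ha ih =>
    rw [Finset.sum_insert ha]
    exact BC9_add ν (h a (Finset.mem_insert_self _ _))
      (ih fun i hi => h i (Finset.mem_insert_of_mem hi))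

private theorem BC9_prod (ν : DVal F) {a : ℕ} (f : Fin a → F) (hf : ∀ t, f t ≠ 0) :
    ν.ord (∏ t, f t) = ∑ t, ν.ord (f t) := by
  classical
  have h : ∀ s : Finset (Fin a), ν.ord (∏ t ∈ s, f t) = ∑ t ∈ s, ν.ord (f t) := by
    intro s
    induction s using Finset.induction_on with
    | empty => simp
    | insert b s hb ih =>
      rw [Finset.prod_insert hb, Finset.sum_insert hb,
        ν.ord_mul _ _ (hf b) (Finset.prod_ne_zero_iff.2 fun t _ => hf t), ih]
  exact h Finset.univ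

/-- a term `o * x` with `o` integral -/
private theorem BC9_term (ν : DVal F) {n : ℤ} {o x : F} (ho : 0 ≤ ν.ord o) (hx : x ≠ 0)
    (hn : n ≤ ν.ord x) : o * x = 0 ∨ n ≤ ν.ord (o * x) := by
  by_cases h0 : o = 0
  · left
    rw [h0, zero_mul]
  · right
    rw [ν.ord_mul _ _ h0 hx]
    omega

end BC9_val

/-- at the centre of a prime divisor of the surface over `ℂ` there is a point ring of the surface
over `k` whose elements have nonnegative order -/
private theorem BC9_ptRing {c : ι → K} (hc : KModel k c) (hL : IsCx k K L) (ν : DVal L)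
    (hν : ν ∈ primes (cxModel hc hL)) :
    ∃ O, IsPtRing k c O ∧ ∀ z ∈ O, 0 ≤ ν.ord (algebraMap K L z) := by
  obtain ⟨p, hp, -⟩ := hν
  obtain ⟨i, P, hP⟩ := p
  change ι at i
  change Ideal (chart (cxg hc L) i) at P
  have hmem : ∀ z : kchart k c i, ((algebraMap K L).comp
      (kchart k c i).toSubsemiring.subtype) z ∈ chart (cxg hc L) i := by
    intro z
    rw [chart_eq hL hc i]
    exact Algebra.subset_adjoin ⟨(z : K), z.2, rfl⟩
  let f : kchart k c i →+* chart (cxg hc L) i := RingHom.codRestrict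
    ((algebraMap K L).comp (kchart k c i).toSubsemiring.subtype) (chart (cxg hc L) i) hmem
  have hf : ∀ z : kchart k c i, ((f z : chart (cxg hc L) i) : L) = algebraMap K L (z : K) :=
    fun z => rfl
  have : P.IsPrime := hP
  have hc' : ∀ a : chart (cxg hc L) i, 0 ≤ ν.ord (a : L) ∧ (a ∈ P ↔ (a = 0 ∨ 0 < ν.ord (a : L))) :=
    hp
  refine ⟨locAt (kchart k c i) (P.comap f), ⟨i, P.comap f, Ideal.comap_isPrime f P, rfl⟩, ?_⟩
  rintro z ⟨a, b, hb, rfl⟩
  obtain ⟨hb1, hb2⟩ := hc' (f b)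
  have hb3 : f b ∉ P := hb
  rw [hb2, not_or, not_lt] at hb3
  have hb4 : algebraMap K L (b : K) ≠ 0 := by
    intro h0
    apply hb3.1
    apply Subtype.ext
    rw [hf, h0]
    rfl
  have ha := (hc' (f a)).1
  rw [hf] at ha hb1 hb3
  rw [map_div₀]
  by_cases h0 : algebraMap K L (a : K) = 0
  · rw [h0, zero_div, ν.ord_zero]
  · rw [div_eq_mul_inv, ν.ord_mul _ _ h0 (inv_ne_zero hb4), BC9_inv ν hb4]
    omega

theorem hyp_rel {c : ι → K} (hc : KModel k c) (hL : IsCx k K L) [Fintype ι] (γ : K ≃ₐ[k] K)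
    (Γ : L ≃ₐ[ℂ] L) (hΓ : ∀ z : K, Γ (algebraMap K L z) = algebraMap K L (γ z))
    (hΓ' : ∀ z : K, Γ.symm (algebraMap K L z) = algebraMap K L (γ.symm z))
    (a : ℕ) (φ : K) (hφ : φ ≠ 0)
    (hrel1 : ∀ O, IsPtRing k c O → ∀ i j, ∃ o : (Fin a → ι) → K, (∀ s, o s ∈ O) ∧
      γ (c i) * γ.symm (c j) = ∑ s, o s * (φ * ∏ t, c (s t)))
    (hrel2 : ∀ O, IsPtRing k c O → ∀ s : Fin a → ι, ∃ o : ι → ι → K, (∀ i j, o i j ∈ O) ∧
      φ * ∏ t, c (s t) = ∑ i, ∑ j, o i j * (γ (c i) * γ.symm (c j)))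
    (ν μ1 μ2 : DVal L) (hν : ν ∈ primes (cxModel hc hL)) (h1 : ∀ z, μ1.ord z = ν.ord (Γ z))
    (h2 : ∀ z, μ2.ord z = ν.ord (Γ.symm z)) :
    hypZ (cxModel hc hL) μ1 + hypZ (cxModel hc hL) μ2 =
      a * hypZ (cxModel hc hL) ν - ν.ord (algebraMap K L φ) := by
  obtain ⟨O, hO, hO0⟩ := BC9_ptRing hc hL ν hν
  have : Nonempty ι := hc.ne
  have hinj : Function.Injective (algebraMap K L) := (algebraMap K L).injective
  have hne : ∀ z : K, z ≠ 0 → algebraMap K L z ≠ 0 := fun z hz h0 =>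
    hz (hinj (h0.trans (map_zero _).symm))
  have hcne : ∀ j, c j ≠ 0 := hc.c_ne
  have hγ : ∀ j, γ (c j) ≠ 0 := fun j h0 => hcne j (γ.injective (h0.trans (map_zero γ).symm))
  have hγ' : ∀ j, γ.symm (c j) ≠ 0 := fun j h0 =>
    hcne j (γ.symm.injective (h0.trans (map_zero γ.symm).symm))
  have e0 : hypZ (cxModel hc hL) ν = - ⨅ j : ι, ν.ord (algebraMap K L (c j)) := rfl
  have e1 : hypZ (cxModel hc hL) μ1 = - ⨅ j : ι, ν.ord (algebraMap K L (γ (c j))) := by
    have : hypZ (cxModel hc hL) μ1 = - ⨅ j : ι, μ1.ord (algebraMap K L (c j)) := rfl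
    rw [this]
    simp only [h1, hΓ]
  have e2 : hypZ (cxModel hc hL) μ2 = - ⨅ j : ι, ν.ord (algebraMap K L (γ.symm (c j))) := by
    have : hypZ (cxModel hc hL) μ2 = - ⨅ j : ι, μ2.ord (algebraMap K L (c j)) := rfl
    rw [this]
    simp only [h2, hΓ']
  obtain ⟨j0, hj0⟩ := exists_eq_ciInf_of_finite (f := fun j : ι => ν.ord (algebraMap K L (c j)))
  obtain ⟨j1, hj1⟩ := exists_eq_ciInf_of_finite
    (f := fun j : ι => ν.ord (algebraMap K L (γ (c j))))
  obtain ⟨j2, hj2⟩ := exists_eq_ciInf_of_finite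
    (f := fun j : ι => ν.ord (algebraMap K L (γ.symm (c j))))
  have l0 : ∀ j, ν.ord (algebraMap K L (c j0)) ≤ ν.ord (algebraMap K L (c j)) := by
    intro j
    have := ciInf_le (Set.finite_range fun j : ι => ν.ord (algebraMap K L (c j))).bddBelow j
    omega
  have l1 : ∀ j, ν.ord (algebraMap K L (γ (c j1))) ≤ ν.ord (algebraMap K L (γ (c j))) := by
    intro j
    have := ciInf_le (Set.finite_range fun j : ι => ν.ord (algebraMap K L (γ (c j)))).bddBelow j
    omega
  have l2 : ∀ j, ν.ord (algebraMap K L (γ.symm (c j2))) ≤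
      ν.ord (algebraMap K L (γ.symm (c j))) := by
    intro j
    have := ciInf_le
      (Set.finite_range fun j : ι => ν.ord (algebraMap K L (γ.symm (c j)))).bddBelow j
    omega
  rw [e0, e1, e2, ← hj0, ← hj1, ← hj2]
  -- orders of the products
  have hord1 : ∀ i j, ν.ord (algebraMap K L (γ (c i) * γ.symm (c j))) =
      ν.ord (algebraMap K L (γ (c i))) + ν.ord (algebraMap K L (γ.symm (c j))) := by
    intro i j
    rw [map_mul, ν.ord_mul _ _ (hne _ (hγ i)) (hne _ (hγ' j))]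
  have hpne : ∀ s : Fin a → ι, ∏ t, c (s t) ≠ 0 := fun s =>
    Finset.prod_ne_zero_iff.2 fun t _ => hcne (s t)
  have hord2 : ∀ s : Fin a → ι, ν.ord (algebraMap K L (φ * ∏ t, c (s t))) =
      ν.ord (algebraMap K L φ) + ∑ t, ν.ord (algebraMap K L (c (s t))) := by
    intro s
    rw [map_mul, ν.ord_mul _ _ (hne _ hφ) (hne _ (hpne s)), map_prod,
      BC9_prod ν _ fun t => hne _ (hcne (s t))]
  have hge : ν.ord (algebraMap K L φ) + a * ν.ord (algebraMap K L (c j0)) ≤
      ν.ord (algebraMap K L (γ (c j1))) + ν.ord (algebraMap K L (γ.symm (c j2))) := by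
    obtain ⟨o, ho, hrel⟩ := hrel1 O hO j1 j2
    rw [← hord1, hrel, map_sum]
    refine (BC9_sum ν Finset.univ _ _ fun s _ => ?_).resolve_left ?_
    · rw [map_mul]
      refine BC9_term ν (hO0 _ (ho s)) (hne _ (mul_ne_zero hφ (hpne s))) ?_
      rw [hord2]
      have h3 : ∑ _t : Fin a, ν.ord (algebraMap K L (c j0)) ≤
          ∑ t, ν.ord (algebraMap K L (c (s t))) := Finset.sum_le_sum fun t _ => l0 (s t)
      rw [Finset.sum_const, Finset.card_univ, Fintype.card_fin, nsmul_eq_mul] at h3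
      omega
    · rw [← map_sum, ← hrel]
      exact hne _ (mul_ne_zero (hγ j1) (hγ' j2))
  have hle : ν.ord (algebraMap K L (γ (c j1))) + ν.ord (algebraMap K L (γ.symm (c j2))) ≤
      ν.ord (algebraMap K L φ) + a * ν.ord (algebraMap K L (c j0)) := by
    obtain ⟨o, ho, hrel⟩ := hrel2 O hO fun _ => j0
    have h3 := hord2 fun _ => j0
    rw [Finset.sum_const, Finset.card_univ, Fintype.card_fin, nsmul_eq_mul] at h3
    rw [← h3, hrel, map_sum]
    refine (BC9_sum ν Finset.univ _ _ fun i _ => ?_).resolve_left ?_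
    · rw [map_sum]
      refine BC9_sum ν Finset.univ _ _ fun j _ => ?_
      rw [map_mul]
      refine BC9_term ν (hO0 _ (ho i j)) (hne _ (mul_ne_zero (hγ i) (hγ' j))) ?_
      rw [hord1]
      exact add_le_add (l1 i) (l2 j)
    · rw [← map_sum, ← hrel]
      exact hne _ (mul_ne_zero hφ (hpne _))
  have h4 : ν.ord (algebraMap K L (γ (c j1))) + ν.ord (algebraMap K L (γ.symm (c j2))) =
      ν.ord (algebraMap K L φ) + a * ν.ord (algebraMap K L (c j0)) := le_antisymm hle hge
  linear_combination -h4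

end Pool.Agent.LibK3
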