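import Pool.Agent.LibK3.BC4

/-!
ROW [K3 BCM].

Definition of the surface over `ℂ`.
-/

set_option autoImplicit false

open Pool.Agent.LibGMM Pool.Agent.LibHP Pool.Agent.LibK Pool.Agent.LibLB

namespace Pool.Agent.LibK3

variable {k : Type} [Field k] [CharZero k] [Algebra k ℂ]
variable {K L : Type} [Field K] [Field L] [Algebra k K] [Algebra ℂ L] [Algebra K L]
variable {ι : Type}

/-- The surface over `ℂ`. -/
noncomputable def cxModel {c : ι → K} (hc : KModel k c) (hL : IsCx k K L) : NormalModel L where
  ι := ι
  fin := hc.fin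
  ne := hc.ne
  g := cxg hc L
  frac := cxg_frac hL hc
  normal := cxg_normal hL hc

theorem cxModel_g {c : ι → K} (hc : KModel k c) (hL : IsCx k K L) (i : ι) :
    (((cxModel hc hL).g i : Lˣ) : L) = algebraMap K L (c i) := rfl

end Pool.Agent.LibK3
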