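import Pool.Agent.LibKB.Defs
import Pool.Agent.LibCov80.Val

/-!
K3 surfaces and automorphisms of positive entropy. Block B: base change from `k` to `ℂ`, definitions.
-/

set_option autoImplicit false

open Pool.Agent.LibGMM

namespace Pool.Agent.LibK3

/-- The subalgebra of `L` generated by (the image of) the subset `S` of `F` over `ℂ`. -/
noncomputable def cadj {F : Type} (L : Type) [Field F] [Field L] [Algebra ℂ L] [Algebra F L]
    (S : Set F) : Subalgebra ℂ L :=
  Algebra.adjoin ℂ (algebraMap F L '' S)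

/-- `L` is the field of fractions of `ℂ ⊗ F` (over `k`). -/
structure IsCx (k F L : Type) [Field k] [Field F] [Field L] [Algebra k ℂ] [Algebra k F]
    [Algebra ℂ L] [Algebra F L] : Prop where
  compat : ∀ c : k, algebraMap F L (algebraMap k F c) = algebraMap ℂ L (algebraMap k ℂ c)
  indep : ∀ (n : ℕ) (b : Fin n → F), LinearIndependent k b →
    LinearIndependent ℂ fun i => algebraMap F L (b i)
  frac : ∀ z : L, ∃ u ∈ cadj L (Set.univ : Set F), ∃ v ∈ cadj L (Set.univ : Set F),
    v ≠ 0 ∧ z = u / v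

/-- A normalised discrete valuation of the field `F` which is trivial on `k` (`ord 0 = 0`). -/
structure KVal (k F : Type) [Field k] [Field F] [Algebra k F] where
  ord : F → ℤ
  ord_zero : ord 0 = 0
  ord_mul : ∀ a b, a ≠ 0 → b ≠ 0 → ord (a * b) = ord a + ord b
  ord_add : ∀ a b, a ≠ 0 → b ≠ 0 → a + b ≠ 0 → min (ord a) (ord b) ≤ ord (a + b)
  ord_const : ∀ c : k, ord (algebraMap k F c) = 0
  exists_ord_one : ∃ t, ord t = 1

/-- The local ring of `v` is the localisation of the finitely generated algebra `B` at the centre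
of `v`. -/
def KVal.On {k F : Type} [Field k] [Field F] [Algebra k F] (v : KVal k F) (B : Subalgebra k F) :
    Prop :=
  B.FG ∧ (∀ b ∈ B, 0 ≤ v.ord b) ∧
    ∀ z, 0 ≤ v.ord z → ∃ a ∈ B, ∃ b ∈ B, b ≠ 0 ∧ v.ord b = 0 ∧ z = a / b

/-- The residue classes of the `b i` are linearly independent over `k`. -/
def KVal.ResIndep {k F : Type} [Field k] [Field F] [Algebra k F] (v : KVal k F) {n : ℕ}
    (b : Fin n → F) : Prop :=
  (∀ i, 0 ≤ v.ord (b i)) ∧ ∀ c : Fin n → k, (∑ i, algebraMap k F (c i) * b i = 0 ∨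
    0 < v.ord (∑ i, algebraMap k F (c i) * b i)) → c = 0

/-- The field `k` is algebraically closed in the residue field of `v`. -/
def KVal.ResClosed {k F : Type} [Field k] [Field F] [Algebra k F] (v : KVal k F) : Prop :=
  ∀ (z : F) (P : Polynomial k), 0 ≤ v.ord z → P ≠ 0 →
    (Polynomial.aeval z P = 0 ∨ 0 < v.ord (Polynomial.aeval z P)) →
      ∃ c : k, z = algebraMap k F c ∨ 0 < v.ord (z - algebraMap k F c)

/-- The prime divisor `μ` lies over the prime divisor `v`, with the same uniformiser, and its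
local ring is the localisation of `ℂ B` at the centre, for all models `B` of `v`. -/
structure CxOver {k F L : Type} [Field k] [Field F] [Field L] [Algebra k F]
    [Algebra ℂ L] [Algebra F L] (v : KVal k F) (μ : DVal L) : Prop where
  ord : ∀ z : F, μ.ord (algebraMap F L z) = v.ord z
  loc : ∀ B : Subalgebra k F, v.On B → ∀ z, 0 ≤ μ.ord z →
    ∃ a ∈ cadj L (B : Set F), ∃ b ∈ cadj L (B : Set F), b ≠ 0 ∧ μ.ord b = 0 ∧ z = a / b

end Pool.Agent.LibK3
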