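import Pool.Agent.LibK3.BV

/-!
ROW [K3B W1]. `v.ring` is a discrete valuation ring with field of fractions `F`; fractions and
uniformisers in a model.
-/

set_option autoImplicit false

open Pool.Agent.LibGMM Pool.Agent.LibCov80

namespace Pool.Agent.LibK3

variable {k F : Type} [Field k] [Field F] [Algebra k F]

theorem KVal.isFractionRing (v : KVal k F) : IsFractionRing v.ring F := by
  refine IsFractionRing.of_field v.ring F ?_
  intro x
  by_cases hx : 0 ≤ v.ord x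
  · exact ⟨⟨x, hx⟩, 1, by simp⟩
  · have h1 : 0 ≤ v.ord x⁻¹ := by rw [v.ord_inv]; omega
    refine ⟨1, ⟨x⁻¹, h1⟩, ?_⟩
    rw [map_one]
    change x = 1 / x⁻¹
    rw [one_div, inv_inv]

private theorem KVal.bw1_unit (v : KVal k F) {x : v.ring} (h0 : (x : F) ≠ 0)
    (h : v.ord (x : F) = 0) : IsUnit x := by
  have h1 : 0 ≤ v.ord (x : F)⁻¹ := by rw [v.ord_inv, h]; simp
  refine IsUnit.of_mul_eq_one ⟨(x : F)⁻¹, h1⟩ ?_
  apply Subtype.ext
  rw [MulMemClass.coe_mul, OneMemClass.coe_one]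
  exact mul_inv_cancel₀ h0

theorem KVal.isDVR (v : KVal k F) : IsDiscreteValuationRing v.ring := by
  obtain ⟨t, ht⟩ := v.exists_ord_one
  have ht0 : t ≠ 0 := by rintro rfl; rw [v.ord_zero] at ht; omega
  refine IsDiscreteValuationRing.ofHasUnitMulPowIrreducibleFactorization
    ⟨⟨t, by rw [v.mem_ring, ht]; omega⟩, ?_, ?_⟩
  · constructor
    · intro hu
      obtain ⟨y, hy⟩ := hu.exists_right_inv
      have h1 : t * (y : F) = 1 := congrArg Subtype.val hy
      have hy0 : (y : F) ≠ 0 := by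
        intro h0
        rw [h0, mul_zero] at h1
        exact zero_ne_one h1
      have h2 := v.ord_mul t y ht0 hy0
      rw [h1, v.ord_one, ht] at h2
      have := v.mem_ring.1 y.2
      omega
    · intro a b hab
      have h1 : t = (a : F) * (b : F) := congrArg Subtype.val hab
      have ha0 : (a : F) ≠ 0 := by
        intro h0
        rw [h0, zero_mul] at h1
        exact ht0 h1
      have hb0 : (b : F) ≠ 0 := by
        intro h0
        rw [h0, mul_zero] at h1
        exact ht0 h1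
      have h2 := v.ord_mul a b ha0 hb0
      rw [← h1, ht] at h2
      have h3 := v.mem_ring.1 a.2
      have h4 := v.mem_ring.1 b.2
      rcases (show v.ord (a : F) = 0 ∨ v.ord (b : F) = 0 by omega) with h | h
      · exact Or.inl (v.bw1_unit ha0 h)
      · exact Or.inr (v.bw1_unit hb0 h)
  · intro x hx
    have hx0 : (x : F) ≠ 0 := fun h => hx (Subtype.ext h)
    obtain ⟨n, hn⟩ := Int.eq_ofNat_of_zero_le (v.mem_ring.1 x.2)
    refine ⟨n, ?_⟩
    have hq : v.ord ((x : F) / t ^ n) = 0 := by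
      rw [v.ord_div hx0 (pow_ne_zero _ ht0), v.ord_pow, ht, hn]
      simp
    have hq0 : (x : F) / t ^ n ≠ 0 := div_ne_zero hx0 (pow_ne_zero _ ht0)
    obtain ⟨u, hu⟩ := v.bw1_unit (x := ⟨(x : F) / t ^ n, by rw [v.mem_ring, hq]⟩) hq0 hq
    refine ⟨u, ?_⟩
    rw [hu]
    apply Subtype.ext
    change t ^ n * ((x : F) / t ^ n) = x
    rw [mul_div_cancel₀ _ (pow_ne_zero _ ht0)]

theorem KVal.On.le {v : KVal k F} {B : Subalgebra k F} (hB : v.On B) : B ≤ v.ring :=
  fun b hb => hB.2.1 b hb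

theorem KVal.On.frac {v : KVal k F} {B : Subalgebra k F} (hB : v.On B) (z : F) :
    ∃ a ∈ B, ∃ b ∈ B, b ≠ 0 ∧ z = a / b := by
  by_cases hz0 : z = 0
  · exact ⟨0, B.zero_mem, 1, B.one_mem, one_ne_zero, by rw [hz0, zero_div]⟩
  by_cases hz : 0 ≤ v.ord z
  · obtain ⟨a, ha, b, hb, hb0, -, h⟩ := hB.2.2 z hz
    exact ⟨a, ha, b, hb, hb0, h⟩
  · obtain ⟨a, ha, b, hb, hb0, -, h⟩ := hB.2.2 z⁻¹ (by rw [v.ord_inv]; omega)
    refine ⟨b, hb, a, ha, ?_, ?_⟩
    · rintro rfl
      rw [zero_div] at h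
      exact hz0 (inv_eq_zero.1 h)
    · rw [← inv_inv z, h, inv_div]

theorem KVal.On.exists_unif {v : KVal k F} {B : Subalgebra k F} (hB : v.On B) :
    ∃ t ∈ B, v.ord t = 1 := by
  obtain ⟨t, ht⟩ := v.exists_ord_one
  have ht0 : t ≠ 0 := by rintro rfl; rw [v.ord_zero] at ht; omega
  obtain ⟨a, ha, b, hb, hb0, hb1, h⟩ := hB.2.2 t (by omega)
  refine ⟨a, ha, ?_⟩
  have ha0 : a ≠ 0 := by
    rintro rfl
    rw [zero_div] at h
    exact ht0 h
  rw [h, v.ord_div ha0 hb0, hb1] at ht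
  omega

end Pool.Agent.LibK3
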