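import Pool.Agent.LibK3.BW1

/-!
ROW [K3B W10] (= BB5). A model of a prolongation.

Proof. `O = v.ring` is a discrete valuation ring with field of fractions `F` (`isDVR`, `isFractionRing`);
`D` = integral closure of `O` in `F'` (`integralClosure v.ring F'`, with the algebra structure of `v.ring` on
`F'` through `F`), a finite `O`-module (`IsIntegralClosure.finite`; `F'/F` is separable, characteristic
zero) and a Dedekind domain (`IsIntegralClosure.isDedekindDomain`, `integralClosure.isDedekindDomain`).
`D ⊆ v'.ring` (an element integral over `O ⊆ v'.ring` has nonnegative order: `v'.ring` is integrally closed, it is a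
discrete valuation ring, `isDVR`). `P' = {d | d = 0 ∨ 0 < v'.ord d}` is a nonzero prime of `D` (contains a
uniformiser of `v`), so `D_P'` is a discrete valuation ring
(`IsLocalization.AtPrime.isDiscreteValuationRing_of_dedekind_domain`) and if `0 ≤ v'.ord z` then
`z = a / s` with `a, s ∈ D`, `v'.ord s = 0`: otherwise `z⁻¹` is in the maximal ideal of `D_P'`, `z⁻¹ = a / s`, `a ∈ P'`, `s ∉ P'`, so
`0 < v'.ord z⁻¹`. Let `d₁, ..., d_n` generate `D` over `O` and `B' = adjoin k (image of B ∪ {d₁, ..., d_n})`,
finitely generated, `B' ⊆ v'.ring`. For `a = ∑ x_i d_i`, `x_i ∈ O`, there is `b ∈ B`, `v.ord b = 0`, with all `b x_i ∈ B`, so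
`b a ∈ B'`, `v'.ord b = 0`. So `z = (b b' a) / (b b' s)` with numerator and denominator in `B'`.
-/

set_option autoImplicit false

open Pool.Agent.LibGMM Pool.Agent.LibCov80

namespace Pool.Agent.LibK3

variable {k : Type} [Field k] [CharZero k] {F F' : Type} [Field F] [Field F'] [Algebra k F]
  [Algebra k F'] [Algebra F F'] [IsScalarTower k F F'] [FiniteDimensional F F']

/-- In a localisation which is a valuation ring one of two elements divides the other one. -/
private theorem dvd_aux {D : Type} [CommRing D] [IsDomain D] (P : Ideal D) [P.IsPrime]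
    [ValuationRing (Localization.AtPrime P)] (x y : D) :
    ∃ s, s ∉ P ∧ ∃ c, s * x = y * c ∨ s * y = x * c := by
  have hM : P.primeCompl ≤ nonZeroDivisors D := P.primeCompl_le_nonZeroDivisors
  have key : ∀ a b : D, (∃ c : Localization.AtPrime P,
      algebraMap D (Localization.AtPrime P) a * c = algebraMap D (Localization.AtPrime P) b) →
      ∃ s, s ∉ P ∧ ∃ c, s * b = a * c := by
    rintro a b ⟨c, hc⟩
    obtain ⟨⟨c', s⟩, hs⟩ := IsLocalization.surj P.primeCompl c
    refine ⟨s, s.2, c', ?_⟩
    apply IsLocalization.injective (Localization.AtPrime P) hM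
    rw [map_mul, map_mul, ← hs, ← hc]
    ring
  rcases ValuationRing.cond (algebraMap D (Localization.AtPrime P) x)
    (algebraMap D (Localization.AtPrime P) y) with ⟨c, hc⟩
  rcases hc with hc | hc
  · obtain ⟨s, hs, c', h⟩ := key x y ⟨c, hc⟩
    exact ⟨s, hs, c', Or.inr h⟩
  · obtain ⟨s, hs, c', h⟩ := key y x ⟨c, hc⟩
    exact ⟨s, hs, c', Or.inl h⟩

theorem KVal.on_of_over' {v : KVal k F} {B : Subalgebra k F} (hB : v.On B) (v' : KVal k F')
    (e : ℕ) (he : 0 < e) (hv' : ∀ z : F, v'.ord (algebraMap F F' z) = e * v.ord z) :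
    ∃ B' : Subalgebra k F', v'.On B' ∧ ∀ b ∈ B, algebraMap F F' b ∈ B' := by
  classical
  have := v.isFractionRing
  have := v.isDVR
  have := v'.isFractionRing
  have := v'.isDVR
  have hch : CharZero F := charZero_of_injective_algebraMap (algebraMap k F).injective
  have hfin : Module.Finite v.ring (integralClosure v.ring F') :=
    IsIntegralClosure.finite v.ring F F' (integralClosure v.ring F')
  have hded : IsDedekindDomain (integralClosure v.ring F') :=
    integralClosure.isDedekindDomain v.ring F F'
  have hfrac : IsFractionRing (integralClosure v.ring F') F' :=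
    integralClosure.isFractionRing_of_finite_extension F F'
  have hinj : Function.Injective (algebraMap F F') := (algebraMap F F').injective
  -- elements of the integral closure have nonnegative order
  have hD : ∀ d ∈ integralClosure v.ring F', 0 ≤ v'.ord d := by
    intro d hd
    let _ : Algebra v.ring v'.ring := (v.ringMap v' e hv').toRingHom.toAlgebra
    have _ : IsScalarTower v.ring v'.ring F' := IsScalarTower.of_algebraMap_eq fun _ => rfl
    have h1 : IsIntegral v.ring d := hd
    have h2 : IsIntegral v'.ring d := h1.tower_top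
    obtain ⟨y, hy⟩ := IsIntegrallyClosed.isIntegral_iff.1 h2
    rw [← hy]
    exact y.2
  -- the centre
  let ι : integralClosure v.ring F' →+* v'.ring :=
    (algebraMap (integralClosure v.ring F') F').codRestrict v'.ring fun d => hD d d.2
  have hι : ∀ d, ((ι d : v'.ring) : F') = (d : F') := fun _ => rfl
  obtain ⟨P, hPdef⟩ : ∃ P : Ideal (integralClosure v.ring F'), P = v'.maxI.comap ι := ⟨_, rfl⟩
  have hPp : P.IsPrime := by
    rw [hPdef]
    exact Ideal.comap_isPrime ι v'.maxI
  have hPm : ∀ d, d ∈ P ↔ ((d : F') = 0 ∨ 0 < v'.ord (d : F')) := by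
    intro d
    rw [hPdef, Ideal.mem_comap, v'.mem_maxI, hι]
  have hP0 : P ≠ ⊥ := by
    obtain ⟨t, ht⟩ := v.exists_ord_one
    have htr : t ∈ v.ring := by
      rw [v.mem_ring, ht]
      exact zero_le_one
    intro h0
    have h1 : algebraMap v.ring (integralClosure v.ring F') ⟨t, htr⟩ ∈ P := by
      rw [hPm]
      right
      show 0 < v'.ord (algebraMap F F' t)
      rw [hv', ht]
      have : (0 : ℤ) < e := by exact_mod_cast he
      linarith
    rw [h0, Ideal.mem_bot] at h1
    have h2 : (algebraMap v.ring (integralClosure v.ring F') ⟨t, htr⟩ : F') = 0 := by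
      rw [h1]
      rfl
    have h3 : algebraMap F F' t = 0 := h2
    rw [map_eq_zero] at h3
    rw [h3, v.ord_zero] at ht
    exact zero_ne_one ht
  have hdvr : IsDiscreteValuationRing (Localization.AtPrime P) :=
    IsLocalization.AtPrime.isDiscreteValuationRing_of_dedekind_domain _ hP0 _
  have hval : ValuationRing (Localization.AtPrime P) := inferInstance
  have hs0 : ∀ s : integralClosure v.ring F', s ∉ P → (s : F') ≠ 0 ∧ v'.ord (s : F') = 0 := by
    intro s hs
    rw [hPm, not_or] at hs
    exact ⟨hs.1, le_antisymm (not_lt.1 hs.2) (hD s s.2)⟩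
  -- fractions
  have hfr : ∀ z : F', 0 ≤ v'.ord z → ∃ a ∈ integralClosure v.ring F',
      ∃ c ∈ integralClosure v.ring F', c ≠ 0 ∧ v'.ord c = 0 ∧ z = a / c := by
    intro z hz
    by_cases hz0 : z = 0
    · exact ⟨0, Subalgebra.zero_mem _, 1, Subalgebra.one_mem _, one_ne_zero, v'.ord_one, by
        rw [hz0, zero_div]⟩
    obtain ⟨x, y, hy0, hxy⟩ := IsFractionRing.div_surjective (A := integralClosure v.ring F') z
    have hy1 : (y : F') ≠ 0 := by
      intro h
      exact nonZeroDivisors.ne_zero hy0 (Subtype.ext h)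
    have hxy' : (x : F') / (y : F') = z := hxy
    obtain ⟨s, hs, c, h⟩ := dvd_aux P x y
    obtain ⟨hs1, hs2⟩ := hs0 s hs
    rcases h with h | h
    · -- `s x = y c`
      have h' : (s : F') * x = y * c := congrArg Subtype.val h
      refine ⟨c, c.2, s, s.2, hs1, hs2, ?_⟩
      rw [← hxy', div_eq_div_iff hy1 hs1]
      linear_combination h'
    · have h' : (s : F') * y = x * c := congrArg Subtype.val h
      have hx1 : (x : F') ≠ 0 := by
        intro h0
        rw [h0, zero_div] at hxy'
        exact hz0 hxy'.symm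
      have hc1 : (c : F') ≠ 0 := by
        intro h0
        rw [h0, mul_zero] at h'
        exact (mul_ne_zero hs1 hy1) h'
      have hzz : z = s / c := by
        rw [← hxy', div_eq_div_iff hy1 hc1]
        linear_combination -h'
      have h1 : v'.ord (c : F') = 0 := by
        rw [hzz, v'.ord_div hs1 hc1, hs2] at hz
        have := hD c c.2
        omega
      exact ⟨s, s.2, c, c.2, hc1, h1, hzz⟩
  -- the model
  obtain ⟨G, hG⟩ := Module.finite_def.1 hfin
  obtain ⟨S, hS⟩ := hB.1
  let T : Set F' := (algebraMap F F' '' (S : Set F)) ∪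
    (Subtype.val '' (G : Set (integralClosure v.ring F')))
  have hBT : ∀ b ∈ B, algebraMap F F' b ∈ Algebra.adjoin k T := by
    intro b hb
    rw [← hS] at hb
    have h1 : (IsScalarTower.toAlgHom k F F') b ∈
        (Algebra.adjoin k (S : Set F)).map (IsScalarTower.toAlgHom k F F') :=
      Subalgebra.mem_map.2 ⟨b, hb, rfl⟩
    rw [AlgHom.map_adjoin] at h1
    exact Algebra.adjoin_mono Set.subset_union_left h1
  have hGT : ∀ g ∈ G, (g : F') ∈ Algebra.adjoin k T := fun g hg =>
    Algebra.subset_adjoin (Or.inr ⟨g, hg, rfl⟩)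
  have hcl : ∀ a : integralClosure v.ring F', ∃ b ∈ B, b ≠ 0 ∧ v.ord b = 0 ∧
      algebraMap F F' b * (a : F') ∈ Algebra.adjoin k T := by
    intro a
    have ha : a ∈ Submodule.span v.ring (G : Set (integralClosure v.ring F')) := by
      rw [hG]
      exact Submodule.mem_top
    induction ha using Submodule.span_induction with
    | mem x hx =>
      refine ⟨1, B.one_mem, one_ne_zero, v.ord_one, ?_⟩
      rw [map_one, one_mul]
      exact hGT x hx
    | zero =>
      refine ⟨1, B.one_mem, one_ne_zero, v.ord_one, ?_⟩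
      rw [ZeroMemClass.coe_zero, mul_zero]
      exact Subalgebra.zero_mem _
    | add x y _ _ hx hy =>
      obtain ⟨b, hb, hb0, hbv, hbx⟩ := hx
      obtain ⟨b', hb', hb0', hbv', hby⟩ := hy
      refine ⟨b * b', B.mul_mem hb hb', mul_ne_zero hb0 hb0', by
        rw [v.ord_mul b b' hb0 hb0', hbv, hbv', add_zero], ?_⟩
      have h1 : algebraMap F F' (b * b') * ((x + y : integralClosure v.ring F') : F') =
          algebraMap F F' b' * (algebraMap F F' b * (x : F')) +
            algebraMap F F' b * (algebraMap F F' b' * (y : F')) := by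
        rw [map_mul, AddMemClass.coe_add]
        ring
      rw [h1]
      exact Subalgebra.add_mem _ (Subalgebra.mul_mem _ (hBT b' hb') hbx)
        (Subalgebra.mul_mem _ (hBT b hb) hby)
    | smul r x _ hx =>
      obtain ⟨b, hb, hb0, hbv, hbx⟩ := hx
      obtain ⟨p, hp, q, hq, hq0, hqv, hpq⟩ := hB.2.2 (r : F) r.2
      refine ⟨b * q, B.mul_mem hb hq, mul_ne_zero hb0 hq0, by
        rw [v.ord_mul b q hb0 hq0, hbv, hqv, add_zero], ?_⟩
      have h1 : algebraMap F F' (b * q) * ((r • x : integralClosure v.ring F') : F') =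
          algebraMap F F' p * (algebraMap F F' b * (x : F')) := by
        have h2 : ((r • x : integralClosure v.ring F') : F') = algebraMap F F' (r : F) * (x : F') := by
          show r • (x : F') = _
          rw [Algebra.smul_def]
          rfl
        have h3 : q * (r : F) = p := by
          rw [hpq]
          field_simp
        rw [h2, map_mul, ← h3, map_mul]
        ring
      rw [h1]
      exact Subalgebra.mul_mem _ (hBT p hp) hbx
  refine ⟨Algebra.adjoin k T, ⟨?_, ?_, ?_⟩, hBT⟩
  · refine ⟨S.image (algebraMap F F') ∪ G.image Subtype.val, ?_⟩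
    congr 1
    rw [Finset.coe_union, Finset.coe_image, Finset.coe_image]
  · have h1 : Algebra.adjoin k T ≤ v'.ring := by
      refine Algebra.adjoin_le ?_
      rintro x (⟨s, hs, rfl⟩ | ⟨g, hg, rfl⟩)
      · show 0 ≤ v'.ord (algebraMap F F' s)
        rw [hv']
        have h2 : s ∈ B := by
          rw [← hS]
          exact Algebra.subset_adjoin hs
        exact mul_nonneg (Int.natCast_nonneg e) (hB.2.1 s h2)
      · exact hD g g.2
    exact fun b hb => h1 hb
  · intro z hz
    obtain ⟨a, ha, c, hc, hc0, hcv, hzac⟩ := hfr z hz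
    obtain ⟨b, hb, hb0, hbv, hba⟩ := hcl ⟨a, ha⟩
    obtain ⟨b', hb', hb0', hbv', hbc⟩ := hcl ⟨c, hc⟩
    have hb1 : algebraMap F F' b ≠ 0 := (map_ne_zero _).2 hb0
    have hb1' : algebraMap F F' b' ≠ 0 := (map_ne_zero _).2 hb0'
    have hord : ∀ u : F, v.ord u = 0 → v'.ord (algebraMap F F' u) = 0 := by
      intro u hu
      rw [hv', hu, mul_zero]
    refine ⟨algebraMap F F' b' * (algebraMap F F' b * a), Subalgebra.mul_mem _ (hBT b' hb') hba,
      algebraMap F F' b * (algebraMap F F' b' * c), Subalgebra.mul_mem _ (hBT b hb) hbc,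
      mul_ne_zero hb1 (mul_ne_zero hb1' hc0), ?_, ?_⟩
    · rw [v'.ord_mul _ _ hb1 (mul_ne_zero hb1' hc0), v'.ord_mul _ _ hb1' hc0, hord b hbv,
        hord b' hbv', hcv]
      norm_num
    · rw [hzac]
      field_simp

end Pool.Agent.LibK3
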