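import Pool.Agent.LibK3.BW9

/-!
ROW [K3B W11]. The maps `cMap (v.ringMap v' e hv') : ℂ ⊗ v.ring → ℂ ⊗ v'.ring` and `cMap j : ℂ ⊗ κ → ℂ ⊗ κ'`
(`j : κ → κ'` the map of the residue fields, `KVal.exists_resMap` of BV).

Proof. `cMap_comp`, `Phi_ringMap`: both sides are ring homomorphisms which agree on `c ⊗ₜ x`
(`TensorProduct.induction_on`, `cMap_tmul`, `Phi_tmul`, `ringMap_coe`, `hc`). `cMap_flat`:
`κ → κ'` is flat (field), base change: `ℂ ⊗_k κ' = (ℂ ⊗_k κ) ⊗_κ κ'`; e.g. give `κ'` the algebra structure over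
`κ` through `j`, choose a basis of `κ'` over `κ`; or `Algebra.TensorProduct.cancelBaseChange`,
`RingHom.Flat.isStableUnderBaseChange`, or `Module.Flat.of_isLocalizedModule`-free arguments: any proof.
`cen_comap` (the heart of BB6): `q = q'.comap (cMap j)` is a minimal prime (`comap_mem_minimalPrimes`); take `μ` from
`exists_cen`. For `x : L` nonzero with `μ.ord x = 0`: `x = Φ a / Φ b` with `cMap r b ∉ q` (`Cen.loc`), and
`μ.ord (Φ b) = 0`, so `μ.ord (Φ a) = 0`, `cMap r a ∉ q`; hence `cMap r' (cMap ringMap a) = cMap j (cMap r a) ∉ q'`, the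
same for `b`, so `μ'.ord (Φ' (cMap ringMap a)) = 0 = μ'.ord (Φ' (cMap ringMap b))` and
`μ'.ord (algebraMap L L' x) = 0`. With `t ∈ F`, `v.ord t = 1`: `μ'.ord t = v'.ord t = e` (`hμ'.ord`, `hc`, `hv'`); so
`μ'.ord (algebraMap L L' x) = e * μ.ord x` for all `x` (`x = t ^ n u`), i.e. `Over μ' μ e`.
-/

set_option autoImplicit false

open Pool.Agent.LibGMM Pool.Agent.LibCov80

open scoped TensorProduct

namespace Pool.Agent.LibK3

section base

variable {k : Type} [Field k] [Algebra k ℂ]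

theorem cMap_comp {A B C : Type} [CommRing A] [Algebra k A] [CommRing B] [Algebra k B]
    [CommRing C] [Algebra k C] (f : A →ₐ[k] B) (g : B →ₐ[k] C) (z : ℂ ⊗[k] A) :
    cMap g (cMap f z) = cMap (g.comp f) z := by
  induction z using TensorProduct.induction_on with
  | zero => simp only [map_zero]
  | tmul c x => rw [cMap_tmul, cMap_tmul, cMap_tmul]; rfl
  | add x y hx hy => rw [map_add, map_add, map_add, hx, hy]

theorem cMap_flat {κ κ' : Type} [Field κ] [Field κ'] [Algebra k κ] [Algebra k κ']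
    (j : κ →ₐ[k] κ') : (cMap j).toRingHom.Flat := by
  let _ : Algebra κ κ' := j.toRingHom.toAlgebra
  have : IsScalarTower k κ κ' := IsScalarTower.of_algebraMap_eq fun c => (j.commutes c).symm
  let f : κ ⊗[k] ℂ →ₐ[k] κ' ⊗[k] ℂ := Algebra.TensorProduct.map j (AlgHom.id k ℂ)
  let _ : Algebra (κ ⊗[k] ℂ) (κ' ⊗[k] ℂ) := f.toRingHom.toAlgebra
  have hf : ∀ z, algebraMap (κ ⊗[k] ℂ) (κ' ⊗[k] ℂ) z = f z := fun z => rfl
  have : IsScalarTower κ (κ ⊗[k] ℂ) (κ' ⊗[k] ℂ) := by
    refine IsScalarTower.of_algebraMap_eq fun x => ?_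
    rw [hf]
    rfl
  have hp : Algebra.IsPushout κ κ' (κ ⊗[k] ℂ) (κ' ⊗[k] ℂ) :=
    Algebra.IsPushout.tensorProduct_tensorProduct k ℂ κ κ' (by ext x; simp [hf, f])
  have hfl : (algebraMap (κ ⊗[k] ℂ) (κ' ⊗[k] ℂ)).Flat := by
    rw [RingHom.flat_algebraMap_iff]
    exact Module.Flat.isBaseChange κ (κ ⊗[k] ℂ) κ' (κ' ⊗[k] ℂ) hp.symm.out
  have h1 : (cMap j).toRingHom =
      (Algebra.TensorProduct.comm k κ' ℂ).toRingEquiv.toRingHom.comp
        ((algebraMap (κ ⊗[k] ℂ) (κ' ⊗[k] ℂ)).comp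
          (Algebra.TensorProduct.comm k ℂ κ).toRingEquiv.toRingHom) := by
    refine RingHom.ext fun z => ?_
    induction z using TensorProduct.induction_on with
    | zero => simp only [map_zero]
    | tmul c x => rfl
    | add x y hx hy => rw [map_add, map_add, hx, hy]
  rw [h1]
  refine RingHom.Flat.comp (RingHom.Flat.comp (RingHom.Flat.of_bijective ?_) hfl)
    (RingHom.Flat.of_bijective ?_)
  · exact (Algebra.TensorProduct.comm k ℂ κ).toRingEquiv.bijective
  · exact (Algebra.TensorProduct.comm k κ' ℂ).toRingEquiv.bijective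

end base

variable {k : Type} [Field k] [CharZero k] [Algebra k ℂ] {F L F' L' : Type} [Field F] [Field L]
  [Algebra k F] [Algebra ℂ L] [Algebra F L] [Field F'] [Field L'] [Algebra k F'] [Algebra ℂ L']
  [Algebra F' L'] [Algebra F F'] [IsScalarTower k F F'] [Algebra L L'] [IsScalarTower ℂ L L']

omit [CharZero k] in
theorem IsCx.Phi_ringMap (h : IsCx k F L) (h' : IsCx k F' L')
    (hc : ∀ z : F, algebraMap L L' (algebraMap F L z) = algebraMap F' L' (algebraMap F F' z))
    (v : KVal k F) (v' : KVal k F') (e : ℕ)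
    (hv' : ∀ z : F, v'.ord (algebraMap F F' z) = e * v.ord z) (z : ℂ ⊗[k] v.ring) :
    h'.Phi v'.ring (cMap (v.ringMap v' e hv') z) = algebraMap L L' (h.Phi v.ring z) := by
  induction z using TensorProduct.induction_on with
  | zero => simp only [map_zero]
  | tmul c x =>
    rw [cMap_tmul, h'.Phi_tmul, h.Phi_tmul, v.ringMap_coe, map_mul, hc,
      ← IsScalarTower.algebraMap_apply ℂ L L']
  | add x y hx hy => rw [map_add, map_add, map_add, map_add, hx, hy]

theorem cen_comap (h : IsCx k F L) (h' : IsCx k F' L')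
    (hc : ∀ z : F, algebraMap L L' (algebraMap F L z) = algebraMap F' L' (algebraMap F F' z))
    {v : KVal k F} {B : Subalgebra k F} (hB : v.On B) (v' : KVal k F') (e : ℕ) (he : 0 < e)
    (hv' : ∀ z : F, v'.ord (algebraMap F F' z) = e * v.ord z) {μ' : DVal L'}
    (hμ' : CxOver v' μ') {κ κ' : Type} [Field κ] [Field κ'] [Algebra k κ] [Algebra k κ']
    {r : v.ring →ₐ[k] κ} (hr : v.IsRes r) {r' : v'.ring →ₐ[k] κ'} (hr' : v'.IsRes r')
    {q' : Ideal (ℂ ⊗[k] κ')} (hq' : q' ∈ minimalPrimes (ℂ ⊗[k] κ'))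
    (hcen : Cen h' v' μ' r' q') : ∃ μ : DVal L, CxOver v μ ∧ Over μ' μ e := by
  obtain ⟨j, hj⟩ := v.exists_resMap v' e he hv' hr hr'
  have hq : q'.comap (cMap j).toRingHom ∈ minimalPrimes (ℂ ⊗[k] κ) :=
    comap_mem_minimalPrimes _ (cMap_flat j) q' hq'
  obtain ⟨μ, hμ, hcenμ⟩ := exists_cen h v B hB hr _ hq
  refine ⟨μ, hμ, he, ?_⟩
  have hinj : Function.Injective (algebraMap L L') := (algebraMap L L').injective
  -- an element outside of the centre
  have key : ∀ a : ℂ ⊗[k] v.ring, h.Phi v.ring a ≠ 0 → μ.ord (h.Phi v.ring a) = 0 →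
      μ'.ord (algebraMap L L' (h.Phi v.ring a)) = 0 := by
    intro a ha0 ha
    have h1 : cMap r a ∉ q'.comap (cMap j).toRingHom := by
      intro hmem
      rcases (hcenμ.pos a).2 hmem with h2 | h2
      · exact ha0 h2
      · omega
    have h2 : cMap r' (cMap (v.ringMap v' e hv') a) ∉ q' := by
      have h3 : cMap r' (cMap (v.ringMap v' e hv') a) = cMap j (cMap r a) := by
        rw [cMap_comp, cMap_comp]
        congr 1
        congr 1
        ext x
        exact (hj x).symm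
      rw [h3]
      exact h1
    have h4 : ¬ (h'.Phi v'.ring (cMap (v.ringMap v' e hv') a) = 0 ∨
        0 < μ'.ord (h'.Phi v'.ring (cMap (v.ringMap v' e hv') a))) := fun hcon =>
      h2 ((hcen.pos _).1 hcon)
    rw [not_or] at h4
    have h5 := hcen.nonneg (cMap (v.ringMap v' e hv') a)
    rw [← h.Phi_ringMap h' hc v v' e hv']
    omega
  have hunit : ∀ x : L, x ≠ 0 → μ.ord x = 0 → μ'.ord (algebraMap L L' x) = 0 := by
    intro x hx0 hx
    obtain ⟨a, b, hb, rfl⟩ := hcenμ.loc x hx.ge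
    have h1 : ¬ (h.Phi v.ring b = 0 ∨ 0 < μ.ord (h.Phi v.ring b)) := fun hcon =>
      hb ((hcenμ.pos b).1 hcon)
    rw [not_or] at h1
    have h2 := hcenμ.nonneg b
    have h3 : μ.ord (h.Phi v.ring b) = 0 := by omega
    have ha0 : h.Phi v.ring a ≠ 0 := fun h4 => hx0 (by rw [h4, zero_div])
    rw [μ.ord_div ha0 h1.1, h3, sub_zero] at hx
    rw [map_div₀, μ'.ord_div (fun h4 => ha0 (hinj (by rw [h4, map_zero])))
      (fun h4 => h1.1 (hinj (by rw [h4, map_zero]))), key a ha0 hx, key b h1.1 h3, sub_zero]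
  obtain ⟨t, ht⟩ := v.exists_ord_one
  have ht0 : t ≠ 0 := by
    rintro rfl
    rw [v.ord_zero] at ht
    omega
  have hT0 : algebraMap F L t ≠ 0 := fun h0 => ht0 ((algebraMap F L).injective (by rw [h0, map_zero]))
  have hT : μ.ord (algebraMap F L t) = 1 := by rw [hμ.ord, ht]
  have hT' : μ'.ord (algebraMap L L' (algebraMap F L t)) = e := by
    rw [hc, hμ'.ord, hv', ht, mul_one]
  intro x
  by_cases hx : x = 0
  · rw [hx, map_zero, μ'.ord_zero, μ.ord_zero, mul_zero]
  set n := μ.ord x with hn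
  have hTn : (algebraMap F L t) ^ n ≠ 0 := zpow_ne_zero _ hT0
  have hu0 : x / (algebraMap F L t) ^ n ≠ 0 := div_ne_zero hx hTn
  have hu : μ.ord (x / (algebraMap F L t) ^ n) = 0 := by
    rw [μ.ord_div hx hTn, μ.ord_zpow, hT, ← hn]
    ring
  have hxu : x = (algebraMap F L t) ^ n * (x / (algebraMap F L t) ^ n) := by
    rw [mul_div_cancel₀ _ hTn]
  have h6 := hunit _ hu0 hu
  rw [hxu, map_mul, μ'.ord_mul _ _ (fun h4 => hTn (hinj (by rw [h4, map_zero])))
    (fun h4 => hu0 (hinj (by rw [h4, map_zero]))), h6, map_zpow₀, μ'.ord_zpow, hT', add_zero,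
    mul_comm]

end Pool.Agent.LibK3
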