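import Pool.Agent.LibK3.BW8
import Pool.Agent.LibFB.Reg

/-!
ROW [K3B W9]. Every prime divisor over `v` has a centre, which is a minimal prime of `ℂ ⊗ κ`; the case
that `k` is algebraically closed in `κ`.

Proof. `exists_cen_of`: `q` = set of the `cMap r z` with `Φ z = 0 ∨ 0 < μ.ord (Φ z)` (`Φ = h.Phi v.ring`), i.e. the
image of the prime ideal `Q = {z | Φ z = 0 ∨ 0 < μ.ord (Φ z)}` of `ℂ ⊗ v.ring` under the surjection
`cMap r` (`Ideal.map`, `Ideal.mem_map_iff_of_surjective`, kernel `⊆ Q` by `hr.cMap_eq_zero` and `μ.ord t = 1`,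
so `cMap r z ∈ q ↔ z ∈ Q`; prime: `Ideal.map_isPrime_of_surjective`). `nonneg`: all
`μ.ord (Φ z) ≥ 0` (`TensorProduct.induction_on`: constants have order `0`, `hμ.ord`; `μ.ring` is a
subalgebra). `loc`: `hμ.loc B hB` and `cadj L B ≤ cadj L v.ring`, `exists_Phi`. Minimal: by
`Ideal.exists_minimalPrimes_le` there is a minimal prime `q₀ ≤ q`, `exists_cen` gives `μ₀` with centre `q₀`; if
`0 ≤ μ.ord x`, then `x = Φ a / Φ b`, `cMap r b ∉ q`, so `cMap r b ∉ q₀`, `μ₀.ord (Φ b) = 0`, `0 ≤ μ₀.ord x`: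
`dval_eq_of_le` gives `μ = μ₀`, and then `q = q₀` by `Cen.pos` (surjectivity of `cMap r`).
`resClosed_isDomain`: `hv` says that every element of `κ` which is algebraic over `k` is in `k`
(`hr.surj`, `hr.zero`, `Polynomial.aeval_algHom_apply`); `isDomain_regular` (LibFB/Reg).
`cen_bot`: a minimal prime of a domain is `⊥` (`IsDomain.minimalPrimes_eq_singleton_bot`).
`Cen.unique`: `Cen.loc`, `Cen.pos`, `Cen.nonneg` and `dval_eq_of_le`.
-/

set_option autoImplicit false

open Pool.Agent.LibGMM Pool.Agent.LibCov80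

open scoped TensorProduct

namespace Pool.Agent.LibK3

variable {k : Type} [Field k] [CharZero k] [Algebra k ℂ] {F L : Type} [Field F] [Field L]
  [Algebra k F] [Algebra ℂ L] [Algebra F L] {κ : Type} [Field κ] [Algebra k κ]

omit [CharZero k] in
/-- Comparison of two prime divisors whose centres are comparable. -/
theorem cen_le_ord (h : IsCx k F L) {v : KVal k F} {μ μ' : DVal L} {r : v.ring →ₐ[k] κ}
    {q q' : Ideal (ℂ ⊗[k] κ)} (hμ : Cen h v μ r q) (hμ' : Cen h v μ' r q') (hq : q' ≤ q) (x : L)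
    (hx : 0 ≤ μ.ord x) : 0 ≤ μ'.ord x := by
  obtain ⟨a, b, hb, rfl⟩ := hμ.loc x hx
  have h1 : ¬ (h.Phi v.ring b = 0 ∨ 0 < μ'.ord (h.Phi v.ring b)) := fun hc =>
    hb (hq ((hμ'.pos b).1 hc))
  rw [not_or] at h1
  have h2 := hμ'.nonneg b
  have h3 : μ'.ord (h.Phi v.ring b) = 0 := by omega
  by_cases ha : h.Phi v.ring a = 0
  · rw [ha, zero_div, μ'.ord_zero]
  · rw [μ'.ord_div ha h1.1, h3, sub_zero]
    exact hμ'.nonneg a

theorem exists_cen_of (h : IsCx k F L) {v : KVal k F} {B : Subalgebra k F} (hB : v.On B)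
    {μ : DVal L} (hμ : CxOver v μ) {r : v.ring →ₐ[k] κ} (hr : v.IsRes r) :
    ∃ q ∈ minimalPrimes (ℂ ⊗[k] κ), Cen h v μ r q := by
  have hnn : ∀ z : ℂ ⊗[k] v.ring, h.Phi v.ring z ∈ μ.ring := by
    intro z
    induction z using TensorProduct.induction_on with
    | zero => rw [map_zero]; exact μ.ring.zero_mem
    | tmul c x =>
      rw [h.Phi_tmul]
      refine μ.ring.mul_mem (μ.ring.algebraMap_mem c) ?_
      rw [DVal.mem_ring, hμ.ord]
      exact x.2
    | add x y hx hy => rw [map_add]; exact μ.ring.add_mem hx hy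
  have hnn' : ∀ z : ℂ ⊗[k] v.ring, 0 ≤ μ.ord (h.Phi v.ring z) := fun z => hnn z
  obtain ⟨t, -, ht⟩ := hB.exists_unif
  let t' : v.ring := ⟨t, by rw [v.mem_ring, ht]; exact zero_le_one⟩
  -- the ideal of the elements of positive order
  let Q : Ideal (ℂ ⊗[k] v.ring) :=
    { carrier := {z | h.Phi v.ring z = 0 ∨ 1 ≤ μ.ord (h.Phi v.ring z)}
      add_mem' := by
        intro a b ha hb
        show h.Phi v.ring (a + b) = 0 ∨ _
        rw [map_add]
        exact μ.ord_add_ge ha hb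
      zero_mem' := by
        left
        exact map_zero _
      smul_mem' := by
        intro c x hx
        show h.Phi v.ring (c * x) = 0 ∨ 1 ≤ μ.ord (h.Phi v.ring (c * x))
        rw [map_mul]
        by_cases h0 : h.Phi v.ring c = 0
        · left; rw [h0, zero_mul]
        rcases hx with hx | hx
        · left; rw [hx, mul_zero]
        by_cases h1 : h.Phi v.ring x = 0
        · left; rw [h1, mul_zero]
        right
        rw [μ.ord_mul _ _ h0 h1]
        have := hnn' c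
        omega }
  have hQ : ∀ z, z ∈ Q ↔ (h.Phi v.ring z = 0 ∨ 1 ≤ μ.ord (h.Phi v.ring z)) := fun z => Iff.rfl
  have hsurj : Function.Surjective (cMap r) := cMap_surjective r hr.surj
  let q : Ideal (ℂ ⊗[k] κ) := Q.map (cMap r).toRingHom
  have hmem : ∀ y, y ∈ q ↔ ∃ z, z ∈ Q ∧ cMap r z = y := fun y =>
    Ideal.mem_map_iff_of_surjective (cMap r).toRingHom hsurj
  have hqQ : ∀ z, cMap r z ∈ q ↔ z ∈ Q := by
    intro z
    constructor
    · intro hz
      obtain ⟨y, hy, hyz⟩ := (hmem _).1 hz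
      have h1 : cMap r (z - y) = 0 := by rw [map_sub, hyz, sub_self]
      obtain ⟨w, hw⟩ := (KVal.IsRes.cMap_eq_zero v hr t' ht (z - y)).1 h1
      have h2 : z - y ∈ Q := by
        rw [hw]
        refine Q.mul_mem_right _ ?_
        rw [hQ, h.Phi_tmul, map_one, one_mul, hμ.ord]
        right
        show 1 ≤ v.ord t
        rw [ht]
      have h3 : z = (z - y) + y := by ring
      rw [h3]
      exact Q.add_mem h2 hy
    · intro hz
      exact (hmem _).2 ⟨z, hz, rfl⟩
  have hone : ∀ z, (h.Phi v.ring z = 0 ∨ 0 < μ.ord (h.Phi v.ring z)) ↔ z ∈ Q := fun z => by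
    rw [hQ]
    exact Iff.rfl
  have hcen : Cen h v μ r q :=
    { nonneg := hnn'
      pos := fun z => by rw [hone, hqQ]
      loc := fun x hx => by
        obtain ⟨a, ha, b, hb, hb0, hbo, hxab⟩ := hμ.loc B hB x hx
        have hle : cadj L (B : Set F) ≤ cadj L (v.ring : Set F) :=
          Algebra.adjoin_mono (Set.image_mono hB.le)
        obtain ⟨a', ha'⟩ := h.exists_Phi v.ring a (hle ha)
        obtain ⟨b', hb'⟩ := h.exists_Phi v.ring b (hle hb)
        refine ⟨a', b', ?_, by rw [ha', hb', hxab]⟩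
        rw [hqQ, hQ, hb', not_or]
        exact ⟨hb0, by omega⟩ }
  have hprime : q.IsPrime := by
    refine ⟨?_, ?_⟩
    · intro htop
      have h1 : cMap r 1 ∈ q := by rw [htop]; exact Submodule.mem_top
      rw [hqQ, hQ, map_one, μ.ord_one] at h1
      rcases h1 with h1 | h1
      · exact one_ne_zero h1
      · omega
    · intro a b hab
      obtain ⟨a', rfl⟩ := hsurj a
      obtain ⟨b', rfl⟩ := hsurj b
      rw [← map_mul, hqQ, hQ, map_mul] at hab
      rw [hqQ, hqQ, hQ, hQ]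
      by_contra hcon
      rw [not_or, not_or, not_or] at hcon
      obtain ⟨⟨h1, h2⟩, h3, h4⟩ := hcon
      have h5 := hnn' a'
      have h6 := hnn' b'
      rcases hab with h7 | h7
      · exact (mul_ne_zero h1 h3) h7
      · rw [μ.ord_mul _ _ h1 h3] at h7
        omega
  obtain ⟨q₀, hq₀, hle⟩ := Ideal.exists_minimalPrimes_le (I := (⊥ : Ideal (ℂ ⊗[k] κ))) (J := q)
    bot_le
  obtain ⟨μ₀, -, hcen₀⟩ := exists_cen h v B hB hr q₀ hq₀
  have hμμ : μ = μ₀ := dval_eq_of_le (cen_le_ord h hcen hcen₀ hle)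
  have hqq : q = q₀ := by
    ext y
    obtain ⟨z, rfl⟩ := hsurj y
    rw [← hcen.pos, ← hcen₀.pos, hμμ]
  exact ⟨q, hqq ▸ hq₀, hcen⟩

theorem resClosed_isDomain {v : KVal k F} (hv : v.ResClosed) {r : v.ring →ₐ[k] κ}
    (hr : v.IsRes r) : IsDomain (ℂ ⊗[k] κ) := by
  refine LibFB.isDomain_regular fun b hb => ?_
  obtain ⟨x, rfl⟩ := hr.surj b
  obtain ⟨P, hP, hPx⟩ := hb
  rw [Polynomial.aeval_algHom_apply, hr.zero] at hPx
  have h1 : ((Polynomial.aeval x P : v.ring) : F) = Polynomial.aeval (x : F) P :=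
    (Polynomial.aeval_algHom_apply v.ring.val x P).symm
  rw [h1] at hPx
  obtain ⟨c, hc⟩ := hv (x : F) P x.2 hP hPx
  refine ⟨c, ?_⟩
  have h2 : r (x - algebraMap k v.ring c) = 0 := by
    rw [hr.zero]
    have h3 : ((x - algebraMap k v.ring c : v.ring) : F) = (x : F) - algebraMap k F c := rfl
    rw [h3]
    rcases hc with hc | hc
    · left; rw [hc, sub_self]
    · right; exact hc
  rw [map_sub, sub_eq_zero, AlgHom.commutes] at h2
  exact h2.symm

theorem cen_bot (h : IsCx k F L) {v : KVal k F} (hv : v.ResClosed) {B : Subalgebra k F}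
    (hB : v.On B) {μ : DVal L} (hμ : CxOver v μ) {r : v.ring →ₐ[k] κ} (hr : v.IsRes r) :
    Cen h v μ r ⊥ := by
  obtain ⟨q, hq, hcen⟩ := exists_cen_of h hB hμ hr
  have hd := resClosed_isDomain hv hr
  rw [IsDomain.minimalPrimes_eq_singleton_bot, Set.mem_singleton_iff] at hq
  rw [← hq]
  exact hcen

omit [CharZero k] in
theorem Cen.unique (h : IsCx k F L) {v : KVal k F} {μ μ' : DVal L} {r : v.ring →ₐ[k] κ}
    {q : Ideal (ℂ ⊗[k] κ)} (hμ : Cen h v μ r q) (hμ' : Cen h v μ' r q) : μ = μ' :=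
  dval_eq_of_le (cen_le_ord h hμ hμ' le_rfl)

end Pool.Agent.LibK3
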