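import Pool.Agent.LibK3.BW10
import Pool.Agent.LibK3.BW11
import Pool.Agent.LibK3.BW9

/-!
ROW [K3B W12] (= BB7). Residue degree one is kept.

Proof. A model `B'` of `v'`: `on_of_over'`. `v'.ResClosed`: if `z ∈ F'`, `P(z)` has positive order, take `w ∈ F` with
`z - w` of positive order (`hres`), then `P(w)` has positive order for `v'`, so for `v` (`hv'`, `0 < e`), and `hv` applies.
So the centres of `μ` and `μ'` are `⊥` (`cen_bot`). Let `z = Φ' a / Φ' b`, `cMap r' b ≠ 0` (`Cen.loc`; residue maps `r`, `r'` from `exists_res`). By `hres` and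
`TensorProduct.induction_on` there are `a₀, b₀ : ℂ ⊗ v.ring` with `cMap r' (cMap ringMap a₀) = cMap r' a`, the same for `b`.
`cMap r b₀ ≠ 0` (`exists_resMap`, `cMap_comp`), so `μ.ord (Φ b₀) = 0`, `Φ b₀ ≠ 0` (`Cen.pos`). `w = Φ a₀ / Φ b₀`. In `L'`:
`z - w = Φ' (a * cMap ringMap b₀ - cMap ringMap a₀ * b) / Φ' (b * cMap ringMap b₀)` (`Phi_ringMap`), the argument of the numerator is killed by
`cMap r'`, so the numerator is `0` or of positive order (`Cen.pos`); the denominator has order `0`.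
-/

set_option autoImplicit false

open Pool.Agent.LibGMM Pool.Agent.LibCov80

open scoped TensorProduct

namespace Pool.Agent.LibK3

variable {k : Type} [Field k] [CharZero k] [Algebra k ℂ] {F L F' L' : Type} [Field F] [Field L]
  [Algebra k F] [Algebra ℂ L] [Algebra F L] [Field F'] [Field L'] [Algebra k F'] [Algebra ℂ L']
  [Algebra F' L'] [Algebra F F'] [IsScalarTower k F F'] [FiniteDimensional F F'] [Algebra L L']
  [IsScalarTower ℂ L L']

omit [CharZero k] [Algebra k ℂ] [FiniteDimensional F F'] in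
private theorem resClosed_of {v : KVal k F} (hv : v.ResClosed) (v' : KVal k F') (e : ℕ)
    (he : 0 < e) (hv' : ∀ z : F, v'.ord (algebraMap F F' z) = e * v.ord z)
    (hres : ∀ z : F', 0 ≤ v'.ord z → ∃ w : F, 0 ≤ v.ord w ∧
      (z = algebraMap F F' w ∨ 0 < v'.ord (z - algebraMap F F' w))) : v'.ResClosed := by
  intro z P hz hP hPz
  obtain ⟨κ', _, _, r', hr'⟩ := v'.exists_res
  obtain ⟨w, hw, hzw⟩ := hres z hz
  have hw' : 0 ≤ v'.ord (algebraMap F F' w) := by
    rw [hv']
    exact mul_nonneg (Int.natCast_nonneg e) hw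
  let z' : v'.ring := ⟨z, hz⟩
  let w' : v'.ring := ⟨algebraMap F F' w, hw'⟩
  have h1 : r' z' = r' w' := by
    rw [← sub_eq_zero, ← map_sub, hr'.zero]
    rcases hzw with h | h
    · left
      show z - algebraMap F F' w = 0
      rw [h, sub_self]
    · exact Or.inr h
  have h2 : r' (Polynomial.aeval z' P) = 0 := by
    rw [hr'.zero]
    have h3 : ((Polynomial.aeval z' P : v'.ring) : F') = Polynomial.aeval z P := by
      have := Polynomial.aeval_algHom_apply v'.ring.val z' P
      exact this.symm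
    rw [h3]
    exact hPz
  have h4 : r' (Polynomial.aeval w' P) = 0 := by
    rw [← Polynomial.aeval_algHom_apply] at h2 ⊢
    rw [← h1]
    exact h2
  rw [hr'.zero] at h4
  have h5 : ((Polynomial.aeval w' P : v'.ring) : F') = algebraMap F F' (Polynomial.aeval w P) := by
    have h6 := Polynomial.aeval_algHom_apply v'.ring.val w' P
    have h7 := Polynomial.aeval_algHom_apply (IsScalarTower.toAlgHom k F F') w P
    exact h6.symm.trans h7
  rw [h5] at h4
  have he' : (0 : ℤ) < e := by exact_mod_cast he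
  obtain ⟨c, hc⟩ := hv w P hw hP (by
    rcases h4 with h | h
    · exact Or.inl ((map_eq_zero _).1 h)
    · right
      rw [hv'] at h
      by_contra h8
      push Not at h8
      nlinarith)
  refine ⟨c, ?_⟩
  have h9 : r' w' = algebraMap k κ' c := by
    have h10 : r' (algebraMap k v'.ring c) = algebraMap k κ' c := r'.commutes c
    rw [← h10, ← sub_eq_zero, ← map_sub, hr'.zero]
    have h11 : ((w' - algebraMap k v'.ring c : v'.ring) : F') =
        algebraMap F F' (w - algebraMap k F c) := by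
      rw [map_sub, ← IsScalarTower.algebraMap_apply k F F']
      rfl
    rw [h11]
    rcases hc with h | h
    · left
      rw [h, sub_self, map_zero]
    · right
      rw [hv']
      positivity
  have h12 : r' (z' - algebraMap k v'.ring c) = 0 := by
    rw [map_sub, h1, h9, r'.commutes, sub_self]
  rw [hr'.zero] at h12
  have h13 : ((z' - algebraMap k v'.ring c : v'.ring) : F') = z - algebraMap k F' c := rfl
  rw [h13] at h12
  rcases h12 with h | h
  · exact Or.inl (sub_eq_zero.1 h)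
  · exact Or.inr h

theorem resOne_cx' (h : IsCx k F L) (h' : IsCx k F' L')
    (hc : ∀ z : F, algebraMap L L' (algebraMap F L z) = algebraMap F' L' (algebraMap F F' z))
    {v : KVal k F} (hv : v.ResClosed) {B : Subalgebra k F} (hB : v.On B) (v' : KVal k F') (e : ℕ)
    (he : 0 < e) (hv' : ∀ z : F, v'.ord (algebraMap F F' z) = e * v.ord z)
    (hres : ∀ z : F', 0 ≤ v'.ord z → ∃ w : F, 0 ≤ v.ord w ∧
      (z = algebraMap F F' w ∨ 0 < v'.ord (z - algebraMap F F' w)))
    {μ : DVal L} {μ' : DVal L'} (hμ : CxOver v μ) (hμ' : CxOver v' μ') (z : L')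
    (hz : 0 ≤ μ'.ord z) : ∃ w : L, 0 ≤ μ.ord w ∧
      (z = algebraMap L L' w ∨ 0 < μ'.ord (z - algebraMap L L' w)) := by
  obtain ⟨B', hB', -⟩ := KVal.on_of_over' hB v' e he hv'
  have hvc' : v'.ResClosed := resClosed_of hv v' e he hv' hres
  obtain ⟨κ, _, _, r, hr⟩ := v.exists_res
  obtain ⟨κ', _, _, r', hr'⟩ := v'.exists_res
  have hcen := cen_bot h hv hB hμ hr
  have hcen' := cen_bot h' hvc' hB' hμ' hr'
  obtain ⟨j, hj⟩ := v.exists_resMap v' e he hv' hr hr'
  -- lifting
  have hlift : ∀ a : ℂ ⊗[k] v'.ring, ∃ a₀ : ℂ ⊗[k] v.ring,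
      cMap r' (cMap (v.ringMap v' e hv') a₀) = cMap r' a := by
    intro a
    induction a using TensorProduct.induction_on with
    | zero => exact ⟨0, by simp only [map_zero]⟩
    | tmul c x =>
      obtain ⟨w, hw, hxw⟩ := hres (x : F') x.2
      refine ⟨c ⊗ₜ[k] ⟨w, hw⟩, ?_⟩
      rw [cMap_tmul, cMap_tmul, cMap_tmul]
      congr 1
      rw [eq_comm, ← sub_eq_zero, ← map_sub, hr'.zero]
      rcases hxw with h1 | h1
      · left
        show (x : F') - algebraMap F F' w = 0
        rw [h1, sub_self]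
      · exact Or.inr h1
    | add x y hx hy =>
      obtain ⟨a, ha⟩ := hx
      obtain ⟨b, hb⟩ := hy
      exact ⟨a + b, by simp only [map_add, ha, hb]⟩
  obtain ⟨a, b, hb, hzab⟩ := hcen'.loc z hz
  obtain ⟨a₀, ha₀⟩ := hlift a
  obtain ⟨b₀, hb₀⟩ := hlift b
  have hcomp : ∀ y : ℂ ⊗[k] v.ring, cMap j (cMap r y) = cMap r' (cMap (v.ringMap v' e hv') y) := by
    intro y
    rw [cMap_comp, cMap_comp]
    congr 1
    congr 1
    exact AlgHom.ext hj
  rw [Ideal.mem_bot] at hb
  have hb1 : cMap r b₀ ≠ 0 := by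
    intro h0
    apply hb
    rw [← hb₀, ← hcomp, h0, map_zero]
  -- orders
  have hord : ∀ y : ℂ ⊗[k] v.ring, cMap r y ≠ 0 → h.Phi v.ring y ≠ 0 ∧
      μ.ord (h.Phi v.ring y) = 0 := by
    intro y hy
    have h1 := (hcen.pos y).not.2 (by rwa [Ideal.mem_bot])
    rw [not_or] at h1
    exact ⟨h1.1, le_antisymm (not_lt.1 h1.2) (hcen.nonneg y)⟩
  have hord' : ∀ y : ℂ ⊗[k] v'.ring, cMap r' y ≠ 0 → h'.Phi v'.ring y ≠ 0 ∧
      μ'.ord (h'.Phi v'.ring y) = 0 := by
    intro y hy
    have h1 := (hcen'.pos y).not.2 (by rwa [Ideal.mem_bot])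
    rw [not_or] at h1
    exact ⟨h1.1, le_antisymm (not_lt.1 h1.2) (hcen'.nonneg y)⟩
  obtain ⟨hb2, hb3⟩ := hord b₀ hb1
  obtain ⟨hb4, hb5⟩ := hord' b hb
  obtain ⟨hb6, hb7⟩ := hord' (cMap (v.ringMap v' e hv') b₀) (by rw [hb₀]; exact hb)
  have hΦ := h.Phi_ringMap h' hc v v' e hv'
  refine ⟨h.Phi v.ring a₀ / h.Phi v.ring b₀, ?_, ?_⟩
  · by_cases ha1 : h.Phi v.ring a₀ = 0
    · rw [ha1, zero_div, μ.ord_zero]
    · rw [DVal.ord_div μ ha1 hb2, hb3, sub_zero]
      exact hcen.nonneg a₀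
  · have hN : cMap r' (a * cMap (v.ringMap v' e hv') b₀ -
        cMap (v.ringMap v' e hv') a₀ * b) = 0 := by
      rw [map_sub, map_mul, map_mul, ha₀, hb₀, sub_self]
    have hN' := (hcen'.pos (a * cMap (v.ringMap v' e hv') b₀ -
        cMap (v.ringMap v' e hv') a₀ * b)).2 (by rw [hN]; exact Ideal.zero_mem _)
    have hE0 : h'.Phi v'.ring b * h'.Phi v'.ring (cMap (v.ringMap v' e hv') b₀) ≠ 0 :=
      mul_ne_zero hb4 hb6
    have hE1 : μ'.ord (h'.Phi v'.ring b * h'.Phi v'.ring (cMap (v.ringMap v' e hv') b₀)) = 0 := by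
      rw [μ'.ord_mul _ _ hb4 hb6, hb5, hb7, add_zero]
    have hz' : z - algebraMap L L' (h.Phi v.ring a₀ / h.Phi v.ring b₀) =
        h'.Phi v'.ring (a * cMap (v.ringMap v' e hv') b₀ -
          cMap (v.ringMap v' e hv') a₀ * b) /
        (h'.Phi v'.ring b * h'.Phi v'.ring (cMap (v.ringMap v' e hv') b₀)) := by
      rw [hzab, map_div₀, ← hΦ, ← hΦ, map_sub, map_mul, map_mul]
      field_simp
    rw [← sub_eq_zero, hz']
    rcases hN' with h1 | h1
    · left
      rw [h1, zero_div]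
    · right
      have h2 : h'.Phi v'.ring (a * cMap (v.ringMap v' e hv') b₀ -
          cMap (v.ringMap v' e hv') a₀ * b) ≠ 0 := by
        intro h3
        rw [h3, μ'.ord_zero] at h1
        exact lt_irrefl _ h1
      rw [DVal.ord_div μ' h2 hE0, hE1, sub_zero]
      exact h1

end Pool.Agent.LibK3
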