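import Pool.Agent.LibK3.BV

/-!
ROW [K3B W2]. The map `Φ : ℂ ⊗ S → L` is injective with image `ℂ S` (`cadj L S`).

Proof. Injective: every `z : ℂ ⊗ S` is `∑ i, c i ⊗ₜ b i` with `b : Fin n → S` linearly independent over
`k` (`TensorProduct.eq_repr_basis_right (Module.Basis.ofVectorSpace k S) z`; see `kyA4_rep` in
LibKY/A4 for the same lemma over `ℂ`); `Φ z = ∑ algebraMap ℂ L (c i) * algebraMap F L (b i)`
(`IsCx.Phi_tmul`); the `b i` are independent in `F` (`LinearIndependent.map'` with `S.val`,
injective), `h.indep` and `Fintype.linearIndependent_iff` give `c = 0`. Range: `cadj` is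
`Algebra.adjoin ℂ (algebraMap F L '' S)`: `⊆` by `TensorProduct.induction_on` (constants and the
generators are in the adjoin), `⊇` by `Algebra.adjoin_le` (`Φ (1 ⊗ₜ b) = b`).
-/

set_option autoImplicit false

open Pool.Agent.LibGMM Pool.Agent.LibCov80

open scoped TensorProduct

namespace Pool.Agent.LibK3

variable {k : Type} [Field k] [Algebra k ℂ] {F L : Type} [Field F] [Field L] [Algebra k F]
  [Algebra ℂ L] [Algebra F L]

theorem IsCx.Phi_injective (h : IsCx k F L) (S : Subalgebra k F) :
    Function.Injective (h.Phi S) := by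
  rw [injective_iff_map_eq_zero]
  intro z hz
  let b := Module.Basis.ofVectorSpace k S
  obtain ⟨c, rfl⟩ := TensorProduct.eq_repr_basis_right b z
  let e := c.support.equivFin.symm
  have h1 : LinearIndependent k fun i : Fin c.support.card => ((b (e i).1 : S) : F) := by
    have h2 := b.linearIndependent.comp (fun i : Fin c.support.card => (e i).1)
      (Subtype.val_injective.comp e.injective)
    exact h2.map' S.val.toLinearMap (LinearMap.ker_eq_bot.2 Subtype.val_injective)
  have h3 := Fintype.linearIndependent_iff.1 (h.indep _ _ h1) (fun i => c (e i).1) (by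
    rw [Finsupp.sum, map_sum] at hz
    simp only [h.Phi_tmul] at hz
    rw [← Finset.sum_coe_sort, ← Equiv.sum_comp e] at hz
    simp only [Algebra.smul_def]
    exact hz)
  have h4 : c = 0 := by
    ext i
    by_contra hi
    have h5 : i ∈ c.support := Finsupp.mem_support_iff.2 hi
    have h6 := h3 (e.symm ⟨i, h5⟩)
    rw [Equiv.apply_symm_apply] at h6
    exact hi h6
  rw [h4, Finsupp.sum_zero_index]

theorem IsCx.range_Phi (h : IsCx k F L) (S : Subalgebra k F) :
    (h.Phi S).range = cadj L (S : Set F) := by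
  apply le_antisymm
  · rintro _ ⟨z, rfl⟩
    change h.Phi S z ∈ _
    induction z using TensorProduct.induction_on with
    | zero => rw [map_zero]; exact zero_mem _
    | tmul c x =>
      rw [h.Phi_tmul]
      exact mul_mem (Subalgebra.algebraMap_mem _ c) (Algebra.subset_adjoin ⟨x, x.2, rfl⟩)
    | add x y hx hy => rw [map_add]; exact add_mem hx hy
  · refine Algebra.adjoin_le ?_
    rintro _ ⟨x, hx, rfl⟩
    refine ⟨1 ⊗ₜ ⟨x, hx⟩, ?_⟩
    change h.Phi S _ = _
    rw [h.Phi_tmul, map_one, one_mul]

theorem IsCx.Phi_mem (h : IsCx k F L) (S : Subalgebra k F) (z : ℂ ⊗[k] S) :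
    h.Phi S z ∈ cadj L (S : Set F) := by
  rw [← h.range_Phi S]
  exact ⟨z, rfl⟩

theorem IsCx.exists_Phi (h : IsCx k F L) (S : Subalgebra k F) (x : L)
    (hx : x ∈ cadj L (S : Set F)) : ∃ z : ℂ ⊗[k] S, h.Phi S z = x := by
  rw [← h.range_Phi S] at hx
  exact hx

end Pool.Agent.LibK3
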