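import Pool.Agent.LibK3.BW1
import Pool.Agent.LibK3.BW2

/-!
ROW [K3B W3]. The algebra `ℂ B` of a model `B`: Noetherian, field of fractions `L`, denominators.

Proof. `isNoetherian_cadj`: `B = adjoin k (finite set s)`, so `cadj L B = adjoin ℂ (image of s)`
(`Algebra.adjoin_le`: every element of `B` is in the adjoin of the image, by `Algebra.adjoin_induction`,
with `h.compat` for the constants of `k`); a finitely generated `ℂ`-algebra is Noetherian
(`Subalgebra.fg_iff_finiteType`, `Algebra.FiniteType.isNoetherianRing ℂ _`).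
`exists_denom0`: a finite set of elements of `v.ring` has a common denominator in `B` of order zero;
by induction (`Algebra.adjoin_induction` or `TensorProduct.induction_on` on `z`, product of the two
denominators for a sum; for `c ⊗ₜ x`, `x = a / b`, take `s = b`).
`cadj_frac`: `h.frac x = u / w`, `u, w ∈ cadj L univ`; every element of `cadj L univ` is `(element of
cadj L B) / (nonzero element of B)`: `Algebra.adjoin_induction`, `On.frac`.
-/

set_option autoImplicit false

open Pool.Agent.LibGMM Pool.Agent.LibCov80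

open scoped TensorProduct

namespace Pool.Agent.LibK3

variable {k : Type} [Field k] [Algebra k ℂ] {F L : Type} [Field F] [Field L] [Algebra k F]
  [Algebra ℂ L] [Algebra F L]

theorem IsCx.isNoetherian_cadj (h : IsCx k F L) (B : Subalgebra k F) (hB : B.FG) :
    IsNoetherianRing (cadj L (B : Set F)) := by
  obtain ⟨t, ht⟩ := hB
  have h1 : cadj L (B : Set F) = Algebra.adjoin ℂ (algebraMap F L '' (t : Set F)) := by
    apply le_antisymm
    · refine Algebra.adjoin_le ?_
      rintro _ ⟨x, hx, rfl⟩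
      change x ∈ B at hx
      rw [← ht] at hx
      change algebraMap F L x ∈ Algebra.adjoin ℂ (algebraMap F L '' (t : Set F))
      induction hx using Algebra.adjoin_induction with
      | mem x hx => exact Algebra.subset_adjoin ⟨x, hx, rfl⟩
      | algebraMap r => rw [h.compat]; exact Subalgebra.algebraMap_mem _ _
      | add x y _ _ hx hy => rw [map_add]; exact add_mem hx hy
      | mul x y _ _ hx hy => rw [map_mul]; exact mul_mem hx hy
    · refine Algebra.adjoin_mono (Set.image_mono ?_)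
      rw [← ht]
      exact Algebra.subset_adjoin
  have h2 : (cadj L (B : Set F)).FG := by
    classical
    refine ⟨t.image (algebraMap F L), ?_⟩
    rw [h1, Finset.coe_image]
  have h3 : Algebra.FiniteType ℂ (cadj L (B : Set F)) := (Subalgebra.fg_iff_finiteType _).1 h2
  exact Algebra.FiniteType.isNoetherianRing ℂ _

theorem exists_denom (h : IsCx k F L) {v : KVal k F} {B : Subalgebra k F} (hB : v.On B)
    (z : ℂ ⊗[k] v.ring) : ∃ s ∈ B, s ≠ 0 ∧ v.ord s = 0 ∧
      algebraMap F L s * h.Phi v.ring z ∈ cadj L (B : Set F) := by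
  induction z using TensorProduct.induction_on with
  | zero =>
    refine ⟨1, one_mem _, one_ne_zero, v.ord_one, ?_⟩
    rw [map_zero, mul_zero]
    exact zero_mem _
  | tmul c x =>
    obtain ⟨a, ha, b, hb, hb0, hbo, hx⟩ := hB.2.2 x x.2
    refine ⟨b, hb, hb0, hbo, ?_⟩
    rw [h.Phi_tmul, mul_left_comm, ← map_mul, hx, mul_div_cancel₀ _ hb0]
    exact mul_mem (Subalgebra.algebraMap_mem _ c) (Algebra.subset_adjoin ⟨a, ha, rfl⟩)
  | add x y hx hy =>
    obtain ⟨s, hs, hs0, hso, h1⟩ := hx
    obtain ⟨t, ht, ht0, hto, h2⟩ := hy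
    refine ⟨s * t, mul_mem hs ht, mul_ne_zero hs0 ht0, ?_, ?_⟩
    · rw [v.ord_mul _ _ hs0 ht0, hso, hto, add_zero]
    · have e1 : algebraMap F L (s * t) * h.Phi v.ring (x + y) =
          algebraMap F L t * (algebraMap F L s * h.Phi v.ring x) +
          algebraMap F L s * (algebraMap F L t * h.Phi v.ring y) := by
        rw [map_mul, map_add]; ring
      rw [e1]
      exact add_mem (mul_mem (Algebra.subset_adjoin ⟨t, ht, rfl⟩) h1)
        (mul_mem (Algebra.subset_adjoin ⟨s, hs, rfl⟩) h2)

omit [Algebra k ℂ] in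
private theorem BW3_frac {v : KVal k F} {B : Subalgebra k F} (hB : v.On B) (u : L)
    (hu : u ∈ cadj L (Set.univ : Set F)) : ∃ s ∈ B, s ≠ 0 ∧
      algebraMap F L s * u ∈ cadj L (B : Set F) := by
  unfold cadj at hu
  induction hu using Algebra.adjoin_induction with
  | mem x hx =>
    obtain ⟨y, -, rfl⟩ := hx
    obtain ⟨a, ha, b, hb, hb0, rfl⟩ := hB.frac y
    refine ⟨b, hb, hb0, ?_⟩
    rw [← map_mul, mul_div_cancel₀ _ hb0]
    exact Algebra.subset_adjoin ⟨a, ha, rfl⟩
  | algebraMap r =>
    refine ⟨1, one_mem _, one_ne_zero, ?_⟩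
    rw [map_one, one_mul]
    exact Subalgebra.algebraMap_mem _ r
  | add x y _ _ hx hy =>
    obtain ⟨s, hs, hs0, h1⟩ := hx
    obtain ⟨t, ht, ht0, h2⟩ := hy
    refine ⟨s * t, mul_mem hs ht, mul_ne_zero hs0 ht0, ?_⟩
    have e1 : algebraMap F L (s * t) * (x + y) =
        algebraMap F L t * (algebraMap F L s * x) +
        algebraMap F L s * (algebraMap F L t * y) := by
      rw [map_mul]; ring
    rw [e1]
    exact add_mem (mul_mem (Algebra.subset_adjoin ⟨t, ht, rfl⟩) h1)
      (mul_mem (Algebra.subset_adjoin ⟨s, hs, rfl⟩) h2)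
  | mul x y _ _ hx hy =>
    obtain ⟨s, hs, hs0, h1⟩ := hx
    obtain ⟨t, ht, ht0, h2⟩ := hy
    refine ⟨s * t, mul_mem hs ht, mul_ne_zero hs0 ht0, ?_⟩
    have e1 : algebraMap F L (s * t) * (x * y) =
        (algebraMap F L s * x) * (algebraMap F L t * y) := by
      rw [map_mul]; ring
    rw [e1]
    exact mul_mem h1 h2

theorem cadj_frac (h : IsCx k F L) {v : KVal k F} {B : Subalgebra k F} (hB : v.On B) (x : L) :
    ∃ a ∈ cadj L (B : Set F), ∃ b ∈ cadj L (B : Set F), b ≠ 0 ∧ x = a / b := by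
  obtain ⟨u, hu, w, hw, hw0, rfl⟩ := h.frac x
  obtain ⟨s, hs, hs0, h1⟩ := BW3_frac hB u hu
  obtain ⟨t, ht, ht0, h2⟩ := BW3_frac hB w hw
  have hs1 : algebraMap F L s ≠ 0 := (map_ne_zero _).2 hs0
  have ht1 : algebraMap F L t ≠ 0 := (map_ne_zero _).2 ht0
  refine ⟨algebraMap F L t * (algebraMap F L s * u),
    mul_mem (Algebra.subset_adjoin ⟨t, ht, rfl⟩) h1,
    algebraMap F L s * (algebraMap F L t * w),
    mul_mem (Algebra.subset_adjoin ⟨s, hs, rfl⟩) h2,
    mul_ne_zero hs1 (mul_ne_zero ht1 hw0), ?_⟩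
  field_simp

end Pool.Agent.LibK3
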