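import Pool.Agent.LibK3.BV

/-!
ROW [K3B W4]. The kernel of `ρ = cMap r : ℂ ⊗ v.ring → ℂ ⊗ κ` (`r : v.ring → κ` the residue map).

Proof. `cMap_surjective`: `TensorProduct.map_surjective` / `LinearMap.lTensor_surjective` (or
`TensorProduct.induction_on` on the target).
`cMap_eq_zero`: `ℂ` is free over the field `k`: write `z = ∑ i, c i ⊗ₜ x i` with `c : Fin n → ℂ` linearly
independent over `k` (`TensorProduct.eq_repr_basis_left (Module.Basis.ofVectorSpace k ℂ) z`);
`ρ z = ∑ c i ⊗ₜ r (x i) = 0`, so all `r (x i) = 0` (for every `i` there is a `k`-linear `φ : ℂ → k` with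
`φ (c j) = δ_ij`: apply `φ ⊗ id`; compare `kyA4_dual`, `kyA4_zero` in LibKY/A4), so `x i = t y i` with
`y i = x i / t ∈ v.ring` (`hr.zero`, `v.ord_div`; order at least one) and `z = (1 ⊗ₜ t) * ∑ c i ⊗ₜ y i`. The
converse: `r t = 0`.
`cMap_sum_ne`: as `hb` says, the residues `r (b i)` are linearly independent over `k` in `κ`
(`Fintype.linearIndependent_iff`, `hr.zero`); `∑ c i ⊗ₜ r (b i) = 0` implies `c = 0` as above with the roles
exchanged.
-/

set_option autoImplicit false

open Pool.Agent.LibGMM Pool.Agent.LibCov80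

open scoped TensorProduct

namespace Pool.Agent.LibK3

section lin

variable {k : Type} [Field k]

private theorem bw4_dual {B : Type} [AddCommGroup B] [Module k B] {n : ℕ} {b : Fin n → B}
    (hb : LinearIndependent k b) (i : Fin n) :
    ∃ φ : B →ₗ[k] k, φ (b i) = 1 ∧ ∀ j, j ≠ i → φ (b j) = 0 := by
  obtain ⟨φ, hφ⟩ := LinearMap.exists_extend
    ((Finsupp.lapply i : (Fin n →₀ k) →ₗ[k] k) ∘ₗ (hb.repr : _ →ₗ[k] (Fin n →₀ k)))
  have h1 : ∀ j, φ (b j) = (Finsupp.single j (1 : k)) i := by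
    intro j
    have h2 := congrArg (fun g => g ⟨b j, Submodule.subset_span ⟨j, rfl⟩⟩) hφ
    simp only [LinearMap.comp_apply, Submodule.subtype_apply] at h2
    rw [h2]
    simp only [Finsupp.lapply_apply]
    rw [hb.repr_eq_single j ⟨b j, Submodule.subset_span ⟨j, rfl⟩⟩ rfl]
  refine ⟨φ, ?_, fun j hj => ?_⟩
  · rw [h1, Finsupp.single_eq_same]
  · rw [h1, Finsupp.single_eq_of_ne (by simpa using hj.symm)]

private theorem bw4_zero_r {B M : Type} [AddCommGroup B] [Module k B] [AddCommGroup M] [Module k M]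
    {n : ℕ} {b : Fin n → B} (hb : LinearIndependent k b) {x : Fin n → M}
    (h : ∑ i, x i ⊗ₜ[k] b i = 0) (i : Fin n) : x i = 0 := by
  obtain ⟨φ, h1, h2⟩ := bw4_dual hb i
  have h3 := congrArg (fun z => TensorProduct.rid k M (LinearMap.lTensor M φ z)) h
  simp only [map_sum, LinearMap.lTensor_tmul, TensorProduct.rid_tmul, map_zero] at h3
  rw [Finset.sum_eq_single i] at h3
  · rwa [h1, one_smul] at h3
  · intro j _ hj
    rw [h2 j hj, zero_smul]
  · intro h4
    exact absurd (Finset.mem_univ i) h4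

private theorem bw4_zero_l {B M : Type} [AddCommGroup B] [Module k B] [AddCommGroup M] [Module k M]
    {n : ℕ} {b : Fin n → B} (hb : LinearIndependent k b) {x : Fin n → M}
    (h : ∑ i, b i ⊗ₜ[k] x i = 0) (i : Fin n) : x i = 0 := by
  obtain ⟨φ, h1, h2⟩ := bw4_dual hb i
  have h3 := congrArg (fun z => TensorProduct.lid k M (LinearMap.rTensor M φ z)) h
  simp only [map_sum, LinearMap.rTensor_tmul, TensorProduct.lid_tmul, map_zero] at h3
  rw [Finset.sum_eq_single i] at h3
  · rwa [h1, one_smul] at h3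
  · intro j _ hj
    rw [h2 j hj, zero_smul]
  · intro h4
    exact absurd (Finset.mem_univ i) h4

private theorem bw4_rep {B M : Type} [AddCommGroup B] [Module k B] [AddCommGroup M] [Module k M]
    (z : B ⊗[k] M) : ∃ (n : ℕ) (b : Fin n → B) (a : Fin n → M),
    LinearIndependent k b ∧ z = ∑ i, b i ⊗ₜ[k] a i := by
  classical
  let β := Module.Basis.ofVectorSpace k B
  obtain ⟨c, hc⟩ := TensorProduct.eq_repr_basis_left β z
  let e := c.support.equivFin
  refine ⟨c.support.card, fun i => β (e.symm i), fun i => c (e.symm i), ?_, ?_⟩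
  · refine β.linearIndependent.comp (fun i => ((e.symm i : c.support) : _)) ?_
    intro i j hij
    exact e.symm.injective (Subtype.ext hij)
  · rw [← hc, Finsupp.sum]
    rw [← Finset.sum_coe_sort c.support (fun k => β k ⊗ₜ c k)]
    exact (Equiv.sum_comp e.symm (fun k : c.support => β (k : _) ⊗ₜ c (k : _))).symm

end lin

variable {k : Type} [Field k] [Algebra k ℂ] {F : Type} [Field F] [Algebra k F] (v : KVal k F)
  {κ : Type} [Field κ] [Algebra k κ] {r : v.ring →ₐ[k] κ}

theorem cMap_surjective {A B : Type} [CommRing A] [Algebra k A] [CommRing B] [Algebra k B]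
    (f : A →ₐ[k] B) (hf : Function.Surjective f) : Function.Surjective (cMap f) := by
  intro z
  induction z using TensorProduct.induction_on with
  | zero => exact ⟨0, map_zero _⟩
  | tmul c x =>
    obtain ⟨y, rfl⟩ := hf x
    exact ⟨c ⊗ₜ[k] y, cMap_tmul f c y⟩
  | add x y hx hy =>
    obtain ⟨a, rfl⟩ := hx
    obtain ⟨b, rfl⟩ := hy
    exact ⟨a + b, map_add _ _ _⟩

theorem KVal.IsRes.cMap_eq_zero (hr : v.IsRes r) (t : v.ring) (ht : v.ord (t : F) = 1)
    (z : ℂ ⊗[k] v.ring) :
    cMap r z = 0 ↔ ∃ w : ℂ ⊗[k] v.ring, z = ((1 : ℂ) ⊗ₜ[k] t) * w := by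
  constructor
  · intro hz
    obtain ⟨n, c, x, hc, rfl⟩ := bw4_rep z
    rw [map_sum] at hz
    simp only [cMap_tmul] at hz
    have h1 : ∀ i, r (x i) = 0 := fun i => bw4_zero_l hc hz i
    have ht0 : (t : F) ≠ 0 := by
      intro h0
      rw [h0, v.ord_zero] at ht
      omega
    have h2 : ∀ i, ∃ y : v.ring, x i = t * y := by
      intro i
      rcases (hr.zero (x i)).1 (h1 i) with h | h
      · refine ⟨0, Subtype.ext ?_⟩
        rw [mul_zero, h]; rfl
      · have hx0 : (x i : F) ≠ 0 := by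
          intro h0
          rw [h0, v.ord_zero] at h
          omega
        refine ⟨⟨(x i : F) / t, ?_⟩, Subtype.ext ?_⟩
        · rw [v.mem_ring, v.ord_div hx0 ht0, ht]
          omega
        · rw [MulMemClass.coe_mul]
          field_simp
    choose y hy using h2
    refine ⟨∑ i, c i ⊗ₜ[k] y i, ?_⟩
    rw [Finset.mul_sum]
    refine Finset.sum_congr rfl fun i _ => ?_
    rw [Algebra.TensorProduct.tmul_mul_tmul, one_mul, ← hy i]
  · rintro ⟨w, rfl⟩
    have h1 : r t = 0 := (hr.zero t).2 (Or.inr (by rw [ht]; norm_num))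
    rw [map_mul, cMap_tmul, h1, TensorProduct.tmul_zero, zero_mul]

theorem KVal.IsRes.cMap_sum_ne (hr : v.IsRes r) {n : ℕ} (b : Fin n → F) (hb : v.ResIndep b)
    (c : Fin n → ℂ) (hc : c ≠ 0) :
    cMap r (∑ i, c i ⊗ₜ[k] (⟨b i, hb.1 i⟩ : v.ring)) ≠ 0 := by
  intro h0
  rw [map_sum] at h0
  simp only [cMap_tmul] at h0
  have hli : LinearIndependent k fun i => r (⟨b i, hb.1 i⟩ : v.ring) := by
    rw [Fintype.linearIndependent_iff]
    intro g hg
    have h1 : r (∑ i, algebraMap k v.ring (g i) * (⟨b i, hb.1 i⟩ : v.ring)) = 0 := by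
      rw [map_sum, ← hg]
      refine Finset.sum_congr rfl fun i _ => ?_
      rw [map_mul, AlgHom.commutes, Algebra.smul_def]
    rw [hr.zero] at h1
    have h2 : ((∑ i, algebraMap k v.ring (g i) * (⟨b i, hb.1 i⟩ : v.ring) : v.ring) : F)
        = ∑ i, algebraMap k F (g i) * b i := by
      rw [AddSubmonoidClass.coe_finsetSum]
      rfl
    rw [h2] at h1
    have h3 := hb.2 g h1
    intro i
    rw [h3]; rfl
  exact hc (funext fun i => bw4_zero_r hli h0 i)

end Pool.Agent.LibK3
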