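import Mathlib

/-!
ROW [K3B W5], only Mathlib. In characteristic zero `E ⊗ κ` is reduced for all field extensions `E`, `κ`
of `k`.

Proof. By `Algebra.IsGeometricallyReduced`-style reduction (`IsReduced.tensorProduct_of_flat_of_forall_fg`
in Mathlib/RingTheory/Flat/Basic.lean, line 640: it is enough to treat `E ⊗ B` for the finitely
generated subalgebras `B` of `κ`), and `B` is contained in the finitely generated field `κ₀ = Frac B`
(`E ⊗ B → E ⊗ κ₀` is injective, `E` is flat): so assume `κ = κ₀` is a finitely generated field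
extension. Choose a finite transcendence basis `x : Fin d → κ₀` (`exists_isTranscendenceBasis`), `K₁ = k(x)`;
`κ₀` is algebraic over `K₁`, finite and separable (characteristic zero), so formally unramified over `K₁`
(`Algebra.FormallyUnramified.of_isSeparable`). `E ⊗ MvPolynomial = MvPolynomial (Fin d) E` is a domain
with field of fractions `M`; `E ⊗_k κ₀ → M ⊗_{K₁} κ₀` is injective (both sides are
`(E ⊗_k K₁) ⊗_{K₁} κ₀` and `E ⊗_k K₁ → M` is injective: `E ⊗ K₁` is the localisation of
`MvPolynomial (Fin d) E` at the nonzero elements of `MvPolynomial (Fin d) k`; `κ₀` is flat over `K₁`);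
`M ⊗_{K₁} κ₀` is unramified over the field `M`, so it is reduced
(`Algebra.FormallyUnramified.isReduced_of_field`, needs `EssFiniteType`).

Other proof (perhaps shorter): if `z ∈ E ⊗ κ` is nilpotent, `z ^ 2 = 0`, `z ≠ 0`, take `z = ∑ i, e i ⊗ₜ b i` with
the number of terms minimal; or use derivations: `E ⊗ κ` is contained in `Ω' ⊗ κ` ... any proof is
welcome. (LibFB/Reg.lean, `exists_linDisj`, gives a common field `Ω` of `E` and `κ` only when `k` is
algebraically closed in `κ`; with `k'` = algebraic closure of `k` in `κ`: `E ⊗_k κ = (E ⊗_k k') ⊗_{k'} κ`, and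
`E ⊗_k k'` is a directed union of finite products of fields `E_i` containing `k'`... )
-/

set_option autoImplicit false

open scoped TensorProduct Polynomial

set_option synthInstance.maxHeartbeats 400000

namespace Pool.Agent.LibK3

/-- `G ⊗ L'` is reduced for every field `G` over `L` -/
private def BW5Red (L L' : Type) [Field L] [Field L'] [Algebra L L'] : Prop :=
  ∀ (G : Type) [Field G] [Algebra L G], IsReduced (G ⊗[L] L')

private theorem BW5_nil {R S T : Type} [CommRing R] [CommRing S] [CommRing T] [Algebra R S] [Algebra R T]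
    (F : S →ₐ[R] T) (hF : Function.Injective F) (w : S) (h : IsNilpotent (F w)) : IsNilpotent w := by
  obtain ⟨n, hn⟩ := h
  refine ⟨n, hF ?_⟩
  rw [map_pow, hn, map_zero]

private theorem BW5_inj {R S T : Type} [CommRing R] [CommRing S] [CommRing T] [Algebra R S] [Algebra R T]
    (F : S →ₐ[R] T) (hF : Function.Injective F) (h : IsReduced T) : IsReduced S :=
  isReduced_of_injective F hF

private theorem BW5_ring {L L' : Type} [Field L] [Field L'] [Algebra L L'] (h : BW5Red L L')
    (R : Type) [CommRing R] [Algebra L R] [IsReduced R] : IsReduced (R ⊗[L] L') := by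
  classical
  constructor
  intro z hz
  let b := Module.Basis.ofVectorSpace L L'
  let B := Algebra.TensorProduct.basis R b
  have key : B.repr z = 0 := by
    ext i
    rw [Finsupp.zero_apply]
    refine IsNilpotent.eq_zero ?_
    rw [nilpotent_iff_mem_prime]
    intro J hJ
    let G := FractionRing (R ⧸ J)
    let f : R →ₐ[L] G := (IsScalarTower.toAlgHom L (R ⧸ J) G).comp (Ideal.Quotient.mkₐ L J)
    let F : R ⊗[L] L' →ₐ[L] G ⊗[L] L' := Algebra.TensorProduct.map f (AlgHom.id L L')
    have hred : IsReduced (G ⊗[L] L') := h G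
    have hF : F z = 0 := (hz.map F).eq_zero
    have hco : ∀ y : R ⊗[L] L', (Algebra.TensorProduct.basis G b).repr (F y) i = f (B.repr y i) := by
      intro y
      induction y using TensorProduct.induction_on with
      | zero => simp
      | tmul r l =>
        simp only [F, B, Algebra.TensorProduct.map_tmul, Algebra.TensorProduct.basis_repr_tmul, AlgHom.id_apply,
          Finsupp.smul_apply, Finsupp.mapRange_apply, smul_eq_mul, map_mul, AlgHom.commutes]
      | add y z hy hz => simp only [map_add, Finsupp.add_apply, hy, hz]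
    have h1 := hco z
    rw [hF, map_zero, Finsupp.zero_apply] at h1
    have h2 : algebraMap (R ⧸ J) G (Ideal.Quotient.mk J (B.repr z i)) = 0 := h1.symm
    have h3 : Ideal.Quotient.mk J (B.repr z i) = 0 := by
      apply IsFractionRing.injective (R ⧸ J) G
      rw [h2, map_zero]
    exact Ideal.Quotient.eq_zero_iff_mem.1 h3
  exact (LinearEquiv.map_eq_zero_iff _).1 key

private theorem BW5_alg (L L' : Type) [Field L] [CharZero L] [Field L'] [Algebra L L'] [FiniteDimensional L L'] :
    BW5Red L L' := by
  intro G _ _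
  have h1 : Algebra.FormallyUnramified L L' := Algebra.FormallyUnramified.of_isSeparable L L'
  have h2 : Algebra.FormallyUnramified G (G ⊗[L] L') := inferInstance
  have h3 : Algebra.EssFiniteType G (G ⊗[L] L') := inferInstance
  exact Algebra.FormallyUnramified.isReduced_of_field G (G ⊗[L] L')

private theorem BW5_frac (L A F : Type) [Field L] [CommRing A] [IsDomain A] [Field F] [Algebra L A] [Algebra A F]
    [Algebra L F] [IsScalarTower L A F] [IsFractionRing A F]
    (hA : ∀ (G : Type) [Field G] [Algebra L G], IsReduced (G ⊗[L] A)) : BW5Red L F := by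
  intro G _ _
  have hredA : IsReduced (G ⊗[L] A) := hA G
  let ia : A →ₐ[L] F := IsScalarTower.toAlgHom L A _
  have hia : Function.Injective ia := IsFractionRing.injective A F
  let io : G ⊗[L] A →ₐ[L] G ⊗[L] F :=
    Algebra.TensorProduct.map (AlgHom.id L G) ia
  have hio : Function.Injective io :=
    Module.Flat.lTensor_preserves_injective_linearMap (M := G) ia.toLinearMap hia
  have hs : ∀ z : G ⊗[L] F, ∃ s : A, s ≠ 0 ∧ ∃ w : G ⊗[L] A,
      ((1 : G) ⊗ₜ[L] ia s) * z = io w := by
    intro z
    induction z using TensorProduct.induction_on with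
    | zero => exact ⟨1, one_ne_zero, 0, by simp⟩
    | tmul g y =>
      obtain ⟨⟨a, s⟩, has⟩ := IsLocalization.surj (nonZeroDivisors A) y
      refine ⟨s, nonZeroDivisors.ne_zero s.2, g ⊗ₜ a, ?_⟩
      have h1 : ia (s : A) * y = ia a := by
        rw [mul_comm]
        exact has
      simp only [io, Algebra.TensorProduct.tmul_mul_tmul, one_mul, h1, Algebra.TensorProduct.map_tmul,
        AlgHom.id_apply]
    | add y z hy hz =>
      obtain ⟨s1, hs1, w1, h1⟩ := hy
      obtain ⟨s2, hs2, w2, h2⟩ := hz
      refine ⟨s1 * s2, mul_ne_zero hs1 hs2, ((1 : G) ⊗ₜ[L] s2) * w1 + ((1 : G) ⊗ₜ[L] s1) * w2, ?_⟩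
      have e1 : ((1 : G) ⊗ₜ[L] ia (s1 * s2)) = ((1 : G) ⊗ₜ[L] ia s1) * ((1 : G) ⊗ₜ[L] ia s2) := by
        rw [Algebra.TensorProduct.tmul_mul_tmul, one_mul, map_mul]
      have e2 : ∀ s : A, io ((1 : G) ⊗ₜ[L] s) = (1 : G) ⊗ₜ[L] ia s := fun s => by
        simp only [io, Algebra.TensorProduct.map_tmul, AlgHom.id_apply]
      have f1 : io (((1 : G) ⊗ₜ[L] s2) * w1) = ((1 : G) ⊗ₜ[L] ia s2) * (((1 : G) ⊗ₜ[L] ia s1) * y) := by
        rw [map_mul, e2, h1]
      have f2 : io (((1 : G) ⊗ₜ[L] s1) * w2) = ((1 : G) ⊗ₜ[L] ia s1) * (((1 : G) ⊗ₜ[L] ia s2) * z) := by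
        rw [map_mul, e2, h2]
      rw [map_add, f1, f2, e1]
      ring
  constructor
  intro z hz
  obtain ⟨s, hs0, w, hw⟩ := hs z
  have h1 : IsNilpotent w := by
    have : IsNilpotent (io w) := by
      rw [← hw]
      exact (Commute.all _ _).isNilpotent_mul_left hz
    exact BW5_nil io hio w this
  rw [h1.eq_zero, map_zero] at hw
  have h2 : ia s ≠ 0 := fun h => hs0 (hia (by rw [h, map_zero]))
  have h3 : ((1 : G) ⊗ₜ[L] (ia s)⁻¹) * (((1 : G) ⊗ₜ[L] ia s) * z) = z := by
    rw [← mul_assoc, Algebra.TensorProduct.tmul_mul_tmul, one_mul, inv_mul_cancel₀ h2,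
      ← Algebra.TensorProduct.one_def, one_mul]
  rw [← h3, hw, mul_zero]

private theorem BW5_poly (L A : Type) [Field L] [CommRing A] [Algebra L A] (e1 : L[X] ≃ₐ[L] A)
    (G : Type) [Field G] [Algebra L G] : IsReduced (G ⊗[L] A) := by
  have e2 : Polynomial G ≃ₐ[L] G ⊗[L] A :=
    (polyEquivTensor L G).trans (Algebra.TensorProduct.congr (AlgEquiv.refl : G ≃ₐ[L] G) e1)
  exact isReduced_of_injective e2.symm e2.symm.injective

open scoped IntermediateField.algebraAdjoinAdjoin in
private theorem BW5_trans (L κ : Type) [Field L] [Field κ] [Algebra L κ] (x : κ) (hx : Transcendental L x) :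
    BW5Red L (IntermediateField.adjoin L {x}) := by
  refine BW5_frac L (Algebra.adjoin L {x}) (IntermediateField.adjoin L {x}) ?_
  intro G _ _
  exact BW5_poly L _ (Polynomial.algEquivOfTranscendental L x hx) G

private theorem BW5_sub (k B F : Type) [Field k] [CommRing B] [Algebra k B] [Field F] [Algebra k F]
    (i : B →ₐ[k] F) (hi : Function.Injective i) (hF : BW5Red k F) (E : Type) [Field E] [Algebra k E] :
    IsReduced (E ⊗[k] B) := by
  have h1 : IsReduced (E ⊗[k] F) := hF E
  have h2 : Function.Injective (Algebra.TensorProduct.map (AlgHom.id k E) i) :=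
    Module.Flat.lTensor_preserves_injective_linearMap (M := E) i.toLinearMap hi
  exact isReduced_of_injective _ h2

private theorem BW5_tower (k K L : Type) [Field k] [Field K] [Field L] [Algebra k K] [Algebra K L]
    [Algebra k L] [IsScalarTower k K L] (h : BW5Red k K) (hKx : BW5Red K L) : BW5Red k L := by
  intro G _ _
  have h1 : IsReduced (G ⊗[k] K) := h G
  have h2 : IsReduced (K ⊗[k] G) :=
    isReduced_of_injective (Algebra.TensorProduct.comm k K G) (Algebra.TensorProduct.comm k K G).injective
  have h3 : IsReduced ((K ⊗[k] G) ⊗[K] L) := BW5_ring hKx _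
  have h4 : IsReduced (L ⊗[K] (K ⊗[k] G)) :=
    isReduced_of_injective (Algebra.TensorProduct.comm K _ _) (Algebra.TensorProduct.comm K _ _).injective
  let e := Algebra.TensorProduct.cancelBaseChange k K K L G
  have h5 : IsReduced (L ⊗[k] G) :=
    isReduced_of_injective e.symm e.symm.injective
  exact isReduced_of_injective (Algebra.TensorProduct.comm k G L)
    (Algebra.TensorProduct.comm k G L).injective

private theorem BW5_step (k κ : Type) [Field k] [CharZero k] [Field κ] [Algebra k κ]
    (K : IntermediateField k κ) (x : κ) (h : BW5Red k K) :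
    BW5Red k (IntermediateField.adjoin K {x}) := by
  have hKx : BW5Red K (IntermediateField.adjoin K {x}) := by
    by_cases hx : IsAlgebraic K x
    · have : FiniteDimensional K (IntermediateField.adjoin K {x}) :=
        IntermediateField.adjoin.finiteDimensional hx.isIntegral
      exact BW5_alg K _
    · exact BW5_trans K κ x hx
  exact BW5_tower k K _ h hKx

theorem isReduced_tensor (k E κ : Type) [Field k] [CharZero k] [Field E] [Field κ] [Algebra k E]
    [Algebra k κ] : IsReduced (E ⊗[k] κ) := by
  refine IsReduced.tensorProduct_of_flat_of_forall_fg fun B hB => ?_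
  obtain ⟨S, hS⟩ := hB
  have hP : BW5Red k (IntermediateField.adjoin k (S : Set κ)) := by
    refine IntermediateField.induction_on_adjoin_finset S (fun K => BW5Red k K) ?_ ?_
    · intro G _ _
      have e : G ⊗[k] (⊥ : IntermediateField k κ) ≃ₐ[k] G :=
        (Algebra.TensorProduct.congr (AlgEquiv.refl : G ≃ₐ[k] G) (IntermediateField.botEquiv k κ)).trans
          (Algebra.TensorProduct.rid k k G)
      exact isReduced_of_injective e e.injective
    · intro K x _ hK
      exact BW5_step k κ K x hK
  have hle : B ≤ (IntermediateField.adjoin k (S : Set κ)).toSubalgebra := by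
    rw [← hS]
    exact IntermediateField.algebra_adjoin_le_adjoin k _
  exact BW5_sub k B (IntermediateField.adjoin k (S : Set κ)) (Subalgebra.inclusion hle)
    (Subalgebra.inclusion_injective hle) hP E

end Pool.Agent.LibK3
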