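import Mathlib

/-!
ROW [K3B W6], only Mathlib. Two lemmas of commutative algebra.

Proof. `dvr_of_principal`: `R = Localization.AtPrime P` is a Noetherian local domain
(`IsLocalization.isNoetherianRing`, `IsLocalization.isDomain_localization`), its maximal ideal is
generated by the image of `t`: a non-unit is `z / s` with `z ∈ P`; `s' z = t w`, `s' ∉ P`. It is not a field
(`t ≠ 0` is not a unit). `IsDiscreteValuationRing.TFAE R hnf`, entries 0 and 4 (see the end of
`dvr_of_maximal_colon` in Pool/Agent/LibGMM/G2a.lean).
`comap_mem_minimalPrimes`: going down for flat maps (`Algebra.HasGoingDown.of_flat`,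
`Ideal.exists_ideal_lt_liesOver_of_lt`): if `p₀ < q.comap f` is prime, there is a prime `q₀ < q` over
`p₀`, which contradicts the minimality of `q`.
-/

set_option autoImplicit false

namespace Pool.Agent.LibK3

theorem dvr_of_principal {A : Type} [CommRing A] [IsDomain A] [IsNoetherianRing A] (P : Ideal A)
    [P.IsPrime] (t : A) (ht : t ∈ P) (ht0 : t ≠ 0)
    (hP : ∀ z ∈ P, ∃ s, s ∉ P ∧ ∃ w, s * z = t * w) :
    IsDiscreteValuationRing (Localization.AtPrime P) := by
  have hLN : IsNoetherianRing (Localization.AtPrime P) :=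
    IsLocalization.isNoetherianRing P.primeCompl _ inferInstance
  have hLD : IsDomain (Localization.AtPrime P) :=
    IsLocalization.isDomain_localization P.primeCompl_le_nonZeroDivisors
  have hinj : Function.Injective (algebraMap A (Localization.AtPrime P)) :=
    IsLocalization.injective _ P.primeCompl_le_nonZeroDivisors
  have hc0 : algebraMap A (Localization.AtPrime P) t ≠ 0 := fun h =>
    ht0 (hinj (by rw [h, map_zero]))
  have hcm : algebraMap A (Localization.AtPrime P) t ∈
      IsLocalRing.maximalIdeal (Localization.AtPrime P) :=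
    (IsLocalization.AtPrime.to_map_mem_maximal_iff (Localization.AtPrime P) P t).2 ht
  have hnf : ¬ IsField (Localization.AtPrime P) := by
    intro hf
    have h1 := IsLocalRing.isField_iff_maximalIdeal_eq.1 hf
    rw [h1] at hcm
    exact hc0 hcm
  have hprin : (IsLocalRing.maximalIdeal (Localization.AtPrime P)).IsPrincipal := by
    refine ⟨algebraMap A (Localization.AtPrime P) t, le_antisymm ?_
      ((Ideal.span_singleton_le_iff_mem _).2 hcm)⟩
    intro d hd
    obtain ⟨⟨z, s⟩, hzs⟩ := IsLocalization.surj P.primeCompl d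
    simp only at hzs
    have hz : z ∈ P := by
      rw [← IsLocalization.AtPrime.to_map_mem_maximal_iff (Localization.AtPrime P) P z, ← hzs]
      exact Ideal.mul_mem_right _ _ hd
    obtain ⟨s', hs', w, hw⟩ := hP z hz
    have hu1 : IsUnit (algebraMap A (Localization.AtPrime P) s) := IsLocalization.map_units _ s
    have hu2 : IsUnit (algebraMap A (Localization.AtPrime P) s') :=
      IsLocalization.map_units _ (⟨s', hs'⟩ : P.primeCompl)
    have h1 : d * (algebraMap A (Localization.AtPrime P) s *
        algebraMap A (Localization.AtPrime P) s') =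
        algebraMap A (Localization.AtPrime P) t * algebraMap A (Localization.AtPrime P) w := by
      rw [← mul_assoc, hzs, ← map_mul, ← map_mul, ← hw, mul_comm]
    obtain ⟨v, hv⟩ := (hu1.mul hu2).exists_right_inv
    refine Ideal.mem_span_singleton.2 ⟨algebraMap A (Localization.AtPrime P) w * v, ?_⟩
    calc d = d * ((algebraMap A (Localization.AtPrime P) s *
          algebraMap A (Localization.AtPrime P) s') * v) := by rw [hv, mul_one]
      _ = (d * (algebraMap A (Localization.AtPrime P) s *
          algebraMap A (Localization.AtPrime P) s')) * v := by ring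
      _ = _ := by rw [h1]; ring
  exact ((IsDiscreteValuationRing.TFAE (Localization.AtPrime P) hnf).out 0 4).2 hprin

theorem comap_mem_minimalPrimes {R S : Type} [CommRing R] [CommRing S] (f : R →+* S)
    (hf : f.Flat) (q : Ideal S) (hq : q ∈ minimalPrimes S) : q.comap f ∈ minimalPrimes R := by
  let _ : Algebra R S := f.toAlgebra
  have _ : Module.Flat R S := hf
  have hqp : q.IsPrime := hq.1.1
  have hcp : (q.comap f).IsPrime := Ideal.comap_isPrime f q
  refine ⟨⟨hcp, bot_le⟩, ?_⟩
  rintro p ⟨hp, -⟩ hle
  by_contra hcon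
  have hlt : p < q.comap f := lt_of_le_not_ge hle hcon
  have hover : q.LiesOver (q.comap f) := ⟨rfl⟩
  obtain ⟨P, hPq, hPp, -⟩ := Ideal.exists_ideal_lt_liesOver_of_lt (R := R) (S := S) q hlt
  exact absurd (hq.2 ⟨hPp, bot_le⟩ hPq.le) (not_le_of_gt hPq)

/-- In a reduced ring, an element of a minimal prime is killed by an element outside of it. -/
theorem exists_mul_eq_zero_of_mem_minimalPrimes {R : Type} [CommRing R] [IsReduced R]
    (q : Ideal R) (hq : q ∈ minimalPrimes R) (z : R) (hz : z ∈ q) : ∃ s, s ∉ q ∧ s * z = 0 := by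
  have hqp : q.IsPrime := hq.1.1
  have h1 : ((⊥ : Ideal R).map (algebraMap R (Localization.AtPrime q))).radical =
      IsLocalRing.maximalIdeal (Localization.AtPrime q) := by
    rw [IsLocalization.AtPrime.radical_map_of_mem_minimalPrimes (Localization.AtPrime q) q ⊥ hq,
      IsLocalization.AtPrime.map_eq_maximalIdeal q (Localization.AtPrime q)]
  have h2 : algebraMap R (Localization.AtPrime q) z ∈
      IsLocalRing.maximalIdeal (Localization.AtPrime q) :=
    (IsLocalization.AtPrime.to_map_mem_maximal_iff (Localization.AtPrime q) q z).2 hz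
  rw [← h1, Ideal.map_bot] at h2
  obtain ⟨n, hn⟩ := h2
  rw [Ideal.mem_bot, ← map_pow, IsLocalization.map_eq_zero_iff q.primeCompl] at hn
  obtain ⟨⟨s, hs⟩, hsn⟩ := hn
  refine ⟨s, hs, ?_⟩
  have h3 : (s * z) ^ (n + 1) = 0 := by
    rw [mul_pow, pow_succ, pow_succ]
    calc s ^ n * s * (z ^ n * z) = s ^ n * z * (s * z ^ n) := by ring
      _ = 0 := by rw [hsn, mul_zero]
  exact pow_eq_zero_iff (Nat.succ_ne_zero n) |>.1 h3

end Pool.Agent.LibK3
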