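import Pool.Agent.LibK3.BW3
import Pool.Agent.LibK3.BW4
import Pool.Agent.LibGMM.Api

/-!
ROW [K3B W7]. Two lemmas on prime divisors.
-/

set_option autoImplicit false

open Pool.Agent.LibGMM Pool.Agent.LibCov80

open scoped TensorProduct

namespace Pool.Agent.LibK3

theorem dval_eq_of_le {L : Type} [Field L] [Algebra ℂ L] {μ μ' : DVal L}
    (h : ∀ x, 0 ≤ μ.ord x → 0 ≤ μ'.ord x) : μ = μ' := by
  have h0 : ∀ x, x ≠ 0 → μ.ord x = 0 → μ'.ord x = 0 := by
    intro x hx hx0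
    have h1 := h x (by omega)
    have h2 := h x⁻¹ (by rw [DVal.ord_inv, hx0]; simp)
    rw [DVal.ord_inv] at h2
    omega
  obtain ⟨t, ht⟩ := μ.exists_ord_one
  have ht0 : t ≠ 0 := by rintro rfl; rw [μ.ord_zero] at ht; omega
  have hs : 0 ≤ μ'.ord t := h t (by omega)
  have hk : ∀ x, x ≠ 0 → μ'.ord x = μ.ord x * μ'.ord t := by
    intro x hx
    have hp : t ^ (-μ.ord x) ≠ 0 := zpow_ne_zero _ ht0
    have h1 : μ.ord (x * t ^ (-μ.ord x)) = 0 := by
      rw [μ.ord_mul _ _ hx hp, DVal.ord_zpow, ht]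
      ring
    have h2 := h0 _ (mul_ne_zero hx hp) h1
    rw [μ'.ord_mul _ _ hx hp, DVal.ord_zpow] at h2
    linarith
  have h1 : μ'.ord t = 1 := by
    obtain ⟨s, hs1⟩ := μ'.exists_ord_one
    have hs0 : s ≠ 0 := by rintro rfl; rw [μ'.ord_zero] at hs1; omega
    have h2 := hk s hs0
    rw [hs1] at h2
    have h3 : μ'.ord t ∣ 1 := ⟨μ.ord s, by rw [mul_comm]; exact h2⟩
    exact Int.eq_one_of_dvd_one hs h3
  have he : μ.ord = μ'.ord := by
    funext x
    by_cases hx : x = 0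
    · rw [hx, μ.ord_zero, μ'.ord_zero]
    · rw [hk x hx, h1, mul_one]
  cases μ
  cases μ'
  congr

variable {k : Type} [Field k] [Algebra k ℂ] {F L : Type} [Field F] [Field L] [Algebra k F]
  [Algebra ℂ L] [Algebra F L]

theorem CxOver.of_one' (h : IsCx k F L) (v : KVal k F) (B : Subalgebra k F) (hB : v.On B)
    (μ : DVal L) (hμ : ∀ z : F, μ.ord (algebraMap F L z) = v.ord z)
    (hloc : ∀ z, 0 ≤ μ.ord z →
      ∃ a ∈ cadj L (B : Set F), ∃ b ∈ cadj L (B : Set F), b ≠ 0 ∧ μ.ord b = 0 ∧ z = a / b) :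
    CxOver v μ := by
  refine ⟨hμ, fun B' hB' z hz => ?_⟩
  obtain ⟨a, ha, b, hb, hb0, hb1, rfl⟩ := hloc z hz
  have hmono : cadj L (B : Set F) ≤ cadj L (v.ring : Set F) :=
    Algebra.adjoin_mono (Set.image_mono fun x hx => hB.le hx)
  obtain ⟨a', rfl⟩ := h.exists_Phi v.ring a (hmono ha)
  obtain ⟨b', rfl⟩ := h.exists_Phi v.ring b (hmono hb)
  obtain ⟨s, hs, hs0, hs1, has⟩ := exists_denom h hB' a'
  obtain ⟨s', hs', hs0', hs1', hbs⟩ := exists_denom h hB' b'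
  have hmem : ∀ x ∈ B', algebraMap F L x ∈ cadj L (B' : Set F) := fun x hx =>
    Algebra.subset_adjoin ⟨x, hx, rfl⟩
  have hne : algebraMap F L s ≠ 0 := by
    rw [Ne, map_eq_zero]; exact hs0
  have hne' : algebraMap F L s' ≠ 0 := by
    rw [Ne, map_eq_zero]; exact hs0'
  refine ⟨algebraMap F L s' * (algebraMap F L s * h.Phi v.ring a'),
    Subalgebra.mul_mem _ (hmem _ hs') has,
    algebraMap F L s * (algebraMap F L s' * h.Phi v.ring b'),
    Subalgebra.mul_mem _ (hmem _ hs) hbs, mul_ne_zero hne (mul_ne_zero hne' hb0), ?_, ?_⟩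
  · rw [μ.ord_mul _ _ hne (mul_ne_zero hne' hb0), μ.ord_mul _ _ hne' hb0, hμ, hμ, hs1, hs1', hb1]
    simp
  · field_simp

end Pool.Agent.LibK3
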