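import Pool.Agent.LibGMM.G2b
import Pool.Agent.LibK3.BW4
import Pool.Agent.LibK3.BW5
import Pool.Agent.LibK3.BW6
import Pool.Agent.LibK3.BW7

/-!
ROW [K3B W8], strong. A minimal prime of `ℂ ⊗ κ` is the centre of a prime divisor over `v`.

Proof. `A = cadj L B : Subalgebra ℂ L` (Noetherian, `isNoetherian_cadj`; field of fractions `L`, `cadj_frac`).
Every element of `A` is in `cadj L v.ring` (`On.le`, `Algebra.adjoin_mono`), so it is `h.Phi v.ring z` for a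
unique `z`: a ring homomorphism `ι : A → ℂ ⊗ v.ring` (inverse of `h.Phi v.ring` on its range, e.g.
`(AlgEquiv.ofInjective (h.Phi v.ring) _).symm` composed with an inclusion of subalgebras). Let
`P = q.comap (cMap r ∘ ι)`, a prime ideal of `A`. Let `t ∈ B`, `v.ord t = 1` (`On.exists_unif`), `t' ∈ A` its image in `L`.
`dvr_of_principal` for `P`, `t'`: `t' ∈ P` since `cMap r (1 ⊗ₜ t) = 0`. If `z ∈ P`, `z = Φ z'`, then
`cMap r z' ∈ q`; `ℂ ⊗ κ` is reduced (`isReduced_tensor`), `exists_mul_eq_zero_of_mem_minimalPrimes`: `s₀ ∉ q`,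
`s₀ * cMap r z' = 0`, `s₀ = cMap r s'`, so `s' z' = (1 ⊗ₜ t) w'` (`hr.cMap_eq_zero`). With `exists_denom` choose
`b₁, b₂ ∈ B` of order `0` with `b₁ Φ s' ∈ A`, `b₂ Φ w' ∈ A`; `s = b₁ b₂ Φ s' ∉ P` (because
`cMap r (1 ⊗ₜ b) = 1 ⊗ₜ r b` is a unit if `v.ord b = 0`), `w = b₁ b₂ Φ w'`. So `dval_of_dvr`
(LibGMM/G2b) gives `μ : DVal L` with centre `P` on `A` and ring the localisation of `A` at `P`.
`μ.ord b = 0` for `b ∈ B` with `v.ord b = 0`, `b ≠ 0`; so also for `b ∈ F` with `v.ord b = 0` (`On`). `μ.ord t = 1`: let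
`μ.ord π = 1`, `π = a / b`, `b ∉ P`, so `a ∈ P`, `s a = t w` with `s ∉ P`: `1 = μ.ord a ≥ μ.ord t ≥ 1`. Hence `μ.ord z = v.ord z`
for `z ∈ F` (`z = t ^ n u`). `CxOver`: `of_one'`. `Cen`: for `z : ℂ ⊗ v.ring` take `s ∈ B` of order `0` with
`s Φ z ∈ A` (`exists_denom`); `μ.ord (s Φ z) = μ.ord (Φ z)`, and `s Φ z ∈ P` iff `cMap r z ∈ q` (unit). `loc`: from the
last statement of `dval_of_dvr`.
Please prove first `exists_cen_prime` (the prime ideal and its DVR property), then the rest.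
-/

set_option autoImplicit false

open Pool.Agent.LibGMM Pool.Agent.LibCov80

open scoped TensorProduct

namespace Pool.Agent.LibK3

variable {k : Type} [Field k] [CharZero k] [Algebra k ℂ] {F L : Type} [Field F] [Field L]
  [Algebra k F] [Algebra ℂ L] [Algebra F L] {κ : Type} [Field κ] [Algebra k κ]

omit [CharZero k] in
private theorem bw8_pre (h : IsCx k F L) {v : KVal k F} {B : Subalgebra k F} (hB : v.On B)
    (a : cadj L (B : Set F)) : ∃ z : ℂ ⊗[k] v.ring, h.Phi v.ring z = a := by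
  refine h.exists_Phi v.ring _ ?_
  exact Algebra.adjoin_mono (Set.image_mono hB.le) a.2

omit [CharZero k] in
private theorem bw8_ring (h : IsCx k F L) {v : KVal k F} {B : Subalgebra k F} (hB : v.On B) :
    ∃ ι : cadj L (B : Set F) →+* ℂ ⊗[k] v.ring, ∀ a, h.Phi v.ring (ι a) = a := by
  choose ι hι using bw8_pre h hB
  have hinj := h.Phi_injective v.ring
  refine ⟨{ toFun := ι, map_one' := hinj ?_, map_mul' := fun a b => hinj ?_, map_zero' := hinj ?_,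
            map_add' := fun a b => hinj ?_ }, hι⟩
  · rw [hι, map_one]; rfl
  · rw [hι, map_mul, hι, hι]; rfl
  · rw [hι, map_zero]; rfl
  · rw [hι, map_add, hι, hι]; rfl

omit [CharZero k] in
private theorem bw8_alg (h : IsCx k F L) {v : KVal k F} {x : F} (hx : x ∈ v.ring) :
    algebraMap F L x = h.Phi v.ring ((1 : ℂ) ⊗ₜ[k] (⟨x, hx⟩ : v.ring)) := by
  rw [h.Phi_tmul, map_one, one_mul]

omit [CharZero k] in
private theorem bw8_unit {v : KVal k F} {r : v.ring →ₐ[k] κ} (hr : v.IsRes r) {x : F}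
    (hx : x ∈ v.ring) (h0 : x ≠ 0) (h1 : v.ord x = 0) :
    IsUnit (cMap r ((1 : ℂ) ⊗ₜ[k] (⟨x, hx⟩ : v.ring))) := by
  have h2 : r ⟨x, hx⟩ ≠ 0 := hr.ne_zero h0 h1
  refine IsUnit.of_mul_eq_one ((1 : ℂ) ⊗ₜ[k] (r ⟨x, hx⟩)⁻¹) ?_
  rw [cMap_tmul, Algebra.TensorProduct.tmul_mul_tmul, mul_inv_cancel₀ h2, one_mul]
  rfl

/-- The centre on `ℂ B`, and its local ring. -/
theorem exists_cen_prime (h : IsCx k F L) (v : KVal k F) (B : Subalgebra k F) (hB : v.On B)
    {r : v.ring →ₐ[k] κ} (hr : v.IsRes r) (q : Ideal (ℂ ⊗[k] κ))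
    (hq : q ∈ minimalPrimes (ℂ ⊗[k] κ)) :
    ∃ (P : Ideal (cadj L (B : Set F))) (_ : P.IsPrime),
      (∀ (a : cadj L (B : Set F)) (z : ℂ ⊗[k] v.ring), h.Phi v.ring z = a →
        (a ∈ P ↔ cMap r z ∈ q)) ∧
      IsDiscreteValuationRing (Localization.AtPrime P) ∧
      ∀ t : cadj L (B : Set F), (∃ t₀ : F, v.ord t₀ = 1 ∧ (t : L) = algebraMap F L t₀) →
        ∀ z ∈ P, ∃ s, s ∉ P ∧ ∃ w, s * z = t * w := by
  have hqp : q.IsPrime := hq.1.1
  obtain ⟨ι, hι⟩ := bw8_ring h hB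
  have hinj := h.Phi_injective v.ring
  have hmemB : ∀ b : F, b ∈ B → algebraMap F L b ∈ cadj L (B : Set F) := fun b hb =>
    Algebra.subset_adjoin ⟨b, hb, rfl⟩
  let P : Ideal (cadj L (B : Set F)) := q.comap ((cMap r).toRingHom.comp ι)
  have hPp : P.IsPrime := Ideal.IsPrime.comap _
  have hP : ∀ (a : cadj L (B : Set F)) (z : ℂ ⊗[k] v.ring), h.Phi v.ring z = a →
        (a ∈ P ↔ cMap r z ∈ q) := by
    intro a z hz
    have h1 : ι a = z := hinj (by rw [hι, hz])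
    rw [← h1]
    exact Ideal.mem_comap
  have hloc : ∀ t : cadj L (B : Set F), (∃ t₀ : F, v.ord t₀ = 1 ∧ (t : L) = algebraMap F L t₀) →
        ∀ z ∈ P, ∃ s, s ∉ P ∧ ∃ w, s * z = t * w := by
    rintro t ⟨t₀, ht₀, ht⟩ z hz
    have ht₀' : t₀ ∈ v.ring := by rw [v.mem_ring, ht₀]; norm_num
    have hred : IsReduced (ℂ ⊗[k] κ) := isReduced_tensor k ℂ κ
    have hz1 : cMap r (ι z) ∈ q := (hP z _ (hι z)).1 hz
    obtain ⟨s₀, hs₀, hs₁⟩ := exists_mul_eq_zero_of_mem_minimalPrimes q hq _ hz1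
    obtain ⟨s', rfl⟩ := cMap_surjective r hr.surj s₀
    rw [← map_mul] at hs₁
    obtain ⟨w', hw'⟩ := (hr.cMap_eq_zero v ⟨t₀, ht₀'⟩ ht₀ _).1 hs₁
    obtain ⟨b₁, hb₁, hb₁0, hb₁v, hs2⟩ := exists_denom h hB s'
    obtain ⟨b₂, hb₂, hb₂0, hb₂v, hw2⟩ := exists_denom h hB w'
    have hbm : b₁ * b₂ ∈ v.ring := v.ring.mul_mem (hB.le hb₁) (hB.le hb₂)
    have hbv : v.ord (b₁ * b₂) = 0 := by rw [v.ord_mul _ _ hb₁0 hb₂0, hb₁v, hb₂v, add_zero]
    have hsA : algebraMap F L (b₁ * b₂) * h.Phi v.ring s' ∈ cadj L (B : Set F) := by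
      have h1 := (cadj L (B : Set F)).mul_mem (hmemB b₂ hb₂) hs2
      rw [map_mul]
      convert h1 using 1
      ring
    have hwA : algebraMap F L (b₁ * b₂) * h.Phi v.ring w' ∈ cadj L (B : Set F) := by
      have h1 := (cadj L (B : Set F)).mul_mem (hmemB b₁ hb₁) hw2
      rw [map_mul]
      convert h1 using 1
      ring
    refine ⟨⟨_, hsA⟩, ?_, ⟨_, hwA⟩, ?_⟩
    · have h1 : h.Phi v.ring (((1 : ℂ) ⊗ₜ[k] (⟨b₁ * b₂, hbm⟩ : v.ring)) * s') =
          ((⟨_, hsA⟩ : cadj L (B : Set F)) : L) := by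
        rw [map_mul, ← bw8_alg h hbm]
      rw [hP _ _ h1, map_mul]
      intro h2
      rcases hqp.mem_or_mem h2 with h3 | h3
      · exact hqp.ne_top (Ideal.eq_top_of_isUnit_mem _ h3
          (bw8_unit hr hbm (mul_ne_zero hb₁0 hb₂0) hbv))
      · exact hs₀ h3
    · apply Subtype.ext
      rw [MulMemClass.coe_mul, MulMemClass.coe_mul, ht, ← hι z, bw8_alg h ht₀']
      have h1 := congrArg (h.Phi v.ring) hw'
      rw [map_mul, map_mul] at h1
      linear_combination (algebraMap F L (b₁ * b₂)) * h1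
  refine ⟨P, hPp, hP, ?_, hloc⟩
  have hN : IsNoetherianRing (cadj L (B : Set F)) := h.isNoetherian_cadj B hB.1
  obtain ⟨t, htB, ht⟩ := hB.exists_unif
  have ht0 : t ≠ 0 := by rintro rfl; rw [v.ord_zero] at ht; omega
  have hL0 : algebraMap F L t ≠ 0 := by
    rw [Ne, map_eq_zero]; exact ht0
  have htv : t ∈ v.ring := hB.le htB
  refine dvr_of_principal P ⟨algebraMap F L t, hmemB t htB⟩ ?_ ?_ (hloc _ ⟨t, ht, rfl⟩)
  · rw [hP _ _ (bw8_alg h htv).symm, cMap_tmul, (hr.zero _).2 (Or.inr (by rw [ht]; norm_num)),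
      TensorProduct.tmul_zero]
    exact q.zero_mem
  · intro h0
    exact hL0 (congrArg Subtype.val h0)

theorem exists_cen (h : IsCx k F L) (v : KVal k F) (B : Subalgebra k F) (hB : v.On B)
    {r : v.ring →ₐ[k] κ} (hr : v.IsRes r) (q : Ideal (ℂ ⊗[k] κ))
    (hq : q ∈ minimalPrimes (ℂ ⊗[k] κ)) : ∃ μ : DVal L, CxOver v μ ∧ Cen h v μ r q := by
  have hqp : q.IsPrime := hq.1.1
  obtain ⟨P, hPp, hP, hdvr, hloc⟩ := exists_cen_prime h v B hB hr q hq
  obtain ⟨μ, hμ1, hμ2⟩ := dval_of_dvr (cadj L (B : Set F)) (cadj_frac h hB) P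
  have hmemB : ∀ b : F, b ∈ B → algebraMap F L b ∈ cadj L (B : Set F) := fun b hb =>
    Algebra.subset_adjoin ⟨b, hb, rfl⟩
  have hFL : ∀ x : F, x ≠ 0 → algebraMap F L x ≠ 0 := fun x hx => by
    rw [Ne, map_eq_zero]; exact hx
  -- units of `B`
  have hunitB : ∀ b : F, b ∈ B → b ≠ 0 → v.ord b = 0 → μ.ord (algebraMap F L b) = 0 := by
    intro b hb hb0 hbv
    have hbr := hB.le hb
    have h1 : (⟨_, hmemB b hb⟩ : cadj L (B : Set F)) ∉ P := by
      rw [hP _ _ (bw8_alg h hbr).symm]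
      intro h2
      exact hqp.ne_top (Ideal.eq_top_of_isUnit_mem _ h2 (bw8_unit hr hbr hb0 hbv))
    have h2 := (hμ1 ⟨_, hmemB b hb⟩).1
    rw [(hμ1 ⟨_, hmemB b hb⟩).2, not_or] at h1
    have h3 := h1.2
    simp only at h2 h3
    omega
  have hunit : ∀ x : F, x ≠ 0 → v.ord x = 0 → μ.ord (algebraMap F L x) = 0 := by
    intro x hx hxv
    obtain ⟨a, ha, b, hb, hb0, hbv, rfl⟩ := hB.2.2 x (by rw [hxv])
    have ha0 : a ≠ 0 := by rintro rfl; simp at hx
    have hav : v.ord a = 0 := by rw [v.ord_div ha0 hb0, hbv, sub_zero] at hxv; exact hxv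
    rw [map_div₀, DVal.ord_div _ (hFL a ha0) (hFL b hb0), hunitB a ha ha0 hav,
      hunitB b hb hb0 hbv, sub_zero]
  -- the uniformiser
  obtain ⟨t, htB, ht⟩ := hB.exists_unif
  have ht0 : t ≠ 0 := by rintro rfl; rw [v.ord_zero] at ht; omega
  have htv : t ∈ v.ring := hB.le htB
  have htP : (⟨_, hmemB t htB⟩ : cadj L (B : Set F)) ∈ P := by
    rw [hP _ _ (bw8_alg h htv).symm, cMap_tmul, (hr.zero _).2 (Or.inr (by rw [ht]; norm_num)),
      TensorProduct.tmul_zero]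
    exact q.zero_mem
  have hμt1 : 1 ≤ μ.ord (algebraMap F L t) := by
    rw [(hμ1 ⟨_, hmemB t htB⟩).2] at htP
    rcases htP with h1 | h1
    · exact absurd (congrArg Subtype.val h1) (hFL t ht0)
    · simp only at h1
      omega
  have hnotP : ∀ s : cadj L (B : Set F), s ∉ P → (s : L) ≠ 0 ∧ μ.ord (s : L) = 0 := by
    intro s hs
    have h1 := (hμ1 s).1
    rw [(hμ1 s).2, not_or] at hs
    exact ⟨fun h2 => hs.1 (Subtype.ext h2), by omega⟩
  have hμt : μ.ord (algebraMap F L t) = 1 := by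
    obtain ⟨π, hπ⟩ := μ.exists_ord_one
    have hπ0 : π ≠ 0 := by rintro rfl; rw [μ.ord_zero] at hπ; omega
    obtain ⟨a, b, hb, hab⟩ := hμ2 π (by rw [hπ]; norm_num)
    obtain ⟨hb0, hbμ⟩ := hnotP b hb
    have ha0 : (a : L) ≠ 0 := by
      intro h1
      rw [h1, zero_div] at hab
      exact hπ0 hab
    have haμ : μ.ord (a : L) = 1 := by
      rw [hab, DVal.ord_div _ ha0 hb0, hbμ, sub_zero] at hπ
      exact hπ
    have haP : a ∈ P := by
      rw [(hμ1 a).2]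
      right
      rw [haμ]; norm_num
    obtain ⟨s, hs, w, hsw⟩ := hloc ⟨_, hmemB t htB⟩ ⟨t, ht, rfl⟩ a haP
    obtain ⟨hs0, hsμ⟩ := hnotP s hs
    have h1 : (s : L) * a = algebraMap F L t * w := congrArg Subtype.val hsw
    have hw0 : (w : L) ≠ 0 := by
      intro h2
      rw [h2, mul_zero] at h1
      exact (mul_ne_zero hs0 ha0) h1
    have h2 := congrArg μ.ord h1
    rw [μ.ord_mul _ _ hs0 ha0, μ.ord_mul _ _ (hFL t ht0) hw0, hsμ, haμ] at h2
    have h3 := (hμ1 w).1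
    omega
  have hord : ∀ z : F, μ.ord (algebraMap F L z) = v.ord z := by
    intro z
    by_cases hz : z = 0
    · rw [hz, map_zero, μ.ord_zero, v.ord_zero]
    set n := v.ord z with hn
    have htn : t ^ n ≠ 0 := zpow_ne_zero _ ht0
    have h1 : v.ord (z / t ^ n) = 0 := by
      rw [v.ord_div hz htn, v.ord_zpow, ht, ← hn]
      ring
    have h2 := hunit (z / t ^ n) (div_ne_zero hz htn) h1
    rw [map_div₀, DVal.ord_div _ (hFL z hz) (hFL _ htn), map_zpow₀, DVal.ord_zpow, hμt] at h2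
    linarith
  have hmul0 : ∀ (s : F) (y : L), s ≠ 0 → v.ord s = 0 → μ.ord (algebraMap F L s * y) = μ.ord y := by
    intro s y hs hsv
    by_cases hy : y = 0
    · rw [hy, mul_zero]
    rw [μ.ord_mul _ _ (hFL s hs) hy, hord, hsv, zero_add]
  have hloc' : ∀ z, 0 ≤ μ.ord z →
      ∃ a ∈ cadj L (B : Set F), ∃ b ∈ cadj L (B : Set F), b ≠ 0 ∧ μ.ord b = 0 ∧ z = a / b := by
    intro z hz
    obtain ⟨a, b, hb, hab⟩ := hμ2 z hz
    obtain ⟨hb0, hbμ⟩ := hnotP b hb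
    exact ⟨a, a.2, b, b.2, hb0, hbμ, hab⟩
  refine ⟨μ, CxOver.of_one' h v B hB μ hord hloc', ⟨?_, ?_, ?_⟩⟩
  · intro z
    obtain ⟨s, hsB, hs0, hsv, hsA⟩ := exists_denom h hB z
    have h1 := (hμ1 ⟨_, hsA⟩).1
    simp only at h1
    rwa [hmul0 s _ hs0 hsv] at h1
  · intro z
    obtain ⟨s, hsB, hs0, hsv, hsA⟩ := exists_denom h hB z
    have hsr := hB.le hsB
    have h1 := (hμ1 ⟨_, hsA⟩).2
    have h2 : h.Phi v.ring (((1 : ℂ) ⊗ₜ[k] (⟨s, hsr⟩ : v.ring)) * z) =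
          ((⟨_, hsA⟩ : cadj L (B : Set F)) : L) := by
      rw [map_mul, ← bw8_alg h hsr]
    rw [hP _ _ h2, map_mul] at h1
    have h3 : cMap r ((1 : ℂ) ⊗ₜ[k] (⟨s, hsr⟩ : v.ring)) * cMap r z ∈ q ↔ cMap r z ∈ q := by
      constructor
      · intro h4
        rcases hqp.mem_or_mem h4 with h5 | h5
        · exact absurd (Ideal.eq_top_of_isUnit_mem _ h5 (bw8_unit hr hsr hs0 hsv)) hqp.ne_top
        · exact h5
      · intro h4
        exact q.mul_mem_left _ h4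
    rw [h3] at h1
    rw [h1]
    simp only
    rw [hmul0 s _ hs0 hsv]
    constructor
    · rintro (h4 | h4)
      · left
        apply Subtype.ext
        change algebraMap F L s * h.Phi v.ring z = 0
        rw [h4, mul_zero]
      · right; exact h4
    · rintro (h4 | h4)
      · left
        have h5 : algebraMap F L s * h.Phi v.ring z = 0 := congrArg Subtype.val h4
        exact (mul_eq_zero.1 h5).resolve_left (hFL s hs0)
      · right; exact h4
  · intro x hx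
    obtain ⟨a, b, hb, hab⟩ := hμ2 x hx
    obtain ⟨a', ha'⟩ := bw8_pre h hB a
    obtain ⟨b', hb'⟩ := bw8_pre h hB b
    refine ⟨a', b', ?_, ?_⟩
    · rwa [← hP b b' hb']
    · rw [ha', hb', hab]

end Pool.Agent.LibK3
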