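import Pool.Agent.LibK3.BA
import Pool.Agent.LibK3.BB
import Pool.Agent.LibK3.BC1

/-!
Block BZ: transport of the data by automorphisms; the field `M = Frac (ℂ ⊗ M')` over `L`.
-/

set_option autoImplicit false
set_option linter.unusedSectionVars false

open Pool.Agent.LibGMM Pool.Agent.LibCov80

namespace Pool.Agent.LibK3

section

variable {k K : Type} [Field k] [Field K] [Algebra k K]

/-- The image of the valuation `v` under `γ`. -/
def KVal.mv (γ : K ≃ₐ[k] K) (v : KVal k K) : KVal k K where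
  ord z := v.ord (γ.symm z)
  ord_zero := by rw [map_zero]; exact v.ord_zero
  ord_mul a b ha hb := by
    rw [map_mul]
    exact v.ord_mul _ _ (by simpa using ha) (by simpa using hb)
  ord_add a b ha hb hab := by
    rw [map_add]
    refine v.ord_add _ _ (by simpa using ha) (by simpa using hb) fun h => hab ?_
    rw [← map_add] at h
    exact (map_eq_zero_iff γ.symm γ.symm.injective).1 h
  ord_const c := by
    rw [AlgEquiv.commutes]
    exact v.ord_const c
  exists_ord_one := by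
    obtain ⟨t, ht⟩ := v.exists_ord_one
    exact ⟨γ t, by rw [AlgEquiv.symm_apply_apply]; exact ht⟩

theorem KVal.mv_ord (γ : K ≃ₐ[k] K) (v : KVal k K) (z : K) : (v.mv γ).ord z = v.ord (γ.symm z) :=
  rfl

theorem KVal.mv_one (v : KVal k K) : v.mv (1 : K ≃ₐ[k] K) = v := rfl

theorem KVal.mv_mul (γ γ' : K ≃ₐ[k] K) (v : KVal k K) : v.mv (γ * γ') = (v.mv γ').mv γ := rfl

theorem KVal.On.mv {v : KVal k K} {B : Subalgebra k K} (h : v.On B) (γ : K ≃ₐ[k] K) :
    (v.mv γ).On (B.map (γ : K →ₐ[k] K)) := by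
  obtain ⟨h1, h2, h3⟩ := h
  refine ⟨h1.map _, ?_, ?_⟩
  · rintro _ ⟨b, hb, rfl⟩
    change 0 ≤ v.ord (γ.symm (γ b))
    rw [AlgEquiv.symm_apply_apply]
    exact h2 b hb
  · intro z hz
    obtain ⟨a, ha, b, hb, hb0, hb1, hz'⟩ := h3 _ hz
    refine ⟨γ a, ⟨a, ha, rfl⟩, γ b, ⟨b, hb, rfl⟩, by simpa using hb0, ?_, ?_⟩
    · rw [KVal.mv_ord, AlgEquiv.symm_apply_apply]
      exact hb1
    · rw [← map_div₀, ← hz', AlgEquiv.apply_symm_apply]

theorem KVal.ResClosed.mv {v : KVal k K} (h : v.ResClosed) (γ : K ≃ₐ[k] K) :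
    (v.mv γ).ResClosed := by
  intro z P hz hP hor
  have h1 : Polynomial.aeval (γ.symm z) P = γ.symm (Polynomial.aeval z P) := by
    rw [Polynomial.aeval_algEquiv, AlgHom.comp_apply]
    rfl
  obtain ⟨c, hc⟩ := h (γ.symm z) P hz hP (by
    rw [h1, map_eq_zero_iff γ.symm γ.symm.injective]
    exact hor)
  refine ⟨c, ?_⟩
  rcases hc with hc | hc
  · left
    have := congrArg γ hc
    rwa [AlgEquiv.apply_symm_apply, AlgEquiv.commutes] at this
  · right
    rw [KVal.mv_ord, map_sub, AlgEquiv.commutes]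
    exact hc

end

section

variable {k : Type} [Field k] [CharZero k] [Algebra k ℂ]
variable {K L : Type} [Field K] [Field L] [Algebra k K] [Algebra ℂ L] [Algebra K L]

theorem pow_map (γ : K ≃ₐ[k] K) (Γ : L ≃ₐ[ℂ] L)
    (hΓ : ∀ z : K, Γ (algebraMap K L z) = algebraMap K L (γ z)) (m : ℕ) (z : K) :
    (Γ ^ m) (algebraMap K L z) = algebraMap K L ((γ ^ m) z) := by
  induction m generalizing z with
  | zero => rfl
  | succ n ih => rw [pow_succ', pow_succ', AlgEquiv.mul_apply, AlgEquiv.mul_apply, ih, hΓ]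

theorem cadj_map (γ : K ≃ₐ[k] K) (Γ : L ≃ₐ[ℂ] L)
    (hΓ : ∀ z : K, Γ (algebraMap K L z) = algebraMap K L (γ z)) (B : Subalgebra k K) (z : L)
    (hz : z ∈ cadj L (B : Set K)) : Γ z ∈ cadj L ((B.map (γ : K →ₐ[k] K) : Subalgebra k K) : Set K) := by
  induction hz using Algebra.adjoin_induction with
  | mem x hx =>
    obtain ⟨b, hb, rfl⟩ := hx
    rw [hΓ]
    exact Algebra.subset_adjoin ⟨γ b, ⟨b, hb, rfl⟩, rfl⟩
  | algebraMap c =>
    rw [AlgEquiv.commutes]
    exact Subalgebra.algebraMap_mem _ _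
  | add x y _ _ hx hy => rw [map_add]; exact add_mem hx hy
  | mul x y _ _ hx hy => rw [map_mul]; exact mul_mem hx hy

theorem CxOver.mvGen (γ : K ≃ₐ[k] K) (Γ : L ≃ₐ[ℂ] L)
    (hΓ : ∀ z : K, Γ (algebraMap K L z) = algebraMap K L (γ z)) {v : KVal k K} {μ μ' : DVal L}
    (h : CxOver v μ) (hμ' : ∀ z, μ'.ord z = μ.ord (Γ.symm z)) : CxOver (v.mv γ) μ' := by
  have hΓ' : ∀ z : K, Γ.symm (algebraMap K L z) = algebraMap K L (γ.symm z) := by
    intro z
    rw [AlgEquiv.symm_apply_eq, hΓ, AlgEquiv.apply_symm_apply]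
  refine ⟨fun z => ?_, fun B hB z hz => ?_⟩
  · rw [hμ', hΓ', h.ord, KVal.mv_ord]
  · have hB' : v.On (B.map (γ.symm : K →ₐ[k] K)) := by
      have := hB.mv γ.symm
      have h2 : (v.mv γ).mv γ.symm = v := by
        have h3 := KVal.mv_mul γ.symm γ v
        have h4 : γ.symm * γ = 1 := by
          ext z
          exact γ.symm_apply_apply z
        rw [h4, KVal.mv_one] at h3
        exact h3.symm
      rwa [h2] at this
    rw [hμ'] at hz
    obtain ⟨a, ha, b, hb, hb0, hb1, hz'⟩ := h.loc _ hB' _ hz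
    have hBB : (B.map (γ.symm : K →ₐ[k] K)).map (γ : K →ₐ[k] K) = B := by
      rw [Subalgebra.map_map]
      have : (γ : K →ₐ[k] K).comp (γ.symm : K →ₐ[k] K) = AlgHom.id k K := by
        ext z
        exact γ.apply_symm_apply z
      rw [this, Subalgebra.map_id]
    have ha' := cadj_map γ Γ hΓ _ _ ha
    have hb' := cadj_map γ Γ hΓ _ _ hb
    rw [hBB] at ha' hb'
    refine ⟨Γ a, ha', Γ b, hb', by simpa using hb0, ?_, ?_⟩
    · rw [hμ', AlgEquiv.symm_apply_apply]
      exact hb1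
    · rw [← map_div₀, ← hz', AlgEquiv.apply_symm_apply]

/-- The field `M = Frac (ℂ ⊗ M')` as an extension of `L`. -/
theorem exists_cx_tower (hL : IsCx k K L) (M' : Type) [Field M'] [Algebra k M'] [Algebra K M']
    [IsScalarTower k K M'] [FiniteDimensional K M']
    (hM' : ∀ b : M', IsAlgebraic k b → ∃ c : k, algebraMap k M' c = b) :
    ∃ (M : Type) (_ : Field M) (_ : Algebra ℂ M) (_ : Algebra M' M) (_ : Algebra L M)
      (_ : IsScalarTower ℂ L M) (_ : FiniteDimensional L M), IsCx k M' M ∧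
      (∀ z : K, algebraMap L M (algebraMap K L z) = algebraMap M' M (algebraMap K M' z)) ∧
      Module.finrank L M = Module.finrank K M' := by
  obtain ⟨M, i1, i2, i3, hM⟩ := exists_cx M' hM'
  obtain ⟨J, hJ⟩ := hL.exists_map hM (IsScalarTower.toAlgHom k K M')
  let _ : Algebra L M := J.toRingHom.toAlgebra
  have i5 : IsScalarTower ℂ L M := IsScalarTower.of_algebraMap_eq fun c => (J.commutes c).symm
  have hc : ∀ z : K, algebraMap L M (algebraMap K L z) = algebraMap M' M (algebraMap K M' z) := hJ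
  obtain ⟨h1, h2⟩ := hL.finite hM hc
  exact ⟨M, i1, i2, i3, inferInstance, i5, h1, hM, hc, h2⟩

end

end Pool.Agent.LibK3
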