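import Pool.Agent.LibK3.Defs
import Pool.Agent.LibK3.BZ0
import Pool.Agent.LibK3.BC6
import Pool.Agent.LibK3.BC7
import Pool.Agent.LibK3.BC8
import Pool.Agent.LibK3.BC9
import Pool.Agent.LibK3.BC10
import Pool.Agent.LibK3.BC13
import Pool.Agent.LibK3.BC14
import Pool.Agent.LibK3.BC15
import Pool.Agent.LibK3.BC16
import Pool.Agent.LibK3.BC17
import Pool.Agent.LibK3.BC18
import Pool.Agent.LibK3.BC19

/-!
Block BZ: the outputs of the bridge `k → ℂ`.
-/

set_option autoImplicit false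
set_option linter.unusedSectionVars false

open Pool.Agent.LibGMM Pool.Agent.LibHP Pool.Agent.LibK Pool.Agent.LibLB
open Pool.Agent.LibCov80 (Over)
open AlgebraicGeometry CategoryTheory

namespace Pool.Agent.LibK3

variable {k : Type} [Field k] [CharZero k] [Algebra k ℂ]

/-- The rational curve over `ℂ` of a residue map over `k`. -/
theorem exists_rc {K L : Type} [Field K] [Field L] [Algebra k K] [Algebra ℂ L] [Algebra K L]
    (hL : IsCx k K L) {v : KVal k K} (hcl : v.ResClosed) {B : Subalgebra k K}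
    (hB : v.On B) (r : v.ring →ₐ[k] RatFunc k) (hrs : Function.Surjective r)
    (hr : ∀ z, r z = 0 ↔ ((z : K) = 0 ∨ 0 < v.ord (z : K))) :
    ∃ C : RC L, CxOver v C.ν ∧ ∀ z : v.ring, C.ψ (algebraMap K L z) = rmap (algebraMap k ℂ) (r z) := by
  classical
  obtain ⟨μ, hμ⟩ := exists_cxOver hL v B hB
  obtain ⟨ψ, h1, h2, h3⟩ := exists_psi hL hcl hB r hrs hr hμ
  have key : ∀ z (hz : z ∈ μ.ring), (if h : z ∈ μ.ring then ψ ⟨z, h⟩ else 0) = ψ ⟨z, hz⟩ :=
    fun z hz => dif_pos hz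
  refine ⟨⟨μ, fun z => if h : z ∈ μ.ring then ψ ⟨z, h⟩ else 0, ?_, ?_, ?_, ?_, ?_⟩, hμ, ?_⟩
  · intro z hz w hw
    rw [key _ hz, key _ hw, key _ (add_mem hz hw), ← map_add]
    rfl
  · intro z hz w hw
    rw [key _ hz, key _ hw, key _ (mul_mem hz hw), ← map_mul]
    rfl
  · intro c
    rw [key _ (Subalgebra.algebraMap_mem μ.ring c)]
    exact ψ.commutes c
  · intro z hz
    rw [key _ hz]
    exact h2 ⟨z, hz⟩
  · intro f
    obtain ⟨z, hz⟩ := h1 f
    exact ⟨z, z.2, by rw [key _ z.2]; exact hz⟩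
  · intro z
    have hz : algebraMap K L z ∈ μ.ring := by
      rw [mem_ring, hμ.ord]
      exact z.2
    change (if h : algebraMap K L z ∈ μ.ring then ψ ⟨algebraMap K L z, h⟩ else 0) = _
    rw [key _ hz]
    exact h3 z hz

variable {X : Scheme} [IsIntegral X]
  (f : X ⟶ Spec (CommRingCat.of k)) [Algebra k X.functionField]

/-- **The bridge.** -/
theorem bridge_main [Smooth f]
    (hk : ∀ a : k, algebraMap k X.functionField a = toStalk f (genericPoint X) a)
    {ι : Type} [Fintype ι] {c : ι → X.functionField} (hc : IsProjEmb f c)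
    (hdim : Algebra.trdeg k X.functionField = 2) (g : X ≅ X) (hg : g.hom ≫ f = f) (a : ℕ)
    (ha : 3 ≤ a) (hrel : HypRel c g a) (x₀ : X) (hx₀ : IsRatPt f x₀) :
    ∃ (hm : KModel k c) (γ : X.functionField ≃ₐ[k] X.functionField)
      (v₀ : KVal k X.functionField) (r₀ : v₀.ring →ₐ[k] RatFunc k),
      (∀ z, γ z = kap g.hom z) ∧ (∀ z, γ.symm z = kap g.inv z) ∧
      (∀ x : X, γ '' stk X (g.hom x) = stk X x) ∧
      (∀ z, 0 ≤ v₀.ord z ↔ z ∈ stk X x₀) ∧ (∃ i, v₀.On (kchart k c i)) ∧ v₀.ResClosed ∧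
      Function.Surjective r₀ ∧
      (∀ z, r₀ z = 0 ↔ ((z : X.functionField) = 0 ∨ 0 < v₀.ord (z : X.functionField))) ∧
      ∃ (L : Type) (_ : Field L) (_ : Algebra ℂ L) (_ : Algebra X.functionField L)
        (hL : IsCx k X.functionField L) (Γ : L ≃ₐ[ℂ] L) (φ : L) (C₀ : RC L),
        (∀ z : X.functionField, Γ (algebraMap X.functionField L z) =
          algebraMap X.functionField L (γ z)) ∧
        Dyn (cxModel hm hL) Γ a φ ∧ C₀.ν ∈ primes (cxModel hm hL) ∧ CxOver v₀ C₀.ν ∧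
        ∀ z : v₀.ring, C₀.ψ (algebraMap X.functionField L z) = rmap (algebraMap k ℂ) (r₀ z) := by
  classical
  obtain ⟨v₀, hv₀, i₀, hi₀⟩ := exists_kval f hk hc x₀ hx₀.1
  obtain ⟨r₀, hrs, hr⟩ := exists_res f hk x₀ hx₀ v₀ hv₀
  have hclosed := closed_of_res v₀ r₀ hr
  have hres := resClosed_of_res v₀ r₀ hr
  have hm := kmodel f hk hc hdim hclosed
  obtain ⟨γ, hγ1, hγ2, hγ3⟩ := exists_gam f hk g hg
  obtain ⟨L, i1, i2, i3, hL⟩ := exists_cx (k := k) X.functionField hclosed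
  obtain ⟨Γ, hΓ, hΓ'⟩ := hL.exists_equiv γ
  obtain ⟨C₀, hC, hψ⟩ := exists_rc hL hres hi₀ r₀ hrs hr
  obtain ⟨φ, hφ, hcoef⟩ := hypRel_coeff g a hrel
  have hpt : ∀ O, IsPtRing k c O → IsPtRing k c (γ '' O) ∧ IsPtRing k c (γ.symm '' O) :=
    fun O hO => isPtRing_gam f hk hc g γ hγ3 O hO
  refine ⟨hm, γ, v₀, r₀, hγ1, hγ2, hγ3, hv₀, ⟨i₀, hi₀⟩, hres, hrs, hr, L, i1, i2, i3, hL, Γ,
    (algebraMap X.functionField L φ)⁻¹, C₀, hΓ, ⟨cxModel_smooth hm hL, ?_, ?_, ?_, ?_, ?_⟩,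
    mem_primes_of_cxOver hm hL hi₀ hC, hC, hψ⟩
  · exact closedPts_map hm hL γ (fun O hO => (hpt O hO).1) Γ hΓ
  · exact closedPts_map hm hL γ.symm (fun O hO => (hpt O hO).2) Γ.symm hΓ'
  · exact_mod_cast ha
  · exact inv_ne_zero (by rw [Ne, map_eq_zero]; exact hφ)
  · intro ν hν
    have h := hyp_rel hm hL γ Γ hΓ hΓ' a φ hφ (fun O hO i j => by
        obtain ⟨x, rfl⟩ := exists_stk_of_isPtRing f hk hc O hO
        rw [hγ1, hγ2]
        exact (hcoef x).1 i j) (fun O hO s => by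
        obtain ⟨x, rfl⟩ := exists_stk_of_isPtRing f hk hc O hO
        obtain ⟨o, ho, ho'⟩ := (hcoef x).2 s
        refine ⟨o, ho, ho'.trans ?_⟩
        simp only [hγ1, hγ2]) ν (mv Γ.symm ν) (mv Γ ν) hν (fun z => rfl) (fun z => rfl)
    rw [add_comm] at h
    rw [h]
    have h2 : ν.ord (algebraMap X.functionField L φ)⁻¹ = - ν.ord (algebraMap X.functionField L φ) := by
      have h0 : algebraMap X.functionField L φ ≠ 0 := by
        rw [Ne, map_eq_zero]
        exact hφ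
      have h3 := ν.ord_mul _ _ h0 (inv_ne_zero h0)
      rw [mul_inv_cancel₀ h0] at h3
      have h4 : ν.ord (1 : L) = 0 := by
        have := ν.ord_const 1
        rwa [map_one] at this
      omega
    rw [h2]
    push_cast
    ring

/-- Lifts of the curves `C_m`. -/
theorem bridge_lift {K L M' M : Type} [Field K] [Field L] [Field M'] [Field M] [Algebra k K]
    [Algebra k M'] [Algebra ℂ L] [Algebra ℂ M] [Algebra K L] [Algebra M' M] [Algebra K M']
    [Algebra L M] [IsScalarTower k K M'] [IsScalarTower ℂ L M] [FiniteDimensional K M']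
    (hL : IsCx k K L) (hM : IsCx k M' M)
    (hc : ∀ z : K, algebraMap L M (algebraMap K L z) = algebraMap M' M (algebraMap K M' z))
    (γ : K ≃ₐ[k] K) (Γ : L ≃ₐ[ℂ] L) (hΓ : ∀ z : K, Γ (algebraMap K L z) = algebraMap K L (γ z))
    {v₀ : KVal k K} {B : Subalgebra k K} (hB : v₀.On B) (hcl : v₀.ResClosed) {ν₀ : DVal L}
    (hν₀ : CxOver v₀ ν₀) (m : ℕ) (v' : KVal k M') (e : ℕ) (he : 0 < e)
    (hv' : ∀ z : K, v'.ord (algebraMap K M' z) = e * (v₀.mv (γ ^ m)).ord z)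
    (hres : ∀ z : M', 0 ≤ v'.ord z → ∃ w : K, 0 ≤ (v₀.mv (γ ^ m)).ord w ∧
      (z = algebraMap K M' w ∨ 0 < v'.ord (z - algebraMap K M' w))) :
    ∃ (μ : DVal M) (e : ℕ), Over μ (mv (Γ ^ m) ν₀) e ∧ ResOne μ (mv (Γ ^ m) ν₀) := by
  have hpow := pow_map γ Γ hΓ m
  have h1 : CxOver (v₀.mv (γ ^ m)) (mv (Γ ^ m) ν₀) :=
    CxOver.mvGen (γ ^ m) (Γ ^ m) hpow hν₀ fun z => rfl
  obtain ⟨μ, h2, h3⟩ := exists_resOne hL hM hc (hcl.mv (γ ^ m)) (hB.mv (γ ^ m)) v' e he hv' hres h1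
  exact ⟨μ, e, h2, h3⟩

/-- Ramification. -/
theorem bridge_ramified [Smooth f]
    (hk : ∀ a : k, algebraMap k X.functionField a = toStalk f (genericPoint X) a)
    {ι : Type} [Finite ι] {c : ι → X.functionField} (hc : IsProjEmb f c) (hm : KModel k c)
    {L M' M : Type} [Field L] [Field M'] [Field M]
    [Algebra k M'] [Algebra ℂ L] [Algebra ℂ M] [Algebra X.functionField L] [Algebra M' M]
    [Algebra X.functionField M'] [Algebra L M] [IsScalarTower k X.functionField M']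
    [IsScalarTower ℂ L M] [FiniteDimensional X.functionField M']
    (hL : IsCx k X.functionField L) (hM : IsCx k M' M)
    (hcc : ∀ z : X.functionField, algebraMap L M (algebraMap X.functionField L z) =
      algebraMap M' M (algebraMap X.functionField M' z))
    (x : X) (hx : ringKrullDim (X.presheaf.stalk x) = 1)
    (h : ¬ PresAt (algebraMap X.functionField M') x) :
    ∃ (B : DVal L) (Q : DVal M) (e : ℕ), B ∈ primes (cxModel hm hL) ∧ Over Q B e ∧ 2 ≤ e := by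
  obtain ⟨v, hv, i, hi⟩ := exists_kval f hk hc x hx
  obtain ⟨v', e, he, hv'⟩ := exists_ramified x h v hv
  obtain ⟨μ, μ', h1, h2⟩ := exists_ramified_cx hL hM hcc hi v' e (by omega) hv'
  exact ⟨μ, μ', e, mem_primes_of_cxOver hm hL hi h1, h2, he⟩

end Pool.Agent.LibK3
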