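import Pool.Agent.LibK3.Defs
import Pool.Agent.LibLB.Api

/-!
THEOREM K3, geometric part: the working objects.

`S : PSurf L` is the surface. `C : RC L` is a rational curve, `v : Plc` a place of `ℙ¹`, `ctr S C v` the
point of the surface below `v`, `leq S D x` a local equation of the divisor `D` at the point `x`,
`ct S C v D c` the order at `v` of `c • D` restricted to `C` (`c` is a function with
`ord_C c = - D(C)`), `kap S C v T` the contact of `C` with the prime `T` at `v`.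
`X : Sys L` is a surface with coordinates and the automorphism `γ`; `X.H m` is `γ^m` of the hyperplane
divisor and `X.α m` its class.
-/

set_option autoImplicit false

open Pool.Agent.LibGMM Pool.Agent.LibK Pool.Agent.LibKB
open Pool.Agent.LibLB (PSurf RLR)
open Pool.Agent.LibCov80 (Over)

namespace Pool.Agent.LibK3

section

variable {L : Type} [Field L] [Algebra ℂ L]

/-- `x` is the centre of the place `v` of the curve `C`. -/
structure IsCtr (S : PSurf L) (C : RC L) (v : Plc) (x : Subalgebra ℂ L) : Prop where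
  pts : x ∈ S.pts
  le : x ≤ C.ν.ring
  nonneg : ∀ z ∈ x, 0 ≤ ordP v (C.ψ z)
  pos : ∀ z ∈ x, z⁻¹ ∉ x → C.ψ z = 0 ∨ 0 < ordP v (C.ψ z)

open Classical in
/-- The centre of the place `v` of `C`. -/
noncomputable def ctr (S : PSurf L) (C : RC L) (v : Plc) : Subalgebra ℂ L :=
  if h : ∃ x, IsCtr S C v x then h.choose else ⊤

open Classical in
/-- A local equation of `D` at `x`. -/
noncomputable def leq (S : PSurf L) (D : DVal L → ℤ) (x : Subalgebra ℂ L) : L :=
  if h : ∃ g, LocEqn S.prm x D g then h.choose else 1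

/-- The order at `v` of the divisor `D` on the curve `C`, twisted by the function `c`. -/
noncomputable def ct (S : PSurf L) (C : RC L) (v : Plc) (D : DVal L → ℤ) (c : L) : ℤ :=
  ordP v (C.ψ (c * leq S D (ctr S C v)))

/-- The contact of `C` with the prime divisor `T` at `v`. -/
noncomputable def kap (S : PSurf L) (C : RC L) (v : Plc) (T : DVal L) : ℤ := ct S C v (prd T) 1

/-- The push forward of divisors. -/
def tr (γ : L ≃ₐ[ℂ] L) (D : DVal L → ℤ) : DVal L → ℤ := fun ν => D (mv γ⁻¹ ν)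

/-- The hyperplane divisor of the coordinates `g`. -/
noncomputable def hyp {ι : Type} (g : ι → L) (ν : DVal L) : ℤ := - ⨅ i, ν.ord (g i)

/-- The ring generated by `g j / g i`. -/
def crd {ι : Type} (g : ι → L) (i : ι) : Subalgebra ℂ L :=
  Algebra.adjoin ℂ (Set.range fun j => g j / g i)

/-- `γ` permutes the prime divisors and the points of `S`. -/
structure Perm (S : PSurf L) (γ : L ≃ₐ[ℂ] L) : Prop where
  prm : ∀ ν ∈ S.prm, mv γ ν ∈ S.prm
  prm' : ∀ ν ∈ S.prm, mv γ⁻¹ ν ∈ S.prm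
  pts : ∀ x ∈ S.pts, x.map (γ : L →ₐ[ℂ] L) ∈ S.pts
  pts' : ∀ x ∈ S.pts, x.map ((γ⁻¹ : L ≃ₐ[ℂ] L) : L →ₐ[ℂ] L) ∈ S.pts

end

/-- A surface with homogeneous coordinates `g` (one of them is `1`) and an automorphism `γ` with
`γ h + γ⁻¹ h = a h + div φ`. -/
structure Sys (L : Type) [Field L] [Algebra ℂ L] where
  S : PSurf L
  ι : Type
  fin : Finite ι
  ne : Nonempty ι
  g : ι → L
  g_ne : ∀ i, g i ≠ 0
  one : ∃ i, g i = 1
  isDiv_hyp : IsDiv S.prm (hyp g)
  cl_hyp : S.cl (hyp g) = S.A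
  /-- a point lies on a chart and its local ring is a localisation of the chart -/
  gen : ∀ x ∈ S.pts, ∃ i, crd g i ≤ x ∧ ∀ z ∈ x, ∃ u ∈ crd g i, ∃ v ∈ crd g i,
    v ≠ 0 ∧ v⁻¹ ∈ x ∧ z = u / v
  /-- every function is a quotient of elements of a chart -/
  frac : ∀ i (z : L), ∃ u ∈ crd g i, ∃ v ∈ crd g i, v ≠ 0 ∧ z = u / v
  γ : L ≃ₐ[ℂ] L
  perm : Perm S γ
  a : ℤ
  φ : L
  ha : 3 ≤ a
  hφ : φ ≠ 0
  rel : ∀ ν ∈ S.prm, hyp g (mv γ ν) + hyp g (mv γ⁻¹ ν) = a * hyp g ν + ν.ord φ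

namespace Sys

variable {L : Type} [Field L] [Algebra ℂ L] (X : Sys L)

/-- The divisor `γ^m h`: `H m ν = - min ord_ν (γ^m g_i)`. -/
noncomputable def H (m : ℤ) : DVal L → ℤ := tr (X.γ ^ m) (hyp X.g)

/-- Its class. -/
noncomputable def α (m : ℤ) : X.S.Λ := X.S.cl (X.H m)

/-- `λ > 1` with `λ + 1 / λ = a`. -/
noncomputable def lam : ℝ := ((X.a : ℝ) + Real.sqrt ((X.a : ℝ) ^ 2 - 4)) / 2

/-- The curve `γ^m C`. -/
noncomputable def cv (C : RC L) (m : ℤ) : RC L := C.mv (X.γ ^ m)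

end Sys

end Pool.Agent.LibK3
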