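import Pool.Agent.LibK3.BDefs
import Pool.Agent.LibHP.S1b

/-!
K3 surfaces and automorphisms of positive entropy. Block C: the surface over `k`.
-/

set_option autoImplicit false

open Pool.Agent.LibGMM Pool.Agent.LibHP

namespace Pool.Agent.LibK3

section alg

variable (k : Type) {K : Type} [Field k] [Field K] [Algebra k K] {ι : Type}

/-- The coordinate ring `k[c j / c i]` of the `i`-th affine chart. -/
def kchart (c : ι → K) (i : ι) : Subalgebra k K :=
  Algebra.adjoin k (Set.range fun j => c j / c i)

variable {k}

/-- The localisation of `A` at the prime `P`, as a subset of `K`. -/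
def locAt (A : Subalgebra k K) (P : Ideal A) : Set K :=
  {z | ∃ a b : A, b ∉ P ∧ z = (a : K) / b}

variable (k)

/-- `O` is the local ring of a point of the projective variety with homogeneous coordinates `c`. -/
def IsPtRing (c : ι → K) (O : Set K) : Prop :=
  ∃ (i : ι) (P : Ideal (kchart k c i)), P.IsPrime ∧ O = locAt (kchart k c i) P

/-- Smoothness: every prime of every chart `A` has a neighbourhood `A[1/h]` which is étale over a
polynomial ring over `k`. -/
def HasEtaleCharts (c : ι → K) : Prop :=
  ∀ (i : ι) (P : Ideal (kchart k c i)), P.IsPrime → ∃ h : kchart k c i, h ∉ P ∧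
    ∃ (n : ℕ) (ψ : MvPolynomial (Fin n) k →ₐ[k]
      (Algebra.adjoin k (insert ((h : K)⁻¹) (kchart k c i : Set K)) : Subalgebra k K)),
      ψ.toRingHom.Etale

end alg

section scheme

open AlgebraicGeometry CategoryTheory

variable {k : Type} [Field k] {X : Scheme} [IsIntegral X]

/-- The `c i` are the homogeneous coordinates of a closed immersion of `X` in a projective space
over `k`: `X` is covered by affine open sets with the coordinate rings `k[c j / c i]`. -/
def IsProjEmb (f : X ⟶ Spec (CommRingCat.of k)) {ι : Type} (c : ι → X.functionField) : Prop :=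
  letI : Algebra k X.functionField := (toStalk f (genericPoint X)).toAlgebra
  (∀ i, c i ≠ 0) ∧ ∃ U : ι → X.Opens, (∀ i, IsAffineOpen (U i)) ∧ (∀ x : X, ∃ i, x ∈ U i) ∧
    ∀ i, ∃ h : genericPoint X ∈ U i, ∀ z : X.functionField,
      (∃ s, X.presheaf.germ (U i) (genericPoint X) h s = z) ↔
        z ∈ Algebra.adjoin k (Set.range fun j => c j / c i)

/-- `g^* h + (g⁻¹)^* h ∼ a h` for the hyperplane class `h` of the coordinates `c`: the invertible
sheaves generated by the `g^* (c i) (g⁻¹)^* (c j)` and by the products of `a` of the `c i` are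
isomorphic (the isomorphism is the multiplication by `φ`). -/
def HypRel {ι : Type} (c : ι → X.functionField) (g : X ≅ X) (a : ℕ) : Prop :=
  ∃ φ : X.functionField, φ ≠ 0 ∧ ∀ x : X,
    Submodule.span (X.presheaf.stalk x)
      {z : X.functionField | ∃ i j, z = kap g.hom (c i) * kap g.inv (c j)} =
    Submodule.span (X.presheaf.stalk x)
      {z : X.functionField | ∃ s : Fin a → ι, z = φ * ∏ t, c (s t)}

/-- `x` is the generic point of a curve whose function field is `k(t)`. -/
def IsRatPt (f : X ⟶ Spec (CommRingCat.of k)) (x : X) : Prop :=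
  ringKrullDim (X.presheaf.stalk x) = 1 ∧
    ∃ φ : X.residueField x ≃+* RatFunc k, ∀ c : k,
      φ (X.residue x (toStalk f x c)) = RatFunc.C c

end scheme

end Pool.Agent.LibK3
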