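import Pool.Agent.LibCov80.Val
import Pool.Agent.LibGMM.CanRes
import Pool.Agent.LibLB.Api

/-! ROW CF1 (block C of K3): a uniformiser `b` of the prime `B` and a function `w` with transcendental
residue. 40 min.
PLAN. `b` from `B.exists_ord_one`. `B ∈ Ess x` for a point `x` (`S.infPts`, `S.ess`), so `B` is
divisorial (`LibLB.divisorial_of_ess`, `S.coord`): its residue field has transcendence degree one. Look first
for an existing statement (`grep -rn residue` in LibKB1a, LibLOC, LibCUR/G*.lean, LibCov80, LibGMM: e.g.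
`LibCUR.not_indep_residue`, `exists_residue`, or lemmas on `canOrd` producing a residue transcendental
function). Direct proof: if all residues of `B.ring` are algebraic over `ℂ`, they are constants (`ℂ` is algebraically
closed): for every `u ∈ B.ring` there is `c ∈ ℂ` with `u - c = 0` or `0 < B.ord (u - c)`; then for `u, v ∈ B.ring`
algebraic independence over `ℂ` fails: for a finitely generated algebra `A = ℂ[z_1..z_s]` with `B.ring = A` localised
the prime `{a ∈ A | a = 0 ∨ 0 < B.ord a}` would be maximal and of height one in a domain of dimension two: use the point `x`: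
`RLR x a b`: both parameters `a, b'` of `x`: `x ≤ B.ring`; the prime `p = {z ∈ x | z = 0 ∨ 0 < B.ord z}` is not the
maximal ideal of `x` (otherwise `B.ring` would dominate `x`, but `B.ring` is a localisation of `x` at `p`, so
`x = B.ring`, and then `x` is a valuation ring: `a / b'` or `b' / a` in `x`, against `RLR.reg` and
`RLR.nonunit`); so there is `w ∈ x`, a non-unit of `x`, with `B.ord w = 0`; its residue is transcendental: if
`0 < B.ord (P(w))` or `P(w) = 0` for a polynomial `P ≠ 0`, factor `P` over `ℂ` into linear factors: `w - c` has positive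
order at `B` for some `c`; `c ≠ 0` (`B.ord w = 0`), but then `w - c` is a unit of the local ring `x` (`w` is in the maximal ideal), so
`B.ord (w - c) = 0` (`LibLB.ord_eq_zero_of_unit`): contradiction. This is the shortest way.
`ind`: `AlgebraicIndependent ℂ ![b, w]`: a nonzero polynomial in two variables is
`∑_i P_i(w) b^i`; let `i` be minimal with `P_i ≠ 0`; the value has order exactly `i` at `B`, so it is not zero
(e.g. `MvPolynomial.finSuccEquiv`, or two steps `algebraicIndependent` over `ℂ(w)`:
`AlgebraicIndependent` of `![b, w]` from: `w` transcendental over `ℂ` and `b` transcendental over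
`Algebra.adjoin ℂ {w}`). -/

set_option autoImplicit false

open Pool.Agent.LibGMM Pool.Agent.LibK Pool.Agent.LibKB
open Pool.Agent.LibLB (PSurf RLR)
open Pool.Agent.LibCov80 (Over)

namespace Pool.Agent.LibK3

/-- A polynomial in an element all of whose translates have order zero. -/
private theorem CF1_poly {L : Type} [Field L] [Algebra ℂ L] {B : DVal L} {w : L}
    (h : ∀ c : ℂ, w - algebraMap ℂ L c ≠ 0 ∧ B.ord (w - algebraMap ℂ L c) = 0) :
    ∀ (n : ℕ) (P : Polynomial ℂ), P.natDegree ≤ n → P ≠ 0 →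
      Polynomial.aeval w P ≠ 0 ∧ B.ord (Polynomial.aeval w P) = 0 := by
  intro n
  induction n with
  | zero =>
    intro P hP hP0
    have h1 : P = Polynomial.C (P.coeff 0) := Polynomial.eq_C_of_natDegree_le_zero hP
    have h2 : P.coeff 0 ≠ 0 := by
      intro h3
      apply hP0
      rw [h1, h3, Polynomial.C_0]
    rw [h1, Polynomial.aeval_C]
    exact ⟨fun h3 => h2 ((map_eq_zero_iff _ (algebraMap ℂ L).injective).1 h3), B.ord_const _⟩
  | succ n ih =>
    intro P hP hP0
    by_cases hd : P.natDegree ≤ n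
    · exact ih P hd hP0
    have hdeg : P.degree ≠ 0 := by
      intro h3
      have h4 : P.natDegree = 0 := Polynomial.natDegree_eq_of_degree_eq_some h3
      omega
    obtain ⟨z, hz⟩ := IsAlgClosed.exists_root P hdeg
    obtain ⟨Q, hQ⟩ := Polynomial.dvd_iff_isRoot.2 hz
    have hQ0 : Q ≠ 0 := by
      rintro rfl
      exact hP0 (by rw [hQ, mul_zero])
    have hQd : Q.natDegree ≤ n := by
      have h3 : P.natDegree = (Polynomial.X - Polynomial.C z).natDegree + Q.natDegree := by
        rw [hQ]
        exact Polynomial.natDegree_mul (Polynomial.X_sub_C_ne_zero z) hQ0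
      rw [Polynomial.natDegree_X_sub_C] at h3
      omega
    obtain ⟨h5, h6⟩ := ih Q hQd hQ0
    obtain ⟨h7, h8⟩ := h z
    have h9 : Polynomial.aeval w P = (w - algebraMap ℂ L z) * Polynomial.aeval w Q := by
      rw [hQ, map_mul, map_sub, Polynomial.aeval_X, Polynomial.aeval_C]
    rw [h9]
    refine ⟨mul_ne_zero h7 h5, ?_⟩
    rw [B.ord_mul _ _ h7 h5, h6, h8, add_zero]

theorem exists_w {L : Type} [Field L] [Algebra ℂ L] {S : PSurf L} {B : DVal L} (hB : B ∈ S.prm) :
    ∃ w : L, w ∈ B.ring ∧ ∀ P : Polynomial ℂ, P ≠ 0 →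
      Polynomial.aeval w P ≠ 0 ∧ B.ord (Polynomial.aeval w P) = 0 := by
  obtain ⟨x, hx, hxB⟩ := (S.infPts B hB).nonempty
  obtain ⟨a, b, hab⟩ := S.coord x hx
  have hess : B ∈ Ess x := (S.ess x hx B).2 ⟨hB, hxB⟩
  have hunit : ∀ w ∈ x, (∃ p ∈ x, ∃ q ∈ x, w = a * p + b * q) → w ≠ 0 → B.ord w = 0 →
      ∀ c : ℂ, w - algebraMap ℂ L c ≠ 0 ∧ B.ord (w - algebraMap ℂ L c) = 0 := by
    rintro w hw ⟨p, hp, q, hq, hwe⟩ hw0 hwB c
    by_cases hc : c = 0
    · rw [hc, map_zero, sub_zero]
      exact ⟨hw0, hwB⟩
    have hc' : algebraMap ℂ L c ≠ 0 := fun h3 => hc ((map_eq_zero_iff _ (algebraMap ℂ L).injective).1 h3)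
    have hinv : algebraMap ℂ L c⁻¹ * algebraMap ℂ L c = 1 := by
      rw [← map_mul, inv_mul_cancel₀ hc, map_one]
    have hcx : algebraMap ℂ L c⁻¹ ∈ x := x.algebraMap_mem _
    have key : ∀ p' ∈ x, ∀ q' ∈ x, w - algebraMap ℂ L c = a * p' + b * q' → False := by
      intro p' hp' q' hq' he
      refine hab.nonunit (algebraMap ℂ L c⁻¹ * (p - p'))
        (x.mul_mem hcx (x.sub_mem hp hp')) (algebraMap ℂ L c⁻¹ * (q - q'))
        (x.mul_mem hcx (x.sub_mem hq hq')) ?_
      have h1 : algebraMap ℂ L c = a * (p - p') + b * (q - q') := by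
        have : algebraMap ℂ L c = w - (w - algebraMap ℂ L c) := by ring
        rw [this, he, hwe]
        ring
      calc a * (algebraMap ℂ L c⁻¹ * (p - p')) + b * (algebraMap ℂ L c⁻¹ * (q - q'))
          = algebraMap ℂ L c⁻¹ * (a * (p - p') + b * (q - q')) := by ring
        _ = 1 := by rw [← h1, hinv]
    have hne : w - algebraMap ℂ L c ≠ 0 := by
      intro h1
      exact key 0 x.zero_mem 0 x.zero_mem (by rw [h1]; ring)
    have hmem : w - algebraMap ℂ L c ∈ x := x.sub_mem hw (x.algebraMap_mem _)
    refine ⟨hne, ?_⟩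
    rcases hab.unit _ hmem with h1 | ⟨p', hp', q', hq', h1⟩
    · exact LibLB.ord_eq_zero_of_unit hmem hne h1 hxB
    · exact (key p' hp' q' hq' h1).elim
  have hb0 : b ≠ 0 := by
    intro h1
    obtain ⟨r, hr, hr'⟩ := hab.reg 0 x.zero_mem 1 x.one_mem (by rw [h1]; ring)
    exact hab.nonunit r hr 0 x.zero_mem (by rw [mul_zero, add_zero, ← hr'])
  rcases LibLOC.ess_not_centre hab hess with h1 | h1
  · refine ⟨a, hxB hab.memA, fun P hP => CF1_poly (hunit a hab.memA
      ⟨1, x.one_mem, 0, x.zero_mem, by ring⟩ hab.a_ne h1) P.natDegree P le_rfl hP⟩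
  · refine ⟨b, hxB hab.memB, fun P hP => CF1_poly (hunit b hab.memB
      ⟨0, x.zero_mem, 1, x.one_mem, by ring⟩ hb0 h1) P.natDegree P le_rfl hP⟩

theorem ind_of_residue {L : Type} [Field L] [Algebra ℂ L] {B : DVal L} {b w : L}
    (hb : B.ord b = 1) (hw : ∀ P : Polynomial ℂ, P ≠ 0 →
      Polynomial.aeval w P ≠ 0 ∧ B.ord (Polynomial.aeval w P) = 0) :
    AlgebraicIndependent ℂ ![b, w] := by
  obtain ⟨κ, _, _, ρ, hρs, hρ⟩ := B.exists_residue
  have hwr : w ∈ B.ring := by
    have h1 := (hw Polynomial.X Polynomial.X_ne_zero).2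
    rw [Polynomial.aeval_X] at h1
    change 0 ≤ B.ord w
    rw [h1]
  let w' : B.ring := ⟨w, hwr⟩
  have hval : ∀ P : Polynomial ℂ, ((Polynomial.aeval w' P : B.ring) : L) = Polynomial.aeval w P := by
    intro P
    have := Polynomial.aeval_algHom_apply B.ring.val w' P
    exact this.symm
  have htr : Transcendental ℂ (ρ w') := by
    rw [transcendental_iff]
    intro P hP
    by_contra hP0
    rw [Polynomial.aeval_algHom_apply, hρ, hval] at hP
    obtain ⟨h1, h2⟩ := hw P hP0
    rcases hP with h3 | h3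
    · exact h1 h3
    · rw [h2] at h3
      exact lt_irrefl _ h3
  have h1 : AlgebraicIndependent ℂ fun i : Unit => ρ ((fun _ : Unit => w') i) :=
    (algebraicIndependent_unique_type_iff (ι := Unit)).2 htr
  have h2 := algebraicIndependent_residue B ρ hρ b hb (fun _ : Unit => w') h1
  let e : Fin 2 → Option Unit := ![none, some ()]
  have he : Function.Injective e := by
    intro i j hij
    fin_cases i <;> fin_cases j <;> simp_all [e]
  have h3 := h2.comp e he
  have h4 : (![b, w] : Fin 2 → L) =
      (fun o : Option Unit => o.elim b fun i => ((fun _ : Unit => w') i : L)) ∘ e := by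
    funext i
    fin_cases i
    · rfl
    · rfl
  rw [h4]
  exact h3

end Pool.Agent.LibK3
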