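import Pool.Agent.LibCov80.Val
import Pool.Agent.LibKC.CANb
import Pool.Agent.LibLB.Final

/-! ROW CF2 (block C of K3): derivations regular on `b, w` are regular along `B`. 45 min, STRONG.
PLAN. (1) There is `k : ℕ` with `b ^ k * D z ∈ B.ring` for all `z ∈ B.ring`: `B` is divisorial (`S.infPts`, `S.ess`,
`S.coord`, `LibLB.divisorial_of_ess`): `B.ring` is a localisation of a finitely generated algebra `A = ℂ[z_1..z_s]`, take
`k` for the finitely many `D z_i` (`B.ord (D z_i) ≥ -k`), Leibniz for `A` (`Algebra.adjoin_induction`), and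
`D (u / v) = (v D u - u D v) / v ^ 2` with `B.ord v = 0`. (2) Take the minimal such `k` (`Nat.find`) and suppose `k ≥ 1`.
`D' = b ^ k • D` maps `B.ring` to itself, `D' b` and `D' w` have positive order. Claim: `D' z` has positive order (or
is `0`) for all `z ∈ B.ring`; then `b ^ (k - 1) * D z ∈ B.ring`: contradiction. CLAIM: the maximal ideal is `b B.ring`, so
`D' (b u) = b D' u + u D' b` is in it. Let `z ∈ B.ring`. As `trdeg L = 2` (`S.dim`), `z, w, b` are algebraically
dependent: `P(z, w, b) = 0`, `P ≠ 0`; dividing by a power of the last variable (`b ≠ 0`) we may assume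
that `P_0(Z, W) = P(Z, W, 0) ≠ 0`; then `P_0(z, w)` has positive order (or is `0`): the residue of `z` is algebraic over
`ℂ(residue of w)`. Choose `G ∈ ℂ[W][Z]`, `G ≠ 0`, of minimal degree in `Z` with `G(w, z)` of positive order or zero. The
degree in `Z` is `≥ 1` (`hw`). Apply `D'`: `G_Z(w, z) D' z + G_W(w, z) D' w` is in the maximal ideal (`D'` maps the maximal ideal to
itself), `D' w` too, so `G_Z(w, z) D' z` is in the maximal ideal; `G_Z(w, z)` is not (`G_Z ≠ 0` in characteristic zero, minimality), so
`D' z` is. (It may be convenient to work with the residue field: `ν.exists_residue` of LibCUR gives a field `κ` and a surjection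
`ρ : ν.ring → κ`; `D'` induces a derivation of `κ` which kills the residue of `w`, and a derivation which kills
`ℂ(w)` kills every algebraic element: Mathlib `Derivation.eq_zero_of_isAlgebraic`-like lemmas or
`Differential`/`KaehlerDifferential` of separable extensions.) -/

set_option autoImplicit false

open Pool.Agent.LibGMM Pool.Agent.LibK Pool.Agent.LibKB
open Pool.Agent.LibLB (PSurf RLR)
open Pool.Agent.LibCov80 (Over)

namespace Pool.Agent.LibK3

private theorem CF2_res {L : Type} [Field L] [Algebra ℂ L] {B : DVal L} {w : L}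
    (hw : ∀ P : Polynomial ℂ, P ≠ 0 →
      Polynomial.aeval w P ≠ 0 ∧ B.ord (Polynomial.aeval w P) = 0) :
    LibKC.ResIndep B fun _ : Unit => w := by
  intro P hP
  have h1 : MvPolynomial.aeval (fun _ : Unit => w) P =
      Polynomial.aeval w (MvPolynomial.pUnitAlgEquiv ℂ P) := by
    have h2 : (MvPolynomial.aeval (fun _ : Unit => w) : MvPolynomial Unit ℂ →ₐ[ℂ] L) =
        (Polynomial.aeval w).comp (MvPolynomial.pUnitAlgEquiv ℂ).toAlgHom := by
      apply MvPolynomial.algHom_ext
      intro i
      simp
    rw [h2]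
    rfl
  rw [h1]
  refine hw _ fun h2 => hP ?_
  exact (map_eq_zero_iff _ (MvPolynomial.pUnitAlgEquiv ℂ).injective).1 h2

private theorem CF2_max {L : Type} [Field L] [Algebra ℂ L] (hdim : Algebra.trdeg ℂ L = 2)
    {B : DVal L} {b w x : L} (hb : B.ord b = 1)
    (h : LibKC.ResIndep B fun o : Option Unit => o.elim x fun _ => w) : False := by
  have h1 := (h.algebraicIndependent b hb).cardinalMk_le_trdeg
  rw [hdim, Cardinal.mk_fintype, Fintype.card_option, Fintype.card_option] at h1
  have h2 : (3 : Cardinal) ≤ 2 := by simpa using h1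
  exact absurd h2 (by norm_num)

theorem pres_of_residue {L : Type} [Field L] [Algebra ℂ L] {S : PSurf L} {B : DVal L}
    (hB : B ∈ S.prm) {b w : L} (hb : B.ord b = 1) (hw' : w ∈ B.ring)
    (hw : ∀ P : Polynomial ℂ, P ≠ 0 →
      Polynomial.aeval w P ≠ 0 ∧ B.ord (Polynomial.aeval w P) = 0)
    (D : Derivation ℂ L L) (h1 : D b ∈ B.ring) (h2 : D w ∈ B.ring) : ∀ z ∈ B.ring,
      D z ∈ B.ring := by
  intro z hz
  have key := LibKC.can_lattice B (S.divisorial hB) (fun _ : Unit => w) (CF2_res hw)
    (fun x _ h => CF2_max S.dim hb h) b hb z hz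
  have h3 : D z = D.liftKaehlerDifferential (KaehlerDifferential.D ℂ L z) :=
    (D.liftKaehlerDifferential_comp_D z).symm
  rw [h3]
  refine Submodule.span_induction (p := fun u _ => D.liftKaehlerDifferential u ∈ B.ring)
    ?_ ?_ ?_ ?_ key
  · rintro _ ⟨o, rfl⟩
    rcases o with _ | o
    · change D.liftKaehlerDifferential (KaehlerDifferential.D ℂ L b) ∈ B.ring
      rw [D.liftKaehlerDifferential_comp_D]
      exact h1
    · change D.liftKaehlerDifferential (KaehlerDifferential.D ℂ L w) ∈ B.ring
      rw [D.liftKaehlerDifferential_comp_D]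
      exact h2
  · rw [map_zero]
    exact B.ring.zero_mem
  · intro u v _ _ hu hv
    rw [map_add]
    exact B.ring.add_mem hu hv
  · intro r u _ hu
    have h4 : D.liftKaehlerDifferential (r • u) = (r : L) * D.liftKaehlerDifferential u := by
      change D.liftKaehlerDifferential ((r : L) • u) = _
      rw [map_smul, smul_eq_mul]
    rw [h4]
    exact B.ring.mul_mem r.2 hu

end Pool.Agent.LibK3
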