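import Mathlib

/-!
[K3A CH0] Derivations. `exists_derivation` is proved in LibSym94/ALG.lean (lines 347-400, theorems
`ALG4_lift`, `exists_derivation`): copy the two proofs here (prefix `ch0_`, `K : Type`), then `exists_dual`
is the case `u = ![x, y]`, `r = ![1, 0]`, `![0, 1]`.
-/

set_option autoImplicit false

namespace Pool.Agent.LibK3

section Ext

variable {K : Type} [Field K] [Algebra ℂ K]

open scoped TensorProduct in
theorem ch0_lift {P K : Type} [CommRing P] [Algebra ℂ P] [Field K] [Algebra ℂ K] [Algebra P K]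
    [IsScalarTower ℂ P K] [Algebra.FormallyEtale P K] (d : Derivation ℂ P K) :
    ∃ D : Derivation ℂ K K, ∀ x, D (algebraMap P K x) = d x := by
  refine ⟨((LinearMap.liftBaseChange K d.liftKaehlerDifferential).comp
    (KaehlerDifferential.tensorKaehlerEquivOfFormallyEtale ℂ P K).symm.toLinearMap).compDer
    (KaehlerDifferential.D ℂ K), fun x => ?_⟩
  change LinearMap.liftBaseChange K d.liftKaehlerDifferential
    ((KaehlerDifferential.tensorKaehlerEquivOfFormallyEtale ℂ P K).symm
      (KaehlerDifferential.D ℂ K (algebraMap P K x))) = d x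
  rw [KaehlerDifferential.tensorKaehlerEquivOfFormallyEtale_symm_D_algebraMap,
    LinearMap.liftBaseChange_tmul, one_smul, Derivation.liftKaehlerDifferential_comp_D]

/-- A derivation with values prescribed on an algebraically independent family. -/
theorem ch0_exists_derivation {ι : Type} {u : ι → K} (hu : AlgebraicIndependent ℂ u) (r : ι → K) :
    ∃ D : Derivation ℂ K K, ∀ i, D (u i) = r i := by
  classical
  obtain ⟨t, hut, ht⟩ := exists_isTranscendenceBasis_superset (R := ℂ) hu.coe_range
  have hmem : ∀ i, u i ∈ t := fun i => hut (Set.mem_range_self i)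
  set P := MvPolynomial t ℂ
  let algPK : Algebra P K := (MvPolynomial.aeval (R := ℂ) ((↑) : t → K)).toAlgebra
  have : IsScalarTower ℂ P K := IsScalarTower.of_algebraMap_eq fun x =>
    ((MvPolynomial.aeval (R := ℂ) ((↑) : t → K)).commutes x).symm
  let algPF : Algebra P (IntermediateField.adjoin ℂ (Set.range ((↑) : t → K))) :=
    ((ht.1.aevalEquivField : FractionRing P →+* _).comp (algebraMap P (FractionRing P))).toAlgebra
  have : IsScalarTower P (IntermediateField.adjoin ℂ (Set.range ((↑) : t → K))) K :=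
    IsScalarTower.of_algebraMap_eq fun x =>
      (ht.1.aevalEquivField_algebraMap_apply_coe x).symm
  have : Algebra.FormallyEtale P (FractionRing P) :=
    Algebra.FormallyEtale.of_isLocalization (nonZeroDivisors P)
  have : Algebra.FormallyEtale P (IntermediateField.adjoin ℂ (Set.range ((↑) : t → K))) :=
    Algebra.FormallyEtale.of_equiv (AlgEquiv.ofRingEquiv (f := ht.1.aevalEquivField.toRingEquiv)
      fun x => rfl)
  have : Algebra.IsAlgebraic (IntermediateField.adjoin ℂ (Set.range ((↑) : t → K))) K :=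
    ht.isAlgebraic_field
  have : Algebra.FormallyEtale (IntermediateField.adjoin ℂ (Set.range ((↑) : t → K))) K :=
    Algebra.FormallyEtale.of_isSeparable _ _
  have : Algebra.FormallyEtale P K := Algebra.FormallyEtale.comp P
    (IntermediateField.adjoin ℂ (Set.range ((↑) : t → K))) K
  obtain ⟨D, hD⟩ := ch0_lift (MvPolynomial.mkDerivation ℂ
    (fun a : t => if h : ∃ i, u i = a then r h.choose else (0 : K)))
  refine ⟨D, fun i => ?_⟩
  have h1 := hD (MvPolynomial.X ⟨u i, hmem i⟩)
  rw [MvPolynomial.mkDerivation_X] at h1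
  have h2 : ∃ j, u j = ((⟨u i, hmem i⟩ : t) : K) := ⟨i, rfl⟩
  have h3 : h2.choose = i := hu.injective h2.choose_spec
  rw [dif_pos h2, h3] at h1
  rw [← h1]
  have h4 : algebraMap P K (MvPolynomial.X ⟨u i, hmem i⟩) = u i :=
    MvPolynomial.aeval_X (R := ℂ) ((↑) : t → K) ⟨u i, hmem i⟩
  rw [h4]

end Ext

/-- The dual derivations of two algebraically independent functions. -/
theorem exists_dual {L : Type} [Field L] [Algebra ℂ L] (htr : Algebra.trdeg ℂ L = 2) {x y : L}
    (h : AlgebraicIndependent ℂ ![x, y]) : ∃ D₁ D₂ : Derivation ℂ L L,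
      D₁ x = 1 ∧ D₁ y = 0 ∧ D₂ x = 0 ∧ D₂ y = 1 := by
  obtain ⟨D₁, h1⟩ := ch0_exists_derivation h ![1, 0]
  obtain ⟨D₂, h2⟩ := ch0_exists_derivation h ![0, 1]
  exact ⟨D₁, D₂, h1 0, h1 1, h2 0, h2 1⟩

end Pool.Agent.LibK3
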