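import Mathlib

/-!
[K3A CH1] `exists_rel`: every `z` in `L` is algebraic over `ℂ(x, y)` (transcendence degree two). Take a
polynomial `G ∈ ℂ[X₀, X₁, X₂]` with `G(x, y, z) = 0`, `G ≠ 0` (`![x, y, z]` is not algebraically
independent: otherwise the transcendence degree would be `≥ 3`, `AlgebraicIndependent.cardinalMk_le_trdeg`,
`lift_cardinalMk_le_trdeg`), of minimal degree in `X₂` (`G.degreeOf 2`). Then `G' = pderiv 2 G` has
smaller degree in `X₂`, and `G' ≠ 0` since otherwise `G` is a polynomial in `X₀, X₁` (`degreeOf 2 G = 0`;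
characteristic zero), which contradicts the independence of `x, y`. So `G'(x, y, z) ≠ 0`. (It may be
easier to take the minimal polynomial of `z` over the fraction field of the image of
`MvPolynomial (Fin 2) ℂ`, to clear denominators and to transport with `MvPolynomial.finSuccEquiv` or a sum
over coefficients; any proof is fine.)
`der_aeval`: induction on `G` (`MvPolynomial.induction_on`; `Derivation.leibniz`, `pderiv_X`).
-/

set_option autoImplicit false

namespace Pool.Agent.LibK3

/-- Polynomials in `z` over `ℂ[X₀, X₁]` as polynomials in three variables. -/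
private noncomputable def ch1Phi : Polynomial (MvPolynomial (Fin 2) ℂ) →+* MvPolynomial (Fin 3) ℂ :=
  Polynomial.eval₂RingHom (MvPolynomial.rename (Fin.castSucc : Fin 2 → Fin 3)).toRingHom
    (MvPolynomial.X 2)

private theorem ch1Phi_C (a : MvPolynomial (Fin 2) ℂ) :
    ch1Phi (Polynomial.C a) = MvPolynomial.rename (Fin.castSucc : Fin 2 → Fin 3) a := by
  simp [ch1Phi]

private theorem ch1Phi_X : ch1Phi Polynomial.X = MvPolynomial.X 2 := by
  simp [ch1Phi]

private theorem ch1_pderiv_rename (a : MvPolynomial (Fin 2) ℂ) :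
    MvPolynomial.pderiv 2 (MvPolynomial.rename (Fin.castSucc : Fin 2 → Fin 3) a) = 0 := by
  induction a using MvPolynomial.induction_on with
  | C c => simp
  | add p q hp hq => rw [map_add, map_add, hp, hq, add_zero]
  | mul_X p i hp =>
    rw [map_mul, MvPolynomial.rename_X, Derivation.leibniz, hp, smul_zero, add_zero]
    have h : (Fin.castSucc i : Fin 3) ≠ 2 := by
      intro h
      have := congrArg Fin.val h
      have h2 := i.2
      simp at this
      omega
    rw [MvPolynomial.pderiv_X_of_ne h, smul_zero]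

private theorem ch1_pderiv_Phi (P : Polynomial (MvPolynomial (Fin 2) ℂ)) :
    MvPolynomial.pderiv 2 (ch1Phi P) = ch1Phi (Polynomial.derivative P) := by
  induction P using Polynomial.induction_on with
  | C a => rw [ch1Phi_C, ch1_pderiv_rename, Polynomial.derivative_C, map_zero]
  | add p q hp hq => rw [map_add, map_add, hp, hq, Polynomial.derivative_add, map_add]
  | monomial n a _ =>
    rw [map_mul, map_pow, ch1Phi_C, ch1Phi_X, Derivation.leibniz, ch1_pderiv_rename, smul_zero,
      add_zero, Derivation.leibniz_pow, MvPolynomial.pderiv_X_self, Polynomial.derivative_C_mul,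
      Polynomial.derivative_X_pow, map_mul, map_mul, map_pow, ch1Phi_C, ch1Phi_X]
    simp

private theorem ch1_aeval_Phi {L : Type} [Field L] [Algebra ℂ L] (x y z : L)
    (P : Polynomial (MvPolynomial (Fin 2) ℂ)) :
    MvPolynomial.aeval ![x, y, z] (ch1Phi P) =
      Polynomial.eval₂ (MvPolynomial.aeval ![x, y]).toRingHom z P := by
  induction P using Polynomial.induction_on with
  | C a =>
    rw [ch1Phi_C, MvPolynomial.aeval_rename, Polynomial.eval₂_C]
    have h : (![x, y, z] ∘ (Fin.castSucc : Fin 2 → Fin 3)) = ![x, y] := by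
      funext i
      fin_cases i <;> rfl
    rw [h]
    rfl
  | add p q hp hq => rw [map_add, map_add, hp, hq, Polynomial.eval₂_add]
  | monomial n a _ =>
    rw [map_mul, map_pow, ch1Phi_C, ch1Phi_X, map_mul, map_pow, MvPolynomial.aeval_rename,
      MvPolynomial.aeval_X, Polynomial.eval₂_mul, Polynomial.eval₂_C, Polynomial.eval₂_X_pow]
    have h : (![x, y, z] ∘ (Fin.castSucc : Fin 2 → Fin 3)) = ![x, y] := by
      funext i
      fin_cases i <;> rfl
    rw [h]
    rfl

private theorem ch1_alg {L : Type} [Field L] [Algebra ℂ L] (htr : Algebra.trdeg ℂ L = 2) {x y : L}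
    (h : AlgebraicIndependent ℂ ![x, y]) (z : L) :
    ∃ P : Polynomial (MvPolynomial (Fin 2) ℂ), P ≠ 0 ∧
      Polynomial.eval₂ (MvPolynomial.aeval ![x, y]).toRingHom z P = 0 := by
  have h1 : IsTranscendenceBasis ℂ ![x, y] :=
    h.isTranscendenceBasis_of_trdeg_le_of_finite (by rw [htr]; simp)
  have h2 := h1.isAlgebraic
  obtain ⟨Q, hQ, hz⟩ := h2.isAlgebraic z
  refine ⟨Q.map (h.aevalEquiv.symm : _ ≃ₐ[ℂ] _).toRingEquiv.toRingHom, ?_, ?_⟩
  · intro h3
    apply hQ
    have h4 : Function.Injective
        (Polynomial.map (h.aevalEquiv.symm : _ ≃ₐ[ℂ] _).toRingEquiv.toRingHom) :=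
      Polynomial.map_injective _ (h.aevalEquiv.symm).injective
    exact h4 (by rw [h3, Polynomial.map_zero])
  · rw [Polynomial.eval₂_map]
    rw [Polynomial.aeval_def] at hz
    rw [← hz]
    congr 1
    ext u
    have h5 := h.algebraMap_aevalEquiv (h.aevalEquiv.symm u)
    rw [AlgEquiv.apply_symm_apply] at h5
    exact h5.symm

theorem exists_rel {L : Type} [Field L] [Algebra ℂ L] (htr : Algebra.trdeg ℂ L = 2) {x y : L}
    (h : AlgebraicIndependent ℂ ![x, y]) (z : L) : ∃ G : MvPolynomial (Fin 3) ℂ,
      MvPolynomial.aeval ![x, y, z] G = 0 ∧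
      MvPolynomial.aeval ![x, y, z] (MvPolynomial.pderiv 2 G) ≠ 0 := by
  classical
  have hex : ∃ n : ℕ, ∃ P : Polynomial (MvPolynomial (Fin 2) ℂ), P ≠ 0 ∧
      Polynomial.eval₂ (MvPolynomial.aeval ![x, y]).toRingHom z P = 0 ∧ P.natDegree = n := by
    obtain ⟨P, hP, hz⟩ := ch1_alg htr h z
    exact ⟨_, P, hP, hz, rfl⟩
  obtain ⟨P, hP, hz, hdeg⟩ := Nat.find_spec hex
  have hmin := fun m (hm : m < Nat.find hex) => Nat.find_min hex hm
  rw [← hdeg] at hmin
  refine ⟨ch1Phi P, by rw [ch1_aeval_Phi, hz], ?_⟩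
  rw [ch1_pderiv_Phi, ch1_aeval_Phi]
  intro h0
  have hd : P.natDegree ≠ 0 := by
    intro h3
    rw [Polynomial.eq_C_of_natDegree_eq_zero h3, Polynomial.eval₂_C] at hz
    have h4 : P.coeff 0 = 0 := h (by rw [map_zero]; exact hz)
    apply hP
    rw [Polynomial.eq_C_of_natDegree_eq_zero h3, h4, Polynomial.C_0]
  have hne : Polynomial.derivative P ≠ 0 := fun h3 =>
    hd (Polynomial.natDegree_eq_zero_of_derivative_eq_zero h3)
  exact hmin _ (Polynomial.natDegree_derivative_lt hd) ⟨_, hne, h0, rfl⟩

theorem der_aeval {κ : Type} [Field κ] [Algebra ℂ κ] (δ : Derivation ℂ κ κ) {n : ℕ}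
    (v : Fin n → κ) (G : MvPolynomial (Fin n) ℂ) :
    δ (MvPolynomial.aeval v G) =
      ∑ i, MvPolynomial.aeval v (MvPolynomial.pderiv i G) * δ (v i) := by
  classical
  induction G using MvPolynomial.induction_on with
  | C c => simp
  | add p q hp hq =>
    rw [map_add, map_add, hp, hq, ← Finset.sum_add_distrib]
    refine Finset.sum_congr rfl fun i _ => ?_
    rw [map_add, map_add, add_mul]
  | mul_X p j hp =>
    rw [map_mul, MvPolynomial.aeval_X, Derivation.leibniz, hp, smul_eq_mul, smul_eq_mul]
    have h1 : ∀ i, MvPolynomial.aeval v (MvPolynomial.pderiv i (p * MvPolynomial.X j)) * δ (v i) =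
        (if i = j then MvPolynomial.aeval v p * δ (v i) else 0) +
          v j * (MvPolynomial.aeval v (MvPolynomial.pderiv i p) * δ (v i)) := by
      intro i
      rw [Derivation.leibniz, MvPolynomial.pderiv_X, map_add, smul_eq_mul, smul_eq_mul, map_mul,
        map_mul, MvPolynomial.aeval_X]
      by_cases hij : i = j
      · subst hij
        rw [Pi.single_eq_same, map_one, if_pos rfl]
        ring
      · rw [Pi.single_eq_of_ne (fun h => hij h.symm), map_zero, if_neg hij]
        ring
    rw [Finset.sum_congr rfl fun i _ => h1 i, Finset.sum_add_distrib, Finset.sum_ite_eq' Finset.univ j,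
      if_pos (Finset.mem_univ j), ← Finset.mul_sum]

end Pool.Agent.LibK3
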