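import Pool.Agent.LibK3.CH1
import Pool.Agent.LibK3.RCA

/-!
[K3A CH2] The chain rule for one function. `Chn C x y D₁ D₂ z`: `z` and `D₁ z`, `D₂ z` are in the ring of
`C` and the chain rule holds for `z`.
-/

set_option autoImplicit false

open Pool.Agent.LibGMM Pool.Agent.LibK Pool.Agent.LibKB
open Pool.Agent.LibLB (PSurf RLR)

namespace Pool.Agent.LibK3

variable {L : Type} [Field L] [Algebra ℂ L]

/-- The chain rule holds for `z` on `C`. -/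
structure Chn (C : RC L) (x y : L) (D₁ D₂ : Derivation ℂ L L) (z : L) : Prop where
  mem : z ∈ C.ν.ring
  mem₁ : D₁ z ∈ C.ν.ring
  mem₂ : D₂ z ∈ C.ν.ring
  eq : ∀ δ : Derivation ℂ (RatFunc ℂ) (RatFunc ℂ),
    δ (C.ψ z) = C.ψ (D₁ z) * δ (C.ψ x) + C.ψ (D₂ z) * δ (C.ψ y)

variable {C : RC L} {x y : L} {D₁ D₂ : Derivation ℂ L L}

theorem chn_gen (h1 : D₁ x = 1) (h2 : D₁ y = 0) (h3 : D₂ x = 0) (h4 : D₂ y = 1)
    (hx : x ∈ C.ν.ring) (hy : y ∈ C.ν.ring) {z : L} (hz : z ∈ C.ν.ring) {G : MvPolynomial (Fin 3) ℂ}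
    (hG : MvPolynomial.aeval ![x, y, z] G = 0)
    (hG' : MvPolynomial.aeval ![x, y, z] (MvPolynomial.pderiv 2 G) ≠ 0)
    (ho : C.ν.ord (MvPolynomial.aeval ![x, y, z] (MvPolynomial.pderiv 2 G)) = 0) :
    Chn C x y D₁ D₂ z := by
  have hv : ∀ i, (![x, y, z] : Fin 3 → L) i ∈ C.ν.ring := by
    intro i
    fin_cases i
    · exact hx
    · exact hy
    · exact hz
  set w := MvPolynomial.aeval ![x, y, z] (MvPolynomial.pderiv 2 G) with hw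
  set gx := MvPolynomial.aeval ![x, y, z] (MvPolynomial.pderiv 0 G) with hgx
  set gy := MvPolynomial.aeval ![x, y, z] (MvPolynomial.pderiv 1 G) with hgy
  have hwm : w ∈ C.ν.ring := (C.ψ_aeval _ hv _).1
  have hgxm : gx ∈ C.ν.ring := (C.ψ_aeval _ hv _).1
  have hgym : gy ∈ C.ν.ring := (C.ψ_aeval _ hv _).1
  have hinv : w⁻¹ ∈ C.ν.ring := C.inv_mem hG' ho
  have e1 := der_aeval D₁ ![x, y, z] G
  have e2 := der_aeval D₂ ![x, y, z] G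
  rw [hG, map_zero, Fin.sum_univ_three] at e1 e2
  simp only [Matrix.cons_val_zero, Matrix.cons_val_one, Matrix.cons_val] at e1 e2
  rw [h1, h2, ← hw, ← hgx, ← hgy] at e1
  rw [h3, h4, ← hw, ← hgx, ← hgy] at e2
  have d1 : D₁ z = -gx * w⁻¹ := by
    rw [eq_mul_inv_iff_mul_eq₀ hG']
    linear_combination -e1
  have d2 : D₂ z = -gy * w⁻¹ := by
    rw [eq_mul_inv_iff_mul_eq₀ hG']
    linear_combination -e2
  have m1 : D₁ z ∈ C.ν.ring := by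
    rw [d1]
    exact C.ν.ring.mul_mem (C.ν.ring.neg_mem hgxm) hinv
  have m2 : D₂ z ∈ C.ν.ring := by
    rw [d2]
    exact C.ν.ring.mul_mem (C.ν.ring.neg_mem hgym) hinv
  refine ⟨hz, m1, m2, fun δ => ?_⟩
  have hψw : C.ψ w ≠ 0 := C.ψ_ne_of_ord hG' ho
  have p1 : C.ψ (D₁ z) = - C.ψ gx * (C.ψ w)⁻¹ := by
    rw [d1, C.mul _ (C.ν.ring.neg_mem hgxm) _ hinv, C.ψ_neg hgxm, C.ψ_inv hG' ho]
  have p2 : C.ψ (D₂ z) = - C.ψ gy * (C.ψ w)⁻¹ := by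
    rw [d2, C.mul _ (C.ν.ring.neg_mem hgym) _ hinv, C.ψ_neg hgym, C.ψ_inv hG' ho]
  have hG2 : MvPolynomial.aeval (fun i => C.ψ ((![x, y, z] : Fin 3 → L) i)) G = 0 := by
    rw [← (C.ψ_aeval _ hv G).2, hG, C.ψ_zero]
  have e3 := der_aeval δ (fun i => C.ψ ((![x, y, z] : Fin 3 → L) i)) G
  rw [hG2, map_zero, Fin.sum_univ_three, ← (C.ψ_aeval _ hv _).2, ← (C.ψ_aeval _ hv _).2,
    ← (C.ψ_aeval _ hv _).2] at e3
  simp only [Matrix.cons_val_zero, Matrix.cons_val_one, Matrix.cons_val] at e3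
  rw [← hw, ← hgx, ← hgy] at e3
  rw [p1, p2]
  have h5 : C.ψ w * δ (C.ψ z) = -(C.ψ gx * δ (C.ψ x)) - C.ψ gy * δ (C.ψ y) := by
    linear_combination -e3
  field_simp
  linear_combination h5

theorem chn_const (c : ℂ) : Chn C x y D₁ D₂ (algebraMap ℂ L c) := by
  refine ⟨C.const_mem c, ?_, ?_, fun δ => ?_⟩
  · rw [Derivation.map_algebraMap]
    exact C.ν.ring.zero_mem
  · rw [Derivation.map_algebraMap]
    exact C.ν.ring.zero_mem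
  · rw [Derivation.map_algebraMap, Derivation.map_algebraMap, C.ψ_zero, C.ψ_algebraMap,
      Derivation.map_algebraMap]
    ring

theorem chn_add {z w : L} (hz : Chn C x y D₁ D₂ z) (hw : Chn C x y D₁ D₂ w) :
    Chn C x y D₁ D₂ (z + w) := by
  refine ⟨C.ν.ring.add_mem hz.mem hw.mem, ?_, ?_, fun δ => ?_⟩
  · rw [map_add]
    exact C.ν.ring.add_mem hz.mem₁ hw.mem₁
  · rw [map_add]
    exact C.ν.ring.add_mem hz.mem₂ hw.mem₂
  · rw [map_add, map_add, C.add _ hz.mem _ hw.mem, C.add _ hz.mem₁ _ hw.mem₁,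
      C.add _ hz.mem₂ _ hw.mem₂, map_add, hz.eq δ, hw.eq δ]
    ring

theorem chn_mul {z w : L} (hz : Chn C x y D₁ D₂ z) (hw : Chn C x y D₁ D₂ w) :
    Chn C x y D₁ D₂ (z * w) := by
  have key : ∀ D : Derivation ℂ L L, D z ∈ C.ν.ring → D w ∈ C.ν.ring →
      D (z * w) ∈ C.ν.ring ∧ C.ψ (D (z * w)) = C.ψ z * C.ψ (D w) + C.ψ w * C.ψ (D z) := by
    intro D h1 h2
    rw [Derivation.leibniz, smul_eq_mul, smul_eq_mul]
    have m1 := C.ν.ring.mul_mem hz.mem h2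
    have m2 := C.ν.ring.mul_mem hw.mem h1
    refine ⟨C.ν.ring.add_mem m1 m2, ?_⟩
    rw [C.add _ m1 _ m2, C.mul _ hz.mem _ h2, C.mul _ hw.mem _ h1]
  obtain ⟨a1, a2⟩ := key D₁ hz.mem₁ hw.mem₁
  obtain ⟨b1, b2⟩ := key D₂ hz.mem₂ hw.mem₂
  refine ⟨C.ν.ring.mul_mem hz.mem hw.mem, a1, b1, fun δ => ?_⟩
  rw [a2, b2, C.mul _ hz.mem _ hw.mem, Derivation.leibniz, smul_eq_mul, smul_eq_mul, hz.eq δ,
    hw.eq δ]
  ring

theorem chn_inv {z : L} (hz : Chn C x y D₁ D₂ z) (h0 : z ≠ 0) (ho : C.ν.ord z = 0) :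
    Chn C x y D₁ D₂ z⁻¹ := by
  have hi := C.inv_mem h0 ho
  have hψ : C.ψ z ≠ 0 := C.ψ_ne_of_ord h0 ho
  have key : ∀ D : Derivation ℂ L L, D z ∈ C.ν.ring →
      D z⁻¹ ∈ C.ν.ring ∧ C.ψ (D z⁻¹) = - (C.ψ z)⁻¹ ^ 2 * C.ψ (D z) := by
    intro D h1
    have e : D z⁻¹ = -z⁻¹ ^ 2 * D z := by
      rw [Derivation.leibniz_inv, smul_eq_mul]
    have m : -z⁻¹ ^ 2 ∈ C.ν.ring := C.ν.ring.neg_mem (C.ν.ring.pow_mem hi 2)
    rw [e]
    refine ⟨C.ν.ring.mul_mem m h1, ?_⟩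
    rw [C.mul _ m _ h1, C.ψ_neg (C.ν.ring.pow_mem hi 2), C.ψ_pow hi, C.ψ_inv h0 ho]
  obtain ⟨a1, a2⟩ := key D₁ hz.mem₁
  obtain ⟨b1, b2⟩ := key D₂ hz.mem₂
  refine ⟨hi, a1, b1, fun δ => ?_⟩
  rw [a2, b2, C.ψ_inv h0 ho, Derivation.leibniz_inv, smul_eq_mul, hz.eq δ]
  ring

end Pool.Agent.LibK3
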