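import Pool.Agent.LibK3.CH2
import Pool.Agent.LibK3.Base

/-!
[K3A CH3] Charts and the chain rule.
-/

set_option autoImplicit false

open Pool.Agent.LibGMM Pool.Agent.LibK Pool.Agent.LibKB
open Pool.Agent.LibLB (PSurf RLR)

namespace Pool.Agent.LibK3

theorem chart_prime {L : Type} [Field L] [Algebra ℂ L] (X : Sys L) {ν : DVal L}
    (hν : ν ∈ X.S.prm) : ∃ i, crd X.g i ≤ ν.ring ∧ ∀ z ∈ ν.ring, ∃ u ∈ crd X.g i,
      ∃ w ∈ crd X.g i, w ≠ 0 ∧ ν.ord w = 0 ∧ z = u / w := by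
  obtain ⟨x, hx, hxν⟩ := (X.S.infPts ν hν).nonempty
  obtain ⟨i, hi, hgen⟩ := X.gen x hx
  have hess : ν ∈ Ess x := (X.S.ess x hx ν).2 ⟨hν, hxν⟩
  refine ⟨i, hi.trans hxν, fun z hz => ?_⟩
  obtain ⟨a, ha, b, hb, hb0, hbo, rfl⟩ := hess.2 z hz
  obtain ⟨u, hu, v, hv, hv0, hvi, rfl⟩ := hgen a ha
  obtain ⟨u', hu', v', hv', hv0', hvi', rfl⟩ := hgen b hb
  have o1 : ν.ord v = 0 := LibLB.ord_eq_zero_of_unit (hi hv) hv0 hvi hxν
  have o2 : ν.ord v' = 0 := LibLB.ord_eq_zero_of_unit (hi hv') hv0' hvi' hxν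
  have hu0' : u' ≠ 0 := by
    rintro rfl
    exact hb0 (zero_div _)
  have o3 : ν.ord u' = 0 := by
    rw [ord_div ν hu0' hv0'] at hbo
    omega
  refine ⟨u * v', (crd X.g i).mul_mem hu hv', v * u', (crd X.g i).mul_mem hv hu',
    mul_ne_zero hv0 hu0', ?_, ?_⟩
  · rw [ν.ord_mul _ _ hv0 hu0', o1, o3, add_zero]
  · field_simp

/-- **The chain rule on almost all curves.** -/
theorem chain_rule {L : Type} [Field L] [Algebra ℂ L] (X : Sys L) {x y : L}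
    (h : AlgebraicIndependent ℂ ![x, y]) {D₁ D₂ : Derivation ℂ L L}
    (h1 : D₁ x = 1) (h2 : D₁ y = 0) (h3 : D₂ x = 0) (h4 : D₂ y = 1) :
    ∃ T : Set (DVal L), T.Finite ∧ ∀ C : RC L, C.ν ∈ X.S.prm → C.ν ∉ T →
      x ∈ C.ν.ring ∧ y ∈ C.ν.ring ∧ (∀ z ∈ C.ν.ring, D₁ z ∈ C.ν.ring ∧ D₂ z ∈ C.ν.ring) ∧
      ∀ (δ : Derivation ℂ (RatFunc ℂ) (RatFunc ℂ)), ∀ z ∈ C.ν.ring,
        δ (C.ψ z) = C.ψ (D₁ z) * δ (C.ψ x) + C.ψ (D₂ z) * δ (C.ψ y) := by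
  have hfin := X.fin
  have hx0 : x ≠ 0 := by
    rintro rfl
    rw [map_zero] at h1
    exact zero_ne_one h1
  have hy0 : y ≠ 0 := by
    rintro rfl
    rw [map_zero] at h4
    exact zero_ne_one h4
  choose G hG hG' using fun ij : X.ι × X.ι => exists_rel X.S.dim h (X.g ij.2 / X.g ij.1)
  set w : X.ι × X.ι → L := fun ij =>
    MvPolynomial.aeval ![x, y, X.g ij.2 / X.g ij.1] (MvPolynomial.pderiv 2 (G ij)) with hw
  refine ⟨{ν | ν ∈ X.S.prm ∧ ν.ord x ≠ 0} ∪ {ν | ν ∈ X.S.prm ∧ ν.ord y ≠ 0} ∪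
    ⋃ ij : X.ι × X.ι, {ν | ν ∈ X.S.prm ∧ ν.ord (w ij) ≠ 0}, ?_, ?_⟩
  · exact ((X.S.finDiv x hx0).union (X.S.finDiv y hy0)).union
      (Set.finite_iUnion fun ij => X.S.finDiv (w ij) (hG' ij))
  intro C hC hT
  simp only [Set.mem_union, Set.mem_iUnion, Set.mem_ofPred_eq, not_or, not_exists, not_and,
    not_not] at hT
  obtain ⟨⟨t1, t2⟩, t3⟩ := hT
  have hx : x ∈ C.ν.ring := by
    change 0 ≤ C.ν.ord x
    rw [t1 hC]
  have hy : y ∈ C.ν.ring := by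
    change 0 ≤ C.ν.ord y
    rw [t2 hC]
  obtain ⟨i, hi, hch⟩ := chart_prime X hC
  have hcrd : ∀ u ∈ crd X.g i, Chn C x y D₁ D₂ u := by
    intro u hu
    refine Algebra.adjoin_induction (R := ℂ) (p := fun u _ => Chn C x y D₁ D₂ u)
      ?_ ?_ ?_ ?_ hu
    · rintro _ ⟨j, rfl⟩
      refine chn_gen h1 h2 h3 h4 hx hy (hi (Algebra.subset_adjoin ⟨j, rfl⟩)) (hG (i, j))
        (hG' (i, j)) (t3 (i, j) hC)
    · intro c
      exact chn_const c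
    · intro a b _ _ ha hb
      exact chn_add ha hb
    · intro a b _ _ ha hb
      exact chn_mul ha hb
  have hall : ∀ z ∈ C.ν.ring, Chn C x y D₁ D₂ z := by
    intro z hz
    obtain ⟨u, hu, v, hv, hv0, hvo, rfl⟩ := hch z hz
    rw [div_eq_mul_inv]
    exact chn_mul (hcrd u hu) (chn_inv (hcrd v hv) hv0 hvo)
  exact ⟨hx, hy, fun z hz => ⟨(hall z hz).mem₁, (hall z hz).mem₂⟩, fun δ z hz => (hall z hz).eq δ⟩

end Pool.Agent.LibK3
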