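import Pool.Agent.LibK3.U1
import Pool.Agent.LibRR.G01

/-!
ROW [K3 U2].

Approximation: there is an element of `M` with given orders at the (finitely many) valuations over `ν`.

Proof. The valuations over `ν` are finitely many (`fibre_finite`) and pairwise different, so their rings are pairwise incomparable (`DVal.ext_ring`: grep it). Standard weak approximation: for `P ≠ Q` over `ν` there is `z` with `P.ord z > 0`, `Q.ord z < 0` (choose `a ∈ P.ring \ Q.ring`, `b ∈ Q.ring \ P.ring`, `z = a / b`...), then by induction for a finite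
set; or use the Dedekind domain `B = integralClosure ν.ring M` (semilocal; `int_iff_ring`) and the Chinese remainder theorem; or search the library: `grep -rn -i 'approx' Pool/Agent/LibCov80 Pool/Agent/LibGM* Pool/Agent/LibKB* Pool/Agent/LibKI85`.
-/

set_option autoImplicit false
set_option linter.unusedSectionVars false

open Pool.Agent.LibGMM Pool.Agent.LibK Pool.Agent.LibKB Pool.Agent.LibCov80
open Pool.Agent.LibLB (PSurf RLR)
open Pool.Agent.LibCUR2

namespace Pool.Agent.LibK3

variable {L : Type} [Field L] [Algebra ℂ L] {M : Type} [Field M] [Algebra ℂ M] [Algebra L M]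
  [IsScalarTower ℂ L M] [FiniteDimensional L M]

omit [Algebra L M] [IsScalarTower ℂ L M] [FiniteDimensional L M] in
private theorem u2_sum (O : DVal M) {α : Type} (s : Finset α) (f : α → M) (n : ℤ)
    (h : ∀ i ∈ s, f i = 0 ∨ n ≤ O.ord (f i)) : ∑ i ∈ s, f i = 0 ∨ n ≤ O.ord (∑ i ∈ s, f i) := by
  classical
  induction s using Finset.induction_on with
  | empty => left; simp
  | insert a s ha ih =>
    rw [Finset.sum_insert ha]
    exact O.ord_add_ge (h a (by simp)) (ih fun i hi => h i (by simp [hi]))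

theorem exists_orders (ν : DVal L) (D : DVal M → ℤ) :
    ∃ π : M, π ≠ 0 ∧ ∀ P : DVal M, bel L P = ν → P.ord π = D P := by
  classical
  have hfin := fibre_finite (M := M) ν
  obtain ⟨S, hS⟩ : ∃ S : Finset (DVal M), S = hfin.toFinset := ⟨_, rfl⟩
  have hmem : ∀ P : DVal M, P ∈ S ↔ bel L P = ν := by
    intro P
    rw [hS, Set.Finite.mem_toFinset]
    exact Iff.rfl
  have hg : ∀ P : DVal M, ∃ g : M, g ≠ 0 ∧ P.ord g = D P ∧ ∀ Q ∈ S.erase P, D Q < Q.ord g := by
    intro P
    obtain ⟨t, ht⟩ := P.exists_ord_one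
    have ht0 : t ≠ 0 := by
      rintro rfl
      rw [P.ord_zero] at ht
      exact zero_ne_one ht
    have hz0 : t ^ D P ≠ 0 := zpow_ne_zero _ ht0
    obtain ⟨w, hw0, hwP, -, hwQ⟩ := LibRR.weak_approx P (S.erase P) (Finset.notMem_erase _ _)
      (1 + ∑ Q ∈ S.erase P, (D Q - Q.ord (t ^ D P)).natAbs)
    refine ⟨w * t ^ D P, mul_ne_zero hw0 hz0, ?_, fun Q hQ => ?_⟩
    · rw [P.ord_mul _ _ hw0 hz0, hwP, DVal.ord_zpow, ht]
      ring
    · rw [Q.ord_mul _ _ hw0 hz0]
      have h1 := hwQ Q hQ
      have h2 : (D Q - Q.ord (t ^ D P)).natAbs ≤ ∑ Q ∈ S.erase P, (D Q - Q.ord (t ^ D P)).natAbs :=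
        Finset.single_le_sum (f := fun Q : DVal M => (D Q - Q.ord (t ^ D P)).natAbs)
          (fun _ _ => Nat.zero_le _) hQ
      rw [Nat.cast_add, Nat.cast_one] at h1
      omega
  choose g hg0 hgP hgQ using hg
  obtain ⟨P₀, hP₀⟩ := fibre_nonempty (M := M) ν
  have key : ∀ P : DVal M, bel L P = ν → P.ord (∑ R ∈ S, g R) = D P ∧ ∑ R ∈ S, g R ≠ 0 := by
    intro P hP
    have hPS : P ∈ S := (hmem P).2 hP
    rw [← Finset.add_sum_erase S g hPS]
    have h1 : ∑ R ∈ S.erase P, g R = 0 ∨ D P + 1 ≤ P.ord (∑ R ∈ S.erase P, g R) := by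
      refine u2_sum P _ _ _ fun R hR => Or.inr ?_
      have hRP : P ≠ R := (Finset.ne_of_mem_erase hR).symm
      exact hgQ R P (Finset.mem_erase.2 ⟨hRP, hPS⟩)
    obtain ⟨h2, h3⟩ := P.ord_add_eq (hg0 P) (b := ∑ R ∈ S.erase P, g R) (h1.imp id fun h => by
      rw [hgP P]
      omega)
    exact ⟨h2.trans (hgP P), h3⟩
  exact ⟨∑ R ∈ S, g R, (key P₀ hP₀).2, fun P hP => (key P hP).1⟩

/-- Orders at the valuations over `ν` and the norm. -/
theorem norm_ord_nonneg (ν : DVal L) (z : M) (hz : ∀ P : DVal M, bel L P = ν → 0 ≤ P.ord z) :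
    0 ≤ ν.ord (Algebra.norm L z) :=
  LibCov80.norm_nonneg ν z ((int_iff_ring ν z).2 hz)

theorem norm_ord_pos (ν : DVal L) (z : M) (hz0 : z ≠ 0)
    (hz : ∀ P : DVal M, bel L P = ν → 0 ≤ P.ord z)
    (Q : DVal M) (hQ : bel L Q = ν) (hQz : 0 < Q.ord z) : 0 < ν.ord (Algebra.norm L z) := by
  have hpid := LibCov80.ring_pid ν
  have hfr := LibCov80.ring_frac ν
  have hint : IsIntegral ν.ring z := (int_iff_ring ν z).2 hz
  have hintL : IsIntegral L z := Algebra.IsIntegral.isIntegral z
  have hmin : minpoly L z = (minpoly ν.ring z).map (algebraMap ν.ring L) :=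
    minpoly.isIntegrallyClosed_eq_field_fractions' L hint
  have hcoef : ∀ i, 0 ≤ ν.ord ((minpoly L z).coeff i) := by
    intro i
    rw [hmin, Polynomial.coeff_map]
    exact ((minpoly ν.ring z).coeff i).2
  have hc0 : (minpoly L z).coeff 0 ≠ 0 := minpoly.coeff_zero_ne_zero hintL hz0
  -- the constant coefficient has positive order
  have hc : 0 < ν.ord ((minpoly L z).coeff 0) := by
    have h1 := minpoly.aeval L z
    rw [← Polynomial.divX_mul_X_add (minpoly L z), map_add, map_mul, Polynomial.aeval_X, Polynomial.aeval_C] at h1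
    have h2 : algebraMap L M ((minpoly L z).coeff 0) = -(Polynomial.aeval z (minpoly L z).divX * z) := by
      linear_combination h1
    have hne : algebraMap L M ((minpoly L z).coeff 0) ≠ 0 := by
      rw [Ne, map_eq_zero]
      exact hc0
    have hq0 : Polynomial.aeval z (minpoly L z).divX ≠ 0 := by
      intro h3
      rw [h3, zero_mul, neg_zero] at h2
      exact hne h2
    have h3 : 0 ≤ Q.ord (Polynomial.aeval z (minpoly L z).divX) := by
      have h4 : ∀ p : Polynomial L, (∀ i, 0 ≤ ν.ord (p.coeff i)) → Polynomial.aeval z p ∈ Q.ring := by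
        intro p hp
        rw [Polynomial.aeval_eq_sum_range]
        refine Q.ring.sum_mem fun i _ => ?_
        rw [Algebra.smul_def]
        refine Q.ring.mul_mem ?_ (Q.ring.pow_mem ?_ i)
        · show 0 ≤ Q.ord (algebraMap L M (p.coeff i))
          rw [ord_map, hQ]
          exact mul_nonneg (by positivity) (hp i)
        · exact hQz.le
      exact h4 _ fun i => by
        rw [Polynomial.coeff_divX]
        exact hcoef (i + 1)
    have h5 : Q.ord (algebraMap L M ((minpoly L z).coeff 0)) =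
        Q.ord (Polynomial.aeval z (minpoly L z).divX) + Q.ord z := by
      rw [h2, DVal.ord_neg, Q.ord_mul _ _ hq0 hz0]
    rw [ord_map, hQ] at h5
    have h6 : 0 < (ram L Q : ℤ) * ν.ord ((minpoly L z).coeff 0) := by
      rw [h5]
      omega
    by_contra hcon
    push Not at hcon
    have h7 := mul_nonpos_of_nonneg_of_nonpos (by positivity : (0 : ℤ) ≤ (ram L Q : ℤ)) hcon
    omega
  have hn : Algebra.norm L z = ((-1) ^ (minpoly L z).natDegree * (minpoly L z).coeff 0) ^
      Module.finrank (IntermediateField.adjoin L {z}) M := by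
    have h1 := Algebra.norm_eq_norm_adjoin L z
    have h2 := Algebra.PowerBasis.norm_gen_eq_coeff_zero_minpoly (IntermediateField.adjoin.powerBasis hintL)
    rw [IntermediateField.adjoin.powerBasis_gen, IntermediateField.minpoly_gen,
      IntermediateField.adjoin.powerBasis_dim] at h2
    rw [h1, h2]
  have hf : 0 < Module.finrank (IntermediateField.adjoin L {z}) M := Module.finrank_pos
  have hu : ((-1 : L) ^ (minpoly L z).natDegree) ≠ 0 := pow_ne_zero _ (neg_ne_zero.2 one_ne_zero)
  have hu0 : ν.ord ((-1 : L) ^ (minpoly L z).natDegree) = 0 := by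
    rw [DVal.ord_pow, DVal.ord_neg, DVal.ord_one, mul_zero]
  rw [hn, DVal.ord_pow, ν.ord_mul _ _ hu hc0, hu0, zero_add]
  exact mul_pos (by exact_mod_cast hf) hc

end Pool.Agent.LibK3
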