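import Pool.Agent.LibK3.Defs

set_option autoImplicit false

open Pool.Agent.LibGMM Pool.Agent.LibK Pool.Agent.LibKB
open Pool.Agent.LibLB (PSurf RLR)
open Pool.Agent.LibCov80 (Over)

namespace Pool.Agent.LibK3

private theorem NP1_cross {f : RatFunc ℂ} {p q : Polynomial ℂ} (hq : q ≠ 0)
    (h : f = algebraMap (Polynomial ℂ) (RatFunc ℂ) p / algebraMap (Polynomial ℂ) (RatFunc ℂ) q) :
    f.num * q = p * f.denom := by
  have h1 : algebraMap (Polynomial ℂ) (RatFunc ℂ) f.num / algebraMap (Polynomial ℂ) (RatFunc ℂ) f.denom =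
      algebraMap (Polynomial ℂ) (RatFunc ℂ) p / algebraMap (Polynomial ℂ) (RatFunc ℂ) q := by
    rw [RatFunc.num_div_denom, h]
  rw [div_eq_div_iff (RatFunc.algebraMap_ne_zero f.denom_ne_zero) (RatFunc.algebraMap_ne_zero hq),
    ← map_mul, ← map_mul] at h1
  exact RatFunc.algebraMap_injective ℂ h1

private theorem NP1_ne {f : RatFunc ℂ} {p q : Polynomial ℂ} (hp : p ≠ 0) (hq : q ≠ 0)
    (h : f = algebraMap (Polynomial ℂ) (RatFunc ℂ) p / algebraMap (Polynomial ℂ) (RatFunc ℂ) q) :
    f ≠ 0 := by
  rw [h]
  exact div_ne_zero (RatFunc.algebraMap_ne_zero hp) (RatFunc.algebraMap_ne_zero hq)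

private theorem NP1_some (c : ℂ) {f : RatFunc ℂ} {p q : Polynomial ℂ} (hp : p ≠ 0) (hq : q ≠ 0)
    (h : f = algebraMap (Polynomial ℂ) (RatFunc ℂ) p / algebraMap (Polynomial ℂ) (RatFunc ℂ) q) :
    ordP (some c) f = (p.rootMultiplicity c : ℤ) - q.rootMultiplicity c := by
  have h1 := NP1_cross hq h
  have h2 := congrArg (Polynomial.rootMultiplicity c) h1
  have hf := RatFunc.num_ne_zero (NP1_ne hp hq h)
  rw [Polynomial.rootMultiplicity_mul (mul_ne_zero hf hq),
    Polynomial.rootMultiplicity_mul (mul_ne_zero hp f.denom_ne_zero)] at h2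
  change ((f.num.rootMultiplicity c : ℕ) : ℤ) - (f.denom.rootMultiplicity c : ℕ) = _
  omega

private theorem NP1_rep (f : RatFunc ℂ) (hf : f ≠ 0) : ∃ p q : Polynomial ℂ, p ≠ 0 ∧ q ≠ 0 ∧
    f = algebraMap (Polynomial ℂ) (RatFunc ℂ) p / algebraMap (Polynomial ℂ) (RatFunc ℂ) q :=
  ⟨f.num, f.denom, RatFunc.num_ne_zero hf, f.denom_ne_zero, (RatFunc.num_div_denom f).symm⟩

/-- The place `v` as a discrete valuation.
PLAN. Build the structure with `ord := ordP v`. `RatFunc.num`, `RatFunc.denom` with
`RatFunc.num_div_denom`, `denom_ne_zero`, `isCoprime_num_denom`. For `v = some c` the cleanest way: show first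
the auxiliary fact: if `f = p / q` (p, q nonzero polynomials) then
`ordP (some c) f = p.rootMultiplicity c - q.rootMultiplicity c` (cross multiply: `f.num * q = p * f.denom`,
`Polynomial.rootMultiplicity_mul`). Then `mul`, `add` (`Polynomial.rootMultiplicity_add` /
`le_rootMultiplicity_iff`) are immediate after writing `f = p/s`, `g = q/s` with a common denominator.
For `v = none` use `RatFunc.intDegree_mul`, `RatFunc.intDegree_add_le`. Constants: `algebraMap ℂ _ c = RatFunc.C c`,
`RatFunc.num_C`, `denom_C`, `intDegree_C`. Element of order one: `X - C c`, resp. `X⁻¹`. -/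
theorem exists_pl (v : Plc) : ∃ P : DVal (RatFunc ℂ), ∀ f, P.ord f = ordP v f := by
  cases v with
  | none =>
    exact ⟨{
      ord := ordP none
      ord_zero := by
        change - RatFunc.intDegree 0 = 0
        rw [RatFunc.intDegree_zero, neg_zero]
      ord_mul := by
        intro a b ha hb
        change - RatFunc.intDegree (a * b) = - RatFunc.intDegree a + - RatFunc.intDegree b
        rw [RatFunc.intDegree_mul ha hb]
        ring
      ord_add := by
        intro a b ha hb hab
        change min (- RatFunc.intDegree a) (- RatFunc.intDegree b) ≤ - RatFunc.intDegree (a + b)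
        have := RatFunc.intDegree_add_le hb hab
        omega
      ord_const := by
        intro c
        change - RatFunc.intDegree (RatFunc.C c) = 0
        rw [RatFunc.intDegree_C, neg_zero]
      exists_ord_one := by
        refine ⟨RatFunc.X⁻¹, ?_⟩
        change - RatFunc.intDegree (RatFunc.X⁻¹) = 1
        rw [RatFunc.intDegree_inv, RatFunc.intDegree_X, neg_neg] }, fun _ => rfl⟩
  | some c =>
    exact ⟨{
      ord := ordP (some c)
      ord_zero := by
        change ((RatFunc.num (0 : RatFunc ℂ)).rootMultiplicity c : ℤ) -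
          ((RatFunc.denom (0 : RatFunc ℂ)).rootMultiplicity c : ℕ) = 0
        rw [RatFunc.num_zero, RatFunc.denom_zero, Polynomial.rootMultiplicity_zero,
          ← Polynomial.C_1, Polynomial.rootMultiplicity_C, sub_self]
      ord_mul := by
        intro a b ha hb
        obtain ⟨p, q, hp, hq, e1⟩ := NP1_rep a ha
        obtain ⟨r, s, hr, hs, e2⟩ := NP1_rep b hb
        rw [NP1_some c hp hq e1, NP1_some c hr hs e2,
          NP1_some c (mul_ne_zero hp hr) (mul_ne_zero hq hs)
            (by rw [e1, e2, map_mul, map_mul, div_mul_div_comm]),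
          Polynomial.rootMultiplicity_mul (mul_ne_zero hp hr),
          Polynomial.rootMultiplicity_mul (mul_ne_zero hq hs)]
        push_cast
        ring
      ord_add := by
        intro a b ha hb hab
        obtain ⟨p, q, hp, hq, e1⟩ := NP1_rep a ha
        obtain ⟨r, s, hr, hs, e2⟩ := NP1_rep b hb
        have hq' := RatFunc.algebraMap_ne_zero hq
        have hs' := RatFunc.algebraMap_ne_zero hs
        have e3 : a + b = algebraMap (Polynomial ℂ) (RatFunc ℂ) (p * s + r * q) /
            algebraMap (Polynomial ℂ) (RatFunc ℂ) (q * s) := by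
          rw [e1, e2, map_add, map_mul, map_mul, map_mul, div_add_div _ _ hq' hs',
            mul_comm (algebraMap (Polynomial ℂ) (RatFunc ℂ) q)
              (algebraMap (Polynomial ℂ) (RatFunc ℂ) r)]
        have e4 : p * s + r * q ≠ 0 := by
          intro h
          rw [e3, h, map_zero, zero_div] at hab
          exact hab rfl
        have e5 : a = algebraMap (Polynomial ℂ) (RatFunc ℂ) (p * s) /
            algebraMap (Polynomial ℂ) (RatFunc ℂ) (q * s) := by
          rw [e1, map_mul, map_mul, mul_div_mul_right _ _ hs']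
        have e6 : b = algebraMap (Polynomial ℂ) (RatFunc ℂ) (r * q) /
            algebraMap (Polynomial ℂ) (RatFunc ℂ) (q * s) := by
          rw [e2, map_mul, map_mul, mul_comm (algebraMap (Polynomial ℂ) (RatFunc ℂ) q),
            mul_div_mul_right _ _ hq']
        have h0 := mul_ne_zero hq hs
        rw [NP1_some c e4 h0 e3, NP1_some c (mul_ne_zero hp hs) h0 e5,
          NP1_some c (mul_ne_zero hr hq) h0 e6]
        have h1 := Polynomial.rootMultiplicity_add c e4
        omega
      ord_const := by
        intro z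
        change ((RatFunc.num (RatFunc.C z)).rootMultiplicity c : ℤ) -
          ((RatFunc.denom (RatFunc.C z)).rootMultiplicity c : ℕ) = 0
        rw [RatFunc.num_C, RatFunc.denom_C, Polynomial.rootMultiplicity_C,
          ← Polynomial.C_1, Polynomial.rootMultiplicity_C, sub_self]
      exists_ord_one := by
        refine ⟨algebraMap (Polynomial ℂ) (RatFunc ℂ) (Polynomial.X - Polynomial.C c), ?_⟩
        rw [NP1_some c (Polynomial.X_sub_C_ne_zero c) one_ne_zero (by rw [map_one, div_one]),
          Polynomial.rootMultiplicity_X_sub_C_self, ← Polynomial.C_1,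
          Polynomial.rootMultiplicity_C]
        norm_num }, fun _ => rfl⟩

/-- The value of `ordP` on fractions of polynomials. -/
theorem ordP_some_div (c : ℂ) {p q : Polynomial ℂ} (hp : p ≠ 0) (hq : q ≠ 0) :
    ordP (some c) (algebraMap (Polynomial ℂ) (RatFunc ℂ) p / algebraMap (Polynomial ℂ) (RatFunc ℂ) q)
      = (p.rootMultiplicity c : ℤ) - q.rootMultiplicity c :=
  NP1_some c hp hq rfl

theorem ordP_none_div {p q : Polynomial ℂ} (hp : p ≠ 0) (hq : q ≠ 0) :
    ordP none (algebraMap (Polynomial ℂ) (RatFunc ℂ) p / algebraMap (Polynomial ℂ) (RatFunc ℂ) q)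
      = (q.natDegree : ℤ) - p.natDegree := by
  change - RatFunc.intDegree _ = _
  rw [RatFunc.intDegree_div (RatFunc.algebraMap_ne_zero hp) (RatFunc.algebraMap_ne_zero hq),
    RatFunc.intDegree_polynomial, RatFunc.intDegree_polynomial]
  ring

theorem ordP_zero (v : Plc) : ordP v 0 = 0 := by
  obtain ⟨P, hP⟩ := exists_pl v
  rw [← hP]
  exact P.ord_zero

theorem ordP_mul (v : Plc) {f g : RatFunc ℂ} (hf : f ≠ 0) (hg : g ≠ 0) :
    ordP v (f * g) = ordP v f + ordP v g := by
  obtain ⟨P, hP⟩ := exists_pl v
  rw [← hP, ← hP, ← hP]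
  exact P.ord_mul f g hf hg

theorem ordP_add (v : Plc) {f g : RatFunc ℂ} (hf : f ≠ 0) (hg : g ≠ 0) (h : f + g ≠ 0) :
    min (ordP v f) (ordP v g) ≤ ordP v (f + g) := by
  obtain ⟨P, hP⟩ := exists_pl v
  rw [← hP, ← hP, ← hP]
  exact P.ord_add f g hf hg h

theorem ordP_C (v : Plc) (c : ℂ) : ordP v (RatFunc.C c) = 0 := by
  obtain ⟨P, hP⟩ := exists_pl v
  rw [← hP]
  exact P.ord_const c

end Pool.Agent.LibK3
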