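import Pool.Agent.LibK3.Base
import Pool.Agent.LibK3.NP1

set_option autoImplicit false

open Pool.Agent.LibGMM Pool.Agent.LibK Pool.Agent.LibKB
open Pool.Agent.LibLB (PSurf RLR)
open Pool.Agent.LibCov80 (Over)

namespace Pool.Agent.LibK3

section

variable {L : Type} [Field L] [Algebra ℂ L] {S : PSurf L} {C : RC L}

private theorem N01_zero (C : RC L) : C.ψ 0 = 0 := by
  rw [C.zero_iff 0 (C.ν.ring.zero_mem)]
  exact Or.inl rfl

private theorem N01_one (C : RC L) : C.ψ 1 = 1 := by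
  have h := C.const 1
  rw [map_one, map_one] at h
  exact h

private theorem N01_inv (C : RC L) {z : L} (hz : z ∈ C.ν.ring) (h : C.ψ z ≠ 0) (v : Plc) :
    z⁻¹ ∈ C.ν.ring ∧ ordP v (C.ψ z⁻¹) = - ordP v (C.ψ z) := by
  have h0 : z ≠ 0 := fun h0 => h (by rw [h0, N01_zero])
  have h1 : ¬ 0 < C.ν.ord z := fun h1 => h ((C.zero_iff z hz).2 (Or.inr h1))
  have h2 : 0 ≤ C.ν.ord z := hz
  have h3 : C.ν.ord z = 0 := by omega
  have h4 : z⁻¹ ∈ C.ν.ring := by
    rw [mem_ring, ord_inv C.ν h0]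
    omega
  refine ⟨h4, ?_⟩
  have h5 : C.ψ z * C.ψ z⁻¹ = 1 := by
    rw [← C.mul z hz _ h4, mul_inv_cancel₀ h0, N01_one]
  have h6 : C.ψ z⁻¹ ≠ 0 := fun h6 => by
    rw [h6, mul_zero] at h5
    exact zero_ne_one h5
  have h7 := ordP_mul v h h6
  rw [h5, ← map_one (RatFunc.C (K := ℂ)), ordP_C] at h7
  omega

/-- the valuation ring of the place `v` of `C` -/
private noncomputable def N01_V (C : RC L) (v : Plc) : ValuationSubring L where
  carrier := {z | z ∈ C.ν.ring ∧ 0 ≤ ordP v (C.ψ z)}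
  mul_mem' := by
    rintro z w ⟨hz, hz'⟩ ⟨hw, hw'⟩
    refine ⟨C.ν.ring.mul_mem hz hw, ?_⟩
    rw [C.mul z hz w hw]
    by_cases h1 : C.ψ z = 0
    · rw [h1, zero_mul, ordP_zero]
    by_cases h2 : C.ψ w = 0
    · rw [h2, mul_zero, ordP_zero]
    rw [ordP_mul v h1 h2]
    omega
  one_mem' := by
    refine ⟨C.ν.ring.one_mem, ?_⟩
    rw [N01_one, ← map_one (RatFunc.C (K := ℂ)), ordP_C]
  add_mem' := by
    rintro z w ⟨hz, hz'⟩ ⟨hw, hw'⟩
    refine ⟨C.ν.ring.add_mem hz hw, ?_⟩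
    rw [C.add z hz w hw]
    by_cases h1 : C.ψ z = 0
    · rw [h1, zero_add]
      exact hw'
    by_cases h2 : C.ψ w = 0
    · rw [h2, add_zero]
      exact hz'
    by_cases h3 : C.ψ z + C.ψ w = 0
    · rw [h3, ordP_zero]
    have h4 := ordP_add v h1 h2 h3
    omega
  zero_mem' := by
    refine ⟨C.ν.ring.zero_mem, ?_⟩
    rw [N01_zero, ordP_zero]
  neg_mem' := by
    rintro z ⟨hz, hz'⟩
    refine ⟨C.ν.ring.neg_mem hz, ?_⟩
    have h1 : -z = algebraMap ℂ L (-1) * z := by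
      rw [map_neg, map_one]
      ring
    rw [h1, C.mul _ (C.ν.ring.algebraMap_mem _) z hz, C.const]
    by_cases h2 : C.ψ z = 0
    · rw [h2, mul_zero, ordP_zero]
    rw [ordP_mul v ?_ h2, ordP_C]
    · omega
    · rw [Ne, map_eq_zero]
      norm_num
  mem_or_inv_mem' := by
    intro z
    by_cases hz : z ∈ C.ν.ring
    · by_cases h : 0 ≤ ordP v (C.ψ z)
      · exact Or.inl ⟨hz, h⟩
      · right
        have h1 : C.ψ z ≠ 0 := fun h1 => h (by rw [h1, ordP_zero])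
        obtain ⟨h2, h3⟩ := N01_inv C hz h1 v
        exact ⟨h2, by omega⟩
    · right
      have h1 : ¬ 0 ≤ C.ν.ord z := hz
      have h0 : z ≠ 0 := fun h0 => h1 (by rw [h0, C.ν.ord_zero])
      have h2 : 0 < C.ν.ord z⁻¹ := by
        rw [ord_inv C.ν h0]
        omega
      have h3 : z⁻¹ ∈ C.ν.ring := h2.le
      refine ⟨h3, ?_⟩
      rw [(C.zero_iff _ h3).2 (Or.inr h2), ordP_zero]

private theorem N01_mem (C : RC L) (v : Plc) (z : L) :
    z ∈ N01_V C v ↔ z ∈ C.ν.ring ∧ 0 ≤ ordP v (C.ψ z) := Iff.rfl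

/-- Every place has a centre.
PLAN. Let `V := {z | z ∈ C.ν.ring ∧ 0 ≤ ordP v (C.ψ z)}` (`ordP v 0 = 0`); it is a valuation subring of `L` containing
the constants: products and sums by `C.mul`, `C.add`, `ordP_mul`, `ordP_add`; if `z ∉ C.ν.ring` then `z⁻¹ ∈ C.ν.ring` has
positive order so `C.ψ z⁻¹ = 0`; if `z ∈ C.ν.ring` and `ordP v (C.ψ z) < 0` then `C.ψ z ≠ 0`, `C.ν.ord z = 0`, `z⁻¹` is in
the ring and `C.ψ z⁻¹ = (C.ψ z)⁻¹`. `V ≠ ⊤` (`C.surj`: a `z` with `C.ψ z` of order `-1`). `S.centre V`: in the first case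
`x ∈ S.pts` with `VDom x V`: for `z ∈ x` with `z⁻¹ ∉ x`: `z⁻¹ ∉ V` or `z = 0`; if `z ≠ 0` and not `C.ψ z = 0` then
`z⁻¹ ∈ C.ν.ring`, and `z⁻¹ ∉ V` gives `ordP v (C.ψ z) > 0`. In the second case `V = ν.ring` with `ν ∈ S.prm`, but
`V ≤ C.ν.ring ≠ ⊤` and `ν.ring` is a maximal proper subring (a DVR): so `V = C.ν.ring` (if `0 ≤ C.ν.ord z` and `ν.ord z < 0`
then a power argument gives `C.ν.ring = ⊤`), contradiction with the element of order `-1`. -/
theorem isCtr_ctr (hC : C.ν ∈ S.prm) (v : Plc) : IsCtr S C v (ctr S C v) := by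
  have key : ∃ x, IsCtr S C v x := by
    obtain ⟨z0, hz0, hz0'⟩ : ∃ z ∈ C.ν.ring, ordP v (C.ψ z) < 0 := by
      obtain ⟨P, hP⟩ := exists_pl v
      obtain ⟨t, ht⟩ := P.exists_ord_one
      have ht0 : t ≠ 0 := fun h => by
        rw [h, P.ord_zero] at ht
        omega
      obtain ⟨z, hz, hz'⟩ := C.surj t⁻¹
      refine ⟨z, hz, ?_⟩
      rw [hz', ← hP, ord_inv P ht0, ht]
      omega
    have hz0V : z0 ∉ N01_V C v := fun h => by
      have := ((N01_mem C v z0).1 h).2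
      omega
    rcases S.centre (N01_V C v) (fun c => by
      rw [N01_mem, C.const, ordP_C]
      exact ⟨C.ν.ring.algebraMap_mem c, le_refl _⟩) (fun h => hz0V (by rw [h]; exact ValuationSubring.mem_top _)) with
      ⟨x, hx, hd1, hd2⟩ | ⟨ν, _, hν⟩
    · refine ⟨x, hx, fun z hz => ((N01_mem C v z).1 (hd1 z hz)).1, fun z hz => ((N01_mem C v z).1 (hd1 z hz)).2,
        fun z hz hz' => ?_⟩
      by_contra hc
      push Not at hc
      obtain ⟨hc1, hc2⟩ := hc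
      obtain ⟨h1, h2⟩ := (N01_mem C v z).1 (hd1 z hz)
      obtain ⟨h3, h4⟩ := N01_inv C h1 hc1 v
      rcases hd2 z hz hz' with h5 | h5
      · exact h5 ((N01_mem C v _).2 ⟨h3, by omega⟩)
      · exact hc1 (by rw [h5, N01_zero])
    · exfalso
      have h1 : ν = C.ν := LibGMM.DVal.ext_ring fun f hf => ((N01_mem C v f).1 ((hν f).2 hf)).1
      rw [h1] at hν
      exact hz0V ((hν z0).2 hz0)
  have h : ctr S C v = key.choose := by
    unfold ctr
    rw [dif_pos key]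
  rw [h]
  exact key.choose_spec

end

end Pool.Agent.LibK3
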