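import Pool.Agent.LibCUR2.Abs
import Pool.Agent.LibK3.N01

/-!
ROW [K3 U7L].

Elements integral over the centre of a place.

Proof. Let `C'` be a lift of `C`, `x = ctr S C v` (`isCtr_ctr hC v`), `z` integral over `x`: a monic equation `z ^ n = - ∑ a_i z ^ i`, `a_i ∈ x ⊆ C.ν.ring` (`IsCtr.le`). `C'.ν.ord (algebraMap a_i) = C.ν.ord a_i ≥ 0`, so `C'.ν.ord z ≥ 0` (otherwise the term `z ^ n` has strictly smaller order than all the others). So `z ∈ C'.ν.ring`, and applying `C'.ψ` (additive and multiplicative on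
the ring: `RC.add`, `RC.mul`; extend to finite sums and powers: private lemmas `RC.ψ_sum`, `RC.ψ_pow`; better: package `C'.ψ` as a ring homomorphism `C'.ν.ring →+* RatFunc ℂ`): `(ψ' z) ^ n = - ∑ (C.ψ a_i) (ψ' z) ^ i` with `ordP v (C.ψ a_i) ≥ 0` (`IsCtr.nonneg`, `Lift.ψ`), so `ordP v (ψ' z) ≥ 0` by the same argument for the valuation `ordP v` (`exists_pl`).
-/

set_option autoImplicit false
set_option linter.unusedSectionVars false

open Pool.Agent.LibGMM Pool.Agent.LibK Pool.Agent.LibKB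
open Pool.Agent.LibLB (PSurf RLR)
open Pool.Agent.LibCov80 (Over)
open Pool.Agent.LibCUR2

namespace Pool.Agent.LibK3

variable {L : Type} [Field L] [Algebra ℂ L] {M : Type} [Field M] [Algebra ℂ M] [Algebra L M]
  [IsScalarTower ℂ L M] [FiniteDimensional L M]

/-- The residue map as a ring homomorphism. -/
noncomputable def RC.hom {K : Type} [Field K] [Algebra ℂ K] (C : RC K) : C.ν.ring →+* RatFunc ℂ where
  toFun z := C.ψ z
  map_one' := by
    have := C.const 1
    rwa [map_one, map_one] at this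
  map_mul' z w := C.mul _ z.2 _ w.2
  map_zero' := by
    have := C.const 0
    rwa [map_zero, map_zero] at this
  map_add' z w := C.add _ z.2 _ w.2

theorem RC.hom_apply {K : Type} [Field K] [Algebra ℂ K] (C : RC K) (z : C.ν.ring) :
    C.hom z = C.ψ z := rfl

/-- The ring of a discrete valuation is integrally closed. -/
private theorem U7L_int {K : Type} [Field K] [Algebra ℂ K] {R : Type} [CommRing R] (P : DVal K)
    (f : R →+* K) (hf : ∀ r, f r ∈ P.ring) {p : Polynomial R} (hp : p.Monic) {z : K}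
    (hz : p.eval₂ f z = 0) : z ∈ P.ring := by
  by_contra hcon
  have h1 : ¬ 0 ≤ P.ord z := hcon
  have hz0 : z ≠ 0 := by
    rintro rfl
    exact h1 (by rw [P.ord_zero])
  have h2 : z⁻¹ ∈ P.ring := by
    show 0 ≤ P.ord z⁻¹
    have h3 := P.ord_mul z z⁻¹ hz0 (inv_ne_zero hz0)
    have h4 : P.ord 1 = 0 := by
      have := P.ord_const 1
      rwa [map_one] at this
    rw [mul_inv_cancel₀ hz0, h4] at h3
    omega
  have hn : p.natDegree ≠ 0 := by
    intro h0
    rw [Polynomial.eq_one_of_monic_natDegree_zero hp h0, Polynomial.eval₂_one] at hz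
    exact one_ne_zero hz
  obtain ⟨n, hn⟩ := Nat.exists_eq_succ_of_ne_zero hn
  rw [Polynomial.eval₂_eq_sum_range, hn, Finset.sum_range_succ] at hz
  have h3 : p.coeff n.succ = 1 := by
    rw [← hn]
    exact hp.coeff_natDegree
  rw [h3, map_one, one_mul] at hz
  have h4 : z = -∑ i ∈ Finset.range n.succ, f (p.coeff i) * (z⁻¹) ^ (n - i) := by
    have h5 : (∑ i ∈ Finset.range n.succ, f (p.coeff i) * z ^ i + z ^ n.succ) * (z⁻¹) ^ n = 0 := by
      rw [hz, zero_mul]
    rw [add_mul, Finset.sum_mul] at h5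
    have h6 : z ^ n.succ * (z⁻¹) ^ n = z := by
      rw [pow_succ', mul_assoc, ← mul_pow, mul_inv_cancel₀ hz0, one_pow, mul_one]
    rw [h6] at h5
    have h7 : ∀ i ∈ Finset.range n.succ, f (p.coeff i) * z ^ i * (z⁻¹) ^ n =
        f (p.coeff i) * (z⁻¹) ^ (n - i) := by
      intro i hi
      have hi' : i ≤ n := Nat.lt_succ_iff.1 (Finset.mem_range.1 hi)
      have h8 : (z⁻¹) ^ n = (z⁻¹) ^ i * (z⁻¹) ^ (n - i) := by
        rw [← pow_add, Nat.add_sub_cancel' hi']
      rw [h8, mul_assoc, ← mul_assoc (z ^ i), ← mul_pow, mul_inv_cancel₀ hz0, one_pow, one_mul]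
    rw [Finset.sum_congr rfl h7] at h5
    exact eq_neg_of_add_eq_zero_right h5
  apply hcon
  rw [h4]
  exact P.ring.neg_mem (P.ring.sum_mem fun i _ => P.ring.mul_mem (hf _) (P.ring.pow_mem h2 _))

theorem lift_int {S : PSurf L} {C : RC L} (hC : C.ν ∈ S.prm) {C' : RC M} (hl : C'.Lift C) (v : Plc)
    {z : M} (hz : IsIntegral (ctr S C v) z) : z ∈ C'.ν.ring ∧ 0 ≤ ordP v (C'.ψ z) := by
  have hx := isCtr_ctr hC v
  set x := ctr S C v with hxdef
  let f : x →+* M := (algebraMap L M).comp (algebraMap x L)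
  have hf : ∀ a : x, f a ∈ C'.ν.ring := by
    intro a
    have h1 : 0 ≤ C.ν.ord (a : L) := hx.le a.2
    have h2 := hl.isOver.ord (a : L)
    show 0 ≤ C'.ν.ord (algebraMap L M (a : L))
    rw [h2, Nat.cast_one, one_mul]
    exact h1
  obtain ⟨p, hp, hpz⟩ := hz
  have hpz' : p.eval₂ f z = 0 := hpz
  have hz1 : z ∈ C'.ν.ring := U7L_int C'.ν f hf hp hpz'
  refine ⟨hz1, ?_⟩
  obtain ⟨P, hP⟩ := exists_pl v
  let φ : x →+* C'.ν.ring := f.codRestrict C'.ν.ring hf
  have h1 : p.eval₂ φ (⟨z, hz1⟩ : C'.ν.ring) = 0 := by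
    have h2 := Polynomial.hom_eval₂ p φ (C'.ν.ring.val : C'.ν.ring →ₐ[ℂ] M).toRingHom
      (⟨z, hz1⟩ : C'.ν.ring)
    have h3 : ((p.eval₂ φ (⟨z, hz1⟩ : C'.ν.ring) : C'.ν.ring) : M) = p.eval₂ f z := h2
    rw [hpz'] at h3
    exact Subtype.ext h3
  have h2 : p.eval₂ (C'.hom.comp φ) (C'.ψ z) = 0 := by
    have h3 := Polynomial.hom_eval₂ p φ C'.hom (⟨z, hz1⟩ : C'.ν.ring)
    rw [h1, map_zero] at h3
    exact h3.symm
  have h3 : ∀ a : x, (C'.hom.comp φ) a ∈ P.ring := by
    intro a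
    show 0 ≤ P.ord (C'.ψ (algebraMap L M (a : L)))
    rw [hl.ψ a (hx.le a.2), hP]
    exact hx.nonneg a a.2
  have h4 := U7L_int P (C'.hom.comp φ) h3 hp h2
  rw [← hP]
  exact h4

end Pool.Agent.LibK3
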