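import Pool.Agent.LibCUR2.Facts
import Pool.Agent.LibCov80.Norm

/-!
ROW [K3 UDefs].

Block U (sections on the cover `M / L`): definitions.
-/

set_option autoImplicit false
set_option linter.unusedSectionVars false

open Pool.Agent.LibGMM Pool.Agent.LibK Pool.Agent.LibKB Pool.Agent.LibCov80
open Pool.Agent.LibLB (PSurf RLR)
open Pool.Agent.LibCUR2

namespace Pool.Agent.LibK3

variable {L : Type} [Field L] [Algebra ℂ L] {M : Type} [Field M] [Algebra ℂ M] [Algebra L M]
  [IsScalarTower ℂ L M] [FiniteDimensional L M]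

section

variable (L)

/-- The valuation of `L` below the valuation `P` of `M`. -/
noncomputable def bel (P : DVal M) : DVal L := (LibCov80.exists_over (k := L) P).choose

/-- The ramification index. -/
noncomputable def ram (P : DVal M) : ℕ := (LibCov80.exists_over (k := L) P).choose_spec.choose

end

theorem over_bel (P : DVal M) : LibCov80.Over P (bel L P) (ram L P) :=
  (LibCov80.exists_over (k := L) P).choose_spec.choose_spec

theorem bel_eq {P : DVal M} {ν : DVal L} {e : ℕ} (h : LibCov80.Over P ν e) : bel L P = ν :=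
  (over_bel P).unique h

theorem ram_pos (P : DVal M) : 0 < ram L P := (over_bel P).pos

theorem ord_map (P : DVal M) (z : L) : P.ord (algebraMap L M z) = ram L P * (bel L P).ord z :=
  (over_bel P).ord z

theorem ram_eq {P : DVal M} {ν : DVal L} {e : ℕ} (h : LibCov80.Over P ν e) : ram L P = e := by
  have h1 := bel_eq h
  obtain ⟨t, ht⟩ := ν.exists_ord_one
  have h2 := h.ord t
  have h3 := ord_map P t
  rw [h1, ht] at h3
  rw [ht, h3] at h2
  exact_mod_cast (by linarith : (ram L P : ℤ) = e)

variable (M) in
/-- The prime divisors of `M` over those of the surface `S`. -/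
def prmM (S : PSurf L) : Set (DVal M) := {P | bel L P ∈ S.prm}

/-- `E` is an effective divisor on `M`. -/
structure EffM (S : PSurf L) (E : DVal M → ℤ) : Prop where
  nonneg : ∀ P ∈ prmM M S, 0 ≤ E P
  fin : {P | P ∈ prmM M S ∧ E P ≠ 0}.Finite

/-- The sections of `π^* D - E` on `M`. -/
def secM (S : PSurf L) (D : DVal L → ℤ) (E : DVal M → ℤ) : Submodule ℂ M where
  carrier := {s | ∀ P ∈ prmM M S, s ≠ 0 → E P ≤ P.ord s + ram L P * D (bel L P)}
  zero_mem' := by
    intro P _ h
    exact absurd rfl h
  add_mem' := by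
    intro a b ha hb P hP hab
    by_cases h0 : a = 0
    · subst h0; rw [zero_add] at hab ⊢; exact hb P hP hab
    by_cases h1 : b = 0
    · subst h1; rw [add_zero] at hab ⊢; exact ha P hP hab
    have h2 := P.ord_add a b h0 h1 hab
    have h3 := ha P hP h0
    have h4 := hb P hP h1
    rcases le_total (P.ord a) (P.ord b) with h | h
    · rw [min_eq_left h] at h2; omega
    · rw [min_eq_right h] at h2; omega
  smul_mem' := by
    intro c a ha P hP hca
    rw [Algebra.smul_def] at hca ⊢
    have h0 : algebraMap ℂ M c ≠ 0 := fun h => hca (by rw [h, zero_mul])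
    have h1 : a ≠ 0 := fun h => hca (by rw [h, mul_zero])
    have h2 := ha P hP h1
    rw [P.ord_mul _ _ h0 h1, P.ord_const, zero_add]
    exact h2

theorem mem_secM {S : PSurf L} {D : DVal L → ℤ} {E : DVal M → ℤ} {s : M} :
    s ∈ secM S D E ↔ ∀ P ∈ prmM M S, s ≠ 0 → E P ≤ P.ord s + ram L P * D (bel L P) := Iff.rfl

end Pool.Agent.LibK3
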