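import Pool.Agent.LibK3.Base
import Pool.Agent.LibK3.UDefs

/-!
ROW [K3 UR].

Block U, second part: definitions.
-/

set_option autoImplicit false
set_option linter.unusedSectionVars false

open Pool.Agent.LibGMM Pool.Agent.LibK Pool.Agent.LibKB
open Pool.Agent.LibLB (PSurf RLR)
open Pool.Agent.LibCov80 (Over)
open Pool.Agent.LibCUR2

namespace Pool.Agent.LibK3

variable {L : Type} [Field L] [Algebra ℂ L] {M : Type} [Field M] [Algebra ℂ M] [Algebra L M]
  [IsScalarTower ℂ L M] [FiniteDimensional L M]

/-- The place `v` of the lift `C'` of `C` lies on the prime divisor `Q` of `M`. -/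
def MeetsAt (S : PSurf L) (C : RC L) (C' : RC M) (Q : DVal M) (v : Plc) : Prop :=
  ∀ z : M, IsIntegral (ctr S C v) z → 0 < Q.ord z → C'.ψ z = 0 ∨ 0 < ordP v (C'.ψ z)

/-- The divisor `π^* D₀` without its part along `Q`. -/
noncomputable def divE (D₀ : DVal L → ℤ) (Q : DVal M) : DVal M → ℤ :=
  open Classical in fun P => if P = Q then 0 else ram L P * D₀ (bel L P)

end Pool.Agent.LibK3
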