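import Pool.Agent.LibK3.SP3
import Pool.Agent.LibK3.U2
import Pool.Agent.LibK3.U7L
import Pool.Agent.LibK3.UR

/-!
Block D, local part: at a place where the lift of `C` meets the ramified prime `Q` and whose centre is not in a
finite set of points, the contact of `C` with the prime below `Q` is at least `2`.
-/

set_option autoImplicit false
set_option linter.unusedSectionVars false

open Pool.Agent.LibGMM Pool.Agent.LibK Pool.Agent.LibKB
open Pool.Agent.LibLB (PSurf RLR)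
open Pool.Agent.LibCov80 (Over)

namespace Pool.Agent.LibK3

variable {L : Type} [Field L] [Algebra ℂ L] {M : Type} [Field M] [Algebra ℂ M] [Algebra L M]
  [IsScalarTower ℂ L M] [FiniteDimensional L M]

/-- An element integral over `B.ring` is integral over almost all points of `B`. -/
theorem spreadM {S : PSurf L} {B : DVal L} (hB : B ∈ S.prm) {z : M} (hz : IsIntegral B.ring z) :
    {x | x ∈ S.pts ∧ x ≤ B.ring ∧ ¬ IsIntegral x z}.Finite := by
  obtain ⟨p, hp, hpz⟩ := hz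
  have h1 : (⋃ i ∈ Finset.range (p.natDegree + 1),
      {x | x ∈ S.pts ∧ x ≤ B.ring ∧ (p.coeff i : L) ∉ x}).Finite :=
    Set.Finite.biUnion (Finset.finite_toSet _) fun i _ => spread hB (p.coeff i).2
  refine h1.subset ?_
  rintro x ⟨hx1, hx2, hx3⟩
  by_contra hcon
  apply hx3
  have h2 : ∀ i, (p.coeff i : L) ∈ x := by
    intro i
    by_cases hi : i ≤ p.natDegree
    · by_contra h
      exact hcon (Set.mem_iUnion₂.2 ⟨i, Finset.mem_range.2 (by omega), hx1, hx2, h⟩)
    · rw [Polynomial.coeff_eq_zero_of_natDegree_lt (by omega)]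
      exact x.zero_mem
  have hL : (p.map (algebraMap B.ring L)).Monic := hp.map _
  have hl : p.map (algebraMap B.ring L) ∈ Polynomial.lifts (algebraMap x L) := by
    rw [Polynomial.lifts_iff_coeff_lifts]
    intro i
    rw [Polynomial.coeff_map]
    exact ⟨⟨_, h2 i⟩, rfl⟩
  obtain ⟨q, hq1, -, hq2⟩ := Polynomial.lifts_and_natDegree_eq_and_monic hl hL
  refine ⟨q, hq2, ?_⟩
  rw [IsScalarTower.algebraMap_eq x L M, ← Polynomial.eval₂_map, hq1, Polynomial.eval₂_map,
    ← IsScalarTower.algebraMap_eq B.ring L M]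
  exact hpz

omit [IsScalarTower ℂ L M] [FiniteDimensional L M] [Algebra L M] [Algebra ℂ M] [Field M] in
/-- A uniformiser is a local equation at almost all points. -/
theorem spread_loc {S : PSurf L} {B : DVal L} (hB : B ∈ S.prm) {c : L} (hc : B.ord c = 1) :
    {x | x ∈ S.pts ∧ x ≤ B.ring ∧ ¬ LocEqn S.prm x (prd B) c}.Finite := by
  have hc0 : c ≠ 0 := by
    rintro rfl
    rw [B.ord_zero] at hc
    exact zero_ne_one hc
  have h1 : {T | T ∈ S.prm ∧ T.ord c ≠ 0}.Finite := S.finDiv c hc0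
  have h2 : (⋃ T ∈ {T | T ∈ S.prm ∧ T.ord c ≠ 0} \ {B},
      {x | x ∈ S.pts ∧ x ≤ B.ring ∧ x ≤ T.ring}).Finite :=
    Set.Finite.biUnion (h1.subset Set.sdiff_subset) fun T hT =>
      finite_common hB hT.1.1 (Ne.symm hT.2)
  refine h2.subset ?_
  rintro x ⟨hx1, hx2, hx3⟩
  by_contra hcon
  refine hx3 ⟨hc0, fun T hT hxT => ?_⟩
  by_cases hTB : T = B
  · rw [hTB, prd_self, hc]
  · rw [prd_ne hTB]
    by_contra h
    exact hcon (Set.mem_iUnion₂.2 ⟨T, ⟨⟨hT, h⟩, hTB⟩, hx1, hx2, hxT⟩)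

/-- The centre of a place where the lift meets `Q` is on the prime below `Q`. -/
theorem ctr_le_of_meets {S : PSurf L} {C : RC L} (hC : C.ν ∈ S.prm) {C' : RC M} (hl : C'.Lift C)
    {Q : DVal M} {v : Plc} (h : MeetsAt S C C' Q v) : ctr S C v ≤ (bel L Q).ring := by
  intro z hz
  by_contra hcon
  have hx := isCtr_ctr hC v
  obtain ⟨a, b, hab⟩ := S.coord _ hx.pts
  have key : ∃ u ∈ ctr S C v, u ≠ 0 ∧ u⁻¹ ∈ ctr S C v ∧ 0 < (bel L Q).ord u := by
    have hz0 : z ≠ 0 := by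
      rintro rfl
      exact hcon (zero_mem _)
    have hord : (bel L Q).ord z < 0 := not_le.1 hcon
    by_cases hzi : z⁻¹ ∈ ctr S C v
    · exact ⟨z⁻¹, hzi, inv_ne_zero hz0, by rwa [inv_inv], by rw [ord_inv _ hz0]; omega⟩
    · have h1 : (z + 1)⁻¹ ∈ ctr S C v := by
        rcases hab.unit (z + 1) (add_mem hz (one_mem _)) with h2 | ⟨p, hp, q, hq, h2⟩
        · exact h2
        · exfalso
          rcases hab.unit z hz with h3 | ⟨p', hp', q', hq', h3⟩
          · exact hzi h3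
          · refine hab.nonunit (p - p') (sub_mem hp hp') (q - q') (sub_mem hq hq') ?_
            linear_combination h3 - h2
      have h4 := (bel L Q).ord_add_eq hz0 (b := 1) (Or.inr (by rw [ord_one]; exact hord))
      refine ⟨(z + 1)⁻¹, h1, inv_ne_zero h4.2, ?_, ?_⟩
      · rw [inv_inv]
        exact add_mem hz (one_mem _)
      · rw [ord_inv _ h4.2, h4.1]
        omega
  obtain ⟨u, hu, hu0, hu', hpos⟩ := key
  have h5 : IsIntegral (ctr S C v) (algebraMap L M u) :=
    isIntegral_algebraMap (R := ctr S C v) (A := M) (x := ⟨u, hu⟩)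
  have h6 : 0 < Q.ord (algebraMap L M u) := by
    rw [ord_map]
    have := ram_pos (L := L) Q
    positivity
  have h7 := h _ h5 h6
  rw [hl.ψ u (hx.le hu)] at h7
  obtain ⟨h8, h9⟩ := ordP_unit hC hx hu hu0 hu'
  rcases h7 with h7 | h7
  · exact h8 h7
  · omega

/-- **Ramification gives contact at least two.** -/
theorem kap_two (S : PSurf L) {Q : DVal M} (hQ : Q ∈ prmM M S) (hr : 2 ≤ ram L Q) :
    ∃ S₁ : Set (Subalgebra ℂ L), S₁.Finite ∧ S₁ ⊆ S.pts ∧ ∀ C : RC L, C.ν ∈ S.prm →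
      C.ν ≠ bel L Q → ∀ C' : RC M, C'.Lift C → ∀ v, MeetsAt S C C' Q v → ctr S C v ∉ S₁ →
        2 ≤ kap S C v (bel L Q) := by
  classical
  have hB : bel L Q ∈ S.prm := hQ
  obtain ⟨c, hc⟩ := (bel L Q).exists_ord_one
  have hc0 : c ≠ 0 := by
    rintro rfl
    rw [(bel L Q).ord_zero] at hc
    exact zero_ne_one hc
  have hcM : algebraMap L M c ≠ 0 := (map_ne_zero _).2 hc0
  obtain ⟨π, hπ0, hπ⟩ := exists_orders (M := M) (bel L Q) fun P => if P = Q then 1 else 0
  have hπQ : Q.ord π = 1 := by rw [hπ Q rfl, if_pos rfl]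
  have hπi : IsIntegral (bel L Q).ring π := (int_iff_ring _ π).2 fun P hP => by
    rw [hπ P hP]
    split_ifs <;> norm_num
  have hcπ : IsIntegral (bel L Q).ring (algebraMap L M c / π ^ 2) :=
    (int_iff_ring _ _).2 fun P hP => by
      rw [ord_div _ hcM (pow_ne_zero 2 hπ0), ord_pow _ hπ0, hπ P hP, ord_map, hP, hc]
      split_ifs with h
      · rw [h]
        push_cast
        omega
      · have := ram_pos (L := L) P
        omega
  refine ⟨{x | x ∈ S.pts ∧ x ≤ (bel L Q).ring ∧ ¬ IsIntegral x π} ∪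
    {x | x ∈ S.pts ∧ x ≤ (bel L Q).ring ∧ ¬ IsIntegral x (algebraMap L M c / π ^ 2)} ∪
    {x | x ∈ S.pts ∧ x ≤ (bel L Q).ring ∧ ¬ LocEqn S.prm x (prd (bel L Q)) c},
    ((spreadM hB hπi).union (spreadM hB hcπ)).union (spread_loc hB hc), ?_, ?_⟩
  · rintro x ((hx | hx) | hx) <;> exact hx.1
  intro C hC hCB C' hl v hv hx
  have hxB := ctr_le_of_meets hC hl hv
  have hx' := isCtr_ctr hC v
  have h1 : IsIntegral (ctr S C v) π := by
    by_contra h
    exact hx (Or.inl (Or.inl ⟨hx'.pts, hxB, h⟩))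
  have h2 : IsIntegral (ctr S C v) (algebraMap L M c / π ^ 2) := by
    by_contra h
    exact hx (Or.inl (Or.inr ⟨hx'.pts, hxB, h⟩))
  have h3 : LocEqn S.prm (ctr S C v) (prd (bel L Q)) c := by
    by_contra h
    exact hx (Or.inr ⟨hx'.pts, hxB, h⟩)
  have h4 := ct_eq hC hx' (isDiv_prd _) h3 (c := 1) one_ne_zero
    (by rw [ord_one, prd_ne hCB, neg_zero])
  rw [one_mul] at h4
  have h5 := lift_int hC hl v h1
  have h6 := lift_int hC hl v h2
  have hcC : c ∈ C.ν.ring := by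
    rw [mem_ring, h3.2 C.ν hC hx'.le, prd_ne hCB]
  have h7 : C.ψ c = C'.ψ π * (C'.ψ π * C'.ψ (algebraMap L M c / π ^ 2)) := by
    rw [← hl.ψ c hcC, ← C'.mul _ h5.1 _ h6.1, ← C'.mul _ h5.1 _ (mul_mem h5.1 h6.1)]
    congr 1
    field_simp
  have h8 := hv π h1 (by rw [hπQ]; norm_num)
  have h9 := h4.2
  rw [h7] at h9
  have h10 : C'.ψ π ≠ 0 := left_ne_zero_of_mul h9
  have h11 : C'.ψ (algebraMap L M c / π ^ 2) ≠ 0 := right_ne_zero_of_mul (right_ne_zero_of_mul h9)
  have h12 := h8.resolve_left h10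
  have h13 := h6.2
  unfold kap
  rw [h4.1, h7, ordP_mul v h10 (mul_ne_zero h10 h11), ordP_mul v h10 h11]
  omega

end Pool.Agent.LibK3
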