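import Pool.Agent.LibCov80.Val
import Pool.Agent.LibLB.Base0

/-!
THEOREM K3 (MP_87f965_ag), geometric part over `ℂ`: definitions.

* `mv γ ν`: the image of the prime divisor `ν` under the automorphism given by `γ` on rational
  functions: `ord_{mv γ ν} z = ord_ν (γ⁻¹ z)`.
* `Dyn Y γ a φ`: `Y` is a smooth projective surface, `γ` an automorphism of it, and the hyperplane
  class satisfies `γ h + γ⁻¹ h ~ a h` with `a ≥ 3`.
* `RC K`: a prime divisor of `K` with residue field `ℂ(t)`, with the residue map (a rational curve).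
* `pl v`: the place `v ∈ ℙ¹(ℂ) = Option ℂ` of `ℂ(t)`.
-/

set_option autoImplicit false

open Pool.Agent.LibGMM Pool.Agent.LibK Pool.Agent.LibKB
open Pool.Agent.LibLB (PSurf RLR)
open Pool.Agent.LibCov80 (Over)

namespace Pool.Agent.LibK3

section

variable {K : Type} [Field K] [Algebra ℂ K]

/-- The image of the valuation `ν` under `γ`. -/
def mv (γ : K ≃ₐ[ℂ] K) (ν : DVal K) : DVal K where
  ord z := ν.ord (γ.symm z)
  ord_zero := by rw [map_zero]; exact ν.ord_zero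
  ord_mul a b ha hb := by
    rw [map_mul]
    exact ν.ord_mul _ _ (by simpa using ha) (by simpa using hb)
  ord_add a b ha hb hab := by
    rw [map_add]
    refine ν.ord_add _ _ (by simpa using ha) (by simpa using hb) fun h => hab ?_
    rw [← map_add] at h
    exact (map_eq_zero_iff γ.symm γ.symm.injective).1 h
  ord_const c := by
    rw [AlgEquiv.commutes]
    exact ν.ord_const c
  exists_ord_one := by
    obtain ⟨t, ht⟩ := ν.exists_ord_one
    exact ⟨γ t, by rw [AlgEquiv.symm_apply_apply]; exact ht⟩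

theorem mv_ord (γ : K ≃ₐ[ℂ] K) (ν : DVal K) (z : K) : (mv γ ν).ord z = ν.ord (γ.symm z) := rfl

theorem DVal_ext {ν μ : DVal K} (h : ∀ z, ν.ord z = μ.ord z) : ν = μ := by
  obtain ⟨o, h1, h2, h3, h4, h5⟩ := ν
  obtain ⟨o', h1', h2', h3', h4', h5'⟩ := μ
  have : o = o' := funext h
  subst this
  rfl

theorem mv_one (ν : DVal K) : mv 1 ν = ν := DVal_ext fun _ => rfl

theorem mv_mul (γ γ' : K ≃ₐ[ℂ] K) (ν : DVal K) : mv (γ * γ') ν = mv γ (mv γ' ν) :=
  DVal_ext fun _ => rfl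

theorem mem_ring {ν : DVal K} {z : K} : z ∈ ν.ring ↔ 0 ≤ ν.ord z := Iff.rfl

theorem mem_mv_ring {γ : K ≃ₐ[ℂ] K} {ν : DVal K} {z : K} :
    z ∈ (mv γ ν).ring ↔ γ.symm z ∈ ν.ring := Iff.rfl

/-- A place of `ℂ(t)`: `some c` is the point `t = c`, `none` is the point at infinity. -/
abbrev Plc : Type := Option ℂ

/-- The order of a rational function at a place. -/
noncomputable def ordP : Plc → RatFunc ℂ → ℤ
  | some c => fun f => ((f.num.rootMultiplicity c : ℕ) : ℤ) - (f.denom.rootMultiplicity c : ℕ)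
  | none => fun f => - f.intDegree

end

section

/-- A rational curve: a prime divisor `ν` with residue field `ℂ(t)`; `ψ` is the residue map
`ν.ring → ℂ(t)` (the values of `ψ` outside the ring are not used). -/
structure RC (K : Type) [Field K] [Algebra ℂ K] where
  ν : DVal K
  ψ : K → RatFunc ℂ
  add : ∀ z ∈ ν.ring, ∀ w ∈ ν.ring, ψ (z + w) = ψ z + ψ w
  mul : ∀ z ∈ ν.ring, ∀ w ∈ ν.ring, ψ (z * w) = ψ z * ψ w
  const : ∀ c : ℂ, ψ (algebraMap ℂ K c) = RatFunc.C c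
  zero_iff : ∀ z ∈ ν.ring, ψ z = 0 ↔ z = 0 ∨ 0 < ν.ord z
  surj : ∀ f, ∃ z ∈ ν.ring, ψ z = f

variable {K : Type} [Field K] [Algebra ℂ K]

/-- The image of the curve `C` under `γ`. -/
def RC.mv (γ : K ≃ₐ[ℂ] K) (C : RC K) : RC K where
  ν := LibK3.mv γ C.ν
  ψ z := C.ψ (γ.symm z)
  add z hz w hw := by
    rw [map_add]
    exact C.add _ hz _ hw
  mul z hz w hw := by
    rw [map_mul]
    exact C.mul _ hz _ hw
  const c := by
    rw [AlgEquiv.commutes]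
    exact C.const c
  zero_iff z hz := by
    rw [C.zero_iff _ hz]
    simp [mv_ord]
  surj f := by
    obtain ⟨z, hz, hf⟩ := C.surj f
    refine ⟨γ z, ?_, ?_⟩
    · rw [mem_mv_ring, AlgEquiv.symm_apply_apply]
      exact hz
    · rw [AlgEquiv.symm_apply_apply]
      exact hf

theorem RC.mv_ν (γ : K ≃ₐ[ℂ] K) (C : RC K) : (C.mv γ).ν = LibK3.mv γ C.ν := rfl

theorem RC.mv_ψ (γ : K ≃ₐ[ℂ] K) (C : RC K) (z : K) : (C.mv γ).ψ z = C.ψ (γ.symm z) := rfl

/-- The curve `C'` of `M` is a lift of the curve `C` of `L`. -/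
structure RC.Lift {L : Type} [Field L] [Algebra ℂ L] {M : Type} [Field M] [Algebra ℂ M]
    [Algebra L M] (C' : RC M) (C : RC L) : Prop where
  isOver : Over C'.ν C.ν 1
  ψ : ∀ z ∈ C.ν.ring, C'.ψ (algebraMap L M z) = C.ψ z

end

section

variable {L : Type} [Field L] [Algebra ℂ L]

/-- `Y` is a smooth projective surface, `γ` an automorphism of it (`γ` and `γ⁻¹` permute the local
rings of the closed points) and `γ h + γ⁻¹ h = a h + div φ`, `a ≥ 3`, for the hyperplane divisor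
`h`. -/
structure Dyn (Y : NormalModel L) (γ : L ≃ₐ[ℂ] L) (a : ℤ) (φ : L) : Prop where
  smooth : LibL.IsSmoothSurface Y
  pts : ∀ x ∈ LibLB.closedPts Y, x.map (γ : L →ₐ[ℂ] L) ∈ LibLB.closedPts Y
  pts' : ∀ x ∈ LibLB.closedPts Y, x.map (γ.symm : L →ₐ[ℂ] L) ∈ LibLB.closedPts Y
  ha : 3 ≤ a
  hφ : φ ≠ 0
  rel : ∀ ν ∈ primes Y, hypZ Y (mv γ ν) + hypZ Y (mv γ.symm ν) = a * hypZ Y ν + ν.ord φ

/-- The residue field of `μ` is equal to the residue field of `ν`. -/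
def ResOne {M : Type} [Field M] [Algebra ℂ M] [Algebra L M] (μ : DVal M) (ν : DVal L) : Prop :=
  ∀ z ∈ μ.ring, ∃ w ∈ ν.ring, z = algebraMap L M w ∨ 0 < μ.ord (z - algebraMap L M w)

/-- The derivation `d / dt` of `ℂ(t)`. -/
def IsDt (δ : Derivation ℂ (RatFunc ℂ) (RatFunc ℂ)) : Prop := δ RatFunc.X = 1

/-- **(G-A)**: if `M / L` is ramified over a prime divisor of `Y` then there is a polynomial `F ≠ 0`
over `L` such that for all large `m`: if the curve `γ^m C₀` lifts to `M` then its slope `dy / dx` is a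
root of (the reduction of) `F`. -/
def StatementA : Prop :=
  ∀ (L : Type) [Field L] [Algebra ℂ L] (Y : NormalModel L) (γ : L ≃ₐ[ℂ] L) (a : ℤ) (φ : L),
    Dyn Y γ a φ → ∀ C₀ : RC L, C₀.ν ∈ primes Y →
    ∀ x y : L, AlgebraicIndependent ℂ ![x, y] →
    ∀ (M : Type) [Field M] [Algebra ℂ M] [Algebra L M] [IsScalarTower ℂ L M]
      [FiniteDimensional L M],
    (∃ (B : DVal L) (Q : DVal M) (e : ℕ), B ∈ primes Y ∧ Over Q B e ∧ 2 ≤ e) →
    ∃ F : Polynomial L, F ≠ 0 ∧ ∃ m₀ : ℕ, ∀ m : ℕ, m₀ ≤ m →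
      (∃ (μ : DVal M) (e : ℕ), Over μ (mv (γ ^ m) C₀.ν) e ∧ ResOne μ (mv (γ ^ m) C₀.ν)) →
      (∀ i, F.coeff i ∈ (mv (γ ^ m) C₀.ν).ring) ∧ x ∈ (mv (γ ^ m) C₀.ν).ring ∧
      y ∈ (mv (γ ^ m) C₀.ν).ring ∧
      ∀ δ : Derivation ℂ (RatFunc ℂ) (RatFunc ℂ),
        ∑ i ∈ Finset.range (F.natDegree + 1), (C₀.mv (γ ^ m)).ψ (F.coeff i) *
          (δ ((C₀.mv (γ ^ m)).ψ y)) ^ i * (δ ((C₀.mv (γ ^ m)).ψ x)) ^ (F.natDegree - i) = 0

/-- **(G-B)**: the slopes of the curves `γ^m C₀` (`m` large) are not all given by a finite set of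
rational functions. -/
def StatementB : Prop :=
  ∀ (L : Type) [Field L] [Algebra ℂ L] (Y : NormalModel L) (γ : L ≃ₐ[ℂ] L) (a : ℤ) (φ : L),
    Dyn Y γ a φ → ∀ C₀ : RC L, C₀.ν ∈ primes Y →
    ∀ x y : L, AlgebraicIndependent ℂ ![x, y] → ∀ T : Set L, T.Finite →
    ∀ δ : Derivation ℂ (RatFunc ℂ) (RatFunc ℂ), IsDt δ →
    ¬ ∃ m₀ : ℕ, ∀ m : ℕ, m₀ ≤ m → x ∈ (mv (γ ^ m) C₀.ν).ring ∧ y ∈ (mv (γ ^ m) C₀.ν).ring ∧
      ∃ s ∈ T, s ∈ (mv (γ ^ m) C₀.ν).ring ∧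
        δ ((C₀.mv (γ ^ m)).ψ y) = (C₀.mv (γ ^ m)).ψ s * δ ((C₀.mv (γ ^ m)).ψ x)

end

end Pool.Agent.LibK3
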