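import Mathlib

/-!
Block E (StatementB), the pigeonhole arguments (pure numbers).
-/

set_option autoImplicit false

namespace Pool.Agent.LibK3

/-- If for every `p` the number of `l` in `[W, 3 W / 2]` of the same colour as `p` is bounded by a
constant depending on `p` only (`W` large), then the number of colours is infinite. -/
theorem pigeon_colours {ι : Type} (T : Set ι) (hT : T.Finite) (m₀ : ℕ) (τ : ℕ → ι)
    (hτ : ∀ m, m₀ ≤ m → τ m ∈ T)
    (H : ∀ p, m₀ ≤ p → ∃ N W₀ : ℕ, ∀ W, W₀ ≤ W → ∀ S : Finset ℕ,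
      (∀ l ∈ S, W ≤ l ∧ 2 * l ≤ 3 * W ∧ τ l = τ p) → S.card ≤ N) : False := by
  classical
  -- a bound for every colour
  have H1 : ∀ s : ι, ∃ N W₀ : ℕ, m₀ ≤ W₀ ∧ ∀ W, W₀ ≤ W → ∀ S : Finset ℕ,
      (∀ l ∈ S, W ≤ l ∧ 2 * l ≤ 3 * W ∧ τ l = s) → S.card ≤ N := by
    intro s
    by_cases hs : ∃ p, m₀ ≤ p ∧ τ p = s
    · obtain ⟨p, hp, rfl⟩ := hs
      obtain ⟨N, W₀, h⟩ := H p hp
      exact ⟨N, max m₀ W₀, le_max_left _ _, fun W hW => h W ((le_max_right _ _).trans hW)⟩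
    · refine ⟨0, m₀, le_rfl, fun W hW S hS => ?_⟩
      rw [Nat.le_zero, Finset.card_eq_zero, Finset.eq_empty_iff_forall_notMem]
      intro l hl
      exact hs ⟨l, hW.trans (hS l hl).1, (hS l hl).2.2⟩
  choose N W₀ hW₀ hN using H1
  set TF : Finset ι := hT.toFinset with hTF
  set W : ℕ := 2 * ((∑ s ∈ TF, N s) + (∑ s ∈ TF, W₀ s) + m₀ + 1) with hWdef
  have hWge : ∀ s ∈ TF, W₀ s ≤ W := by
    intro s hs
    have := Finset.single_le_sum (f := W₀) (fun i _ => Nat.zero_le _) hs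
    omega
  have h1 : (Finset.Icc W (W + W / 2)).card ≤ ∑ s ∈ TF, N s := by
    have h2 : Finset.Icc W (W + W / 2) ⊆
        TF.biUnion fun s => (Finset.Icc W (W + W / 2)).filter fun l => τ l = s := by
      intro l hl
      rw [Finset.mem_biUnion]
      refine ⟨τ l, ?_, Finset.mem_filter.2 ⟨hl, rfl⟩⟩
      rw [hTF, Set.Finite.mem_toFinset]
      exact hτ l (by rw [Finset.mem_Icc] at hl; omega)
    refine (Finset.card_le_card h2).trans (Finset.card_biUnion_le.trans ?_)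
    refine Finset.sum_le_sum fun s hs => ?_
    refine hN s W (hWge s hs) _ fun l hl => ?_
    rw [Finset.mem_filter, Finset.mem_Icc] at hl
    exact ⟨hl.1.1, by omega, hl.2⟩
  rw [Nat.card_Icc] at h1
  omega

/-- The numerical form of E4, E5. -/
theorem pigeon_places {α : Type} (Z : Finset α) (lam c C K μ : ℝ) (hlam : 1 < lam) (hc : 0 < c)
    (p l₀ : ℕ) (good : ℕ → Prop) (κ : α → ℕ → ℝ)
    (h4 : ∀ l, l₀ ≤ l → good l → c * lam ^ (l - p) - K ≤ ∑ v ∈ Z, κ v l)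
    (h5 : ∀ v ∈ Z, ∀ l l', l₀ ≤ l → l < l' → good l → good l' →
      min (κ v l) (κ v l') ≤ μ * (C * lam ^ (l' - l))) :
    ∃ N W₀ : ℕ, ∀ W, W₀ ≤ W → ∀ S : Finset ℕ,
      (∀ l ∈ S, W ≤ l ∧ 2 * l ≤ 3 * W ∧ good l) → S.card ≤ N := by
  classical
  have hlam0 : 0 < lam := by linarith
  -- growth: for W large, c lam^(W-p) - K > (card Z + 1) * |mu C| * lam^(W/2+1)
  obtain ⟨W₁, hW₁⟩ : ∃ W₁ : ℕ, ∀ W : ℕ, W₁ ≤ W →
      ((Z.card : ℝ) + 1) * (|μ * C| + 1) * lam ^ (W / 2) + K < c * lam ^ (W - p) := by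
    -- with j = W / 2: lam ^ (W - p) ≥ lam ^ (2 j - p)
    set A : ℝ := ((Z.card : ℝ) + 1) * (|μ * C| + 1) with hA
    have hA0 : 0 < A := by positivity
    obtain ⟨j₁, hj₁⟩ := pow_unbounded_of_one_lt ((A + |K|) * lam ^ p / c) hlam
    refine ⟨2 * (j₁ + p) + 2, fun W hW => ?_⟩
    have hj : j₁ ≤ W / 2 := by omega
    have h1 : (A + |K|) * lam ^ p / c < lam ^ (W / 2) :=
      hj₁.trans_le (pow_le_pow_right₀ hlam.le hj)
    have h2 : (A + |K|) * lam ^ p < c * lam ^ (W / 2) := by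
      rw [div_lt_iff₀ hc] at h1
      linarith
    have h3 : lam ^ (W / 2) * lam ^ (W / 2) ≤ lam ^ (W - p) * lam ^ p := by
      rw [← pow_add, ← pow_add]
      exact pow_le_pow_right₀ hlam.le (by omega)
    have h4 : 1 ≤ lam ^ (W / 2) := one_le_pow₀ hlam.le
    have hp0 : 0 < lam ^ p := pow_pos hlam0 _
    have h5 : K ≤ |K| * lam ^ (W / 2) := by
      calc K ≤ |K| := le_abs_self K
        _ = |K| * 1 := (mul_one _).symm
        _ ≤ |K| * lam ^ (W / 2) := mul_le_mul_of_nonneg_left h4 (abs_nonneg K)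
    have h6 : A * lam ^ (W / 2) + K ≤ (A + |K|) * lam ^ (W / 2) := by
      rw [add_mul]
      linarith
    refine lt_of_le_of_lt h6 ?_
    -- multiply by lam ^ p
    have h7 : (A + |K|) * lam ^ (W / 2) * lam ^ p < c * lam ^ (W - p) * lam ^ p := by
      calc (A + |K|) * lam ^ (W / 2) * lam ^ p
          = ((A + |K|) * lam ^ p) * lam ^ (W / 2) := by ring
        _ < (c * lam ^ (W / 2)) * lam ^ (W / 2) :=
            mul_lt_mul_of_pos_right h2 (by linarith)
        _ = c * (lam ^ (W / 2) * lam ^ (W / 2)) := by ring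
        _ ≤ c * (lam ^ (W - p) * lam ^ p) := mul_le_mul_of_nonneg_left h3 hc.le
        _ = c * lam ^ (W - p) * lam ^ p := by ring
    exact lt_of_mul_lt_mul_right h7 hp0.le
  refine ⟨Z.card, max (max l₀ W₁) p, fun W hW S hS => ?_⟩
  by_contra hcon
  push Not at hcon
  have hWl : l₀ ≤ W := ((le_max_left _ _).trans (le_max_left _ _)).trans hW
  have hWW : W₁ ≤ W := ((le_max_right _ _).trans (le_max_left _ _)).trans hW
  have hgr := hW₁ W hWW
  set B : ℝ := (|μ * C| + 1) * lam ^ (W / 2) with hB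
  have hB0 : 0 < B := by positivity
  -- every l in S has a place with large contact
  have h6 : ∀ l ∈ S, ∃ v ∈ Z, B < κ v l := by
    intro l hl
    obtain ⟨h1, h2, h3⟩ := hS l hl
    by_contra hno
    push Not at hno
    have h7 : ∑ v ∈ Z, κ v l ≤ Z.card * B := by
      calc ∑ v ∈ Z, κ v l ≤ ∑ _v ∈ Z, B := Finset.sum_le_sum fun v hv => hno v hv
        _ = Z.card * B := by rw [Finset.sum_const, nsmul_eq_mul]
    have h8 := h4 l (hWl.trans h1) h3
    have h9 : lam ^ (W - p) ≤ lam ^ (l - p) := pow_le_pow_right₀ hlam.le (by omega)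
    have h10 : c * lam ^ (W - p) ≤ c * lam ^ (l - p) := mul_le_mul_of_nonneg_left h9 hc.le
    have h11 : ((Z.card : ℝ) + 1) * (|μ * C| + 1) * lam ^ (W / 2) = Z.card * B + B := by
      rw [hB]; ring
    linarith
  have hne : Nonempty α := by
    obtain ⟨l, hl⟩ := Finset.card_pos.1 (by omega : 0 < S.card)
    exact ⟨(h6 l hl).choose⟩
  choose! v hvZ hv using h6
  obtain ⟨l, hl, l', hl', hne, heq⟩ := Finset.exists_ne_map_eq_of_card_lt_of_maps_to hcon
    (fun l hl => hvZ l hl)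
  wlog hlt : l < l' generalizing l l'
  · exact this l' hl' l hl hne.symm heq.symm (lt_of_le_of_ne (not_lt.1 hlt) hne.symm)
  obtain ⟨h1, h2, h3⟩ := hS l hl
  obtain ⟨h1', h2', h3'⟩ := hS l' hl'
  have h12 := h5 (v l) (hvZ l hl) l l' (hWl.trans h1) hlt h3 h3'
  have h13 : B < min (κ (v l) l) (κ (v l) l') := lt_min (hv l hl) (by rw [heq]; exact hv l' hl')
  have h14 : lam ^ (l' - l) ≤ lam ^ (W / 2) := pow_le_pow_right₀ hlam.le (by omega)
  have h15 : μ * (C * lam ^ (l' - l)) ≤ |μ * C| * lam ^ (W / 2) := by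
    rw [← mul_assoc]
    calc μ * C * lam ^ (l' - l) ≤ |μ * C| * lam ^ (l' - l) :=
          mul_le_mul_of_nonneg_right (le_abs_self _) (pow_nonneg hlam0.le _)
      _ ≤ _ := mul_le_mul_of_nonneg_left h14 (abs_nonneg _)
  have h16 : 0 < lam ^ (W / 2) := pow_pos hlam0 _
  rw [hB] at h13
  nlinarith [h12, h13, h15, h16]

end Pool.Agent.LibK3
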