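import Mathlib

/-!
[K3 FA3] Homogenised polynomials (pure algebra). `hom F n X Y := ∑_(i ≤ n) F_i Y^i X^(n-i)`.

PLAN. For `X ≠ 0`: `∑_(i ≤ n) F_i Y^i X^(n-i) = X^n * F.eval (Y / X)` if `natDegree F ≤ n` (`Polynomial.eval_eq_sum_range'`). So both statements
reduce to `eval_prod`.
-/

set_option autoImplicit false

namespace Pool.Agent.LibK3

/-- The homogenised value. -/
theorem hom_eq {K : Type} [Field K] (F : Polynomial K) {n : ℕ} (hn : F.natDegree ≤ n) {X : K}
    (hX : X ≠ 0) (Y : K) : ∑ i ∈ Finset.range (n + 1), F.coeff i * Y ^ i * X ^ (n - i) =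
      X ^ n * F.eval (Y / X) := by
  rw [Polynomial.eval_eq_sum_range' (Nat.lt_succ_of_le hn), Finset.mul_sum]
  refine Finset.sum_congr rfl fun i hi => ?_
  have hi' : i ≤ n := Nat.lt_succ_iff.1 (Finset.mem_range.1 hi)
  have h1 : X ^ n = X ^ (n - i) * X ^ i := by rw [← pow_add, Nat.sub_add_cancel hi']
  rw [h1, div_pow]
  field_simp

/-- If one factor vanishes at `(X : Y)` then the product does. -/
theorem hom_prod {K : Type} [Field K] {J : Type} (s : Finset J) (F : J → Polynomial K) (n : J → ℕ)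
    (hn : ∀ j ∈ s, (F j).natDegree ≤ n j) {X : K} (hX : X ≠ 0) (Y : K) {j : J} (hj : j ∈ s)
    (h : ∑ i ∈ Finset.range (n j + 1), (F j).coeff i * Y ^ i * X ^ (n j - i) = 0)
    {N : ℕ} (hN : (∏ j ∈ s, F j).natDegree ≤ N) :
    ∑ i ∈ Finset.range (N + 1), (∏ j ∈ s, F j).coeff i * Y ^ i * X ^ (N - i) = 0 := by
  rw [hom_eq _ (hn j hj) hX] at h
  have h1 : (F j).eval (Y / X) = 0 :=
    (mul_eq_zero.1 h).resolve_left (pow_ne_zero _ hX)
  rw [hom_eq _ hN hX, Polynomial.eval_prod, Finset.prod_eq_zero hj h1, mul_zero]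

end Pool.Agent.LibK3
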