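import Pool.Agent.LibK3.HDefs

/-!
ROW [K3 H1].

An ultrafilter on `ℕ` which contains the complements of all the sets of density zero (along the tenth powers).

Proof. The sets `S` with `DZ Sᶜ` form a filter: `DZ.mono`, `DZ.union` (LibHP/H0.lean), `DZ.of_finite` (for `univ`); it is not the trivial filter because `DZ Set.univ` is false (`DZ.exists_notMem`). Take `Ultrafilter.of`.
Second statement: finite sets have density zero: `DZ.of_finite`.
-/

set_option autoImplicit false

open Pool.Agent.LibGMM Pool.Agent.LibHP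

namespace Pool.Agent.LibK3

theorem exists_ultra : ∃ F : Ultrafilter ℕ, ∀ Z : Set ℕ, DZ Z → Zᶜ ∈ F := by
  let G : Filter ℕ :=
    { sets := {S | DZ Sᶜ}
      univ_sets := by
        show DZ (Set.univ)ᶜ
        rw [Set.compl_univ]
        exact DZ.of_finite Set.finite_empty
      sets_of_superset := by
        intro S T hS hST
        exact DZ.mono hS (Set.compl_subset_compl.2 hST)
      inter_sets := by
        intro S T hS hT
        show DZ (S ∩ T)ᶜ
        rw [Set.compl_inter]
        exact DZ.union hS hT }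
  have hne : G.NeBot := by
    refine ⟨fun h => ?_⟩
    have h1 : (∅ : Set ℕ) ∈ G := by rw [h]; trivial
    have h2 : DZ (∅ : Set ℕ)ᶜ := h1
    obtain ⟨τ, hτ⟩ := h2.exists_notMem
    exact hτ (by simp)
  refine ⟨Ultrafilter.of G, fun Z hZ => ?_⟩
  apply Ultrafilter.of_le G
  show DZ (Zᶜ)ᶜ
  rwa [compl_compl]

theorem ultra_cofinite (F : Ultrafilter ℕ) (hF : ∀ Z : Set ℕ, DZ Z → Zᶜ ∈ F) {Z : Set ℕ}
    (hZ : Z.Finite) : ∀ᶠ τ in (F : Filter ℕ), τ ∉ Z :=
  hF Z (DZ.of_finite hZ)

end Pool.Agent.LibK3
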