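import Pool.Agent.LibK3.HDefs

/-!
ROW [K3 H10].

Only finitely many points of codimension one are outside a non empty open set.

Proof. `X` is quasi-compact (over `Spec k`): finitely many affine opens `U i` cover `X`; `Γ(X, U i)` is Noetherian (finite type over `k`; e.g. `LocallyOfFiniteType` → `IsLocallyNoetherian X` (`LocallyOfFiniteType.isLocallyNoetherian`), or `exists_etale_chart` as in `isDiscreteValuationRing_stalk`, LibHP/S2.lean, with finitely many charts by compactness). Fix one `U = U i`, affine, `A = Γ(X, U)`, Noetherian domain.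
The generic point is in `W ∩ U`, so there is `s ∈ A` with `genericPoint X ∈ X.basicOpen s ⊆ W` (`hU.exists_basicOpen_le` with the point `genericPoint X`), `s ≠ 0`. Let `x ∈ U`, `ringKrullDim (stalk x) = 1`, `x ∉ W`, and `P` its prime in `A` (`hU.primeIdealOf ⟨x, hx⟩`): `s ∈ P` (otherwise `x ∈ basicOpen s`), the height of `P` is one (`hU.isLocalization_stalk`,
`IsLocalization.AtPrime.ringKrullDim_eq_height`, as in LibHP/S2.lean) so `P` is a minimal prime over `span {s}` (a prime `P'` with `s ∈ P' < P` would give height at least two: `⊥ < P' < P`; `Ideal.height`-lemmas, e.g. `Ideal.mem_minimalPrimes_of_height_eq` or `Ideal.height_strict_mono..`). These are finitely many (`Ideal.finite_minimalPrimes_of_isNoetherianRing`) and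
`x ↦ P` is injective (`hU.fromSpec (hU.primeIdealOf x) = x`).
Second statement: the stalk is a field iff.. : points `x` with a stalk of dimension one are not the generic point; not needed.
-/

set_option autoImplicit false

open Pool.Agent.LibGMM Pool.Agent.LibHP
open AlgebraicGeometry CategoryTheory

namespace Pool.Agent.LibK3

private theorem H10_aff {X : Scheme} [IsIntegral X] (W U : X.Opens) (hW : genericPoint X ∈ W)
    (hU : IsAffineOpen U) (hgU : genericPoint X ∈ U) (hn : IsNoetherianRing Γ(X, U)) :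
    {x : X | x ∈ U ∧ ringKrullDim (X.presheaf.stalk x) = 1 ∧ x ∉ W}.Finite := by
  obtain ⟨s, hsW, hgs⟩ := hU.exists_basicOpen_le (V := W) ⟨genericPoint X, hW⟩ hgU
  have hne : Nonempty U := ⟨⟨_, hgU⟩⟩
  have hs0 : s ≠ 0 := by
    rintro rfl
    simp at hgs
  have hfin : {p : PrimeSpectrum Γ(X, U) | p.asIdeal ∈ (Ideal.span {s}).minimalPrimes}.Finite :=
    (Ideal.finite_minimalPrimes_of_isNoetherianRing Γ(X, U) (Ideal.span {s})).preimage
      (fun p _ q _ hpq => PrimeSpectrum.ext hpq)
  refine (hfin.image (fun p : PrimeSpectrum Γ(X, U) => hU.fromSpec p)).subset ?_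
  rintro x ⟨hxU, hdim, hxW⟩
  refine ⟨hU.primeIdealOf ⟨x, hxU⟩, ?_, hU.fromSpec_primeIdealOf ⟨x, hxU⟩⟩
  let _ := TopCat.Presheaf.algebra_section_stalk X.presheaf (⟨x, hxU⟩ : U)
  have hloc := hU.isLocalization_stalk ⟨x, hxU⟩
  have hht : (hU.primeIdealOf ⟨x, hxU⟩).asIdeal.height = 1 := by
    have h1 := IsLocalization.AtPrime.ringKrullDim_eq_height
      (hU.primeIdealOf ⟨x, hxU⟩).asIdeal (X.presheaf.stalk x)
    rw [hdim] at h1
    exact_mod_cast h1.symm
  have hsP : s ∈ (hU.primeIdealOf ⟨x, hxU⟩).asIdeal := by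
    by_contra hs
    apply hxW
    apply hsW
    rw [X.mem_basicOpen s x hxU]
    exact IsLocalization.map_units (X.presheaf.stalk x)
      (⟨s, hs⟩ : (hU.primeIdealOf ⟨x, hxU⟩).asIdeal.primeCompl)
  show (hU.primeIdealOf ⟨x, hxU⟩).asIdeal ∈ (Ideal.span {s}).minimalPrimes
  have hFH : (hU.primeIdealOf ⟨x, hxU⟩).asIdeal.FiniteHeight := ⟨Or.inr (by
    rw [hht]
    exact ENat.one_ne_top)⟩
  refine Ideal.mem_minimalPrimes_of_height_le ?_ ?_
  · rwa [Ideal.span_singleton_le_iff_mem]
  · rw [hht]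
    exact Ideal.one_le_height_span_singleton_of_mem_nonZeroDivisors
      (mem_nonZeroDivisors_of_ne_zero hs0)

theorem finite_codim_one_notMem {k : Type} [Field k] [CharZero k] {X : Scheme} [IsIntegral X]
    (f : X ⟶ Spec (CommRingCat.of k)) [Smooth f] [QuasiCompact f] (W : X.Opens)
    (hW : genericPoint X ∈ W) :
    {x : X | ringKrullDim (X.presheaf.stalk x) = 1 ∧ x ∉ W}.Finite := by
  have hcomp : CompactSpace X := (quasiCompact_iff_compactSpace f).1 inferInstance
  have hch : ∀ x : X, ∃ U : X.Opens, IsAffineOpen U ∧ x ∈ U ∧ IsNoetherianRing Γ(X, U) := by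
    intro x
    obtain ⟨U, hU, hxU, n, ψ, hψ⟩ := exists_etale_chart f x
    refine ⟨U, hU, hxU, ?_⟩
    have hne : Nonempty U := ⟨⟨x, hxU⟩⟩
    let _ : Algebra (MvPolynomial (Fin n) k) Γ(X, U) := ψ.toAlgebra
    have hAet : Algebra.Etale (MvPolynomial (Fin n) k) Γ(X, U) := hψ
    exact Algebra.FiniteType.isNoetherianRing (MvPolynomial (Fin n) k) Γ(X, U)
  choose U hU hxU hn using hch
  obtain ⟨t, ht⟩ := isCompact_univ.elim_finite_subcover (fun x => ((U x : X.Opens) : Set X))
    (fun x => (U x).isOpen) (fun x _ => Set.mem_iUnion.2 ⟨x, hxU x⟩)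
  have hfin : (⋃ y ∈ t, {x : X | x ∈ U y ∧ ringKrullDim (X.presheaf.stalk x) = 1 ∧
      x ∉ W}).Finite :=
    t.finite_toSet.biUnion fun y _ =>
      H10_aff W (U y) hW (hU y) (genericPoint_mem (U y) y (hxU y)) (hn y)
  refine hfin.subset ?_
  rintro x ⟨h1, h2⟩
  have h3 := ht (Set.mem_univ x)
  rw [Set.mem_iUnion₂] at h3 ⊢
  obtain ⟨y, hy, hxy⟩ := h3
  exact ⟨y, hy, hxy, h1, h2⟩

end Pool.Agent.LibK3
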