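import Pool.Agent.LibK3.HDefs

/-!
ROW [K3 H6].

The prime `Q` of `B` over the centre `P` of the valuation `v` on `A` has a discrete valuation ring as local ring.

Proof. (1) Let `P'` be a prime of `A`, `P' ≤ P`, `P' ≠ ⊥`; then `P' = P`: take `a ∈ P'`, `a ≠ 0`, and `b ∈ P`, `b ≠ 0`; `m = v b ≥ 1` (`b ∈ P`: otherwise `v b = 0` or ... use `hv`: `0 < v (b)` iff `1 / b` is not in the ring iff `b ∈ P`), `n = v a ≥ 1`; `v (b ^ n / a) ≥ 0`, so `b ^ n / a = a' / s` with `s ∉ P` (`hv`), `b ^ n * s = a * a' ∈ P'`, `s ∉ P'`, so `b ∈ P'`.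
(2) `Q ≠ ⊥`: `P ≠ ⊥` (there is `t` with `v t = 1`, `t = a / s`, so `a ∈ P` is not zero) and `Q.comap α = P`. A prime `Q' ≤ Q`, `Q' ≠ ⊥` has `Q'.comap α ≠ ⊥` (`B` is a domain integral over `A`: `Ideal.comap_ne_bot_of_integral_mem` or similar; `α` is injective) so `Q'.comap α = P` by (1) and `Q' = Q` by incomparability
(`Ideal.comap_lt_comap_of_integral_mem_sdiff`, `Ideal.IsIntegralClosure...`, or `Ideal.isMaximal_of_isIntegral_of_isMaximal_comap`-type lemmas). (3) `Localization.AtPrime Q` is an integrally closed Noetherian local domain which is not a field and has a unique non zero prime: `IsDiscreteValuationRing.TFAE` as in `isDiscreteValuationRing_of_dim_one`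
(LibHP/S2.lean); `B` is Noetherian since it is finite over `A` (`isNoetherian_of_isNoetherianRing_of_finite` / `Algebra.FiniteType.isNoetherianRing`); `isIntegrallyClosed_of_isLocalization` is used in LibHP/S2.lean. Primes of the localization: `IsLocalization.orderIsoOfPrime` or `IsLocalization.AtPrime.orderIsoOfPrime`.
-/

set_option autoImplicit false

open Pool.Agent.LibGMM Pool.Agent.LibHP

namespace Pool.Agent.LibK3

section val

variable {k K A : Type} [Field k] [Field K] [Algebra k K] [CommRing A] [IsDomain A]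
    [Algebra A K] [IsFractionRing A K] (v : KVal k K) {P : Ideal A} (hP : P.IsPrime)
    (hv : ∀ z, 0 ≤ v.ord z ↔ ∃ a b : A, b ∉ P ∧ z = algebraMap A K a / algebraMap A K b)

include hP hv

omit [IsDomain A] [IsFractionRing A K] hv in
private theorem H6_one : (1 : A) ∉ P := fun h => hP.ne_top ((Ideal.eq_top_iff_one _).2 h)

omit [IsDomain A] [IsFractionRing A K] in
private theorem H6_nonneg (a : A) : 0 ≤ v.ord (algebraMap A K a) :=
  (hv _).2 ⟨a, 1, H6_one hP, by rw [map_one, div_one]⟩

omit hP hv [IsDomain A] in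
private theorem H6_ne {a : A} (h : a ≠ 0) : algebraMap A K a ≠ 0 := by
  rwa [Ne, FaithfulSMul.algebraMap_eq_zero_iff]

omit [IsDomain A] [IsFractionRing A K] in
private theorem H6_zero {b : A} (hb : b ∉ P) : v.ord (algebraMap A K b) = 0 := by
  have h1 := H6_nonneg v hP hv b
  have h2 : 0 ≤ v.ord (algebraMap A K b)⁻¹ :=
    (hv _).2 ⟨1, b, hb, by rw [map_one, one_div]⟩
  rw [KVal.ord_inv] at h2
  omega

omit [IsDomain A] in
private theorem H6_pos {b : A} (hb : b ∈ P) (h0 : b ≠ 0) : 1 ≤ v.ord (algebraMap A K b) := by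
  by_contra hlt
  have h1 := H6_nonneg v hP hv b
  have h2 : 0 ≤ v.ord (algebraMap A K b)⁻¹ := by
    rw [KVal.ord_inv]
    omega
  obtain ⟨a, s, hs, h3⟩ := (hv _).1 h2
  have hs0 : s ≠ 0 := fun h => hs (h ▸ P.zero_mem)
  have h4 : algebraMap A K s = algebraMap A K (a * b) := by
    have h5 := H6_ne (K := K) hs0
    have h6 := H6_ne (K := K) h0
    rw [map_mul]
    field_simp at h3
    linear_combination h3
  have h5 := IsFractionRing.injective A K h4
  exact hs (h5 ▸ P.mul_mem_left a hb)

omit hP hv [IsDomain A] [Algebra A K] [IsFractionRing A K] in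
private theorem H6_pow {x : K} (hx : x ≠ 0) (n : ℕ) : v.ord (x ^ n) = n * v.ord x := by
  induction n with
  | zero => rw [pow_zero, v.ord_one]; simp
  | succ n ih =>
    rw [pow_succ, v.ord_mul _ _ (pow_ne_zero n hx) hx, ih]
    push_cast
    ring

private theorem H6_claim {P' : Ideal A} (hP' : P'.IsPrime) (hle : P' ≤ P) (hne : P' ≠ ⊥) :
    P' = P := by
  refine le_antisymm hle fun b hb => ?_
  obtain ⟨a, ha, ha0⟩ := Submodule.exists_mem_ne_zero_of_ne_bot hne
  by_cases hb0 : b = 0
  · rw [hb0]; exact P'.zero_mem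
  have h1 := H6_pos v hP hv (hle ha) ha0
  have h2 := H6_pos v hP hv hb hb0
  set n := (v.ord (algebraMap A K a)).toNat with hn
  have hn' : (n : ℤ) = v.ord (algebraMap A K a) := Int.toNat_of_nonneg (by omega)
  have ha1 := H6_ne (K := K) ha0
  have hb1 := H6_ne (K := K) hb0
  have h3 : 0 ≤ v.ord (algebraMap A K b ^ n * (algebraMap A K a)⁻¹) := by
    rw [v.ord_mul _ _ (pow_ne_zero n hb1) (inv_ne_zero ha1), H6_pow v hb1, KVal.ord_inv, hn']
    nlinarith
  obtain ⟨a', s, hs, h4⟩ := (hv _).1 h3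
  have hs0 : s ≠ 0 := fun h => hs (h ▸ P.zero_mem)
  have hs1 := H6_ne (K := K) hs0
  have h5 : algebraMap A K (b ^ n * s) = algebraMap A K (a * a') := by
    rw [map_mul, map_mul, map_pow]
    field_simp at h4
    linear_combination h4
  have h6 := IsFractionRing.injective A K h5
  have h7 : b ^ n * s ∈ P' := h6 ▸ P'.mul_mem_right a' ha
  rcases hP'.mem_or_mem h7 with h8 | h8
  · exact hP'.mem_of_pow_mem n h8
  · exact absurd (hle h8) hs

private theorem H6_ne_bot : ∃ a ∈ P, a ≠ 0 := by
  obtain ⟨t, ht⟩ := v.exists_ord_one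
  obtain ⟨a, s, hs, rfl⟩ := (hv t).1 (by omega)
  have hs0 : s ≠ 0 := fun h => hs (h ▸ P.zero_mem)
  have ha0 : a ≠ 0 := by
    rintro rfl
    rw [map_zero, zero_div, v.ord_zero] at ht
    omega
  refine ⟨a, ?_, ha0⟩
  by_contra haP
  have h1 := H6_zero v hP hv haP
  have h2 := H6_zero v hP hv hs
  rw [div_eq_mul_inv, v.ord_mul _ _ (H6_ne ha0) (inv_ne_zero (H6_ne hs0)), KVal.ord_inv, h1,
    h2] at ht
  omega

end val

theorem isDVR_atPrime {k K A B : Type} [Field k] [Field K] [Algebra k K]
    [CommRing A] [IsDomain A] [IsNoetherianRing A] [Algebra A K] [IsFractionRing A K]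
    [CommRing B] [IsDomain B] [IsIntegrallyClosed B]
    (α : A →+* B) (hα : α.Finite) (hinj : Function.Injective α)
    (v : KVal k K) (P : Ideal A)
    (hv : ∀ z, 0 ≤ v.ord z ↔ ∃ a b : A, b ∉ P ∧ z = algebraMap A K a / algebraMap A K b)
    (Q : Ideal B) [Q.IsPrime] (hQ : Q.comap α = P) :
    IsDiscreteValuationRing (Localization.AtPrime Q) := by
  have hP : P.IsPrime := hQ ▸ Ideal.comap_isPrime α Q
  let _ : Algebra A B := α.toAlgebra
  have hfin : Module.Finite A B := hα
  have hQ' : Q.comap (algebraMap A B) = P := hQ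
  have hnoeth : IsNoetherianRing B := by
    have h1 : IsNoetherian A B := isNoetherian_of_isNoetherianRing_of_finite A B
    exact isNoetherian_of_tower A h1
  have hint : Algebra.IsIntegral A B := inferInstance
  -- the primes below `Q`
  have hclaim : ∀ J : Ideal B, J.IsPrime → J ≤ Q → J ≠ ⊥ → J = Q := by
    intro J hJ hle hne
    obtain ⟨x, hx, hx0⟩ := Submodule.exists_mem_ne_zero_of_ne_bot hne
    have h1 : J.comap (algebraMap A B) ≠ ⊥ :=
      Ideal.comap_ne_bot_of_integral_mem hx0 hx (Algebra.IsIntegral.isIntegral x)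
    have h2 : J.comap (algebraMap A B) = P := by
      refine H6_claim v hP hv (Ideal.comap_isPrime _ J) ?_ h1
      rw [← hQ']
      exact Ideal.comap_mono hle
    by_contra hJQ
    obtain ⟨y, hyQ, hyJ⟩ := SetLike.exists_of_lt (lt_of_le_of_ne hle hJQ)
    have h3 := Ideal.comap_lt_comap_of_integral_mem_sdiff (R := A) hle ⟨hyQ, hyJ⟩
      (Algebra.IsIntegral.isIntegral y)
    rw [h2, hQ'] at h3
    exact lt_irrefl _ h3
  have hQne : Q ≠ ⊥ := by
    obtain ⟨a, ha, ha0⟩ := H6_ne_bot v hP hv
    intro h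
    have h1 : α a ∈ Q := by
      rw [← hQ] at ha
      exact ha
    rw [h, Ideal.mem_bot] at h1
    exact ha0 (hinj (by rw [h1, map_zero]))
  set R' := Localization.AtPrime Q with hR'
  have hle : Q.primeCompl ≤ nonZeroDivisors B := Ideal.primeCompl_le_nonZeroDivisors Q
  have hRd : IsDomain R' := IsLocalization.isDomain_localization hle
  have hRn : IsNoetherianRing R' := IsLocalization.isNoetherianRing Q.primeCompl R' hnoeth
  have hRi : IsIntegrallyClosed R' := isIntegrallyClosed_of_isLocalization (R := B) R' Q.primeCompl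
    hle
  have hinjR : Function.Injective (algebraMap B R') := IsLocalization.injective R' hle
  have hmap : ∀ I : Ideal R', (I.comap (algebraMap B R')).map (algebraMap B R') = I := fun I =>
    IsLocalization.map_under Q.primeCompl R' I
  have hmax : (IsLocalRing.maximalIdeal R').comap (algebraMap B R') = Q :=
    IsLocalization.AtPrime.under_maximalIdeal R' Q
  have hf : ¬ IsField R' := by
    intro hf
    apply hQne
    rw [← hmax, (IsLocalRing.isField_iff_maximalIdeal_eq).1 hf, eq_bot_iff]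
    intro x hx
    rw [Ideal.mem_comap, Ideal.mem_bot] at hx
    rw [Ideal.mem_bot]
    exact hinjR (by rw [hx, map_zero])
  have htf : IsDiscreteValuationRing R' ↔
      (IsIntegrallyClosed R' ∧ ∃! P : Ideal R', P ≠ ⊥ ∧ P.IsPrime) :=
    (IsDiscreteValuationRing.TFAE R' hf).out 0 3
  refine htf.2 ⟨hRi, IsLocalRing.maximalIdeal R', ⟨?_, inferInstance⟩, ?_⟩
  · rwa [Ne, ← IsLocalRing.isField_iff_maximalIdeal_eq]
  · rintro I ⟨hI, hIp⟩
    have h1 : I.comap (algebraMap B R') ≤ Q :=
      (Ideal.comap_mono (IsLocalRing.le_maximalIdeal hIp.ne_top)).trans hmax.le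
    have h2 : I.comap (algebraMap B R') ≠ ⊥ := by
      intro h
      apply hI
      rw [← hmap I, h, Ideal.map_bot]
    have h3 := hclaim _ (Ideal.comap_isPrime _ I) h1 h2
    have h4 : Ideal.map (algebraMap B R') Q = IsLocalRing.maximalIdeal R' :=
      (congrArg (Ideal.map (algebraMap B R')) hmax).symm.trans (hmap _)
    rw [← hmap I, h3, h4]

end Pool.Agent.LibK3
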