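import Pool.Agent.LibK3.H5
import Pool.Agent.LibK3.H6

/-!
ROW [K3 H7].

From a lift of the residue map to a valuation of residue degree one.

Proof. `Q = ker ψ` is a prime of `B` with `Q.comap α = P` (`hψ`, `hP`). `α` is injective: `iB ∘ α = j ∘ iA` is. H6: `R = Localization.AtPrime Q` is a discrete valuation ring; `M` is its field of fractions (give `M` the algebra structure over `R` by `IsLocalization.lift` / `Localization.AtPrime` API: `IsFractionRing.isFractionRing_of_isDomain_of_isLocalization`,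
or use instead of `R` the subring `{iB b / iB s | s ∉ Q}` of `M`). H5 gives `v' : KVal k M` (algebra structure of `M` over `k`: `(j.comp (algebraMap k K)).toAlgebra`; constants by `hk` and `hj`) with `0 ≤ v' z ↔ z = b / s`, `s ∉ Q`. So `v' s = 0` for `s ∈ B ∖ Q`, and `0 < v' b` for `b ∈ Q`, `b ≠ 0`.
`e`: let `t` with `v t = 1`, `e = v' (j t)`. `v z ≥ 0` implies `z = a / b`, `b ∉ P`, so `j z = iB (α a) / iB (α b)`, `α b ∉ Q`, `v' (j z) ≥ 0`; so `v z = 0` implies `v' (j z) = 0` (use `z⁻¹` too), and for `z ≠ 0` with `v z = n`: `z = t ^ n u`, `v' (j z) = n e`. `e > 0`: `t = a / b` with `b ∉ P`, `v a = 1`, so `a ∈ P` (if not, `a⁻¹` would be in the ring), `α a ∈ Q`, `α a ≠ 0`.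
Residue degree one: `z = b / s` with `s ∉ Q`; `y = ψ b / ψ s : RatFunc k`; `hφ`: `y = φ a / φ a'`, `a' ∉ P`. Put `w = a / a'`. `z - j w = (b (α a') - s (α a)) / (s (α a'))`, the denominator is not in `Q` and the numerator is in `ker ψ = Q`: so it is zero or `0 < v'`.
-/

set_option autoImplicit false

open Pool.Agent.LibGMM Pool.Agent.LibHP

namespace Pool.Agent.LibK3

section val

variable {k K A : Type} [Field k] [Field K] [Algebra k K] [CommRing A] [IsDomain A]
    [Algebra A K] [IsFractionRing A K] (v : KVal k K) {P : Ideal A} (hP : P.IsPrime)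
    (hv : ∀ z, 0 ≤ v.ord z ↔ ∃ a b : A, b ∉ P ∧ z = algebraMap A K a / algebraMap A K b)

omit [Algebra k K] [IsDomain A] in
private theorem H7_ne {a : A} (h : a ≠ 0) : algebraMap A K a ≠ 0 := by
  rwa [Ne, FaithfulSMul.algebraMap_eq_zero_iff]

include hP hv

omit [IsDomain A] [IsFractionRing A K] in
private theorem H7_nonneg (a : A) : 0 ≤ v.ord (algebraMap A K a) :=
  (hv _).2 ⟨a, 1, fun h => hP.ne_top ((Ideal.eq_top_iff_one _).2 h), by rw [map_one, div_one]⟩

omit [IsDomain A] [IsFractionRing A K] in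
private theorem H7_zero {b : A} (hb : b ∉ P) : v.ord (algebraMap A K b) = 0 := by
  have h1 := H7_nonneg v hP hv b
  have h2 : 0 ≤ v.ord (algebraMap A K b)⁻¹ :=
    (hv _).2 ⟨1, b, hb, by rw [map_one, one_div]⟩
  rw [KVal.ord_inv] at h2
  omega

omit [IsDomain A] in
private theorem H7_pos {b : A} (hb : b ∈ P) (h0 : b ≠ 0) : 1 ≤ v.ord (algebraMap A K b) := by
  by_contra hlt
  have h1 := H7_nonneg v hP hv b
  have h2 : 0 ≤ v.ord (algebraMap A K b)⁻¹ := by
    rw [KVal.ord_inv]
    omega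
  obtain ⟨a, s, hs, h3⟩ := (hv _).1 h2
  have hs0 : s ≠ 0 := fun h => hs (h ▸ P.zero_mem)
  have h4 : algebraMap A K s = algebraMap A K (a * b) := by
    have h5 := H7_ne (K := K) hs0
    have h6 := H7_ne (K := K) h0
    rw [map_mul]
    field_simp at h3
    linear_combination h3
  have h5 := IsFractionRing.injective A K h4
  exact hs (h5 ▸ P.mul_mem_left a hb)

omit hP hv [IsDomain A] [Algebra A K] [IsFractionRing A K] in
private theorem H7_pow {x : K} (hx : x ≠ 0) (n : ℕ) : v.ord (x ^ n) = n * v.ord x := by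
  induction n with
  | zero => rw [pow_zero, v.ord_one]; simp
  | succ n ih =>
    rw [pow_succ, v.ord_mul _ _ (pow_ne_zero n hx) hx, ih]
    push_cast
    ring

end val

/-- A valuation over `v`: the ramification index. -/
private theorem H7_mul {k K M : Type} [Field k] [Field K] [Field M] [Algebra k K] [Algebra k M]
    (j : K →+* M) (v : KVal k K) (v' : KVal k M) (h : ∀ z, 0 ≤ v.ord z → 0 ≤ v'.ord (j z))
    {t : K} (ht : v.ord t = 1) (z : K) : v'.ord (j z) = v'.ord (j t) * v.ord z := by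
  have ht0 : t ≠ 0 := by
    rintro rfl
    rw [v.ord_zero] at ht
    omega
  have hjt : j t ≠ 0 := by rwa [Ne, map_eq_zero]
  have h0 : ∀ z, v.ord z = 0 → v'.ord (j z) = 0 := by
    intro z hz
    have h1 := h z (by omega)
    have h2 := h z⁻¹ (by rw [KVal.ord_inv]; omega)
    rw [map_inv₀, KVal.ord_inv] at h2
    omega
  have hpos : ∀ z, z ≠ 0 → 0 ≤ v.ord z → v'.ord (j z) = v'.ord (j t) * v.ord z := by
    intro z hz0 hz
    set n := (v.ord z).toNat with hn
    have hn' : (n : ℤ) = v.ord z := Int.toNat_of_nonneg hz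
    have htn := pow_ne_zero n ht0
    have hu : v.ord (z * (t ^ n)⁻¹) = 0 := by
      rw [v.ord_mul _ _ hz0 (inv_ne_zero htn), KVal.ord_inv, H7_pow v ht0, ht, hn']
      ring
    have h1 := h0 _ hu
    have hjz : j z ≠ 0 := by rwa [Ne, map_eq_zero]
    rw [map_mul, map_inv₀, map_pow, v'.ord_mul _ _ hjz (inv_ne_zero (pow_ne_zero n hjt)),
      KVal.ord_inv, H7_pow v' hjt, hn'] at h1
    linarith
  by_cases hz0 : z = 0
  · rw [hz0, map_zero, v.ord_zero, v'.ord_zero, mul_zero]
  by_cases hz : 0 ≤ v.ord z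
  · exact hpos z hz0 hz
  · have h1 := hpos z⁻¹ (inv_ne_zero hz0) (by rw [KVal.ord_inv]; omega)
    rw [map_inv₀, KVal.ord_inv, KVal.ord_inv] at h1
    linarith

theorem resLift_of_hom {k K M A B κ : Type} [Field k] [Field K] [Field M] [Field κ] [Algebra k K]
    [CommRing A] [IsDomain A] [IsNoetherianRing A] [Algebra A K] [IsFractionRing A K]
    [CommRing B] [IsDomain B] [IsIntegrallyClosed B] [Algebra B M] [IsFractionRing B M]
    (α : A →+* B) (hα : α.Finite) (j : K →+* M)
    (hj : ∀ a, j (algebraMap A K a) = algebraMap B M (α a))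
    (hk : ∀ c : k, ∃ a : A, algebraMap A K a = algebraMap k K c)
    (v : KVal k K) (φ : A →+* κ) (P : Ideal A) (hP : ∀ a, a ∈ P ↔ φ a = 0)
    (hv : ∀ z, 0 ≤ v.ord z ↔ ∃ a b : A, b ∉ P ∧ z = algebraMap A K a / algebraMap A K b)
    (hφ : ∀ y : κ, ∃ a b : A, b ∉ P ∧ y = φ a / φ b)
    (ψ : B →+* κ) (hψ : ψ.comp α = φ) : ResLift j v := by
  have hψ' : ∀ a, ψ (α a) = φ a := fun a => by rw [← hψ]; rfl
  set Q : Ideal B := RingHom.ker ψ with hQdef
  have hQp : Q.IsPrime := RingHom.ker_isPrime ψ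
  have hQmem : ∀ b, b ∈ Q ↔ ψ b = 0 := fun b => RingHom.mem_ker
  have hQ : Q.comap α = P := by
    ext a
    rw [Ideal.mem_comap, hQmem, hψ', hP]
  have hPp : P.IsPrime := hQ ▸ Ideal.comap_isPrime α Q
  have hinj : Function.Injective α := by
    intro a b hab
    apply IsFractionRing.injective A K
    apply j.injective
    rw [hj, hj, hab]
  have hαQ : ∀ a, α a ∈ Q ↔ a ∈ P := fun a => by rw [hQmem, hψ', hP]
  have hdvr := isDVR_atPrime α hα hinj v P hv Q hQ
  set R := Localization.AtPrime Q with hR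
  have hg : ∀ y : Q.primeCompl, IsUnit (algebraMap B M y) := fun y => by
    rw [isUnit_iff_ne_zero]
    apply H7_ne
    intro h
    exact y.2 (h ▸ Q.zero_mem)
  let f : R →+* M := IsLocalization.lift (M := Q.primeCompl) (g := algebraMap B M) hg
  let _ : Algebra R M := f.toAlgebra
  have hft : ∀ b, algebraMap R M (algebraMap B R b) = algebraMap B M b := fun b =>
    IsLocalization.lift_eq hg b
  have htow : IsScalarTower B R M := IsScalarTower.of_algebraMap_eq fun b => (hft b).symm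
  have hRfr : IsFractionRing R M :=
    IsFractionRing.isFractionRing_of_isDomain_of_isLocalization Q.primeCompl R M
  unfold ResLift
  let _ : Algebra k M := (j.comp (algebraMap k K)).toAlgebra
  obtain ⟨v', hv'⟩ := exists_kval_of_dvr (k := k) (R := R) (F := M) (by
    intro c
    obtain ⟨a, ha⟩ := hk c
    refine ⟨algebraMap B R (α a), ?_⟩
    rw [hft, ← hj, ha]
    rfl)
  have hv2 : ∀ z, 0 ≤ v'.ord z ↔ ∃ b s : B, s ∉ Q ∧ z = algebraMap B M b / algebraMap B M s := by
    intro z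
    rw [hv']
    constructor
    · rintro ⟨r, rfl⟩
      obtain ⟨b, s, rfl⟩ := IsLocalization.exists_mk'_eq Q.primeCompl r
      refine ⟨b, s, s.2, ?_⟩
      have hs0 : algebraMap B M (s : B) ≠ 0 := (hg s).ne_zero
      rw [eq_div_iff hs0, ← hft, ← hft, ← map_mul, IsLocalization.mk'_spec]
    · rintro ⟨b, s, hs, rfl⟩
      refine ⟨IsLocalization.mk' R b (⟨s, hs⟩ : Q.primeCompl), ?_⟩
      have hs0 : algebraMap B M s ≠ 0 := (hg ⟨s, hs⟩).ne_zero
      rw [eq_div_iff hs0, ← hft s, ← map_mul]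
      have := IsLocalization.mk'_spec R b (⟨s, hs⟩ : Q.primeCompl)
      rw [← hft b, ← this]
  obtain ⟨t, ht⟩ := v.exists_ord_one
  have hle : ∀ z, 0 ≤ v.ord z → 0 ≤ v'.ord (j z) := by
    intro z hz
    obtain ⟨a, b, hb, rfl⟩ := (hv z).1 hz
    rw [map_div₀, hj, hj]
    exact (hv2 _).2 ⟨α a, α b, fun h => hb ((hαQ b).1 h), rfl⟩
  have hmul := H7_mul j v v' hle ht
  have he : 1 ≤ v'.ord (j t) := by
    obtain ⟨a, b, hb, rfl⟩ := (hv t).1 (by omega)
    have ha0 : a ≠ 0 := by
      rintro rfl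
      rw [map_zero, zero_div, v.ord_zero] at ht
      omega
    have hb0 : b ≠ 0 := fun h => hb (h ▸ P.zero_mem)
    have haP : a ∈ P := by
      by_contra haP
      have h1 := (hv (algebraMap A K b / algebraMap A K a)).2 ⟨b, a, haP, rfl⟩
      rw [← inv_div, KVal.ord_inv, ht] at h1
      omega
    have hαa : α a ≠ 0 := fun h => ha0 (hinj (by rw [h, map_zero]))
    have hαb : α b ≠ 0 := fun h => hb0 (hinj (by rw [h, map_zero]))
    have h1 := H7_pos v' hQp hv2 ((hαQ a).2 haP) hαa
    have h2 := H7_zero v' hQp hv2 (b := α b) (fun h => hb ((hαQ b).1 h))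
    rw [map_div₀, hj, hj, div_eq_mul_inv, v'.ord_mul _ _ (H7_ne hαa) (inv_ne_zero (H7_ne hαb)),
      KVal.ord_inv, h2]
    omega
  refine ⟨v', (v'.ord (j t)).toNat, by omega, fun z => ?_, fun z hz => ?_⟩
  · rw [hmul z, Int.toNat_of_nonneg (by omega)]
  · obtain ⟨b, s, hs, rfl⟩ := (hv2 z).1 hz
    obtain ⟨a, a', ha', h1⟩ := hφ (ψ b / ψ s)
    have hs' : ψ s ≠ 0 := fun h => hs ((hQmem s).2 h)
    have ha'' : φ a' ≠ 0 := fun h => ha' ((hP a').2 h)
    refine ⟨algebraMap A K a / algebraMap A K a', (hv _).2 ⟨a, a', ha', rfl⟩, ?_⟩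
    have hn : b * α a' - s * α a ∈ Q := by
      rw [hQmem, map_sub, map_mul, map_mul, hψ', hψ']
      rw [div_eq_div_iff hs' ha''] at h1
      linear_combination h1
    have hαa' : α a' ∉ Q := fun h => ha' ((hαQ a').1 h)
    have hd : s * α a' ∉ Q := fun h => (hQp.mem_or_mem h).elim hs hαa'
    have hs0 : s ≠ 0 := fun h => hs (h ▸ Q.zero_mem)
    have ha0 : α a' ≠ 0 := fun h => hαa' (h ▸ Q.zero_mem)
    have hz2 : algebraMap B M b / algebraMap B M s - j (algebraMap A K a / algebraMap A K a') =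
        algebraMap B M (b * α a' - s * α a) * (algebraMap B M (s * α a'))⁻¹ := by
      rw [map_div₀, hj, hj, map_sub, map_mul, map_mul, map_mul]
      have h3 := H7_ne (K := M) hs0
      have h4 := H7_ne (K := M) ha0
      field_simp
    by_cases h0 : b * α a' - s * α a = 0
    · left
      rw [h0, map_zero, zero_mul] at hz2
      exact sub_eq_zero.1 hz2
    · right
      have h3 := H7_pos v' hQp hv2 hn h0
      have h4 := H7_zero v' hQp hv2 hd
      have hsa : s * α a' ≠ 0 := fun h => hd (by rw [h]; exact Q.zero_mem)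
      rw [hz2, v'.ord_mul _ _ (H7_ne h0) (inv_ne_zero (H7_ne hsa)), KVal.ord_inv, h4]
      omega

end Pool.Agent.LibK3
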