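import Pool.Agent.LibK3.H8

/-!
ROW [K3 H9].

The good open set when the Hilbert property fails.

Proof. Unfold `HilbertProp` (LibHP/SDefs.lean); `¬ Dense S` gives a non empty open `U` with `U ∩ S = ∅` (`dense_iff_inter_open`), `S` the set of points of sections without lift to all the `Y i`. As in the proof of `hilbertProp_of_embedding` (LibHP/S1b.lean; copy its first part): there is an affine open `W1 ⊆ U`, non empty, with `Γ(X, W1)` integrally closed
and Noetherian (finitely generated over `k`). For each `i` H8 with `α = (π i).app W1` (finite: `IsFinite.finite_app`; injective: `germ_injective_of_isIntegral` and `kap_germ`) gives `h i ≠ 0`; `W = X.basicOpen (∏ i, h i)` (affine: `IsAffineOpen.basicOpen`; `IsAffineOpen.isLocalization_basicOpen`; `π i ⁻¹ᵁ W = (Y i).basicOpen (α (∏ h i))`: `Scheme.preimage_basicOpen`),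
`Γ(Y i, π i ⁻¹ᵁ W)` is the localization of `Γ(Y i, π i ⁻¹ᵁ W1)` away from the image. (Beware of `Γ(Y i, π i ⁻¹ᵁ W)` versus `Γ(Y i, basicOpen ..)`: rewrite with `Scheme.preimage_basicOpen` before using the instance.) `¬ Surjective (kap (π i))`: otherwise `isIso_of_kap` (LibHP/S1b.lean). `(kap (π i)).Finite`: the function field of `Y i` is generated over `X.functionField` by the finitely many
generators of `Γ(Y i, π i ⁻¹ᵁ W)` over `Γ(X, W)` (localization of a finite map: `IsLocalization`/`RingHom.finite` lemmas; `Algebra.IsAlgebraic.finite..`; a domain which is finite over a field is a field). Last statement: `χ` gives a section `s = Spec.map χ ≫ hW.fromSpec` with `s ≫ f = 𝟙` (`point_comp`), its point is in `W ⊆ U` (`preimage_eq_top`, end of the proof of `hilbertProp_of_embedding`), so it is not in `S`: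
so there are `i`, `t` with `t ≫ π i = s`, and `exists_lift_of_point` gives `τ`.
-/

set_option autoImplicit false

open Pool.Agent.LibGMM Pool.Agent.LibHP
open AlgebraicGeometry CategoryTheory

namespace Pool.Agent.LibK3

private theorem finite_frac {A B K L : Type} [CommRing A] [CommRing B] [IsDomain A]
    [IsDomain B] [Field K] [Field L] [Algebra A K] [Algebra B L] [IsFractionRing B L]
    (α : A →+* B) (hα : α.Finite) (κ : K →+* L)
    (hc : ∀ a, κ (algebraMap A K a) = algebraMap B L (α a)) : κ.Finite := by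
  let _ : Algebra A B := α.toAlgebra
  let _ : Algebra K L := κ.toAlgebra
  have hfin : Module.Finite A B := hα
  obtain ⟨G, hG⟩ := Module.finite_def.1 hfin
  have hint : ∀ b : B, IsIntegral K (algebraMap B L b) := by
    intro b
    obtain ⟨P, hP, hPb⟩ := Algebra.IsIntegral.isIntegral (R := A) b
    refine ⟨P.map (algebraMap A K), hP.map _, ?_⟩
    rw [Polynomial.eval₂_map]
    have h1 : (algebraMap K L).comp (algebraMap A K) = (algebraMap B L).comp (algebraMap A B) := by
      ext a
      exact hc a
    rw [h1, ← Polynomial.hom_eval₂, hPb, map_zero]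
  let S : Set L := (algebraMap B L) '' (G : Set B)
  have hS : S.Finite := G.finite_toSet.image _
  have hfd : FiniteDimensional K (IntermediateField.adjoin K S) := by
    have := hS.to_subtype
    refine IntermediateField.finiteDimensional_adjoin fun x hx => ?_
    obtain ⟨g, -, rfl⟩ := hx
    exact hint g
  have hmem : ∀ b : B, algebraMap B L b ∈ IntermediateField.adjoin K S := by
    intro b
    have hb : b ∈ Submodule.span A (G : Set B) := by
      rw [hG]
      exact Submodule.mem_top
    induction hb using Submodule.span_induction with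
    | mem x hx => exact IntermediateField.subset_adjoin K S ⟨x, hx, rfl⟩
    | zero => rw [map_zero]; exact zero_mem _
    | add x y _ _ hx hy => rw [map_add]; exact add_mem hx hy
    | smul r x _ hx =>
      rw [Algebra.smul_def, map_mul]
      refine mul_mem ?_ hx
      have h1 : algebraMap B L (algebraMap A B r) = algebraMap K L (algebraMap A K r) := (hc r).symm
      rw [h1]
      exact IntermediateField.algebraMap_mem _ _
  have htop : IntermediateField.adjoin K S = ⊤ := by
    rw [eq_top_iff]
    intro y _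
    obtain ⟨b1, b2, -, rfl⟩ := IsFractionRing.div_surjective (A := B) y
    exact div_mem (hmem b1) (hmem b2)
  have h2 : Module.Finite K L := by
    rw [htop] at hfd
    exact Module.Finite.equiv (IntermediateField.topEquiv (F := K) (E := L)).toLinearEquiv
  exact h2

theorem exists_good_open {k : Type} [Field k] [CharZero k] {X : Scheme} [IsIntegral X]
    (f : X ⟶ Spec (CommRingCat.of k)) [Smooth f] (h : ¬ HilbertProp f) :
    ∃ (n : ℕ) (Y : Fin n → Scheme) (π : ∀ i, Y i ⟶ X) (_ : ∀ i, IsIntegral (Y i))
      (_ : ∀ i, IsFinite (π i)) (_ : ∀ i, Surjective (π i)) (W : X.Opens),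
      IsAffineOpen W ∧ genericPoint X ∈ W ∧ (∀ i, (kap (π i)).Finite) ∧
      (∀ i, ¬ Function.Surjective (kap (π i))) ∧
      (∀ i, IsIntegrallyClosed Γ(Y i, π i ⁻¹ᵁ W)) ∧
      ∀ χ : Γ(X, W) →+* k, (∀ c, χ (toSec f W c) = c) →
        ∃ i, ∃ τ : Γ(Y i, π i ⁻¹ᵁ W) →+* k, τ.comp ((π i).app W).hom = χ := by
  unfold HilbertProp at h
  push Not at h
  obtain ⟨m, Y, π, hY, hfin, hsurj, hiso, hnd⟩ := h
  rw [dense_iff_inter_open] at hnd
  push Not at hnd
  obtain ⟨U, hUo, ⟨x, hxU⟩, hUS⟩ := hnd
  -- normality
  have hnorm : ∀ x : X, ∃ V : X.Opens, IsAffineOpen V ∧ x ∈ V ∧ IsIntegrallyClosed Γ(X, V) := by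
    intro x
    obtain ⟨V, hV, hxV, d, ψ, hψ⟩ := exists_etale_chart f x
    refine ⟨V, hV, hxV, ?_⟩
    have hne : Nonempty V := ⟨⟨_, hxV⟩⟩
    let _ := ψ.toAlgebra
    have : Algebra.Etale (MvPolynomial (Fin d) k) Γ(X, V) := hψ
    exact isIntegrallyClosed_of_etale k d Γ(X, V)
  obtain ⟨V, hV, hxV, hVc⟩ := hnorm x
  obtain ⟨g, hgU, hxg⟩ := hV.exists_basicOpen_le (V := ⟨U, hUo⟩) ⟨x, hxU⟩ hxV
  have hW : IsAffineOpen (X.basicOpen g) := hV.basicOpen g
  have hneV : Nonempty V := ⟨⟨_, hxV⟩⟩
  have hneW : Nonempty (X.basicOpen g) := ⟨⟨_, hxg⟩⟩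
  have hWc : IsIntegrallyClosed Γ(X, X.basicOpen g) := by
    have := hV.isLocalization_basicOpen g
    refine isIntegrallyClosed_of_isLocalization (R := Γ(X, V)) _ (Submonoid.powers g) ?_
    refine powers_le_nonZeroDivisors_of_noZeroDivisors ?_
    rintro rfl
    simp at hxg
  generalize X.basicOpen g = W1 at hgU hxg hW hneW hWc
  clear hneV hVc hxV hV g V
  have h1 : genericPoint X ∈ W1 := genericPoint_mem W1 x hxg
  have hfr := functionField_isFractionRing_of_isAffineOpen X W1 hW
  -- the algebra
  let _ : Algebra k Γ(X, W1) := (toSec f W1).toAlgebra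
  have hft : Algebra.FiniteType k Γ(X, W1) := by
    have h2 : (toSec f W1).FiniteType := by
      refine RingHom.FiniteType.comp (g := (f.appLE ⊤ W1 le_top).hom)
        (f.finiteType_appLE (isAffineOpen_top _) hW le_top) ?_
      exact RingHom.FiniteType.of_surjective _
        ((ConcreteCategory.isIso_iff_bijective
          (Scheme.ΓSpecIso (CommRingCat.of k)).inv).mp inferInstance).2
    exact h2
  have hnoeth : IsNoetherianRing Γ(X, W1) := Algebra.FiniteType.isNoetherianRing k _
  have hcz : CharZero Γ(X, W1) := charZero_of_injective_algebraMap (algebraMap k Γ(X, W1)).injective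
  have hneY : ∀ i, Nonempty (π i ⁻¹ᵁ W1 : (Y i).Opens) := by
    intro i
    have := hY i
    have := hsurj i
    exact ⟨⟨_, genericPoint_mem_preimage (π i) W1 h1⟩⟩
  have hinj : ∀ i, Function.Injective ((π i).app W1).hom := by
    intro i
    have := hY i
    have := hsurj i
    rw [injective_iff_map_eq_zero]
    intro s hs
    have h2 := kap_germ (π i) W1 h1 (genericPoint_mem_preimage (π i) W1 h1) s
    have h3 : (π i).app W1 s = 0 := hs
    rw [h3, map_zero] at h2
    have h4 : X.presheaf.germ W1 _ h1 s = 0 := (map_eq_zero _).1 h2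
    apply germ_injective_of_isIntegral X _ h1
    rw [h4, map_zero]
  have hex : ∀ i, ∃ h : Γ(X, W1), h ≠ 0 ∧ ∀ h' : Γ(X, W1), h' ≠ 0 → h ∣ h' →
      ∀ (C : Type) [CommRing C] [Algebra Γ(Y i, π i ⁻¹ᵁ W1) C]
      [IsLocalization.Away (((π i).app W1).hom h') C], IsIntegrallyClosed C := by
    intro i
    have := hY i
    have := hfin i
    have := hneY i
    exact exists_normal_away ((π i).app W1).hom (IsFinite.finite_app (π i) W1 hW) (hinj i)
  choose h hh0 hh using hex
  set H : Γ(X, W1) := ∏ i, h i with hH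
  have hH0 : H ≠ 0 := Finset.prod_ne_zero_iff.2 fun i _ => hh0 i
  have hWa : IsAffineOpen (X.basicOpen H) := hW.basicOpen H
  have hgen : genericPoint X ∈ X.basicOpen H := by
    rw [X.mem_basicOpen H (genericPoint X) h1]
    have h2 : X.presheaf.germ W1 _ h1 H ≠ 0 := by
      intro h3
      apply hH0
      apply germ_injective_of_isIntegral X _ h1
      rw [h3, map_zero]
    exact IsUnit.mk0 _ h2
  refine ⟨m, Y, π, hY, hfin, hsurj, X.basicOpen H, hWa, hgen, ?_, ?_, ?_, ?_⟩
  · intro i
    have := hY i
    have := hfin i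
    have := hsurj i
    have := hneY i
    have hfrY := functionField_isFractionRing_of_isAffineOpen (Y i) (π i ⁻¹ᵁ W1)
      (hW.preimage (π i))
    exact finite_frac ((π i).app W1).hom (IsFinite.finite_app (π i) W1 hW) (kap (π i))
      (fun a => kap_germ (π i) W1 h1 (genericPoint_mem_preimage (π i) W1 h1) a)
  · intro i hk
    have := hY i
    have := hfin i
    have := hsurj i
    exact hiso i (isIso_of_kap (π i) hnorm hk)
  · intro i
    have := hfin i
    rw [Scheme.preimage_basicOpen]
    have := (hW.preimage (π i)).isLocalization_basicOpen ((π i).app W1 H)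
    exact hh i H hH0 (Finset.dvd_prod_of_mem h (Finset.mem_univ i)) _
  · intro χ hχ
    by_contra hcon
    push Not at hcon
    have h2 : (Spec.map (CommRingCat.ofHom χ) ≫ hWa.fromSpec :
        Spec (CommRingCat.of k) ⟶ X) (IsLocalRing.closedPoint k) ∈ U ∩
        {x : X | ∃ s : Spec (CommRingCat.of k) ⟶ X, s ≫ f = 𝟙 _ ∧
      x ∈ Set.range s.base ∧
      ∀ i (t : Spec (CommRingCat.of k) ⟶ Y i), t ≫ π i ≠ s} := by
      refine ⟨?_, ?_⟩
      · apply hgU
        apply X.basicOpen_le H
        have h4 := preimage_eq_top (X.basicOpen H) hWa χ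
        have h5 : (IsLocalRing.closedPoint k) ∈
          (Spec.map (CommRingCat.ofHom χ) ≫ hWa.fromSpec :
            Spec (CommRingCat.of k) ⟶ X) ⁻¹ᵁ (X.basicOpen H) := by
          rw [h4]; trivial
        exact h5
      · refine ⟨_, point_comp f (X.basicOpen H) hWa χ hχ, ⟨_, rfl⟩, ?_⟩
        intro i t ht
        obtain ⟨τ, hτ⟩ := exists_lift_of_point (π i) (X.basicOpen H) hWa χ t ht
        exact hcon i τ hτ
    rw [hUS] at h2
    exact h2

end Pool.Agent.LibK3
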