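import Pool.Agent.LibK3.HDefs

/-!
ROW [K3 H12].

The valuations of `k(t)` over `k`.

Proof. (a) `g`-adic valuation: `ord z = (multiplicity/padic valuation of the numerator) - (that of the denominator)`. Possible ways: `emultiplicity`/`multiplicity g p` for `p ≠ 0` (`g` is prime; `multiplicity_mul` for primes, `FiniteMultiplicity`, `le_multiplicity_add`/`min_le_emultiplicity_add`); or Mathlib's
`IsDedekindDomain.HeightOneSpectrum.valuation` (values in `ℤᵐ⁰`, take minus the logarithm: `WithZero.log`, `Multiplicative.toAdd`); or the row H5 (`exists_kval_of_dvr` with `R = Localization.AtPrime (span {g})`, a discrete valuation ring: `IsLocalization.AtPrime.isDiscreteValuationRing_of_dedekind_domain`, import Pool.Agent.LibK3.H5).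
(b) `ord z = - RatFunc.intDegree z` (`RatFunc.intDegree_mul`, `RatFunc.intDegree_add_le`, `RatFunc.intDegree_polynomial`, `RatFunc.intDegree_C`; `intDegree 0 = 0`), uniformiser `t⁻¹`.
(c) `w.ord_const` and the ultrametric inequality: the term of highest degree of `p` has strictly smaller order than all the others, since `w t < 0`; e.g. by induction on the degree (`Polynomial.induction_on`, `eraseLead`), or divide `p` by `X ^ n`: `p / X ^ n = c + (terms of positive order)`.
(d) `w (X) ≥ 0` implies `w p ≥ 0` for all polynomials (`Polynomial.induction_on'`, `KVal.ord_add_ge`, or `KVal.ring` is a subalgebra: `Algebra.adjoin`/`Polynomial.aeval` range).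
-/

set_option autoImplicit false

open Pool.Agent.LibGMM Pool.Agent.LibHP

namespace Pool.Agent.LibK3

variable {k : Type} [Field k]

private theorem H12_log_le {x y : WithZero (Multiplicative ℤ)} (hx : x ≠ 0) (h : x ≤ y) :
    WithZero.log x ≤ WithZero.log y := by
  have hy : y ≠ 0 := fun h0 => hx (le_antisymm (h0 ▸ h) (zero_le))
  rw [← WithZero.exp_le_exp, WithZero.exp_log hx, WithZero.exp_log hy]
  exact h

theorem exists_kval_adic (g : Polynomial k) (hg : Irreducible g) :
    ∃ w : KVal k (RatFunc k),
      (∀ p : Polynomial k, 0 ≤ w.ord (algebraMap (Polynomial k) (RatFunc k) p)) ∧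
      ∀ p : Polynomial k, p ≠ 0 →
        (0 < w.ord (algebraMap (Polynomial k) (RatFunc k) p) ↔ g ∣ p) := by
  have hprime : (Ideal.span {g}).IsPrime := (Ideal.span_singleton_prime hg.ne_zero).2 hg.prime
  let I : IsDedekindDomain.HeightOneSpectrum (Polynomial k) :=
    ⟨Ideal.span {g}, hprime, by
      rw [Ne, Ideal.span_singleton_eq_bot]
      exact hg.ne_zero⟩
  let V := I.valuation (RatFunc k)
  have hV0 : ∀ z : RatFunc k, z ≠ 0 → V z ≠ 0 := fun z hz => (V.ne_zero_iff).2 hz
  refine ⟨{ ord := fun z => -WithZero.log (V z)
            ord_zero := by rw [map_zero, WithZero.log_zero, neg_zero]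
            ord_mul := by
              intro a b ha hb
              rw [map_mul, WithZero.log_mul (hV0 a ha) (hV0 b hb)]
              ring
            ord_add := by
              intro a b ha hb hab
              rcases le_total (V a) (V b) with h | h
              · have h1 : V (a + b) ≤ V b := (V.map_add a b).trans (max_le h le_rfl)
                have h2 := H12_log_le (hV0 _ hab) h1
                exact (min_le_right _ _).trans (neg_le_neg h2)
              · have h1 : V (a + b) ≤ V a := (V.map_add a b).trans (max_le le_rfl h)
                have h2 := H12_log_le (hV0 _ hab) h1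
                exact (min_le_left _ _).trans (neg_le_neg h2)
            ord_const := by
              intro a
              by_cases ha : a = 0
              · rw [ha, map_zero, map_zero, WithZero.log_zero, neg_zero]
              · have h1 : V (algebraMap (Polynomial k) (RatFunc k) (Polynomial.C a)) = 1 := by
                  refine I.valuation_eq_one_iff_notMem.2 ?_
                  intro h
                  have h2 : g ∣ Polynomial.C a := Ideal.mem_span_singleton.1 h
                  have h3 : IsUnit (Polynomial.C a) := Polynomial.isUnit_C.2 (Ne.isUnit ha)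
                  exact hg.not_isUnit (isUnit_of_dvd_unit h2 h3)
                have h2 : algebraMap k (RatFunc k) a =
                    algebraMap (Polynomial k) (RatFunc k) (Polynomial.C a) := by
                  rw [RatFunc.algebraMap_C]
                  rfl
                rw [h2, h1, WithZero.log_one, neg_zero]
            exists_ord_one := by
              obtain ⟨t, ht⟩ := I.valuation_exists_uniformizer (RatFunc k)
              refine ⟨t, ?_⟩
              show -WithZero.log (I.valuation (RatFunc k) t) = 1
              rw [ht, WithZero.log_exp]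
              rfl }, ?_, ?_⟩
  · intro p
    show 0 ≤ -WithZero.log (V (algebraMap (Polynomial k) (RatFunc k) p))
    by_cases hp : p = 0
    · rw [hp, map_zero, map_zero, WithZero.log_zero, neg_zero]
    · have h1 : V (algebraMap (Polynomial k) (RatFunc k) p) ≤ 1 := I.valuation_le_one p
      have h2 := H12_log_le (hV0 _ (RatFunc.algebraMap_ne_zero hp)) h1
      rw [WithZero.log_one] at h2
      omega
  · intro p hp
    show 0 < -WithZero.log (V (algebraMap (Polynomial k) (RatFunc k) p)) ↔ _
    have h0 : V (algebraMap (Polynomial k) (RatFunc k) p) ≠ 0 :=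
      hV0 _ (RatFunc.algebraMap_ne_zero hp)
    have h1 : V (algebraMap (Polynomial k) (RatFunc k) p) < 1 ↔ p ∈ I.asIdeal :=
      I.valuation_lt_one_iff_mem p
    have h2 : p ∈ I.asIdeal ↔ g ∣ p := Ideal.mem_span_singleton
    rw [← h2, ← h1]
    constructor
    · intro h
      rw [← WithZero.exp_log h0, ← WithZero.exp_zero, WithZero.exp_lt_exp]
      omega
    · intro h
      rw [← WithZero.exp_log h0, ← WithZero.exp_zero, WithZero.exp_lt_exp] at h
      omega

theorem exists_kval_inf : ∃ w : KVal k (RatFunc k), ∀ p : Polynomial k,
    w.ord (algebraMap (Polynomial k) (RatFunc k) p) = - (p.natDegree : ℤ) := by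
  refine ⟨{ ord := fun z => -RatFunc.intDegree z
            ord_zero := by rw [RatFunc.intDegree_zero, neg_zero]
            ord_mul := by
              intro a b ha hb
              rw [RatFunc.intDegree_mul ha hb]
              ring
            ord_add := by
              intro a b ha hb hab
              have h1 := RatFunc.intDegree_add_le hb hab
              rcases le_max_iff.1 h1 with h2 | h2
              · exact (min_le_left _ _).trans (neg_le_neg h2)
              · exact (min_le_right _ _).trans (neg_le_neg h2)
            ord_const := by
              intro a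
              have h2 : algebraMap k (RatFunc k) a = RatFunc.C a := rfl
              rw [h2, RatFunc.intDegree_C, neg_zero]
            exists_ord_one := ⟨(RatFunc.X)⁻¹, by
              rw [RatFunc.intDegree_inv, RatFunc.intDegree_X, neg_neg]⟩ }, ?_⟩
  intro p
  show -RatFunc.intDegree (algebraMap (Polynomial k) (RatFunc k) p) = _
  rw [RatFunc.intDegree_polynomial]

private theorem H12_add (w : KVal k (RatFunc k)) {a b : RatFunc k} (ha : a ≠ 0)
    (h : w.ord a < w.ord b) : a + b ≠ 0 ∧ w.ord (a + b) = w.ord a := by
  by_cases hb : b = 0
  · rw [hb, add_zero]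
    exact ⟨ha, rfl⟩
  have hneg : w.ord (-b) = w.ord b := by
    have h1 : w.ord (-1) = 0 := by
      have h2 := w.ord_const (-1)
      rwa [map_neg, map_one] at h2
    rw [← neg_one_mul, w.ord_mul _ _ (by simp) hb, h1, zero_add]
  have hab : a + b ≠ 0 := by
    intro h1
    rw [eq_neg_of_add_eq_zero_left h1, hneg] at h
    exact lt_irrefl _ h
  refine ⟨hab, ?_⟩
  have h1 := w.ord_add a b ha hb hab
  have h2 : min (w.ord (a + b)) (w.ord (-b)) ≤ w.ord a := by
    have h3 := w.ord_add (a + b) (-b) hab (neg_ne_zero.2 hb) (by
      rw [add_neg_cancel_right]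
      exact ha)
    rwa [add_neg_cancel_right] at h3
  rw [hneg] at h2
  omega

theorem kval_neg (w : KVal k (RatFunc k)) (h : w.ord RatFunc.X < 0) (p : Polynomial k)
    (hp : p ≠ 0) : w.ord (algebraMap (Polynomial k) (RatFunc k) p) =
      w.ord RatFunc.X * p.natDegree := by
  have hC : ∀ a : k, w.ord (algebraMap (Polynomial k) (RatFunc k) (Polynomial.C a)) = 0 := by
    intro a
    have h2 : algebraMap k (RatFunc k) a =
        algebraMap (Polynomial k) (RatFunc k) (Polynomial.C a) := by
      rw [RatFunc.algebraMap_C]
      rfl
    rw [← h2]
    exact w.ord_const a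
  have key : ∀ n : ℕ, ∀ p : Polynomial k, p ≠ 0 → p.natDegree = n →
      w.ord (algebraMap (Polynomial k) (RatFunc k) p) = w.ord RatFunc.X * n := by
    intro n
    induction n with
    | zero =>
      intro p _ hp
      rw [Polynomial.eq_C_of_natDegree_eq_zero hp, hC]
      simp
    | succ n ih =>
      intro p hp0 hpn
      have h1 : p.divX ≠ 0 := by
        intro h1
        have h2 := p.divX_mul_X_add
        rw [h1, zero_mul, zero_add] at h2
        rw [← h2, Polynomial.natDegree_C] at hpn
        omega
      have h2 : p.divX.natDegree = n := by
        rw [Polynomial.natDegree_divX_eq_natDegree_tsub_one, hpn]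
        rfl
      have h3 := ih _ h1 h2
      have h4 : w.ord (algebraMap (Polynomial k) (RatFunc k) (p.divX * Polynomial.X)) =
          w.ord RatFunc.X * (n + 1 : ℕ) := by
        rw [map_mul, RatFunc.algebraMap_X,
          w.ord_mul _ _ (RatFunc.algebraMap_ne_zero h1) RatFunc.X_ne_zero, h3]
        push_cast
        ring
      have h5 : w.ord (algebraMap (Polynomial k) (RatFunc k) (p.divX * Polynomial.X)) <
          w.ord (algebraMap (Polynomial k) (RatFunc k) (Polynomial.C (p.coeff 0))) := by
        rw [h4, hC]
        exact mul_neg_of_neg_of_pos h (by positivity)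
      have h6 := (H12_add w (RatFunc.algebraMap_ne_zero
        (mul_ne_zero h1 Polynomial.X_ne_zero)) h5).2
      rw [← map_add, p.divX_mul_X_add, h4] at h6
      exact h6
  exact key _ p hp rfl

theorem kval_nonneg (w : KVal k (RatFunc k)) (h : 0 ≤ w.ord RatFunc.X) (p : Polynomial k) :
    0 ≤ w.ord (algebraMap (Polynomial k) (RatFunc k) p) := by
  have h1 : algebraMap (Polynomial k) (RatFunc k) p ∈ w.ring := by
    induction p using Polynomial.induction_on' with
    | add p q hp hq =>
      rw [map_add]
      exact w.ring.add_mem hp hq
    | monomial n a =>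
      rw [← Polynomial.C_mul_X_pow_eq_monomial, map_mul, map_pow, RatFunc.algebraMap_X]
      refine w.ring.mul_mem ?_ (w.ring.pow_mem h n)
      have h2 : algebraMap k (RatFunc k) a =
          algebraMap (Polynomial k) (RatFunc k) (Polynomial.C a) := by
        rw [RatFunc.algebraMap_C]
        rfl
      rw [← h2]
      exact w.ring.algebraMap_mem a
  exact h1

end Pool.Agent.LibK3
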