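import Pool.Agent.LibK3.HDefs

/-!
ROW [K3 H13].

Elementary properties of the degree `FDeg` of a family of rational functions (HDefs.lean).

Proof. `exists_fdeg`: multiply by a common denominator (product of the denominators; `ι` is finite), then divide by the gcd of the polynomials (`Finset.gcd`, `Finset.extract_gcd`, or a generator of the ideal spanned by them: `k[t]` is a principal ideal domain, `Submodule.IsPrincipal.generator`); `d = ` maximum of the degrees of the non zero ones (`Finset.exists_max_image`).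
`FDeg.smul`: replace `u` by `z * u`. `FDeg.reindex`: obvious. `FDeg.mul`: `u * u'` and the products `p i * q j`; coprime: a polynomial dividing all the `p i * q j`, which is not a unit, is not zero (some `p i * q j ≠ 0`) and has an irreducible (prime) factor `g`
(`WfDvdMonoid.exists_irreducible_factor`); there is `i` with `¬ g ∣ p i` (otherwise `g` is a unit), so `g ∣ q j` for all `j`, contradiction. Degrees: `natDegree_mul`. `FDeg.prod`: induction on `a` (`Fin.cons`/`Fin.consEquiv`, `Fin.prod_univ_succ`) with `FDeg.mul` and `FDeg.reindex`; `a = 0`: the constant family `1` (`u = 1`, `p = 1`, `d = 0`).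
-/

set_option autoImplicit false

open Pool.Agent.LibGMM Pool.Agent.LibHP

namespace Pool.Agent.LibK3

variable {k ι κ : Type} [Field k]

theorem exists_fdeg [Finite ι] (ρ : ι → RatFunc k) (h : ∃ i, ρ i ≠ 0) : ∃ d, FDeg ρ d := by
  classical
  cases nonempty_fintype ι
  obtain ⟨b, hb⟩ := IsLocalization.exist_integer_multiples_of_finite
    (nonZeroDivisors (Polynomial k)) ρ
  choose a ha using hb
  have hb0 : (b : Polynomial k) ≠ 0 := nonZeroDivisors.ne_zero b.2
  have hb1 : algebraMap (Polynomial k) (RatFunc k) b ≠ 0 := by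
    intro h0
    exact hb0 (RatFunc.algebraMap_injective k (by rw [h0, map_zero]))
  have ha' : ∀ i, algebraMap (Polynomial k) (RatFunc k) (a i) =
      algebraMap (Polynomial k) (RatFunc k) b * ρ i := by
    intro i
    rw [ha i, Algebra.smul_def]
  set I : Ideal (Polynomial k) := Ideal.span (Set.range a) with hI
  set g := Submodule.IsPrincipal.generator I with hg
  have hgI : g ∈ I := Submodule.IsPrincipal.generator_mem I
  have hdvd : ∀ i, g ∣ a i := fun i =>
    (Submodule.IsPrincipal.mem_iff_generator_dvd I).1 (Ideal.subset_span ⟨i, rfl⟩)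
  choose p hp using hdvd
  obtain ⟨i0, hi0⟩ := h
  have hai0 : a i0 ≠ 0 := by
    intro h0
    have h1 := ha' i0
    rw [h0, map_zero] at h1
    rcases mul_eq_zero.1 h1.symm with h2 | h2
    · exact hb1 h2
    · exact hi0 h2
  have hg0 : g ≠ 0 := by
    intro h0
    apply hai0
    rw [hp i0, h0, zero_mul]
  have hg1 : algebraMap (Polynomial k) (RatFunc k) g ≠ 0 := by
    intro h0
    exact hg0 (RatFunc.algebraMap_injective k (by rw [h0, map_zero]))
  have hpi0 : p i0 ≠ 0 := by
    intro h0
    apply hai0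
    rw [hp i0, h0, mul_zero]
  obtain ⟨i1, hi1, hmax⟩ := Finset.exists_max_image
    ((Finset.univ : Finset ι).filter fun i => p i ≠ 0) (fun i => (p i).natDegree)
    ⟨i0, Finset.mem_filter.2 ⟨Finset.mem_univ _, hpi0⟩⟩
  refine ⟨(p i1).natDegree, (algebraMap (Polynomial k) (RatFunc k) b)⁻¹ *
    algebraMap (Polynomial k) (RatFunc k) g, p, mul_ne_zero (inv_ne_zero hb1) hg1, ?_, ?_, ?_,
    i1, (Finset.mem_filter.1 hi1).2, rfl⟩
  · intro i
    rw [mul_assoc, ← map_mul, ← hp i, ha' i, ← mul_assoc, inv_mul_cancel₀ hb1, one_mul]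
  · intro q hq
    have h1 : I ≤ Ideal.span {g * q} := by
      rw [hI, Ideal.span_le]
      rintro x ⟨i, rfl⟩
      obtain ⟨c, hc⟩ := hq i
      rw [SetLike.mem_coe, Ideal.mem_span_singleton]
      exact ⟨c, by rw [hp i, hc, mul_assoc]⟩
    have h2 := Ideal.mem_span_singleton.1 (h1 hgI)
    obtain ⟨c, hc⟩ := h2
    have h3 : q * c = 1 := by
      apply mul_left_cancel₀ hg0
      rw [mul_one, ← mul_assoc, ← hc]
    exact IsUnit.of_mul_eq_one c h3
  · intro i
    by_cases h0 : p i = 0
    · rw [h0]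
      simp
    · exact hmax i (Finset.mem_filter.2 ⟨Finset.mem_univ _, h0⟩)

theorem FDeg.smul {ρ : ι → RatFunc k} {d : ℕ} (h : FDeg ρ d) (z : RatFunc k) (hz : z ≠ 0) :
    FDeg (fun i => z * ρ i) d := by
  obtain ⟨u, p, hu, h1, h2, h3, h4⟩ := h
  refine ⟨z * u, p, mul_ne_zero hz hu, fun i => ?_, h2, h3, h4⟩
  show z * ρ i = _
  rw [h1 i, mul_assoc]

theorem FDeg.reindex {ρ : ι → RatFunc k} {d : ℕ} (h : FDeg ρ d) (e : κ ≃ ι) :
    FDeg (fun i => ρ (e i)) d := by
  obtain ⟨u, p, hu, h1, h2, h3, i0, h4, h5⟩ := h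
  refine ⟨u, fun i => p (e i), hu, fun i => h1 (e i), ?_, fun i => h3 (e i), e.symm i0, ?_, ?_⟩
  · intro q hq
    refine h2 q fun i => ?_
    have : q ∣ p (e (e.symm i)) := hq (e.symm i)
    rwa [Equiv.apply_symm_apply] at this
  · show p (e (e.symm i0)) ≠ 0
    rwa [Equiv.apply_symm_apply]
  · show (p (e (e.symm i0))).natDegree = d
    rwa [Equiv.apply_symm_apply]

theorem FDeg.mul {ρ : ι → RatFunc k} {σ : κ → RatFunc k} {d e : ℕ} (h : FDeg ρ d)
    (h' : FDeg σ e) : FDeg (fun x : ι × κ => ρ x.1 * σ x.2) (d + e) := by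
  obtain ⟨u, p, hu, h1, h2, h3, i0, h4, h5⟩ := h
  obtain ⟨u', p', hu', h1', h2', h3', i0', h4', h5'⟩ := h'
  refine ⟨u * u', fun x => p x.1 * p' x.2, mul_ne_zero hu hu', ?_, ?_, ?_, (i0, i0'), ?_, ?_⟩
  · rintro ⟨i, j⟩
    simp only
    rw [h1 i, h1' j, map_mul]
    ring
  · intro q hq
    by_contra hun
    have hq0 : q ≠ 0 := by
      rintro rfl
      have := hq (i0, i0')
      rw [zero_dvd_iff] at this
      exact mul_ne_zero h4 h4' this
    obtain ⟨g, hg, hgq⟩ := WfDvdMonoid.exists_irreducible_factor hun hq0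
    have hgp := hg.prime
    have hex : ∃ i, ¬ g ∣ p i := by
      by_contra hcon
      push Not at hcon
      exact hg.not_isUnit (h2 g hcon)
    obtain ⟨i, hi⟩ := hex
    apply hg.not_isUnit
    apply h2'
    intro j
    exact (hgp.dvd_or_dvd (hgq.trans (hq (i, j)))).resolve_left hi
  · rintro ⟨i, j⟩
    exact Polynomial.natDegree_mul_le.trans (Nat.add_le_add (h3 i) (h3' j))
  · exact mul_ne_zero h4 h4'
  · simp only
    rw [Polynomial.natDegree_mul h4 h4', h5, h5']

theorem FDeg.prod {ρ : ι → RatFunc k} {d : ℕ} (h : FDeg ρ d) (a : ℕ) :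
    FDeg (fun s : Fin a → ι => ∏ t, ρ (s t)) (a * d) := by
  induction a with
  | zero =>
    refine ⟨1, fun _ => 1, one_ne_zero, ?_, ?_, ?_, Fin.elim0, one_ne_zero, ?_⟩
    · intro s
      simp
    · intro q hq
      exact isUnit_of_dvd_one (hq Fin.elim0)
    · intro s
      simp
    · simp
  | succ a ih =>
    have h1 := (FDeg.mul h ih).reindex (Fin.consEquiv (fun _ : Fin (a + 1) => ι)).symm
    have e1 : (a + 1) * d = d + a * d := by ring
    rw [e1]
    convert h1 using 2 with s
    rw [Fin.prod_univ_succ]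
    rfl

end Pool.Agent.LibK3
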