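import Pool.Agent.LibK3.BC11
import Pool.Agent.LibHP.H9

/-!
Block H: the Hilbert property and lifts of rational curves. Definitions.
-/

set_option autoImplicit false

open Pool.Agent.LibGMM Pool.Agent.LibHP

namespace Pool.Agent.LibK3

/-- There is a valuation of `M` over `v` with residue degree one. -/
def ResLift {k K M : Type} [Field k] [Field K] [Field M] [Algebra k K] (j : K →+* M)
    (v : KVal k K) : Prop :=
  letI : Algebra k M := (j.comp (algebraMap k K)).toAlgebra
  ∃ (v' : KVal k M) (e : ℕ), 0 < e ∧ (∀ z, v'.ord (j z) = e * v.ord z) ∧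
    ∀ z : M, 0 ≤ v'.ord z → ∃ w : K, 0 ≤ v.ord w ∧ (z = j w ∨ 0 < v'.ord (z - j w))

/-- The value of a rational function. -/
noncomputable def rev {k : Type} [Field k] (z : RatFunc k) (τ : ℕ) : k :=
  z.eval (RingHom.id k) (τ : k)

/-- Up to a common factor the `ρ i` are coprime polynomials with maximal degree `d`. -/
def FDeg {k ι : Type} [Field k] (ρ : ι → RatFunc k) (d : ℕ) : Prop :=
  ∃ (u : RatFunc k) (p : ι → Polynomial k), u ≠ 0 ∧
    (∀ i, ρ i = u * algebraMap (Polynomial k) (RatFunc k) (p i)) ∧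
    (∀ q : Polynomial k, (∀ i, q ∣ p i) → IsUnit q) ∧ (∀ i, (p i).natDegree ≤ d) ∧
    ∃ i, p i ≠ 0 ∧ (p i).natDegree = d

/-- The rational functions `z` with `w z ≥ min_i w (ρ i)` for all valuations `w`. -/
def LSp {k ι : Type} [Field k] (ρ : ι → RatFunc k) : Set (RatFunc k) :=
  {z | ∀ (w : KVal k (RatFunc k)) (n : ℤ), (∀ i, ρ i = 0 ∨ n ≤ w.ord (ρ i)) →
    z = 0 ∨ n ≤ w.ord z}

end Pool.Agent.LibK3
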