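import Pool.Agent.LibK3.BC0
import Pool.Agent.LibK3.H12
import Pool.Agent.LibK3.HDefs

/-!
ROW [K3 H14].

The space `LSp ρ` (HDefs.lean) is `u` times the polynomials of degree `≤ d`.

Proof. `⊇`: let `z = u q`, `q.natDegree ≤ d`, `w`, `n` as in the definition. If `w X ≥ 0`: polynomials have order `≥ 0` (`kval_nonneg`); the ideal spanned by the `p i` is the unit ideal (its generator divides all the `p i`, `h2`), so `1 = ∑ a_j p_{i_j}` (finite sum; `Ideal.span_range`, `Finsupp.mem_ideal_span_range_iff_exists_finsupp` or `Submodule.span_induction` for the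
statement `u * q * x` has order `≥ n` or is zero for all `x` in the ideal), so `u q = ∑ (a_j q) ρ_{i_j}`, order `≥ n` or zero. If `w X < 0`: `kval_neg`: for `q ≠ 0`: `w (u q) = w u + (w X) deg q ≥ w u + (w X) d = w (u p_i) ≥ n` for the `i` of `h4`.
`⊆`: `z ∈ LSp ρ`, `z ≠ 0`, `y = z / u`. For `g` irreducible take `w` from `exists_kval_adic`, `n = w u`: `w (ρ i) = w u + w (p i) ≥ w u`; so `w y ≥ 0`. Write `y = num / denom` (coprime: `RatFunc.isCoprime_num_denom`): an irreducible factor `g` of `denom` would give `w y < 0` (`g ∤ num`). So `denom` is a unit (monic, so `= 1`) and `y = q` a polynomial.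
`exists_kval_inf`, `n = w u - d`: `w (ρ i) = w u - deg p i ≥ n`, so `w z ≥ w u - d`, so `- deg q ≥ - d`.
-/

set_option autoImplicit false

open Pool.Agent.LibGMM Pool.Agent.LibHP

namespace Pool.Agent.LibK3

private theorem h14_ne {k : Type} [Field k] {q : Polynomial k} (hq : q ≠ 0) :
    algebraMap (Polynomial k) (RatFunc k) q ≠ 0 := by
  rw [Ne, map_eq_zero_iff _ (IsFractionRing.injective (Polynomial k) (RatFunc k))]
  exact hq

private theorem h14_sub {k ι : Type} [Field k] (ρ : ι → RatFunc k) (d : ℕ) (u : RatFunc k)
    (p : ι → Polynomial k) (hu : u ≠ 0)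
    (h1 : ∀ i, ρ i = u * algebraMap (Polynomial k) (RatFunc k) (p i))
    (h3 : ∀ i, (p i).natDegree ≤ d) (z : RatFunc k) (hz : z ∈ LSp ρ) :
    ∃ q : Polynomial k, q.natDegree ≤ d ∧ z = u * algebraMap (Polynomial k) (RatFunc k) q := by
  by_cases hz0 : z = 0
  · exact ⟨0, by simp, by rw [hz0, map_zero, mul_zero]⟩
  -- the order of `ρ i`
  have hρ : ∀ (w : KVal k (RatFunc k)) (i : ι), ρ i = 0 ∨ w.ord (ρ i) =
      w.ord u + w.ord (algebraMap (Polynomial k) (RatFunc k) (p i)) := by
    intro w i
    by_cases hp : p i = 0
    · left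
      rw [h1, hp, map_zero, mul_zero]
    · right
      rw [h1, w.ord_mul _ _ hu (h14_ne hp)]
  set y : RatFunc k := z / u with hy
  have hzy : z = u * y := by rw [hy]; field_simp
  have hy0 : y ≠ 0 := div_ne_zero hz0 hu
  have hwy : ∀ w : KVal k (RatFunc k), w.ord z = w.ord u + w.ord y := by
    intro w
    rw [hzy, w.ord_mul _ _ hu hy0]
  have hnum0 : y.num ≠ 0 := RatFunc.num_ne_zero hy0
  have hden0 : y.denom ≠ 0 := RatFunc.denom_ne_zero y
  -- the denominator is one
  have hden : y.denom = 1 := by
    have hunit : IsUnit y.denom := by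
      by_contra hnu
      obtain ⟨g, hg, hgd⟩ := WfDvdMonoid.exists_irreducible_factor hnu hden0
      obtain ⟨w, hw1, hw2⟩ := exists_kval_adic g hg
      have h5 := hz w (w.ord u) (fun i => by
        rcases hρ w i with h | h
        · exact Or.inl h
        · right
          rw [h]
          have := hw1 (p i)
          omega)
      have h6 : 0 ≤ w.ord y := by
        rcases h5 with h5 | h5
        · exact absurd h5 hz0
        · rw [hwy w] at h5
          omega
      have h7 : 0 < w.ord (algebraMap (Polynomial k) (RatFunc k) y.denom) :=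
        (hw2 _ hden0).2 hgd
      have h8 : ¬ g ∣ y.num := by
        intro hgn
        exact hg.not_isUnit ((RatFunc.isCoprime_num_denom y).isUnit_of_dvd' hgn hgd)
      have h9 : w.ord (algebraMap (Polynomial k) (RatFunc k) y.num) = 0 := by
        have h10 := hw1 y.num
        have h11 : ¬ 0 < w.ord (algebraMap (Polynomial k) (RatFunc k) y.num) := fun h =>
          h8 ((hw2 _ hnum0).1 h)
        omega
      have h12 : w.ord (algebraMap (Polynomial k) (RatFunc k) y.num) =
          w.ord y + w.ord (algebraMap (Polynomial k) (RatFunc k) y.denom) := by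
        rw [← w.ord_mul _ _ hy0 (h14_ne hden0)]
        congr 1
        have h13 := RatFunc.num_div_denom y
        have h14 := h14_ne hden0
        rw [div_eq_iff h14] at h13
        exact h13
      omega
    exact (RatFunc.monic_denom y).eq_one_of_isUnit hunit
  have hyq : y = algebraMap (Polynomial k) (RatFunc k) y.num := by
    have h13 := RatFunc.num_div_denom y
    rw [hden, map_one, div_one] at h13
    exact h13.symm
  refine ⟨y.num, ?_, by rw [← hyq]; exact hzy⟩
  obtain ⟨w, hw⟩ := exists_kval_inf (k := k)
  have h5 := hz w (w.ord u - d) (fun i => by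
    rcases hρ w i with h | h
    · exact Or.inl h
    · right
      rw [h, hw]
      have := h3 i
      omega)
  rcases h5 with h5 | h5
  · exact absurd h5 hz0
  · rw [hwy w, hyq, hw] at h5
    omega

private theorem h14_sup {k ι : Type} [Field k] (ρ : ι → RatFunc k) (d : ℕ) (u : RatFunc k)
    (p : ι → Polynomial k) (hu : u ≠ 0)
    (h1 : ∀ i, ρ i = u * algebraMap (Polynomial k) (RatFunc k) (p i))
    (h2 : ∀ q : Polynomial k, (∀ i, q ∣ p i) → IsUnit q)
    (h4 : ∃ i, p i ≠ 0 ∧ (p i).natDegree = d) (q : Polynomial k) (hq : q.natDegree ≤ d) :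
    u * algebraMap (Polynomial k) (RatFunc k) q ∈ LSp ρ := by
  intro w n hn
  by_cases hq0 : q = 0
  · left
    rw [hq0, map_zero, mul_zero]
  by_cases hw : 0 ≤ w.ord RatFunc.X
  · have htop : (1 : Polynomial k) ∈ Ideal.span (Set.range p) := by
      obtain ⟨g, hg⟩ := (IsPrincipalIdealRing.principal (Ideal.span (Set.range p))).principal
      have hg' : Ideal.span (Set.range p) = Ideal.span {g} := hg
      have hgu : IsUnit g := h2 g fun i => by
        have : p i ∈ Ideal.span {g} := by
          rw [← hg']
          exact Ideal.subset_span ⟨i, rfl⟩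
        exact Ideal.mem_span_singleton.1 this
      rw [hg', Ideal.span_singleton_eq_top.2 hgu]
      exact Submodule.mem_top
    have hind : ∀ x ∈ Ideal.span (Set.range p),
        u * algebraMap (Polynomial k) (RatFunc k) (q * x) = 0 ∨
          n ≤ w.ord (u * algebraMap (Polynomial k) (RatFunc k) (q * x)) := by
      intro x hx
      induction hx using Submodule.span_induction with
      | mem x hx =>
        obtain ⟨i, rfl⟩ := hx
        by_cases hp : p i = 0
        · left
          rw [hp, mul_zero, map_zero, mul_zero]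
        · right
          have h5 : u * algebraMap (Polynomial k) (RatFunc k) (q * p i) =
              algebraMap (Polynomial k) (RatFunc k) q * ρ i := by
            rw [h1, map_mul]
            ring
          have h6 : ρ i ≠ 0 := by
            rw [h1]
            exact mul_ne_zero hu (h14_ne hp)
          rw [h5, w.ord_mul _ _ (h14_ne hq0) h6]
          have h7 := kval_nonneg w hw q
          rcases hn i with h8 | h8
          · exact absurd h8 h6
          · omega
      | zero =>
        left
        rw [mul_zero, map_zero, mul_zero]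
      | add x y _ _ hx hy =>
        rw [mul_add, map_add, mul_add]
        exact w.ord_add_ge hx hy
      | smul a x _ hx =>
        have h5 : u * algebraMap (Polynomial k) (RatFunc k) (q * a • x) =
            algebraMap (Polynomial k) (RatFunc k) a *
              (u * algebraMap (Polynomial k) (RatFunc k) (q * x)) := by
          rw [smul_eq_mul, map_mul, map_mul, map_mul]
          ring
        rw [h5]
        by_cases ha : a = 0
        · left
          rw [ha, map_zero, zero_mul]
        rcases hx with hx | hx
        · left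
          rw [hx, mul_zero]
        by_cases hx0 : u * algebraMap (Polynomial k) (RatFunc k) (q * x) = 0
        · left
          rw [hx0, mul_zero]
        right
        rw [w.ord_mul _ _ (h14_ne ha) hx0]
        have h7 := kval_nonneg w hw a
        omega
    have h8 := hind 1 htop
    rwa [mul_one] at h8
  · right
    push Not at hw
    obtain ⟨i, hi0, hid⟩ := h4
    have h6 : ρ i ≠ 0 := by
      rw [h1]
      exact mul_ne_zero hu (h14_ne hi0)
    have h7 : w.ord (ρ i) = w.ord u + w.ord RatFunc.X * d := by
      rw [h1, w.ord_mul _ _ hu (h14_ne hi0), kval_neg w hw _ hi0, hid]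
    rw [w.ord_mul _ _ hu (h14_ne hq0), kval_neg w hw _ hq0]
    have h8 : n ≤ w.ord (ρ i) := (hn i).resolve_left h6
    have h9 : w.ord RatFunc.X * (d : ℤ) ≤ w.ord RatFunc.X * (q.natDegree : ℤ) := by
      apply mul_le_mul_of_nonpos_left _ hw.le
      exact_mod_cast hq
    linarith

theorem lsp_eq {k ι : Type} [Field k] (ρ : ι → RatFunc k) (d : ℕ) (u : RatFunc k)
    (p : ι → Polynomial k) (hu : u ≠ 0)
    (h1 : ∀ i, ρ i = u * algebraMap (Polynomial k) (RatFunc k) (p i))
    (h2 : ∀ q : Polynomial k, (∀ i, q ∣ p i) → IsUnit q) (h3 : ∀ i, (p i).natDegree ≤ d)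
    (h4 : ∃ i, p i ≠ 0 ∧ (p i).natDegree = d) :
    LSp ρ = {z | ∃ q : Polynomial k, q.natDegree ≤ d ∧
      z = u * algebraMap (Polynomial k) (RatFunc k) q} := by
  ext z
  constructor
  · exact h14_sub ρ d u p hu h1 h3 z
  · rintro ⟨q, hq, rfl⟩
    exact h14_sup ρ d u p hu h1 h2 h4 q hq

end Pool.Agent.LibK3
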