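import Pool.Agent.LibK3.H14

/-!
ROW [K3 H15].

The degree is determined by the space `LSp ρ`.

Proof. `fdeg_eq_of_lsp`: by `lsp_eq` the set `LSp ρ` is the underlying set of a subspace of dimension `d + 1` over `k` (`Polynomial.degreeLT k (d + 1)` or `degreeLE`, mapped by the injective linear map `q ↦ u q`; `Polynomial.degreeLTEquiv`, `finrank`), `LSp σ` similarly of dimension `e + 1`, and `θ` is an injective linear map. (Or by hand.)
`lsp_comp`: `w ↦ w ∘ θ` is a bijection of the valuations (`KVal` with `ord z = w.ord (θ z)`; it takes the value one since `θ` is surjective).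
`lsp_eq_of_spans`: if `ρ i = ∑ o s * σ s` with `0 ≤ w (o s)` and all the `σ s` are zero or of order `≥ n` then `ρ i = 0` or its order is `≥ n` (`KVal.ord_add_ge`, induction on the finset; `KVal.ord_mul`).
-/

set_option autoImplicit false

open Pool.Agent.LibGMM Pool.Agent.LibHP

namespace Pool.Agent.LibK3

variable {k ι κ : Type} [Field k]

/-- `q ↦ u q` -/
noncomputable def H15_L (u : RatFunc k) : Polynomial k →ₗ[k] RatFunc k :=
  (LinearMap.mulLeft k u).comp (Algebra.linearMap (Polynomial k) (RatFunc k) |>.restrictScalars k)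

theorem H15_L_apply (u : RatFunc k) (q : Polynomial k) :
    H15_L u q = u * algebraMap (Polynomial k) (RatFunc k) q := rfl

theorem H15_L_inj {u : RatFunc k} (hu : u ≠ 0) : Function.Injective (H15_L u) := by
  intro q q' h
  rw [H15_L_apply, H15_L_apply] at h
  exact RatFunc.algebraMap_injective k (mul_left_cancel₀ hu h)

/-- the space of the `u q` with `deg q ≤ d` -/
noncomputable def H15_V (u : RatFunc k) (d : ℕ) : Submodule k (RatFunc k) :=
  (Polynomial.degreeLT k (d + 1)).map (H15_L u)

theorem H15_V_rank {u : RatFunc k} (hu : u ≠ 0) (d : ℕ) :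
    Module.finrank k (H15_V u d) = d + 1 := by
  have h1 := (Submodule.equivMapOfInjective (H15_L u) (H15_L_inj hu)
    (Polynomial.degreeLT k (d + 1))).finrank_eq
  have h2 := (Polynomial.degreeLTEquiv k (d + 1)).finrank_eq
  rw [Module.finrank_fin_fun] at h2
  unfold H15_V
  rw [← h1, h2]

theorem H15_mem {u z : RatFunc k} {d : ℕ} : z ∈ H15_V u d ↔ ∃ q : Polynomial k, q.natDegree ≤ d ∧
    z = u * algebraMap (Polynomial k) (RatFunc k) q := by
  unfold H15_V
  rw [Submodule.mem_map]
  constructor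
  · rintro ⟨q, hq, rfl⟩
    refine ⟨q, ?_, H15_L_apply u q⟩
    rw [Polynomial.mem_degreeLT, Polynomial.degree_lt_iff_coeff_zero] at hq
    rw [Polynomial.natDegree_le_iff_coeff_eq_zero]
    intro N hN
    exact hq N hN
  · rintro ⟨q, hq, rfl⟩
    refine ⟨q, ?_, H15_L_apply u q⟩
    rw [Polynomial.natDegree_le_iff_coeff_eq_zero] at hq
    rw [Polynomial.mem_degreeLT, Polynomial.degree_lt_iff_coeff_zero]
    intro m hm
    exact hq m hm

theorem fdeg_eq_of_lsp {ρ : ι → RatFunc k} {σ : κ → RatFunc k} {d e : ℕ} (h : FDeg ρ d)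
    (h' : FDeg σ e) (θ : RatFunc k →ₐ[k] RatFunc k) (hθ : LSp σ = θ '' LSp ρ) : d = e := by
  obtain ⟨u, p, hu, h1, h2, h3, h4⟩ := h
  obtain ⟨u', p', hu', h1', h2', h3', h4'⟩ := h'
  have e1 : LSp ρ = (H15_V u d : Set (RatFunc k)) := by
    rw [lsp_eq ρ d u p hu h1 h2 h3 h4]
    ext z
    exact H15_mem.symm
  have e2 : LSp σ = (H15_V u' e : Set (RatFunc k)) := by
    rw [lsp_eq σ e u' p' hu' h1' h2' h3' h4']
    ext z
    exact H15_mem.symm
  have e3 : H15_V u' e = (H15_V u d).map θ.toLinearMap := by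
    apply SetLike.coe_injective
    rw [← e2, hθ, e1, Submodule.map_coe]
    rfl
  have hinj : Function.Injective θ.toLinearMap := θ.toRingHom.injective
  have r1 := (Submodule.equivMapOfInjective θ.toLinearMap hinj (H15_V u d)).finrank_eq
  rw [← e3, H15_V_rank hu, H15_V_rank hu'] at r1
  omega

/-- transport of a valuation -/
noncomputable def H15_comp (w : KVal k (RatFunc k)) (θ : RatFunc k ≃ₐ[k] RatFunc k) : KVal k (RatFunc k) where
  ord z := w.ord (θ z)
  ord_zero := by rw [map_zero, w.ord_zero]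
  ord_mul a b ha hb := by
    rw [map_mul]
    exact w.ord_mul _ _ (by simpa using ha) (by simpa using hb)
  ord_add a b ha hb hab := by
    rw [map_add]
    exact w.ord_add _ _ (by simpa using ha) (by simpa using hb) (by
      rw [← map_add]
      exact (map_ne_zero_iff θ θ.injective).2 hab)
  ord_const c := by
    rw [AlgEquiv.commutes]
    exact w.ord_const c
  exists_ord_one := by
    obtain ⟨t, ht⟩ := w.exists_ord_one
    exact ⟨θ.symm t, by rw [AlgEquiv.apply_symm_apply]; exact ht⟩

theorem lsp_comp (θ : RatFunc k ≃ₐ[k] RatFunc k) (ρ : ι → RatFunc k) :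
    LSp (fun i => θ (ρ i)) = θ '' LSp ρ := by
  ext z
  constructor
  · intro hz
    refine ⟨θ.symm z, ?_, AlgEquiv.apply_symm_apply θ z⟩
    intro w n hw
    have h1 := hz (H15_comp w θ.symm) n (fun i => by
      rcases hw i with h | h
      · left
        show θ (ρ i) = 0
        rw [h, map_zero]
      · right
        show n ≤ w.ord (θ.symm (θ (ρ i)))
        rw [AlgEquiv.symm_apply_apply]
        exact h)
    rcases h1 with h | h
    · left
      rw [h, map_zero]
    · right
      exact h
  · rintro ⟨y, hy, rfl⟩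
    intro w n hw
    have h1 := hy (H15_comp w θ) n (fun i => by
      rcases hw i with h | h
      · left
        have : θ (ρ i) = 0 := h
        simpa using this
      · right
        exact h)
    rcases h1 with h | h
    · left
      rw [h, map_zero]
    · right
      exact h

theorem H15_sum (w : KVal k (RatFunc k)) (n : ℤ) {κ : Type} (s : Finset κ) (x : κ → RatFunc k)
    (hx : ∀ i ∈ s, x i = 0 ∨ n ≤ w.ord (x i)) : ∑ i ∈ s, x i = 0 ∨ n ≤ w.ord (∑ i ∈ s, x i) := by
  classical
  induction s using Finset.induction_on with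
  | empty =>
    left
    simp
  | insert a s ha ih =>
    rw [Finset.sum_insert ha]
    have h1 := ih fun i hi => hx i (Finset.mem_insert_of_mem hi)
    have h2 := hx a (Finset.mem_insert_self a s)
    rcases h2 with h2 | h2
    · rw [h2, zero_add]
      exact h1
    rcases h1 with h1 | h1
    · rw [h1, add_zero]
      exact Or.inr h2
    by_cases hz : x a + ∑ i ∈ s, x i = 0
    · exact Or.inl hz
    by_cases ha0 : x a = 0
    · rw [ha0, zero_add]
      exact Or.inr h1
    by_cases hs0 : ∑ i ∈ s, x i = 0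
    · rw [hs0, add_zero]
      exact Or.inr h2
    exact Or.inr ((le_min h2 h1).trans (w.ord_add _ _ ha0 hs0 hz))

theorem H15_span [Fintype κ] (w : KVal k (RatFunc k)) (n : ℤ) (σ : κ → RatFunc k) (z : RatFunc k)
    (h : ∃ o : κ → RatFunc k, (∀ s, 0 ≤ w.ord (o s)) ∧ z = ∑ s, o s * σ s)
    (hσ : ∀ s, σ s = 0 ∨ n ≤ w.ord (σ s)) : z = 0 ∨ n ≤ w.ord z := by
  obtain ⟨o, ho, rfl⟩ := h
  refine H15_sum w n _ _ fun s _ => ?_
  by_cases h1 : o s = 0
  · left
    rw [h1, zero_mul]
  by_cases h2 : σ s = 0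
  · left
    rw [h2, mul_zero]
  right
  rw [w.ord_mul _ _ h1 h2]
  have h3 := ho s
  rcases hσ s with h4 | h4
  · exact absurd h4 h2
  · linarith

theorem lsp_eq_of_spans [Fintype ι] [Fintype κ] (ρ : ι → RatFunc k) (σ : κ → RatFunc k)
    (h : ∀ w : KVal k (RatFunc k),
      (∀ i, ∃ o : κ → RatFunc k, (∀ s, 0 ≤ w.ord (o s)) ∧ ρ i = ∑ s, o s * σ s) ∧
      ∀ s, ∃ o : ι → RatFunc k, (∀ i, 0 ≤ w.ord (o i)) ∧ σ s = ∑ i, o i * ρ i) :
    LSp ρ = LSp σ := by
  ext z
  constructor
  · intro hz w n hw
    exact hz w n fun i => H15_span w n σ (ρ i) ((h w).1 i) hw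
  · intro hz w n hw
    exact hz w n fun s => H15_span w n ρ (σ s) ((h w).2 s) hw

end Pool.Agent.LibK3
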