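import Pool.Agent.LibK3.H16D

/-!
ROW [K3 H16].

The centre of a composite valuation.

Proof. `ι` is finite and non empty: there is `i0` with `v.ord (c i0)` minimal; `z0 = (c i0)⁻¹`, `ρ i = r (c i * z0)`, `ρ i0 = 1`. Choose `i` among the indices with `ρ i ≠ 0` with `w.ord (ρ i)` minimal. `c i * z0` is a unit of `v.ring` (`ρ i ≠ 0`, so `v.ord (c i * z0) = 0` by `hr`), so `c j / c i = (c j * z0) / (c i * z0) ∈ v.ring` and `r (c j / c i) = ρ j / ρ i` is zero or has `w.ord ≥ 0`.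
So all elements `a` of `A = kchart k c i` are in `v.ring` with `0 ≤ w.ord (r a)` (the set `S` of such elements is a subalgebra of `K`: `KVal.ring` for `v`, the comap of `KVal.ring` for `w`; `Algebra.adjoin_le`). `P = {a | r a = 0 ∨ 0 < w.ord (r a)}` is a prime ideal of `A`. `O = locAt A P`: for `z = a / b`, `b ∉ P`: `r b ≠ 0` and `w.ord (r b) = 0`, so `b` is a unit of `v.ring`, `z ∈ v.ring`
and `r z = r a / r b` has `0 ≤ w.ord`. (`w.ord 0 = 0`, so `0 ≤ w.ord 0` is fine.)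
-/

set_option autoImplicit false

open Pool.Agent.LibGMM Pool.Agent.LibHP
open AlgebraicGeometry CategoryTheory

namespace Pool.Agent.LibK3

private theorem H16_div {k F : Type} [Field k] [Field F] [Algebra k F] (w : KVal k F) {a b : F}
    (ha : 0 ≤ w.ord a) (hb : w.ord b ≤ 0) (hb' : b ≠ 0) : 0 ≤ w.ord (a / b) := by
  by_cases h : a = 0
  · rw [h, zero_div, w.ord_zero]
  · rw [div_eq_mul_inv, w.ord_mul _ _ h (inv_ne_zero hb'), w.ord_inv]
    omega

theorem exists_centre {k K ι : Type} [Field k] [Field K] [Algebra k K] [Finite ι] [Nonempty ι]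
    (c : ι → K) (hc : ∀ i, c i ≠ 0) (v : KVal k K) (r : v.ring →ₐ[k] RatFunc k)
    (hr : IsResMap v r) (w : KVal k (RatFunc k)) :
    ∃ O : Set K, IsPtRing k c O ∧ ∀ z ∈ O, ∃ hz : z ∈ v.ring, 0 ≤ w.ord (r ⟨z, hz⟩) := by
  obtain ⟨i0, hi0⟩ := Finite.exists_min fun i => v.ord (c i)
  have h0 : ∀ i, c i * (c i0)⁻¹ ∈ v.ring := by
    intro i
    rw [v.mem_ring, v.ord_mul _ _ (hc i) (inv_ne_zero (hc i0)), v.ord_inv]
    have := hi0 i
    omega
  obtain ⟨ρ, hρ⟩ : ∃ ρ : ι → RatFunc k, ρ = fun i => r ⟨c i * (c i0)⁻¹, h0 i⟩ := ⟨_, rfl⟩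
  have hρ0 : ρ i0 ≠ 0 := by
    have h1 : (⟨c i0 * (c i0)⁻¹, h0 i0⟩ : v.ring) = 1 := Subtype.ext (mul_inv_cancel₀ (hc i0))
    rw [hρ]
    show r ⟨c i0 * (c i0)⁻¹, h0 i0⟩ ≠ 0
    rw [h1, map_one]
    exact one_ne_zero
  obtain ⟨i, hi, hmin⟩ := Set.exists_min_image {i | ρ i ≠ 0} (fun i => w.ord (ρ i))
    (Set.toFinite _) ⟨i0, hρ0⟩
  have hi' : ρ i ≠ 0 := hi
  have hvi : v.ord (c i * (c i0)⁻¹) = 0 := by
    have h1 := (hr.2 ⟨c i * (c i0)⁻¹, h0 i⟩).not.1 (by rw [hρ] at hi'; exact hi')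
    push Not at h1
    exact le_antisymm h1.2 (h0 i)
  have hdiv : ∀ j, c j / c i ∈ v.ring := by
    intro j
    have h1 : c j / c i = c j * (c i0)⁻¹ / (c i * (c i0)⁻¹) :=
      (mul_div_mul_right _ _ (inv_ne_zero (hc i0))).symm
    rw [h1]
    exact H16_div v (h0 j) hvi.le (mul_ne_zero (hc i) (inv_ne_zero (hc i0)))
  have hrdiv : ∀ j, r ⟨c j / c i, hdiv j⟩ = ρ j / ρ i := by
    intro j
    rw [eq_div_iff hi', hρ]
    show r ⟨c j / c i, hdiv j⟩ * r ⟨c i * (c i0)⁻¹, h0 i⟩ = r ⟨c j * (c i0)⁻¹, h0 j⟩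
    rw [← map_mul]
    congr 1
    apply Subtype.ext
    show c j / c i * (c i * (c i0)⁻¹) = c j * (c i0)⁻¹
    rw [← mul_assoc, div_mul_cancel₀ _ (hc i)]
  have hwdiv : ∀ j, 0 ≤ w.ord (r ⟨c j / c i, hdiv j⟩) := by
    intro j
    rw [hrdiv]
    by_cases h : ρ j = 0
    · rw [h, zero_div, w.ord_zero]
    · rw [div_eq_mul_inv, w.ord_mul _ _ h (inv_ne_zero hi'), w.ord_inv]
      have := hmin j h
      omega
  -- the chart
  have hA : ∀ a ∈ kchart k c i, ∃ ha : a ∈ v.ring, 0 ≤ w.ord (r ⟨a, ha⟩) := by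
    have h1 : kchart k c i ≤ (w.ring.comap r).map v.ring.val := by
      refine Algebra.adjoin_le ?_
      rintro _ ⟨j, rfl⟩
      exact ⟨⟨c j / c i, hdiv j⟩, hwdiv j, rfl⟩
    intro a ha
    obtain ⟨y, hy, rfl⟩ := h1 ha
    exact ⟨y.2, hy⟩
  have hAv : kchart k c i ≤ v.ring := fun a ha => (hA a ha).1
  obtain ⟨φ, hφ⟩ : ∃ φ : kchart k c i →ₐ[k] RatFunc k, φ = r.comp (Subalgebra.inclusion hAv) :=
    ⟨_, rfl⟩
  have hφa : ∀ a : kchart k c i, φ a = r ⟨a, hAv a.2⟩ := by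
    intro a
    rw [hφ]
    rfl
  have hφ0 : ∀ a : kchart k c i, 0 ≤ w.ord (φ a) := by
    intro a
    rw [hφa]
    obtain ⟨h1, h2⟩ := hA a a.2
    exact h2
  let P : Ideal (kchart k c i) :=
    { carrier := {a | φ a = 0 ∨ 0 < w.ord (φ a)}
      add_mem' := by
        intro a b ha hb
        show φ (a + b) = 0 ∨ 0 < w.ord (φ (a + b))
        rw [map_add]
        exact w.ord_add_ge (n := 1) ha hb
      zero_mem' := Or.inl (map_zero φ)
      smul_mem' := by
        intro a b hb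
        show φ (a * b) = 0 ∨ 0 < w.ord (φ (a * b))
        rw [map_mul]
        by_cases ha : φ a = 0
        · left
          rw [ha, zero_mul]
        · rcases hb with hb | hb
          · left
            rw [hb, mul_zero]
          · by_cases hb0 : φ b = 0
            · left
              rw [hb0, mul_zero]
            · right
              rw [w.ord_mul _ _ ha hb0]
              have := hφ0 a
              omega }
  have hPm : ∀ a, a ∈ P ↔ (φ a = 0 ∨ 0 < w.ord (φ a)) := fun a => Iff.rfl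
  have hP : P.IsPrime := by
    refine ⟨?_, ?_⟩
    · intro h
      have h1 : (1 : kchart k c i) ∈ P := by rw [h]; exact Submodule.mem_top
      rw [hPm, map_one, w.ord_one] at h1
      rcases h1 with h1 | h1
      · exact one_ne_zero h1
      · exact lt_irrefl _ h1
    · intro a b hab
      rw [hPm, map_mul] at hab
      rw [hPm, hPm]
      by_cases ha : φ a = 0
      · exact Or.inl (Or.inl ha)
      by_cases hb : φ b = 0
      · exact Or.inr (Or.inl hb)
      rcases hab with h | h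
      · exact absurd h (mul_ne_zero ha hb)
      · rw [w.ord_mul _ _ ha hb] at h
        have h1 := hφ0 a
        have h2 := hφ0 b
        by_cases h3 : 0 < w.ord (φ a)
        · exact Or.inl (Or.inr h3)
        · exact Or.inr (Or.inr (by omega))
  refine ⟨locAt (kchart k c i) P, ⟨i, P, hP, rfl⟩, ?_⟩
  rintro z ⟨a, b, hb, rfl⟩
  rw [hPm] at hb
  push Not at hb
  obtain ⟨hb1, hb2⟩ := hb
  have hb3 : φ b ≠ 0 := hb1
  have hb4 := (hr.2 ⟨b, hAv b.2⟩).not.1 (by rw [← hφa]; exact hb3)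
  push Not at hb4
  have hb5 : (b : K) ≠ 0 := hb4.1
  have hz : (a : K) / b ∈ v.ring := H16_div v (hAv a.2) hb4.2 hb5
  refine ⟨hz, ?_⟩
  have h1 : r ⟨(a : K) / b, hz⟩ = φ a / φ b := by
    rw [eq_div_iff hb3, hφa, hφa, ← map_mul]
    congr 1
    apply Subtype.ext
    exact div_mul_cancel₀ _ hb5
  rw [h1]
  exact H16_div w (hφ0 a) hb2 hb3

end Pool.Agent.LibK3
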