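import Pool.Agent.LibK3.HDefs
import Pool.Agent.LibK3.BC16
import Pool.Agent.LibK3.BC19

/-!
Block H: the degree of a rational curve, definitions.
-/

set_option autoImplicit false

open Pool.Agent.LibGMM Pool.Agent.LibHP
open AlgebraicGeometry CategoryTheory

namespace Pool.Agent.LibK3

/-- The map `r` is the residue map of `v`. -/
def IsResMap {k K : Type} [Field k] [Field K] [Algebra k K] (v : KVal k K)
    (r : v.ring →ₐ[k] RatFunc k) : Prop :=
  Function.Surjective r ∧ ∀ z, r z = 0 ↔ ((z : K) = 0 ∨ 0 < v.ord (z : K))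

/-- The degree of the restriction of the family `b` to the curve of `v`. -/
def FamDeg {k K ι : Type} [Field k] [Field K] [Algebra k K] (b : ι → K) (v : KVal k K)
    (r : v.ring →ₐ[k] RatFunc k) (d : ℕ) : Prop :=
  ∃ (z : K) (hz : ∀ i, b i * z ∈ v.ring), (∃ i, r ⟨b i * z, hz i⟩ ≠ 0) ∧
    FDeg (fun i => r ⟨b i * z, hz i⟩) d

/-- The degree of the rational curve with generic point `x`. -/
def HasDeg {k : Type} [Field k] {X : Scheme} [IsIntegral X] [Algebra k X.functionField]
    {ι : Type} (c : ι → X.functionField) (x : X) (d : ℕ) : Prop :=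
  ∃ (v : KVal k X.functionField) (r : v.ring →ₐ[k] RatFunc k),
    (∀ z, 0 ≤ v.ord z ↔ z ∈ stk X x) ∧ IsResMap v r ∧ FamDeg c v r d

end Pool.Agent.LibK3
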