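import Pool.Agent.LibK3.H13
import Pool.Agent.LibK3.H15
import Pool.Agent.LibK3.H16

/-!
ROW [K3 H17].

The relation of the degrees.

Proof. `hd : FamDeg c v r d` gives `z`, `hd'` gives `z'`, `hd''` gives `z''`, all non zero. `Φ = φ z' z'' / z ^ a`, and for `i, j`, `s`: `(b' i z') (b'' j z'') = ∑_s o s * (Φ * ∏ t, c (s t) z)` (multiply the relation `hrel` by `z' z''`; `∏ t, (c (s t) * z) = (∏ t, c (s t)) * z ^ a`), and `Φ * ∏ t, (c (s t) z) = ∑_i ∑_j o i j * ((b' i z') (b'' j z''))`.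
(1) `v.ord Φ = 0`. Take any point ring `O` (H16, any `w`, e.g. from `exists_kval_inf`; `O ⊆ v.ring`) and the coefficients from `hrel`. The minimum of the orders of the `b' i z'` is zero (all `≥ 0`, one with `r ≠ 0` so of order zero), the same for the others. From the first relation for `i, j` with orders zero: `0 ≥ v.ord Φ` (all terms of the right side are zero or of order `≥ v.ord Φ`); from the second
with `s` constant, of order zero: `v.ord Φ ≥ 0`. (`KVal.ord_add_ge`.) So `Φ ∈ v.ring` and `u = r Φ ≠ 0`.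
(2) Put `ρ' i = r (b' i z')`, `ρ'' j = r (b'' j z'')`, `ρ i = r (c i z)`. For each `w : KVal k (RatFunc k)` take `O` from H16 and the coefficients from `hrel`; apply `r`: `ρ' i ρ'' j = ∑_s r (o s) (u ∏ t, ρ (s t))` with `0 ≤ w.ord (r (o s))`, and the reverse relation. So `lsp_eq_of_spans` (H15; index types `ι × ι` and `Fin a → ι`) gives `LSp (ρ' i ρ'' j) = LSp (u ∏ ρ (s t))`;
`FDeg.mul`, `FDeg.prod`, `FDeg.smul` (H13) and `fdeg_eq_of_lsp` (H15) with `θ = AlgHom.id` give `d' + d'' = a * d`.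
-/

set_option autoImplicit false

open Pool.Agent.LibGMM Pool.Agent.LibHP
open AlgebraicGeometry CategoryTheory

namespace Pool.Agent.LibK3

private theorem h17_unit {k K : Type} [Field k] [Field K] [Algebra k K] {v : KVal k K}
    {r : v.ring →ₐ[k] RatFunc k} (hr : IsResMap v r) (x : v.ring) (hx : r x ≠ 0) :
    (x : K) ≠ 0 ∧ v.ord (x : K) = 0 := by
  rw [Ne, hr.2, not_or] at hx
  have h1 : 0 ≤ v.ord (x : K) := x.2
  exact ⟨hx.1, by omega⟩

/-- The two relations, after normalisation. -/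
private theorem h17_rel {K ι : Type} [Field K] [Fintype ι] (c b' b'' : ι → K) (a : ℕ) (φ : K)
    (O : Set K) (z z' z'' : K) (hz : z ≠ 0)
    (h : (∀ i j, ∃ o : (Fin a → ι) → K, (∀ s, o s ∈ O) ∧
        b' i * b'' j = ∑ s, o s * (φ * ∏ t, c (s t))) ∧
      ∀ s : Fin a → ι, ∃ o : ι → ι → K, (∀ i j, o i j ∈ O) ∧
        φ * ∏ t, c (s t) = ∑ i, ∑ j, o i j * (b' i * b'' j)) :
    (∀ i j, ∃ o : (Fin a → ι) → K, (∀ s, o s ∈ O) ∧
        (b' i * z') * (b'' j * z'') =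
          ∑ s, o s * ((φ * z' * z'' / z ^ a) * ∏ t, (c (s t) * z))) ∧
      ∀ s : Fin a → ι, ∃ o : ι → ι → K, (∀ i j, o i j ∈ O) ∧
        (φ * z' * z'' / z ^ a) * ∏ t, (c (s t) * z) =
          ∑ i, ∑ j, o i j * ((b' i * z') * (b'' j * z'')) := by
  have hprod : ∀ s : Fin a → ι, (φ * z' * z'' / z ^ a) * ∏ t, (c (s t) * z) =
      z' * z'' * (φ * ∏ t, c (s t)) := by
    intro s
    rw [Finset.prod_mul_distrib, Finset.prod_const, Finset.card_univ, Fintype.card_fin]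
    field_simp
  constructor
  · intro i j
    obtain ⟨o, ho, he⟩ := h.1 i j
    refine ⟨o, ho, ?_⟩
    have h1 : (b' i * z') * (b'' j * z'') = z' * z'' * (b' i * b'' j) := by ring
    rw [h1, he, Finset.mul_sum]
    refine Finset.sum_congr rfl fun s _ => ?_
    rw [hprod]
    ring
  · intro s
    obtain ⟨o, ho, he⟩ := h.2 s
    refine ⟨o, ho, ?_⟩
    rw [hprod, he, Finset.mul_sum]
    refine Finset.sum_congr rfl fun i _ => ?_
    rw [Finset.mul_sum]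
    refine Finset.sum_congr rfl fun j _ => ?_
    ring

/-- The factor is a unit. -/
private theorem h17_ord {k K ι : Type} [Field k] [Field K] [Algebra k K] [Fintype ι]
    (v : KVal k K) (C B' B'' : ι → v.ring) (a : ℕ) (Φ : K) (hΦ : Φ ≠ 0) (O : Set K)
    (hO : ∀ x ∈ O, x ∈ v.ring) (i0 j0 i1 : ι) (h0 : (B' i0 : K) ≠ 0 ∧ v.ord (B' i0 : K) = 0)
    (h0' : (B'' j0 : K) ≠ 0 ∧ v.ord (B'' j0 : K) = 0)
    (h1 : (C i1 : K) ≠ 0 ∧ v.ord (C i1 : K) = 0)
    (hR : (∀ i j, ∃ o : (Fin a → ι) → K, (∀ s, o s ∈ O) ∧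
        (B' i : K) * (B'' j : K) = ∑ s, o s * (Φ * ∏ t, (C (s t) : K))) ∧
      ∀ s : Fin a → ι, ∃ o : ι → ι → K, (∀ i j, o i j ∈ O) ∧
        Φ * ∏ t, (C (s t) : K) = ∑ i, ∑ j, o i j * ((B' i : K) * (B'' j : K))) :
    v.ord Φ = 0 := by
  apply le_antisymm
  · obtain ⟨o, ho, he⟩ := hR.1 i0 j0
    have h2 : ∑ s, o s * (Φ * ∏ t, (C (s t) : K)) = Φ * ∑ s, o s * ∏ t, (C (s t) : K) := by
      rw [Finset.mul_sum]
      refine Finset.sum_congr rfl fun s _ => ?_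
      ring
    rw [h2] at he
    have h3 : (∑ s, o s * ∏ t, (C (s t) : K)) ∈ v.ring := by
      refine Subalgebra.sum_mem _ fun s _ => ?_
      exact Subalgebra.mul_mem _ (hO _ (ho s)) (Subalgebra.prod_mem _ fun t _ => (C (s t)).2)
    have h4 : (∑ s, o s * ∏ t, (C (s t) : K)) ≠ 0 := by
      intro h5
      rw [h5, mul_zero] at he
      exact mul_ne_zero h0.1 h0'.1 he
    have h6 : v.ord ((B' i0 : K) * (B'' j0 : K)) = 0 := by
      rw [v.ord_mul _ _ h0.1 h0'.1, h0.2, h0'.2, add_zero]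
    rw [he, v.ord_mul _ _ hΦ h4] at h6
    have h7 : 0 ≤ v.ord (∑ s, o s * ∏ t, (C (s t) : K)) := h3
    omega
  · obtain ⟨o, ho, he⟩ := hR.2 fun _ => i1
    have h3 : (∑ i, ∑ j, o i j * ((B' i : K) * (B'' j : K))) ∈ v.ring := by
      refine Subalgebra.sum_mem _ fun i _ => Subalgebra.sum_mem _ fun j _ => ?_
      exact Subalgebra.mul_mem _ (hO _ (ho i j)) (Subalgebra.mul_mem _ (B' i).2 (B'' j).2)
    rw [← he, Finset.prod_const, Finset.card_univ, Fintype.card_fin] at h3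
    have hp : ∀ n : ℕ, v.ord ((C i1 : K) ^ n) = 0 := by
      intro n
      induction n with
      | zero => rw [pow_zero, v.ord_one]
      | succ n ih => rw [pow_succ, v.ord_mul _ _ (pow_ne_zero _ h1.1) h1.1, ih, h1.2, add_zero]
    have h4 : 0 ≤ v.ord (Φ * (C i1 : K) ^ a) := h3
    rw [v.ord_mul _ _ hΦ (pow_ne_zero _ h1.1), hp] at h4
    omega

theorem famDeg_relation {k K ι : Type} [Field k] [Field K] [Algebra k K] [Fintype ι] [Nonempty ι]
    (c b' b'' : ι → K) (hc : ∀ i, c i ≠ 0) (v : KVal k K) (r : v.ring →ₐ[k] RatFunc k)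
    (hr : IsResMap v r) (a : ℕ) (φ : K) (hφ : φ ≠ 0)
    (hrel : ∀ O : Set K, IsPtRing k c O →
      (∀ i j, ∃ o : (Fin a → ι) → K, (∀ s, o s ∈ O) ∧
        b' i * b'' j = ∑ s, o s * (φ * ∏ t, c (s t))) ∧
      ∀ s : Fin a → ι, ∃ o : ι → ι → K, (∀ i j, o i j ∈ O) ∧
        φ * ∏ t, c (s t) = ∑ i, ∑ j, o i j * (b' i * b'' j))
    (d d' d'' : ℕ) (hd : FamDeg c v r d) (hd' : FamDeg b' v r d') (hd'' : FamDeg b'' v r d'') :
    d' + d'' = a * d := by
  obtain ⟨z, hz, ⟨i1, hi1⟩, hD⟩ := hd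
  obtain ⟨z', hz', ⟨i0, hi0⟩, hD'⟩ := hd'
  obtain ⟨z'', hz'', ⟨j0, hj0⟩, hD''⟩ := hd''
  have hu1 := h17_unit hr _ hi1
  have hu0 := h17_unit hr _ hi0
  have hu2 := h17_unit hr _ hj0
  have hz0 : z ≠ 0 := right_ne_zero_of_mul hu1.1
  have hz0' : z' ≠ 0 := right_ne_zero_of_mul hu0.1
  have hz0'' : z'' ≠ 0 := right_ne_zero_of_mul hu2.1
  have hΦ0 : φ * z' * z'' / z ^ a ≠ 0 :=
    div_ne_zero (mul_ne_zero (mul_ne_zero hφ hz0') hz0'') (pow_ne_zero _ hz0)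
  generalize hΦ : φ * z' * z'' / z ^ a = Φ at hΦ0
  have hR : ∀ O : Set K, IsPtRing k c O →
      (∀ i j, ∃ o : (Fin a → ι) → K, (∀ s, o s ∈ O) ∧
        (b' i * z') * (b'' j * z'') = ∑ s, o s * (Φ * ∏ t, (c (s t) * z))) ∧
      ∀ s : Fin a → ι, ∃ o : ι → ι → K, (∀ i j, o i j ∈ O) ∧
        Φ * ∏ t, (c (s t) * z) = ∑ i, ∑ j, o i j * ((b' i * z') * (b'' j * z'')) := by
    intro O hO
    rw [← hΦ]
    exact h17_rel c b' b'' a φ O z z' z'' hz0 (hrel O hO)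
  have hΦord : v.ord Φ = 0 := by
    obtain ⟨w, -⟩ := exists_kval_inf (k := k)
    obtain ⟨O, hO, hO'⟩ := exists_centre c hc v r hr w
    exact h17_ord v (fun i => ⟨c i * z, hz i⟩) (fun i => ⟨b' i * z', hz' i⟩)
      (fun i => ⟨b'' i * z'', hz'' i⟩) a Φ hΦ0 O (fun x hx => (hO' x hx).1) i0 j0 i1 hu0 hu2 hu1
      (hR O hO)
  have hΦr : Φ ∈ v.ring := v.mem_ring.2 hΦord.ge
  have hu : r ⟨Φ, hΦr⟩ ≠ 0 := by
    rw [Ne, hr.2, not_or]
    exact ⟨hΦ0, by simp [hΦord]⟩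
  have hLS : LSp (fun x : ι × ι => r ⟨b' x.1 * z', hz' x.1⟩ * r ⟨b'' x.2 * z'', hz'' x.2⟩) =
      LSp (fun s : Fin a → ι => r ⟨Φ, hΦr⟩ * ∏ t, r ⟨c (s t) * z, hz (s t)⟩) := by
    refine lsp_eq_of_spans _ _ fun w => ?_
    obtain ⟨O, hO, hO'⟩ := exists_centre c hc v r hr w
    choose hOr hOw using hO'
    obtain ⟨hR1, hR2⟩ := hR O hO
    constructor
    · rintro ⟨i, j⟩
      obtain ⟨o, ho, he⟩ := hR1 i j
      refine ⟨fun s => r ⟨o s, hOr _ (ho s)⟩, fun s => hOw _ (ho s), ?_⟩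
      have h1 : (⟨b' i * z', hz' i⟩ : v.ring) * ⟨b'' j * z'', hz'' j⟩ =
          ∑ s : Fin a → ι, (⟨o s, hOr _ (ho s)⟩ : v.ring) *
            ((⟨Φ, hΦr⟩ : v.ring) * ∏ t, (⟨c (s t) * z, hz (s t)⟩ : v.ring)) := by
        apply Subtype.ext
        push_cast
        exact he
      have h2 := congrArg r h1
      simp only [map_mul, map_sum, map_prod] at h2
      exact h2
    · intro s
      obtain ⟨o, ho, he⟩ := hR2 s
      refine ⟨fun x => r ⟨o x.1 x.2, hOr _ (ho x.1 x.2)⟩, fun x => hOw _ (ho x.1 x.2), ?_⟩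
      have h1 : (⟨Φ, hΦr⟩ : v.ring) * ∏ t, (⟨c (s t) * z, hz (s t)⟩ : v.ring) =
          ∑ i, ∑ j, (⟨o i j, hOr _ (ho i j)⟩ : v.ring) *
            ((⟨b' i * z', hz' i⟩ : v.ring) * ⟨b'' j * z'', hz'' j⟩) := by
        apply Subtype.ext
        push_cast
        exact he
      have h2 := congrArg r h1
      simp only [map_mul, map_sum, map_prod] at h2
      rw [h2, Fintype.sum_prod_type]
  refine fdeg_eq_of_lsp (hD'.mul hD'') ((hD.prod a).smul _ hu) (AlgHom.id k _) ?_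
  rw [← hLS]
  simp

end Pool.Agent.LibK3
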