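import Pool.Agent.LibK3.H13
import Pool.Agent.LibK3.H15
import Pool.Agent.LibK3.H16D

/-!
ROW [K3 H18].

Existence, uniqueness and transport of the degree.

Proof. `exists_famDeg`: `i0` with `v.ord (b i0)` minimal (finite, non empty), `z = (b i0)⁻¹`, `r (b i0 z) = r 1 = 1`, `exists_fdeg` (H13). `famDeg_unique`: let `z, z'` be the two normalising elements. The minimum of the orders of the `b i z` is zero (all `≥ 0` and one has `r ≠ 0`), the same with `z'`; so `v.ord z = v.ord z'`, and `z' = z * y` with `y` a unit of `v.ring`, so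
`r' (b i z') = r' y * r' (b i z)`: `FDeg.smul` reduces to `z' = z` (use `FDeg.smul` with `(r' y)⁻¹`). `r` and `r'` are surjective with the same kernel, so there is `θ : RatFunc k ≃ₐ[k] RatFunc k` with `r' = θ ∘ r` (`Ideal.quotientKerAlgEquivOfSurjective` twice, or `choose` a section and check). `lsp_comp` and `fdeg_eq_of_lsp` (H15).
`famDeg_comp`: unfold everything: `(v.comp γ).ring = {z | 0 ≤ v.ord (γ z)}`, `r.comp γ`; the normalising element for one is the image under `γ` of the one for the other. (Prove both directions or only the one stated.)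
-/

set_option autoImplicit false

open Pool.Agent.LibGMM Pool.Agent.LibHP
open AlgebraicGeometry CategoryTheory

namespace Pool.Agent.LibK3

variable {k K ι : Type} [Field k] [Field K] [Algebra k K]

theorem exists_famDeg [Finite ι] [Nonempty ι] (b : ι → K) (hb : ∀ i, b i ≠ 0) (v : KVal k K)
    (r : v.ring →ₐ[k] RatFunc k) (hr : IsResMap v r) : ∃ d, FamDeg b v r d := by
  obtain ⟨i0, hi0⟩ := Finite.exists_min fun i => v.ord (b i)
  have hz0 : (b i0)⁻¹ ≠ 0 := inv_ne_zero (hb i0)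
  have hz : ∀ i, b i * (b i0)⁻¹ ∈ v.ring := by
    intro i
    rw [KVal.mem_ring, v.ord_mul _ _ (hb i) hz0, v.ord_inv]
    have := hi0 i
    omega
  have h1 : r ⟨b i0 * (b i0)⁻¹, hz i0⟩ = 1 := by
    have h2 : (⟨b i0 * (b i0)⁻¹, hz i0⟩ : v.ring) = 1 := Subtype.ext (mul_inv_cancel₀ (hb i0))
    rw [h2, map_one]
  have hne : ∃ i, r ⟨b i * (b i0)⁻¹, hz i⟩ ≠ 0 := ⟨i0, by rw [h1]; exact one_ne_zero⟩
  obtain ⟨d, hd⟩ := exists_fdeg (fun i => r ⟨b i * (b i0)⁻¹, hz i⟩) hne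
  exact ⟨d, _, hz, hne, hd⟩

theorem famDeg_unique (b : ι → K) (v : KVal k K) (r r' : v.ring →ₐ[k] RatFunc k)
    (hr : IsResMap v r) (hr' : IsResMap v r') {d e : ℕ} (h : FamDeg b v r d)
    (h' : FamDeg b v r' e) : d = e := by
  obtain ⟨z, hz, hne, hF⟩ := h
  obtain ⟨z', hz', hne', hF'⟩ := h'
  have key : ∀ (s : v.ring →ₐ[k] RatFunc k), IsResMap v s → ∀ (x : K) (hx : ∀ i, b i * x ∈ v.ring),
      (∃ i, s ⟨b i * x, hx i⟩ ≠ 0) → x ≠ 0 ∧ ∃ i, b i ≠ 0 ∧ v.ord (b i) = -v.ord x := by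
    rintro s hs x hx ⟨i, hi⟩
    have h1 : ¬ (b i * x = 0 ∨ 0 < v.ord (b i * x)) := fun h => hi ((hs.2 _).2 h)
    push Not at h1
    have hbi : b i ≠ 0 := fun h => h1.1 (by rw [h, zero_mul])
    have hx0 : x ≠ 0 := fun h => h1.1 (by rw [h, mul_zero])
    have h2 : 0 ≤ v.ord (b i * x) := hx i
    have h3 := h1.2
    rw [v.ord_mul _ _ hbi hx0] at h2 h3
    exact ⟨hx0, i, hbi, by omega⟩
  obtain ⟨hz0, i, hbi, hi⟩ := key r hr z hz hne
  obtain ⟨hz0', j, hbj, hj⟩ := key r' hr' z' hz' hne'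
  have ho : v.ord z' = v.ord z := by
    have h1 : 0 ≤ v.ord (b i * z') := hz' i
    have h2 : 0 ≤ v.ord (b j * z) := hz j
    rw [v.ord_mul _ _ hbi hz0'] at h1
    rw [v.ord_mul _ _ hbj hz0] at h2
    omega
  have hy0 : z' * z⁻¹ ≠ 0 := mul_ne_zero hz0' (inv_ne_zero hz0)
  have hyo : v.ord (z' * z⁻¹) = 0 := by
    rw [v.ord_mul _ _ hz0' (inv_ne_zero hz0), v.ord_inv]
    omega
  have hy : z' * z⁻¹ ∈ v.ring := by
    rw [KVal.mem_ring, hyo]
  have hry : r' ⟨z' * z⁻¹, hy⟩ ≠ 0 := by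
    intro h
    rcases (hr'.2 _).1 h with h1 | h1
    · exact hy0 h1
    · change 0 < v.ord (z' * z⁻¹) at h1
      omega
  have hfun : (fun i => r' ⟨b i * z, hz i⟩) =
      fun i => (r' ⟨z' * z⁻¹, hy⟩)⁻¹ * r' ⟨b i * z', hz' i⟩ := by
    funext i
    rw [eq_inv_mul_iff_mul_eq₀ hry, ← map_mul]
    congr 1
    apply Subtype.ext
    change z' * z⁻¹ * (b i * z) = b i * z'
    field_simp
  have hF2 : FDeg (fun i => r' ⟨b i * z, hz i⟩) e := by
    rw [hfun]
    exact hF'.smul _ (inv_ne_zero hry)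
  have hker : RingHom.ker r = RingHom.ker r' := by
    ext x
    rw [RingHom.mem_ker, RingHom.mem_ker, hr.2, hr'.2]
  let θ : RatFunc k ≃ₐ[k] RatFunc k :=
    (Ideal.quotientKerAlgEquivOfSurjective hr.1).symm.trans
      ((Ideal.quotientEquivAlgOfEq k hker).trans (Ideal.quotientKerAlgEquivOfSurjective hr'.1))
  have hθ : ∀ x, θ (r x) = r' x := by
    intro x
    change (Ideal.quotientKerAlgEquivOfSurjective hr'.1) ((Ideal.quotientEquivAlgOfEq k hker)
      ((Ideal.quotientKerAlgEquivOfSurjective hr.1).symm (r x))) = r' x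
    rw [Ideal.quotientKerAlgEquivOfSurjective_symm_apply]
    rfl
  refine fdeg_eq_of_lsp hF hF2 (θ : RatFunc k →ₐ[k] RatFunc k) ?_
  have h5 := lsp_comp θ (fun i => r ⟨b i * z, hz i⟩)
  simp only [hθ] at h5
  exact h5

/-- Transport by an automorphism. -/
theorem famDeg_transport (b : ι → K) (γ : K ≃ₐ[k] K) (v v1 : KVal k K)
    (hv : ∀ z, v1.ord z = v.ord (γ z)) (r : v.ring →ₐ[k] RatFunc k) (hr : IsResMap v r) :
    ∃ r1 : v1.ring →ₐ[k] RatFunc k, IsResMap v1 r1 ∧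
      ∀ d, FamDeg b v1 r1 d → FamDeg (fun i => γ (b i)) v r d := by
  have hmem : ∀ z, z ∈ v1.ring ↔ γ z ∈ v.ring := by
    intro z
    rw [KVal.mem_ring, KVal.mem_ring, hv]
  let g : v1.ring →ₐ[k] v.ring :=
    ((γ : K →ₐ[k] K).comp v1.ring.val).codRestrict v.ring (fun z => (hmem z).1 z.2)
  have hg : ∀ z : v1.ring, ((g z : v.ring) : K) = γ z := fun z => rfl
  refine ⟨r.comp g, ⟨?_, ?_⟩, ?_⟩
  · intro x
    obtain ⟨w, rfl⟩ := hr.1 x
    have hw : γ.symm (w : K) ∈ v1.ring := by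
      rw [hmem, AlgEquiv.apply_symm_apply]
      exact w.2
    refine ⟨⟨γ.symm (w : K), hw⟩, ?_⟩
    rw [AlgHom.comp_apply]
    congr 1
    apply Subtype.ext
    rw [hg]
    exact AlgEquiv.apply_symm_apply γ _
  · intro z
    rw [AlgHom.comp_apply, hr.2, hg, hv, map_eq_zero_iff γ γ.injective]
  · rintro d ⟨z, hz, hne, hF⟩
    have hz2 : ∀ i, γ (b i) * γ z ∈ v.ring := by
      intro i
      rw [← map_mul]
      exact (hmem _).1 (hz i)
    have he : ∀ i, r ⟨γ (b i) * γ z, hz2 i⟩ = (r.comp g) ⟨b i * z, hz i⟩ := by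
      intro i
      rw [AlgHom.comp_apply]
      congr 1
      apply Subtype.ext
      rw [hg]
      exact (map_mul γ _ _).symm
    refine ⟨γ z, hz2, ?_, ?_⟩
    · obtain ⟨i, hi⟩ := hne
      exact ⟨i, by rw [he]; exact hi⟩
    · have hfun : (fun i => r ⟨γ (b i) * γ z, hz2 i⟩) = fun i => (r.comp g) ⟨b i * z, hz i⟩ :=
        funext he
      change FDeg (fun i => r ⟨γ (b i) * γ z, hz2 i⟩) d
      rw [hfun]
      exact hF

end Pool.Agent.LibK3
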