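import Pool.Agent.LibK3.H16D

/-!
ROW [K3 H19].

The degree is positive.

Proof. Suppose `FamDeg c v r 0`: there is `z` with `r (c i z) = u * C (α i)` for constants `α i : k` (polynomials of degree zero), `u ≠ 0`, not all `α i` zero. Let `A = kchart k c i0`, `P` be as in `hO`. CLAIM: `α i0 ≠ 0`. We have `c j / c i0 ∈ A ⊆ v.ring` for all `j` (`hO`: elements of `A` are in `locAt A P`, with denominator `1`), so `v.ord (c j) ≥ v.ord (c i0)`; for `j` with `α j ≠ 0` the element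
`c j z` has order zero (`hr`), `v.ord (c i0 z) ≥ 0`, so `v.ord (c i0 z) = 0` and `r (c i0 z) ≠ 0`. So `r (c j / c i0) = C (α j / α i0)` is a constant, so `r a` is a constant for all `a ∈ A` (`Algebra.adjoin_induction`), and for `z = a / b` in the ring of `v` (`b ∉ P`: `r b ≠ 0`, since `b⁻¹ ∈ locAt A P ⊆ v.ring`): `r z = r a / r b` is a constant. But `r` is surjective on `RatFunc k`, and `RatFunc.X` is not a
constant.
-/

set_option autoImplicit false

open Pool.Agent.LibGMM Pool.Agent.LibHP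
open AlgebraicGeometry CategoryTheory

namespace Pool.Agent.LibK3

private theorem h19_X_ne (k : Type) [Field k] (γ : k) :
    (RatFunc.X : RatFunc k) ≠ algebraMap k (RatFunc k) γ := by
  intro h
  have h1 : (algebraMap (Polynomial k) (RatFunc k)) Polynomial.X =
      algebraMap (Polynomial k) (RatFunc k) (Polynomial.C γ) := by
    rw [RatFunc.algebraMap_X, h, RatFunc.algebraMap_C, RatFunc.algebraMap_eq_C]
  have h2 := RatFunc.algebraMap_injective k h1
  have h3 := congrArg Polynomial.natDegree h2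
  rw [Polynomial.natDegree_X, Polynomial.natDegree_C] at h3
  exact absurd h3 one_ne_zero

theorem famDeg_pos {k K ι : Type} [Field k] [Field K] [Algebra k K] (c : ι → K)
    (hc : ∀ i, c i ≠ 0) (v : KVal k K) (r : v.ring →ₐ[k] RatFunc k) (hr : IsResMap v r)
    (hO : ∃ (i : ι) (P : Ideal (kchart k c i)), P.IsPrime ∧
      ∀ z, 0 ≤ v.ord z ↔ z ∈ locAt (kchart k c i) P) {d : ℕ} (hd : FamDeg c v r d) : 1 ≤ d := by
  obtain ⟨i0, P, hP, hO⟩ := hO
  by_contra hd1
  obtain rfl : d = 0 := by omega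
  obtain ⟨z, hz, ⟨j0, hj0⟩, u, p, hu, hp, -, hdeg, -⟩ := hd
  -- the chart is contained in the ring
  have h1 : ∀ a : kchart k c i0, (a : K) ∈ v.ring := by
    intro a
    rw [KVal.mem_ring, hO]
    refine ⟨a, 1, fun h => hP.ne_top ((Ideal.eq_top_iff_one P).2 h), ?_⟩
    rw [OneMemClass.coe_one, div_one]
  have h2 : ∀ j, c j / c i0 ∈ kchart k c i0 := fun j => Algebra.subset_adjoin ⟨j, rfl⟩
  have h3 : ∀ j, c j / c i0 ∈ v.ring := fun j => h1 ⟨_, h2 j⟩
  have h4 : ∀ j, r ⟨c j * z, hz j⟩ = r ⟨c j / c i0, h3 j⟩ * r ⟨c i0 * z, hz i0⟩ := by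
    intro j
    rw [← map_mul]
    congr 1
    apply Subtype.ext
    change c j * z = c j / c i0 * (c i0 * z)
    field_simp [hc i0]
  have h5 : r ⟨c i0 * z, hz i0⟩ ≠ 0 := by
    intro h
    rw [h4 j0, h, mul_zero] at hj0
    exact hj0 rfl
  have hC : ∀ j, ∃ α : k, algebraMap (Polynomial k) (RatFunc k) (p j) =
      algebraMap k (RatFunc k) α := by
    intro j
    refine ⟨(p j).coeff 0, ?_⟩
    have h6 := Polynomial.eq_C_of_natDegree_le_zero (hdeg j)
    conv_lhs => rw [h6]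
    rw [RatFunc.algebraMap_C, RatFunc.algebraMap_eq_C]
  choose α hα using hC
  have h6 : ∀ j, r ⟨c j / c i0, h3 j⟩ = algebraMap k (RatFunc k) (α j / α i0) := by
    intro j
    have h7 := h4 j
    have h8 := hp j
    have h9 := hp i0
    simp only at h8 h9
    rw [h8, h9, hα, hα] at h7
    rw [h9, hα] at h5
    have h10 : algebraMap k (RatFunc k) (α i0) ≠ 0 := right_ne_zero_of_mul h5
    rw [map_div₀, eq_div_iff h10]
    have h11 : u * algebraMap k (RatFunc k) (α j) =
        u * (r ⟨c j / c i0, h3 j⟩ * algebraMap k (RatFunc k) (α i0)) := by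
      rw [h7]
      ring
    exact (mul_left_cancel₀ hu h11).symm
  -- constants on the chart
  have h7 : kchart k c i0 ≤ ((⊥ : Subalgebra k (RatFunc k)).comap r).map v.ring.val := by
    refine Algebra.adjoin_le ?_
    rintro _ ⟨j, rfl⟩
    refine ⟨⟨c j / c i0, h3 j⟩, ?_, rfl⟩
    change r ⟨c j / c i0, h3 j⟩ ∈ (⊥ : Subalgebra k (RatFunc k))
    rw [h6 j]
    exact Subalgebra.algebraMap_mem _ _
  have h8 : ∀ (a : K) (ha : a ∈ v.ring), a ∈ kchart k c i0 →
      ∃ β : k, r ⟨a, ha⟩ = algebraMap k (RatFunc k) β := by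
    intro a ha h9
    obtain ⟨b, hb, hba⟩ := h7 h9
    have h10 : b = ⟨a, ha⟩ := Subtype.ext hba
    rw [← h10]
    obtain ⟨β, hβ⟩ := Algebra.mem_bot.1 (show r b ∈ (⊥ : Subalgebra k (RatFunc k)) from hb)
    exact ⟨β, hβ.symm⟩
  -- constants on the ring
  have h9 : ∀ y : v.ring, ∃ β : k, r y = algebraMap k (RatFunc k) β := by
    intro y
    obtain ⟨a, b, hb, hy⟩ := (hO y).1 y.2
    have hb0 : (b : K) ≠ 0 := by
      intro h
      apply hb
      have h10 : b = 0 := Subtype.ext h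
      rw [h10]
      exact P.zero_mem
    have hbi : (b : K)⁻¹ ∈ v.ring := by
      rw [KVal.mem_ring, hO]
      refine ⟨1, b, hb, ?_⟩
      rw [OneMemClass.coe_one, one_div]
    obtain ⟨β1, hβ1⟩ := h8 a (h1 a) a.2
    obtain ⟨β2, hβ2⟩ := h8 b (h1 b) b.2
    have h10 : r ⟨(b : K), h1 b⟩ * r ⟨(b : K)⁻¹, hbi⟩ = 1 := by
      rw [← map_mul, ← map_one r]
      congr 1
      apply Subtype.ext
      change (b : K) * (b : K)⁻¹ = 1
      exact mul_inv_cancel₀ hb0
    have h11 : r y = r ⟨(a : K), h1 a⟩ * r ⟨(b : K)⁻¹, hbi⟩ := by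
      rw [← map_mul]
      congr 1
      apply Subtype.ext
      change (y : K) = (a : K) * (b : K)⁻¹
      rw [hy, div_eq_mul_inv]
    refine ⟨β1 * β2⁻¹, ?_⟩
    rw [hβ2] at h10
    rw [h11, hβ1, map_mul, map_inv₀, ← eq_inv_of_mul_eq_one_right h10]
  obtain ⟨y, hy⟩ := hr.1 RatFunc.X
  obtain ⟨β, hβ⟩ := h9 y
  exact h19_X_ne k β (hy.symm.trans hβ)

end Pool.Agent.LibK3
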