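import Pool.Agent.LibK3.H1

/-!
ROW [K3 H2].

Values of rational functions along the ultrafilter.

Proof. `rev z τ = z.eval (RingHom.id k) τ`; Mathlib: `RatFunc.eval_add`, `RatFunc.eval_mul`, `RatFunc.eval_one`, `RatFunc.eval_C`, `RatFunc.eval_algebraMap`/`eval_X` (they need the values of the denominators at `τ` to be non zero; the denominator is a non zero polynomial, so this is true outside a finite set of `τ : ℕ`:
`finite_nat_roots` in LibHP/H8.lean; `ultra_cofinite`). `rev_inj`: if `z = x - y ≠ 0` then `num z` is a non zero polynomial, whose value vanishes at almost all `τ`: contradiction (an ultrafilter does not contain the empty set: `Filter.Eventually.exists`, `F.neBot`).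
`exists_hom_rev`: let `S` be a finite set of generators of the algebra `A` (`Algebra.FiniteType.out`), `q` the product of the `(φ s).denom`, `s ∈ S`. Then for all `a : A`: `(φ a).denom ∣ q ^ N` for some `N` (`Algebra.adjoin_induction`, `RatFunc.denom_add_dvd`, `RatFunc.denom_mul_dvd`, `RatFunc.denom_C`). So if `q.eval τ ≠ 0` then
all the denominators are non zero at `τ` and `a ↦ rev (φ a) τ` is a homomorphism `χ τ` of algebras. For the finitely many `τ` with `q.eval τ = 0` take `χ τ = χ τ0` for a fixed good `τ0` (exists, as `q` has finitely many roots and `k` has characteristic zero).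
-/

set_option autoImplicit false

open Pool.Agent.LibGMM Pool.Agent.LibHP

namespace Pool.Agent.LibK3

variable {k : Type} [Field k] [CharZero k] (F : Ultrafilter ℕ)
  (hF : ∀ Z : Set ℕ, DZ Z → Zᶜ ∈ F)

theorem poly_eval_eq_zero_finite (p : Polynomial k) (hp : p ≠ 0) :
    {τ : ℕ | p.eval (τ : k) = 0}.Finite :=
  finite_nat_roots p hp

include hF

theorem eventually_eval_ne (p : Polynomial k) (hp : p ≠ 0) :
    ∀ᶠ τ : ℕ in (F : Filter ℕ), p.eval₂ (RingHom.id k) (τ : k) ≠ 0 := by
  filter_upwards [ultra_cofinite F hF (poly_eval_eq_zero_finite p hp)] with τ hτ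
  exact hτ

theorem rev_add (x y : RatFunc k) :
    ∀ᶠ τ in (F : Filter ℕ), rev (x + y) τ = rev x τ + rev y τ := by
  filter_upwards [eventually_eval_ne F hF x.denom x.denom_ne_zero,
    eventually_eval_ne F hF y.denom y.denom_ne_zero] with τ h1 h2
  exact RatFunc.eval_add _ _ h1 h2

theorem rev_mul (x y : RatFunc k) :
    ∀ᶠ τ in (F : Filter ℕ), rev (x * y) τ = rev x τ * rev y τ := by
  filter_upwards [eventually_eval_ne F hF x.denom x.denom_ne_zero,
    eventually_eval_ne F hF y.denom y.denom_ne_zero] with τ h1 h2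
  exact RatFunc.eval_mul _ _ h1 h2

theorem rev_inj (x y : RatFunc k) (h : ∀ᶠ τ in (F : Filter ℕ), rev x τ = rev y τ) : x = y := by
  by_contra hxy
  have h0 : x - y ≠ 0 := sub_ne_zero.2 hxy
  have h1 := rev_add F hF (x - y) y
  have h2 := eventually_eval_ne F hF (x - y).num (RatFunc.num_ne_zero h0)
  have h3 := eventually_eval_ne F hF (x - y).denom (x - y).denom_ne_zero
  obtain ⟨τ, h, h1, h2, h3⟩ := (h.and (h1.and (h2.and h3))).exists
  rw [sub_add_cancel, h] at h1
  have h4 : rev (x - y) τ = 0 := by linear_combination -h1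
  rw [rev, RatFunc.eval, div_eq_zero_iff] at h4
  rcases h4 with h4 | h4
  · exact h2 h4
  · exact h3 h4

theorem exists_hom_rev (A : Type) [CommRing A] [Algebra k A] [Algebra.FiniteType k A]
    (φ : A →ₐ[k] RatFunc k) : ∃ χ : ℕ → (A →ₐ[k] k), ∀ a,
      ∀ᶠ τ in (F : Filter ℕ), χ τ a = rev (φ a) τ := by
  classical
  obtain ⟨S, hS⟩ := Algebra.FiniteType.out (R := k) (A := A)
  let q : Polynomial k := ∏ s ∈ S, (φ s).denom
  have hq0 : q ≠ 0 := Finset.prod_ne_zero_iff.2 fun s _ => (φ s).denom_ne_zero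
  have hden : ∀ a : A, ∃ N : ℕ, (φ a).denom ∣ q ^ N := by
    intro a
    have ha : a ∈ Algebra.adjoin k (S : Set A) := by rw [hS]; trivial
    induction ha using Algebra.adjoin_induction with
    | mem x hx => exact ⟨1, by rw [pow_one]; exact Finset.dvd_prod_of_mem _ hx⟩
    | algebraMap r =>
      refine ⟨0, ?_⟩
      rw [AlgHom.commutes, pow_zero]
      have : algebraMap k (RatFunc k) r = RatFunc.C r := rfl
      rw [this, RatFunc.denom_C]
    | add x y _ _ hx hy =>
      obtain ⟨N, hN⟩ := hx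
      obtain ⟨M, hM⟩ := hy
      refine ⟨N + M, ?_⟩
      rw [map_add, pow_add]
      exact (RatFunc.denom_add_dvd _ _).trans (mul_dvd_mul hN hM)
    | mul x y _ _ hx hy =>
      obtain ⟨N, hN⟩ := hx
      obtain ⟨M, hM⟩ := hy
      refine ⟨N + M, ?_⟩
      rw [map_mul, pow_add]
      exact (RatFunc.denom_mul_dvd _ _).trans (mul_dvd_mul hN hM)
  have hne : ∀ τ : ℕ, q.eval (τ : k) ≠ 0 → ∀ a : A,
      (φ a).denom.eval₂ (RingHom.id k) (τ : k) ≠ 0 := by
    intro τ hτ a h0
    obtain ⟨N, hN⟩ := hden a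
    have h1 := Polynomial.eval₂_eq_zero_of_dvd_of_eval₂_eq_zero (RingHom.id k) (τ : k) hN h0
    rw [Polynomial.eval₂_pow] at h1
    exact hτ ((eq_zero_of_pow_eq_zero h1))
  let χ0 : ∀ τ : ℕ, q.eval (τ : k) ≠ 0 → (A →ₐ[k] k) := fun τ hτ =>
    { toFun := fun a => rev (φ a) τ
      map_one' := by
        show rev (φ 1) τ = 1
        rw [map_one]; exact RatFunc.eval_one _ _
      map_zero' := by
        show rev (φ 0) τ = 0
        rw [map_zero]; exact RatFunc.eval_zero _ _
      map_mul' := fun a b => by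
        show rev (φ (a * b)) τ = rev (φ a) τ * rev (φ b) τ
        rw [map_mul]; exact RatFunc.eval_mul _ _ (hne τ hτ a) (hne τ hτ b)
      map_add' := fun a b => by
        show rev (φ (a + b)) τ = rev (φ a) τ + rev (φ b) τ
        rw [map_add]; exact RatFunc.eval_add _ _ (hne τ hτ a) (hne τ hτ b)
      commutes' := fun c => by
        show rev (φ (algebraMap k A c)) τ = c
        rw [AlgHom.commutes]
        exact RatFunc.eval_C _ _ }
  have hev : ∀ᶠ τ : ℕ in (F : Filter ℕ), q.eval (τ : k) ≠ 0 := eventually_eval_ne F hF q hq0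
  obtain ⟨τ0, hτ0⟩ := hev.exists
  refine ⟨fun τ => if h : q.eval (τ : k) ≠ 0 then χ0 τ h else χ0 τ0 hτ0, fun a => ?_⟩
  filter_upwards [hev] with τ hτ
  rw [dif_pos hτ]
  rfl

end Pool.Agent.LibK3
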