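import Pool.Agent.LibK3.BC1
import Pool.Agent.LibK3.BC13
import Pool.Agent.LibK3.BC14
import Pool.Agent.LibK3.BC16
import Pool.Agent.LibK3.BC19
import Pool.Agent.LibK3.H17
import Pool.Agent.LibK3.H18
import Pool.Agent.LibK3.H19

/-!
ROW [K3 H20].

The degree of the points of codimension one with residue field `k(t)`.

Proof. `exists_hasDeg`: `exists_kval` (BC13), `exists_res` (BC14), `exists_famDeg` (H18). `hasDeg_unique`: the two valuations have the same ring so are equal (`KVal.ext_ring`, BC1; `subst`), then `famDeg_unique`. `hasDeg_pos`: `exists_chart_of_stk` (BC11) and `famDeg_pos` (H19).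
`hasDeg_relation`: `γ` from `exists_gam` (BC16): `γ z = kap g.hom z`, `γ.symm z = kap g.inv z`, `γ '' stk X (g.hom x) = stk X x` (also for `g.inv x`: `γ '' stk X x = stk X (g.inv x)`, as `g.hom (g.inv x) = x`). Let `v, r` be for `x` (from `hd`). The valuation `v1 = v ∘ γ` (construct it as `KVal`: `ord z = v.ord (γ z)`) has ring `γ⁻¹ (stk X x) = stk X (g.hom x)`; so `FamDeg c v1 r1 d'` for the `r1` of
`famDeg_transport` (by `exists_famDeg` there is some degree `e` with `FamDeg c v1 r1 e`, and `HasDeg c (g.hom x) e`, `hasDeg_unique`: `e = d'`), hence `FamDeg (γ ∘ c) v r d'`. In the same way with `γ.symm`: `FamDeg (γ.symm ∘ c) v r d''`. `hypRel_coeff` (BC19) and `exists_stk_of_isPtRing` (BC11) give the hypothesis `hrel` of `famDeg_relation` (H17) with `b' = γ ∘ c`, `b'' = γ.symm ∘ c`.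
`isRatPt_map`: the stalk map of the isomorphism `g.inv` (or `g.hom`) at a point is an isomorphism (`IsIso` instance), so it transports `ringKrullDim` (`ringKrullDim_eq_of_ringEquiv`) and the residue field (`Scheme.Hom.residueFieldMap`, an isomorphism), compatibly with `toStalk` (`g.hom ≫ f = f`).
-/

set_option autoImplicit false

open Pool.Agent.LibGMM Pool.Agent.LibHP
open AlgebraicGeometry CategoryTheory

namespace Pool.Agent.LibK3

variable {k : Type} [Field k] [CharZero k] {X : Scheme} [IsIntegral X]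
  (f : X ⟶ Spec (CommRingCat.of k)) [Algebra k X.functionField]

theorem exists_hasDeg [Smooth f] (hk : ∀ a : k, algebraMap k X.functionField a =
    toStalk f (genericPoint X) a) {ι : Type} [Finite ι] {c : ι → X.functionField}
    (hc : IsProjEmb f c) (x : X) (hx : IsRatPt f x) : ∃ d, HasDeg (k := k) c x d := by
  obtain ⟨v, hv, -⟩ := exists_kval f hk hc x hx.1
  obtain ⟨r, hr1, hr2⟩ := exists_res f hk x hx v hv
  obtain ⟨hc0, U, hU, hcov, -⟩ := hc
  obtain ⟨i0, -⟩ := hcov x
  have : Nonempty ι := ⟨i0⟩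
  obtain ⟨d, hd⟩ := exists_famDeg c hc0 v r ⟨hr1, hr2⟩
  exact ⟨d, v, r, hv, ⟨hr1, hr2⟩, hd⟩

theorem hasDeg_unique {ι : Type} {c : ι → X.functionField} (x : X) {d e : ℕ}
    (h : HasDeg (k := k) c x d) (h' : HasDeg (k := k) c x e) : d = e := by
  obtain ⟨v, r, hv, hr, hd⟩ := h
  obtain ⟨w, r', hw, hr', he⟩ := h'
  have hvw : v = w := KVal.ext_ring fun z hz => (hw z).2 ((hv z).1 hz)
  subst hvw
  exact famDeg_unique c v r r' hr hr' hd he

theorem hasDeg_pos (hk : ∀ a : k, algebraMap k X.functionField a =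
    toStalk f (genericPoint X) a) {ι : Type} {c : ι → X.functionField}
    (hc : IsProjEmb f c) (x : X) {d : ℕ} (h : HasDeg (k := k) c x d) : 1 ≤ d := by
  obtain ⟨v, r, hv, hr, hd⟩ := h
  obtain ⟨i, P, hP, h1, -⟩ := exists_chart_of_stk f hk hc x
  exact famDeg_pos c hc.1 v r hr ⟨i, P, hP, fun z => by rw [hv, h1]⟩ hd

/-- The valuation `v ∘ γ`. -/
private theorem H20_pull {k K : Type} [Field k] [Field K] [Algebra k K] (v : KVal k K)
    (γ : K ≃ₐ[k] K) : ∃ v1 : KVal k K, ∀ z, v1.ord z = v.ord (γ z) := by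
  refine ⟨⟨fun z => v.ord (γ z), ?_, ?_, ?_, ?_, ?_⟩, fun z => rfl⟩
  · show v.ord (γ 0) = 0
    rw [map_zero, v.ord_zero]
  · intro a b ha hb
    show v.ord (γ (a * b)) = v.ord (γ a) + v.ord (γ b)
    rw [map_mul]
    exact v.ord_mul _ _ ((map_ne_zero γ).2 ha) ((map_ne_zero γ).2 hb)
  · intro a b ha hb hab
    show min (v.ord (γ a)) (v.ord (γ b)) ≤ v.ord (γ (a + b))
    rw [map_add]
    refine v.ord_add _ _ ((map_ne_zero γ).2 ha) ((map_ne_zero γ).2 hb) ?_
    rw [← map_add]
    exact (map_ne_zero γ).2 hab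
  · intro a
    show v.ord (γ (algebraMap k K a)) = 0
    rw [γ.commutes]
    exact v.ord_const a
  · obtain ⟨t, ht⟩ := v.exists_ord_one
    refine ⟨γ.symm t, ?_⟩
    show v.ord (γ (γ.symm t)) = 1
    rw [γ.apply_symm_apply, ht]

/-- The degree of the transported family. -/
private theorem H20_trans {k : Type} [Field k] [CharZero k] {X : Scheme} [IsIntegral X]
    [Algebra k X.functionField] {ι : Type} [Finite ι] [Nonempty ι] {c : ι → X.functionField}
    (hc : ∀ i, c i ≠ 0) (γ : X.functionField ≃ₐ[k] X.functionField) (x y : X)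
    (hxy : γ '' stk X y = stk X x) (v : KVal k X.functionField) (r : v.ring →ₐ[k] RatFunc k)
    (hv : ∀ z, 0 ≤ v.ord z ↔ z ∈ stk X x) (hr : IsResMap v r) {e : ℕ}
    (he : HasDeg (k := k) c y e) : FamDeg (fun i => γ (c i)) v r e := by
  obtain ⟨v1, hv1⟩ := H20_pull v γ
  obtain ⟨r1, hr1, ht⟩ := famDeg_transport c γ v v1 hv1 r hr
  obtain ⟨e', he'⟩ := exists_famDeg c hc v1 r1 hr1
  have h1 : ∀ z, 0 ≤ v1.ord z ↔ z ∈ stk X y := by
    intro z
    rw [hv1, hv, ← hxy]
    constructor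
    · rintro ⟨w, hw, hwz⟩
      rw [← γ.injective hwz]
      exact hw
    · intro hz
      exact ⟨z, hz, rfl⟩
  have h2 : e' = e := hasDeg_unique y ⟨v1, r1, h1, hr1, he'⟩ he
  rw [← h2]
  exact ht _ he'

theorem hasDeg_relation (hk : ∀ a : k, algebraMap k X.functionField a =
    toStalk f (genericPoint X) a) {ι : Type} [Finite ι] {c : ι → X.functionField}
    (hc : IsProjEmb f c) (g : X ≅ X) (hg : g.hom ≫ f = f) (a : ℕ) (hrel : HypRel c g a) (x : X)
    {d d' d'' : ℕ} (hd : HasDeg (k := k) c x d) (hd' : HasDeg (k := k) c (g.hom x) d')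
    (hd'' : HasDeg (k := k) c (g.inv x) d'') : d' + d'' = a * d := by
  obtain ⟨γ, hγ1, hγ2, hγ3⟩ := exists_gam f hk g hg
  have hc0 : ∀ i, c i ≠ 0 := hc.1
  have hne : Nonempty ι := by
    obtain ⟨-, U, hU, hcov, -⟩ := hc
    obtain ⟨i0, -⟩ := hcov x
    exact ⟨i0⟩
  cases nonempty_fintype ι
  obtain ⟨v, r, hv, hr, hd0⟩ := hd
  have h1 : FamDeg (fun i => γ (c i)) v r d' := H20_trans hc0 γ x (g.hom x) (hγ3 x) v r hv hr hd'
  have h2 : FamDeg (fun i => γ.symm (c i)) v r d'' := by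
    refine H20_trans hc0 γ.symm x (g.inv x) ?_ v r hv hr hd''
    have h3 := hγ3 (g.inv x)
    have h4 : g.hom (g.inv x) = x := by
      rw [← Scheme.Hom.comp_apply, g.inv_hom_id]
      rfl
    rw [h4] at h3
    rw [← h3, Set.image_image]
    simp
  obtain ⟨φ, hφ, hco⟩ := hypRel_coeff g a hrel
  refine famDeg_relation c (fun i => γ (c i)) (fun i => γ.symm (c i)) hc0 v r hr a φ hφ ?_
    d d' d'' hd0 h1 h2
  intro O hO
  obtain ⟨y, rfl⟩ := exists_stk_of_isPtRing f hk hc O hO
  have h3 := hco y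
  simp only [← hγ1, ← hγ2] at h3
  exact h3

end Pool.Agent.LibK3
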