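import Pool.Agent.LibK3F.GF2

set_option autoImplicit false

open Pool.Agent.LibGMM Pool.Agent.LibHP
open AlgebraicGeometry CategoryTheory

namespace Pool.Agent.LibK3

private theorem h21_stalkMap_toStalk {k : Type} [Field k] {X : Scheme}
    (f : X ⟶ Spec (CommRingCat.of k)) (g : X ⟶ X) (hg : g ≫ f = f) (x : X) (c : k) :
    g.stalkMap x (toStalk f (g x) c) = toStalk f x c := by
  rw [toStalk, toStalk]
  have h1 : (f.appTop ≫ X.presheaf.germ ⊤ (g x) trivial) ≫ g.stalkMap x =
      f.appTop ≫ X.presheaf.germ ⊤ x trivial := by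
    rw [Category.assoc, g.germ_stalkMap]
    have h2 : f.appTop ≫ g.appTop = f.appTop := by
      rw [← Scheme.Hom.comp_appTop, hg]
    rw [← Category.assoc]
    exact congrArg (· ≫ X.presheaf.germ ⊤ x trivial) h2
  have h3 := congrArg (fun q => (Scheme.ΓSpecIso (CommRingCat.of k)).inv ≫ q) h1
  exact congrArg (fun q : CommRingCat.of k ⟶ X.presheaf.stalk x => q.hom c) h3

theorem isRatPt_inv {k : Type} [Field k] {X : Scheme} [IsIntegral X]
    (f : X ⟶ Spec (CommRingCat.of k)) (g : X ≅ X) (hg : g.hom ≫ f = f) (x : X)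
    (hx : IsRatPt f x) : IsRatPt f (g.inv x) := by
  obtain ⟨h1, φ, hφ⟩ := hx
  have hg' : g.inv ≫ f = f := by rw [g.inv_comp_eq, hg]
  refine ⟨?_, (asIso (g.inv.residueFieldMap x)).commRingCatIsoToRingEquiv.trans φ, ?_⟩
  · rw [← h1]
    exact ringKrullDim_eq_of_ringEquiv (asIso (g.inv.stalkMap x)).commRingCatIsoToRingEquiv
  · intro c
    rw [← hφ c, ← h21_stalkMap_toStalk f g.inv hg' x c]
    show φ _ = φ _
    congr 1

end Pool.Agent.LibK3
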