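import Pool.Agent.LibK3.H11
import Pool.Agent.LibK3.H20
import Pool.Agent.LibK3.H21

/-!
Block H: the main statement.
-/

set_option autoImplicit false

open Pool.Agent.LibGMM Pool.Agent.LibHP
open AlgebraicGeometry CategoryTheory

namespace Pool.Agent.LibK3

variable {k : Type} [Field k] [CharZero k] {X : Scheme} [IsIntegral X]
  (f : X ⟶ Spec (CommRingCat.of k)) [Algebra k X.functionField]

theorem isRatPt_seq (g : X ≅ X) (hg : g.hom ≫ f = f) (x : ℕ → X) (hx0 : IsRatPt f (x 0))
    (hx : ∀ m, x (m + 1) = g.inv (x m)) (m : ℕ) : IsRatPt f (x m) := by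
  induction m with
  | zero => exact hx0
  | succ m ih => rw [hx]; exact isRatPt_inv f g hg _ ih

theorem seq_injective [Smooth f] (hk : ∀ a : k, algebraMap k X.functionField a =
    toStalk f (genericPoint X) a) {ι : Type} [Finite ι] {c : ι → X.functionField}
    (hc : IsProjEmb f c) (g : X ≅ X) (hg : g.hom ≫ f = f) (a : ℕ) (ha : 3 ≤ a)
    (hrel : HypRel c g a) (x : ℕ → X) (hx0 : IsRatPt f (x 0))
    (hx : ∀ m, x (m + 1) = g.inv (x m)) : Function.Injective x := by
  have hR := isRatPt_seq f g hg x hx0 hx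
  choose d hd using fun m => exists_hasDeg f hk hc (x m) (hR m)
  have hpos : ∀ m, 1 ≤ d m := fun m => hasDeg_pos f hk hc (x m) (hd m)
  have hgx : ∀ m, g.hom (x (m + 1)) = x m := by
    intro m
    rw [hx]
    have h1 : (g.inv ≫ g.hom) (x m) = x m := by rw [g.inv_hom_id]; rfl
    exact h1
  have hrec : ∀ m, d m + d (m + 2) = a * d (m + 1) := by
    intro m
    refine hasDeg_relation f hk hc g hg a hrel (x (m + 1)) (hd (m + 1)) ?_ ?_
    · rw [hgx]; exact hd m
    · rw [← hx]; exact hd (m + 2)
  -- strict convexity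
  have hconv : ∀ m, (d (m + 1) : ℤ) - d m < (d (m + 2) : ℤ) - d (m + 1) := by
    intro m
    have h1 := hrec m
    have h2 : 3 * d (m + 1) ≤ a * d (m + 1) := Nat.mul_le_mul_right _ ha
    have h3 := hpos (m + 1)
    omega
  have hmono : StrictMono fun m => (d (m + 1) : ℤ) - d m := strictMono_nat_of_lt_succ hconv
  -- periodicity
  have hper : ∀ m n, x m = x n → ∀ j, x (m + j) = x (n + j) := by
    intro m n h j
    induction j with
    | zero => exact h
    | succ j ih => rw [← add_assoc, ← add_assoc, hx, hx, ih]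
  have key : ∀ m n, m < n → x m ≠ x n := by
    intro m n hmn h
    have h0 := hper m n h 0
    have h1 := hper m n h 1
    rw [add_zero, add_zero] at h0
    have e0 : d m = d n := hasDeg_unique (x m) (hd m) (by rw [h0]; exact hd n)
    have e1 : d (m + 1) = d (n + 1) := hasDeg_unique (x (m + 1)) (hd (m + 1))
      (by rw [h1]; exact hd (n + 1))
    have h2 := hmono hmn
    simp only [e0, e1] at h2
    exact lt_irrefl _ h2
  intro m n h
  rcases lt_trichotomy m n with h1 | h1 | h1
  · exact absurd h (key m n h1)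
  · exact h1
  · exact absurd h.symm (key n m h1)

end Pool.Agent.LibK3

namespace Pool.Agent.LibK3

/-- **Block H.** If the Hilbert property fails then there are finitely many non trivial finite
extensions of the function field such that for all large `m` the valuation of the curve `x m` has
an extension of residue degree one to one of them. -/
theorem exists_resLift_of_not_hilbertProp (k : Type) [Field k] [NumberField k] {X : Scheme}
    [IsIntegral X] (f : X ⟶ Spec (CommRingCat.of k)) [Smooth f] [QuasiCompact f]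
    [Algebra k X.functionField]
    (hk : ∀ a : k, algebraMap k X.functionField a = toStalk f (genericPoint X) a)
    (hnot : ¬ HilbertProp f) {ι : Type} [Finite ι] {c : ι → X.functionField}
    (hc : IsProjEmb f c) (g : X ≅ X) (hg : g.hom ≫ f = f) (a : ℕ) (ha : 3 ≤ a)
    (hrel : HypRel c g a) (x : ℕ → X) (hx0 : IsRatPt f (x 0))
    (hx : ∀ m, x (m + 1) = g.inv (x m)) :
    ∃ (n : ℕ) (M : Fin n → Type) (_ : ∀ i, Field (M i)) (j : ∀ i, X.functionField →+* M i),
      (∀ i, (j i).Finite ∧ ¬ Function.Surjective (j i)) ∧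
      ∃ m0 : ℕ, ∀ m ≥ m0, ∀ v : KVal k X.functionField, (∀ z, 0 ≤ v.ord z ↔ z ∈ stk X (x m)) →
        ∃ i, ResLift (j i) v := by
  obtain ⟨n, M, hM, j, hj, hfin⟩ := finite_not_resLift k f hk hnot
  refine ⟨n, M, hM, j, hj, ?_⟩
  have hinj := seq_injective f hk hc g hg a ha hrel x hx0 hx
  have hfin2 := hfin.preimage hinj.injOn
  obtain ⟨m0, hm0⟩ := hfin2.bddAbove
  refine ⟨m0 + 1, fun m hm v hv => ?_⟩
  by_contra hcon
  push Not at hcon
  have h1 := hm0 (show m ∈ x ⁻¹' _ from ⟨isRatPt_seq f g hg x hx0 hx m, v, hv, hcon⟩)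
  omega

end Pool.Agent.LibK3
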