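import Pool.Agent.LibK3.H22

/-!
Block H for K3P: distinctness from the growth of the degrees, and the statement for an injective
sequence of curves.
-/

set_option autoImplicit false

open Pool.Agent.LibGMM Pool.Agent.LibHP
open AlgebraicGeometry CategoryTheory

namespace Pool.Agent.LibK3

/-- The points of an orbit with unbounded degrees are pairwise distinct. -/
theorem seq_injective_of_growth {k : Type} [Field k] [CharZero k] {X : Scheme} [IsIntegral X]
    [Algebra k X.functionField] {ι : Type} {c : ι → X.functionField} (g : X ≅ X)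
    (x : ℕ → X) (hx : ∀ m, x (m + 1) = g.inv (x m)) (d : ℕ → ℕ)
    (hd : ∀ m, HasDeg (k := k) c (x m) (d m)) (hunb : ∀ B : ℕ, ∃ m, B < d m) :
    Function.Injective x := by
  have hper : ∀ m n, x m = x n → ∀ j, x (m + j) = x (n + j) := by
    intro m n h j
    induction j with
    | zero => exact h
    | succ j ih => rw [← add_assoc, ← add_assoc, hx, hx, ih]
  have key : ∀ m n, m < n → x m ≠ x n := by
    intro m n hmn h
    obtain ⟨p, rfl⟩ : ∃ p, n = m + (p + 1) := ⟨n - m - 1, by omega⟩
    -- every value from `m` on is one of the values before `m + p + 1`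
    have h1 : ∀ j, ∃ i < m + (p + 1), x j = x i := by
      intro j
      induction j using Nat.strong_induction_on with
      | _ j ih =>
        by_cases hj : j < m + (p + 1)
        · exact ⟨j, hj, rfl⟩
        · obtain ⟨i, rfl⟩ : ∃ i, j = m + (p + 1) + i := ⟨j - (m + (p + 1)), by omega⟩
          rw [← hper m _ h i]
          exact ih (m + i) (by omega)
    obtain ⟨j, hj⟩ := hunb (∑ i ∈ Finset.range (m + (p + 1)), d i)
    obtain ⟨i, hi, hji⟩ := h1 j
    have h2 : d j = d i := hasDeg_unique (x j) (hd j) (by rw [hji]; exact hd i)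
    have h3 := Finset.single_le_sum (f := d) (fun i _ => Nat.zero_le _) (Finset.mem_range.2 hi)
    omega
  intro m n h
  rcases lt_trichotomy m n with h1 | h1 | h1
  · exact absurd h (key m n h1)
  · exact h1
  · exact absurd h.symm (key n m h1)

/-- Block H for an injective sequence of rational curves. -/
theorem exists_resLift_of_injective (k : Type) [Field k] [NumberField k] {X : Scheme}
    [IsIntegral X] (f : X ⟶ Spec (CommRingCat.of k)) [Smooth f] [QuasiCompact f]
    [Algebra k X.functionField]
    (hk : ∀ a : k, algebraMap k X.functionField a = toStalk f (genericPoint X) a)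
    (hnot : ¬ HilbertProp f) :
    ∃ (n : ℕ) (M : Fin n → Type) (_ : ∀ i, Field (M i)) (j : ∀ i, X.functionField →+* M i),
      (∀ i, (j i).Finite ∧ ¬ Function.Surjective (j i)) ∧
      ∀ x : ℕ → X, Function.Injective x → (∀ m, IsRatPt f (x m)) →
        ∃ m0 : ℕ, ∀ m ≥ m0, ∀ v : KVal k X.functionField,
          (∀ z, 0 ≤ v.ord z ↔ z ∈ stk X (x m)) → ∃ i, ResLift (j i) v := by
  obtain ⟨n, M, hM, j, hj, hfin⟩ := finite_not_resLift k f hk hnot
  refine ⟨n, M, hM, j, hj, fun x hinj hx => ?_⟩
  have hfin2 := hfin.preimage hinj.injOn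
  obtain ⟨m0, hm0⟩ := hfin2.bddAbove
  refine ⟨m0 + 1, fun m hm v hv => ?_⟩
  by_contra hcon
  push Not at hcon
  have h1 := hm0 (show m ∈ x ⁻¹' _ from ⟨hx m, v, hv, hcon⟩)
  omega

end Pool.Agent.LibK3
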