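import Pool.Agent.LibK3.H2

/-!
ROW [K3 H3].

`k(t)` is algebraically closed in the ultrapower (Hilbert irreducibility).

Proof. Clear denominators: `IsLocalization.integerNormalization`/`IsAlgebraic`: multiply `P` by the product of the denominators of its coefficients; so `P` may be taken in `k[t][X]`, non zero (the relation `hx` changes by the factor `rev d τ`, `rev_mul`). Let `c = P.leadingCoeff ∈ k[t]`, `n = P.natDegree ≥ 1` (`n = 0` is impossible: `c(τ) = 0` for almost all `τ`).
The monic polynomial `Q ∈ k[t][X]` with `Q (c X) = c ^ (n - 1) P (X)` (Mathlib: `Polynomial.integralNormalization`, `integralNormalization_eval₂_eq_zero` and monic lemmas; or `scaleRoots`) satisfies: `c(τ) x τ` is a root of `Q(τ, X)` for almost all `τ`. `hasSpec_numberField k` (LibHP/H7.lean) applied to `Q` gives `Z`, and for `τ ∉ Z`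
(in the ultrafilter) a root `r ∈ k[t]` of `Q` with `r(τ) = c(τ) x τ`. The roots of `Q` in `k[t]` are finitely many (`Q.roots.toFinset`), so by the ultrafilter property (`Ultrafilter.eventually_or`, `Ultrafilter.finite_biUnion_mem_iff` or `Filter.eventually_all_finset` and negation) there is one root `r` for which it is true for almost all `τ`.
`z = r / c`: `x τ = r(τ)/c(τ) = rev z τ` for almost all `τ` (`rev_mul`: `z * c = r`).
-/

set_option autoImplicit false

open Pool.Agent.LibGMM Pool.Agent.LibHP

namespace Pool.Agent.LibK3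

theorem rev_algebraMap {k : Type} [Field k] (p : Polynomial k) (τ : ℕ) :
    rev (algebraMap (Polynomial k) (RatFunc k) p) τ = p.eval (τ : k) := by
  rw [rev, RatFunc.eval_algebraMap]
  rfl

theorem exists_rev_of_root (k : Type) [Field k] [NumberField k] (F : Ultrafilter ℕ)
    (hF : ∀ Z : Set ℕ, DZ Z → Zᶜ ∈ F) (P : Polynomial (RatFunc k)) (hP : P ≠ 0) (x : ℕ → k)
    (hx : ∀ᶠ τ in (F : Filter ℕ),
      ∑ i ∈ Finset.range (P.natDegree + 1), rev (P.coeff i) τ * x τ ^ i = 0) :
    ∃ z : RatFunc k, ∀ᶠ τ in (F : Filter ℕ), x τ = rev z τ := by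
  classical
  obtain ⟨b, hb, hbP⟩ := IsLocalization.integerNormalization_spec
    (nonZeroDivisors (Polynomial k)) P
  have hb0 : b ≠ 0 := nonZeroDivisors.ne_zero hb
  have hP'0 : IsLocalization.integerNormalization (nonZeroDivisors (Polynomial k)) P ≠ 0 :=
    IsFractionRing.integerNormalization_eq_zero_iff.not.2 hP
  generalize IsLocalization.integerNormalization (nonZeroDivisors (Polynomial k)) P = P' at hbP hP'0
  have hcoef : ∀ i, algebraMap (Polynomial k) (RatFunc k) (P'.coeff i) =
      algebraMap (Polynomial k) (RatFunc k) b * P.coeff i := by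
    intro i
    rw [← Polynomial.coeff_map, hbP, Polynomial.coeff_smul, Algebra.smul_def]
  have hb1 : algebraMap (Polynomial k) (RatFunc k) b ≠ 0 := RatFunc.algebraMap_ne_zero hb0
  have hdeg : P'.natDegree = P.natDegree := by
    rw [← Polynomial.natDegree_map_eq_of_injective (RatFunc.algebraMap_injective k) P', hbP]
    have : b • P = Polynomial.C (algebraMap (Polynomial k) (RatFunc k) b) * P := by
      ext i
      rw [Polynomial.coeff_smul, Algebra.smul_def, Polynomial.coeff_C_mul]
    rw [this, Polynomial.natDegree_C_mul hb1]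
  have hx' : ∀ᶠ τ : ℕ in (F : Filter ℕ),
      (P'.map (Polynomial.evalRingHom (τ : k))).eval (x τ) = 0 := by
    have h1 : ∀ᶠ τ in (F : Filter ℕ), ∀ i ∈ Finset.range (P.natDegree + 1),
        rev (algebraMap (Polynomial k) (RatFunc k) b * P.coeff i) τ =
          rev (algebraMap (Polynomial k) (RatFunc k) b) τ * rev (P.coeff i) τ :=
      (Filter.eventually_all_finset _).2 fun i _ => rev_mul F hF _ _
    filter_upwards [hx, h1] with τ hτ h1
    rw [Polynomial.eval_map, Polynomial.eval₂_eq_sum_range, hdeg]
    have h2 : ∀ i ∈ Finset.range (P.natDegree + 1),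
        (Polynomial.evalRingHom (τ : k)) (P'.coeff i) * x τ ^ i =
          b.eval (τ : k) * (rev (P.coeff i) τ * x τ ^ i) := by
      intro i hi
      rw [Polynomial.coe_evalRingHom, ← rev_algebraMap, hcoef, h1 i hi, rev_algebraMap]
      ring
    rw [Finset.sum_congr rfl h2, ← Finset.mul_sum, hτ, mul_zero]
  have hc0 : P'.leadingCoeff ≠ 0 := Polynomial.leadingCoeff_ne_zero.2 hP'0
  have hcev := eventually_eval_ne F hF P'.leadingCoeff hc0
  rcases Nat.eq_zero_or_pos P'.natDegree with hn | hn
  · exfalso
    obtain ⟨τ, h1, h2⟩ := (hx'.and hcev).exists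
    apply h2
    rw [Polynomial.eval_map, Polynomial.eval₂_eq_sum_range, hn, zero_add, Finset.sum_range_one,
      pow_zero, mul_one] at h1
    rw [Polynomial.leadingCoeff, hn]
    exact h1
  · obtain ⟨Z, hZ, hspec⟩ := hasSpec_numberField k P'.integralNormalization
      (Polynomial.monic_integralNormalization hP'0)
    have hmon := Polynomial.monic_integralNormalization hP'0
    have h1 : ∀ᶠ τ : ℕ in (F : Filter ℕ), ∃ r ∈ (P'.integralNormalization.roots.toFinset :
        Set (Polynomial k)), r.eval (τ : k) = P'.leadingCoeff.eval (τ : k) * x τ := by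
      filter_upwards [hx', hF Z hZ] with τ h2 h3
      obtain ⟨r, hr, hr'⟩ := hspec τ h3 (P'.leadingCoeff.eval (τ : k) * x τ) (by
        rw [Polynomial.IsRoot, Polynomial.eval_map]
        have h4 := Polynomial.integralNormalization_eval₂_leadingCoeff_mul hn
          (Polynomial.evalRingHom (τ : k)) (x τ)
        rw [Polynomial.coe_evalRingHom] at h4
        rw [h4, ← Polynomial.eval_map, h2, mul_zero])
      refine ⟨r, ?_, hr'⟩
      rw [Finset.mem_coe, Multiset.mem_toFinset, Polynomial.mem_roots hmon.ne_zero]
      exact hr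
    obtain ⟨r, -, hr⟩ := (Ultrafilter.eventually_exists_mem_iff
      (Finset.finite_toSet _)).1 h1
    have hc1 : algebraMap (Polynomial k) (RatFunc k) P'.leadingCoeff ≠ 0 :=
      RatFunc.algebraMap_ne_zero hc0
    refine ⟨algebraMap (Polynomial k) (RatFunc k) r /
      algebraMap (Polynomial k) (RatFunc k) P'.leadingCoeff, ?_⟩
    filter_upwards [hr, hcev, rev_mul F hF (algebraMap (Polynomial k) (RatFunc k) r /
      algebraMap (Polynomial k) (RatFunc k) P'.leadingCoeff)
      (algebraMap (Polynomial k) (RatFunc k) P'.leadingCoeff)] with τ h2 h3 h4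
    rw [div_mul_cancel₀ _ hc1, rev_algebraMap, rev_algebraMap, h2] at h4
    have h5 : P'.leadingCoeff.eval (τ : k) ≠ 0 := h3
    have h6 : P'.leadingCoeff.eval (τ : k) * x τ = P'.leadingCoeff.eval (τ : k) *
      rev (algebraMap (Polynomial k) (RatFunc k) r /
      algebraMap (Polynomial k) (RatFunc k) P'.leadingCoeff) τ := by rw [h4]; ring
    exact mul_left_cancel₀ h5 h6

end Pool.Agent.LibK3
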