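import Pool.Agent.LibK3.H3

/-!
ROW [K3 H4].

Lifting a rational curve from lifts of its rational points.

Proof. Take `F` from `exists_ultra`, `χ` from `exists_hom_rev`. By `h` there are for every `τ` an index `i τ` and `σ τ : B (i τ) →+* k` with `(σ τ).comp (α _) = χ τ`. `Fin n` is finite, so there is `i` with `i τ = i` for almost all `τ` (`Ultrafilter` on a finite union; e.g. `Filter.Tendsto`/`Ultrafilter.map` to `Fin n` is principal).
Redefine: `σ : ℕ → (B i →+* k)` with `(σ τ).comp (α i) = χ τ` for almost all `τ` (choose a fixed value for the others). For `y : B i` let `P` be a monic polynomial over `A` with `P (y) = 0` (`hint`). For almost all `τ` the number `x τ = σ τ y` satisfies `∑ χ τ (P.coeff i) * x τ ^ i = 0` (apply `σ τ` to `P.eval₂ (α i) y = 0`), and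
`χ τ a = rev (φ a) τ` for the coefficients (finitely many). So `exists_rev_of_root` with `P.map φ` (monic, same `natDegree`) gives `z y : RatFunc k` with `σ τ y = rev (z y) τ` for almost all `τ`; `z y` is unique (`rev_inj`), so (`choose`) `ψ y := z y` is a homomorphism: `ψ (y + y')`, `ψ (y * y')` by `rev_add`, `rev_mul` and uniqueness,
`ψ 1 = 1` (`rev 1 τ = 1`, `ψ 0 = 0` similarly), and `ψ (α i a) = φ a` since `σ τ (α i a) = χ τ a = rev (φ a) τ` for almost all `τ`.
-/

set_option autoImplicit false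

open Pool.Agent.LibGMM Pool.Agent.LibHP

namespace Pool.Agent.LibK3

theorem exists_lift_hom (k : Type) [Field k] [NumberField k] (A : Type) [CommRing A] [Algebra k A]
    [Algebra.FiniteType k A] (φ : A →ₐ[k] RatFunc k) {n : ℕ} (B : Fin n → Type)
    [∀ i, CommRing (B i)] (α : ∀ i, A →+* B i) (hint : ∀ i, (α i).IsIntegral)
    (h : ∀ χ : A →ₐ[k] k, ∃ i, ∃ τ : B i →+* k, τ.comp (α i) = (χ : A →+* k)) :
    ∃ i, ∃ ψ : B i →+* RatFunc k, ψ.comp (α i) = (φ : A →+* RatFunc k) := by
  classical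
  obtain ⟨F, hF⟩ := exists_ultra
  obtain ⟨χ, hχ⟩ := exists_hom_rev F hF A φ
  choose i0 σ0 hσ0 using fun τ => h (χ τ)
  have h1 : ∀ᶠ τ in (F : Filter ℕ), ∃ i, i0 τ = i := Filter.Eventually.of_forall fun τ => ⟨_, rfl⟩
  obtain ⟨i, hi⟩ := Ultrafilter.eventually_exists_iff.1 h1
  obtain ⟨τ0, hτ0⟩ := hi.exists
  have h2 : ∀ τ, ∃ σ : B i →+* k, i0 τ = i → σ.comp (α i) = (χ τ : A →+* k) := by
    intro τ
    by_cases hτ : i0 τ = i
    · subst hτ
      exact ⟨σ0 τ, fun _ => hσ0 τ⟩
    · subst hτ0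
      exact ⟨σ0 τ0, fun h => absurd h hτ⟩
  choose σ hσ using h2
  have hσ' : ∀ᶠ τ in (F : Filter ℕ), ∀ a, σ τ (α i a) = χ τ a := by
    filter_upwards [hi] with τ hτ a
    exact congrArg (fun q : A →+* k => q a) (hσ τ hτ)
  have key : ∀ y : B i, ∃ z : RatFunc k, ∀ᶠ τ in (F : Filter ℕ), σ τ y = rev z τ := by
    intro y
    obtain ⟨P, hPm, hPy⟩ := hint i y
    refine exists_rev_of_root k F hF (P.map (φ : A →+* RatFunc k)) (hPm.map _).ne_zero
      (fun τ => σ τ y) ?_
    have h3 : ∀ᶠ τ in (F : Filter ℕ), ∀ j ∈ Finset.range (P.natDegree + 1),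
        χ τ (P.coeff j) = rev (φ (P.coeff j)) τ :=
      (Filter.eventually_all_finset _).2 fun j _ => hχ _
    filter_upwards [hσ', h3] with τ h4 h3
    rw [hPm.natDegree_map]
    have h5 := congrArg (σ τ) hPy
    rw [map_zero, Polynomial.hom_eval₂, Polynomial.eval₂_eq_sum_range] at h5
    rw [← h5]
    refine Finset.sum_congr rfl fun j hj => ?_
    rw [RingHom.comp_apply, h4, h3 j hj, Polynomial.coeff_map]
    rfl
  choose z hz using key
  have z1 : z 1 = 1 := by
    apply rev_inj F hF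
    filter_upwards [hz 1] with τ h3
    rw [← h3, map_one]
    exact (RatFunc.eval_one _ _).symm
  have z0 : z 0 = 0 := by
    apply rev_inj F hF
    filter_upwards [hz 0] with τ h3
    rw [← h3, map_zero]
    exact (RatFunc.eval_zero _ _).symm
  have zm : ∀ a b, z (a * b) = z a * z b := by
    intro a b
    apply rev_inj F hF
    filter_upwards [hz a, hz b, hz (a * b), rev_mul F hF (z a) (z b)] with τ h3 h4 h5 h6
    rw [h6, ← h3, ← h4, ← h5, map_mul]
  have za : ∀ a b, z (a + b) = z a + z b := by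
    intro a b
    apply rev_inj F hF
    filter_upwards [hz a, hz b, hz (a + b), rev_add F hF (z a) (z b)] with τ h3 h4 h5 h6
    rw [h6, ← h3, ← h4, ← h5, map_add]
  refine ⟨i, { toFun := z, map_one' := z1, map_zero' := z0, map_mul' := zm, map_add' := za }, ?_⟩
  ext a
  apply rev_inj F hF
  filter_upwards [hz (α i a), hσ', hχ a] with τ h3 h4 h5
  show rev (z (α i a)) τ = rev (φ a) τ
  rw [← h3, h4, h5]

end Pool.Agent.LibK3
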