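import Pool.Agent.LibK3.HDefs

/-!
ROW [K3 H5].

The valuation of a discrete valuation ring.

Proof. `IsDiscreteValuationRing.exists_irreducible R` gives `ϖ`; every non zero `r : R` is `ϖ ^ n * u` with a unit `u` (`IsDiscreteValuationRing.eq_unit_mul_pow_irreducible`), `n = (IsDiscreteValuationRing.addVal R r).toNat`; `addVal_mul`, `addVal_add`. Define `ord z = n(a) - n(b)` for `z = a / b` (choose by `IsFractionRing.div_surjective`), well defined by `addVal_mul`.
(Or any other way: if you find a lemma which constructs an integer valued function from a discrete valuation ring in the library, e.g. `exists_dval_of_prime` in LibKC/RowL5.lean, `LibBG`, LibHP2/D1.lean, adapt it.) `0 ≤ ord z ↔ z ∈ range`: `z = ϖ ^ n u / ϖ ^ m u'`. `ord_const`: `c : k` is the image of `r`, `c⁻¹` the image of `r'`, `r r' = 1`, so `r` is a unit (or `c = 0`).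
-/

set_option autoImplicit false

open Pool.Agent.LibGMM Pool.Agent.LibHP

namespace Pool.Agent.LibK3

theorem exists_kval_of_dvr {k R F : Type} [Field k] [CommRing R] [IsDomain R]
    [IsDiscreteValuationRing R] [Field F] [Algebra R F] [IsFractionRing R F] [Algebra k F]
    (hc : ∀ c : k, ∃ r : R, algebraMap R F r = algebraMap k F c) :
    ∃ v : KVal k F, ∀ z, 0 ≤ v.ord z ↔ z ∈ Set.range (algebraMap R F) := by
  classical
  have hinj : Function.Injective (algebraMap R F) := IsFractionRing.injective R F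
  have hne : ∀ r : R, r ≠ 0 → algebraMap R F r ≠ 0 := fun r hr h =>
    hr (hinj (by rw [h, map_zero]))
  let n : R → ℕ := fun r => (IsDiscreteValuationRing.addVal R r).toNat
  have hn : ∀ r : R, r ≠ 0 → IsDiscreteValuationRing.addVal R r = (n r : ℕ∞) := by
    intro r hr
    exact (ENat.natCast_toNat fun h => hr (IsDiscreteValuationRing.addVal_eq_top_iff.1 h)).symm
  have hmul : ∀ a b : R, a ≠ 0 → b ≠ 0 → n (a * b) = n a + n b := by
    intro a b ha hb
    have h1 := IsDiscreteValuationRing.addVal_mul (a := a) (b := b)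
    rw [hn _ (mul_ne_zero ha hb), hn _ ha, hn _ hb] at h1
    exact_mod_cast h1
  have hadd : ∀ a b : R, a ≠ 0 → b ≠ 0 → a + b ≠ 0 → min (n a) (n b) ≤ n (a + b) := by
    intro a b ha hb hab
    have h1 := IsDiscreteValuationRing.addVal_add (a := a) (b := b)
    rw [hn _ hab, hn _ ha, hn _ hb] at h1
    rcases min_le_iff.1 h1 with h2 | h2
    · exact min_le_iff.2 (Or.inl (by exact_mod_cast h2))
    · exact min_le_iff.2 (Or.inr (by exact_mod_cast h2))
  have hunit : ∀ r : R, IsUnit r → n r = 0 := by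
    intro r hr
    have h1 := IsDiscreteValuationRing.addVal_eq_zero_iff.2 hr
    simp only [n, h1]
    rfl
  have hdvd : ∀ a b : R, a ≠ 0 → b ≠ 0 → (n a ≤ n b ↔ a ∣ b) := by
    intro a b ha hb
    rw [← IsDiscreteValuationRing.addVal_le_iff_dvd, hn _ ha, hn _ hb]
    exact_mod_cast Iff.rfl
  have hfrac : ∀ z : F, ∃ p : R × R, p.2 ≠ 0 ∧ z = algebraMap R F p.1 / algebraMap R F p.2 := by
    intro z
    obtain ⟨x, y, hy, hz⟩ := IsFractionRing.div_surjective (A := R) z
    exact ⟨(x, y), nonZeroDivisors.ne_zero hy, hz.symm⟩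
  choose q hq0 hq using hfrac
  have hq1 : ∀ z, z ≠ 0 → (q z).1 ≠ 0 := by
    intro z hz h
    apply hz
    rw [hq z, h, map_zero, zero_div]
  let o : F → ℤ := fun z => if z = 0 then 0 else (n (q z).1 : ℤ) - (n (q z).2 : ℤ)
  have key : ∀ a b : R, a ≠ 0 → b ≠ 0 →
      o (algebraMap R F a / algebraMap R F b) = (n a : ℤ) - (n b : ℤ) := by
    intro a b ha hb
    have hz : algebraMap R F a / algebraMap R F b ≠ 0 := div_ne_zero (hne a ha) (hne b hb)
    set z := algebraMap R F a / algebraMap R F b with hzdef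
    have h1 : o z = (n (q z).1 : ℤ) - (n (q z).2 : ℤ) := if_neg hz
    have h2 : algebraMap R F a * algebraMap R F (q z).2 =
        algebraMap R F (q z).1 * algebraMap R F b := by
      have h3 : algebraMap R F a / algebraMap R F b =
          algebraMap R F (q z).1 / algebraMap R F (q z).2 := by
        rw [← hq z]
      rwa [div_eq_div_iff (hne b hb) (hne _ (hq0 z))] at h3
    rw [← map_mul, ← map_mul] at h2
    have h3 := congrArg n (hinj h2)
    rw [hmul _ _ ha (hq0 z), hmul _ _ (hq1 z hz) hb] at h3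
    rw [h1]
    omega
  have key1 : ∀ a : R, a ≠ 0 → o (algebraMap R F a) = n a := by
    intro a ha
    have h1 := key a 1 ha one_ne_zero
    rw [map_one, div_one, hunit 1 isUnit_one] at h1
    simpa using h1
  have ho : ∀ z, z ≠ 0 → ∃ a b : R, a ≠ 0 ∧ b ≠ 0 ∧
      z = algebraMap R F a / algebraMap R F b := fun z hz =>
    ⟨(q z).1, (q z).2, hq1 z hz, hq0 z, hq z⟩
  refine ⟨⟨o, if_pos rfl, ?_, ?_, ?_, ?_⟩, ?_⟩
  · intro z w hz hw
    obtain ⟨a, b, ha, hb, rfl⟩ := ho z hz
    obtain ⟨c, d, hc', hd, rfl⟩ := ho w hw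
    rw [div_mul_div_comm, ← map_mul, ← map_mul, key _ _ (mul_ne_zero ha hc') (mul_ne_zero hb hd),
      key _ _ ha hb, key _ _ hc' hd, hmul _ _ ha hc', hmul _ _ hb hd]
    push_cast
    ring
  · intro z w hz hw hzw
    obtain ⟨a, b, ha, hb, rfl⟩ := ho z hz
    obtain ⟨c, d, hc', hd, rfl⟩ := ho w hw
    have h1 : algebraMap R F a / algebraMap R F b + algebraMap R F c / algebraMap R F d =
        algebraMap R F (a * d + b * c) / algebraMap R F (b * d) := by
      rw [div_add_div _ _ (hne b hb) (hne d hd), map_add, map_mul, map_mul, map_mul]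
    rw [h1] at hzw ⊢
    have h2 : a * d + b * c ≠ 0 := by
      intro h
      rw [h, map_zero, zero_div] at hzw
      exact hzw rfl
    rw [key _ _ h2 (mul_ne_zero hb hd), key _ _ ha hb, key _ _ hc' hd, hmul _ _ hb hd]
    have h3 := hadd (a * d) (b * c) (mul_ne_zero ha hd) (mul_ne_zero hb hc') h2
    rw [hmul _ _ ha hd, hmul _ _ hb hc'] at h3
    rcases min_le_iff.1 h3 with h4 | h4
    · refine min_le_iff.2 (Or.inl ?_)
      push_cast
      omega
    · refine min_le_iff.2 (Or.inr ?_)
      push_cast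
      omega
  · intro c
    by_cases h0 : c = 0
    · rw [h0, map_zero]
      exact if_pos rfl
    obtain ⟨r, hr⟩ := hc c
    obtain ⟨r', hr'⟩ := hc c⁻¹
    have h1 : r * r' = 1 := by
      apply hinj
      rw [map_mul, hr, hr', ← map_mul, mul_inv_cancel₀ h0, map_one, map_one]
    have hu : IsUnit r := IsUnit.of_mul_eq_one r' h1
    rw [← hr, key1 r hu.ne_zero, hunit r hu]
    rfl
  · obtain ⟨ϖ, hϖ⟩ := IsDiscreteValuationRing.exists_irreducible R
    refine ⟨algebraMap R F ϖ, ?_⟩
    have h1 := IsDiscreteValuationRing.addVal_uniformizer hϖ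
    rw [key1 ϖ hϖ.ne_zero]
    simp only [n, h1]
    rfl
  · intro z
    change 0 ≤ o z ↔ z ∈ Set.range (algebraMap R F)
    by_cases hz : z = 0
    · subst hz
      constructor
      · intro _
        exact ⟨0, map_zero _⟩
      · intro _
        exact le_of_eq (if_pos rfl).symm
    obtain ⟨a, b, ha, hb, rfl⟩ := ho z hz
    rw [key _ _ ha hb, sub_nonneg, Int.ofNat_le, hdvd b a hb ha]
    constructor
    · rintro ⟨c, rfl⟩
      refine ⟨c, ?_⟩
      rw [map_mul, mul_div_cancel_left₀ _ (hne b hb)]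
    · rintro ⟨c, hc'⟩
      refine ⟨c, hinj ?_⟩
      rw [map_mul, hc', mul_div_cancel₀ _ (hne b hb)]

end Pool.Agent.LibK3
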