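import Pool.Agent.LibK3.HDefs

/-!
ROW [K3 H8].

After inverting one element of `A` the finite extension `B` is integrally closed.

Proof. Let `K = FractionRing A`, `M = FractionRing B` (a finite extension of `K`, separable since the characteristic is zero), `B' = integralClosure A M`. `A` is Noetherian and integrally closed, so `B'` is a finite `A`-module (`IsIntegralClosure.finite`, `FiniteDimensional K M`). Every element `z` of `M` is `b / a` with `b ∈ B`, `a ∈ A`, `a ≠ 0`
(`B` is integral over `A`: the denominators can be taken in `A`, `IsIntegralClosure`/`IsAlgebraic` lemmas, e.g. `IsFractionRing` + `Algebra.IsAlgebraic.exists_integral_multiple`; or: `M = K · B`, because `K · B` is a domain finite over the field `K`, so a field). Take the product `h` of the denominators of a finite set of generators of `B'` over `A`: then `h z ∈ B` for ... all the generators, so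
`B' ⊆ B[1/h]`. For every `h'` divisible by `h`, `h' ≠ 0`: `B[1/h'] = B'[1/h']` inside `M`, and `B'` is integrally closed, hence so is its localization (`isIntegrallyClosed_of_isLocalization`, used in LibHP/S2.lean). Concretely: let `z ∈ M` be integral over `C = B[1/h']` (`M` is its field of fractions: `hCM`-type instances from `IsLocalization`), then `h' ^ N z` is integral over `B`
for some `N` (`IsIntegral.exists_multiple_integral_of_isLocalization`), so over `A` (`isIntegral_trans`), so it is in `B'`, so `h (h' ^ N z) ∈ B` after multiplying with `h`; so `z ∈ C`. Use `isIntegrallyClosed_iff M`.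
-/

set_option autoImplicit false

open Pool.Agent.LibGMM Pool.Agent.LibHP

namespace Pool.Agent.LibK3

open nonZeroDivisors in
private theorem H8_key {A B K M : Type} [CommRing A] [IsDomain A] [IsNoetherianRing A]
    [IsIntegrallyClosed A] [CharZero A] [CommRing B] [IsDomain B] [Algebra A B] [Module.Finite A B]
    [FaithfulSMul A B] [Field K] [Algebra A K] [IsFractionRing A K] [Field M] [Algebra B M]
    [IsFractionRing B M] [Algebra A M] [IsScalarTower A B M] [Algebra K M] [IsScalarTower A K M] :
    ∃ h : A, h ≠ 0 ∧ ∀ z : M, IsIntegral A z → ∃ b : B, algebraMap A M h * z = algebraMap B M b := by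
  classical
  have hint : Algebra.IsIntegral A B := inferInstance
  have halg : Algebra.IsAlgebraic A B := hint.isAlgebraic
  have hloc : IsLocalization (Algebra.algebraMapSubmonoid B A⁰) M := inferInstance
  have hfin : Module.Finite K M := Module.Finite.of_isLocalization A B A⁰
  have hck : CharZero K := charZero_of_injective_algebraMap (IsFractionRing.injective A K)
  have hfC : Module.Finite A (integralClosure A M) :=
    IsIntegralClosure.finite A K M (integralClosure A M)
  have hAM : Function.Injective (algebraMap A M) := by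
    rw [IsScalarTower.algebraMap_eq A K M]
    exact (algebraMap K M).injective.comp (IsFractionRing.injective A K)
  -- one element
  have key1 : ∀ z : M, ∃ a : A, a ≠ 0 ∧ ∃ b : B, algebraMap A M a * z = algebraMap B M b := by
    intro z
    obtain ⟨x, y, hy, rfl⟩ := IsFractionRing.div_surjective (A := B) z
    have hy0 : y ≠ 0 := nonZeroDivisors.ne_zero hy
    obtain ⟨c, d, hd, hcd⟩ := Algebra.IsAlgebraic.exists_smul_eq_mul A x hy0
    refine ⟨d, hd, c, ?_⟩
    have hy1 : algebraMap B M y ≠ 0 := by
      rw [Ne, map_eq_zero_iff _ (IsFractionRing.injective B M)]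
      exact hy0
    rw [← mul_div_assoc, div_eq_iff hy1, ← map_mul, IsScalarTower.algebraMap_apply A B M,
      ← map_mul, ← Algebra.smul_def, hcd, mul_comm]
  obtain ⟨S, hS⟩ := hfC.fg_top
  choose a ha0 b hb using key1
  refine ⟨∏ z ∈ S, a z, Finset.prod_ne_zero_iff.2 fun z _ => ha0 _, ?_⟩
  intro z hz
  have hmem : (⟨z, hz⟩ : integralClosure A M) ∈ Submodule.span A (S : Set (integralClosure A M)) := by
    rw [hS]
    trivial
  have hall : ∀ w ∈ Submodule.span A (S : Set (integralClosure A M)),
      ∃ b : B, algebraMap A M (∏ z ∈ S, a z) * (w : M) = algebraMap B M b := by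
    intro w hw
    induction hw using Submodule.span_induction with
    | mem w hw =>
      obtain ⟨c, hc⟩ : a (w : M) ∣ ∏ z ∈ S, a (z : M) := Finset.dvd_prod_of_mem _ hw
      refine ⟨algebraMap A B c * b (w : M), ?_⟩
      rw [hc, map_mul, map_mul, ← hb, ← IsScalarTower.algebraMap_apply A B M]
      ring
    | zero => exact ⟨0, by simp⟩
    | add x y _ _ hx hy =>
      obtain ⟨b1, h1⟩ := hx
      obtain ⟨b2, h2⟩ := hy
      refine ⟨b1 + b2, ?_⟩
      rw [map_add, ← h1, ← h2]
      push_cast
      ring
    | smul c x _ hx =>
      obtain ⟨b1, h1⟩ := hx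
      refine ⟨algebraMap A B c * b1, ?_⟩
      rw [map_mul, ← h1, ← IsScalarTower.algebraMap_apply A B M]
      have : ((c • x : integralClosure A M) : M) = algebraMap A M c * (x : M) := by
        rw [← Algebra.smul_def]
        rfl
      rw [this]
      ring
  exact hall _ hmem

theorem exists_normal_away {A B : Type} [CommRing A] [IsDomain A] [IsNoetherianRing A]
    [IsIntegrallyClosed A] [CharZero A] [CommRing B] [IsDomain B] (α : A →+* B) (hα : α.Finite)
    (hinj : Function.Injective α) :
    ∃ h : A, h ≠ 0 ∧ ∀ h' : A, h' ≠ 0 → h ∣ h' → ∀ (C : Type) [CommRing C] [Algebra B C]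
      [IsLocalization.Away (α h') C], IsIntegrallyClosed C := by
  let _ : Algebra A B := α.toAlgebra
  have : Module.Finite A B := hα
  have hAB : Function.Injective (algebraMap A B) := hinj
  have : FaithfulSMul A B := (faithfulSMul_iff_algebraMap_injective A B).2 hAB
  obtain ⟨M, _, _, _⟩ : ∃ (M : Type) (_ : Field M) (_ : Algebra B M), IsFractionRing B M :=
    ⟨FractionRing B, inferInstance, inferInstance, inferInstance⟩
  obtain ⟨K, _, _, _⟩ : ∃ (K : Type) (_ : Field K) (_ : Algebra A K), IsFractionRing A K :=
    ⟨FractionRing A, inferInstance, inferInstance, inferInstance⟩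
  let _ : Algebra A M := ((algebraMap B M).comp (algebraMap A B)).toAlgebra
  have : IsScalarTower A B M := IsScalarTower.of_algebraMap_eq' rfl
  have hAM : Function.Injective (algebraMap A M) := (IsFractionRing.injective B M).comp hAB
  let _ : Algebra K M := (IsFractionRing.lift hAM).toAlgebra
  have : IsScalarTower A K M :=
    IsScalarTower.of_algebraMap_eq fun x => (IsFractionRing.lift_algebraMap hAM x).symm
  obtain ⟨h, hh0, hh⟩ := H8_key (A := A) (B := B) (K := K) (M := M)
  refine ⟨h, hh0, fun h' hh' hdvd C _ _ _ => ?_⟩
  have hα' : α h' ≠ 0 := by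
    rw [Ne, map_eq_zero_iff _ hinj]
    exact hh'
  have hle : Submonoid.powers (α h') ≤ nonZeroDivisors B :=
    powers_le_nonZeroDivisors_of_noZeroDivisors hα'
  have hunit : ∀ y : Submonoid.powers (α h'), IsUnit (algebraMap B M y) := by
    intro y
    have h1 : (y : B) ≠ 0 := nonZeroDivisors.ne_zero (hle y.2)
    exact isUnit_iff_ne_zero.2 (by rwa [Ne, map_eq_zero_iff _ (IsFractionRing.injective B M)])
  let _ : Algebra C M := (IsLocalization.lift (M := Submonoid.powers (α h')) hunit : C →+* M).toAlgebra
  have : IsScalarTower B C M := IsScalarTower.of_algebraMap_eq fun x =>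
    (IsLocalization.lift_eq (M := Submonoid.powers (α h')) (S := C) hunit x).symm
  have : IsFractionRing C M :=
    IsFractionRing.isFractionRing_of_isDomain_of_isLocalization (Submonoid.powers (α h')) C M
  rw [isIntegrallyClosed_iff M]
  intro x hx
  obtain ⟨⟨_, n, rfl⟩, hy⟩ :=
    hx.exists_multiple_integral_of_isLocalization (Submonoid.powers (α h')) _
  have hy' : IsIntegral B (algebraMap B M (α h' ^ n) * x) := by
    rw [← Algebra.smul_def]
    exact hy
  have hy2 : IsIntegral A (algebraMap B M (α h' ^ n) * x) := isIntegral_trans _ hy'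
  obtain ⟨b, hb⟩ := hh _ hy2
  obtain ⟨e, rfl⟩ := hdvd
  refine ⟨IsLocalization.mk' C (α e * b)
    (⟨α (h * e) ^ (n + 1), n + 1, rfl⟩ : Submonoid.powers (α (h * e))), ?_⟩
  have hne : algebraMap B M (α (h * e) ^ (n + 1)) ≠ 0 := by
    rw [Ne, map_eq_zero_iff _ (IsFractionRing.injective B M)]
    exact pow_ne_zero _ hα'
  have h1 : algebraMap C M (IsLocalization.mk' C (α e * b)
      (⟨α (h * e) ^ (n + 1), n + 1, rfl⟩ : Submonoid.powers (α (h * e)))) *
      algebraMap B M (α (h * e) ^ (n + 1)) = algebraMap B M (α e * b) := by
    rw [IsScalarTower.algebraMap_apply B C M, ← map_mul, IsLocalization.mk'_spec_mk,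
      ← IsScalarTower.algebraMap_apply B C M]
  have h2 : x * algebraMap B M (α (h * e) ^ (n + 1)) = algebraMap B M (α e * b) := by
    rw [map_mul (algebraMap B M) (α e) b, ← hb, pow_succ, map_mul, map_mul α h e,
      map_mul (algebraMap B M) (α h) (α e)]
    have h3 : algebraMap A M h = algebraMap B M (α h) := rfl
    rw [h3]
    ring
  exact mul_right_cancel₀ hne (h1.trans h2.symm)

end Pool.Agent.LibK3
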