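import Pool.Agent.LibK3.N01

set_option autoImplicit false

open Pool.Agent.LibGMM Pool.Agent.LibK Pool.Agent.LibKB
open Pool.Agent.LibLB (PSurf RLR)
open Pool.Agent.LibCov80 (Over)

namespace Pool.Agent.LibK3

section

variable {L : Type} [Field L] [Algebra ℂ L] {S : PSurf L} {C : RC L}


private theorem N02_one : C.ψ 1 = 1 := by
  have h := C.const 1
  rwa [map_one, map_one] at h

private theorem N02_inv {z : L} (hz : z ∈ C.ν.ring) (hz' : z⁻¹ ∈ C.ν.ring) (h0 : z ≠ 0) :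
    C.ψ z * C.ψ z⁻¹ = 1 := by
  rw [← C.mul z hz z⁻¹ hz', mul_inv_cancel₀ h0, N02_one]

private theorem N02_ordP_one (v : Plc) : ordP v 1 = 0 := by
  have h := ordP_C v 1
  rwa [map_one] at h

/-- PLAN. Two different points `x ≠ y` of `S`: `S.sep` gives a section `f` of a divisor `D` of class `A`
(`S.rep S.A`) with `Gen S.prm y D f` and `¬ Gen S.prm x D f`, and conversely `f'`. Let `g`, `g'` be local equations of `D` at
`x`, `y` (`PSurf.pt`, `Pt.exists_loc`). `f g ∈ x` is a non-unit, `f' g ∈ x` a unit (`gen_iff`, `germ_mem`), so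
`f / f' ∈ x` non-unit; and `f / f' = (f g')/(f' g')`: `f g'` is a unit of `y`, `f' g' ∈ y` non-unit: `f' / f ∈ y` non-unit. Then
`ordP v (C.ψ (f / f')) > 0` or `C.ψ (f/f') = 0`, and the same for the inverse: impossible (`f/f'` and `f'/f` are both in
`C.ν.ring`, the product of their images is `1`). -/
theorem isCtr_unique (hC : C.ν ∈ S.prm) {v : Plc} {x y : Subalgebra ℂ L} (hx : IsCtr S C v x)
    (hy : IsCtr S C v y) : x = y := by
  by_contra hne
  have key : ∀ x y : Subalgebra ℂ L, IsCtr S C v x → IsCtr S C v y → x ≠ y →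
      ∃ f f' : L, f ≠ 0 ∧ f' ≠ 0 ∧ f / f' ∈ x ∧ (f / f')⁻¹ ∉ x ∧ f' / f ∈ y ∧ (f' / f)⁻¹ ∉ y := by
    intro x y hx hy hne
    have hD := S.isDiv_rep S.A
    have hcl : LibLB.clOf S.prm S.cls (S.rep S.A) = S.A := S.cl_rep S.A
    obtain ⟨f, hf1, hf2⟩ := S.sep _ hD hcl x hx.pts y hy.pts hne
    obtain ⟨f', hf1', hf2'⟩ := S.sep _ hD hcl y hy.pts x hx.pts hne.symm
    -- the local computation at one point
    have loc : ∀ z : Subalgebra ℂ L, z ∈ S.pts → ∀ h h' : L,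
        h ∈ sec S.prm (S.rep S.A) → h ≠ 0 → ¬ Gen S.prm z (S.rep S.A) h →
        Gen S.prm z (S.rep S.A) h' → h / h' ∈ z ∧ (h / h')⁻¹ ∉ z := by
      intro z hz h h' hs h0 hn hg
      have hp := S.pt hz
      obtain ⟨g, hgl⟩ := hp.exists_loc hD
      have hm : h * g ∈ z := hp.germ_mem hgl hs
      have hm0 : h' * g ≠ 0 := mul_ne_zero hg.2.1 hgl.1
      have hm' : (h' * g)⁻¹ ∈ z := by
        rw [hp.mem_iff]
        intro ν hν hxν
        rw [ord_inv ν hm0, ν.ord_mul _ _ hg.2.1 hgl.1, hgl.2 ν hν hxν, hg.2.2 ν hν hxν, neg_zero]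
      have hn' : (h * g)⁻¹ ∉ z := by
        intro hinv
        refine hn ⟨hs, h0, fun ν hν hxν => ?_⟩
        have h3 := LibLB.ord_eq_zero_of_unit hm (mul_ne_zero h0 hgl.1) hinv hxν
        rwa [ν.ord_mul _ _ h0 hgl.1, hgl.2 ν hν hxν] at h3
      have e1 : h / h' = (h * g) * (h' * g)⁻¹ := by
        rw [← div_eq_mul_inv, mul_div_mul_right _ _ hgl.1]
      refine ⟨by rw [e1]; exact mul_mem hm hm', ?_⟩
      intro hinv
      apply hn'
      have e2 : (h * g)⁻¹ = (h / h')⁻¹ * (h' * g)⁻¹ := by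
        have k1 := hg.2.1
        have k2 := hgl.1
        field_simp
      rw [e2]
      exact mul_mem hinv hm'
    obtain ⟨a1, a2⟩ := loc x hx.pts f f' hf1.1 hf1.2.1 hf2 hf1'
    obtain ⟨b1, b2⟩ := loc y hy.pts f' f hf1'.1 hf1'.2.1 hf2' hf1
    exact ⟨f, f', hf1.2.1, hf1'.2.1, a1, a2, b1, b2⟩
  obtain ⟨f, f', h0, h0', a1, a2, b1, b2⟩ := key x y hx hy hne
  have hinv : f' / f = (f / f')⁻¹ := (inv_div f f').symm
  rw [hinv] at b1 b2
  have hq0 : f / f' ≠ 0 := div_ne_zero h0 h0'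
  have hm := N02_inv (hx.le a1) (hy.le b1) hq0
  have c1 : C.ψ (f / f') ≠ 0 := left_ne_zero_of_mul (by rw [hm]; exact one_ne_zero)
  have c2 : C.ψ (f / f')⁻¹ ≠ 0 := right_ne_zero_of_mul (by rw [hm]; exact one_ne_zero)
  have d1 := (hx.pos _ a1 a2).resolve_left c1
  have d2 := (hy.pos _ b1 b2).resolve_left c2
  have e := ordP_mul v c1 c2
  rw [hm, N02_ordP_one] at e
  omega

/-- Units of the centre have order zero. -/
theorem ordP_unit (hC : C.ν ∈ S.prm) {v : Plc} {x : Subalgebra ℂ L} (hx : IsCtr S C v x) {z : L}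
    (hz : z ∈ x) (h0 : z ≠ 0) (hz' : z⁻¹ ∈ x) : C.ψ z ≠ 0 ∧ ordP v (C.ψ z) = 0 := by
  have hm := N02_inv (hx.le hz) (hx.le hz') h0
  have c1 : C.ψ z ≠ 0 := left_ne_zero_of_mul (by rw [hm]; exact one_ne_zero)
  have c2 : C.ψ z⁻¹ ≠ 0 := right_ne_zero_of_mul (by rw [hm]; exact one_ne_zero)
  have d1 := hx.nonneg z hz
  have d2 := hx.nonneg z⁻¹ hz'
  have e := ordP_mul v c1 c2
  rw [hm, N02_ordP_one] at e
  exact ⟨c1, by omega⟩

/-- Convenience: `ψ` on the ring. -/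
theorem psi_inv {z : L} (hz : z ∈ C.ν.ring) (h : C.ψ z ≠ 0) :
    z⁻¹ ∈ C.ν.ring ∧ C.ψ z⁻¹ = (C.ψ z)⁻¹ := by
  have h1 : ¬ (z = 0 ∨ 0 < C.ν.ord z) := fun h2 => h ((C.zero_iff z hz).2 h2)
  rw [not_or] at h1
  have h2 : z⁻¹ ∈ C.ν.ring := by
    rw [mem_ring, ord_inv _ h1.1]
    omega
  exact ⟨h2, eq_inv_of_mul_eq_one_right (N02_inv hz h2 h1.1)⟩

theorem psi_ne_iff {z : L} (hz : z ≠ 0) (hz' : z ∈ C.ν.ring) : C.ψ z ≠ 0 ↔ C.ν.ord z = 0 := by
  rw [Ne, C.zero_iff z hz', not_or]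
  have h1 : 0 ≤ C.ν.ord z := mem_ring.1 hz'
  constructor
  · rintro ⟨_, h2⟩
    omega
  · intro h2
    exact ⟨hz, by omega⟩

theorem psi_zero : C.ψ 0 = 0 := by
  have h := C.const 0
  rwa [map_zero, map_zero] at h

theorem psi_one : C.ψ 1 = 1 := N02_one

theorem psi_neg {z : L} (hz : z ∈ C.ν.ring) : C.ψ (-z) = - C.ψ z := by
  have h := C.add z hz (-z) (neg_mem hz)
  rw [add_neg_cancel, psi_zero] at h
  exact (neg_eq_of_add_eq_zero_right h.symm).symm

theorem psi_sub {z w : L} (hz : z ∈ C.ν.ring) (hw : w ∈ C.ν.ring) : C.ψ (z - w) = C.ψ z - C.ψ w := by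
  rw [sub_eq_add_neg, C.add z hz (-w) (neg_mem hw), psi_neg hw, sub_eq_add_neg]

theorem psi_pow {z : L} (hz : z ∈ C.ν.ring) (n : ℕ) : C.ψ (z ^ n) = C.ψ z ^ n := by
  induction n with
  | zero => rw [pow_zero, pow_zero, psi_one]
  | succ n ih => rw [pow_succ, pow_succ, C.mul _ (pow_mem hz n) _ hz, ih]

theorem psi_sum {ι : Type} (s : Finset ι) (f : ι → L) (hf : ∀ i ∈ s, f i ∈ C.ν.ring) :
    C.ψ (∑ i ∈ s, f i) = ∑ i ∈ s, C.ψ (f i) := by
  classical
  induction s using Finset.induction_on with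
  | empty => rw [Finset.sum_empty, Finset.sum_empty, psi_zero]
  | insert a s ha ih =>
    rw [Finset.sum_insert ha, Finset.sum_insert ha,
      C.add _ (hf a (Finset.mem_insert_self a s)) _
        (sum_mem fun i hi => hf i (Finset.mem_insert_of_mem hi)),
      ih fun i hi => hf i (Finset.mem_insert_of_mem hi)]

end

end Pool.Agent.LibK3
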