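import Pool.Agent.LibK3.N02

set_option autoImplicit false

open Pool.Agent.LibGMM Pool.Agent.LibK Pool.Agent.LibKB
open Pool.Agent.LibLB (PSurf RLR)
open Pool.Agent.LibCov80 (Over)

namespace Pool.Agent.LibK3

section

variable {L : Type} [Field L] [Algebra ℂ L] {S : PSurf L} {C : RC L}


theorem leq_spec {D : DVal L → ℤ} (hD : IsDiv S.prm D) {x : Subalgebra ℂ L} (hx : x ∈ S.pts) :
    LocEqn S.prm x D (leq S D x) := by
  have h := (S.pt hx).exists_loc hD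
  unfold leq
  rw [dif_pos h]
  exact h.choose_spec

private theorem n03_aux (hC : C.ν ∈ S.prm) {v : Plc} {x : Subalgebra ℂ L} (hx : IsCtr S C v x)
    {D : DVal L → ℤ} {f g : L} (hf : LocEqn S.prm x D f) (hg : LocEqn S.prm x D g) {c : L}
    (hc : c ≠ 0) (hcD : C.ν.ord c = - D C.ν) :
    ordP v (C.ψ (c * g)) = ordP v (C.ψ (c * f)) ∧ C.ψ (c * f) ≠ 0 ∧ C.ν.ord (c * f) = 0 := by
  have h1 : C.ν.ord (c * f) = 0 := by
    rw [C.ν.ord_mul _ _ hc hf.1, hf.2 C.ν hC hx.le, hcD, neg_add_cancel]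
  have h2 : C.ψ (c * f) ≠ 0 := (psi_ne_iff (mul_ne_zero hc hf.1) (le_of_eq h1.symm)).2 h1
  have hP := S.pt hx.pts
  have hz : g / f ∈ x := hP.loc_div_mem hg hf
  have hz' : (g / f)⁻¹ ∈ x := by
    rw [inv_div]
    exact hP.loc_div_mem hf hg
  obtain ⟨h3, h4⟩ := ordP_unit hC hx hz (div_ne_zero hg.1 hf.1) hz'
  refine ⟨?_, h2, h1⟩
  have h5 : c * g = (c * f) * (g / f) := by
    have := hf.1
    field_simp
  rw [h5, C.mul _ (le_of_eq h1.symm) _ (hx.le hz), ordP_mul v h2 h3, h4, add_zero]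

/-- `ct` does not depend on the local equation.
PLAN. `x = ctr S C v` by `isCtr_unique`. Two local equations differ by a unit of `x`
(`loc_div_mem` both ways). `C.ν.ord (c f) = 0` since `x ≤ C.ν.ring` and `f` has order `D C.ν` at `C.ν`. `ordP_unit`, `C.mul`,
`ordP_mul`. -/
theorem ct_eq (hC : C.ν ∈ S.prm) {v : Plc} {x : Subalgebra ℂ L} (hx : IsCtr S C v x)
    {D : DVal L → ℤ} (hD : IsDiv S.prm D) {f : L} (hf : LocEqn S.prm x D f) {c : L} (hc : c ≠ 0)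
    (hcD : C.ν.ord c = - D C.ν) : ct S C v D c = ordP v (C.ψ (c * f)) ∧ C.ψ (c * f) ≠ 0 := by
  have h1 : ctr S C v = x := isCtr_unique hC (isCtr_ctr hC v) hx
  have h2 := n03_aux hC hx hf (leq_spec hD hx.pts) hc hcD
  refine ⟨?_, h2.2.1⟩
  unfold ct
  rw [h1]
  exact h2.1

theorem ct_add (hC : C.ν ∈ S.prm) (v : Plc) {D D' : DVal L → ℤ} (hD : IsDiv S.prm D)
    (hD' : IsDiv S.prm D') {c c' : L} (hc : c ≠ 0) (hc' : c' ≠ 0) (hcD : C.ν.ord c = - D C.ν)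
    (hcD' : C.ν.ord c' = - D' C.ν) :
    ct S C v (fun ν => D ν + D' ν) (c * c') = ct S C v D c + ct S C v D' c' := by
  have hx := isCtr_ctr hC v
  have hf := leq_spec hD hx.pts
  have hf' := leq_spec hD' hx.pts
  have h1 := n03_aux hC hx hf hf hc hcD
  have h1' := n03_aux hC hx hf' hf' hc' hcD'
  have h2 : C.ν.ord (c * c') = - (D C.ν + D' C.ν) := by
    rw [C.ν.ord_mul _ _ hc hc', hcD, hcD']
    ring
  rw [(ct_eq hC hx (hD.add hD') (hf.add hf') (mul_ne_zero hc hc') h2).1]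
  unfold ct
  rw [← ordP_mul v h1.2.1 h1'.2.1, ← C.mul _ (le_of_eq h1.2.2.symm) _ (le_of_eq h1'.2.2.symm),
    mul_mul_mul_comm]

theorem ct_ord (hC : C.ν ∈ S.prm) (v : Plc) {f : L} (hf : f ≠ 0) {c : L} (hc : c ≠ 0)
    (hcf : C.ν.ord c = - C.ν.ord f) : ct S C v (fun ν => ν.ord f) c = ordP v (C.ψ (c * f)) :=
  (ct_eq hC (isCtr_ctr hC v) (isDiv_ord S.finDiv hf) (LocEqn.ord hf) hc hcf).1

/-- `ct` only depends on the values of the divisor on `S.prm`. -/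
theorem ct_congr (hC : C.ν ∈ S.prm) (v : Plc) {D D' : DVal L → ℤ} (hD : IsDiv S.prm D)
    (h : ∀ ν ∈ S.prm, D ν = D' ν) {c : L} (hc : c ≠ 0) (hcD : C.ν.ord c = - D C.ν) :
    ct S C v D c = ct S C v D' c := by
  have hx := isCtr_ctr hC v
  have hf := (leq_spec (hD.congr h) hx.pts).congr fun ν hν => (h ν hν).symm
  exact (ct_eq hC hx hD hf hc hcD).1

end

end Pool.Agent.LibK3
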