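import Pool.Agent.LibK3.N03

set_option autoImplicit false

open Pool.Agent.LibGMM Pool.Agent.LibK Pool.Agent.LibKB
open Pool.Agent.LibLB (PSurf RLR)
open Pool.Agent.LibCov80 (Over)

namespace Pool.Agent.LibK3

section

variable {L : Type} [Field L] [Algebra ℂ L] {S : PSurf L} {C : RC L}

/-- A nonzero rational function vanishes at finitely many places. -/
private theorem N04_fin {F : RatFunc ℂ} (hF : F ≠ 0) : {v : Plc | 0 < ordP v F}.Finite := by
  classical
  refine ((Set.finite_singleton (none : Plc)).union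
    ((F.num.roots.toFinset.finite_toSet).image (some : ℂ → Plc))).subset ?_
  intro v hv
  cases v with
  | none => exact Or.inl rfl
  | some c =>
    refine Or.inr ⟨c, ?_, rfl⟩
    have h1 : 0 < ordP (some c) F := hv
    have h2 : ordP (some c) F =
        ((F.num.rootMultiplicity c : ℕ) : ℤ) - (F.denom.rootMultiplicity c : ℕ) := rfl
    have h3 : 0 < F.num.rootMultiplicity c := by omega
    have hn : F.num ≠ 0 := RatFunc.num_ne_zero hF
    rw [Finset.mem_coe, Multiset.mem_toFinset, Polynomial.mem_roots hn]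
    exact (Polynomial.rootMultiplicity_pos hn).1 h3

/-- A prime different from `C` meets `C` at finitely many places. -/
theorem finite_meet (hC : C.ν ∈ S.prm) {T : DVal L} (hT : T ∈ S.prm) (h : T ≠ C.ν) :
    {v | ctr S C v ≤ T.ring}.Finite := by
  classical
  -- the divisors
  obtain ⟨k1, hk1⟩ := S.serre (- S.cls T)
  obtain ⟨k2, hk2⟩ := S.serre 0
  set k : ℕ := max k1 k2 with hk
  set A : DVal L → ℤ := S.rep S.A with hA
  have hAd : IsDiv S.prm A := S.isDiv_rep S.A
  have hAc : S.cl A = S.A := S.cl_rep S.A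
  have hD0 : IsDiv S.prm (fun ν => (k : ℤ) * A ν) := hAd.zsmul k
  have hc0 : S.cl (fun ν => (k : ℤ) * A ν) = (k : ℤ) • S.A := by
    change Pool.Agent.LibLB.clOf _ _ _ = _
    rw [Pool.Agent.LibLB.clOf_zsmul k hAd]
    change (k : ℤ) • S.cl A = _
    rw [hAc]
  have hD1 : IsDiv S.prm (fun ν => (k : ℤ) * A ν + - prd T ν) := hD0.add (isDiv_prd T).neg
  have hc1 : S.cl (fun ν => (k : ℤ) * A ν + - prd T ν) = (k : ℤ) • S.A + - S.cls T := by
    change Pool.Agent.LibLB.clOf _ _ _ = _
    rw [Pool.Agent.LibLB.clOf_add hD0 (isDiv_prd T).neg,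
      Pool.Agent.LibLB.clOf_neg (isDiv_prd T), Pool.Agent.LibLB.clOf_prd hT]
    change S.cl _ + _ = _
    rw [hc0]
  -- the section `f`
  obtain ⟨y, hy1, hy2⟩ := (S.infPts C.ν hC).nonempty
  obtain ⟨f, hf⟩ := (hk1 k (le_max_left _ _) _ hD1 (by
    change S.cl _ = _
    rw [hc1, natCast_zsmul])).2.2 y hy1
  have hgen := (hk2 k (le_max_right _ _) _ hD0 (by
    change S.cl _ = _
    rw [hc0, natCast_zsmul, add_zero])).2.2
  have hf0 : f ≠ 0 := hf.2.1
  have hfC : C.ν.ord f + (k : ℤ) * A C.ν = 0 := by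
    have h1 := hf.2.2 C.ν hC hy2
    simp only [prd_ne (Ne.symm h)] at h1
    omega
  have hfsec : f ∈ sec S.prm (fun ν => (k : ℤ) * A ν) := by
    intro ν hν _
    have h1 := hf.1 ν hν hf0
    have h2 := prd_nonneg T ν
    simp only at h1 ⊢
    omega
  have hfT : 1 ≤ T.ord f + (k : ℤ) * A T := by
    have h1 := hf.1 T hT hf0
    simp only [prd_self] at h1
    omega
  -- the sections of the generated divisor
  obtain ⟨t, ht⟩ : (sec S.prm (fun ν => (k : ℤ) * A ν)).FG := by
    have := S.finSec _ hD0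
    exact (Submodule.fg_top _).1 Module.Finite.fg_top
  set B : Set Plc := ⋃ s ∈ t.filter (fun s => C.ψ (f / s) ≠ 0), {v | 0 < ordP v (C.ψ (f / s))}
    with hB
  have hBfin : B.Finite := by
    rw [hB]
    refine Set.Finite.biUnion (Finset.finite_toSet _) ?_
    intro s hs
    exact N04_fin (Finset.mem_filter.1 hs).2
  refine hBfin.subset ?_
  intro v hv
  have hx := isCtr_ctr (S := S) hC v
  set x := ctr S C v with hxdef
  have hxT : x ≤ T.ring := hv
  have hpt := S.pt hx.pts
  obtain ⟨g, hg⟩ := hpt.exists_loc hD0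
  have hgC : C.ν.ord g = (k : ℤ) * A C.ν := hg.2 C.ν hC hx.le
  -- the germ of `f`
  have hfg : f * g ∈ x := hpt.germ_mem hg hfsec
  have hfg0 : f * g ≠ 0 := mul_ne_zero hf0 hg.1
  have hfgC : C.ν.ord (f * g) = 0 := by
    rw [C.ν.ord_mul _ _ hf0 hg.1, hgC]
    exact hfC
  have hψfg : C.ψ (f * g) ≠ 0 := (psi_ne_iff hfg0 (hx.le hfg)).2 hfgC
  have hfgT : 1 ≤ T.ord (f * g) := by
    rw [T.ord_mul _ _ hf0 hg.1, hg.2 T hT hxT]
    exact hfT
  have hfginv : (f * g)⁻¹ ∉ x := by
    intro hc
    have h1 : 0 ≤ T.ord (f * g)⁻¹ := hxT hc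
    rw [ord_inv T hfg0] at h1
    omega
  have hfgpos : 0 < ordP v (C.ψ (f * g)) := (hx.pos _ hfg hfginv).resolve_left hψfg
  -- a section in `t` which generates
  obtain ⟨s0, hs0⟩ := hgen x hx.pts
  have hex : ∃ s ∈ t, s * g ∈ x ∧ C.ψ (s * g) ≠ 0 ∧ ordP v (C.ψ (s * g)) = 0 := by
    by_contra hcon
    push Not at hcon
    have hQ : ∀ s ∈ Submodule.span ℂ (t : Set L), s * g ∈ x ∧
        (C.ψ (s * g) = 0 ∨ 0 < ordP v (C.ψ (s * g))) := by
      intro s hs
      induction hs using Submodule.span_induction with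
      | mem s hs =>
        have hssec : s ∈ sec S.prm (fun ν => (k : ℤ) * A ν) := by
          rw [← ht]
          exact Submodule.subset_span hs
        have h1 := hpt.germ_mem hg hssec
        refine ⟨h1, ?_⟩
        by_cases h2 : C.ψ (s * g) = 0
        · exact Or.inl h2
        · have h3 := hcon s hs h1 h2
          have h4 := hx.nonneg _ h1
          exact Or.inr (lt_of_le_of_ne h4 (Ne.symm h3))
      | zero =>
        refine ⟨by rw [zero_mul]; exact x.zero_mem, Or.inl ?_⟩
        rw [zero_mul]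
        exact psi_zero
      | add s s' _ _ h1 h2 =>
        have hadd : C.ψ ((s + s') * g) = C.ψ (s * g) + C.ψ (s' * g) := by
          rw [add_mul]
          exact C.add _ (hx.le h1.1) _ (hx.le h2.1)
        refine ⟨by rw [add_mul]; exact x.add_mem h1.1 h2.1, ?_⟩
        rw [hadd]
        rcases h1.2 with h3 | h3 <;> rcases h2.2 with h4 | h4
        · left
          rw [h3, h4, add_zero]
        · right
          rw [h3, zero_add]
          exact h4
        · right
          rw [h4, add_zero]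
          exact h3
        · by_cases h5 : C.ψ (s * g) + C.ψ (s' * g) = 0
          · exact Or.inl h5
          · right
            have hne : ∀ F : RatFunc ℂ, 0 < ordP v F → F ≠ 0 := by
              intro F hF hF0
              rw [hF0, ordP_zero] at hF
              exact lt_irrefl _ hF
            exact lt_of_lt_of_le (lt_min h3 h4) (ordP_add v (hne _ h3) (hne _ h4) h5)
      | smul c s _ h1 =>
        have hc : c • s * g = algebraMap ℂ L c * (s * g) := by
          rw [Algebra.smul_def, mul_assoc]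
        have hcmem : algebraMap ℂ L c ∈ C.ν.ring := C.ν.ring.algebraMap_mem c
        have hmul : C.ψ (c • s * g) = RatFunc.C c * C.ψ (s * g) := by
          rw [hc, C.mul _ hcmem _ (hx.le h1.1), C.const]
        refine ⟨by rw [hc]; exact x.mul_mem (x.algebraMap_mem c) h1.1, ?_⟩
        rw [hmul]
        by_cases hc0 : c = 0
        · left
          rw [hc0, map_zero, zero_mul]
        · rcases h1.2 with h3 | h3
          · left
            rw [h3, mul_zero]
          · by_cases h5 : C.ψ (s * g) = 0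
            · left
              rw [h5, mul_zero]
            · right
              have hCc : (RatFunc.C c : RatFunc ℂ) ≠ 0 := by
                intro h6
                exact hc0 ((map_eq_zero_iff _ RatFunc.C_injective).1 h6)
              rw [ordP_mul v hCc h5, ordP_C, zero_add]
              exact h3
    have h1 := hQ s0 (by rw [ht]; exact hs0.1)
    have hs0g : s0 * g ≠ 0 := mul_ne_zero hs0.2.1 hg.1
    have hinv : (s0 * g)⁻¹ ∈ x := by
      rw [hpt.mem_iff]
      intro ν hν hxν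
      rw [ord_inv ν hs0g, ν.ord_mul _ _ hs0.2.1 hg.1, hg.2 ν hν hxν, hs0.2.2 ν hν hxν, neg_zero]
    have h2 := ordP_unit hC hx h1.1 hs0g hinv
    rcases h1.2 with h3 | h3
    · exact h2.1 h3
    · rw [h2.2] at h3
      exact lt_irrefl _ h3
  obtain ⟨s, hst, hsx, hψs, hsord⟩ := hex
  have hsg0 : s * g ≠ 0 := by
    intro h1
    rw [h1] at hψs
    exact hψs psi_zero
  have hs0' : s ≠ 0 := left_ne_zero_of_mul hsg0
  have hinv := psi_inv (C := C) (hx.le hsx) hψs
  have hquot : f / s = (f * g) * (s * g)⁻¹ := by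
    field_simp [hs0', hg.1]
  have hψq : C.ψ (f / s) = C.ψ (f * g) * (C.ψ (s * g))⁻¹ := by
    rw [hquot, C.mul _ (hx.le hfg) _ hinv.1, hinv.2]
  have hψinv0 : (C.ψ (s * g))⁻¹ ≠ 0 := inv_ne_zero hψs
  have hordinv : ordP v (C.ψ (s * g))⁻¹ = 0 := by
    have h1 := ordP_mul v hψs hψinv0
    have h2 : ordP v (1 : RatFunc ℂ) = 0 := by
      have := ordP_C v 1
      rwa [map_one] at this
    rw [mul_inv_cancel₀ hψs, h2, hsord] at h1
    omega
  have hmem : s ∈ t.filter (fun s => C.ψ (f / s) ≠ 0) := by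
    rw [Finset.mem_filter]
    refine ⟨hst, ?_⟩
    rw [hψq]
    exact mul_ne_zero hψfg hψinv0
  rw [hB]
  simp only [Set.mem_iUnion]
  refine ⟨s, hmem, ?_⟩
  show 0 < ordP v (C.ψ (f / s))
  rw [hψq, ordP_mul v hψfg hψinv0, hordinv, add_zero]
  exact hfgpos

private theorem N04_leq (hC : C.ν ∈ S.prm) (T : DVal L) (v : Plc) :
    LocEqn S.prm (ctr S C v) (prd T) (leq S (prd T) (ctr S C v)) ∧
      leq S (prd T) (ctr S C v) ∈ ctr S C v := by
  have hx := isCtr_ctr (S := S) hC v
  have h1 := leq_spec (isDiv_prd (P := S.prm) T) hx.pts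
  refine ⟨h1, ?_⟩
  rw [(S.pt hx.pts).mem_iff]
  intro ν hν hxν
  rw [h1.2 ν hν hxν]
  exact prd_nonneg T ν

theorem kap_nonneg (hC : C.ν ∈ S.prm) {T : DVal L} (hT : T ∈ S.prm) (h : T ≠ C.ν) (v : Plc) :
    0 ≤ kap S C v T := by
  have hx := isCtr_ctr (S := S) hC v
  have h1 := N04_leq hC T v
  unfold kap ct
  rw [one_mul]
  exact hx.nonneg _ h1.2

theorem kap_pos_iff (hC : C.ν ∈ S.prm) {T : DVal L} (hT : T ∈ S.prm) (h : T ≠ C.ν) (v : Plc) :
    0 < kap S C v T ↔ ctr S C v ≤ T.ring := by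
  have hx := isCtr_ctr (S := S) hC v
  have h1 := N04_leq hC T v
  unfold kap ct
  rw [one_mul]
  constructor
  · intro h2
    by_contra h3
    have hinv : (leq S (prd T) (ctr S C v))⁻¹ ∈ ctr S C v := by
      rw [(S.pt hx.pts).mem_iff]
      intro ν hν hxν
      rw [ord_inv ν h1.1.1, h1.1.2 ν hν hxν]
      have hne : ν ≠ T := by
        rintro rfl
        exact h3 hxν
      rw [prd_ne hne, neg_zero]
    have h4 := ordP_unit hC hx h1.2 h1.1.1 hinv
    rw [h4.2] at h2
    exact lt_irrefl _ h2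
  · intro h2
    have hψ : C.ψ (leq S (prd T) (ctr S C v)) ≠ 0 := by
      rw [psi_ne_iff h1.1.1 (hx.le h1.2), h1.1.2 C.ν hC hx.le, prd_ne (Ne.symm h)]
    have hinv : (leq S (prd T) (ctr S C v))⁻¹ ∉ ctr S C v := by
      intro h3
      have h4 : 0 ≤ T.ord (leq S (prd T) (ctr S C v))⁻¹ := h2 h3
      rw [ord_inv T h1.1.1, h1.1.2 T hT h2, prd_self] at h4
      omega
    exact (hx.pos _ h1.2 hinv).resolve_left hψ

end

end Pool.Agent.LibK3
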