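import Pool.Agent.LibK3.N04

set_option autoImplicit false

open Pool.Agent.LibGMM Pool.Agent.LibK Pool.Agent.LibKB
open Pool.Agent.LibLB (PSurf RLR)
open Pool.Agent.LibCov80 (Over)

namespace Pool.Agent.LibK3

section

variable {L : Type} [Field L] [Algebra ℂ L] {S : PSurf L} {C : RC L}


/-- divisors without the curve -/
private def N05_G (S : PSurf L) (C : RC L) : AddSubgroup (DVal L → ℤ) where
  carrier := {D | IsDiv S.prm D ∧ D C.ν = 0}
  zero_mem' := ⟨isDiv_zero, rfl⟩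
  add_mem' := by
    rintro D D' ⟨h1, h2⟩ ⟨h3, h4⟩
    refine ⟨h1.add h3, ?_⟩
    show D C.ν + D' C.ν = 0
    rw [h2, h4, add_zero]
  neg_mem' := by
    rintro D ⟨h1, h2⟩
    refine ⟨h1.neg, ?_⟩
    show - D C.ν = 0
    rw [h2, neg_zero]

private theorem N05_add (hC : C.ν ∈ S.prm) (v : Plc) (D D' : N05_G S C) :
    ct S C v (D + D').1 1 = ct S C v D.1 1 + ct S C v D'.1 1 := by
  have h1 : C.ν.ord (1 : L) = - D.1 C.ν := by
    rw [ord_one, D.2.2, neg_zero]
  have h2 : C.ν.ord (1 : L) = - D'.1 C.ν := by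
    rw [ord_one, D'.2.2, neg_zero]
  have h3 := ct_add hC v D.2.1 D'.2.1 one_ne_zero one_ne_zero h1 h2
  rw [one_mul] at h3
  exact h3

private noncomputable def N05_Φ (hC : C.ν ∈ S.prm) (v : Plc) : N05_G S C →+ ℤ :=
  AddMonoidHom.mk' (fun D => ct S C v D.1 1) (N05_add hC v)

private theorem N05_prd (C : RC L) {T : DVal L} (h : T ≠ C.ν) : prd T C.ν = 0 := by
  classical
  unfold prd
  rw [if_neg (Ne.symm h)]

/-- `ct` in terms of the contacts.
PLAN. Induction on the finite support of `D` (on `S.prm`), with `ct_add`, `ct_congr`; or directly: at `x = ctr S C v` the product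
`∏_T (leq (prd T) x)^(D T)` is a local equation of `D`. For `T = C.ν` the coefficient is `0`. -/
theorem ct_eq_sum (hC : C.ν ∈ S.prm) (v : Plc) {D : DVal L → ℤ} (hD : IsDiv S.prm D)
    (h0 : D C.ν = 0) : ct S C v D 1 = ∑ᶠ T ∈ S.prm, D T * kap S C v T := by
  classical
  set s := hD.toFinset with hs
  have hmem : ∀ T, T ∈ s ↔ T ∈ S.prm ∧ D T ≠ 0 := fun T => by
    rw [hs, Set.Finite.mem_toFinset]
    rfl
  have hne : ∀ T ∈ s, T ≠ C.ν := by
    intro T hT h1
    rw [h1] at hT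
    exact ((hmem _).1 hT).2 h0
  let P : DVal L → N05_G S C := fun T =>
    if h : T ≠ C.ν then ⟨prd T, isDiv_prd T, N05_prd C h⟩ else 0
  have hP : ∀ T ∈ s, (P T).1 = prd T := fun T hT => by
    show (if h : T ≠ C.ν then (⟨prd T, isDiv_prd T, N05_prd C h⟩ : N05_G S C) else 0).1 = _
    rw [dif_pos (hne T hT)]
  have h1 : ∀ ν ∈ S.prm, D ν = (∑ T ∈ s, D T • P T : N05_G S C).1 ν := by
    intro ν hν
    have e1 : (∑ T ∈ s, D T • P T : N05_G S C).1 = ∑ T ∈ s, D T • prd T := by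
      rw [AddSubgroup.val_finset_sum]
      refine Finset.sum_congr rfl fun T hT => ?_
      rw [← hP T hT]
      rfl
    rw [e1, Finset.sum_apply]
    have e2 : ∀ T ∈ s, (D T • prd T) ν = if T = ν then D ν else 0 := by
      intro T _
      show D T * prd T ν = _
      unfold prd
      by_cases h2 : T = ν
      · subst h2
        simp
      · rw [if_neg (Ne.symm h2), if_neg h2, mul_zero]
    rw [Finset.sum_congr rfl e2, Finset.sum_ite_eq']
    by_cases h3 : ν ∈ s
    · rw [if_pos h3]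
    · rw [if_neg h3]
      by_contra h4
      exact h3 ((hmem ν).2 ⟨hν, h4⟩)
  have h2 : C.ν.ord (1 : L) = - D C.ν := by rw [ord_one, h0, neg_zero]
  rw [ct_congr hC v hD h1 one_ne_zero h2]
  have h3 : ct S C v (∑ T ∈ s, D T • P T : N05_G S C).1 1 =
      N05_Φ hC v (∑ T ∈ s, D T • P T) := rfl
  rw [h3, map_sum]
  have h4 : ∀ T ∈ s, N05_Φ hC v (D T • P T) = D T * kap S C v T := by
    intro T hT
    rw [map_zsmul, smul_eq_mul]
    have h5 : N05_Φ hC v (P T) = ct S C v (P T).1 1 := rfl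
    rw [h5, hP T hT]
    rfl
  rw [Finset.sum_congr rfl h4]
  refine (finsum_mem_eq_sum_of_inter_support_eq _ ?_).symm
  ext T
  simp only [Set.mem_inter_iff, Function.mem_support, Finset.mem_coe, hmem]
  constructor
  · rintro ⟨h5, h6⟩
    exact ⟨⟨h5, left_ne_zero_of_mul h6⟩, h6⟩
  · rintro ⟨⟨h5, _⟩, h6⟩
    exact ⟨h5, h6⟩

/-- PLAN. `ct v D c = ct v (D + div c) 1` (`ct_add`, `ct_ord`), and `(D + div c) C.ν = 0`; `ct_eq_sum`, `finite_meet`,
`kap_pos_iff`. -/
theorem ct_finite (hC : C.ν ∈ S.prm) {D : DVal L → ℤ} (hD : IsDiv S.prm D) {c : L} (hc : c ≠ 0)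
    (hcD : C.ν.ord c = - D C.ν) : {v | ct S C v D c ≠ 0}.Finite := by
  have hord : IsDiv S.prm (fun ν => ν.ord c) := isDiv_ord S.finDiv hc
  have hD' : IsDiv S.prm (fun ν => D ν + ν.ord c) := hD.add hord
  have h0 : D C.ν + C.ν.ord c = 0 := by
    rw [hcD]
    ring
  have hc' : c⁻¹ ≠ 0 := inv_ne_zero hc
  have hone : ∀ v : Plc, ordP v (1 : RatFunc ℂ) = 0 := by
    intro v
    obtain ⟨P, hP⟩ := exists_pl v
    rw [← hP, ord_one]
  have h1 : ∀ v, ct S C v D c = ∑ᶠ T ∈ S.prm, (D T + T.ord c) * kap S C v T := by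
    intro v
    have h2 := ct_add hC v hD hord hc hc' hcD (ord_inv _ hc)
    have h3 := ct_ord hC v (f := c) hc hc' (ord_inv _ hc)
    rw [mul_inv_cancel₀ hc] at h2
    rw [inv_mul_cancel₀ hc, psi_one, hone] at h3
    rw [h3, add_zero] at h2
    rw [← h2]
    exact ct_eq_sum hC v hD' h0
  refine (hD'.biUnion (t := fun T => {v | T ≠ C.ν ∧ ctr S C v ≤ T.ring}) ?_).subset ?_
  · rintro T ⟨hT, _⟩
    by_cases h2 : T = C.ν
    · refine Set.Finite.subset Set.finite_empty ?_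
      rintro v ⟨h3, _⟩
      exact absurd h2 h3
    · exact (finite_meet hC hT h2).subset fun v hv => hv.2
  · intro v hv
    change ct S C v D c ≠ 0 at hv
    rw [h1 v] at hv
    obtain ⟨T, hT⟩ := exists_ne_zero_of_finsum_mem_ne_zero hv
    refine Set.mem_biUnion (x := T) ⟨hT.1, left_ne_zero_of_mul hT.2⟩ ?_
    have h2 : T ≠ C.ν := by
      intro h3
      apply hT.2
      rw [h3, h0, zero_mul]
    refine ⟨h2, (kap_pos_iff hC hT.1 h2 v).1 ?_⟩
    exact lt_of_le_of_ne (kap_nonneg hC hT.1 h2 v) (right_ne_zero_of_mul hT.2).symm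

end

end Pool.Agent.LibK3
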