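import Pool.Agent.LibK3.NP1

set_option autoImplicit false

open Pool.Agent.LibGMM Pool.Agent.LibK Pool.Agent.LibKB
open Pool.Agent.LibLB (PSurf RLR)
open Pool.Agent.LibCov80 (Over)

namespace Pool.Agent.LibK3

theorem NP2_some (f : RatFunc ℂ) (c : ℂ) :
    ordP (some c) f = (f.num.roots.count c : ℤ) - f.denom.roots.count c := by
  rw [Polynomial.count_roots, Polynomial.count_roots]
  rfl

theorem NP2_none (f : RatFunc ℂ) :
    ordP none f = (f.denom.natDegree : ℤ) - f.num.natDegree := by
  show - f.intDegree = _
  rw [RatFunc.intDegree]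
  ring

/-- The product formula.
PLAN. `f = p / q`, polynomials over `ℂ`: for `v = some c` the order is `rootMultiplicity c p -
rootMultiplicity c q`, zero outside the roots; `∑ rootMultiplicity = card roots = natDegree`
(`IsAlgClosed.card_roots_eq_natDegree` / `IsAlgClosed.splits`), `Multiset` count: `Polynomial.count_roots`,
`Multiset.toFinset_sum_count_eq`. Write the finsum over `Option ℂ` as the term `none` plus the finsum over `ℂ`
(`finsum_eq_sum_of_support_subset` with the finset `insert none (image some (roots p ∪ roots q))`). -/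
theorem sum_ordP {f : RatFunc ℂ} (hf : f ≠ 0) :
    {v | ordP v f ≠ 0}.Finite ∧ ∑ᶠ v, ordP v f = 0 := by
  classical
  set S : Finset ℂ := f.num.roots.toFinset ∪ f.denom.roots.toFinset with hS
  set T : Finset Plc := insert none (S.image some) with hT
  have hsub : ∀ v, ordP v f ≠ 0 → v ∈ T := by
    intro v hv
    rw [hT, Finset.mem_insert]
    cases v with
    | none => exact Or.inl rfl
    | some c =>
      right
      rw [Finset.mem_image]
      refine ⟨c, ?_, rfl⟩
      by_contra hc
      rw [hS, Finset.mem_union, Multiset.mem_toFinset, Multiset.mem_toFinset] at hc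
      push Not at hc
      apply hv
      rw [NP2_some, Multiset.count_eq_zero_of_notMem hc.1, Multiset.count_eq_zero_of_notMem hc.2]
      simp
  refine ⟨T.finite_toSet.subset fun v hv => hsub v hv, ?_⟩
  have hsup : Function.support (fun v => ordP v f) ⊆ (T : Set Plc) := fun v hv => hsub v hv
  rw [finsum_eq_sum_of_support_subset _ hsup, hT, Finset.sum_insert (by simp),
    Finset.sum_image (fun a _ b _ h => Option.some_injective _ h)]
  have h1 : ∀ p : Polynomial ℂ, (∀ c ∈ p.roots, c ∈ S) →
      ∑ c ∈ S, (p.roots.count c : ℤ) = p.natDegree := by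
    intro p hp
    have h2 := Multiset.sum_count_eq_card hp
    rw [IsAlgClosed.card_roots_eq_natDegree] at h2
    rw [← h2]
    push_cast
    rfl
  simp only [NP2_some, NP2_none, Finset.sum_sub_distrib]
  rw [h1 f.num (fun c hc => Finset.mem_union_left _ (Multiset.mem_toFinset.2 hc)),
    h1 f.denom (fun c hc => Finset.mem_union_right _ (Multiset.mem_toFinset.2 hc))]
  ring

/-- A function without poles at the finite places is a polynomial. -/
theorem NP2_poly {f : RatFunc ℂ} (h : ∀ c, 0 ≤ ordP (some c) f) :
    f = algebraMap (Polynomial ℂ) (RatFunc ℂ) f.num := by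
  have h1 : f.denom = 1 := by
    by_contra hne
    have hdeg : f.denom.degree ≠ 0 := by
      intro h0
      apply hne
      have h2 := Polynomial.eq_C_of_degree_eq_zero h0
      have h3 := (RatFunc.monic_denom f)
      rw [h2] at h3 ⊢
      have h4 : f.denom.coeff 0 = 1 := by
        have h5 := h3.leadingCoeff
        rwa [Polynomial.leadingCoeff_C] at h5
      rw [h4, Polynomial.C_1]
    obtain ⟨c, hc⟩ := IsAlgClosed.exists_root f.denom hdeg
    have h2 : 0 < f.denom.roots.count c := by
      rw [Multiset.count_pos, Polynomial.mem_roots (RatFunc.denom_ne_zero f)]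
      exact hc
    have h3 : f.num.roots.count c = 0 := by
      apply Multiset.count_eq_zero_of_notMem
      intro h4
      have h5 : f.num.IsRoot c := Polynomial.isRoot_of_mem_roots h4
      have h6 := RatFunc.isCoprime_num_denom f
      obtain ⟨a, b, hab⟩ := h6
      have h7 := congrArg (Polynomial.eval c) hab
      rw [Polynomial.eval_add, Polynomial.eval_mul, Polynomial.eval_mul, h5.eq_zero, hc.eq_zero] at h7
      simp at h7
    have h4 := h c
    rw [NP2_some, h3] at h4
    push_cast at h4
    omega
  conv_lhs => rw [← RatFunc.num_div_denom f]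
  rw [h1, map_one, div_one]

/-- A function without poles is constant.
PLAN. `f = num / denom`: if `denom` has a root `c` then (coprime) the order at `c` is negative; so `denom` is
constant (`IsAlgClosed`), `f` is a polynomial and the order at infinity gives degree `0`. -/
theorem const_of_nonneg {f : RatFunc ℂ} (h : ∀ v, 0 ≤ ordP v f) : ∃ c, f = RatFunc.C c := by
  have h1 := NP2_poly fun c => h (some c)
  have h2 := h none
  rw [h1] at h2
  have h3 : ordP none (algebraMap (Polynomial ℂ) (RatFunc ℂ) f.num) = -(f.num.natDegree : ℤ) := by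
    show - RatFunc.intDegree _ = _
    rw [RatFunc.intDegree_polynomial]
  rw [h3] at h2
  have h4 : f.num.natDegree = 0 := by omega
  refine ⟨f.num.coeff 0, ?_⟩
  rw [← RatFunc.algebraMap_C, ← Polynomial.eq_C_of_natDegree_eq_zero h4]
  exact h1

end Pool.Agent.LibK3
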