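import Pool.Agent.LibK3.N05
import Pool.Agent.LibK3.NP2

set_option autoImplicit false

open Pool.Agent.LibGMM Pool.Agent.LibK Pool.Agent.LibKB
open Pool.Agent.LibLB (PSurf RLR)
open Pool.Agent.LibCov80 (Over)

namespace Pool.Agent.LibK3

section

variable {L : Type} [Field L] [Algebra ℂ L] {S : PSurf L} {C : RC L}


/-- The degree only depends on the class. -/
private theorem N06_key (hC : C.ν ∈ S.prm) {D D' : DVal L → ℤ} (hD : IsDiv S.prm D)
    (hD' : IsDiv S.prm D') {c c' : L} (hc : c ≠ 0) (hc' : c' ≠ 0) (hcD : C.ν.ord c = - D C.ν)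
    (hcD' : C.ν.ord c' = - D' C.ν) (h : S.cl D' = S.cl D) :
    ∑ᶠ v, ct S C v D' c' = ∑ᶠ v, ct S C v D c := by
  obtain ⟨g, hg, h1⟩ := LibLB.PSurf.exists_lin hD hD' h
  have hd : c' / c ≠ 0 := div_ne_zero hc' hc
  have hdg : c' / c * g ≠ 0 := mul_ne_zero hd hg
  have hord : C.ν.ord (c' / c) = - C.ν.ord g := by
    rw [C.ν.ord_div hc' hc, hcD, hcD', h1 _ hC]
    ring
  have hordg : C.ν.ord (c' / c * g) = 0 := by
    rw [C.ν.ord_mul _ _ hd hg, hord]
    ring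
  have hψ : C.ψ (c' / c * g) ≠ 0 :=
    (psi_ne_iff hdg (mem_ring.2 hordg.ge)).2 hordg
  have hgD : IsDiv S.prm (fun ν => ν.ord g) := isDiv_ord S.finDiv hg
  have h2 : ∀ v, ct S C v D' c' = ct S C v D c + ordP v (C.ψ (c' / c * g)) := by
    intro v
    rw [ct_congr hC v hD' h1 hc' hcD', ← ct_ord hC v hg hd hord, ← ct_add hC v hD hgD hc hd hcD hord,
      mul_div_cancel₀ c' hc]
  rw [finsum_congr h2, finsum_add_distrib (ct_finite hC hD hc hcD) (sum_ordP hψ).1,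
    (sum_ordP hψ).2, add_zero]

/-- The degree is well defined, additive and zero on principal divisors.
PLAN. For a divisor `D` choose `c_D := t ^ (- D C.ν)` (`t` a uniformiser of `C.ν`) and put `dg0 D := ∑ᶠ v, ct S C v D c_D`.
(i) independence of `c`: `ct v D c = ct v D c' + ordP v (C.ψ (c / c'))` and `sum_ordP`; (ii) additive in `D` (`ct_add`,
`finsum_add_distrib`, `ct_finite`); (iii) zero for `D = div f` (`ct_ord` and `sum_ordP`); (iv) depends only on the class: if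
`S.cl D = S.cl D'` then `D' = D + div f` on `S.prm` (`PSurf.exists_lin`), `ct_congr`. Then `dg α := dg0 (S.rep α)`. -/
theorem exists_degH (hC : C.ν ∈ S.prm) : ∃ dg : S.Λ →+ ℤ, ∀ (D : DVal L → ℤ), IsDiv S.prm D →
    ∀ c : L, c ≠ 0 → C.ν.ord c = - D C.ν → ∑ᶠ v, ct S C v D c = dg (S.cl D) := by
  obtain ⟨t, ht⟩ := C.ν.exists_ord_one
  have ht0 : t ≠ 0 := by
    rintro rfl
    rw [C.ν.ord_zero] at ht
    exact absurd ht (by norm_num)
  have hc : ∀ n : ℤ, t ^ (-n) ≠ 0 := fun n => zpow_ne_zero _ ht0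
  have hcD : ∀ n : ℤ, C.ν.ord (t ^ (-n)) = - n := by
    intro n
    rw [C.ν.ord_zpow, ht, mul_one]
  refine ⟨AddMonoidHom.mk' (fun α => ∑ᶠ v, ct S C v (S.rep α) (t ^ (-(S.rep α C.ν)))) ?_, ?_⟩
  · intro α β
    have h1 := S.isDiv_rep α
    have h2 := S.isDiv_rep β
    have h3 : S.cl (S.rep (α + β)) = S.cl (fun ν => S.rep α ν + S.rep β ν) := by
      rw [S.cl_rep]
      show _ = LibLB.clOf S.prm S.cls (fun ν => S.rep α ν + S.rep β ν)
      rw [LibLB.clOf_add h1 h2]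
      show _ = S.cl (S.rep α) + S.cl (S.rep β)
      rw [S.cl_rep, S.cl_rep]
    show (∑ᶠ v, ct S C v (S.rep (α + β)) (t ^ (-(S.rep (α + β) C.ν)))) =
      (∑ᶠ v, ct S C v (S.rep α) (t ^ (-(S.rep α C.ν)))) +
      ∑ᶠ v, ct S C v (S.rep β) (t ^ (-(S.rep β C.ν)))
    rw [N06_key hC (h1.add h2) (S.isDiv_rep _)
      (c := t ^ (-(S.rep α C.ν)) * t ^ (-(S.rep β C.ν))) (mul_ne_zero (hc _) (hc _)) (hc _) (by
        rw [C.ν.ord_mul _ _ (hc _) (hc _), hcD, hcD]
        ring) (hcD _) h3,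
      ← finsum_add_distrib (ct_finite hC h1 (hc _) (hcD _)) (ct_finite hC h2 (hc _) (hcD _))]
    exact finsum_congr fun v => ct_add hC v h1 h2 (hc _) (hc _) (hcD _) (hcD _)
  · intro D hD c hc0 hc1
    exact N06_key hC (S.isDiv_rep _) hD (hc _) hc0 (hcD _) hc1 (S.cl_rep _).symm

end

end Pool.Agent.LibK3
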