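import Pool.Agent.LibK3.NP2

set_option autoImplicit false

open Pool.Agent.LibGMM Pool.Agent.LibK Pool.Agent.LibKB
open Pool.Agent.LibLB (PSurf RLR)
open Pool.Agent.LibCov80 (Over)

namespace Pool.Agent.LibK3

/-- A function without poles at the finite places is a polynomial. -/
theorem NP3_poly {f : RatFunc ℂ} (h : ∀ c, 0 ≤ ordP (some c) f) :
    f = algebraMap (Polynomial ℂ) (RatFunc ℂ) f.num := by
  have h1 : f.denom = 1 := by
    by_contra hne
    have hdeg : f.denom.degree ≠ 0 := by
      intro h0
      apply hne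
      have h2 := Polynomial.eq_C_of_degree_eq_zero h0
      have h3 := (RatFunc.monic_denom f)
      rw [h2] at h3 ⊢
      have h4 : f.denom.coeff 0 = 1 := by
        have h5 := h3.leadingCoeff
        rwa [Polynomial.leadingCoeff_C] at h5
      rw [h4, Polynomial.C_1]
    obtain ⟨c, hc⟩ := IsAlgClosed.exists_root f.denom hdeg
    have h2 : 0 < f.denom.roots.count c := by
      rw [Multiset.count_pos, Polynomial.mem_roots (RatFunc.denom_ne_zero f)]
      exact hc
    have h3 : f.num.roots.count c = 0 := by
      apply Multiset.count_eq_zero_of_notMem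
      intro h4
      have h5 : f.num.IsRoot c := Polynomial.isRoot_of_mem_roots h4
      have h6 := RatFunc.isCoprime_num_denom f
      obtain ⟨a, b, hab⟩ := h6
      have h7 := congrArg (Polynomial.eval c) hab
      rw [Polynomial.eval_add, Polynomial.eval_mul, Polynomial.eval_mul, h5.eq_zero, hc.eq_zero] at h7
      simp at h7
    have h4 := h c
    have h8 : ordP (some c) f = (f.num.roots.count c : ℤ) - f.denom.roots.count c := by
      rw [Polynomial.count_roots, Polynomial.count_roots]
      rfl
    rw [h8, h3] at h4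
    push_cast at h4
    omega
  conv_lhs => rw [← RatFunc.num_div_denom f]
  rw [h1, map_one, div_one]

theorem NP3_none (p : Polynomial ℂ) :
    ordP none (algebraMap (Polynomial ℂ) (RatFunc ℂ) p) = -(p.natDegree : ℤ) := by
  show - RatFunc.intDegree _ = _
  rw [RatFunc.intDegree_polynomial]

theorem NP3_one (v : Plc) : ordP v 1 = 0 := by
  have := ordP_C v 1
  rwa [map_one] at this

theorem NP3_inv (v : Plc) {f : RatFunc ℂ} (hf : f ≠ 0) : ordP v f⁻¹ = - ordP v f := by
  have h := ordP_mul v hf (inv_ne_zero hf)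
  rw [mul_inv_cancel₀ hf, NP3_one] at h
  omega

theorem NP3_pow (v : Plc) {f : RatFunc ℂ} (hf : f ≠ 0) (n : ℕ) : ordP v (f ^ n) = n * ordP v f := by
  induction n with
  | zero => rw [pow_zero, NP3_one]; simp
  | succ n ih =>
    rw [pow_succ, ordP_mul v (pow_ne_zero _ hf) hf, ih]
    push_cast
    ring

theorem NP3_zpow (v : Plc) {f : RatFunc ℂ} (hf : f ≠ 0) (n : ℤ) : ordP v (f ^ n) = n * ordP v f := by
  cases n with
  | ofNat n =>
    have : f ^ (Int.ofNat n) = f ^ n := zpow_natCast f n
    rw [this, NP3_pow v hf]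
    rfl
  | negSucc n =>
    rw [zpow_negSucc, NP3_inv v (pow_ne_zero _ hf), NP3_pow v hf, Int.negSucc_eq]
    push_cast
    ring

theorem NP3_prod (v : Plc) (S : Finset ℂ) (g : ℂ → RatFunc ℂ) (hg : ∀ c, g c ≠ 0) :
    ordP v (∏ c ∈ S, g c) = ∑ c ∈ S, ordP v (g c) := by
  classical
  induction S using Finset.induction_on with
  | empty => rw [Finset.prod_empty, Finset.sum_empty, NP3_one]
  | insert a s ha ih =>
    rw [Finset.prod_insert ha, Finset.sum_insert ha,
      ordP_mul v (hg a) (Finset.prod_ne_zero_iff.2 fun c _ => hg c), ih]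

/-- the linear function -/
noncomputable def NP3_lin (c : ℂ) : RatFunc ℂ :=
  algebraMap (Polynomial ℂ) (RatFunc ℂ) (Polynomial.X - Polynomial.C c)

theorem NP3_lin_ne (c : ℂ) : NP3_lin c ≠ 0 := by
  intro h
  exact Polynomial.X_sub_C_ne_zero c (RatFunc.algebraMap_injective ℂ (by rw [map_zero]; exact h))

open Classical in
theorem NP3_lin_some (c c' : ℂ) : ordP (some c') (NP3_lin c) = if c' = c then 1 else 0 := by
  have h1 : ordP (some c') (NP3_lin c) = ((Polynomial.X - Polynomial.C c : Polynomial ℂ).rootMultiplicity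
      c' : ℤ) := by
    unfold NP3_lin
    show ((RatFunc.num _).rootMultiplicity c' : ℤ) - _ = _
    rw [RatFunc.num_algebraMap, RatFunc.denom_algebraMap]
    have : (1 : Polynomial ℂ).rootMultiplicity c' = 0 := by
      rw [← Polynomial.C_1]
      exact Polynomial.rootMultiplicity_C _ _
    rw [this]
    simp
  rw [h1, Polynomial.rootMultiplicity_X_sub_C]
  split_ifs <;> rfl

theorem NP3_lin_none (c : ℂ) : ordP none (NP3_lin c) = -1 := by
  unfold NP3_lin
  rw [NP3_none, Polynomial.natDegree_X_sub_C]
  rfl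

/-- `h⁰(ℙ¹, 𝒪(E)) ≤ max 0 (deg E + 1)`.
PLAN. Let `q := ∏ (X - c)^(E c)` (finite product over the finite support; integer exponents in `RatFunc ℂ`):
`ordP (some c) q = E (some c)`, `ordP none q = - ∑_c E (some c)`. The map `f ↦ f q` is injective and `f q` has
order `≥ 0` at all finite places, so it is a polynomial (`NP2.const_of_nonneg` method: the denominator has no root)
of degree `≤ E none + ∑_c E (some c) = deg E =: N`. If `N < 0` the image is `0`; otherwise it lies in
`Polynomial.degreeLT ℂ (N + 1)` (mapped to `RatFunc`), of dimension `N + 1`. -/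
theorem finrank_le (E : Plc → ℤ) (hE : {v | E v ≠ 0}.Finite) (V : Submodule ℂ (RatFunc ℂ))
    (hV : ∀ f ∈ V, f ≠ 0 → ∀ v, 0 ≤ ordP v f + E v) :
    Module.Finite ℂ V ∧ (Module.finrank ℂ V : ℤ) ≤ max 0 (∑ᶠ v, E v + 1) := by
  classical
  -- the finite part of the support
  set S : Finset ℂ := (hE.preimage (f := (some : ℂ → Plc))
    (fun a _ b _ h => Option.some_injective _ h)).toFinset with hS
  have hSmem : ∀ c, c ∈ S ↔ E (some c) ≠ 0 := by
    intro c
    rw [hS, Set.Finite.mem_toFinset]
    rfl
  have hsum : ∑ᶠ v, E v = E none + ∑ c ∈ S, E (some c) := by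
    have hsup : Function.support E ⊆ ((insert none (S.image some) : Finset Plc) : Set Plc) := by
      intro v hv
      rw [Finset.mem_coe, Finset.mem_insert]
      cases v with
      | none => exact Or.inl rfl
      | some c =>
        right
        exact Finset.mem_image.2 ⟨c, (hSmem c).2 hv, rfl⟩
    rw [finsum_eq_sum_of_support_subset _ hsup, Finset.sum_insert (by simp),
      Finset.sum_image (fun a _ b _ h => Option.some_injective _ h)]
  set N : ℤ := ∑ᶠ v, E v with hN
  -- the multiplier
  set q : RatFunc ℂ := ∏ c ∈ S, NP3_lin c ^ (E (some c)) with hq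
  have hg : ∀ c, NP3_lin c ^ (E (some c)) ≠ 0 := fun c => zpow_ne_zero _ (NP3_lin_ne c)
  have hq0 : q ≠ 0 := Finset.prod_ne_zero_iff.2 fun c _ => hg c
  have hq1 : ∀ c, ordP (some c) q = E (some c) := by
    intro c
    rw [hq, NP3_prod _ _ _ hg]
    have h1 : ∀ c' ∈ S, ordP (some c) (NP3_lin c' ^ (E (some c'))) =
        if c = c' then E (some c') else 0 := by
      intro c' _
      rw [NP3_zpow _ (NP3_lin_ne c'), NP3_lin_some]
      split_ifs <;> simp
    rw [Finset.sum_congr rfl h1, Finset.sum_ite_eq]
    split_ifs with h2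
    · rfl
    · rw [hSmem] at h2
      push Not at h2
      exact h2.symm
  have hq2 : ordP none q = - ∑ c ∈ S, E (some c) := by
    rw [hq, NP3_prod _ _ _ hg, ← Finset.sum_neg_distrib]
    refine Finset.sum_congr rfl fun c _ => ?_
    rw [NP3_zpow _ (NP3_lin_ne c), NP3_lin_none]
    ring
  -- the two maps
  set L : RatFunc ℂ →ₗ[ℂ] RatFunc ℂ := LinearMap.mulLeft ℂ q with hL
  have hLi : Function.Injective L := fun a b h => mul_left_cancel₀ hq0 h
  set M : Polynomial ℂ →ₗ[ℂ] RatFunc ℂ :=
    (Algebra.linearMap (Polynomial ℂ) (RatFunc ℂ)).restrictScalars ℂ with hM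
  have hMi : Function.Injective M := RatFunc.algebraMap_injective ℂ
  set n : ℕ := (N + 1).toNat with hn
  have hW1 : Module.finrank ℂ ((Polynomial.degreeLT ℂ n).map M) = n := by
    rw [← (Submodule.equivMapOfInjective M hMi (Polynomial.degreeLT ℂ n)).finrank_eq,
      (Polynomial.degreeLTEquiv ℂ n).finrank_eq, Module.finrank_fin_fun]
  have hW2 : Module.Finite ℂ ((Polynomial.degreeLT ℂ n).map M) := by
    have h1 : Module.Finite ℂ (Polynomial.degreeLT ℂ n) :=
      Module.Finite.equiv (Polynomial.degreeLTEquiv ℂ n).symm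
    exact Module.Finite.equiv (Submodule.equivMapOfInjective M hMi (Polynomial.degreeLT ℂ n))
  have hle : V.map L ≤ (Polynomial.degreeLT ℂ n).map M := by
    rintro z ⟨f, hf, rfl⟩
    by_cases hf0 : f = 0
    · rw [hf0, map_zero]
      exact Submodule.zero_mem _
    have h1 := hV f hf hf0
    have h2 : ∀ c, 0 ≤ ordP (some c) (q * f) := by
      intro c
      rw [ordP_mul _ hq0 hf0, hq1]
      have := h1 (some c)
      linarith
    have h3 := NP3_poly h2
    have h4 : ordP none (q * f) = -((q * f).num.natDegree : ℤ) := by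
      conv_lhs => rw [h3]
      exact NP3_none _
    rw [ordP_mul _ hq0 hf0, hq2] at h4
    have h5 := h1 none
    have h6 : ((q * f).num.natDegree : ℤ) ≤ N := by
      rw [hsum]
      linarith
    refine ⟨(q * f).num, ?_, ?_⟩
    · rw [SetLike.mem_coe, Polynomial.mem_degreeLT]
      refine lt_of_le_of_lt Polynomial.degree_le_natDegree ?_
      have h7 : (q * f).num.natDegree < n := by
        rw [hn]
        omega
      exact_mod_cast h7
    · exact h3.symm
  have hfin : Module.Finite ℂ (V.map L) := Submodule.finiteDimensional_of_le hle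
  have e := Submodule.equivMapOfInjective L hLi V
  refine ⟨Module.Finite.equiv e.symm, ?_⟩
  rw [e.finrank_eq]
  have h1 : Module.finrank ℂ (V.map L) ≤ n := by
    rw [← hW1]
    exact Submodule.finrank_mono hle
  have h2 : (Module.finrank ℂ (V.map L) : ℤ) ≤ n := by exact_mod_cast h1
  rw [hn] at h2
  omega

end Pool.Agent.LibK3
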