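import Pool.Agent.LibK3.N05
import Pool.Agent.LibK3.NP3

set_option autoImplicit false

open Pool.Agent.LibGMM Pool.Agent.LibK Pool.Agent.LibKB
open Pool.Agent.LibLB (PSurf RLR)
open Pool.Agent.LibCov80 (Over)

namespace Pool.Agent.LibK3

section

variable {L : Type} [Field L] [Algebra ℂ L] {S : PSurf L} {C : RC L}


private theorem N07_mem (hC : C.ν ∈ S.prm) {D : DVal L → ℤ} {c : L} (hc : c ≠ 0)
    (hcD : C.ν.ord c = - D C.ν) {s : L} (hs : s ∈ sec S.prm D) : s / c ∈ C.ν.ring := by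
  rw [mem_ring]
  by_cases h0 : s = 0
  · rw [h0, zero_div, C.ν.ord_zero]
  · rw [ord_div C.ν h0 hc, hcD]
    have := hs C.ν hC h0
    linarith

/-- The restriction map. -/
private noncomputable def N07_map (hC : C.ν ∈ S.prm) {D : DVal L → ℤ} {c : L} (hc : c ≠ 0)
    (hcD : C.ν.ord c = - D C.ν) : sec S.prm D →ₗ[ℂ] RatFunc ℂ where
  toFun s := C.ψ ((s : L) / c)
  map_add' s t := by
    rw [Submodule.coe_add, add_div, C.add _ (N07_mem hC hc hcD s.2) _ (N07_mem hC hc hcD t.2)]
  map_smul' a s := by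
    have h1 : ((a • s : sec S.prm D) : L) / c = algebraMap ℂ L a * ((s : L) / c) := by
      rw [Submodule.coe_smul, Algebra.smul_def, mul_div_assoc]
    have h2 : algebraMap ℂ L a ∈ C.ν.ring := by
      rw [mem_ring, C.ν.ord_const]
    rw [h1, C.mul _ h2 _ (N07_mem hC hc hcD s.2), C.const, RingHom.id_apply,
      RatFunc.smul_eq_C_mul]

/-- Restriction of sections to `C`.
PLAN. The linear map `sec S.prm D → RatFunc ℂ`, `s ↦ C.ψ (s / c)` (`C.ν.ord (s / c) ≥ 0`) has kernel
`sec S.prm (D - prd C.ν)` and its image `V` satisfies the hypothesis of `finrank_le` with `E v := ct S C v D c`: for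
`x = ctr v`, `f = leq D x`: `s f ∈ x` (`Pt.germ_mem`), `s f = (s / c) (c f)`, so `0 ≤ ordP v (ψ (s/c)) + ct`. Then rank-nullity
(`S.finSec D hD` gives finite dimension; `sec (D - prd) ≤ sec D`, `LinearMap.finrank_range_add_finrank_ker`). -/
theorem restrict_le (hC : C.ν ∈ S.prm) {D : DVal L → ℤ} (hD : IsDiv S.prm D) {c : L} (hc : c ≠ 0)
    (hcD : C.ν.ord c = - D C.ν) :
    (h0 S.prm D : ℤ) ≤ h0 S.prm (fun ν => D ν - prd C.ν ν) + max 0 (∑ᶠ v, ct S C v D c + 1) := by
  classical
  have hprd : IsDiv S.prm (prd C.ν) := by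
    refine (Set.finite_singleton C.ν).subset ?_
    rintro ν ⟨_, h2⟩
    by_contra h3
    apply h2
    simp only [Set.mem_singleton_iff] at h3
    simp [prd, h3]
  have hDp : IsDiv S.prm (fun ν => D ν - prd C.ν ν) := by
    have h1 := hD.add hprd.neg
    exact h1.congr fun ν _ => by ring
  have := S.finSec D hD
  have := S.finSec _ hDp
  set φ := N07_map (S := S) hC hc hcD with hφ
  have hrn := LinearMap.finrank_range_add_finrank_ker φ
  have hV := finrank_le (fun v => ct S C v D c) (ct_finite hC hD hc hcD) (LinearMap.range φ) (by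
    rintro f ⟨s, rfl⟩ hf v
    have hctr := isCtr_ctr (S := S) hC v
    have hg := leq_spec hD hctr.pts
    have h1 : (s : L) * leq S D (ctr S C v) ∈ ctr S C v := (S.pt hctr.pts).germ_mem hg s.2
    have h2 := hctr.nonneg _ h1
    have h3 := (ct_eq hC hctr hD hg hc hcD).2
    have h4 : c * leq S D (ctr S C v) ∈ C.ν.ring := by
      rw [mem_ring, C.ν.ord_mul _ _ hc hg.1, hcD, hg.2 C.ν hC hctr.le]
      simp
    have h5 : (s : L) * leq S D (ctr S C v) = ((s : L) / c) * (c * leq S D (ctr S C v)) := by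
      field_simp
    have hf' : C.ψ ((s : L) / c) ≠ 0 := hf
    rw [h5, C.mul _ (N07_mem hC hc hcD s.2) _ h4, ordP_mul v hf' h3] at h2
    exact h2)
  have hker : Module.finrank ℂ (LinearMap.ker φ) ≤ h0 S.prm (fun ν => D ν - prd C.ν ν) := by
    rw [← Submodule.finrank_map_subtype_eq]
    apply Submodule.finrank_mono
    rintro _ ⟨s, hs, rfl⟩ ν hν h0
    change (s : L) ≠ 0 at h0
    change 0 ≤ ν.ord (s : L) + (D ν - prd C.ν ν)
    have h1 := s.2 ν hν h0
    by_cases h2 : ν = C.ν
    · subst h2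
      have h3 : C.ψ ((s : L) / c) = 0 := hs
      have h4 := (C.zero_iff _ (N07_mem hC hc hcD s.2)).1 h3
      have h5 : (s : L) / c ≠ 0 := div_ne_zero h0 hc
      have h6 : 0 < C.ν.ord ((s : L) / c) := h4.resolve_left h5
      rw [ord_div C.ν h0 hc, hcD] at h6
      have h7 : prd C.ν C.ν = 1 := by simp [prd]
      rw [h7]
      linarith
    · have h7 : prd C.ν ν = 0 := by simp [prd, h2]
      rw [h7, sub_zero]
      exact h1
  have h8 : h0 S.prm D = Module.finrank ℂ (sec S.prm D) := rfl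
  rw [h8, ← hrn]
  have h9 := hV.2
  push_cast
  have h10 : (Module.finrank ℂ (LinearMap.ker φ) : ℤ) ≤ h0 S.prm (fun ν => D ν - prd C.ν ν) := by
    exact_mod_cast hker
  linarith

end

end Pool.Agent.LibK3
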