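import Pool.Agent.LibK3.Base

set_option autoImplicit false

open Pool.Agent.LibGMM Pool.Agent.LibK Pool.Agent.LibKB
open Pool.Agent.LibLB (PSurf RLR)
open Pool.Agent.LibCov80 (Over)

namespace Pool.Agent.LibK3

/-- Functions with prescribed zeros and poles in a multiple of `A`, not vanishing at `T`.
PLAN. `S.serre (- S.cl E)`: for `k ≥ k₀` the divisor `G := fun ν => k * D ν - E ν` (class `k • A - cl E`:
`LibLB.clOf_add`, `clOf_zsmul`, `clOf_neg`, as in `LibCUR2.Geo`) has for every point `x` a section `q` with `Gen S.prm x G q`;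
take `x ≤ T.ring` (`S.infPts T hT` nonempty). `q ∈ sec G` gives the inequality, `Gen` at the prime `T` the equality
(`E T = 0`). -/
theorem exists_pole {L : Type} [Field L] [Algebra ℂ L] {S : PSurf L} {E : DVal L → ℤ}
    (hE : IsDiv S.prm E) (hE0 : ∀ ν ∈ S.prm, 0 ≤ E ν)
    {T : DVal L} (hT : T ∈ S.prm) (hET : E T = 0) {D : DVal L → ℤ} (hD : IsDiv S.prm D)
    (hDA : S.cl D = S.A) : ∃ k₀ : ℕ, ∀ k : ℕ, k₀ ≤ k → ∃ q : L, q ≠ 0 ∧
      (∀ ν ∈ S.prm, E ν ≤ ν.ord q + k * D ν) ∧ T.ord q + k * D T = 0 := by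
  obtain ⟨k₀, hk₀⟩ := S.serre (-(S.cl E))
  refine ⟨k₀, fun k hk => ?_⟩
  have hG : IsDiv S.prm (fun ν => (k : ℤ) * D ν + - E ν) := (hD.zsmul k).add hE.neg
  have hcl : LibLB.clOf S.prm S.cls (fun ν => (k : ℤ) * D ν + - E ν) = k • S.A + -(S.cl E) := by
    rw [LibLB.clOf_add (hD.zsmul k) hE.neg, LibLB.clOf_zsmul (k : ℤ) hD, LibLB.clOf_neg hE]
    change (k : ℤ) • S.cl D + - S.cl E = _
    rw [hDA, natCast_zsmul]
  obtain ⟨x, hx, hxT⟩ := (S.infPts T hT).nonempty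
  obtain ⟨q, hq, hq0, hqx⟩ := (hk₀ k hk _ hG hcl).2.2 x hx
  refine ⟨q, hq0, fun ν hν => ?_, ?_⟩
  · have h1 := hq ν hν hq0
    simp only at h1
    linarith
  · have h1 := hqx T hT hxT
    simp only [hET] at h1
    linarith

end Pool.Agent.LibK3
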