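import Mathlib

set_option autoImplicit false

namespace Pool.Agent.LibK3

open Polynomial in
theorem indep_prod_aux (a b : Polynomial ℂ) (hab : IsCoprime a b) (D : ℕ)
    (hD : a.natDegree = D) (hD0 : 0 < D) (n : ℕ) : ∀ r : ℕ → Polynomial ℂ,
    (∀ i, (r i).degree < D) → ∑ i ∈ Finset.range (n + 1), a ^ i * b ^ (n - i) * r i = 0 →
    ∀ i ≤ n, r i = 0 := by
  have ha : a ≠ 0 := by
    rintro rfl
    simp at hD
    omega
  have hdeg : a.degree = D := by
    rw [Polynomial.degree_eq_natDegree ha, hD]
  induction n with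
  | zero =>
    intro r _ h i hi
    obtain rfl : i = 0 := by omega
    simpa using h
  | succ n ih =>
    intro r hr h
    rw [Finset.sum_range_succ'] at h
    simp only [pow_zero, one_mul, Nat.sub_zero, Nat.add_sub_add_right] at h
    have h1 : ∑ i ∈ Finset.range (n + 1), a ^ (i + 1) * b ^ (n - i) * r (i + 1) =
        a * ∑ i ∈ Finset.range (n + 1), a ^ i * b ^ (n - i) * r (i + 1) := by
      rw [Finset.mul_sum]
      refine Finset.sum_congr rfl fun i _ => ?_
      ring
    rw [h1] at h
    have h2 : a ∣ b ^ (n + 1) * r 0 := by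
      refine ⟨-∑ i ∈ Finset.range (n + 1), a ^ i * b ^ (n - i) * r (i + 1), ?_⟩
      linear_combination h
    have h3 : a ∣ r 0 := (hab.pow_right (n := n + 1)).dvd_of_dvd_mul_left h2
    have h4 : r 0 = 0 := by
      by_contra hne
      have := Polynomial.degree_le_of_dvd h3 hne
      rw [hdeg] at this
      exact absurd (hr 0) (not_lt.2 this)
    rw [h4, mul_zero, add_zero] at h
    have h5 : ∑ i ∈ Finset.range (n + 1), a ^ i * b ^ (n - i) * r (i + 1) = 0 :=
      (mul_eq_zero.1 h).resolve_left ha
    have h6 := ih (fun i => r (i + 1)) (fun i => hr _) h5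
    intro i hi
    rcases Nat.eq_zero_or_pos i with rfl | hi0
    · exact h4
    · have := h6 (i - 1) (by omega)
      simpa [Nat.sub_add_cancel hi0] using this

/-- Many independent products.
PLAN. By the symmetry `a ↔ b` (reindex `i ↦ n - i`) assume `a.natDegree = D` (the case `D = 0` is trivial, `Fin 0`).
Then `a ≠ 0`. Suppose `∑ c i j a^i b^(n-i) X^j = 0`, i.e. `∑_i a^i b^(n-i) r_i = 0` with `r_i = ∑_j c i j X^j` of degree
`< D`. Show `r_i = 0` for all `i` by induction on `i`: dividing by `a^i` the remaining sum gives `a ∣ b^(n-i) r_i`, so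
`a ∣ r_i` (coprime), so `r_i = 0` by degree. Then `c i j` is a coefficient of `r_i`. -/
theorem indep_prod (a b : Polynomial ℂ) (hab : IsCoprime a b) (D : ℕ)
    (hD : max a.natDegree b.natDegree = D) (n : ℕ) :
    LinearIndependent ℂ fun ij : Fin (n + 1) × Fin D =>
      a ^ (ij.1 : ℕ) * b ^ (n - ij.1) * (Polynomial.X : Polynomial ℂ) ^ (ij.2 : ℕ) := by
  rcases Nat.eq_zero_or_pos D with rfl | hD0
  · exact linearIndependent_empty_type
  rw [Fintype.linearIndependent_iff]
  intro g hg
  let r : ℕ → Polynomial ℂ := fun i =>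
    if h : i < n + 1 then ∑ j : Fin D, Polynomial.C (g (⟨i, h⟩, j)) * Polynomial.X ^ (j : ℕ) else 0
  have hr : ∀ i, (r i).degree < D := by
    intro i
    simp only [r]
    split_ifs with h
    · refine (Polynomial.degree_sum_le _ _).trans_lt ?_
      rw [Finset.sup_lt_iff (by exact_mod_cast WithBot.bot_lt_coe D)]
      intro j _
      exact (Polynomial.degree_C_mul_X_pow_le _ _).trans_lt (by exact_mod_cast j.2)
    · rw [Polynomial.degree_zero]
      exact WithBot.bot_lt_coe D
  have hri : ∀ (i : Fin (n + 1)), r i = ∑ j : Fin D, Polynomial.C (g (i, j)) * Polynomial.X ^ (j : ℕ) := by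
    intro i
    simp only [r, i.2, dif_pos]
  have hsum : ∑ i ∈ Finset.range (n + 1), a ^ i * b ^ (n - i) * r i = 0 := by
    rw [Finset.sum_range, ← hg, Fintype.sum_prod_type]
    refine Finset.sum_congr rfl fun i _ => ?_
    rw [hri, Finset.mul_sum]
    refine Finset.sum_congr rfl fun j _ => ?_
    rw [Polynomial.smul_eq_C_mul]
    ring
  have hall : ∀ i ≤ n, r i = 0 := by
    rcases le_total a.natDegree b.natDegree with h | h
    · rw [max_eq_right h] at hD
      have h1 : ∑ i ∈ Finset.range (n + 1), b ^ i * a ^ (n - i) * r (n - i) = 0 := by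
        rw [← hsum, ← Finset.sum_range_reflect (fun i => a ^ i * b ^ (n - i) * r i)]
        refine Finset.sum_congr rfl fun i hi => ?_
        have hi' : i ≤ n := by
          have := Finset.mem_range.1 hi
          omega
        rw [show n + 1 - 1 - i = n - i by omega, show n - (n - i) = i by omega]
        ring
      have h2 := indep_prod_aux b a hab.symm D hD hD0 n (fun i => r (n - i)) (fun i => hr _) h1
      intro i hi
      have := h2 (n - i) (by omega)
      simpa [show n - (n - i) = i by omega] using this
    · rw [max_eq_left h] at hD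
      exact indep_prod_aux a b hab D hD hD0 n r hr hsum
  rintro ⟨i, j⟩
  have h1 := hall i (by omega)
  rw [hri] at h1
  have h2 := congrArg (fun p : Polynomial ℂ => p.coeff j) h1
  simp only [Polynomial.finsetSum_coeff, Polynomial.coeff_C_mul, Polynomial.coeff_X_pow,
    Polynomial.coeff_zero, mul_ite, mul_one, mul_zero] at h2
  rw [Finset.sum_eq_single j] at h2
  · simpa using h2
  · intro k _ hk
    rw [if_neg]
    intro h
    exact hk (Fin.ext h.symm)
  · intro h
    exact absurd (Finset.mem_univ _) h

end Pool.Agent.LibK3
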