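import Pool.Agent.LibK3.N05
import Pool.Agent.LibK3.N23
import Pool.Agent.LibK3.NP2
import Pool.Agent.LibK3.NP4

set_option autoImplicit false

open Pool.Agent.LibGMM Pool.Agent.LibK Pool.Agent.LibKB
open Pool.Agent.LibLB (PSurf RLR)
open Pool.Agent.LibCov80 (Over)

namespace Pool.Agent.LibK3

section

variable {L : Type} [Field L] [Algebra ℂ L] {S : PSurf L} {C : RC L}


/-- functions of order at least `m` at `v` -/
def N08_ge (v : Plc) (m : ℤ) : Submodule ℂ (RatFunc ℂ) where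
  carrier := {f | f ≠ 0 → m ≤ ordP v f}
  zero_mem' := fun h => absurd rfl h
  add_mem' := by
    intro f g hf hg hfg
    by_cases h0 : f = 0
    · subst h0
      simp only [zero_add] at hfg ⊢
      exact hg hfg
    by_cases h1 : g = 0
    · subst h1
      simp only [add_zero] at hfg ⊢
      exact hf hfg
    exact (le_min (hf h0) (hg h1)).trans (ordP_add v h0 h1 hfg)
  smul_mem' := by
    intro c f hf hcf
    have hc : c ≠ 0 := by
      rintro rfl
      exact hcf (zero_smul _ _)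
    have h0 : f ≠ 0 := by
      rintro rfl
      exact hcf (smul_zero _)
    have hC0 : RatFunc.C c ≠ 0 := by
      intro h
      exact hc ((map_eq_zero_iff _ (RatFunc.C (K := ℂ)).injective).1 h)
    rw [RatFunc.smul_eq_C_mul, ordP_mul v hC0 h0, ordP_C, zero_add]
    exact hf h0

theorem N08_div_mem {D : DVal L → ℤ} {P : Set (DVal L)} {ν : DVal L} (hν : ν ∈ P) {c s : L}
    (hc : c ≠ 0) (hcD : ν.ord c = - D ν) (hs : s ∈ sec P D) : s / c ∈ ν.ring := by
  rw [mem_ring]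
  by_cases h0 : s = 0
  · rw [h0, zero_div, ν.ord_zero]
  · rw [ord_div ν h0 hc, hcD]
    have := hs ν hν h0
    omega

/-- restriction of sections -/
theorem N08_res (hC : C.ν ∈ S.prm) {D : DVal L → ℤ} {c : L} (hc : c ≠ 0)
    (hcD : C.ν.ord c = - D C.ν) :
    ∃ r : sec S.prm D →ₗ[ℂ] RatFunc ℂ, ∀ s, r s = C.ψ (s.1 / c) := by
  refine ⟨⟨⟨fun s => C.ψ (s.1 / c), ?_⟩, ?_⟩, fun s => rfl⟩
  · intro s t
    show C.ψ ((s.1 + t.1) / c) = C.ψ (s.1 / c) + C.ψ (t.1 / c)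
    rw [add_div]
    exact C.add _ (N08_div_mem hC hc hcD s.2) _ (N08_div_mem hC hc hcD t.2)
  · intro a s
    show C.ψ ((a • s.1) / c) = a • C.ψ (s.1 / c)
    rw [Algebra.smul_def, mul_div_assoc, C.mul _ (by rw [mem_ring, C.ν.ord_const]) _
      (N08_div_mem hC hc hcD s.2), C.const, RatFunc.smul_eq_C_mul]

theorem N08_count (hC : C.ν ∈ S.prm) {D : DVal L → ℤ} (hD : IsDiv S.prm D) {c : L} (hc : c ≠ 0)
    (hcD : C.ν.ord c = - D C.ν) {ι : Type} [Fintype ι] (u : ι → L)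
    (hu : ∀ i, u i ∈ sec S.prm D) (hli : LinearIndependent ℂ fun i => C.ψ (u i / c)) :
    h0 S.prm (fun ν => D ν - prd C.ν ν) + Fintype.card ι ≤ h0 S.prm D := by
  obtain ⟨r, hr⟩ := N08_res hC hc hcD
  have hfin : Module.Finite ℂ (sec S.prm D) := S.finSec D hD
  have h1 := LinearMap.finrank_range_add_finrank_ker r
  have hker : (LinearMap.ker r).map (sec S.prm D).subtype =
      sec S.prm (fun ν => D ν - prd C.ν ν) := by
    ext s
    rw [Submodule.mem_map]
    constructor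
    · rintro ⟨t, ht, rfl⟩
      rw [LinearMap.mem_ker, hr, C.zero_iff _ (N08_div_mem hC hc hcD t.2)] at ht
      intro ν hν ht0
      have ht0' : t.1 ≠ 0 := ht0
      have h2 : 0 ≤ ν.ord t.1 + D ν := t.2 ν hν ht0'
      show 0 ≤ ν.ord t.1 + (D ν - prd C.ν ν)
      by_cases hνC : ν = C.ν
      · subst hνC
        rw [prd_self]
        rcases ht with ht | ht
        · exact absurd ht (div_ne_zero ht0' hc)
        · rw [ord_div C.ν ht0' hc, hcD] at ht
          omega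
      · rw [prd_ne hνC, sub_zero]
        exact h2
    · intro hs
      have hs' : s ∈ sec S.prm D := by
        intro ν hν h0
        have h2 : 0 ≤ ν.ord s + (D ν - prd C.ν ν) := hs ν hν h0
        by_cases hνC : ν = C.ν
        · rw [hνC, prd_self] at h2
          rw [hνC]
          omega
        · rwa [prd_ne hνC, sub_zero] at h2
      refine ⟨⟨s, hs'⟩, ?_, rfl⟩
      rw [LinearMap.mem_ker, hr, C.zero_iff _ (N08_div_mem hC hc hcD hs')]
      by_cases h0 : s = 0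
      · left
        show s / c = 0
        rw [h0, zero_div]
      · right
        show 0 < C.ν.ord (s / c)
        rw [ord_div C.ν h0 hc, hcD]
        have h2 : 0 ≤ C.ν.ord s + (D C.ν - prd C.ν C.ν) := hs C.ν hC h0
        rw [prd_self] at h2
        omega
  have hkd : Module.finrank ℂ (LinearMap.ker r) = h0 S.prm (fun ν => D ν - prd C.ν ν) := by
    unfold h0
    rw [← hker]
    exact ((LinearMap.ker r).equivMapOfInjective (sec S.prm D).subtype
      (Submodule.injective_subtype _)).finrank_eq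
  have hcard : Fintype.card ι ≤ Module.finrank ℂ (LinearMap.range r) := by
    let w : ι → LinearMap.range r := fun i => ⟨C.ψ (u i / c), ⟨⟨u i, hu i⟩, hr _⟩⟩
    have hw : LinearIndependent ℂ w :=
      LinearIndependent.of_comp (LinearMap.range r).subtype hli
    exact hw.fintype_card_le_finrank
  unfold h0 at hkd ⊢
  omega

/-- a section in terms of the contact orders -/
theorem N08_ord (hC : C.ν ∈ S.prm) {D : DVal L → ℤ} (hD : IsDiv S.prm D) {c : L} (hc : c ≠ 0)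
    (hcD : C.ν.ord c = - D C.ν) (v : Plc) {s : L} (hs : s ∈ sec S.prm D) :
    C.ψ (s / c) * C.ψ (c * leq S D (ctr S C v)) = C.ψ (s * leq S D (ctr S C v)) ∧
      ct S C v D c = ordP v (C.ψ (c * leq S D (ctr S C v))) ∧
      C.ψ (c * leq S D (ctr S C v)) ≠ 0 := by
  have hx := isCtr_ctr hC v
  have hf := leq_spec hD hx.pts
  obtain ⟨h1, h2⟩ := ct_eq hC hx hD hf hc hcD
  refine ⟨?_, h1, h2⟩
  have h3 : c * leq S D (ctr S C v) ∈ C.ν.ring := by
    rw [mem_ring, C.ν.ord_mul _ _ hc hf.1, hcD, hf.2 C.ν hC hx.le]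
    omega
  rw [← C.mul _ (N08_div_mem hC hc hcD hs) _ h3]
  congr 1
  field_simp

theorem N08_nonneg (hC : C.ν ∈ S.prm) {D : DVal L → ℤ} (hD : IsDiv S.prm D) {c : L} (hc : c ≠ 0)
    (hcD : C.ν.ord c = - D C.ν) (v : Plc) {s : L} (hs : s ∈ sec S.prm D)
    (h0 : C.ψ (s / c) ≠ 0) : 0 ≤ ordP v (C.ψ (s / c)) + ct S C v D c := by
  have hx := isCtr_ctr hC v
  have hf := leq_spec hD hx.pts
  obtain ⟨h1, h2, h3⟩ := N08_ord hC hD hc hcD v hs
  rw [h2, ← ordP_mul v h0 h3, h1]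
  exact hx.nonneg _ ((S.pt hx.pts).germ_mem hf hs)

theorem N08_gen (hC : C.ν ∈ S.prm) {D : DVal L → ℤ} (hD : IsDiv S.prm D) {c : L} (hc : c ≠ 0)
    (hcD : C.ν.ord c = - D C.ν) (v : Plc) {s : L} (hs : Gen S.prm (ctr S C v) D s) :
    C.ψ (s / c) ≠ 0 ∧ ordP v (C.ψ (s / c)) + ct S C v D c = 0 := by
  have hx := isCtr_ctr hC v
  have hf := leq_spec hD hx.pts
  obtain ⟨h1, h2, h3⟩ := N08_ord hC hD hc hcD v hs.1
  have hpt := S.pt hx.pts
  have hsf : s * leq S D (ctr S C v) ≠ 0 := mul_ne_zero hs.2.1 hf.1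
  have hinv : (s * leq S D (ctr S C v))⁻¹ ∈ ctr S C v := by
    rw [hpt.mem_iff]
    intro ν hν hxν
    rw [ord_inv ν hsf, ν.ord_mul _ _ hs.2.1 hf.1, hf.2 ν hν hxν, hs.2.2 ν hν hxν, neg_zero]
  obtain ⟨h4, h5⟩ := ordP_unit hC hx (hpt.germ_mem hf hs.1) hsf hinv
  rw [← h1] at h4 h5
  have h6 := left_ne_zero_of_mul h4
  rw [ordP_mul v h6 h3, ← h2] at h5
  exact ⟨h6, h5⟩

/-- very ample divisors have no base points -/
theorem N08_bpf (hC : C.ν ∈ S.prm) {D : DVal L → ℤ} (hD : IsDiv S.prm D) (hDA : S.cl D = S.A)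
    {y : Subalgebra ℂ L} (hy : y ∈ S.pts) : ∃ f, Gen S.prm y D f := by
  obtain ⟨x, hx, hxy⟩ : ∃ x, x ∈ S.pts ∧ x ≠ y := by
    by_contra hcon
    push Not at hcon
    have h1 := S.infPts C.ν hC
    refine h1 ((Set.finite_singleton y).subset ?_)
    intro x hx
    exact hcon x hx.1
  obtain ⟨f, hf, -⟩ := S.sep D hD hDA x hx y hy hxy
  exact ⟨f, hf⟩

/-- number of zeros = degree -/
theorem N08_deg {f : RatFunc ℂ} (hf : f ≠ 0) :
    ∑ᶠ v, max 0 (ordP v f) = ((max f.num.natDegree f.denom.natDegree : ℕ) : ℤ) := by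
  classical
  have ha : f.num ≠ 0 := RatFunc.num_ne_zero hf
  have hb : f.denom ≠ 0 := f.denom_ne_zero
  have hcop := RatFunc.isCoprime_num_denom f
  have hsupp : Function.support (fun v : Plc => max 0 (ordP v f)) ⊆
      ((insert none (f.num.roots.toFinset.image some) : Finset Plc) : Set Plc) := by
    intro v hv
    rw [Finset.mem_coe, Finset.mem_insert, Finset.mem_image]
    rcases v with _ | c
    · exact Or.inl rfl
    · right
      refine ⟨c, ?_, rfl⟩
      rw [Multiset.mem_toFinset, Polynomial.mem_roots ha]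
      by_contra hcon
      apply hv
      show max 0 (((f.num.rootMultiplicity c : ℕ) : ℤ) - (f.denom.rootMultiplicity c : ℕ)) = 0
      rw [Polynomial.rootMultiplicity_eq_zero hcon]
      rw [max_eq_left]
      simp
  rw [finsum_eq_sum_of_support_subset _ hsupp, Finset.sum_insert (by simp),
    Finset.sum_image (by intro x _ y _ h; exact Option.some_injective _ h)]
  have h1 : ∑ c ∈ f.num.roots.toFinset, max 0 (ordP (some c) f) =
      ((f.num.natDegree : ℕ) : ℤ) := by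
    have h2 : ∀ c ∈ f.num.roots.toFinset, max 0 (ordP (some c) f) =
        ((f.num.roots.count c : ℕ) : ℤ) := by
      intro c hc
      rw [Multiset.mem_toFinset, Polynomial.mem_roots ha] at hc
      have h3 : ¬ f.denom.IsRoot c := by
        intro h4
        obtain ⟨u, w, huw⟩ := hcop
        have h5 := congrArg (Polynomial.eval c) huw
        rw [Polynomial.eval_add, Polynomial.eval_mul, Polynomial.eval_mul,
          Polynomial.IsRoot.def.1 hc, Polynomial.IsRoot.def.1 h4, mul_zero, mul_zero, add_zero,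
          Polynomial.eval_one] at h5
        exact zero_ne_one h5
      show max 0 (((f.num.rootMultiplicity c : ℕ) : ℤ) - (f.denom.rootMultiplicity c : ℕ)) = _
      rw [Polynomial.rootMultiplicity_eq_zero h3, Polynomial.count_roots, Nat.cast_zero, sub_zero,
        max_eq_right (Int.natCast_nonneg _)]
    rw [Finset.sum_congr rfl h2, ← Nat.cast_sum, Multiset.toFinset_sum_count_eq]
    congr 1
    exact IsAlgClosed.card_roots_eq_natDegree
  rw [h1]
  show max 0 (-f.intDegree) + _ = _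
  rw [RatFunc.intDegree]
  push_cast
  omega

theorem N08_key {f b : RatFunc ℂ} {e n : ℕ} (g : RatFunc ℂ) (hb0 : b ≠ 0)
    (hb : b = algebraMap (Polynomial ℂ) (RatFunc ℂ) f.denom) (ij : Fin (n + 1) × Fin e) :
    g / b ^ n * algebraMap (Polynomial ℂ) (RatFunc ℂ)
      (f.num ^ (ij.1 : ℕ) * f.denom ^ (n - ij.1) * Polynomial.X ^ (ij.2 : ℕ)) =
    g * f ^ (ij.1 : ℕ) * RatFunc.X ^ (ij.2 : ℕ) := by
  have hi : (ij.1 : ℕ) ≤ n := Nat.lt_succ_iff.1 ij.1.2
  have hf : f = algebraMap (Polynomial ℂ) (RatFunc ℂ) f.num / b := by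
    rw [hb]
    exact (RatFunc.num_div_denom f).symm
  rw [map_mul, map_mul, map_pow, map_pow, map_pow, RatFunc.algebraMap_X, ← hb]
  obtain ⟨A, hA⟩ : ∃ A, A = algebraMap (Polynomial ℂ) (RatFunc ℂ) f.num := ⟨_, rfl⟩
  rw [← hA] at hf ⊢
  rw [hf]
  obtain ⟨m, hm⟩ := Nat.exists_eq_add_of_le hi
  obtain ⟨i, hi'⟩ : ∃ i : ℕ, i = (ij.1 : ℕ) := ⟨_, rfl⟩
  obtain ⟨j, hj'⟩ : ∃ j : ℕ, j = (ij.2 : ℕ) := ⟨_, rfl⟩
  rw [← hi'] at hm ⊢
  rw [← hj']
  have h6 : n - i = m := by omega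
  rw [h6, hm, pow_add, div_pow]
  have h4 := pow_ne_zero i hb0
  have h5 := pow_ne_zero m hb0
  field_simp

theorem N08_indep {f : RatFunc ℂ} {e : ℕ}
    (he : max f.num.natDegree f.denom.natDegree = e) (n : ℕ) {g : RatFunc ℂ} (hg : g ≠ 0) :
    LinearIndependent ℂ fun ij : Fin (n + 1) × Fin e =>
      g * f ^ (ij.1 : ℕ) * RatFunc.X ^ (ij.2 : ℕ) := by
  have h1 := indep_prod f.num f.denom (RatFunc.isCoprime_num_denom f) e he n
  have hinj : LinearMap.ker (IsScalarTower.toAlgHom ℂ (Polynomial ℂ) (RatFunc ℂ)).toLinearMap =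
      ⊥ := by
    rw [LinearMap.ker_eq_bot]
    exact RatFunc.algebraMap_injective ℂ
  have h2 := h1.map' _ hinj
  obtain ⟨b, hb⟩ : ∃ b : RatFunc ℂ, b = algebraMap (Polynomial ℂ) (RatFunc ℂ) f.denom := ⟨_, rfl⟩
  have hb0 : b ≠ 0 := by
    rw [hb]
    exact RatFunc.algebraMap_ne_zero f.denom_ne_zero
  have hgb : g / b ^ n ≠ 0 := div_ne_zero hg (pow_ne_zero n hb0)
  have hinj2 : LinearMap.ker (LinearMap.mulLeft ℂ (g / b ^ n)) = ⊥ := by
    rw [LinearMap.ker_eq_bot]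
    exact mul_right_injective₀ hgb
  have h3 := h2.map' _ hinj2
  have key : (fun ij : Fin (n + 1) × Fin e => g * f ^ (ij.1 : ℕ) * RatFunc.X ^ (ij.2 : ℕ)) =
      fun ij : Fin (n + 1) × Fin e => g / b ^ n * algebraMap (Polynomial ℂ) (RatFunc ℂ)
        (f.num ^ (ij.1 : ℕ) * f.denom ^ (n - ij.1) * Polynomial.X ^ (ij.2 : ℕ)) := by
    funext ij
    symm
    exact N08_key g hb0 hb ij
  rw [key]
  exact h3

/-- Sections restricted to the rational curve `C` fill up `deg` dimensions per multiple of `D` (`D` very ample).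
PLAN. `E v := ct S C v D c ≥ 0`? (not needed); `d := ∑ᶠ v, E v > 0`. (a) Sections: `sec D` has no base points: for every `y ∈ S.pts` some
`f` with `Gen S.prm y D f` (`S.sep D hD hDA x hx y hy` with any other point `x ≠ y`, `S.infPts`). Restriction
`r s := C.ψ (s / c)`, for `s ∈ sec D`. Choose `l₀ ∈ sec D` with `r l₀ ≠ 0`; the places where `ordP v (r l₀) + E v > 0` are finitely many;
for each of them some section has `ordP v (r l) + E v = 0` (base point freeness at `ctr v`, `ct_eq`), so a general section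
`l₁` has it at all of them (a vector space over the infinite field `ℂ` is not a finite union of proper subspaces:
`Subspace.biUnion_ne_univ_of_top_notMem` or so). Put `p₀ = r l₀`, `p₁ = r l₁`, `p₀ / p₁ = a / b` with coprime polynomials `a, b`
(`RatFunc.num`, `denom`): `max (deg a) (deg b) = d`: the zeros of `p₀ / p₁` are exactly the places with `ordP v p₀ + E v > 0`, total
`∑ (ordP v p₀ + E v) = d` (`sum_ordP`), and the number of zeros of `a / b` with multiplicity is `max (deg a) (deg b)`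
(finite zeros: `deg a`, at infinity `max 0 (deg b - deg a)`).
(b) `X = r-quotient`: by `C.surj` there is `z ∈ C.ν.ring` with `C.ψ z = RatFunc.X`; `exists_pole` (T := C.ν, E := poles of `z`) gives `k` and `q ∈ sec (k D)`,
`q z ∈ sec (k D)`, `q` of twisted order `0` at `C.ν`. With `c` replaced by `c^k`: `ρ := C.ψ (q / c^k) ≠ 0` and
`C.ψ (q z / c^k) = ρ X`.
(c) For `n ≥ k (d - 1)`, put `n' := n - k (d - 1)`: the sections `l₀^i l₁^(n'-i) q^(d-1-j) (q z)^j` of `n D` (`i ≤ n'`, `j < d`) restrict to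
`p₀^i p₁^(n'-i) ρ^(d-1) X^j`, linearly independent by `indep_prod` (multiply by `b^{n'}/p₁^{n'}`). So the image of the restriction map of
`sec (n D)` has dimension `≥ (n' + 1) d`, i.e. `h0 (n D) ≥ h0 (n D - C) + d (n - k (d - 1) + 1)`. Take the integer `k (d - 1)` in the
statement; for `n < k (d-1)` the inequality follows from `h0 (nD - C) ≤ h0 (nD)`. -/
theorem restrict_ge (hC : C.ν ∈ S.prm) {D : DVal L → ℤ} (hD : IsDiv S.prm D)
    (hDA : S.cl D = S.A) {c : L} (hc : c ≠ 0) (hcD : C.ν.ord c = - D C.ν)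
    (hpos : 0 < ∑ᶠ v, ct S C v D c) :
    ∃ k : ℤ, ∀ n : ℕ, (h0 S.prm (fun ν => n * D ν - prd C.ν ν) : ℤ) +
      (∑ᶠ v, ct S C v D c) * (n - k) ≤ h0 S.prm (fun ν => n * D ν) := by
  obtain ⟨r, hr⟩ := N08_res hC hc hcD
  obtain ⟨E, hE⟩ : ∃ E : Plc → ℤ, E = fun v => ct S C v D c := ⟨_, rfl⟩
  have hEv : ∀ v, ct S C v D c = E v := fun v => by rw [hE]
  simp only [hEv] at hpos ⊢
  obtain ⟨d, hd⟩ : ∃ d : ℤ, d = ∑ᶠ v, E v := ⟨_, rfl⟩
  rw [← hd] at hpos ⊢
  have hEfin : (Function.support E).Finite := by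
    have := ct_finite hC hD hc hcD
    rw [hE]
    exact this
  -- the first section
  obtain ⟨x₀, hx₀⟩ := (S.infPts C.ν hC).nonempty
  obtain ⟨l₀, hl₀⟩ := N08_bpf hC hD hDA hx₀.1
  have hp₀ : C.ψ (l₀ / c) ≠ 0 := by
    intro h
    rw [C.zero_iff _ (N08_div_mem hC hc hcD hl₀.1)] at h
    rcases h with h | h
    · exact div_ne_zero hl₀.2.1 hc h
    · rw [ord_div C.ν hl₀.2.1 hc, hcD] at h
      have := hl₀.2.2 C.ν hC hx₀.2
      omega
  obtain ⟨p₀, hp₀e⟩ : ∃ p, p = C.ψ (l₀ / c) := ⟨_, rfl⟩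
  rw [← hp₀e] at hp₀
  obtain ⟨hfin0, hsum0⟩ := sum_ordP hp₀
  have hn0 : ∀ v, 0 ≤ ordP v p₀ + E v := fun v => by
    have := N08_nonneg hC hD hc hcD v hl₀.1 (by rw [← hp₀e]; exact hp₀)
    rwa [← hp₀e, hEv] at this
  have hsumB : ∑ᶠ v, (ordP v p₀ + E v) = d := by
    rw [finsum_add_distrib hfin0 hEfin, hsum0, zero_add, hd]
  have hBfin : {v | ordP v p₀ + E v ≠ 0}.Finite := by
    refine (hfin0.union hEfin).subset ?_
    intro v hv
    by_contra hcon
    rw [Set.mem_union, not_or] at hcon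
    apply hv
    have h1 : ordP v p₀ = 0 := by simpa using hcon.1
    have h2 : E v = 0 := by simpa using hcon.2
    rw [h1, h2, add_zero]
  -- the second section
  obtain ⟨l₁, hl₁, hp₁, hB⟩ : ∃ l₁ ∈ sec S.prm D, C.ψ (l₁ / c) ≠ 0 ∧
      ∀ v, ordP v p₀ + E v ≠ 0 → ordP v (C.ψ (l₁ / c)) + E v = 0 := by
    classical
    have hW : ∀ v, (N08_ge v (1 - E v)).comap r ≠ ⊤ := by
      intro v htop
      obtain ⟨s, hs⟩ := N08_bpf hC hD hDA (isCtr_ctr hC v).pts
      obtain ⟨h1, h2⟩ := N08_gen hC hD hc hcD v hs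
      have h3 : (⟨s, hs.1⟩ : sec S.prm D) ∈ (N08_ge v (1 - E v)).comap r := by
        rw [htop]
        exact Submodule.mem_top
      rw [Submodule.mem_comap, hr] at h3
      have h4 : 1 - E v ≤ ordP v (C.ψ (s / c)) := h3 h1
      rw [hEv] at h2
      omega
    have hU := Subspace.biUnion_ne_univ_of_top_notMem (k := ℂ) (E := sec S.prm D)
      (s := hBfin.toFinset.image fun v => (N08_ge v (1 - E v)).comap r) (by
        intro hmem
        obtain ⟨v, -, hv⟩ := Finset.mem_image.1 hmem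
        exact hW v hv)
    rw [Set.ne_univ_iff_exists_notMem] at hU
    obtain ⟨l₁, hl₁⟩ := hU
    simp only [Set.mem_iUnion, not_exists, Finset.mem_image] at hl₁
    have hl₁' : ∀ v, ordP v p₀ + E v ≠ 0 →
        C.ψ (l₁.1 / c) ≠ 0 ∧ ordP v (C.ψ (l₁.1 / c)) < 1 - E v := by
      intro v hv
      have h1 := hl₁ _ ⟨v, by simpa using hv, rfl⟩
      have h2 : ¬ (r l₁ ≠ 0 → 1 - E v ≤ ordP v (r l₁)) := h1
      push Not at h2
      rwa [hr] at h2
    have hex : ∃ v, ordP v p₀ + E v ≠ 0 := by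
      by_contra hcon
      push Not at hcon
      rw [finsum_congr hcon, finsum_zero] at hsumB
      omega
    obtain ⟨v₀, hv₀⟩ := hex
    have hne := (hl₁' v₀ hv₀).1
    refine ⟨l₁.1, l₁.2, hne, fun v hv => ?_⟩
    have h1 := (hl₁' v hv).2
    have h2 := N08_nonneg hC hD hc hcD v l₁.2 hne
    rw [hEv] at h2
    omega
  obtain ⟨p₁, hp₁e⟩ : ∃ p, p = C.ψ (l₁ / c) := ⟨_, rfl⟩
  rw [← hp₁e] at hp₁ hB
  have hn1 : ∀ v, 0 ≤ ordP v p₁ + E v := fun v => by
    have := N08_nonneg hC hD hc hcD v hl₁ (by rw [← hp₁e]; exact hp₁)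
    rwa [← hp₁e, hEv] at this
  obtain ⟨f, hf⟩ : ∃ f, f = p₀ / p₁ := ⟨_, rfl⟩
  have hf0 : f ≠ 0 := by rw [hf]; exact div_ne_zero hp₀ hp₁
  have hfp : p₀ = f * p₁ := by rw [hf]; field_simp
  have hmax : ∀ v, max 0 (ordP v f) = ordP v p₀ + E v := by
    intro v
    have h1 := ordP_mul v hf0 hp₁
    rw [← hfp] at h1
    by_cases hv : ordP v p₀ + E v = 0
    · have := hn1 v
      rw [hv, max_eq_left]
      omega
    · have h2 := hB v hv
      have h3 := hn0 v
      rw [max_eq_right (by omega)]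
      omega
  obtain ⟨e, he⟩ : ∃ e : ℕ, max f.num.natDegree f.denom.natDegree = e := ⟨_, rfl⟩
  have hed : (e : ℤ) = d := by
    rw [← he, ← N08_deg hf0, finsum_congr hmax, hsumB]
  have he0 : 0 < e := by omega
  -- the function with residue `X`
  obtain ⟨z, hz, hzX⟩ := C.surj RatFunc.X
  have hz0 : z ≠ 0 := by
    rintro rfl
    rw [psi_zero] at hzX
    exact RatFunc.X_ne_zero hzX.symm
  have hpole : IsDiv S.prm (fun ν => max 0 (- ν.ord z)) := by
    refine (isDiv_ord S.finDiv hz0).subset ?_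
    rintro ν ⟨h1, h2⟩
    refine ⟨h1, fun h3 => h2 ?_⟩
    show max 0 (-ν.ord z) = 0
    have h4 : ν.ord z = 0 := h3
    rw [h4]
    rfl
  have hz' : 0 ≤ C.ν.ord z := hz
  obtain ⟨k, hk⟩ := exists_pole hpole (fun ν _ => le_max_left _ _) hC (by
    rw [max_eq_left]
    omega) hD hDA
  obtain ⟨q, hq0, hq1, hq2⟩ := hk k le_rfl
  have hqc : C.ν.ord (q / c ^ k) = 0 := by
    rw [ord_div C.ν hq0 (pow_ne_zero k hc), ord_pow C.ν hc, hcD]
    have : (k : ℤ) * -D C.ν = -(k * D C.ν) := by ring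
    rw [this]
    omega
  obtain ⟨ρ, hρ⟩ : ∃ ρ, ρ = C.ψ (q / c ^ k) := ⟨_, rfl⟩
  have hρ0 : ρ ≠ 0 := by
    rw [hρ, psi_ne_iff (div_ne_zero hq0 (pow_ne_zero k hc)) (by rw [mem_ring, hqc])]
    exact hqc
  refine ⟨(k : ℤ) * (d - 1), fun n => ?_⟩
  have hDn : IsDiv S.prm (fun ν => (n : ℤ) * D ν) := hD.zsmul n
  have hcn : C.ν.ord (c ^ n) = - ((n : ℤ) * D C.ν) := by
    rw [ord_pow C.ν hc, hcD]
    ring
  have hcn0 : c ^ n ≠ 0 := pow_ne_zero n hc
  by_cases hnk : n < k * (e - 1)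
  · have h1 := N08_count hC (D := fun ν => (n : ℤ) * D ν) hDn hcn0 hcn (ι := Fin 0)
      (fun i => i.elim0) (fun i => i.elim0) linearIndependent_empty_type
    have h2 : d * ((n : ℤ) - (k : ℤ) * (d - 1)) ≤ 0 := by
      have h3 : ((n : ℕ) : ℤ) < (k : ℤ) * ((e : ℤ) - 1) := by
        have h4 : ((k * (e - 1) : ℕ) : ℤ) = (k : ℤ) * ((e : ℤ) - 1) := by
          rw [Nat.cast_mul, Nat.cast_sub (by omega), Nat.cast_one]
        rw [← h4]
        exact_mod_cast hnk
      rw [hed] at h3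
      exact mul_nonpos_of_nonneg_of_nonpos hpos.le (by linarith)
    have h3 : ((h0 S.prm (fun ν => (n : ℤ) * D ν - prd C.ν ν) : ℕ) : ℤ) ≤
        ((h0 S.prm (fun ν => (n : ℤ) * D ν) : ℕ) : ℤ) := by
      exact_mod_cast (Nat.le_add_right _ _).trans h1
    linarith
  · push Not at hnk
    obtain ⟨n', hn'⟩ := Nat.exists_eq_add_of_le hnk
    -- the sections
    have hl₀0 := hl₀.2.1
    have hl₁0 : l₁ ≠ 0 := by
      rintro rfl
      rw [zero_div, psi_zero] at hp₁e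
      exact hp₁ hp₁e
    have hmem : ∀ ij : Fin (n' + 1) × Fin e, l₀ ^ (ij.1 : ℕ) * l₁ ^ (n' - ij.1) * q ^ (e - 1) *
        z ^ (ij.2 : ℕ) ∈ sec S.prm (fun ν => (n : ℤ) * D ν) := by
      rintro ⟨i, j⟩ ν hν -
      have hi : (i : ℕ) ≤ n' := Nat.lt_succ_iff.1 i.2
      have hj : (j : ℕ) ≤ e - 1 := by have := j.2; omega
      obtain ⟨i', hi'⟩ := Nat.exists_eq_add_of_le hi
      obtain ⟨j', hj'⟩ := Nat.exists_eq_add_of_le hj
      show 0 ≤ ν.ord (l₀ ^ (i : ℕ) * l₁ ^ (n' - i) * q ^ (e - 1) * z ^ (j : ℕ)) + (n : ℤ) * D ν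
      generalize (i : ℕ) = i0 at hi hi' ⊢
      generalize (j : ℕ) = j0 at hj hj' ⊢
      rw [ν.ord_mul _ _ (mul_ne_zero (mul_ne_zero (pow_ne_zero _ hl₀0) (pow_ne_zero _ hl₁0))
          (pow_ne_zero _ hq0)) (pow_ne_zero _ hz0),
        ν.ord_mul _ _ (mul_ne_zero (pow_ne_zero _ hl₀0) (pow_ne_zero _ hl₁0))
          (pow_ne_zero _ hq0), ν.ord_mul _ _ (pow_ne_zero _ hl₀0) (pow_ne_zero _ hl₁0),
        ord_pow ν hl₀0, ord_pow ν hl₁0, ord_pow ν hq0, ord_pow ν hz0, hn', hj', hi',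
        Nat.add_sub_cancel_left]
      have a1 : 0 ≤ ν.ord l₀ + D ν := hl₀.1 ν hν hl₀0
      have a2 : 0 ≤ ν.ord l₁ + D ν := hl₁ ν hν hl₁0
      have a3 := hq1 ν hν
      have a4 : 0 ≤ ν.ord q + k * D ν := (le_max_left _ _).trans a3
      have a5 : 0 ≤ ν.ord q + ν.ord z + k * D ν := by
        have := (le_max_right 0 (-ν.ord z)).trans a3
        linarith
      have b1 := mul_nonneg (Int.natCast_nonneg i0) a1
      have b2 := mul_nonneg (Int.natCast_nonneg i') a2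
      have b3 := mul_nonneg (Int.natCast_nonneg j') a4
      have b4 := mul_nonneg (Int.natCast_nonneg j0) a5
      push_cast
      nlinarith
    have hres : ∀ ij : Fin (n' + 1) × Fin e, C.ψ ((l₀ ^ (ij.1 : ℕ) * l₁ ^ (n' - ij.1) *
        q ^ (e - 1) * z ^ (ij.2 : ℕ)) / c ^ n) =
        (p₁ ^ n' * ρ ^ (e - 1)) * f ^ (ij.1 : ℕ) * RatFunc.X ^ (ij.2 : ℕ) := by
      rintro ⟨i, j⟩
      have hi : (i : ℕ) ≤ n' := Nat.lt_succ_iff.1 i.2
      obtain ⟨i', hi'⟩ := Nat.exists_eq_add_of_le hi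
      show C.ψ ((l₀ ^ (i : ℕ) * l₁ ^ (n' - i) * q ^ (e - 1) * z ^ (j : ℕ)) / c ^ n) =
        (p₁ ^ n' * ρ ^ (e - 1)) * f ^ (i : ℕ) * RatFunc.X ^ (j : ℕ)
      generalize (i : ℕ) = i0 at hi hi' ⊢
      generalize (j : ℕ) = j0
      have e1 : (l₀ ^ i0 * l₁ ^ (n' - i0) * q ^ (e - 1) * z ^ j0) / c ^ n =
          (l₀ / c) ^ i0 * (l₁ / c) ^ i' * (q / c ^ k) ^ (e - 1) * z ^ j0 := by
        have : n' - i0 = i' := by omega
        rw [this, hn', hi', div_pow, div_pow, div_pow, pow_add, pow_add, pow_mul]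
        field_simp
      have m1 : l₀ / c ∈ C.ν.ring := N08_div_mem hC hc hcD hl₀.1
      have m2 : l₁ / c ∈ C.ν.ring := N08_div_mem hC hc hcD hl₁
      have m3 : q / c ^ k ∈ C.ν.ring := by rw [mem_ring, hqc]
      rw [e1, C.mul _ (mul_mem (mul_mem (pow_mem m1 _) (pow_mem m2 _)) (pow_mem m3 _)) _
        (pow_mem hz _), C.mul _ (mul_mem (pow_mem m1 _) (pow_mem m2 _)) _ (pow_mem m3 _),
        C.mul _ (pow_mem m1 _) _ (pow_mem m2 _), psi_pow m1, psi_pow m2, psi_pow m3, psi_pow hz,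
        hzX, ← hp₀e, ← hp₁e, ← hρ, hfp, hi', mul_pow, pow_add]
      ring
    have hli : LinearIndependent ℂ fun ij : Fin (n' + 1) × Fin e =>
        C.ψ ((l₀ ^ (ij.1 : ℕ) * l₁ ^ (n' - ij.1) * q ^ (e - 1) * z ^ (ij.2 : ℕ)) / c ^ n) := by
      have h1 := N08_indep he n' (g := p₁ ^ n' * ρ ^ (e - 1))
        (mul_ne_zero (pow_ne_zero _ hp₁) (pow_ne_zero _ hρ0))
      rw [funext hres]
      exact h1
    have h1 := N08_count hC (D := fun ν => (n : ℤ) * D ν) hDn hcn0 hcn _ hmem hli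
    rw [Fintype.card_prod, Fintype.card_fin, Fintype.card_fin] at h1
    have h2 : ((h0 S.prm (fun ν => (n : ℤ) * D ν - prd C.ν ν) : ℕ) : ℤ) +
        ((n' : ℤ) + 1) * (e : ℤ) ≤ ((h0 S.prm (fun ν => (n : ℤ) * D ν) : ℕ) : ℤ) := by
      exact_mod_cast h1
    have h3 : (n : ℤ) - (k : ℤ) * (d - 1) = n' := by
      rw [hn', ← hed]
      push_cast [Nat.cast_sub (show 1 ≤ e by omega)]
      ring
    rw [h3]
    rw [hed] at h2
    nlinarith

end

end Pool.Agent.LibK3
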