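import Pool.Agent.LibCUR2.Main
import Pool.Agent.LibK3.N06
import Pool.Agent.LibK3.N07
import Pool.Agent.LibK3.N08

set_option autoImplicit false

open Pool.Agent.LibGMM Pool.Agent.LibK Pool.Agent.LibKB
open Pool.Agent.LibLB (PSurf RLR)
open Pool.Agent.LibCov80 (Over)

namespace Pool.Agent.LibK3

section

variable {L : Type} [Field L] [Algebra ℂ L] {S : PSurf L} {C : RC L}


private theorem N09_unif (hC : C.ν ∈ S.prm) (D : DVal L → ℤ) : ∃ c : L, c ≠ 0 ∧ C.ν.ord c = - D C.ν := by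
  obtain ⟨t, ht⟩ := C.ν.exists_ord_one
  have ht0 : t ≠ 0 := by
    rintro rfl
    rw [C.ν.ord_zero] at ht
    exact zero_ne_one ht
  refine ⟨t ^ (- D C.ν), zpow_ne_zero _ ht0, ?_⟩
  rw [C.ν.ord_zpow, ht, mul_one]

private theorem N09_lin {a b : ℤ} (n₀ : ℕ) (h : ∀ n : ℕ, n₀ ≤ n → n * a ≤ b) : a ≤ 0 := by
  by_contra hcon
  push Not at hcon
  have h1 := h (n₀ + (b.toNat + 1)) (by omega)
  have h2 : b ≤ b.toNat := Int.self_le_toNat b
  push_cast at h1
  nlinarith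

private theorem N09_both {a b : ℤ} (h : ∀ j : ℤ, j * a ≤ b) : a = 0 := by
  have h1 : a ≤ 0 := N09_lin (b := b) 0 fun n _ => h n
  have h2 : -a ≤ 0 := N09_lin (b := b) 0 fun n _ => by
    have := h (-(n : ℤ))
    linarith
  omega

private theorem N09_main (hC : C.ν ∈ S.prm) {dg : S.Λ →+ ℤ}
    (hdg : ∀ (D : DVal L → ℤ), IsDiv S.prm D →
      ∀ c : L, c ≠ 0 → C.ν.ord c = - D C.ν → ∑ᶠ v, ct S C v D c = dg (S.cl D))
    {F : DVal L → ℤ} (hF : IsDiv S.prm F) :
    ∃ n₀ : ℕ, ∀ n : ℕ, n₀ ≤ n →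
      (S.form (S.cl F) (S.cls C.ν) - LibCUR2.w S (S.cls C.ν)) + n * S.form S.A (S.cls C.ν) ≤
        max 0 (dg (S.cl F) + n * dg S.A + 1) := by
  obtain ⟨n₀, hn₀⟩ := LibCUR2.lin_aux S hC hF
  refine ⟨n₀, fun n hn => ?_⟩
  have h1 := hn₀ n hn
  have hX : IsDiv S.prm (F + n • S.rep S.A) :=
    LibKB2.IsDiv.add' hF (LibCUR2.isDiv_nsmul S (S.isDiv_rep _) n)
  obtain ⟨c, hc, hcD⟩ := N09_unif hC (F + n • S.rep S.A)
  have h2 := restrict_le hC hX hc hcD
  have e5 : dg (n • S.A + S.cl F) = n * dg S.A + dg (S.cl F) := by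
    rw [map_add, map_nsmul, nsmul_eq_mul]
  rw [hdg _ hX c hc hcD, LibCUR2.cl_Fn S hF n, e5] at h2
  have h3 : (fun ν => (F + n • S.rep S.A) ν - prd C.ν ν) = F + n • S.rep S.A - LibKB2.dlt C.ν := by
    rw [LibCUR2.dlt_eq_prd]
    rfl
  rw [h3] at h2
  have h4 : (n : ℤ) * dg S.A + dg (S.cl F) + 1 = dg (S.cl F) + n * dg S.A + 1 := by ring
  rw [h4] at h2
  linarith

private theorem N09_dg (hC : C.ν ∈ S.prm) {dg : S.Λ →+ ℤ}
    (hdg : ∀ (D : DVal L → ℤ), IsDiv S.prm D →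
      ∀ c : L, c ≠ 0 → C.ν.ord c = - D C.ν → ∑ᶠ v, ct S C v D c = dg (S.cl D)) (α : S.Λ) :
    dg α = S.form α (S.cls C.ν) := by
  set f : S.Λ → ℤ := fun β => S.form β (S.cls C.ν) with hf
  set w := LibCUR2.w S (S.cls C.ν) with hw
  have hA1 : 1 ≤ f S.A := LibCUR2.A_pos S hC
  -- step 1
  have h0 : IsDiv S.prm (0 : DVal L → ℤ) := isDiv_zero
  have hcl0 : S.cl (0 : DVal L → ℤ) = 0 := by
    have h1 := LibCUR2.cl_sub S h0 h0
    rw [sub_zero, sub_self] at h1
    exact h1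
  have s1 : f S.A ≤ dg S.A := by
    obtain ⟨n₀, hn₀⟩ := N09_main hC hdg h0
    have h1 : f S.A - dg S.A ≤ 0 := by
      refine N09_lin (b := w + 1) (n₀ + (w.toNat + 1)) fun n hn => ?_
      have h2 := hn₀ n (by omega)
      rw [hcl0, map_zero, map_zero, LinearMap.zero_apply] at h2
      have h3 : w ≤ w.toNat := Int.self_le_toNat w
      have h4 : (w.toNat : ℤ) + 1 ≤ n := by exact_mod_cast le_trans (Nat.le_add_left _ _) hn
      have h5 : (n : ℤ) ≤ n * f S.A := by nlinarith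
      rcases le_max_iff.1 h2 with h6 | h6
      · exfalso
        simp only [hf] at h5
        linarith
      · simp only [hf]
        linarith
    linarith
  -- step 2
  have s2 : dg S.A ≤ f S.A := by
    obtain ⟨c, hc, hcD⟩ := N09_unif hC (S.rep S.A)
    have hdA := hdg _ (S.isDiv_rep S.A) c hc hcD
    rw [S.cl_rep] at hdA
    obtain ⟨k, hk⟩ := restrict_ge hC (S.isDiv_rep S.A) (S.cl_rep S.A) hc hcD (by rw [hdA]; linarith)
    obtain ⟨n₀, hn₀⟩ := LibCUR2.lin_aux S hC h0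
    have h1 : dg S.A - f S.A ≤ 0 := by
      refine N09_lin (b := dg S.A * k - w) n₀ fun n hn => ?_
      have h2 := hn₀ n hn
      have h3 := hk n
      have e1 : (0 : DVal L → ℤ) + n • S.rep S.A = fun ν => n * S.rep S.A ν := by
        funext ν
        simp
      have e2 : (fun ν => (n : ℤ) * S.rep S.A ν) - LibKB2.dlt C.ν =
          fun ν => n * S.rep S.A ν - prd C.ν ν := by
        rw [LibCUR2.dlt_eq_prd]
        rfl
      rw [e1, e2, hcl0, map_zero, LinearMap.zero_apply] at h2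
      rw [hdA] at h3
      simp only [hf]
      linarith
    linarith
  have s3 : dg S.A = f S.A := le_antisymm s2 s1
  -- step 3
  have s4 : ∀ j : ℤ, j * (f α - dg α) ≤ w + 1 := by
    intro j
    obtain ⟨n₀, hn₀⟩ := N09_main hC hdg (S.isDiv_rep (j • α))
    rw [S.cl_rep] at hn₀
    have h1 := hn₀ (n₀ + (-(dg (j • α))).toNat) (by omega)
    have h2 : -(dg (j • α)) ≤ (-(dg (j • α))).toNat := Int.self_le_toNat _
    have h3 : dg (j • α) = j * dg α := by rw [map_zsmul, smul_eq_mul]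
    have h4 : S.form (j • α) (S.cls C.ν) = j * f α := by
      rw [map_zsmul, LinearMap.smul_apply, smul_eq_mul]
    rw [h4, s3] at h1
    set N : ℤ := ((n₀ + (-(dg (j • α))).toNat : ℕ) : ℤ) with hN
    have h5 : -(dg (j • α)) ≤ N := by
      rw [hN]
      push_cast
      linarith
    have h6 : 0 ≤ N := by rw [hN]; positivity
    have h7 : N ≤ N * f S.A := by nlinarith
    rw [max_eq_right (by linarith)] at h1
    have h8 : N * S.form S.A (S.cls C.ν) = N * f S.A := rfl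
    rw [h8, h3] at h1
    linarith
  have := N09_both s4
  linarith

/-- **The degree of a divisor on a rational curve is the intersection number.**
PLAN. `dg` from `exists_degH`. By `LibCUR2.lin_aux S hC hF` : `h0 (F + n A) - h0 (F + n A - C) = form (cl F) C - w + n form A C` for
`n ≥ n₀`. `restrict_le` for `F + n • rep A`: this is `≤ max 0 (dg (cl F) + n dg A + 1)`. (1) `F = 0`: for `n` large:
`n form A C - w ≤ max 0 (n dg A + 1)`, with `form A C ≥ 1` (`LibCUR2.A_pos`): so `form A C ≤ dg A`, in particular `dg A > 0`.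
(2) `restrict_ge` with `D = rep A`: `dg A (n - k) ≤ n form A C - w` for `n` large: `dg A ≤ form A C`. So `dg A = form A C`.
(3) for all `F`, `n` large: `form (cl F) C - w ≤ dg (cl F) + 1`; apply it to `F` of class `j • α`, `j ∈ ℤ`: `j (form α C - dg α) ≤ w + 1`
for all `j`, so `dg α = form α C`. -/
theorem deg_eq (hC : C.ν ∈ S.prm) {D : DVal L → ℤ} (hD : IsDiv S.prm D) {c : L} (hc : c ≠ 0)
    (hcD : C.ν.ord c = - D C.ν) : ∑ᶠ v, ct S C v D c = S.form (S.cl D) (S.cls C.ν) := by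
  obtain ⟨dg, hdg⟩ := exists_degH hC
  rw [hdg D hD c hc hcD]
  exact N09_dg hC hdg _

theorem sum_kap (hC : C.ν ∈ S.prm) {T : DVal L} (hT : T ∈ S.prm) (h : T ≠ C.ν) :
    {v | kap S C v T ≠ 0}.Finite ∧ ∑ᶠ v, kap S C v T = S.form (S.cls T) (S.cls C.ν) := by
  have h1 : C.ν.ord (1 : L) = - prd T C.ν := by
    rw [C.ν.ord_one, prd_ne h.symm, neg_zero]
  have hD : IsDiv S.prm (prd T) := isDiv_prd T
  refine ⟨ct_finite hC hD one_ne_zero h1, ?_⟩
  have h2 := deg_eq hC hD one_ne_zero h1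
  have h3 : S.cl (prd T) = S.cls T := LibLB.clOf_prd hT
  rw [h3] at h2
  exact h2

end

end Pool.Agent.LibK3
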