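import Pool.Agent.LibK3.Base

set_option autoImplicit false

open Pool.Agent.LibGMM Pool.Agent.LibK Pool.Agent.LibKB
open Pool.Agent.LibLB (PSurf RLR)
open Pool.Agent.LibCov80 (Over)

namespace Pool.Agent.LibK3

section

variable {L : Type} [Field L] [Algebra ℂ L] {S : PSurf L} {C : RC L}


theorem mv_inv_mv (γ : L ≃ₐ[ℂ] L) (ν : DVal L) : mv γ⁻¹ (mv γ ν) = ν := by
  rw [← mv_mul, inv_mul_cancel, mv_one]

theorem mv_mv_inv (γ : L ≃ₐ[ℂ] L) (ν : DVal L) : mv γ (mv γ⁻¹ ν) = ν := by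
  rw [← mv_mul, mul_inv_cancel, mv_one]

private theorem N10_map_one (x : Subalgebra ℂ L) :
    x.map ((1 : L ≃ₐ[ℂ] L) : L →ₐ[ℂ] L) = x := Subalgebra.map_id x

private theorem N10_map_mul (γ γ' : L ≃ₐ[ℂ] L) (x : Subalgebra ℂ L) :
    x.map ((γ * γ' : L ≃ₐ[ℂ] L) : L →ₐ[ℂ] L) =
      (x.map (γ' : L →ₐ[ℂ] L)).map (γ : L →ₐ[ℂ] L) :=
  (Subalgebra.map_map x (γ : L →ₐ[ℂ] L) (γ' : L →ₐ[ℂ] L)).symm

private theorem N10_one : Perm S (1 : L ≃ₐ[ℂ] L) where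
  prm ν hν := by
    rw [mv_one]
    exact hν
  prm' ν hν := by
    rw [inv_one, mv_one]
    exact hν
  pts x hx := by
    rw [N10_map_one]
    exact hx
  pts' x hx := by
    rw [inv_one, N10_map_one]
    exact hx

private theorem N10_mul {γ γ' : L ≃ₐ[ℂ] L} (h : Perm S γ) (h' : Perm S γ') :
    Perm S (γ * γ') where
  prm ν hν := by
    rw [mv_mul]
    exact h.prm _ (h'.prm _ hν)
  prm' ν hν := by
    rw [mul_inv_rev, mv_mul]
    exact h'.prm' _ (h.prm' _ hν)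
  pts x hx := by
    rw [N10_map_mul]
    exact h.pts _ (h'.pts _ hx)
  pts' x hx := by
    rw [mul_inv_rev, N10_map_mul]
    exact h'.pts' _ (h.pts' _ hx)

private theorem N10_inv {γ : L ≃ₐ[ℂ] L} (h : Perm S γ) : Perm S γ⁻¹ where
  prm := h.prm'
  prm' ν hν := by
    rw [inv_inv]
    exact h.prm ν hν
  pts := h.pts'
  pts' x hx := by
    rw [inv_inv]
    exact h.pts x hx

private theorem N10_npow {γ : L ≃ₐ[ℂ] L} (h : Perm S γ) (n : ℕ) : Perm S (γ ^ n) := by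
  induction n with
  | zero =>
    rw [pow_zero]
    exact N10_one
  | succ n ih =>
    rw [pow_succ]
    exact N10_mul ih h

/-- PLAN. Natural powers by induction (`mv_mul`, `Subalgebra.map_map`), negative ones by the symmetry of `Perm`. -/
theorem Perm.pow {γ : L ≃ₐ[ℂ] L} (h : Perm S γ) (m : ℤ) : Perm S (γ ^ m) := by
  cases m with
  | ofNat n =>
    rw [Int.ofNat_eq_natCast, zpow_natCast]
    exact N10_npow h n
  | negSucc n =>
    rw [zpow_negSucc]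
    exact N10_inv (N10_npow h (n + 1))

theorem Perm.inv {γ : L ≃ₐ[ℂ] L} (h : Perm S γ) : Perm S γ⁻¹ := N10_inv h

theorem tr_isDiv {γ : L ≃ₐ[ℂ] L} (h : Perm S γ) {D : DVal L → ℤ} (hD : IsDiv S.prm D) :
    IsDiv S.prm (tr γ D) := by
  have hinj : Function.Injective (mv γ⁻¹ : DVal L → DVal L) :=
    Function.LeftInverse.injective (g := mv γ) fun ν => mv_mv_inv γ ν
  exact (Set.Finite.preimage hinj.injOn hD).subset fun ν hν => ⟨h.prm' ν hν.1, hν.2⟩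

theorem tr_mul (γ γ' : L ≃ₐ[ℂ] L) (D : DVal L → ℤ) : tr (γ * γ') D = tr γ (tr γ' D) := by
  funext ν
  unfold tr
  rw [mul_inv_rev, mv_mul]

private theorem N10_tr_one (D : DVal L → ℤ) : tr 1 D = D := by
  funext ν
  unfold tr
  rw [inv_one, mv_one]

private theorem N10_sec {γ : L ≃ₐ[ℂ] L} (h : Perm S γ) {D : DVal L → ℤ} {f : L}
    (hf : f ∈ sec S.prm D) : γ f ∈ sec S.prm (tr γ D) := by
  intro ν hν hne
  have hf0 : f ≠ 0 := by
    rintro rfl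
    exact hne (map_zero γ)
  exact hf (mv γ⁻¹ ν) (h.prm' ν hν) hf0

/-- PLAN. `f ∈ sec D ↔ γ f ∈ sec (tr γ D)`; the linear equivalence `γ` restricts to it. -/
theorem tr_h0 {γ : L ≃ₐ[ℂ] L} (h : Perm S γ) (D : DVal L → ℤ) : h0 S.prm (tr γ D) = h0 S.prm D := by
  have h1 : (sec S.prm D).map (γ.toLinearEquiv : L →ₗ[ℂ] L) = sec S.prm (tr γ D) := by
    ext f
    constructor
    · rintro ⟨g, hg, rfl⟩
      exact N10_sec h hg
    · intro hf
      refine ⟨γ⁻¹ f, ?_, γ.apply_symm_apply f⟩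
      have h2 := N10_sec (N10_inv h) hf
      rwa [← tr_mul, inv_mul_cancel, N10_tr_one] at h2
  unfold h0
  rw [← h1]
  exact (LinearEquiv.finrank_eq (γ.toLinearEquiv.submoduleMap (sec S.prm D))).symm

theorem tr_sec {γ : L ≃ₐ[ℂ] L} (h : Perm S γ) {D : DVal L → ℤ} {f : L} (hf : f ∈ sec S.prm D) :
    γ f ∈ sec S.prm (tr γ D) := N10_sec h hf

theorem tr_prd (γ : L ≃ₐ[ℂ] L) (ν : DVal L) : tr γ (prd ν) = prd (mv γ ν) := by
  funext μ
  unfold tr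
  by_cases hμ : μ = mv γ ν
  · subst hμ
    rw [mv_inv_mv, prd_self, prd_self]
  · rw [prd_ne hμ, prd_ne]
    intro h1
    exact hμ (by rw [← h1, mv_mv_inv])

theorem tr_locEqn {γ : L ≃ₐ[ℂ] L} (h : Perm S γ) {D : DVal L → ℤ} {x : Subalgebra ℂ L} {f : L}
    (hf : LocEqn S.prm x D f) : LocEqn S.prm (x.map (γ : L →ₐ[ℂ] L)) (tr γ D) (γ f) := by
  refine ⟨fun h0 => hf.1 ((map_eq_zero_iff γ γ.injective).1 h0), fun ν hν hx => ?_⟩
  exact hf.2 (mv γ⁻¹ ν) (h.prm' ν hν) fun z hz => hx (Subalgebra.mem_map.2 ⟨z, hz, rfl⟩)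

/-- The class of the push forward only depends on the class.
PLAN. `PSurf.exists_lin`: `D' = D + div f` on the primes, `tr γ (div f) = div (γ f)`. -/
theorem tr_cl {γ : L ≃ₐ[ℂ] L} (h : Perm S γ) {D D' : DVal L → ℤ} (hD : IsDiv S.prm D)
    (hD' : IsDiv S.prm D') (hDD : S.cl D = S.cl D') : S.cl (tr γ D) = S.cl (tr γ D') := by
  obtain ⟨g, hg, h1⟩ := PSurf.exists_lin hD' hD hDD
  have hg' : γ g ≠ 0 := fun h0 => hg ((map_eq_zero_iff γ γ.injective).1 h0)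
  have h2 : ∀ ν ∈ S.prm, tr γ D ν = tr γ D' ν + ν.ord (γ g) := fun ν hν =>
    h1 (mv γ⁻¹ ν) (h.prm' ν hν)
  have h3 : S.cl (tr γ D) = LibLB.clOf S.prm S.cls (fun ν => tr γ D' ν + ν.ord (γ g)) :=
    LibLB.clOf_congr h2
  rw [h3, LibLB.clOf_add (tr_isDiv h hD') (isDiv_ord S.finDiv hg'), S.cl_div _ hg', add_zero]
  rfl

end

end Pool.Agent.LibK3
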