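import Pool.Agent.LibK3.N09
import Pool.Agent.LibK3.N10

set_option autoImplicit false

open Pool.Agent.LibGMM Pool.Agent.LibK Pool.Agent.LibKB
open Pool.Agent.LibLB (PSurf RLR)
open Pool.Agent.LibCov80 (Over)

namespace Pool.Agent.LibK3

section

variable {L : Type} [Field L] [Algebra ℂ L] {S : PSurf L} {C : RC L}


private theorem N11_isCtr {γ : L ≃ₐ[ℂ] L} (h : Perm S γ) {v : Plc} {x : Subalgebra ℂ L}
    (hx : IsCtr S C v x) : IsCtr S (C.mv γ) v (x.map (γ : L →ₐ[ℂ] L)) := by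
  refine ⟨h.pts _ hx.pts, ?_, ?_, ?_⟩
  · rintro _ ⟨w, hw, rfl⟩
    show ((γ : L →ₐ[ℂ] L) w) ∈ (mv γ C.ν).ring
    rw [mem_mv_ring]
    have e : γ.symm ((γ : L →ₐ[ℂ] L) w) = w := γ.symm_apply_apply w
    rw [e]
    exact hx.le hw
  · rintro _ ⟨w, hw, rfl⟩
    have e : (C.mv γ).ψ ((γ : L →ₐ[ℂ] L) w) = C.ψ w := by
      rw [RC.mv_ψ]
      exact congrArg C.ψ (γ.symm_apply_apply w)
    have h1 := hx.nonneg w hw
    rw [← e] at h1
    exact h1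
  · rintro _ ⟨w, hw, rfl⟩ hinv
    have e : (C.mv γ).ψ ((γ : L →ₐ[ℂ] L) w) = C.ψ w := by
      rw [RC.mv_ψ]
      exact congrArg C.ψ (γ.symm_apply_apply w)
    have hw' : w⁻¹ ∉ x := by
      intro h0
      apply hinv
      exact ⟨w⁻¹, h0, map_inv₀ _ _⟩
    have h1 := hx.pos w hw hw'
    rw [← e] at h1
    exact h1

/-- PLAN. `(ctr S C v).map γ` satisfies `IsCtr S (C.mv γ) v`; `isCtr_unique`. -/
theorem ctr_mv {γ : L ≃ₐ[ℂ] L} (h : Perm S γ) (hC : C.ν ∈ S.prm) (v : Plc) :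
    ctr S (C.mv γ) v = (ctr S C v).map (γ : L →ₐ[ℂ] L) := by
  have hC' : (C.mv γ).ν ∈ S.prm := h.prm _ hC
  exact isCtr_unique hC' (isCtr_ctr hC' v) (N11_isCtr h (isCtr_ctr hC v))

/-- PLAN. `tr_locEqn`, `ct_eq` on both sides. -/
theorem ct_mv {γ : L ≃ₐ[ℂ] L} (h : Perm S γ) (hC : C.ν ∈ S.prm) (v : Plc) {D : DVal L → ℤ}
    (hD : IsDiv S.prm D) {c : L} (hc : c ≠ 0) (hcD : C.ν.ord c = - D C.ν) :
    ct S (C.mv γ) v (tr γ D) (γ c) = ct S C v D c := by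
  have hC' : (C.mv γ).ν ∈ S.prm := h.prm _ hC
  have hx := isCtr_ctr hC v
  have hf := leq_spec hD hx.pts
  have hc' : γ c ≠ 0 := by simpa using hc
  have hcD' : (C.mv γ).ν.ord (γ c) = - tr γ D (C.mv γ).ν := by
    rw [RC.mv_ν, mv_ord, AlgEquiv.symm_apply_apply, hcD]
    unfold tr
    rw [mv_inv_mv]
  have h1 := (ct_eq hC' (N11_isCtr h hx) (tr_isDiv h hD) (tr_locEqn h hf) hc' hcD').1
  rw [h1]
  have e : (C.mv γ).ψ (γ c * γ (leq S D (ctr S C v))) = C.ψ (c * leq S D (ctr S C v)) := by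
    rw [RC.mv_ψ, ← map_mul, AlgEquiv.symm_apply_apply]
  rw [e]
  rfl

private theorem N11_exists (ν : DVal L) (n : ℤ) : ∃ c : L, c ≠ 0 ∧ ν.ord c = n := by
  obtain ⟨t, ht⟩ := ν.exists_ord_one
  have ht0 : t ≠ 0 := by
    rintro rfl
    rw [ν.ord_zero] at ht
    exact zero_ne_one ht
  have h1 : ν.ord 1 = 0 := by
    have h2 := ν.ord_mul 1 1 one_ne_zero one_ne_zero
    rw [mul_one] at h2
    omega
  have hp : ∀ m : ℕ, ν.ord (t ^ m) = m := by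
    intro m
    induction m with
    | zero => rw [pow_zero, h1]; rfl
    | succ m ih =>
      rw [pow_succ, ν.ord_mul _ _ (pow_ne_zero _ ht0) ht0, ih, ht]
      push_cast
      rfl
  rcases Int.le_total 0 n with hn | hn
  · refine ⟨t ^ n.toNat, pow_ne_zero _ ht0, ?_⟩
    rw [hp, Int.toNat_of_nonneg hn]
  · refine ⟨(t ^ (-n).toNat)⁻¹, inv_ne_zero (pow_ne_zero _ ht0), ?_⟩
    have h2 := ν.ord_mul (t ^ (-n).toNat) (t ^ (-n).toNat)⁻¹ (pow_ne_zero _ ht0)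
      (inv_ne_zero (pow_ne_zero _ ht0))
    rw [mul_inv_cancel₀ (pow_ne_zero _ ht0), h1, hp, Int.toNat_of_nonneg (by omega)] at h2
    omega

/-- PLAN. `deg_eq` on both sides with `c` and `γ c` (`c = t ^ (- D C.ν)`), `ct_mv`. -/
theorem form_mv {γ : L ≃ₐ[ℂ] L} (h : Perm S γ) (hC : C.ν ∈ S.prm) {D : DVal L → ℤ}
    (hD : IsDiv S.prm D) :
    S.form (S.cl (tr γ D)) (S.cls (mv γ C.ν)) = S.form (S.cl D) (S.cls C.ν) := by
  have hC' : (C.mv γ).ν ∈ S.prm := h.prm _ hC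
  obtain ⟨c, hc, hcD⟩ := N11_exists C.ν (- D C.ν)
  have hc' : γ c ≠ 0 := by simpa using hc
  have hcD' : (C.mv γ).ν.ord (γ c) = - tr γ D (C.mv γ).ν := by
    rw [RC.mv_ν, mv_ord, AlgEquiv.symm_apply_apply, hcD]
    unfold tr
    rw [mv_inv_mv]
  have h1 := deg_eq hC hD hc hcD
  have h2 := deg_eq hC' (tr_isDiv h hD) hc' hcD'
  rw [RC.mv_ν] at h2
  rw [← h1, ← h2]
  exact finsum_congr fun v => ct_mv h hC v hD hc hcD

end

end Pool.Agent.LibK3
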