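import Pool.Agent.LibK3.N10

set_option autoImplicit false

open Pool.Agent.LibGMM Pool.Agent.LibK Pool.Agent.LibKB
open Pool.Agent.LibLB (PSurf RLR)
open Pool.Agent.LibCov80 (Over)

namespace Pool.Agent.LibK3

namespace Sys

variable {L : Type} [Field L] [Algebra ℂ L] (X : Sys L)


theorem lam_gt : 1 < X.lam := by
  have h1 : (3 : ℝ) ≤ (X.a : ℝ) := by exact_mod_cast X.ha
  have h2 : 0 ≤ Real.sqrt ((X.a : ℝ) ^ 2 - 4) := Real.sqrt_nonneg _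
  unfold lam
  linarith

/-- `λ` is a root of `λ² - a λ + 1`. -/
theorem lam_eq : X.lam + X.lam⁻¹ = X.a := by
  have h0 := X.lam_gt
  have h1 : (3 : ℝ) ≤ (X.a : ℝ) := by exact_mod_cast X.ha
  have h2 : Real.sqrt ((X.a : ℝ) ^ 2 - 4) ^ 2 = (X.a : ℝ) ^ 2 - 4 :=
    Real.sq_sqrt (by nlinarith)
  have h3 : X.lam * (X.a - X.lam) = 1 := by
    unfold lam
    nlinarith
  have h4 : X.lam⁻¹ = X.a - X.lam := inv_eq_of_mul_eq_one_right h3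
  rw [h4]
  ring

theorem isDiv_H (m : ℤ) : IsDiv X.S.prm (X.H m) := tr_isDiv (X.perm.pow m) X.isDiv_hyp

theorem α_zero : X.α 0 = X.S.A := by
  have h : X.H 0 = hyp X.g := by
    funext ν
    show hyp X.g (mv (X.γ ^ (0 : ℤ))⁻¹ ν) = hyp X.g ν
    rw [zpow_zero, inv_one, mv_one]
  show X.S.cl (X.H 0) = X.S.A
  rw [h, X.cl_hyp]

/-- `H (m + 1) + H (m - 1) = a H m + div (γ^m φ)` on the primes: `X.rel` at `mv (γ ^ (-m)) ν`. -/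
theorem H_rec (m : ℤ) {ν : DVal L} (hν : ν ∈ X.S.prm) :
    X.H (m + 1) ν + X.H (m - 1) ν = X.a * X.H m ν + ν.ord ((X.γ ^ m) X.φ) := by
  have h1 := X.rel _ ((X.perm.pow m).prm' ν hν)
  rw [← mv_mul, ← mv_mul] at h1
  have e1 : X.γ * (X.γ ^ m)⁻¹ = (X.γ ^ (m - 1))⁻¹ := by
    rw [← zpow_neg, ← zpow_neg, ← zpow_one_add]
    congr 1
    ring
  have e2 : X.γ⁻¹ * (X.γ ^ m)⁻¹ = (X.γ ^ (m + 1))⁻¹ := by
    rw [← zpow_neg, ← zpow_neg, ← zpow_neg_one, ← zpow_add]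
    congr 1
    ring
  rw [e1, e2] at h1
  have e3 : (mv (X.γ ^ m)⁻¹ ν).ord X.φ = ν.ord ((X.γ ^ m) X.φ) := rfl
  rw [e3] at h1
  show hyp X.g (mv (X.γ ^ (m + 1))⁻¹ ν) + hyp X.g (mv (X.γ ^ (m - 1))⁻¹ ν) =
    X.a * hyp X.g (mv (X.γ ^ m)⁻¹ ν) + ν.ord ((X.γ ^ m) X.φ)
  omega

private theorem N12_pow_ne (m : ℤ) {z : L} (hz : z ≠ 0) : (X.γ ^ m) z ≠ 0 :=
  (map_ne_zero_iff _ (X.γ ^ m).injective).2 hz

/-- PLAN. From `H_rec`, `LibLB.clOf_add`, `clOf_zsmul`, `clOf_congr`, `S.cl_div`. -/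
theorem α_rec (m : ℤ) : X.α (m + 1) + X.α (m - 1) = X.a • X.α m := by
  have hφ : (X.γ ^ m) X.φ ≠ 0 := N12_pow_ne X m X.hφ
  show LibLB.clOf X.S.prm X.S.cls (X.H (m + 1)) + LibLB.clOf X.S.prm X.S.cls (X.H (m - 1)) =
    X.a • LibLB.clOf X.S.prm X.S.cls (X.H m)
  rw [← LibLB.clOf_add (X.isDiv_H _) (X.isDiv_H _), LibLB.clOf_congr fun ν hν => X.H_rec m hν,
    LibLB.clOf_add ((X.isDiv_H m).zsmul X.a) (isDiv_ord X.S.finDiv hφ),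
    LibLB.clOf_zsmul X.a (X.isDiv_H m), X.S.cl_div _ hφ, add_zero]

theorem hyp_nonneg (ν : DVal L) : 0 ≤ hyp X.g ν := by
  have := X.fin
  obtain ⟨i, hi⟩ := X.one
  have h1 : ⨅ j, ν.ord (X.g j) ≤ ν.ord (X.g i) :=
    ciInf_le (Set.finite_range fun j => ν.ord (X.g j)).bddBelow i
  have h2 : ν.ord (X.g i) = 0 := by
    rw [hi]
    have := ν.ord_const 1
    rwa [map_one] at this
  unfold hyp
  omega

theorem H_nonneg (m : ℤ) (ν : DVal L) : 0 ≤ X.H m ν := X.hyp_nonneg _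

theorem H_eq (m : ℤ) (ν : DVal L) : X.H m ν = - ⨅ i, ν.ord ((X.γ ^ m) (X.g i)) := rfl

/-- Local equations of `H m`. PLAN. `X.gen` at the point `γ^{-m} x`. -/
theorem locEqn_H (m : ℤ) {x : Subalgebra ℂ L} (hx : x ∈ X.S.pts) : ∃ i,
    (∀ j, (X.γ ^ m) (X.g j / X.g i) ∈ x) ∧ LocEqn X.S.prm x (X.H m) ((X.γ ^ m) (X.g i))⁻¹ := by
  have := X.fin
  have := X.ne
  obtain ⟨i, hi, -⟩ := X.gen _ ((X.perm.pow m).pts' x hx)
  have hmem : ∀ j, (X.γ ^ m) (X.g j / X.g i) ∈ x := by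
    intro j
    have h1 : X.g j / X.g i ∈ x.map (((X.γ ^ m)⁻¹ : L ≃ₐ[ℂ] L) : L →ₐ[ℂ] L) :=
      hi (Algebra.subset_adjoin ⟨j, rfl⟩)
    obtain ⟨w, hw, hwz⟩ := h1
    have h2 : (X.γ ^ m) (X.g j / X.g i) = w := by
      rw [← hwz]
      exact (X.γ ^ m).apply_symm_apply w
    rw [h2]
    exact hw
  have hgi := N12_pow_ne X m (X.g_ne i)
  refine ⟨i, hmem, inv_ne_zero hgi, fun ν hν hxν => ?_⟩
  have h1 : ∀ j, ν.ord ((X.γ ^ m) (X.g i)) ≤ ν.ord ((X.γ ^ m) (X.g j)) := by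
    intro j
    have hgj := N12_pow_ne X m (X.g_ne j)
    have h2 : 0 ≤ ν.ord ((X.γ ^ m) (X.g j / X.g i)) := hxν (hmem j)
    rw [map_div₀, div_eq_mul_inv, ν.ord_mul _ _ hgj (inv_ne_zero hgi), ord_inv ν hgi] at h2
    omega
  have h2 : ⨅ j, ν.ord ((X.γ ^ m) (X.g j)) = ν.ord ((X.γ ^ m) (X.g i)) :=
    le_antisymm (ciInf_le (Set.finite_range fun j => ν.ord ((X.γ ^ m) (X.g j))).bddBelow i)
      (le_ciInf h1)
  rw [ord_inv ν hgi, H_eq, h2]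

end Sys

end Pool.Agent.LibK3
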