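import Pool.Agent.LibCUR2.Facts
import Pool.Agent.LibK3.N12

set_option autoImplicit false

open Pool.Agent.LibGMM Pool.Agent.LibK Pool.Agent.LibKB
open Pool.Agent.LibLB (PSurf RLR)
open Pool.Agent.LibCov80 (Over)

namespace Pool.Agent.LibK3

namespace Sys

variable {L : Type} [Field L] [Algebra ℂ L] (X : Sys L)


private theorem N13_nonneg (m : ℤ) {ν : DVal L} (hν : ν ∈ X.S.prm) :
    0 ≤ X.S.form (X.α m) (X.S.cls ν) := by
  have := X.fin
  have := X.ne
  refine (LibCUR2.curve X.S hν).2.2.1 _ ?_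
  show X.S.hh (X.S.cl (X.H m) - X.S.cls ν) < X.S.hh (X.S.cl (X.H m))
  rw [← LibCUR2.h0_sub X.S hν (X.isDiv_H m), PSurf.hh_cl (X.isDiv_H m)]
  have hfin := X.S.finSec (X.H m) (X.isDiv_H m)
  refine Submodule.finrank_lt_finrank_of_lt ?_
  refine lt_of_le_of_ne ?_ ?_
  · intro f hf μ hμ hf0
    have h1 := hf μ hμ hf0
    have h2 := prd_nonneg ν μ
    have h3 : 0 ≤ μ.ord f + (X.H m μ - prd ν μ) := h1
    omega
  · intro heq
    obtain ⟨i, hi⟩ := exists_eq_ciInf_of_finite (f := fun j => ν.ord ((X.γ ^ m) (X.g j)))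
    have hg0 : (X.γ ^ m) (X.g i) ≠ 0 := (map_ne_zero_iff _ (X.γ ^ m).injective).2 (X.g_ne i)
    have h1 : (X.γ ^ m) (X.g i) ∈ sec X.S.prm (X.H m) := by
      intro μ _ _
      rw [X.H_eq m μ]
      have h2 : ⨅ j, μ.ord ((X.γ ^ m) (X.g j)) ≤ μ.ord ((X.γ ^ m) (X.g i)) :=
        ciInf_le (Set.finite_range fun j => μ.ord ((X.γ ^ m) (X.g j))).bddBelow i
      omega
    rw [← heq] at h1
    have h2 : 0 ≤ ν.ord ((X.γ ^ m) (X.g i)) + (X.H m ν - prd ν ν) := h1 ν hν hg0
    have h3 : ν.ord ((X.γ ^ m) (X.g i)) = ⨅ j, ν.ord ((X.γ ^ m) (X.g j)) := hi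
    rw [prd_self, X.H_eq m ν, ← h3] at h2
    omega

private theorem N13_rec (m : ℤ) (ν : DVal L) : X.S.form (X.α (m + 1)) (X.S.cls ν) +
    X.S.form (X.α (m - 1)) (X.S.cls ν) = X.a * X.S.form (X.α m) (X.S.cls ν) := by
  have h := congrArg (fun u => X.S.form u (X.S.cls ν)) (X.α_rec m)
  simp only [map_add, LinearMap.add_apply, map_zsmul, LinearMap.smul_apply, smul_eq_mul] at h
  exact h

/-- PLAN. `0 ≤`: by `locEqn_H` at a point `x` on `ν` the section `γ^m g_i` of `H m` has order `0` at `ν` (twisted), so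
`h0 (H m - prd ν) < h0 (H m)`, and `(LibCUR2.curve S hν).2.2.1` (with `PSurf.hh_cl`, `LibCUR2.hh_sub`/`h0_sub`) gives
`0 ≤ form (α m) (cls ν)`. Recursion `α_rec`: `d (m+1) + d (m-1) = a d m`, all `d m ≥ 0`, `d 0 ≥ 1` (`α_zero`,
`LibCUR2.A_pos`): if some `d m = 0` then `d (m+1) = d (m-1) = 0` and by induction all are `0`. -/
theorem form_α_pos (m : ℤ) {ν : DVal L} (hν : ν ∈ X.S.prm) : 1 ≤ X.S.form (X.α m) (X.S.cls ν) := by
  by_contra hcon
  have h0 : X.S.form (X.α m) (X.S.cls ν) = 0 := by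
    have := X.N13_nonneg m hν
    omega
  have key : ∀ k : ℤ, X.S.form (X.α (m + k)) (X.S.cls ν) = 0 := by
    intro k
    induction k using Int.induction_on with
    | zero => rw [add_zero]; exact h0
    | succ k ih =>
      have h1 := X.N13_rec (m + k) ν
      rw [ih, mul_zero] at h1
      have h2 := X.N13_nonneg (m + k + 1) hν
      have h3 := X.N13_nonneg (m + k - 1) hν
      rw [← add_assoc]
      omega
    | pred k ih =>
      have h1 := X.N13_rec (m + -k) ν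
      rw [ih, mul_zero] at h1
      have h2 := X.N13_nonneg (m + -k + 1) hν
      have h3 := X.N13_nonneg (m + -k - 1) hν
      have e : m + (-(k : ℤ) - 1) = m + -(k : ℤ) - 1 := by ring
      rw [e]
      omega
  have h1 := key (-m)
  rw [add_neg_cancel, X.α_zero] at h1
  have h2 := LibCUR2.A_pos X.S hν
  omega

end Sys

end Pool.Agent.LibK3
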