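import Mathlib

set_option autoImplicit false

namespace Pool.Agent.LibK3

/-- A positive solution of the recursion grows in both directions.
PLAN. `l² - a l + 1 = 0`, `l > 1` (as `a ≥ 3`), `l⁻¹ = a - l` is the other root. Put
`x := (d 1 - l⁻¹ d 0) / (l - l⁻¹)`, `y := (l d 0 - d 1) / (l - l⁻¹)`: then `d m = x l^m + y l^(-m)` for `m = 0, 1`
and for all `m ∈ ℤ` by the recursion (two-sided induction, `Int.induction_on`; both sides satisfy the recursion).
Positivity: if `x < 0` then `d m → -∞` for `m → ∞`; if `x = 0` then `d m = y l^(-m) → 0`, but `1 ≤ d m`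
(`tendsto_pow_atTop_nhds_zero_of_lt_one`). So `x > 0`; the same for `m → -∞` gives `y > 0`. -/
theorem growth_seq {a : ℤ} (ha : 3 ≤ a) {d : ℤ → ℤ} (h1 : ∀ m, 1 ≤ d m)
    (h : ∀ m, d (m + 1) + d (m - 1) = a * d m) {l : ℝ}
    (hl : l = ((a : ℝ) + Real.sqrt ((a : ℝ) ^ 2 - 4)) / 2) :
    ∃ x y : ℝ, 0 < x ∧ 0 < y ∧ ∀ m : ℤ, (d m : ℝ) = x * l ^ m + y * l ^ (-m) := by
  have haR : (3 : ℝ) ≤ (a : ℝ) := by exact_mod_cast ha
  have hdisc : (0 : ℝ) ≤ (a : ℝ) ^ 2 - 4 := by nlinarith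
  have hsq := Real.sq_sqrt hdisc
  have hs0 := Real.sqrt_nonneg ((a : ℝ) ^ 2 - 4)
  have hl1 : 1 < l := by rw [hl]; linarith
  have hl0 : l ≠ 0 := by positivity
  have hlp : 0 < l := by linarith
  have hq : l ^ 2 - a * l + 1 = 0 := by
    rw [hl]
    linear_combination (1 / 4) * hsq
  have hinv : l⁻¹ = a - l := by
    field_simp
    linear_combination hq
  have hD : l - l⁻¹ ≠ 0 := by
    have : l⁻¹ < 1 := inv_lt_one_of_one_lt₀ hl1
    linarith
  set x : ℝ := ((d 1 : ℝ) - l⁻¹ * d 0) / (l - l⁻¹) with hx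
  set y : ℝ := (l * d 0 - d 1) / (l - l⁻¹) with hy
  have rec' : ∀ m : ℤ, (d (m + 1) : ℝ) + d (m - 1) = a * d m := by
    intro m
    exact_mod_cast h m
  have rece : ∀ m : ℤ, (x * l ^ (m + 1) + y * l ^ (-(m + 1))) + (x * l ^ (m - 1) + y * l ^ (-(m - 1))) =
      a * (x * l ^ m + y * l ^ (-m)) := by
    intro m
    have e1 : l ^ (m + 1) = l ^ m * l := zpow_add_one₀ hl0 m
    have e2 : l ^ (m - 1) = l ^ m * l⁻¹ := zpow_sub_one₀ hl0 m
    have e3 : l ^ (-(m + 1)) = l ^ (-m) * l⁻¹ := by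
      rw [neg_add, ← sub_eq_add_neg]
      exact zpow_sub_one₀ hl0 (-m)
    have e4 : l ^ (-(m - 1)) = l ^ (-m) * l := by
      rw [neg_sub, sub_eq_neg_add, zpow_add_one₀ hl0]
    rw [e1, e2, e3, e4, hinv]
    ring
  have h00 : (d 0 : ℝ) = x * l ^ (0 : ℤ) + y * l ^ (-(0 : ℤ)) := by
    rw [neg_zero, zpow_zero, mul_one, mul_one, hx, hy, ← add_div, eq_div_iff hD]
    ring
  have h01 : (d 1 : ℝ) = x * l ^ (1 : ℤ) + y * l ^ (-(1 : ℤ)) := by
    rw [zpow_one, zpow_neg_one, hx, hy, div_mul_eq_mul_div, div_mul_eq_mul_div, ← add_div, eq_div_iff hD]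
    ring
  have key : ∀ m : ℤ, (d m : ℝ) = x * l ^ m + y * l ^ (-m) ∧
      (d (m + 1) : ℝ) = x * l ^ (m + 1) + y * l ^ (-(m + 1)) := by
    intro m
    induction m using Int.induction_on with
    | zero => exact ⟨h00, by rw [zero_add]; exact h01⟩
    | succ n ih =>
      refine ⟨ih.2, ?_⟩
      have r1 := rec' (n + 1)
      have r2 := rece (n + 1)
      rw [add_sub_cancel_right] at r1 r2
      linear_combination r1 - r2 + (a : ℝ) * ih.2 - ih.1
    | pred n ih =>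
      have r1 := rec' (-(n : ℤ))
      have r2 := rece (-(n : ℤ))
      refine ⟨?_, ?_⟩
      · linear_combination r1 - r2 + (a : ℝ) * ih.1 - ih.2
      · rw [sub_add_cancel]
        exact ih.1
  have hy0 : 0 < y := by
    by_contra hcon
    push Not at hcon
    obtain ⟨n, hn⟩ := pow_unbounded_of_one_lt x hl1
    have e := (key (-(n : ℤ))).1
    rw [neg_neg, zpow_neg, zpow_natCast] at e
    have h3 : (1 : ℝ) ≤ d (-(n : ℤ)) := by exact_mod_cast h1 _
    have hpos : 0 < l ^ n := pow_pos hlp n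
    have h4 : y * l ^ n ≤ 0 := mul_nonpos_of_nonpos_of_nonneg hcon hpos.le
    have h5 : 1 ≤ x * (l ^ n)⁻¹ := by linarith
    rw [← div_eq_mul_inv, le_div_iff₀ hpos, one_mul] at h5
    linarith
  have hx0 : 0 < x := by
    by_contra hcon
    push Not at hcon
    obtain ⟨n, hn⟩ := pow_unbounded_of_one_lt y hl1
    have e := (key (n : ℤ)).1
    rw [zpow_neg, zpow_natCast] at e
    have h3 : (1 : ℝ) ≤ d (n : ℤ) := by exact_mod_cast h1 _
    have hpos : 0 < l ^ n := pow_pos hlp n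
    have h4 : x * l ^ n ≤ 0 := mul_nonpos_of_nonpos_of_nonneg hcon hpos.le
    have h5 : 1 ≤ y * (l ^ n)⁻¹ := by linarith
    rw [← div_eq_mul_inv, le_div_iff₀ hpos, one_mul] at h5
    linarith
  exact ⟨x, y, hx0, hy0, fun m => (key m).1⟩

end Pool.Agent.LibK3
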