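import Pool.Agent.LibK3.N13
import Pool.Agent.LibK3.NG1

set_option autoImplicit false

open Pool.Agent.LibGMM Pool.Agent.LibK Pool.Agent.LibKB
open Pool.Agent.LibLB (PSurf RLR)
open Pool.Agent.LibCov80 (Over)

namespace Pool.Agent.LibK3

namespace Sys

variable {L : Type} [Field L] [Algebra ℂ L] (X : Sys L)

private theorem N14_bds {x y l : ℝ} (hx : 0 < x) (hy : 0 < y) (hl : 1 < l) (m : ℤ) :
    min x y * l ^ |m| ≤ x * l ^ m + y * l ^ (-m) ∧
      x * l ^ m + y * l ^ (-m) ≤ (x + y) * l ^ |m| := by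
  have hl0 : 0 < l := by linarith
  have hp : ∀ n : ℤ, 0 < l ^ n := fun n => zpow_pos hl0 n
  have hmono : ∀ n k : ℤ, n ≤ k → l ^ n ≤ l ^ k := fun n k h => zpow_le_zpow_right₀ hl.le h
  have h1 : l ^ m ≤ l ^ |m| := hmono _ _ (le_abs_self m)
  have h2 : l ^ (-m) ≤ l ^ |m| := hmono _ _ (neg_le_abs m)
  refine ⟨?_, ?_⟩
  · rcases abs_choice m with h | h
    · rw [h]
      calc min x y * l ^ m ≤ x * l ^ m :=
            mul_le_mul_of_nonneg_right (min_le_left _ _) (hp m).le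
        _ ≤ x * l ^ m + y * l ^ (-m) := le_add_of_nonneg_right (mul_pos hy (hp _)).le
    · rw [h]
      calc min x y * l ^ (-m) ≤ y * l ^ (-m) :=
            mul_le_mul_of_nonneg_right (min_le_right _ _) (hp (-m)).le
        _ ≤ x * l ^ m + y * l ^ (-m) := le_add_of_nonneg_left (mul_pos hx (hp _)).le
  · calc x * l ^ m + y * l ^ (-m) ≤ x * l ^ |m| + y * l ^ |m| :=
          add_le_add (mul_le_mul_of_nonneg_left h1 hx.le) (mul_le_mul_of_nonneg_left h2 hy.le)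
      _ = (x + y) * l ^ |m| := by ring

private theorem N14_growth {β : X.S.Λ} (h : ∀ m, 1 ≤ X.S.form (X.α m) β) :
    ∃ c C : ℝ, 0 < c ∧ 0 < C ∧ ∀ m : ℤ,
    c * X.lam ^ |m| ≤ X.S.form (X.α m) β ∧
      (X.S.form (X.α m) β : ℝ) ≤ C * X.lam ^ |m| := by
  have hrec : ∀ m : ℤ, X.S.form (X.α (m + 1)) β + X.S.form (X.α (m - 1)) β =
      X.a * X.S.form (X.α m) β := by
    intro m
    have h1 := congrArg (fun u => X.S.form u β) (X.α_rec m)
    simp only [map_add, LinearMap.add_apply, map_smul, LinearMap.smul_apply, smul_eq_mul] at h1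
    exact h1
  obtain ⟨x, y, hx, hy, hxy⟩ := growth_seq (d := fun m => X.S.form (X.α m) β) X.ha h hrec
    (l := X.lam) rfl
  refine ⟨min x y, x + y, lt_min hx hy, by linarith, fun m => ?_⟩
  have h2 := N14_bds hx hy X.lam_gt m
  have h3 : (X.S.form (X.α m) β : ℝ) = x * X.lam ^ m + y * X.lam ^ (-m) := hxy m
  rw [h3]
  exact h2

/-- Growth of the degree of a curve. -/
theorem growth {ν : DVal L} (hν : ν ∈ X.S.prm) : ∃ c C : ℝ, 0 < c ∧ 0 < C ∧ ∀ m : ℤ,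
    c * X.lam ^ |m| ≤ X.S.form (X.α m) (X.S.cls ν) ∧
      (X.S.form (X.α m) (X.S.cls ν) : ℝ) ≤ C * X.lam ^ |m| :=
  X.N14_growth fun m => X.form_α_pos m hν

private theorem N14_hh (m : ℤ) : 0 < X.S.hh (X.α m) := by
  have h1 : X.S.hh (X.α m) = h0 X.S.prm (X.H m) := PSurf.hh_cl (X.isDiv_H m)
  rw [h1]
  unfold h0
  have := X.S.finSec _ (X.isDiv_H m)
  have hone : (1 : L) ∈ sec X.S.prm (X.H m) := by
    intro ν _ _
    have h2 : ν.ord (1 : L) = 0 := by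
      have := ν.ord_const 1
      rwa [map_one] at this
    rw [h2, zero_add]
    exact X.H_nonneg m ν
  have : Nontrivial (sec X.S.prm (X.H m)) :=
    ⟨⟨⟨1, hone⟩, 0, fun h => one_ne_zero (congrArg Subtype.val h)⟩⟩
  exact Module.finrank_pos

private theorem N14_nef (m : ℤ) : ∀ ν ∈ X.S.prm, 0 ≤ X.S.form (X.α m) (X.S.cls ν) := by
  intro ν hν
  have := X.form_α_pos m hν
  omega

private theorem N14_A (m : ℤ) : 1 ≤ X.S.form (X.α m) X.S.A := by
  classical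
  obtain ⟨E, hE1, hE, hEA⟩ := LibCUR2.exists_effDiv X.S (by
    have := X.N14_hh 0
    rwa [X.α_zero] at this : 0 < X.S.hh X.S.A)
  obtain ⟨μ, hμ, hEμ⟩ : ∃ μ ∈ X.S.prm, E μ ≠ 0 := by
    by_contra hcon
    push Not at hcon
    have h1 : X.S.cl E = 0 := by
      change (∑ᶠ ν ∈ X.S.prm, E ν • X.S.cls ν) = 0
      refine finsum_mem_eq_zero_of_forall_eq_zero fun ν hν => ?_
      rw [hcon ν hν, zero_smul]
    have h2 := X.S.A_sq
    rw [← hEA, h1, map_zero] at h2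
    omega
  have hEμ1 : 1 ≤ E μ := by
    have := hE μ hμ
    omega
  have hE2 : IsDiv X.S.prm (fun ν => E ν + - prd μ ν) := hE1.add (isDiv_prd μ).neg
  have hcl : X.S.cl (fun ν => E ν + - prd μ ν) = X.S.A + - X.S.cls μ := by
    change Pool.Agent.LibLB.clOf _ _ _ = _
    rw [Pool.Agent.LibLB.clOf_add hE1 (isDiv_prd μ).neg,
      Pool.Agent.LibLB.clOf_neg (isDiv_prd μ), Pool.Agent.LibLB.clOf_prd hμ]
    change X.S.cl _ + _ = _
    rw [hEA]
  have hE3 : ∀ ν ∈ X.S.prm, 0 ≤ E ν + - prd μ ν := by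
    intro ν hν
    by_cases h1 : ν = μ
    · subst h1
      rw [prd_self]
      omega
    · rw [prd_ne h1]
      have := hE ν hν
      omega
  have h2 := LibCUR2.form_effDiv X.S (X.N14_nef m) hE3
  rw [hcl, map_add, map_neg] at h2
  have h3 := X.form_α_pos m hμ
  omega

theorem growthA : ∃ c C : ℝ, 0 < c ∧ 0 < C ∧ ∀ m : ℤ,
    c * X.lam ^ |m| ≤ X.S.form (X.α m) X.S.A ∧
      (X.S.form (X.α m) X.S.A : ℝ) ≤ C * X.lam ^ |m| :=
  X.N14_growth X.N14_A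

theorem form_α_sq_nonneg (m : ℤ) : 0 ≤ X.S.form (X.α m) (X.α m) :=
  LibCUR2.form_eff X.S (X.N14_nef m) (X.N14_hh m)

private theorem N14_eff (β : X.S.Λ) : ∃ k0 : ℕ, ∀ k : ℕ, k0 ≤ k → 0 < X.S.hh (k • X.S.A + β) := by
  obtain ⟨k0, hk0⟩ := X.S.serre β
  refine ⟨k0, fun k hk => ?_⟩
  obtain ⟨x, hx⟩ := X.S.ptsNe
  obtain ⟨f, hf⟩ := (hk0 k hk (X.S.rep (k • X.S.A + β)) (X.S.isDiv_rep _) (X.S.cl_rep _)).2.2 x hx
  change 0 < Module.finrank ℂ (sec X.S.prm (X.S.rep (k • X.S.A + β)))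
  have := X.S.finSec _ (X.S.isDiv_rep (k • X.S.A + β))
  have : Nontrivial (sec X.S.prm (X.S.rep (k • X.S.A + β))) :=
    ⟨⟨⟨f, hf.1⟩, 0, fun h => hf.2.1 (congrArg Subtype.val h)⟩⟩
  exact Module.finrank_pos

theorem form_α_le (β : X.S.Λ) : ∃ k : ℕ, ∀ m : ℤ,
    |X.S.form (X.α m) β| ≤ k * X.S.form (X.α m) X.S.A := by
  obtain ⟨k1, hk1⟩ := X.N14_eff β
  obtain ⟨k2, hk2⟩ := X.N14_eff (-β)
  refine ⟨max k1 k2, fun m => ?_⟩
  have h1 := LibCUR2.form_eff X.S (X.N14_nef m) (hk1 (max k1 k2) (le_max_left _ _))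
  have h2 := LibCUR2.form_eff X.S (X.N14_nef m) (hk2 (max k1 k2) (le_max_right _ _))
  rw [map_add, map_nsmul, nsmul_eq_mul] at h1 h2
  rw [map_neg] at h2
  rw [abs_le]
  constructor <;> linarith

theorem exists_nef (β : X.S.Λ) : ∃ k : ℕ, ∀ ν ∈ X.S.prm,
    |X.S.form β (X.S.cls ν)| ≤ k * X.S.form X.S.A (X.S.cls ν) := by
  obtain ⟨k1, hk1⟩ := LibCUR2.nef_serre X.S β
  obtain ⟨k2, hk2⟩ := LibCUR2.nef_serre X.S (-β)
  refine ⟨max k1 k2, fun ν hν => ?_⟩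
  have h1 := hk1 (max k1 k2) (le_max_left _ _) ν hν
  have h2 := hk2 (max k1 k2) (le_max_right _ _) ν hν
  rw [map_add, LinearMap.add_apply, map_nsmul, LinearMap.smul_apply, nsmul_eq_mul] at h1 h2
  rw [map_neg, LinearMap.neg_apply] at h2
  rw [abs_le]
  constructor <;> linarith

end Sys

end Pool.Agent.LibK3
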