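import Pool.Agent.LibK3.N11
import Pool.Agent.LibK3.N14

set_option autoImplicit false

open Pool.Agent.LibGMM Pool.Agent.LibK Pool.Agent.LibKB
open Pool.Agent.LibLB (PSurf RLR)
open Pool.Agent.LibCov80 (Over)

namespace Pool.Agent.LibK3

namespace Sys

variable {L : Type} [Field L] [Algebra ℂ L] (X : Sys L) {C : RC L}


theorem cv_mem (hC : C.ν ∈ X.S.prm) (m : ℤ) : (X.cv C m).ν ∈ X.S.prm :=
  (X.perm.pow m).prm C.ν hC

/-- The degree of `H j` on `C_m`. PLAN. `H j = tr (γ^m) (H (j - m))`; `form_mv`. -/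
theorem form_H_cv (hC : C.ν ∈ X.S.prm) (j m : ℤ) :
    X.S.form (X.α j) (X.S.cls (X.cv C m).ν) = X.S.form (X.α (j - m)) (X.S.cls C.ν) := by
  have h1 : X.H j = tr (X.γ ^ m) (X.H (j - m)) := by
    unfold Sys.H
    rw [← tr_mul, ← zpow_add, add_sub_cancel]
  show X.S.form (X.S.cl (X.H j)) (X.S.cls (mv (X.γ ^ m) C.ν)) =
    X.S.form (X.S.cl (X.H (j - m))) (X.S.cls C.ν)
  rw [h1]
  exact form_mv (X.perm.pow m) hC (X.isDiv_H (j - m))

/-- PLAN. `prd (C_j.ν) = tr (γ^m) (prd (C_(j-m).ν))`, `LibCUR2.cl_dlt`/`clOf_prd`, `form_mv`. -/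
theorem form_cv_cv (hC : C.ν ∈ X.S.prm) (j m : ℤ) :
    X.S.form (X.S.cls (X.cv C j).ν) (X.S.cls (X.cv C m).ν) =
      X.S.form (X.S.cls (X.cv C (j - m)).ν) (X.S.cls C.ν) := by
  have h1 : prd (X.cv C j).ν = tr (X.γ ^ m) (prd (X.cv C (j - m)).ν) := by
    rw [tr_prd]
    congr 1
    show mv (X.γ ^ j) C.ν = mv (X.γ ^ m) (mv (X.γ ^ (j - m)) C.ν)
    rw [← mv_mul, ← zpow_add, add_sub_cancel]
  have h2 : X.S.cls (X.cv C j).ν = X.S.cl (prd (X.cv C j).ν) :=
    (LibLB.clOf_prd (X.cv_mem hC j)).symm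
  have h3 : X.S.cls (X.cv C (j - m)).ν = X.S.cl (prd (X.cv C (j - m)).ν) :=
    (LibLB.clOf_prd (X.cv_mem hC (j - m))).symm
  rw [h2, h3, h1]
  exact form_mv (X.perm.pow m) hC (isDiv_prd _)

/-- PLAN. If `C_j.ν = C_m.ν` then `form_H_cv` gives `d (i - j) = d (i - m)` for all `i`, so `d` is periodic and bounded,
against `growth`. -/
theorem cv_injective (hC : C.ν ∈ X.S.prm) {j m : ℤ} (h : j ≠ m) : (X.cv C j).ν ≠ (X.cv C m).ν := by
  intro heq
  have hper : ∀ n : ℤ, X.S.form (X.α n) (X.S.cls C.ν) =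
      X.S.form (X.α (n + (j - m))) (X.S.cls C.ν) := by
    intro n
    have h1 := X.form_H_cv hC (n + j) j
    have h2 := X.form_H_cv hC (n + j) m
    rw [heq, h2] at h1
    rw [show n + j - j = n by ring, show n + j - m = n + (j - m) by ring] at h1
    exact h1.symm
  have hk : ∀ k : ℕ, X.S.form (X.α (k * (j - m))) (X.S.cls C.ν) =
      X.S.form (X.α 0) (X.S.cls C.ν) := by
    intro k
    induction k with
    | zero => simp
    | succ k ih =>
      rw [← ih, hper (k * (j - m))]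
      congr 2
      push_cast
      ring_nf
  obtain ⟨c, C', hc, -, hg⟩ := X.growth hC
  have hl := X.lam_gt
  obtain ⟨k, hk2⟩ := pow_unbounded_of_one_lt
    ((X.S.form (X.α 0) (X.S.cls C.ν) : ℝ) / c) hl
  have h1 := (hg (k * (j - m))).1
  rw [hk k] at h1
  have h2 : X.lam ^ k ≤ X.lam ^ |(k : ℤ) * (j - m)| := by
    rw [← zpow_natCast]
    apply zpow_le_zpow_right₀ hl.le
    rw [abs_mul, Nat.abs_cast]
    have h3 : 1 ≤ |j - m| := Int.one_le_abs (sub_ne_zero.2 h)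
    nlinarith [Int.natCast_nonneg k]
  rw [div_lt_iff₀ hc] at hk2
  nlinarith

/-- Finite sets of primes are avoided. PLAN. `cv_injective`. -/
theorem cv_avoid (hC : C.ν ∈ X.S.prm) {T : Set (DVal L)} (hT : T.Finite) :
    ∃ m₀ : ℕ, ∀ m : ℕ, m₀ ≤ m → (X.cv C m).ν ∉ T := by
  have hfin : {m : ℕ | (X.cv C m).ν ∈ T}.Finite := by
    refine hT.preimage (f := fun m : ℕ => (X.cv C m).ν) ?_
    intro a _ b _ hab
    by_contra hne
    exact X.cv_injective hC (j := a) (m := b) (by exact_mod_cast hne) hab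
  obtain ⟨b, hb⟩ := hfin.bddAbove
  refine ⟨b + 1, fun m hm hmT => ?_⟩
  have := hb hmT
  omega

end Sys

end Pool.Agent.LibK3
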