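import Pool.Agent.LibK3.N15
import Pool.Agent.LibK3.NP2

set_option autoImplicit false

open Pool.Agent.LibGMM Pool.Agent.LibK Pool.Agent.LibKB
open Pool.Agent.LibLB (PSurf RLR)
open Pool.Agent.LibCov80 (Over)

namespace Pool.Agent.LibK3

namespace Sys

variable {L : Type} [Field L] [Algebra ℂ L] (X : Sys L) {C : RC L}


private theorem N16_min {ν : DVal L} {z : L} (hz : z ∉ Set.range (algebraMap ℂ L)) (c : ℂ) :
    max 0 (-ν.ord (z - algebraMap ℂ L c)) ≤ max 0 (-ν.ord z) := by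
  have hz0 : z ≠ 0 := by
    rintro rfl
    exact hz ⟨0, map_zero _⟩
  have hzc : z - algebraMap ℂ L c ≠ 0 := by
    intro h
    exact hz ⟨c, (sub_eq_zero.1 h).symm⟩
  by_cases hc : c = 0
  · rw [hc, map_zero, sub_zero]
  have hc' : algebraMap ℂ L (-c) ≠ 0 := by
    rw [Ne, map_eq_zero, neg_eq_zero]
    exact hc
  have h1 : z - algebraMap ℂ L c = z + algebraMap ℂ L (-c) := by
    rw [map_neg, sub_eq_add_neg]
  rw [h1] at hzc ⊢
  have h2 := ν.ord_add z (algebraMap ℂ L (-c)) hz0 hc' hzc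
  rw [ν.ord_const] at h2
  rcases min_le_iff.1 h2 with h3 | h3
  · exact max_le_max le_rfl (by omega)
  · rw [max_eq_left (by omega)]
    exact le_max_left _ _

private theorem N16_max {ν : DVal L} {z : L} (hz : z ∉ Set.range (algebraMap ℂ L)) (c : ℂ) :
    max 0 (-ν.ord (z - algebraMap ℂ L c)) = max 0 (-ν.ord z) := by
  refine le_antisymm (N16_min hz c) ?_
  have hz' : z - algebraMap ℂ L c ∉ Set.range (algebraMap ℂ L) := by
    rintro ⟨d, hd⟩
    apply hz
    refine ⟨d + c, ?_⟩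
    rw [map_add, hd, sub_add_cancel]
  have h1 := N16_min (ν := ν) hz' (-c)
  rwa [map_neg, sub_neg_eq_add, sub_add_cancel] at h1

/-- A nonconstant function is not constant on `C_m` for `m` large.
PLAN. `z ∈ ring`: the poles of `z` are finitely many primes (`finDiv`), `cv_avoid`. If `(X.cv C m).ψ z = C c` then `z - c` is in the maximal
ideal of `C_m`; put `D := div_0 (z - c) = fun ν => max 0 (ν.ord (z - c))` and `P := div_∞ = fun ν => max 0 (- ν.ord z)` (`= max 0 (- ν.ord (z - c))`):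
`cl D = cl P` (`S.cl_div`), `D - prd C_m ≥ 0`, so `form A (cls C_m) ≤ form A (cl D) = form A (cl P) =: const` (`LibCUR2.form_effDiv`, `A_pos`). But
`form A (cls C_m) = form (α (-m)) (cls C)` (`form_H_cv`, `α_zero`) tends to infinity (`growth`, `lam_gt`). (`z - c ≠ 0` as `z` is not constant.) -/
theorem cv_nonconst (hC : C.ν ∈ X.S.prm) {z : L} (hz : z ∉ Set.range (algebraMap ℂ L)) :
    ∃ m₀ : ℕ, ∀ m : ℕ, m₀ ≤ m → z ∈ (X.cv C m).ν.ring ∧
      ∀ c, (X.cv C m).ψ z ≠ RatFunc.C c := by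
  have hz0 : z ≠ 0 := by
    rintro rfl
    exact hz ⟨0, map_zero _⟩
  obtain ⟨m₁, hm₁⟩ := X.cv_avoid hC (X.S.finDiv z hz0)
  -- the polar divisor
  set P : DVal L → ℤ := fun ν => max 0 (-ν.ord z) with hP
  have hPdiv : IsDiv X.S.prm P := by
    refine (X.S.finDiv z hz0).subset ?_
    rintro ν ⟨h1, h2⟩
    refine ⟨h1, fun h3 => h2 ?_⟩
    show max 0 (-ν.ord z) = 0
    rw [h3]
    rfl
  obtain ⟨c₀, C', hc₀, -, hg⟩ := X.growth hC
  have hl := X.lam_gt
  obtain ⟨m₂, hm₂⟩ := pow_unbounded_of_one_lt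
    ((X.S.form X.S.A (X.S.cl P) : ℝ) / c₀) hl
  refine ⟨max m₁ m₂, fun m hm => ?_⟩
  have hCm := X.cv_mem hC m
  have hord : (X.cv C m).ν.ord z = 0 := by
    by_contra h
    exact hm₁ m (le_of_max_le_left hm) ⟨hCm, h⟩
  have hring : z ∈ (X.cv C m).ν.ring := by
    rw [mem_ring, hord]
  refine ⟨hring, fun c hc => ?_⟩
  set y : L := z - algebraMap ℂ L c with hy
  have hy0 : y ≠ 0 := by
    intro h
    exact hz ⟨c, (sub_eq_zero.1 h).symm⟩
  have hconst : algebraMap ℂ L (-c) ∈ (X.cv C m).ν.ring := by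
    rw [mem_ring, DVal.ord_const]
  have hy1 : y = z + algebraMap ℂ L (-c) := by
    rw [hy, map_neg, sub_eq_add_neg]
  have hψ : (X.cv C m).ψ y = 0 := by
    rw [hy1, (X.cv C m).add z hring _ hconst, hc, (X.cv C m).const, map_neg, add_neg_cancel]
  have hyring : y ∈ (X.cv C m).ν.ring := by
    rw [hy1]
    exact (X.cv C m).ν.ring.add_mem hring hconst
  have hpos : 0 < (X.cv C m).ν.ord y := by
    rcases ((X.cv C m).zero_iff y hyring).1 hψ with h | h
    · exact absurd h hy0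
    · exact h
  -- the divisor of zeros
  set D : DVal L → ℤ := fun ν => P ν + ν.ord y with hD
  have hydiv : IsDiv X.S.prm (fun ν => ν.ord y) := X.S.finDiv y hy0
  have hclD : X.S.cl D = X.S.cl P := by
    have h1 : X.S.cl D = X.S.cl P + X.S.cl (fun ν => ν.ord y) := LibLB.clOf_add hPdiv hydiv
    have h2 : X.S.cl (fun ν => ν.ord y) = 0 := X.S.cl_div y hy0
    rw [h1, h2, add_zero]
  have hDdiv : IsDiv X.S.prm D := IsDiv.add hPdiv hydiv
  have hDnn : ∀ ν, 0 ≤ D ν ∧ ν.ord y ≤ D ν := by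
    intro ν
    show 0 ≤ max 0 (-ν.ord z) + ν.ord y ∧ ν.ord y ≤ max 0 (-ν.ord z) + ν.ord y
    rw [← N16_max hz c, ← hy]
    have h1 : -ν.ord y ≤ max 0 (-ν.ord y) := le_max_right _ _
    have h2 : 0 ≤ max 0 (-ν.ord y) := le_max_left _ _
    constructor <;> omega
  have hE : ∀ ν ∈ X.S.prm, 0 ≤ (D - prd (X.cv C m).ν) ν := by
    intro ν _
    rw [Pi.sub_apply]
    by_cases h : ν = (X.cv C m).ν
    · rw [h, prd_self]
      have := (hDnn (X.cv C m).ν).2
      omega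
    · rw [prd_ne h]
      have := (hDnn ν).1
      omega
  have hA : ∀ ν ∈ X.S.prm, 0 ≤ X.S.form X.S.A (X.S.cls ν) := fun ν hν =>
    le_trans zero_le_one (LibCUR2.A_pos X.S hν)
  have hform := LibCUR2.form_effDiv X.S hA hE
  rw [LibCUR2.cl_sub X.S hDdiv (isDiv_prd _), hclD, map_sub,
    show X.S.cl (prd (X.cv C m).ν) = X.S.cls (X.cv C m).ν from LibLB.clOf_prd hCm] at hform
  have h1 := X.form_H_cv hC 0 m
  rw [X.α_zero] at h1
  have h2 := (hg (0 - m)).1
  rw [← h1] at h2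
  have h3 : X.lam ^ m₂ ≤ X.lam ^ |(0 : ℤ) - m| := by
    rw [← zpow_natCast]
    apply zpow_le_zpow_right₀ hl.le
    rw [zero_sub, abs_neg, Nat.abs_cast]
    exact_mod_cast le_of_max_le_right hm
  have h4 : (X.S.form X.S.A (X.S.cls (X.cv C m).ν) : ℝ) ≤ X.S.form X.S.A (X.S.cl P) := by
    exact_mod_cast (by omega)
  rw [div_lt_iff₀ hc₀] at hm₂
  nlinarith

end Sys

end Pool.Agent.LibK3
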