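import Pool.Agent.LibK3.N14

set_option autoImplicit false

open Pool.Agent.LibGMM Pool.Agent.LibK Pool.Agent.LibKB
open Pool.Agent.LibLB (PSurf RLR)
open Pool.Agent.LibCov80 (Over)

namespace Pool.Agent.LibK3

namespace Sys

variable {L : Type} [Field L] [Algebra ℂ L] (X : Sys L)


private theorem N17_hh (m n : ℤ) : X.S.hh (n • X.α m) = X.S.hh (n • X.S.A) := by
  have h1 : IsDiv X.S.prm (fun ν => n * X.H m ν) := (X.isDiv_H m).zsmul n
  have h2 : X.S.cl (fun ν => n * X.H m ν) = n • X.α m := LibLB.clOf_zsmul n (X.isDiv_H m)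
  have h3 : IsDiv X.S.prm (fun ν => n * hyp X.g ν) := X.isDiv_hyp.zsmul n
  have h4 : X.S.cl (fun ν => n * hyp X.g ν) = n • X.S.A := by
    rw [← X.cl_hyp]
    exact LibLB.clOf_zsmul n X.isDiv_hyp
  rw [← h2, ← h4, PSurf.hh_cl h1, PSurf.hh_cl h3]
  exact tr_h0 (X.perm.pow m) (fun ν => n * hyp X.g ν)

private theorem N17_pos (m : ℤ) : 1 ≤ X.S.form (X.α m) X.S.A := by
  obtain ⟨c, C, hc, -, hg⟩ := X.growthA
  have hl : 0 < X.lam := zero_lt_one.trans X.lam_gt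
  have h1 : (0 : ℝ) < X.S.form (X.α m) X.S.A :=
    lt_of_lt_of_le (mul_pos hc (zpow_pos hl _)) (hg m).1
  have h2 : (0 : ℤ) < X.S.form (X.α m) X.S.A := by exact_mod_cast h1
  omega

private theorem N17_vanish (m : ℤ) : ∃ n0 : ℕ, ∀ n : ℕ, n0 ≤ n →
    X.S.hh (X.S.K - (n : ℤ) • X.α m) = 0 := by
  refine ⟨(X.S.form X.S.A X.S.K).toNat + 1, fun n hn => ?_⟩
  by_contra h
  have h1 : 0 ≤ X.S.form X.S.A (X.S.K - (n : ℤ) • X.α m) :=
    LibCUR2.form_eff X.S (fun ν hν => by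
      have := LibCUR2.A_pos X.S hν
      omega) (Nat.pos_of_ne_zero h)
  have h2 : X.S.form X.S.A (X.S.K - (n : ℤ) • X.α m) =
      X.S.form X.S.A X.S.K - n * X.S.form X.S.A (X.α m) := by
    rw [map_sub, map_smul, smul_eq_mul]
  have h3 := N17_pos X m
  rw [X.S.symm] at h3
  have h4 : (n : ℤ) ≤ n * X.S.form X.S.A (X.α m) := by nlinarith
  omega

/-- `form (α m) (α m) ≤ form A A`.
PLAN. `h0 (n H_m) = h0 (n H_0)` (`tr_h0`, `H m = tr (γ^m) (H 0)`; `tr` of `n • D` is `n • tr D`). Right side: `LibCUR2.hh_serre` with `F = 0`: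
`2 h0 (n A) = 2 chi0 + n² A² - n A K`. Left side: `S.rr'` for `n α_m`: `2 chi0 + n² α_m² - n α_m K ≤ 2 (hh (n α_m) + hh (K - n α_m))` and
`hh (K - n α_m) = 0` for `n` large since `form A (K - n α_m) < 0` (`growthA`, `LibCUR2.form_eff` with `nef = A_pos`). So
`n² α_m² ≤ n² A² + O(n)`. -/
theorem form_α_sq_le (m : ℤ) : X.S.form (X.α m) (X.α m) ≤ X.S.form X.S.A X.S.A := by
  obtain ⟨n0, h0⟩ := N17_vanish X m
  obtain ⟨k0, hk⟩ := LibCUR2.hh_serre X.S 0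
  by_contra hcon
  push Not at hcon
  obtain ⟨N, hN⟩ : ∃ N : ℕ, N = n0 + k0 +
      (X.S.form (X.α m) X.S.K - X.S.form X.S.A X.S.K).toNat + 1 := ⟨_, rfl⟩
  have e1 := X.S.rr' ((N : ℤ) • X.α m)
  rw [h0 N (by omega), N17_hh] at e1
  have e2 := hk N (by omega)
  rw [add_zero, ← natCast_zsmul] at e2
  have e3 : X.S.form ((N : ℤ) • X.α m) ((N : ℤ) • X.α m - X.S.K) =
      N * (N * X.S.form (X.α m) (X.α m)) - N * X.S.form (X.α m) X.S.K := by
    rw [map_sub, map_smul, map_smul, LinearMap.smul_apply, LinearMap.smul_apply, smul_eq_mul,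
      smul_eq_mul, smul_eq_mul]
  have e4 : X.S.form ((N : ℤ) • X.S.A) ((N : ℤ) • X.S.A - X.S.K) =
      N * (N * X.S.form X.S.A X.S.A) - N * X.S.form X.S.A X.S.K := by
    rw [map_sub, map_smul, map_smul, LinearMap.smul_apply, LinearMap.smul_apply, smul_eq_mul,
      smul_eq_mul, smul_eq_mul]
  rw [e3] at e1
  rw [e4] at e2
  have h1 : (N : ℤ) * (N * (X.S.form (X.α m) (X.α m) - X.S.form X.S.A X.S.A) -
      (X.S.form (X.α m) X.S.K - X.S.form X.S.A X.S.K)) ≤ 0 := by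
    push_cast at e1
    linarith
  have h2 : X.S.form (X.α m) X.S.K - X.S.form X.S.A X.S.K < N := by omega
  have h3 : (0 : ℤ) < N := by omega
  have h4 : (N : ℤ) ≤ N * (X.S.form (X.α m) (X.α m) - X.S.form X.S.A X.S.A) := by nlinarith
  have h5 := mul_pos h3 (show (0 : ℤ) < N * (X.S.form (X.α m) (X.α m) - X.S.form X.S.A X.S.A) -
      (X.S.form (X.α m) X.S.K - X.S.form X.S.A X.S.K) by omega)
  omega

/-- two consecutive zeros -/
private theorem N17_zero {a : ℝ} {d : ℤ → ℝ} (hd : ∀ i, d (i + 1) + d (i - 1) = a * d i)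
    (h0 : d 0 = 0) (h1 : d 1 = 0) (i : ℤ) : d i = 0 := by
  have hp : ∀ n : ℕ, d n = 0 ∧ d (n + 1) = 0 := by
    intro n
    induction n with
    | zero => exact ⟨by simpa using h0, by simpa using h1⟩
    | succ n ih =>
      have h2 := hd (n + 1)
      rw [add_sub_cancel_right, ih.1, ih.2, mul_zero, add_zero] at h2
      refine ⟨?_, ?_⟩
      · push_cast
        exact ih.2
      · push_cast
        exact h2
  have hn : ∀ n : ℕ, d (-n) = 0 ∧ d (-n + 1) = 0 := by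
    intro n
    induction n with
    | zero => exact ⟨by simpa using h0, by simpa using h1⟩
    | succ n ih =>
      have h2 := hd (-n)
      rw [ih.1, ih.2, mul_zero, zero_add] at h2
      have e1 : -((n + 1 : ℕ) : ℤ) = -n - 1 := by push_cast; ring
      refine ⟨?_, ?_⟩
      · rw [e1]
        exact h2
      · rw [e1, sub_add_cancel]
        exact ih.1
  rcases Int.eq_nat_or_neg i with ⟨n, rfl | rfl⟩
  · exact (hp n).1
  · exact (hn n).1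

private theorem N17_rec {a l : ℝ} (hl : 1 < l) (hal : l + l⁻¹ = a) {d : ℤ → ℝ}
    (hd : ∀ i, d (i + 1) + d (i - 1) = a * d i) (i : ℤ) :
    (l - l⁻¹) * d i = (d 1 - l⁻¹ * d 0) * l ^ i + (l * d 0 - d 1) * l ^ (-i) := by
  have hl0 : l ≠ 0 := by positivity
  have key := N17_zero (a := a) (d := fun i => (l - l⁻¹) * d i -
    ((d 1 - l⁻¹ * d 0) * l ^ i + (l * d 0 - d 1) * l ^ (-i))) ?_ ?_ ?_ i
  · exact sub_eq_zero.1 key
  · intro i
    have e1 : l ^ (i + 1) = l ^ i * l := zpow_add_one₀ hl0 i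
    have e2 : l ^ (i - 1) = l ^ i * l⁻¹ := zpow_sub_one₀ hl0 i
    have e3 : l ^ (-(i + 1)) = l ^ (-i) * l⁻¹ := by
      rw [neg_add, ← sub_eq_add_neg]
      exact zpow_sub_one₀ hl0 _
    have e4 : l ^ (-(i - 1)) = l ^ (-i) * l := by
      rw [neg_sub, sub_eq_add_neg, add_comm]
      exact zpow_add_one₀ hl0 _
    simp only [e1, e2, e3, e4]
    have h2 := hd i
    rw [← hal] at h2 ⊢
    linear_combination (l - l⁻¹) * h2
  · simp only [zpow_zero, neg_zero]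
    ring
  · simp only [zpow_one, zpow_neg]
    field_simp
    ring

private theorem N17_bdd {l : ℝ} (hl : 1 < l) {P B : ℝ} (h : ∀ n : ℕ, |P| * l ^ n ≤ B) : P = 0 := by
  by_contra hP
  have hP' : 0 < |P| := abs_pos.2 hP
  obtain ⟨n, hn⟩ := pow_unbounded_of_one_lt (B / |P|) hl
  have h1 := h n
  rw [div_lt_iff₀ hP'] at hn
  linarith

/-- PLAN. Put `F i j := form (α i) (α j)`: symmetric, `F (i+1) j + F (i-1) j = a F i j` (`α_rec`), `F ≥ 0`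
(`form_α_pos` and effectivity of `α_j`, as in `growthA`), `F m m ≤ F 0 0`. Let `l = λ`. Write over `ℝ`:
`F i j = P l^(i+j) + Q l^(i-j) + Q' l^(j-i) + R l^(-i-j)` (`F` is determined by `F 0 0, F 0 1, F 1 0, F 1 1`; or: `F i 0 = x l^i + y l^(-i)`, `F i 1 = x' l^i + y' l^(-i)` and
then solve in `j`); symmetry gives `Q = Q'`. `F m m = P l^(2m) + 2 Q + R l^(-2m) ≤ F 0 0` for all `m ∈ ℤ`: `P ≤ 0`, `R ≤ 0`; and `F m m ≥ 0`
(`form_α_sq_nonneg`) gives `P ≥ 0`, `R ≥ 0`. So `P = R = 0` and `2 Q = F 0 0 = A²`. -/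
theorem form_α_α (i j : ℤ) : 2 * (X.S.form (X.α i) (X.α j) : ℝ) =
    X.S.form X.S.A X.S.A * (X.lam ^ (i - j) + X.lam ^ (j - i)) := by
  obtain ⟨F, hF⟩ : ∃ F : ℤ → ℤ → ℝ, F = fun i j => (X.S.form (X.α i) (X.α j) : ℝ) := ⟨_, rfl⟩
  obtain ⟨l, hl⟩ : ∃ l, l = X.lam := ⟨_, rfl⟩
  have hl1 : 1 < l := by rw [hl]; exact X.lam_gt
  have hla : l + l⁻¹ = (X.a : ℝ) := by rw [hl]; exact X.lam_eq
  have hlp : 0 < l := zero_lt_one.trans hl1
  have hl0 : l ≠ 0 := hlp.ne'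
  have hD : 0 < l - l⁻¹ := by
    have : l⁻¹ < 1 := inv_lt_one_of_one_lt₀ hl1
    linarith
  have hsym : ∀ i j, F i j = F j i := by
    intro i j
    rw [hF]
    show ((X.S.form (X.α i) (X.α j) : ℤ) : ℝ) = ((X.S.form (X.α j) (X.α i) : ℤ) : ℝ)
    rw [X.S.symm]
  have hrec : ∀ j i, F (i + 1) j + F (i - 1) j = X.a * F i j := by
    intro j i
    rw [hF]
    show ((X.S.form (X.α (i + 1)) (X.α j) : ℤ) : ℝ) + ((X.S.form (X.α (i - 1)) (X.α j) : ℤ) : ℝ) =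
      (X.a : ℝ) * ((X.S.form (X.α i) (X.α j) : ℤ) : ℝ)
    rw [← Int.cast_add, ← LinearMap.add_apply, ← map_add, X.α_rec, map_smul,
      LinearMap.smul_apply, smul_eq_mul, Int.cast_mul]
  have hrec' : ∀ i j, F i (j + 1) + F i (j - 1) = X.a * F i j := by
    intro i j
    rw [hsym i (j + 1), hsym i (j - 1), hsym i j]
    exact hrec i j
  -- the general solution
  have h1 : ∀ i j, (l - l⁻¹) * F i j = (F 1 j - l⁻¹ * F 0 j) * l ^ i +
      (l * F 0 j - F 1 j) * l ^ (-i) := fun i j =>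
    N17_rec hl1 hla (d := fun i => F i j) (hrec j) i
  have h2 : ∀ i j, (l - l⁻¹) * F i j = (F i 1 - l⁻¹ * F i 0) * l ^ j +
      (l * F i 0 - F i 1) * l ^ (-j) := fun i j =>
    N17_rec hl1 hla (d := fun j => F i j) (hrec' i) j
  obtain ⟨P, hP⟩ : ∃ P, P = F 1 1 - l⁻¹ * F 1 0 - l⁻¹ * (F 0 1 - l⁻¹ * F 0 0) := ⟨_, rfl⟩
  obtain ⟨R, hR⟩ : ∃ R, R = l * (l * F 0 0 - F 0 1) - (l * F 1 0 - F 1 1) := ⟨_, rfl⟩
  obtain ⟨Q, hQ⟩ : ∃ Q, Q = l * F 1 0 - F 1 1 - l⁻¹ * (l * F 0 0 - F 0 1) := ⟨_, rfl⟩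
  have hQ' : Q = l * (F 0 1 - l⁻¹ * F 0 0) - (F 1 1 - l⁻¹ * F 1 0) := by
    rw [hQ, hsym 0 1]
    field_simp
    ring
  have h3 : ∀ i j, (l - l⁻¹) ^ 2 * F i j = P * (l ^ i * l ^ j) + Q * (l ^ i * l ^ (-j)) +
      Q * (l ^ (-i) * l ^ j) + R * (l ^ (-i) * l ^ (-j)) := by
    intro i j
    have e1 := h1 i j
    have e2 := h2 1 j
    have e3 := h2 0 j
    have e4 : (l - l⁻¹) ^ 2 * F i j = ((l - l⁻¹) * F 1 j - l⁻¹ * ((l - l⁻¹) * F 0 j)) * l ^ i +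
        (l * ((l - l⁻¹) * F 0 j) - (l - l⁻¹) * F 1 j) * l ^ (-i) := by
      rw [sq, mul_assoc, e1]
      ring
    rw [e4, e2, e3]
    have e5 : Q * (l ^ i * l ^ (-j)) + Q * (l ^ (-i) * l ^ j) =
        (l * F 1 0 - F 1 1 - l⁻¹ * (l * F 0 0 - F 0 1)) * (l ^ i * l ^ (-j)) +
        (l * (F 0 1 - l⁻¹ * F 0 0) - (F 1 1 - l⁻¹ * F 1 0)) * (l ^ (-i) * l ^ j) := by
      rw [← hQ, ← hQ']
    rw [hP, hR]
    linear_combination -e5
  have hA0 : F 0 0 = (X.S.form X.S.A X.S.A : ℝ) := by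
    rw [hF]
    show ((X.S.form (X.α 0) (X.α 0) : ℤ) : ℝ) = _
    rw [X.α_zero]
  have hdiag : ∀ m : ℤ, (l - l⁻¹) ^ 2 * F m m = P * l ^ (2 * m) + 2 * Q + R * l ^ (-(2 * m)) := by
    intro m
    rw [h3]
    have e1 : l ^ m * l ^ m = l ^ (2 * m) := by rw [← zpow_add₀ hl0, two_mul]
    have e2 : l ^ (-m) * l ^ (-m) = l ^ (-(2 * m)) := by
      rw [← zpow_add₀ hl0]
      congr 1
      ring
    have e3 : l ^ m * l ^ (-m) = 1 := by rw [← zpow_add₀ hl0, add_neg_cancel, zpow_zero]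
    rw [e1, e2, e3, mul_comm (l ^ (-m)) (l ^ m), e3]
    ring
  have hle : ∀ m : ℤ, F m m ≤ F 0 0 := by
    intro m
    rw [hA0, hF]
    show ((X.S.form (X.α m) (X.α m) : ℤ) : ℝ) ≤ _
    exact_mod_cast X.form_α_sq_le m
  have hge : ∀ m : ℤ, 0 ≤ F m m := by
    intro m
    rw [hF]
    show (0 : ℝ) ≤ ((X.S.form (X.α m) (X.α m) : ℤ) : ℝ)
    exact_mod_cast X.form_α_sq_nonneg m
  have hbd : ∀ m : ℤ, |P * l ^ (2 * m) + 2 * Q + R * l ^ (-(2 * m))| ≤ (l - l⁻¹) ^ 2 * F 0 0 := by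
    intro m
    rw [← hdiag, abs_of_nonneg (mul_nonneg (sq_nonneg _) (hge m))]
    exact mul_le_mul_of_nonneg_left (hle m) (sq_nonneg _)
  have hsmall : ∀ n : ℕ, (l : ℝ) ^ (-(2 * (n : ℤ))) ≤ 1 := by
    intro n
    rw [zpow_neg]
    exact inv_le_one_of_one_le₀ (one_le_zpow₀ hl1.le (by positivity))
  have hpn : ∀ n : ℕ, (l : ℝ) ^ n ≤ l ^ (2 * (n : ℤ)) := by
    intro n
    rw [← zpow_natCast]
    exact zpow_le_zpow_right₀ hl1.le (by omega)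
  have hP0 : P = 0 := by
    refine N17_bdd hl1 (B := (l - l⁻¹) ^ 2 * F 0 0 + |2 * Q| + |R|) fun n => ?_
    have e1 := hbd n
    have e2 : |P| * l ^ n ≤ |P * l ^ (2 * (n : ℤ))| := by
      rw [abs_mul, abs_of_pos (zpow_pos hlp (2 * (n : ℤ)))]
      exact mul_le_mul_of_nonneg_left (hpn n) (abs_nonneg _)
    have e3 : |R * l ^ (-(2 * (n : ℤ)))| ≤ |R| := by
      rw [abs_mul, abs_of_pos (zpow_pos hlp (-(2 * (n : ℤ))))]
      exact mul_le_of_le_one_right (abs_nonneg _) (hsmall n)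
    have e4 : P * l ^ (2 * (n : ℤ)) = (P * l ^ (2 * (n : ℤ)) + 2 * Q + R * l ^ (-(2 * (n : ℤ)))) -
        2 * Q - R * l ^ (-(2 * (n : ℤ))) := by ring
    have e5 : |P * l ^ (2 * (n : ℤ))| ≤ |P * l ^ (2 * (n : ℤ)) + 2 * Q +
        R * l ^ (-(2 * (n : ℤ)))| + |2 * Q| + |R * l ^ (-(2 * (n : ℤ)))| := by
      conv_lhs => rw [e4]
      exact (abs_sub _ _).trans (add_le_add (abs_sub _ _) le_rfl)
    linarith
  have hR0 : R = 0 := by
    refine N17_bdd hl1 (B := (l - l⁻¹) ^ 2 * F 0 0 + |2 * Q|) fun n => ?_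
    have e1 := hbd (-n)
    have e0 : -(2 * (-(n : ℤ))) = 2 * n := by ring
    rw [hP0, zero_mul, zero_add, e0] at e1
    have e2 : |R| * l ^ n ≤ |R * l ^ (2 * (n : ℤ))| := by
      rw [abs_mul, abs_of_pos (zpow_pos hlp (2 * (n : ℤ)))]
      exact mul_le_mul_of_nonneg_left (hpn n) (abs_nonneg _)
    have e4 : R * l ^ (2 * (n : ℤ)) = (2 * Q + R * l ^ (2 * (n : ℤ))) - 2 * Q := by ring
    have e5 : |R * l ^ (2 * (n : ℤ))| ≤ |2 * Q + R * l ^ (2 * (n : ℤ))| + |2 * Q| := by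
      conv_lhs => rw [e4]
      exact abs_sub _ _
    linarith
  have h5 : (l - l⁻¹) ^ 2 * F 0 0 = 2 * Q := by
    have := hdiag 0
    rw [hP0, hR0] at this
    rw [this]
    ring
  have h6 : (l - l⁻¹) ^ 2 * (2 * F i j) = (l - l⁻¹) ^ 2 * (F 0 0 * (l ^ (i - j) + l ^ (j - i))) := by
    have e1 := h3 i j
    have e2 : l ^ (i - j) = l ^ i * l ^ (-j) := by rw [← zpow_add₀ hl0, sub_eq_add_neg]
    have e3 : l ^ (j - i) = l ^ (-i) * l ^ j := by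
      rw [← zpow_add₀ hl0]
      congr 1
      ring
    rw [hP0, hR0] at e1
    rw [e2, e3]
    linear_combination 2 * e1 - (l ^ i * l ^ (-j) + l ^ (-i) * l ^ j) * h5
  have h7 := mul_left_cancel₀ (pow_ne_zero 2 hD.ne') h6
  rw [hA0, hF, hl] at h7
  exact h7

end Sys

end Pool.Agent.LibK3
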