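import Pool.Agent.LibK3.N15
import Pool.Agent.LibK3.N17

set_option autoImplicit false

open Pool.Agent.LibGMM Pool.Agent.LibK Pool.Agent.LibKB
open Pool.Agent.LibLB (PSurf RLR)
open Pool.Agent.LibCov80 (Over)

namespace Pool.Agent.LibK3

theorem N18_zero {a : ℤ} {u : ℤ → ℤ} (h : ∀ m, u (m + 1) + u (m - 1) = a * u m) {j : ℤ}
    (h0 : u j = 0) (h1 : u (j + 1) = 0) (i : ℤ) : u i = 0 := by
  have hA : ∀ n : ℕ, u (j + n) = 0 ∧ u (j + n + 1) = 0 := by
    intro n
    induction n with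
    | zero => simpa using ⟨h0, h1⟩
    | succ n ih =>
      obtain ⟨i1, i2⟩ := ih
      have h3 := h (j + n + 1)
      rw [show j + (n : ℤ) + 1 - 1 = j + n by ring, i1, i2] at h3
      refine ⟨by push_cast; rw [← add_assoc]; exact i2, ?_⟩
      push_cast
      rw [← add_assoc]
      linarith
  have hB : ∀ n : ℕ, u (j - n) = 0 ∧ u (j - n + 1) = 0 := by
    intro n
    induction n with
    | zero => simpa using ⟨h0, h1⟩
    | succ n ih =>
      obtain ⟨i1, i2⟩ := ih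
      have h3 := h (j - n)
      rw [i1, i2] at h3
      push_cast
      refine ⟨?_, ?_⟩
      · rw [show j - ((n : ℤ) + 1) = j - n - 1 by ring]
        linarith
      · rw [show j - ((n : ℤ) + 1) + 1 = j - n by ring]
        exact i1
  rcases le_total j i with hji | hji
  · have := (hA (i - j).toNat).1
    rw [Int.toNat_of_nonneg (by omega), add_sub_cancel] at this
    exact this
  · have := (hB (j - i).toNat).1
    rw [Int.toNat_of_nonneg (by omega), sub_sub_cancel] at this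
    exact this

theorem N18_pos {X Y t l : ℝ} (hl : 1 < l) (ht : 0 < t)
    (h : ∀ i : ℤ, t ≤ X * l ^ i + Y * l ^ (-i)) : 0 < X := by
  by_contra hX
  push Not at hX
  obtain ⟨n, hn⟩ := pow_unbounded_of_one_lt (Y / t) hl
  have h1 := h n
  have hln : (0 : ℝ) < l ^ (n : ℤ) := by positivity
  have h2 : X * l ^ (n : ℤ) ≤ 0 := mul_nonpos_of_nonpos_of_nonneg hX hln.le
  have h3 : t ≤ Y * l ^ (-(n : ℤ)) := by linarith
  rw [zpow_neg, ← div_eq_mul_inv, le_div_iff₀ hln, zpow_natCast] at h3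
  rw [div_lt_iff₀ ht] at hn
  linarith

theorem N18_abs_pow {l : ℝ} (hl : 1 < l) (n : ℤ) : l ^ |n| ≤ l ^ n + l ^ (-n) ∧
    l ^ n + l ^ (-n) ≤ 2 * l ^ |n| := by
  have h0 : 0 < l := by linarith
  have h1 : (0 : ℝ) < l ^ n := by positivity
  have h2 : (0 : ℝ) < l ^ (-n) := by positivity
  have h3 : l ^ n ≤ l ^ |n| := zpow_le_zpow_right₀ hl.le (le_abs_self n)
  have h4 : l ^ (-n) ≤ l ^ |n| := zpow_le_zpow_right₀ hl.le (neg_le_abs n)
  refine ⟨?_, by linarith⟩
  rcases abs_choice n with h | h <;> rw [h] <;> linarith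

theorem N18_abs {Λ : Type} [AddCommGroup Λ] (B : Λ →ₗ[ℤ] Λ →ₗ[ℤ] ℤ) (hs : ∀ x y, B x y = B y x)
    (α c : ℤ → Λ) (hodge : ∀ D, B (α 0) D = 0 → B D D ≤ 0) {a : ℤ} (ha : 3 ≤ a)
    (hrec : ∀ m, α (m + 1) + α (m - 1) = a • α m) {l : ℝ} (hl : 1 < l) (hla : l + l⁻¹ = a)
    (hA : 1 ≤ B (α 0) (α 0))
    (hα : ∀ i j, 2 * (B (α i) (α j) : ℝ) = B (α 0) (α 0) * (l ^ (i - j) + l ^ (j - i)))
    (hac : ∀ j m, B (α j) (c m) = B (α (j - m)) (c 0))
    (hcc : ∀ j m, B (c j) (c m) = B (c (j - m)) (c 0)) (hpos : ∀ m, 1 ≤ B (α m) (c 0)) :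
    ∃ k K : ℝ, 0 < k ∧ 0 < K ∧ ∀ n : ℤ, k * l ^ |n| - K ≤ B (c n) (c 0) ∧
      (B (c n) (c 0) : ℝ) ≤ K * l ^ |n| := by
  have hl0 : 0 < l := by linarith
  have hl' : l ≠ 0 := hl0.ne'
  -- values of the form on the `α`
  obtain ⟨s0, hs0⟩ : ∃ s, s = B (α 0) (α 0) := ⟨_, rfl⟩
  obtain ⟨s1, hs1⟩ : ∃ s, s = B (α 1) (α 0) := ⟨_, rfl⟩
  rw [← hs0] at hA hα
  have hshift : ∀ i j k m : ℤ, i - j = k - m → B (α i) (α j) = B (α k) (α m) := by
    intro i j k m h
    have h1 := hα i j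
    rw [h, show j - i = m - k by omega, ← hα k m] at h1
    have h2 : (B (α i) (α j) : ℝ) = B (α k) (α m) := by linarith
    exact_mod_cast h2
  have e00 : ∀ j, B (α j) (α j) = s0 := fun j => by rw [hs0]; exact hshift _ _ _ _ (by ring)
  have e10 : ∀ j, B (α (j + 1)) (α j) = s1 := fun j => by rw [hs1]; exact hshift _ _ _ _ (by ring)
  have e01 : ∀ j, B (α j) (α (j + 1)) = s1 := fun j => by rw [hs]; exact e10 j
  have h2s1 : 2 * s1 = s0 * a := by
    have h1 := hα 1 0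
    rw [← hs1, sub_zero, zero_sub, zpow_one, zpow_neg_one, hla] at h1
    exact_mod_cast h1
  obtain ⟨D, hD⟩ : ∃ D, D = s1 ^ 2 - s0 ^ 2 := ⟨_, rfl⟩
  have hDpos : 0 < D := by
    have h1 : 4 * D = s0 ^ 2 * (a ^ 2 - 4) := by
      rw [hD]
      linear_combination (2 * s1 + s0 * a) * h2s1
    have h2 : 0 < s0 ^ 2 * (a ^ 2 - 4) := by
      have : 0 < a ^ 2 - 4 := by nlinarith
      positivity
    linarith
  obtain ⟨d0, hd0⟩ : ∃ s, s = B (α 0) (c 0) := ⟨_, rfl⟩
  obtain ⟨d1, hd1⟩ : ∃ s, s = B (α 1) (c 0) := ⟨_, rfl⟩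
  obtain ⟨x, hx⟩ : ∃ x, x = s1 * d1 - s0 * d0 := ⟨_, rfl⟩
  obtain ⟨y, hy⟩ : ∃ y, y = s1 * d0 - s0 * d1 := ⟨_, rfl⟩
  have hac0 : ∀ j, B (α j) (c j) = d0 := fun j => by rw [hac, sub_self, hd0]
  have hac1 : ∀ j, B (α (j + 1)) (c j) = d1 := fun j => by
    rw [hac, hd1, show j + 1 - j = 1 by ring]
  obtain ⟨e, he⟩ : ∃ e : ℤ → Λ, ∀ j, e j = D • c j - x • α j - y • α (j + 1) := ⟨_, fun _ => rfl⟩
  obtain ⟨p, hp⟩ : ∃ p : ℤ → Λ, ∀ j, p j = x • α j + y • α (j + 1) := ⟨_, fun _ => rfl⟩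
  have hep : ∀ j, D • c j = e j + p j := fun j => by rw [he, hp]; abel
  have heα : ∀ j i, B (α i) (e j) = 0 := by
    intro j
    apply N18_zero (a := a) (j := j)
    · intro m
      have h1 := congrArg (fun z => B z (e j)) (hrec m)
      simpa only [map_add, map_smul, LinearMap.add_apply, LinearMap.smul_apply, smul_eq_mul] using h1
    · rw [he, map_sub, map_sub, map_smul, map_smul, map_smul, hac0, e00, e01]
      simp only [smul_eq_mul]
      rw [hD, hx, hy]
      ring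
    · rw [he, map_sub, map_sub, map_smul, map_smul, map_smul, hac1, e10, e00]
      simp only [smul_eq_mul]
      rw [hD, hx, hy]
      ring
  have hpe : ∀ i j, B (p i) (e j) = 0 := by
    intro i j
    rw [hp, map_add, map_smul, map_smul, LinearMap.add_apply, LinearMap.smul_apply,
      LinearMap.smul_apply, heα, heα]
    simp
  have hep0 : ∀ i j, B (e i) (p j) = 0 := fun i j => by rw [hs]; exact hpe j i
  -- the square of `e`
  obtain ⟨E, hE⟩ : ∃ E, E = - B (e 0) (e 0) := ⟨_, rfl⟩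
  have hee : ∀ n, B (e n) (e n) = - E := by
    have h1 : ∀ n, B (e n) (e n) = D * (D * B (c 0) (c 0) - x * d0 - y * d1) := by
      intro n
      have h2 : B (e n) (e n) = B (e n) (D • c n) := by
        rw [hep n, map_add, hep0, add_zero]
      rw [h2, map_smul, he n]
      simp only [map_sub, map_smul, LinearMap.sub_apply, LinearMap.smul_apply, smul_eq_mul, hac0,
        hac1]
      rw [hcc n n, sub_self]
    intro n
    rw [hE, neg_neg, h1 n, h1 0]
  have hbd : ∀ n, |B (e n) (e 0)| ≤ E := by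
    intro n
    have h1 := hodge (e n + e 0) (by rw [map_add, heα, heα, add_zero])
    have h2 := hodge (e n - e 0) (by rw [map_sub, heα, heα, sub_zero])
    simp only [map_add, map_sub, LinearMap.add_apply, LinearMap.sub_apply] at h1 h2
    rw [hs (e 0) (e n), hee n, hee 0] at h1 h2
    rw [abs_le]
    constructor <;> linarith
  have hE0 : 0 ≤ E := (abs_nonneg _).trans (hbd 0)
  -- the main formula
  have hmain : ∀ n, (2 * D ^ 2 * B (c n) (c 0) : ℝ) = 2 * B (e n) (e 0) +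
      s0 * ((x + y / l) * (x + y * l)) * (l ^ n + l ^ (-n)) := by
    intro n
    have h1 : D ^ 2 * B (c n) (c 0) = B (e n) (e 0) + B (p n) (p 0) := by
      have h2 : B (D • c n) (D • c 0) = B (e n) (e 0) + B (p n) (p 0) := by
        rw [hep n, hep 0]
        simp only [map_add, LinearMap.add_apply]
        rw [hpe, hep0]
        ring
      rw [← h2]
      simp only [map_smul, LinearMap.smul_apply, smul_eq_mul]
      ring
    have h3 : B (p n) (p 0) = x ^ 2 * B (α n) (α 0) + x * y * B (α n) (α 1) +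
        x * y * B (α (n + 1)) (α 0) + y ^ 2 * B (α (n + 1)) (α 1) := by
      rw [hp n, hp 0, zero_add]
      simp only [map_add, map_smul, LinearMap.add_apply, LinearMap.smul_apply, smul_eq_mul]
      ring
    have g1 := hα n 0
    have g2 := hα n 1
    have g3 := hα (n + 1) 0
    have g4 := hα (n + 1) 1
    have h4 : (D ^ 2 * B (c n) (c 0) : ℝ) = B (e n) (e 0) + (x ^ 2 * B (α n) (α 0) +
        x * y * B (α n) (α 1) + x * y * B (α (n + 1)) (α 0) + y ^ 2 * B (α (n + 1)) (α 1)) := by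
      rw [h3] at h1
      exact_mod_cast h1
    have q1 : l ^ (n - 1) = l ^ n * l⁻¹ := by rw [zpow_sub_one₀ hl']
    have q2 : l ^ (n + 1) = l ^ n * l := by rw [zpow_add_one₀ hl']
    have q3 : l ^ (1 - n) = l ^ (-n) * l := by
      rw [show (1 : ℤ) - n = -n + 1 by ring, zpow_add_one₀ hl']
    have q4 : l ^ (0 - (n + 1)) = l ^ (-n) * l⁻¹ := by
      rw [show (0 : ℤ) - (n + 1) = -n - 1 by ring, zpow_sub_one₀ hl']
    rw [sub_zero, zero_sub] at g1
    rw [q1, q3] at g2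
    rw [sub_zero, q2, q4] at g3
    rw [show n + 1 - 1 = n by ring, show (1 : ℤ) - (n + 1) = -n by ring] at g4
    have hll : l * l⁻¹ = 1 := mul_inv_cancel₀ hl'
    rw [div_eq_mul_inv]
    linear_combination 2 * h4 + (x : ℝ) ^ 2 * g1 + x * y * g2 + x * y * g3 + (y : ℝ) ^ 2 * g4 -
      (y : ℝ) ^ 2 * s0 * (l ^ n + l ^ (-n)) * hll
  have hposR : ∀ i : ℤ, (2 * D : ℝ) ≤ s0 * (x + y / l) * l ^ i + s0 * (x + y * l) * l ^ (-i) := by
    intro i
    have h1 : D * B (α i) (c 0) = x * B (α i) (α 0) + y * B (α i) (α 1) := by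
      have h2 : B (α i) (D • c 0) = x * B (α i) (α 0) + y * B (α i) (α 1) := by
        rw [hep 0, map_add, heα, zero_add, hp 0, zero_add]
        simp only [map_add, map_smul, smul_eq_mul]
      rw [← h2, map_smul, smul_eq_mul]
    have h4 : (D * B (α i) (c 0) : ℝ) = x * B (α i) (α 0) + y * B (α i) (α 1) := by
      exact_mod_cast h1
    have g1 := hα i 0
    have g2 := hα i 1
    have q1 : l ^ (i - 1) = l ^ i * l⁻¹ := by rw [zpow_sub_one₀ hl']
    have q3 : l ^ (1 - i) = l ^ (-i) * l := by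
      rw [show (1 : ℤ) - i = -i + 1 by ring, zpow_add_one₀ hl']
    rw [sub_zero, zero_sub] at g1
    rw [q1, q3] at g2
    have h5 : (2 * D * B (α i) (c 0) : ℝ) =
        s0 * (x + y / l) * l ^ i + s0 * (x + y * l) * l ^ (-i) := by
      rw [div_eq_mul_inv]
      linear_combination 2 * h4 + (x : ℝ) * g1 + y * g2
    rw [← h5]
    have h6 : (1 : ℝ) ≤ B (α i) (c 0) := by exact_mod_cast hpos i
    have h7 : (0 : ℝ) < D := by exact_mod_cast hDpos
    nlinarith
  have hDR : (0 : ℝ) < D := by exact_mod_cast hDpos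
  have hs0R : (0 : ℝ) < s0 := by
    have : (1 : ℝ) ≤ s0 := by exact_mod_cast hA
    linarith
  have hX : 0 < s0 * (x + y / l) := N18_pos hl (by positivity) hposR
  have hY : 0 < s0 * (x + y * l) := N18_pos (X := s0 * (x + y * l)) (Y := s0 * (x + y / l)) hl
    (show (0 : ℝ) < 2 * D by positivity) fun i => by
      have := hposR (-i)
      rw [neg_neg] at this
      linarith
  have hX' : 0 < (x : ℝ) + y / l := pos_of_mul_pos_right hX hs0R.le |> fun h => h
  have hY' : 0 < (x : ℝ) + y * l := pos_of_mul_pos_right hY hs0R.le |> fun h => h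
  obtain ⟨W, hW⟩ : ∃ W : ℝ, W = s0 * ((x + y / l) * (x + y * l)) := ⟨_, rfl⟩
  have hW0 : 0 < W := by rw [hW]; positivity
  rw [← hW] at hmain
  have hER : (0 : ℝ) ≤ E := by exact_mod_cast hE0
  refine ⟨W / (2 * D ^ 2), (W + E) / D ^ 2 + 1, by positivity, by positivity, fun n => ?_⟩
  obtain ⟨u1, u2⟩ := N18_abs_pow hl n
  have u3 : 1 ≤ l ^ |n| := one_le_zpow₀ hl.le (abs_nonneg n)
  have h1 := hmain n
  have h2 : |(B (e n) (e 0) : ℝ)| ≤ E := by exact_mod_cast hbd n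
  rw [abs_le] at h2
  obtain ⟨h3, h4⟩ := h2
  generalize l ^ |n| = L at *
  generalize (B (c n) (c 0) : ℝ) = F at *
  have hD2 : (0 : ℝ) < D ^ 2 := by positivity
  constructor
  · have h5 : W * L ≤ W * (l ^ n + l ^ (-n)) := mul_le_mul_of_nonneg_left u1 hW0.le
    have h6 : W / (2 * D ^ 2) * L - E / D ^ 2 ≤ F := by
      rw [div_mul_eq_mul_div, sub_le_iff_le_add, div_le_iff₀ (by positivity)]
      have : (F + E / D ^ 2) * (2 * D ^ 2) = 2 * D ^ 2 * F + 2 * E := by field_simp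
      rw [this]
      linarith
    have h7 : E / (D : ℝ) ^ 2 ≤ (W + E) / D ^ 2 := by
      apply div_le_div_of_nonneg_right _ hD2.le
      linarith
    linarith
  · have h5 : W * (l ^ n + l ^ (-n)) ≤ W * (2 * L) := mul_le_mul_of_nonneg_left u2 hW0.le
    have h6 : F ≤ (W * L + E) / D ^ 2 := by
      rw [le_div_iff₀ hD2]
      linarith
    have h7 : (W * L + E) / (D : ℝ) ^ 2 ≤ ((W + E) * L) / D ^ 2 := by
      apply div_le_div_of_nonneg_right _ hD2.le
      nlinarith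
    have h8 : ((W + E) * L) / (D : ℝ) ^ 2 = (W + E) / D ^ 2 * L := by ring
    nlinarith

namespace Sys

variable {L : Type} [Field L] [Algebra ℂ L] (X : Sys L) {C : RC L}


/-- Intersection numbers of the curves.
PLAN. Notation: `f l := form (cls C_l) (cls C)` (`= form (cls C_(i+l)) (cls C_i)` for all `i`, `form_cv_cv`), `d i := form (α i) (cls C)`
(`form (α i) (cls C_j) = d (i - j)`, `form_H_cv`), `Λ l := form (α i) (α (i+l)) = (A²/2) (λ^l + λ^(-l))` (`form_α_α`), integers.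
Lower bound. `D' := Λ 1 ^ 2 - Λ 0 ^ 2 > 0`, `x := Λ 1 * d 1 - Λ 0 * d 0`, `y := Λ 1 * d 0 - Λ 0 * d 1` (integers), so `x Λ 0 + y Λ 1 = D' d 0`,
`x Λ 1 + y Λ 0 = D' d 1`. `e j := D' • cls C_j - x • α j - y • α (j+1)`: `form (e j) (α j) = form (e j) (α (j+1)) = 0`, so `form (e j) (α i) = 0` for
all `i` (`α_rec`, two-sided induction), in particular `form (e j) A = 0`; `form (e j) (e j) = - E` does not depend on `j`. By `LibCUR2.hodge` for
`e i + e j` and `e i - e j`: `|form (e i) (e j)| ≤ E` (and `E ≥ 0`). Therefore `D'^2 f (i - j) = form (p i) (p j) + form (e i) (e j)`,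
`p i = x • α i + y • α (i+1)`, `form (p i) (p j) = (x² + y² + a x y) Λ (i - j)` (recursion of `Λ`). Positivity: `D' d i = x Λ i + y Λ (i-1)` for all `i`
(both sides satisfy the recursion; `i = 0, 1`), `= (A²/2) ((x + y/λ) λ^i + (x + y λ) λ^(-i)) ≥ D' > 0` for all `i ∈ ℤ`, so `x + y/λ > 0` and `x + y λ > 0`
(let `i → ±∞`), and `x² + y² + a x y = (x + y/λ)(x + y λ) > 0`. Upper bound: `exists_nef` for `β = cls C`: `|form (cls C) (cls C_l)| ≤ k form A (cls C_l)
= k d (-l) ≤ C λ^|l|`. -/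
theorem form_cv_growth (hC : C.ν ∈ X.S.prm) : ∃ c C' : ℝ, 0 < c ∧ 0 < C' ∧ ∀ l : ℤ, l ≠ 0 →
    c * X.lam ^ |l| - C' ≤ X.S.form (X.S.cls (X.cv C l).ν) (X.S.cls C.ν) ∧
      (X.S.form (X.S.cls (X.cv C l).ν) (X.S.cls C.ν) : ℝ) ≤ C' * X.lam ^ |l| := by
  have hc0 : (X.cv C 0).ν = C.ν := by
    unfold cv
    rw [zpow_zero, RC.mv_ν, mv_one]
  obtain ⟨k, K, hk, hK, h⟩ := N18_abs X.S.form X.S.symm X.α (fun m => X.S.cls (X.cv C m).ν)
    (fun D hD => by
      rw [X.α_zero] at hD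
      rcases LibCUR2.hodge X.S hD with h | h
      · exact h.le
      · exact (h D).le)
    X.ha X.α_rec X.lam_gt X.lam_eq (by rw [X.α_zero]; exact X.S.A_sq)
    (fun i j => by rw [X.α_zero]; exact X.form_α_α i j)
    (fun j m => by rw [hc0]; exact X.form_H_cv hC j m)
    (fun j m => by rw [hc0]; exact X.form_cv_cv hC j m)
    (fun m => by rw [hc0]; exact X.form_α_pos m hC)
  refine ⟨k, K, hk, hK, fun l _ => ?_⟩
  have := h l
  rw [hc0] at this
  exact this

end Sys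

end Pool.Agent.LibK3
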