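import Pool.Agent.LibCUR.Q09
import Pool.Agent.LibK3.Base

set_option autoImplicit false

open Pool.Agent.LibGMM Pool.Agent.LibK Pool.Agent.LibKB
open Pool.Agent.LibLB (PSurf RLR)
open Pool.Agent.LibCov80 (Over)

namespace Pool.Agent.LibK3

private theorem N26_min {ι : Type} [Finite ι] [Nonempty ι] (f : ι → ℤ) (c : ℤ) :
    (⨅ i, (f i - c)) = (⨅ i, f i) - c := by
  obtain ⟨i1, hi1⟩ := Finite.exists_min f
  have h1 : (⨅ i, f i) = f i1 :=
    le_antisymm (ciInf_le (Finite.bddBelow_range _) i1) (le_ciInf hi1)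
  have h2 : (⨅ i, (f i - c)) = f i1 - c :=
    le_antisymm (ciInf_le (Finite.bddBelow_range _) i1) (le_ciInf fun i => by
      have := hi1 i
      omega)
  rw [h1, h2]

private theorem N26_ess {L : Type} [Field L] [Algebra ℂ L] (γ : L ≃ₐ[ℂ] L) {x : Subalgebra ℂ L}
    {ν : DVal L} (h : ν ∈ LibKB.Ess x) : mv γ ν ∈ LibKB.Ess (x.map (γ : L →ₐ[ℂ] L)) := by
  obtain ⟨h1, h2⟩ := h
  refine ⟨?_, ?_⟩
  · rintro _ ⟨z, hz, rfl⟩
    show 0 ≤ ν.ord (γ.symm (γ z))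
    rw [AlgEquiv.symm_apply_apply]
    exact h1 hz
  · intro f hf
    obtain ⟨a, ha, b, hb, hb0, hbo, hab⟩ := h2 (γ.symm f) hf
    refine ⟨γ a, ⟨a, ha, rfl⟩, γ b, ⟨b, hb, rfl⟩, ?_, ?_, ?_⟩
    · exact (map_ne_zero γ).2 hb0
    · show ν.ord (γ.symm (γ b)) = 0
      rw [AlgEquiv.symm_apply_apply]
      exact hbo
    · rw [← map_div₀, ← hab, AlgEquiv.apply_symm_apply]

/-- The system of a dynamical surface.
PLAN. `LibCUR.exists_data Y h.smooth : ∃ B, B.Of Y ∧ B.pts = closedPts Y`; `S := B.toPSurf` (`S.prm = B.prm = primes Y`, `S.pts = B.pts`, `S.A = B.clA` the class of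
`B.A`, and `B.A ν = hypZ Y ν` on the primes). Choose `i₀ : Y.ι`, `g i := Y.g i / Y.g i₀` (so `g i₀ = 1`), `hyp g ν = hypZ Y ν + ν.ord (Y.g i₀)`: same class (`S.cl_div`).
`crd g i = chart Y.g i` (the quotients `g j / g i` are the same). `gen`: a closed point `x = locAlg Y p`, index `i := p.i`: elements are `u / v` with `v ∉ p.P`. `frac` := `Y.frac`.
`perm`: points = `h.pts`, `h.pts'`; primes: `ν ∈ S.prm` iff `ν ∈ Ess x` for some `x ∈ S.pts` (`S.ess`, `S.infPts`), and `ν ∈ Ess x ↔ mv γ ν ∈ Ess (x.map γ)`.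
`φ' := φ * (γ⁻¹ g₀) * (γ g₀) / g₀ ^ a` up to the correct sides: `hyp' (γ ν) = hypZ (γ ν) + (γ ν).ord g₀ = hypZ (γ ν) + ν.ord (γ⁻¹ g₀)`, and
`a hypZ ν = a hyp' ν - a ν.ord g₀`. -/
theorem exists_sys {L : Type} [Field L] [Algebra ℂ L] {Y : NormalModel L} {γ : L ≃ₐ[ℂ] L} {a : ℤ}
    {φ : L} (h : Dyn Y γ a φ) : ∃ X : Sys L, X.S.prm = primes Y ∧ X.γ = γ := by
  obtain ⟨B, hB, hpts⟩ := LibCUR.exists_data Y h.smooth
  haveI := Y.fin
  haveI := Y.ne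
  obtain ⟨i₀⟩ := Y.ne
  obtain ⟨g₀, hg₀'⟩ : ∃ g₀ : L, g₀ = (Y.g i₀ : L) := ⟨_, rfl⟩
  have hg₀ : g₀ ≠ 0 := by
    rw [hg₀']
    exact (Y.g i₀).ne_zero
  obtain ⟨g, hgd⟩ : ∃ g : Y.ι → L, g = fun i => (Y.g i : L) / g₀ := ⟨_, rfl⟩
  have hg : ∀ i, g i ≠ 0 := by
    intro i
    rw [hgd]
    exact div_ne_zero (Y.g i).ne_zero hg₀
  have hone : g i₀ = 1 := by
    rw [hgd, hg₀']
    exact div_self (Y.g i₀).ne_zero
  have hcrd : ∀ i, crd g i = chart Y.g i := by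
    intro i
    have h1 : (fun j => g j / g i) = fun j => (Y.g j : L) / (Y.g i : L) := by
      funext j
      rw [hgd]
      exact div_div_div_cancel_right₀ hg₀ _ _
    rw [crd, chart, h1]
  have hhyp : ∀ ν : DVal L, hyp g ν = hypZ Y ν + ν.ord g₀ := by
    intro ν
    have h1 : (fun i => ν.ord (g i)) = fun i => ν.ord (Y.g i : L) - ν.ord g₀ := by
      funext i
      rw [hgd]
      show ν.ord ((Y.g i : L) / g₀) = _
      rw [div_eq_mul_inv, ν.ord_mul _ _ (Y.g i).ne_zero (inv_ne_zero hg₀), ν.ord_inv]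
      ring
    rw [hyp, hypZ, h1, N26_min]
    ring
  have hdiv : IsDiv B.prm (hyp g) := by
    have h1 : IsDiv B.prm (fun ν => B.A ν + ν.ord g₀) :=
      B.divA.add (LibKB2.isDiv_ord B.finDiv hg₀)
    refine h1.subset ?_
    rintro ν ⟨h2, h3⟩
    refine ⟨h2, ?_⟩
    show B.A ν + ν.ord g₀ ≠ 0
    rw [hhyp] at h3
    rw [hB.A ν (by rw [← hB.prm]; exact h2)]
    exact h3
  have hcl : B.toPSurf.cl (hyp g) = B.toPSurf.A := by
    show LibLB.clOf B.prm B.cls (hyp g) = B.cla ⟨B.A, B.divA⟩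
    rw [show LibLB.clOf B.prm B.cls (hyp g) = B.cla ⟨hyp g, hdiv⟩ from B.clOf_eq ⟨hyp g, hdiv⟩,
      B.cla_eq]
    refine ⟨g₀⁻¹, inv_ne_zero hg₀, fun ν hν => ?_⟩
    show B.A ν = hyp g ν + ν.ord g₀⁻¹
    rw [hhyp, hB.A ν (by rw [← hB.prm]; exact hν), ν.ord_inv]
    ring
  have hgen : ∀ x ∈ B.pts, ∃ i, crd g i ≤ x ∧ ∀ z ∈ x, ∃ u ∈ crd g i, ∃ v ∈ crd g i,
      v ≠ 0 ∧ v⁻¹ ∈ x ∧ z = u / v := by
    intro x hx
    rw [hpts] at hx
    obtain ⟨p, -, rfl⟩ := hx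
    have h1 : (1 : chart Y.g p.i) ∉ p.P := fun h1 => p.prime.ne_top ((Ideal.eq_top_iff_one _).2 h1)
    refine ⟨p.i, ?_, ?_⟩
    · rw [hcrd]
      intro z hz
      exact ⟨⟨z, hz⟩, 1, h1, by simp⟩
    · rintro z ⟨u, v, hv, rfl⟩
      rw [hcrd]
      have hv0 : (v : L) ≠ 0 := by
        intro h2
        apply hv
        have h3 : v = 0 := Subtype.ext h2
        rw [h3]
        exact p.P.zero_mem
      exact ⟨u, u.2, v, v.2, hv0, ⟨1, v, hv, by simp⟩, rfl⟩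
  have hprm : ∀ δ : L ≃ₐ[ℂ] L, (∀ x ∈ B.pts, x.map (δ : L →ₐ[ℂ] L) ∈ B.pts) →
      ∀ ν ∈ B.prm, mv δ ν ∈ B.prm := by
    intro δ hδ ν hν
    obtain ⟨x, hx, hxν⟩ := (B.infPts ν hν).nonempty
    have h1 : ν ∈ LibKB.Ess x := (B.ess x hx ν).2 ⟨hν, hxν⟩
    exact ((B.ess _ (hδ x hx) _).1 (N26_ess δ h1)).1
  have hp1 : ∀ x ∈ B.pts, x.map (γ : L →ₐ[ℂ] L) ∈ B.pts := by
    rw [hpts]
    exact h.pts
  have hp2 : ∀ x ∈ B.pts, x.map (γ.symm : L →ₐ[ℂ] L) ∈ B.pts := by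
    rw [hpts]
    exact h.pts'
  refine ⟨{ S := B.toPSurf
            ι := Y.ι
            fin := Y.fin
            ne := Y.ne
            g := g
            g_ne := hg
            one := ⟨i₀, hone⟩
            isDiv_hyp := hdiv
            cl_hyp := hcl
            gen := hgen
            frac := by
              intro i z
              obtain ⟨u, hu, v, hv, hv0, hz⟩ := Y.frac i z
              rw [hcrd]
              exact ⟨u, hu, v, hv, hv0, hz⟩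
            γ := γ
            perm := ⟨hprm γ hp1, hprm γ.symm hp2, hp1, hp2⟩
            a := a
            φ := φ * γ.symm g₀ * γ g₀ * g₀ ^ (-a)
            ha := h.ha
            hφ := by
              refine mul_ne_zero (mul_ne_zero (mul_ne_zero h.hφ ?_) ?_) (zpow_ne_zero _ hg₀)
              · exact (map_ne_zero γ.symm).2 hg₀
              · exact (map_ne_zero γ).2 hg₀
            rel := ?_ }, hB.prm, rfl⟩
  intro ν hν
  have hν' : ν ∈ primes Y := by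
    rw [← hB.prm]
    exact hν
  have h1 := h.rel ν hν'
  have n1 : γ.symm g₀ ≠ 0 := (map_ne_zero γ.symm).2 hg₀
  have n2 : γ g₀ ≠ 0 := (map_ne_zero γ).2 hg₀
  rw [hhyp, hhyp, hhyp,
    ν.ord_mul _ _ (mul_ne_zero (mul_ne_zero h.hφ n1) n2) (zpow_ne_zero _ hg₀),
    ν.ord_mul _ _ (mul_ne_zero h.hφ n1) n2, ν.ord_mul _ _ h.hφ n1, ν.ord_zpow]
  have e1 : (mv γ ν).ord g₀ = ν.ord (γ.symm g₀) := rfl
  have e2 : (mv γ⁻¹ ν).ord g₀ = ν.ord (γ g₀) := rfl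
  have e3 : hypZ Y (mv γ⁻¹ ν) = hypZ Y (mv γ.symm ν) := rfl
  rw [e1, e2, e3]
  linear_combination h1

end Pool.Agent.LibK3
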