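import Pool.Agent.LibK3.N17

set_option autoImplicit false

open Pool.Agent.LibGMM Pool.Agent.LibK Pool.Agent.LibKB
open Pool.Agent.LibLB (PSurf RLR)
open Pool.Agent.LibCov80 (Over)

namespace Pool.Agent.LibK3

namespace Sys

variable {L : Type} [Field L] [Algebra ℂ L] (X : Sys L)

/-- An invariant prime is invariant under the powers. -/
private theorem N28_mv_pow {γ : L ≃ₐ[ℂ] L} {ν : DVal L} (h : mv γ ν = ν) (j : ℕ) :
    mv (γ ^ j) ν = ν := by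
  induction j with
  | zero => rw [pow_zero, mv_one]
  | succ j ih => rw [pow_succ, mv_mul, h, ih]

/-- The inequality `form (α m) (cls ν) ≤ k A²` for all `m` fixing `ν`. -/
private theorem N28_bound {ν : DVal L} (hν : ν ∈ X.S.prm) : ∃ k : ℕ, ∀ m : ℤ,
    mv (X.γ ^ m) ν = ν → X.S.form (X.α m) (X.S.cls ν) ≤ k * X.S.form X.S.A X.S.A := by
  obtain ⟨k, hk⟩ := X.S.serre (- X.S.cls ν)
  have hprd : IsDiv X.S.prm (prd ν) := by
    rw [← LibCUR2.dlt_eq_prd]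
    exact LibKB2.isDiv_dlt _ _
  have hcl : ∀ m : ℤ, X.S.cl (fun μ => (k : ℤ) * X.H m μ + - prd ν μ) =
      (k : ℤ) • X.α m + - X.S.cls ν := by
    intro m
    change LibLB.clOf _ _ _ = _
    rw [LibLB.clOf_add ((X.isDiv_H m).zsmul k) hprd.neg, LibLB.clOf_zsmul _ (X.isDiv_H m),
      LibLB.clOf_neg hprd, LibLB.clOf_prd hν]
    rfl
  have hD : IsDiv X.S.prm (fun μ => (k : ℤ) * X.H 0 μ + - prd ν μ) :=
    ((X.isDiv_H 0).zsmul k).add hprd.neg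
  obtain ⟨x, hx⟩ := X.S.ptsNe
  have hA : LibLB.clOf X.S.prm X.S.cls (fun μ => (k : ℤ) * X.H 0 μ + - prd ν μ) =
      k • X.S.A + - X.S.cls ν := by
    have := hcl 0
    rw [X.α_zero, natCast_zsmul] at this
    exact this
  obtain ⟨f, hf1, hf2, -⟩ := (hk k le_rfl _ hD hA).2.2 x hx
  have hdf : IsDiv X.S.prm (fun μ => μ.ord f) := X.S.finDiv f hf2
  refine ⟨k, fun m hm => ?_⟩
  have hG : IsDiv X.S.prm (fun μ => ((k : ℤ) * X.H 0 μ + - prd ν μ) + μ.ord f) := hD.add hdf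
  have hGcl : X.S.cl (fun μ => ((k : ℤ) * X.H 0 μ + - prd ν μ) + μ.ord f) =
      X.S.cl (fun μ => (k : ℤ) * X.H 0 μ + - prd ν μ) := by
    change LibLB.clOf _ _ _ = LibLB.clOf _ _ _
    rw [LibLB.clOf_add hD hdf, X.S.cl_div f hf2, add_zero]
  have htr := tr_cl (X.perm.pow m) hG hD hGcl
  have hH : ∀ μ, tr (X.γ ^ m) (X.H 0) μ = X.H m μ := by
    intro μ
    unfold Sys.H
    rw [← tr_mul, zpow_zero, mul_one]
  have hP : ∀ μ, tr (X.γ ^ m) (prd ν) μ = prd ν μ := by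
    intro μ
    rw [tr_prd, hm]
  have hDm : tr (X.γ ^ m) (fun μ => (k : ℤ) * X.H 0 μ + - prd ν μ) =
      fun μ => (k : ℤ) * X.H m μ + - prd ν μ := by
    funext μ
    rw [← hH μ, ← hP μ]
    rfl
  rw [hDm, hcl m] at htr
  have hpos : 0 ≤ X.S.form (X.α m)
      (X.S.cl (tr (X.γ ^ m) (fun μ => ((k : ℤ) * X.H 0 μ + - prd ν μ) + μ.ord f))) := by
    refine LibCUR2.form_effDiv X.S (fun μ hμ => zero_le_one.trans (X.form_α_pos m hμ)) ?_
    intro μ hμ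
    have h1 : mv (X.γ ^ m)⁻¹ μ ∈ X.S.prm := (X.perm.pow m).prm' μ hμ
    have h2 := hf1 _ h1 hf2
    change 0 ≤ ((k : ℤ) * X.H 0 (mv (X.γ ^ m)⁻¹ μ) + - prd ν (mv (X.γ ^ m)⁻¹ μ)) +
      (mv (X.γ ^ m)⁻¹ μ).ord f
    rw [add_comm]
    exact h2
  rw [htr, map_add, map_smul, map_neg, smul_eq_mul] at hpos
  have h3 := X.form_α_sq_le m
  have h4 : (k : ℤ) * X.S.form (X.α m) (X.α m) ≤ k * X.S.form X.S.A X.S.A :=
    mul_le_mul_of_nonneg_left h3 (Int.natCast_nonneg k)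
  linarith

/-- There are no periodic primes.
PLAN. Suppose `mv (γ^n) ν = ν`, `n > 0`. `B := ∑ i ∈ range n, prd (mv (γ^i) ν)` satisfies `tr γ B = B` (`tr_prd`, `mv_mul`), so `tr (γ^m) B = B` for all
`m : ℤ`. For `k` large `k A - cl B` is effective: `k A - cl B = cl G`, `G ≥ 0` a divisor (`S.serre (- cl B)` gives a nonzero section of `k • H 0 - B`; take
`G := k • H 0 - B + div f`). Then `k α_m - cl B = cl (tr (γ^m) G)` with `tr (γ^m) G ≥ 0` (`tr_cl`), so `form (α_m) (k α_m - cl B) ≥ 0`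
(`LibCUR2.form_effDiv`, `form_α_pos`): `form (α_m) (cl B) ≤ k form (α_m) (α_m) = k A²` (`form_α_α` or `form_α_sq_le`) for all `m`. But
`form (α_m) (cl B) ≥ form (α_m) (cls ν)` grows (`growth`, `lam_gt`). Contradiction. -/
theorem not_periodic {ν : DVal L} (hν : ν ∈ X.S.prm) {n : ℕ} (hn : 0 < n) :
    mv (X.γ ^ n) ν ≠ ν := by
  intro h
  obtain ⟨k, hk⟩ := N28_bound X hν
  obtain ⟨c, C, hc, -, hg⟩ := X.growth hν
  have hl := X.lam_gt
  have hln : 1 < X.lam ^ n := one_lt_pow₀ hl hn.ne'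
  obtain ⟨j, hj⟩ := pow_unbounded_of_one_lt (((k * X.S.form X.S.A X.S.A : ℤ) : ℝ) / c) hln
  have hm : mv (X.γ ^ ((n * j : ℕ) : ℤ)) ν = ν := by
    rw [zpow_natCast, pow_mul]
    exact N28_mv_pow h j
  have h1 := hk ((n * j : ℕ) : ℤ) hm
  have h2 := (hg ((n * j : ℕ) : ℤ)).1
  rw [abs_of_nonneg (Int.natCast_nonneg _), zpow_natCast, pow_mul] at h2
  have h3 : ((X.S.form (X.α ((n * j : ℕ) : ℤ)) (X.S.cls ν) : ℤ) : ℝ) ≤
      ((k * X.S.form X.S.A X.S.A : ℤ) : ℝ) := by exact_mod_cast h1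
  rw [div_lt_iff₀ hc] at hj
  linarith

end Sys

end Pool.Agent.LibK3
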