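import Pool.Agent.LibK3.N26
import Pool.Agent.LibK3.N16
import Pool.Agent.LibK3.N28

set_option autoImplicit false

open Pool.Agent.LibGMM Pool.Agent.LibK Pool.Agent.LibKB
open Pool.Agent.LibLB (PSurf RLR)
open Pool.Agent.LibCov80 (Over)

namespace Pool.Agent.LibK3

/-- (N-per) There are no periodic primes. PLAN. `exists_sys`, `Sys.not_periodic`. -/
theorem not_periodic {L : Type} [Field L] [Algebra ℂ L] {Y : NormalModel L} {γ : L ≃ₐ[ℂ] L} {a : ℤ}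
    {φ : L} (h : Dyn Y γ a φ) {ν : DVal L} (hν : ν ∈ primes Y) {n : ℕ} (hn : 0 < n) :
    mv (γ ^ n) ν ≠ ν := by
  obtain ⟨X, hX, rfl⟩ := exists_sys h
  rw [← hX] at hν
  exact X.not_periodic hν hn

/-- (N-nc) PLAN. `exists_sys`, `Sys.cv_nonconst`; `X.cv C m = C.mv (γ ^ (m : ℤ))`, `zpow_natCast`. -/
theorem nonconst_large {L : Type} [Field L] [Algebra ℂ L] {Y : NormalModel L} {γ : L ≃ₐ[ℂ] L}
    {a : ℤ} {φ : L} (h : Dyn Y γ a φ) {C₀ : RC L} (hC : C₀.ν ∈ primes Y) {z : L}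
    (hz : z ∉ Set.range (algebraMap ℂ L)) : ∃ m₀ : ℕ, ∀ m : ℕ, m₀ ≤ m →
      z ∈ (mv (γ ^ m) C₀.ν).ring ∧ ∀ c, (C₀.mv (γ ^ m)).ψ z ≠ RatFunc.C c := by
  obtain ⟨X, hX, rfl⟩ := exists_sys h
  rw [← hX] at hC
  obtain ⟨m₀, hm₀⟩ := X.cv_nonconst hC hz
  refine ⟨m₀, fun m hm => ?_⟩
  have h1 := hm₀ m hm
  unfold Sys.cv at h1
  rw [zpow_natCast] at h1
  exact h1

/-- (N-fin) PLAN. `finDiv` and `cv_avoid`. -/
theorem ord_zero_large {L : Type} [Field L] [Algebra ℂ L] {Y : NormalModel L} {γ : L ≃ₐ[ℂ] L}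
    {a : ℤ} {φ : L} (h : Dyn Y γ a φ) {C₀ : RC L} (hC : C₀.ν ∈ primes Y) {z : L} (hz : z ≠ 0) :
    ∃ m₀ : ℕ, ∀ m : ℕ, m₀ ≤ m → (mv (γ ^ m) C₀.ν).ord z = 0 := by
  obtain ⟨X, hX, rfl⟩ := exists_sys h
  rw [← hX] at hC
  obtain ⟨m₀, hm₀⟩ := X.cv_avoid hC (X.S.finDiv z hz)
  refine ⟨m₀, fun m hm => ?_⟩
  have h1 := hm₀ m hm
  have h2 := X.cv_mem hC (m : ℤ)
  unfold Sys.cv at h1 h2
  rw [zpow_natCast] at h1 h2
  by_contra h3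
  exact h1 ⟨h2, h3⟩

end Pool.Agent.LibK3
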