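import Pool.Agent.LibK3.Defs

set_option autoImplicit false

open Pool.Agent.LibGMM Pool.Agent.LibK Pool.Agent.LibKB
open Pool.Agent.LibLB (PSurf RLR)
open Pool.Agent.LibCov80 (Over)

namespace Pool.Agent.LibK3

/-- The derivation `d / dt`.
PLAN. Mathlib: `Derivation` on a localisation / fraction field; e.g. `Differential`/`Derivation.liftOfSurjective`...
If nothing fits: define `δ f := (num' denom - num denom') / denom ^ 2` and show that
`δ (p / q) = (p' q - p q') / q ^ 2` for all `p, q ≠ 0` (cross multiplication), then the rules. Another way: the algebra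
`RatFunc ℂ` is formally étale over `Polynomial ℂ` (localisation), and see how `LibCov80`/`LibGMM` (file `CanDer.lean`,
`LibGMM.CanJac`) extend derivations to fraction fields and algebraic extensions. -/
theorem exists_dt : ∃ δ : Derivation ℂ (RatFunc ℂ) (RatFunc ℂ), IsDt δ := by
  have : Algebra.FormallyEtale (Polynomial ℂ) (RatFunc ℂ) :=
    Algebra.FormallyEtale.of_isLocalization (nonZeroDivisors (Polynomial ℂ))
  have hb := KaehlerDifferential.isBaseChange_of_formallyEtale ℂ (Polynomial ℂ) (RatFunc ℂ)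
  let d0 : Derivation ℂ (Polynomial ℂ) (RatFunc ℂ) :=
    (Algebra.linearMap (Polynomial ℂ) (RatFunc ℂ)).compDer (Polynomial.derivative' : Derivation ℂ
      (Polynomial ℂ) (Polynomial ℂ))
  refine ⟨(hb.lift d0.liftKaehlerDifferential).compDer (KaehlerDifferential.D ℂ (RatFunc ℂ)), ?_⟩
  have h1 := hb.lift_eq d0.liftKaehlerDifferential
    (KaehlerDifferential.D ℂ (Polynomial ℂ) Polynomial.X)
  rw [KaehlerDifferential.map_D, Derivation.liftKaehlerDifferential_comp_D] at h1
  rw [RatFunc.algebraMap_X] at h1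
  unfold IsDt
  refine Eq.trans h1 ?_
  simp [d0]

/-- PLAN. `δ' - δ' X • δ` is a derivation which vanishes at `X`, hence on polynomials
(`Polynomial.induction_on` / `Derivation.eqOn_adjoin`), hence on quotients (`Derivation.leibniz_div` or from
`δ (f q) = δ p`). -/
theorem der_eq {δ δ' : Derivation ℂ (RatFunc ℂ) (RatFunc ℂ)} (h : IsDt δ) (f : RatFunc ℂ) :
    δ' f = δ' RatFunc.X * δ f := by
  have h1 : ∀ p : Polynomial ℂ, δ' (algebraMap (Polynomial ℂ) (RatFunc ℂ) p) =
      δ' RatFunc.X * δ (algebraMap (Polynomial ℂ) (RatFunc ℂ) p) := by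
    intro p
    have h2 : algebraMap (Polynomial ℂ) (RatFunc ℂ) p = Polynomial.aeval RatFunc.X p := by
      rw [← RatFunc.algebraMap_X, Polynomial.aeval_algebraMap_apply, Polynomial.aeval_X_left_apply]
    rw [h2, Derivation.map_aeval, Derivation.map_aeval, h]
    simp only [smul_eq_mul]
    ring
  obtain ⟨p, q, hq, rfl⟩ := IsFractionRing.div_surjective (A := Polynomial ℂ) f
  have hq0 : algebraMap (Polynomial ℂ) (RatFunc ℂ) q ≠ 0 :=
    IsFractionRing.to_map_ne_zero_of_mem_nonZeroDivisors hq
  rw [Derivation.leibniz_div, Derivation.leibniz_div, h1, h1]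
  simp only [smul_eq_mul]
  ring

end Pool.Agent.LibK3
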