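import Pool.Agent.LibK3.NP2
import Pool.Agent.LibK3.NP5

set_option autoImplicit false

open Pool.Agent.LibGMM Pool.Agent.LibK Pool.Agent.LibKB
open Pool.Agent.LibLB (PSurf RLR)
open Pool.Agent.LibCov80 (Over)

namespace Pool.Agent.LibK3

/-- The factor `w` such that `w_v d / dt` is the derivation along the local coordinate at `v`. -/
noncomputable def wP : Plc → RatFunc ℂ
  | some _ => 1
  | none => RatFunc.X ^ 2

private theorem NP6_ne (v : Plc) : wP v ≠ 0 := by
  cases v with
  | none => exact pow_ne_zero _ RatFunc.X_ne_zero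
  | some c => exact one_ne_zero

private theorem NP6_one (v : Plc) : ordP v 1 = 0 := by
  have := ordP_C v 1
  rwa [map_one] at this

private theorem NP6_map_ne {p : Polynomial ℂ} (hp : p ≠ 0) :
    algebraMap (Polynomial ℂ) (RatFunc ℂ) p ≠ 0 :=
  (map_ne_zero_iff _ (RatFunc.algebraMap_injective ℂ)).2 hp

private theorem NP6_some_poly (c : ℂ) {p : Polynomial ℂ} (hp : p ≠ 0) :
    ordP (some c) (algebraMap (Polynomial ℂ) (RatFunc ℂ) p) = (p.rootMultiplicity c : ℤ) := by
  have := ordP_some_div c hp one_ne_zero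
  rw [map_one, div_one, Polynomial.rootMultiplicity_eq_zero (p := (1 : Polynomial ℂ)) (x := c)
    (by simp [Polynomial.IsRoot])] at this
  rw [this]
  simp

private theorem NP6_none_poly {p : Polynomial ℂ} (hp : p ≠ 0) :
    ordP none (algebraMap (Polynomial ℂ) (RatFunc ℂ) p) = - (p.natDegree : ℤ) := by
  have := ordP_none_div hp one_ne_zero
  simpa using this

private theorem NP6_none_X2 : ordP none (RatFunc.X ^ 2 : RatFunc ℂ) = -2 := by
  have h := NP6_none_poly (p := Polynomial.X ^ 2) (pow_ne_zero _ Polynomial.X_ne_zero)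
  rw [map_pow, RatFunc.algebraMap_X] at h
  rw [h]
  simp

/-- The support is `{none}` and the order of `X ^ 2` there is `-2`. -/
theorem ordP_wP : {v | ordP v (wP v) ≠ 0}.Finite ∧ ∑ᶠ v, ordP v (wP v) = -2 := by
  have h0 : ∀ v : Plc, v ≠ none → ordP v (wP v) = 0 := by
    intro v hv
    cases v with
    | none => exact absurd rfl hv
    | some c => exact NP6_one _
  refine ⟨(Set.finite_singleton none).subset fun v hv => ?_, ?_⟩
  · by_contra h
    exact hv (h0 v h)
  · rw [finsum_eq_single (fun v => ordP v (wP v)) none h0]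
    exact NP6_none_X2

theorem wP_ne (v : Plc) : wP v ≠ 0 := NP6_ne v

/-- the derivative of a polynomial -/
private theorem NP6_der {δ : Derivation ℂ (RatFunc ℂ) (RatFunc ℂ)} (h : IsDt δ) (p : Polynomial ℂ) :
    δ (algebraMap (Polynomial ℂ) (RatFunc ℂ) p) =
      algebraMap (Polynomial ℂ) (RatFunc ℂ) (Polynomial.derivative p) := by
  have h2 : ∀ p : Polynomial ℂ, algebraMap (Polynomial ℂ) (RatFunc ℂ) p = Polynomial.aeval RatFunc.X p := by
    intro p
    rw [← RatFunc.algebraMap_X, Polynomial.aeval_algebraMap_apply, Polynomial.aeval_X_left_apply]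
  rw [h2, Derivation.map_aeval, h, h2]
  simp

private theorem NP6_div {δ : Derivation ℂ (RatFunc ℂ) (RatFunc ℂ)} (h : IsDt δ) (p q : Polynomial ℂ)
    (hq : q ≠ 0) :
    δ (algebraMap (Polynomial ℂ) (RatFunc ℂ) p / algebraMap (Polynomial ℂ) (RatFunc ℂ) q) =
      algebraMap (Polynomial ℂ) (RatFunc ℂ)
        (Polynomial.derivative p * q - p * Polynomial.derivative q) /
      algebraMap (Polynomial ℂ) (RatFunc ℂ) (q ^ 2) := by
  have hq0 := NP6_map_ne hq
  rw [Derivation.leibniz_div, NP6_der h, NP6_der h, map_pow, map_sub, map_mul, map_mul]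
  simp only [smul_eq_mul]
  field_simp

private theorem NP6_rep (f : RatFunc ℂ) (hf : f ≠ 0) : ∃ p q : Polynomial ℂ, p ≠ 0 ∧ q ≠ 0 ∧
    IsCoprime p q ∧ f = algebraMap (Polynomial ℂ) (RatFunc ℂ) p /
      algebraMap (Polynomial ℂ) (RatFunc ℂ) q :=
  ⟨f.num, f.denom, RatFunc.num_ne_zero hf, RatFunc.denom_ne_zero f,
    RatFunc.isCoprime_num_denom f, (RatFunc.num_div_denom f).symm⟩

private theorem NP6_rm_der (c : ℂ) (p : Polynomial ℂ) (hp : Polynomial.derivative p ≠ 0) :
    (p.rootMultiplicity c : ℤ) - 1 ≤ (Polynomial.derivative p).rootMultiplicity c := by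
  by_cases hr : p.IsRoot c
  · have h1 := Polynomial.derivative_rootMultiplicity_of_root hr
    have h2 : 0 < p.rootMultiplicity c := by
      rw [Polynomial.rootMultiplicity_pos]
      · exact hr
      · intro h0
        rw [h0] at hp
        simp at hp
    omega
  · have : p.rootMultiplicity c = 0 := Polynomial.rootMultiplicity_eq_zero hr
    omega

private theorem NP6_rmN (c : ℂ) {p q : Polynomial ℂ} (hp : p ≠ 0) (hq : q ≠ 0)
    (hN : Polynomial.derivative p * q - p * Polynomial.derivative q ≠ 0) :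
    (p.rootMultiplicity c : ℤ) + q.rootMultiplicity c - 1 ≤
      (Polynomial.derivative p * q - p * Polynomial.derivative q).rootMultiplicity c := by
  set a := p.rootMultiplicity c
  set b := q.rootMultiplicity c
  have hdvd : (Polynomial.X - Polynomial.C c) ^ (a + b - 1) ∣
      Polynomial.derivative p * q - p * Polynomial.derivative q := by
    refine dvd_sub ?_ ?_
    · by_cases h0 : Polynomial.derivative p = 0
      · rw [h0, zero_mul]
        exact dvd_zero _
      · rw [← Polynomial.le_rootMultiplicity_iff (mul_ne_zero h0 hq),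
          Polynomial.rootMultiplicity_mul (mul_ne_zero h0 hq)]
        have := NP6_rm_der c p h0
        omega
    · by_cases h0 : Polynomial.derivative q = 0
      · rw [h0, mul_zero]
        exact dvd_zero _
      · rw [← Polynomial.le_rootMultiplicity_iff (mul_ne_zero hp h0),
          Polynomial.rootMultiplicity_mul (mul_ne_zero hp h0)]
        have := NP6_rm_der c q h0
        omega
  have := (Polynomial.le_rootMultiplicity_iff hN).2 hdvd
  omega

private theorem NP6_deg {p q : Polynomial ℂ}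
    (hN : Polynomial.derivative p * q - p * Polynomial.derivative q ≠ 0) :
    ((Polynomial.derivative p * q - p * Polynomial.derivative q).natDegree : ℤ) ≤
      p.natDegree + q.natDegree - 1 := by
  have h1 : ∀ p q : Polynomial ℂ, (Polynomial.derivative p * q).natDegree ≤
      p.natDegree + q.natDegree - 1 := by
    intro p q
    by_cases h0 : Polynomial.derivative p = 0
    · rw [h0, zero_mul, Polynomial.natDegree_zero]
      exact Nat.zero_le _
    · have hpd : p.natDegree ≠ 0 := by
        intro h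
        exact h0 (Polynomial.derivative_of_natDegree_zero h)
      have h2 := Polynomial.natDegree_derivative_lt hpd
      have h3 := Polynomial.natDegree_mul_le (p := Polynomial.derivative p) (q := q)
      omega
  have h2 := h1 p q
  have h3 := h1 q p
  rw [mul_comm] at h3
  have h4 := Polynomial.natDegree_sub_le (Polynomial.derivative p * q) (p * Polynomial.derivative q)
  have h5 : (Polynomial.derivative p * q - p * Polynomial.derivative q).natDegree ≤
      p.natDegree + q.natDegree - 1 := by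
    refine h4.trans (max_le h2 ?_)
    rw [add_comm p.natDegree]
    exact h3
  have h6 : 0 < p.natDegree + q.natDegree := by
    by_contra hcon
    have hp0 : p.natDegree = 0 := by omega
    have hq0 : q.natDegree = 0 := by omega
    exact hN (by rw [Polynomial.derivative_of_natDegree_zero hp0,
      Polynomial.derivative_of_natDegree_zero hq0]; ring)
  omega

/-- In general the order drops by at most one. -/
private theorem NP6_ge {δ : Derivation ℂ (RatFunc ℂ) (RatFunc ℂ)} (h : IsDt δ) (v : Plc)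
    {f : RatFunc ℂ} (hf : δ f ≠ 0) : ordP v f - 1 ≤ ordP v (wP v * δ f) := by
  have hf0 : f ≠ 0 := by
    rintro rfl
    exact hf (map_zero δ)
  obtain ⟨p, q, hp, hq, -, rfl⟩ := NP6_rep f hf0
  rw [NP6_div h p q hq] at hf ⊢
  have hN : Polynomial.derivative p * q - p * Polynomial.derivative q ≠ 0 := by
    intro h0
    rw [h0] at hf
    simp at hf
  rw [ordP_mul v (NP6_ne v) hf]
  cases v with
  | none =>
    rw [ordP_none_div hp hq, ordP_none_div hN (pow_ne_zero 2 hq)]
    have h2 : ordP none (wP none) = -2 := NP6_none_X2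
    rw [h2, Polynomial.natDegree_pow]
    have := NP6_deg hN
    push_cast
    linarith
  | some c =>
    rw [ordP_some_div c hp hq, ordP_some_div c hN (pow_ne_zero 2 hq)]
    have h2 : ordP (some c) (wP (some c)) = 0 := NP6_one _
    rw [h2, pow_two, Polynomial.rootMultiplicity_mul (mul_ne_zero hq hq)]
    have := NP6_rmN c hp hq hN
    push_cast
    linarith

/-- residue constants -/
private theorem NP6_res (v : Plc) {f : RatFunc ℂ} (hf : f ≠ 0) (h0 : ordP v f = 0) :
    ∃ a : ℂ, f - RatFunc.C a = 0 ∨ 1 ≤ ordP v (f - RatFunc.C a) := by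
  obtain ⟨p, q, hp, hq, hco, rfl⟩ := NP6_rep f hf
  have hsub : ∀ a : ℂ, algebraMap (Polynomial ℂ) (RatFunc ℂ) p /
      algebraMap (Polynomial ℂ) (RatFunc ℂ) q - RatFunc.C a =
      algebraMap (Polynomial ℂ) (RatFunc ℂ) (p - Polynomial.C a * q) /
      algebraMap (Polynomial ℂ) (RatFunc ℂ) q := by
    intro a
    have := NP6_map_ne hq
    rw [map_sub, map_mul, RatFunc.algebraMap_C]
    field_simp
  cases v with
  | none =>
    rw [ordP_none_div hp hq] at h0
    have hd : p.natDegree = q.natDegree := by omega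
    refine ⟨p.leadingCoeff / q.leadingCoeff, ?_⟩
    rw [hsub]
    by_cases hz : p - Polynomial.C (p.leadingCoeff / q.leadingCoeff) * q = 0
    · left
      rw [hz, map_zero, zero_div]
    · right
      rw [ordP_none_div hz hq]
      have hq' : q.leadingCoeff ≠ 0 := Polynomial.leadingCoeff_ne_zero.2 hq
      have ha : p.leadingCoeff / q.leadingCoeff ≠ 0 :=
        div_ne_zero (Polynomial.leadingCoeff_ne_zero.2 hp) hq'
      have hdq : (Polynomial.C (p.leadingCoeff / q.leadingCoeff) * q).degree = p.degree := by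
        rw [Polynomial.degree_C_mul ha, Polynomial.degree_eq_natDegree hp,
          Polynomial.degree_eq_natDegree hq, hd]
      have hlt := Polynomial.degree_sub_lt_left hdq.symm hp (by
        rw [Polynomial.leadingCoeff_mul, Polynomial.leadingCoeff_C, div_mul_cancel₀ _ hq'])
      have := Polynomial.natDegree_lt_natDegree hz hlt
      omega
  | some c =>
    rw [ordP_some_div c hp hq] at h0
    have hqc : ¬ q.IsRoot c := by
      intro hr
      have h1 : 0 < q.rootMultiplicity c := (Polynomial.rootMultiplicity_pos hq).2 hr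
      have h2 : 0 < p.rootMultiplicity c := by omega
      have h3 : p.IsRoot c := (Polynomial.rootMultiplicity_pos hp).1 h2
      obtain ⟨u, w, huw⟩ := hco
      have := congrArg (Polynomial.eval c) huw
      rw [Polynomial.eval_add, Polynomial.eval_mul, Polynomial.eval_mul, h3.eq_zero, hr.eq_zero] at this
      simp at this
    have hqc' : q.eval c ≠ 0 := hqc
    refine ⟨p.eval c / q.eval c, ?_⟩
    rw [hsub]
    by_cases hz : p - Polynomial.C (p.eval c / q.eval c) * q = 0
    · left
      rw [hz, map_zero, zero_div]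
    · right
      rw [ordP_some_div c hz hq, Polynomial.rootMultiplicity_eq_zero hqc]
      have : 0 < (p - Polynomial.C (p.eval c / q.eval c) * q).rootMultiplicity c := by
        rw [Polynomial.rootMultiplicity_pos hz, Polynomial.IsRoot.def]
        simp only [Polynomial.eval_sub, Polynomial.eval_mul, Polynomial.eval_C]
        field_simp
        ring
      omega

private theorem NP6_zero {δ : Derivation ℂ (RatFunc ℂ) (RatFunc ℂ)} (h : IsDt δ) (v : Plc)
    {f : RatFunc ℂ} (hf : f ≠ 0) (h0 : ordP v f = 0) : 0 ≤ ordP v (wP v * δ f) := by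
  obtain ⟨a, ha⟩ := NP6_res v hf h0
  have hδ : δ (f - RatFunc.C a) = δ f := by
    have h1 : (RatFunc.C a : RatFunc ℂ) = algebraMap ℂ (RatFunc ℂ) a := rfl
    rw [map_sub, h1, Derivation.map_algebraMap, sub_zero]
  by_cases hd : δ f = 0
  · rw [hd, mul_zero, ordP_zero]
  · rcases ha with ha | ha
    · exact absurd (by rw [← hδ, ha, map_zero]) hd
    · rw [← hδ] at hd ⊢
      have := NP6_ge h v hd
      omega

/-- the local coordinate -/
private noncomputable def NP6t : Plc → RatFunc ℂ
  | some c => RatFunc.X - RatFunc.C c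
  | none => (RatFunc.X)⁻¹

private theorem NP6t_eq (c : ℂ) : (RatFunc.X - RatFunc.C c : RatFunc ℂ) =
    algebraMap (Polynomial ℂ) (RatFunc ℂ) (Polynomial.X - Polynomial.C c) := by
  rw [map_sub, RatFunc.algebraMap_X, RatFunc.algebraMap_C]

private theorem NP6t_ne (v : Plc) : NP6t v ≠ 0 := by
  cases v with
  | none => exact inv_ne_zero RatFunc.X_ne_zero
  | some c =>
    show (RatFunc.X - RatFunc.C c : RatFunc ℂ) ≠ 0
    rw [NP6t_eq]
    exact NP6_map_ne (Polynomial.X_sub_C_ne_zero c)

private theorem NP6t_ord (v : Plc) : ordP v (NP6t v) = 1 := by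
  cases v with
  | none =>
    show ordP none (RatFunc.X : RatFunc ℂ)⁻¹ = 1
    have h := ordP_none_div (p := 1) (q := Polynomial.X) one_ne_zero Polynomial.X_ne_zero
    rw [map_one, RatFunc.algebraMap_X, one_div] at h
    rw [h]
    simp
  | some c =>
    show ordP (some c) (RatFunc.X - RatFunc.C c : RatFunc ℂ) = 1
    rw [NP6t_eq, NP6_some_poly c (Polynomial.X_sub_C_ne_zero c),
      Polynomial.rootMultiplicity_X_sub_C_self]
    rfl

private theorem NP6t_der {δ : Derivation ℂ (RatFunc ℂ) (RatFunc ℂ)} (h : IsDt δ) (v : Plc) :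
    ∃ e : ℂ, e ≠ 0 ∧ wP v * δ (NP6t v) = RatFunc.C e := by
  cases v with
  | none =>
    refine ⟨-1, by norm_num, ?_⟩
    show RatFunc.X ^ 2 * δ (RatFunc.X : RatFunc ℂ)⁻¹ = _
    have hX : (RatFunc.X : RatFunc ℂ) ≠ 0 := RatFunc.X_ne_zero
    rw [Derivation.leibniz_inv, h, map_neg, map_one]
    simp only [smul_eq_mul]
    field_simp
  | some c =>
    refine ⟨1, one_ne_zero, ?_⟩
    show 1 * δ (RatFunc.X - RatFunc.C c : RatFunc ℂ) = _
    have h1 : (RatFunc.C c : RatFunc ℂ) = algebraMap ℂ (RatFunc ℂ) c := rfl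
    rw [map_sub, h, h1, Derivation.map_algebraMap, sub_zero, map_one, one_mul]

private theorem NP6_pow (v : Plc) {f : RatFunc ℂ} (hf : f ≠ 0) (n : ℕ) :
    ordP v (f ^ n) = n * ordP v f := by
  induction n with
  | zero => simp [NP6_one]
  | succ n ih =>
    rw [pow_succ, ordP_mul v (pow_ne_zero n hf) hf, ih]
    push_cast
    ring

private theorem NP6_inv (v : Plc) {f : RatFunc ℂ} (hf : f ≠ 0) :
    ordP v (f⁻¹) = - ordP v f := by
  have h := ordP_mul v hf (inv_ne_zero hf)
  rw [mul_inv_cancel₀ hf, NP6_one] at h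
  linarith

private theorem NP6_zpow (v : Plc) {f : RatFunc ℂ} (hf : f ≠ 0) (n : ℤ) :
    ordP v (f ^ n) = n * ordP v f := by
  cases n with
  | ofNat n => simpa using NP6_pow v hf n
  | negSucc n =>
    rw [zpow_negSucc, NP6_inv v (pow_ne_zero _ hf), NP6_pow v hf, Int.negSucc_eq]
    push_cast
    ring

private theorem NP6_nonzero {δ : Derivation ℂ (RatFunc ℂ) (RatFunc ℂ)} (h : IsDt δ) (v : Plc)
    {f : RatFunc ℂ} (hf : f ≠ 0) (hf' : ordP v f ≠ 0) :
    δ f ≠ 0 ∧ ordP v (wP v * δ f) = ordP v f - 1 := by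
  set k := ordP v f with hk
  set τ := NP6t v with hτ
  have hτ0 : τ ≠ 0 := NP6t_ne v
  have hτ1 : ordP v τ = 1 := NP6t_ord v
  obtain ⟨e, he, hwe⟩ := NP6t_der h v
  obtain ⟨u, hu0, huo, hfu⟩ : ∃ u : RatFunc ℂ, u ≠ 0 ∧ ordP v u = 0 ∧ f = τ ^ k * u := by
    refine ⟨f * τ ^ (-k), mul_ne_zero hf (zpow_ne_zero _ hτ0), ?_, ?_⟩
    · rw [ordP_mul v hf (zpow_ne_zero _ hτ0), NP6_zpow v hτ0, hτ1, ← hk]
      ring
    · rw [mul_left_comm, ← zpow_add₀ hτ0, add_neg_cancel, zpow_zero, mul_one]
  have hA := NP6_zero h v hu0 huo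
  have hz : δ (τ ^ k) = (k : RatFunc ℂ) * τ ^ (k - 1) * δ τ := by
    have := Derivation.leibniz_zpow δ τ k
    rw [this]
    simp [mul_assoc]
  have hform : wP v * δ f = τ ^ (k - 1) * (RatFunc.C ((k : ℂ) * e) * u + τ * (wP v * δ u)) := by
    have hkC : (k : RatFunc ℂ) = RatFunc.C (k : ℂ) := by simp
    have hz1 : τ ^ k = τ ^ (k - 1) * τ := by
      rw [zpow_sub_one₀ hτ0, inv_mul_cancel_right₀ hτ0]
    have hCm : (RatFunc.C ((k : ℂ) * e) : RatFunc ℂ) = RatFunc.C (k : ℂ) * RatFunc.C e :=
      map_mul _ _ _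
    have hL : δ f = τ ^ k * δ u + u * ((k : RatFunc ℂ) * τ ^ (k - 1) * δ τ) := by
      rw [← hz]
      conv_lhs => rw [hfu]
      rw [Derivation.leibniz]
      rfl
    rw [hL, hkC, hCm, ← hwe, hz1]
    ring
  have hke : (k : ℂ) * e ≠ 0 := mul_ne_zero (Int.cast_ne_zero.2 hf') he
  have hCke : (RatFunc.C ((k : ℂ) * e) : RatFunc ℂ) ≠ 0 := by
    rw [Ne, map_eq_zero]
    exact hke
  have ha0 : RatFunc.C ((k : ℂ) * e) * u ≠ 0 := mul_ne_zero hCke hu0
  have hao : ordP v (RatFunc.C ((k : ℂ) * e) * u) = 0 := by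
    rw [ordP_mul v hCke hu0, ordP_C, huo, add_zero]
  have hsum : RatFunc.C ((k : ℂ) * e) * u + τ * (wP v * δ u) ≠ 0 ∧
      ordP v (RatFunc.C ((k : ℂ) * e) * u + τ * (wP v * δ u)) = 0 := by
    by_cases hb0 : δ u = 0
    · rw [hb0, mul_zero, mul_zero, add_zero]
      exact ⟨ha0, hao⟩
    · have hwb : wP v * δ u ≠ 0 := mul_ne_zero (NP6_ne v) hb0
      have hb : τ * (wP v * δ u) ≠ 0 := mul_ne_zero hτ0 hwb
      have hbo : 1 ≤ ordP v (τ * (wP v * δ u)) := by
        rw [ordP_mul v hτ0 hwb, hτ1]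
        omega
      have hs : RatFunc.C ((k : ℂ) * e) * u + τ * (wP v * δ u) ≠ 0 := by
        intro h0
        have h1 : RatFunc.C ((k : ℂ) * e) * u = - (τ * (wP v * δ u)) := eq_neg_of_add_eq_zero_left h0
        have h2 : ordP v (- (τ * (wP v * δ u))) = ordP v (τ * (wP v * δ u)) := by
          have h3 : (- (τ * (wP v * δ u))) = RatFunc.C (-1) * (τ * (wP v * δ u)) := by
            rw [map_neg, map_one]; ring
          rw [h3, ordP_mul v (by rw [Ne, map_eq_zero]; norm_num) hb, ordP_C, zero_add]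
        rw [h1, h2] at hao
        omega
      refine ⟨hs, ?_⟩
      have h1 := ordP_add v ha0 hb hs
      rw [hao] at h1
      have hnb : - (τ * (wP v * δ u)) ≠ 0 := neg_ne_zero.2 hb
      have h2 : ordP v (- (τ * (wP v * δ u))) = ordP v (τ * (wP v * δ u)) := by
        have h3 : (- (τ * (wP v * δ u))) = RatFunc.C (-1) * (τ * (wP v * δ u)) := by
          rw [map_neg, map_one]; ring
        rw [h3, ordP_mul v (by rw [Ne, map_eq_zero]; norm_num) hb, ordP_C, zero_add]
      have h4 := ordP_add v hs hnb (by rw [add_neg_cancel_right]; exact ha0)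
      rw [add_neg_cancel_right, hao, h2] at h4
      omega
  have hτk : τ ^ (k - 1) ≠ 0 := zpow_ne_zero _ hτ0
  refine ⟨?_, ?_⟩
  · intro h0
    rw [h0, mul_zero] at hform
    exact mul_ne_zero hτk hsum.1 hform.symm
  · rw [hform, ordP_mul v hτk hsum.1, hsum.2, NP6_zpow v hτ0, hτ1]
    ring

/-- PLAN. With the local coordinate `τ := X - C c` (resp. `X⁻¹`): `wP v * δ τ = ±1`. Write
`f = τ ^ k * u`, `u` of order `0` (`k = ordP v f`). `u = p / q` with `q` not vanishing at the place, so
`wP v * δ u` has order `≥ 0` (for `some c`: `(p' q - p q') / q²`; for `none`: `u = p/q`, equal degrees,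
`X² (p' q - p q')/q²`: the leading terms cancel in `p' q - p q'`, so its degree is `≤ 2 deg q - 2`). Hence
`wP v * δ f = τ^(k-1) (k (± u) + τ (...))` has order `≥ k - 1`, `= k - 1` if `k ≠ 0`, and `≥ 0` if `k ≥ 0`. -/
theorem ordP_dt {δ : Derivation ℂ (RatFunc ℂ) (RatFunc ℂ)} (h : IsDt δ) (v : Plc) {f : RatFunc ℂ}
    (hf : 0 ≤ ordP v f) : 0 ≤ ordP v (wP v * δ f) := by
  by_cases hf0 : f = 0
  · rw [hf0, map_zero, mul_zero, ordP_zero]
  · by_cases h0 : ordP v f = 0
    · exact NP6_zero h v hf0 h0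
    · have := (NP6_nonzero h v hf0 h0).2
      omega

theorem ordP_dt' {δ : Derivation ℂ (RatFunc ℂ) (RatFunc ℂ)} (h : IsDt δ) (v : Plc) {f : RatFunc ℂ}
    (hf : f ≠ 0) (hf' : ordP v f ≠ 0) : δ f ≠ 0 ∧ ordP v (wP v * δ f) = ordP v f - 1 :=
  NP6_nonzero h v hf hf'

/-- In general the order drops by at most one. -/
theorem ordP_dt_ge {δ : Derivation ℂ (RatFunc ℂ) (RatFunc ℂ)} (h : IsDt δ) (v : Plc)
    {f : RatFunc ℂ} (hf : δ f ≠ 0) : ordP v f - 1 ≤ ordP v (wP v * δ f) :=
  NP6_ge h v hf

end Pool.Agent.LibK3
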