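import Pool.Agent.LibK3.NP1
import Pool.Agent.LibK3.NP2
import Pool.Agent.LibK3.NP3
import Pool.Agent.LibK3.NP4
import Pool.Agent.LibK3.NP5
import Pool.Agent.LibK3.NP6
import Pool.Agent.LibK3.NG1
import Pool.Agent.LibK3.N01
import Pool.Agent.LibK3.N02
import Pool.Agent.LibK3.N03
import Pool.Agent.LibK3.N04
import Pool.Agent.LibK3.N05
import Pool.Agent.LibK3.N06
import Pool.Agent.LibK3.N07
import Pool.Agent.LibK3.N23
import Pool.Agent.LibK3.N08
import Pool.Agent.LibK3.N09
import Pool.Agent.LibK3.N10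
import Pool.Agent.LibK3.N11
import Pool.Agent.LibK3.N12
import Pool.Agent.LibK3.N13
import Pool.Agent.LibK3.N14
import Pool.Agent.LibK3.N15
import Pool.Agent.LibK3.N16
import Pool.Agent.LibK3.N17
import Pool.Agent.LibK3.N28
import Pool.Agent.LibK3.N18
import Pool.Agent.LibK3.N19
import Pool.Agent.LibK3.N26
import Pool.Agent.LibK3.N27
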