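import Pool.Agent.LibCUR2.Facts

/-!
[K3A SP1] Sections separating finitely many points. `f y` for `y ∈ Z`, `y ≠ x`: `S.sep` gives a section of
`D` generating at `x` and not at `y`; `f₀` generates at `x` (`S.jet` with `z = 1`, `Pt.gen_iff`,
`ord_add_of_ge`: see the field `A_bpf` of `PSurf.toSurfG` in LibLB/Rec.lean). Put
`s := f₀ ^ (n - #(Z \ {x})) * ∏ y ∈ Z \ {x}, f y`. `Gen` at `x`: multiplicative (`Gen.mul`; induction, or
directly from the definition `Gen P x D f ↔ f ∈ sec P D ∧ f ≠ 0 ∧ ord + D = 0 on the primes through x`).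
Not `Gen` at `y`: there is a prime `ν` through `y` with `ν.ord (f y) + D ν ≠ 0`, i.e. `≥ 1`
(`f y ∈ sec P D`), and `ν.ord s + n D ν` is the sum of the nonnegative terms, so it is `≥ 1`.
-/

set_option autoImplicit false

open Pool.Agent.LibGMM Pool.Agent.LibK Pool.Agent.LibKB
open Pool.Agent.LibLB (PSurf RLR)

namespace Pool.Agent.LibK3

variable {L : Type} [Field L] [Algebra ℂ L] (S : PSurf L)

theorem exists_gen {D : DVal L → ℤ} (hD : IsDiv S.prm D) (hDA : S.cl D = S.A) {x : Subalgebra ℂ L}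
    (hx : x ∈ S.pts) : ∃ f, Gen S.prm x D f := by
  obtain ⟨E, hE⟩ := (S.pt hx).exists_ord
  obtain ⟨g, hg⟩ := (S.pt hx).exists_loc hD
  obtain ⟨f, hf, h1⟩ := S.jet D hD hDA x hx E hE g hg 1 x.one_mem
  have h2 := ord_add_of_ge E (f := 1) (g := f * g - 1) one_ne_zero
    (by rw [DVal.ord_one]; exact h1.mono (by norm_num))
  rw [add_sub_cancel, DVal.ord_one] at h2
  exact ⟨f, ((S.pt hx).gen_iff hE hg hf (left_ne_zero_of_mul h2.1)).2 h2.2⟩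

theorem exists_sep {D : DVal L → ℤ} (hD : IsDiv S.prm D) (hDA : S.cl D = S.A)
    (Z : Finset (Subalgebra ℂ L)) (hZ : ∀ y ∈ Z, y ∈ S.pts) (n : ℕ) (hn : Z.card ≤ n)
    {x : Subalgebra ℂ L} (hx : x ∈ Z) :
    ∃ s, Gen S.prm x (fun ν => n * D ν) s ∧ ∀ y ∈ Z, y ≠ x → ¬ Gen S.prm y (fun ν => n * D ν) s := by
  classical
  obtain ⟨f₀, hf₀⟩ := exists_gen S hD hDA (hZ x hx)
  have h1 : ∀ y : Subalgebra ℂ L, ∃ f, y ∈ Z.erase x →
      Gen S.prm x D f ∧ ¬ Gen S.prm y D f := by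
    intro y
    by_cases hy : y ∈ Z.erase x
    · rw [Finset.mem_erase] at hy
      obtain ⟨f, hf⟩ := S.sep D hD hDA y (hZ y hy.2) x (hZ x hx) hy.1
      exact ⟨f, fun _ => hf⟩
    · exact ⟨0, fun h => absurd h hy⟩
  choose f hf using h1
  set T := Z.erase x with hT
  have hcard : T.card ≤ n := (Finset.card_le_card (Finset.erase_subset x Z)).trans hn
  obtain ⟨m, hm⟩ := Nat.exists_eq_add_of_le hcard
  have hf0 : ∀ y ∈ T, f y ≠ 0 := fun y hy => (hf y hy).1.2.1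
  have hprod : ∏ y ∈ T, f y ≠ 0 := Finset.prod_ne_zero_iff.2 hf0
  have hs0 : f₀ ^ m * ∏ y ∈ T, f y ≠ 0 := mul_ne_zero (pow_ne_zero _ hf₀.2.1) hprod
  have hord : ∀ ν : DVal L, ν.ord (f₀ ^ m * ∏ y ∈ T, f y) + n * D ν =
      m * (ν.ord f₀ + D ν) + ∑ y ∈ T, (ν.ord (f y) + D ν) := by
    intro ν
    rw [ν.ord_mul _ _ (pow_ne_zero _ hf₀.2.1) hprod, DVal.ord_pow, DVal.ord_prod _ _ _ hf0,
      Finset.sum_add_distrib, Finset.sum_const, nsmul_eq_mul, hm]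
    push_cast
    ring
  have hnn0 : ∀ ν ∈ S.prm, 0 ≤ (m : ℤ) * (ν.ord f₀ + D ν) := fun ν hν =>
    mul_nonneg (Int.natCast_nonneg m) (hf₀.1 ν hν hf₀.2.1)
  have hnn : ∀ ν ∈ S.prm, ∀ y ∈ T, 0 ≤ ν.ord (f y) + D ν := fun ν hν y hy =>
    (hf y hy).1.1 ν hν (hf0 y hy)
  have hsec : f₀ ^ m * ∏ y ∈ T, f y ∈ sec S.prm (fun ν => n * D ν) := by
    intro ν hν _
    change 0 ≤ ν.ord (f₀ ^ m * ∏ y ∈ T, f y) + n * D ν
    rw [hord]
    exact add_nonneg (hnn0 ν hν) (Finset.sum_nonneg (hnn ν hν))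
  refine ⟨f₀ ^ m * ∏ y ∈ T, f y, ⟨hsec, hs0, fun ν hν hxν => ?_⟩, fun y hy hyx h => ?_⟩
  · change ν.ord (f₀ ^ m * ∏ y ∈ T, f y) + n * D ν = 0
    rw [hord, hf₀.2.2 ν hν hxν, mul_zero, zero_add]
    exact Finset.sum_eq_zero fun y hy => (hf y hy).1.2.2 ν hν hxν
  · have hyT : y ∈ T := Finset.mem_erase.2 ⟨hyx, hy⟩
    apply (hf y hyT).2
    refine ⟨(hf y hyT).1.1, hf0 y hyT, fun ν hν hyν => ?_⟩
    have h2 : ν.ord (f₀ ^ m * ∏ y ∈ T, f y) + n * D ν = 0 := h.2.2 ν hν hyν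
    rw [hord] at h2
    have h3 : ∑ y ∈ T, (ν.ord (f y) + D ν) = 0 := by
      have h4 := hnn0 ν hν
      have h5 := Finset.sum_nonneg (hnn ν hν)
      linarith
    exact (Finset.sum_eq_zero_iff_of_nonneg (hnn ν hν)).1 h3 y hyT

end Pool.Agent.LibK3
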