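import Pool.Agent.LibK3.SP0
import Pool.Agent.LibK3.SP1
import Pool.Agent.LibK3.AJ4

/-!
[K3A SP2] `common_le`: `Z` a finite set of points on `B` and `T`; then `#Z ≤ form B T`. Take `n` large
(`finrank_two`, `#Z ≤ n`), `D₀ := S.rep S.A`, `D := n D₀` (class `n • S.A`: `clOf_zsmul`), `V := sec D`,
`W := sec (D - B) ⊔ sec (D - T)`, `s x` the section of `exists_sep` for `x ∈ Z` (index `Z` by `Fin #Z`:
`Z.equivFin`). `count_mod` gives `#Z + finrank W ≤ finrank V = finrank W + form B T` once the hypothesis is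
checked: `∑ a i • s i ∈ W` implies `a j = 0`: at the point `x_j` take the order function `E`
(`Pt.exists_ord`) and a local equation `g` of `D`; sections of `D - B` (or `D - T`) are not `Gen` at `x_j`
for `D` (`B.ord s + D B ≥ 1`; if `s ≠ 0`), so `Ge E 1 (s * g)` (`Pt.pos_of_not_gen`; `s = 0` trivial);
likewise for the `s i`, `i ≠ j`; so `Ge E 1 (a j • s j * g)`, but `E.ord (s j * g) = 0`
(`Pt.ord_zero_of_gen`), so `a j = 0`.
`finite_common`: otherwise a subset of `(form B T).toNat + 1` elements (`Set.Infinite.exists_subset_card_eq`).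
-/

set_option autoImplicit false

open Pool.Agent.LibGMM Pool.Agent.LibK Pool.Agent.LibKB
open Pool.Agent.LibLB (PSurf RLR)

namespace Pool.Agent.LibK3

variable {L : Type} [Field L] [Algebra ℂ L] {S : PSurf L}

private theorem sp2_not_gen {x : Subalgebra ℂ L} {D : DVal L → ℤ} {B : DVal L} (hB : B ∈ S.prm)
    (hxB : x ≤ B.ring) {u : L} (hu : u ∈ sec S.prm (fun ν => D ν - prd B ν)) :
    ¬ Gen S.prm x D u := by
  intro h
  have h1 := hu B hB h.2.1
  have h2 := h.2.2 B hB hxB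
  have h3 := prd_self B
  simp only [h3] at h1
  omega

private theorem sp2_pos {x : Subalgebra ℂ L} (hx : x ∈ S.pts) {D : DVal L → ℤ} {B : DVal L}
    (hB : B ∈ S.prm) (hxB : x ≤ B.ring) {E : DVal L} (hE : LibLB.IsOrd x E) {g : L}
    (hg : LocEqn S.prm x D g) {u : L} (hu : u ∈ sec S.prm (fun ν => D ν - prd B ν)) :
    Ge E 1 (u * g) := by
  refine (S.pt hx).pos_of_not_gen hE hg ?_ (sp2_not_gen hB hxB hu)
  refine sec_mono (fun ν _ => ?_) hu
  have := prd_nonneg B ν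
  omega

theorem common_le {B T : DVal L} (hB : B ∈ S.prm) (hT : T ∈ S.prm) (hBT : B ≠ T)
    (Z : Finset (Subalgebra ℂ L)) (hZ : ∀ x ∈ Z, x ∈ S.pts ∧ x ≤ B.ring ∧ x ≤ T.ring) :
    (Z.card : ℤ) ≤ S.form (S.cls B) (S.cls T) := by
  classical
  obtain ⟨n₀, hn₀⟩ := finrank_two S hB hT hBT
  obtain ⟨n, hn1, hn2⟩ : ∃ n : ℕ, n₀ ≤ n ∧ Z.card ≤ n :=
    ⟨max n₀ Z.card, le_max_left _ _, le_max_right _ _⟩
  have hD₀ := S.isDiv_rep S.A
  have hcl₀ := S.cl_rep S.A
  have hD : IsDiv S.prm (fun ν => (n : ℤ) * S.rep S.A ν) := hD₀.zsmul n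
  have hcl : S.cl (fun ν => (n : ℤ) * S.rep S.A ν) = n • S.A := by
    have h := LibLB.clOf_zsmul (cls := S.cls) (n : ℤ) hD₀
    change S.cl _ = (n : ℤ) • S.cl _ at h
    rw [h, hcl₀, natCast_zsmul]
  obtain ⟨h1, h2⟩ := hn₀ n hn1 _ hD hcl
  have := S.finSec _ hD
  have hsep : ∀ x : Z, ∃ s, Gen S.prm x.1 (fun ν => (n : ℤ) * S.rep S.A ν) s ∧
      ∀ y ∈ Z, y ≠ x.1 → ¬ Gen S.prm y (fun ν => (n : ℤ) * S.rep S.A ν) s := fun x =>
    exists_sep S hD₀ hcl₀ Z (fun y hy => (hZ y hy).1) n hn2 x.2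
  choose s hs1 hs2 using hsep
  have h3 := count_mod (V := sec S.prm fun ν => (n : ℤ) * S.rep S.A ν)
    (W := sec S.prm (fun ν => (n : ℤ) * S.rep S.A ν - prd B ν) ⊔
      sec S.prm (fun ν => (n : ℤ) * S.rep S.A ν - prd T ν)) h1 (N := Z.card)
    (fun i => s (Z.equivFin.symm i)) (fun i => (hs1 _).1) ?_
  · have h4 : ((Z.card : ℕ) : ℤ) + (Module.finrank ℂ
        (sec S.prm (fun ν => (n : ℤ) * S.rep S.A ν - prd B ν) ⊔
          sec S.prm (fun ν => (n : ℤ) * S.rep S.A ν - prd T ν) : Submodule ℂ L) : ℕ) ≤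
        (Module.finrank ℂ (sec S.prm fun ν => (n : ℤ) * S.rep S.A ν) : ℕ) := by
      exact_mod_cast h3
    rw [h2] at h4
    linarith
  · intro a ha
    funext j
    obtain ⟨x, hx⟩ : ∃ x, x = Z.equivFin.symm j := ⟨_, rfl⟩
    obtain ⟨hxp, hxB, hxT⟩ := hZ x.1 x.2
    obtain ⟨E, hE⟩ := (S.pt hxp).exists_ord
    obtain ⟨g, hg⟩ := (S.pt hxp).exists_loc hD
    have hW : Ge E 1 ((∑ i, a i • s (Z.equivFin.symm i)) * g) := by
      obtain ⟨u, hu, v, hv, huv⟩ := Submodule.mem_sup.1 ha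
      rw [← huv, add_mul]
      exact (sp2_pos hxp hB hxB hE hg hu).add (sp2_pos hxp hT hxT hE hg hv)
    have hrest : Ge E 1 (∑ i ∈ Finset.univ.erase j, a i • (s (Z.equivFin.symm i) * g)) := by
      refine (geSub E 1).sum_mem fun i hi => ?_
      refine Ge.smul _ ((S.pt hxp).pos_of_not_gen hE hg (hs1 _).1 ?_)
      refine hs2 _ x.1 x.2 fun h => ?_
      have h4 : x = Z.equivFin.symm i := Subtype.ext h
      rw [hx] at h4
      exact (Finset.mem_erase.1 hi).1 (Z.equivFin.symm.injective h4).symm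
    have hsum : (∑ i, a i • s (Z.equivFin.symm i)) * g = a j • (s x * g) +
        ∑ i ∈ Finset.univ.erase j, a i • (s (Z.equivFin.symm i) * g) := by
      rw [Finset.sum_mul, ← Finset.add_sum_erase _ _ (Finset.mem_univ j), hx, smul_mul_assoc]
      congr 1
      exact Finset.sum_congr rfl fun i _ => smul_mul_assoc _ _ _
    have h5 : Ge E 1 (a j • (s x * g)) := by
      have h6 := hW.sub hrest
      rwa [hsum, add_sub_cancel_right] at h6
    by_contra haj
    have haj' : a j ≠ 0 := haj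
    have h7 : algebraMap ℂ L (a j) ≠ 0 := by
      rw [Ne, map_eq_zero]
      exact haj'
    have h8 : s x * g ≠ 0 := mul_ne_zero (hs1 x).2.1 hg.1
    have h9 := h5 (by rw [Algebra.smul_def]; exact mul_ne_zero h7 h8)
    rw [Algebra.smul_def, E.ord_mul _ _ h7 h8, E.ord_const,
      (S.pt hxp).ord_zero_of_gen hg (hs1 x) hE.le_ring] at h9
    omega

theorem finite_common {B T : DVal L} (hB : B ∈ S.prm) (hT : T ∈ S.prm) (hBT : B ≠ T) :
    {x | x ∈ S.pts ∧ x ≤ B.ring ∧ x ≤ T.ring}.Finite := by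
  by_contra h
  obtain ⟨Z, hZ, hc⟩ := Set.Infinite.exists_subset_card_eq h
    ((S.form (S.cls B) (S.cls T)).toNat + 1)
  have h1 := common_le hB hT hBT Z fun x hx => hZ hx
  rw [hc] at h1
  have := Int.self_le_toNat (S.form (S.cls B) (S.cls T))
  push_cast at h1
  omega

end Pool.Agent.LibK3
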