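import Pool.Agent.LibK3.NJ
import Pool.Agent.LibK3.SP2

/-!
[K3A SP3] `spread`: if `w ≠ 0` is not in `x` (`x` on `B`) then there is a prime `T ∈ S.prm` through `x` with
`T.ord w < 0` (`Pt.mem_iff`); `T ≠ B` since `w ∈ B.ring`; there are finitely many such `T`
(`S.finDiv w`), and for each finitely many `x` (`finite_common`): `Set.Finite.biUnion`.
`spreadC`: the same with `finite_meet` (NJ): `T ≠ C.ν`, `x = ctr S C v ∈ S.pts` (`(isCtr_ctr hC v).pts`).
-/

set_option autoImplicit false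

open Pool.Agent.LibGMM Pool.Agent.LibK Pool.Agent.LibKB
open Pool.Agent.LibLB (PSurf RLR)

namespace Pool.Agent.LibK3

variable {L : Type} [Field L] [Algebra ℂ L] {S : PSurf L} {C : RC L}

theorem spread {B : DVal L} (hB : B ∈ S.prm) {w : L} (hw : w ∈ B.ring) :
    {x | x ∈ S.pts ∧ x ≤ B.ring ∧ w ∉ x}.Finite := by
  by_cases hw0 : w = 0
  · refine Set.finite_empty.subset ?_
    rintro x ⟨-, -, h⟩
    exact absurd (by rw [hw0]; exact zero_mem x) h
  have hF : {T | T ∈ S.prm ∧ T.ord w < 0}.Finite := by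
    refine (S.finDiv w hw0).subset ?_
    rintro T ⟨h1, h2⟩
    exact ⟨h1, h2.ne⟩
  refine (hF.biUnion (t := fun T => {x | x ∈ S.pts ∧ x ≤ B.ring ∧ x ≤ T.ring}) ?_).subset ?_
  · rintro T ⟨h1, h2⟩
    refine finite_common hB h1 ?_
    rintro rfl
    exact absurd (show 0 ≤ B.ord w from hw) (not_le.2 h2)
  · rintro x ⟨h1, h2, h3⟩
    rw [(S.pt h1).mem_iff] at h3
    push Not at h3
    obtain ⟨T, h4, h5, h6⟩ := h3
    exact Set.mem_biUnion (show T ∈ {T | T ∈ S.prm ∧ T.ord w < 0} from ⟨h4, h6⟩) ⟨h1, h2, h5⟩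

theorem spreadC (hC : C.ν ∈ S.prm) {w : L} (hw : w ∈ C.ν.ring) : {v | w ∉ ctr S C v}.Finite := by
  by_cases hw0 : w = 0
  · refine Set.finite_empty.subset ?_
    intro v h
    exact absurd (by rw [hw0]; exact zero_mem (ctr S C v)) h
  have hF : {T | T ∈ S.prm ∧ T.ord w < 0}.Finite := by
    refine (S.finDiv w hw0).subset ?_
    rintro T ⟨h1, h2⟩
    exact ⟨h1, h2.ne⟩
  refine (hF.biUnion (t := fun T => {v | ctr S C v ≤ T.ring}) ?_).subset ?_
  · rintro T ⟨h1, h2⟩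
    refine finite_meet hC h1 ?_
    rintro rfl
    exact absurd (show 0 ≤ C.ν.ord w from hw) (not_le.2 h2)
  · intro v h3
    have h3 : w ∉ ctr S C v := h3
    rw [(S.pt (isCtr_ctr hC v).pts).mem_iff] at h3
    push Not at h3
    obtain ⟨T, h4, h5, h6⟩ := h3
    exact Set.mem_biUnion (show T ∈ {T | T ∈ S.prm ∧ T.ord w < 0} from ⟨h4, h6⟩) h5

end Pool.Agent.LibK3
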