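import Pool.Agent.LibK3.NAll
import Pool.Agent.LibK3.AJ5
import Pool.Agent.LibK3.SP3
import Pool.Agent.LibK3.CH0
import Pool.Agent.LibK3.CH3

/-! THEOREM K3: the jet lemma, arcs, spreading, dual derivations and the chain rule. -/
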