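import Pool.Agent.LibK3.NAll

/-! THEOREM K3, block N without the statements of helper55 (same as `NAll`). -/
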