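import Pool.Agent.LibK3.UDefs

/-!
ROW [K3 U0].

N14 (poles). An effective divisor `E` on the surface with `E T = 0` is bounded by the zeros of a section of a multiple of `A` which does not vanish at `T`.

Proof. `S.serre (- S.cl E)` gives `k0`; take `k = k0`, `D := fun ν => k * H ν - E ν`, `IsDiv S.prm D` (see `IsDiv.add`, `IsDiv.neg`, `IsDiv.zsmul` in LibKB2 / LibLB), `clOf S.prm S.cls D = k • S.A + -(S.cl E)` (`cl_sub`, `cl_nsmul`, `hHA`). `S.infPts T hT` gives a closed point `x` with `x ≤ T.ring`; the last clause of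
`serre` gives `q` with `Gen S.prm x D q`: `q ∈ sec`, `q ≠ 0` and `T.ord q + D T = 0`. Since `E T = 0`, `T.ord q + k * H T = 0`; for the others `0 ≤ ν.ord q + k * H ν - E ν`.
-/

set_option autoImplicit false
set_option linter.unusedSectionVars false

open Pool.Agent.LibGMM Pool.Agent.LibK Pool.Agent.LibKB Pool.Agent.LibCov80
open Pool.Agent.LibLB (PSurf RLR)
open Pool.Agent.LibCUR2

namespace Pool.Agent.LibK3

variable {L : Type} [Field L] [Algebra ℂ L]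

private theorem u0_key (S : PSurf L) {H : DVal L → ℤ} (hH : IsDiv S.prm H) (hHA : S.cl H = S.A)
    {E : DVal L → ℤ} (hE : IsDiv S.prm E) : ∃ k : ℕ, ∀ x ∈ S.pts, ∃ q : L, q ≠ 0 ∧
      (∀ ν ∈ S.prm, E ν ≤ ν.ord q + k * H ν) ∧
      ∀ ν ∈ S.prm, x ≤ ν.ring → ν.ord q + k * H ν = E ν := by
  obtain ⟨k0, hk0⟩ := S.serre (- (S.cl E))
  have hdiv : IsDiv S.prm (k0 • H - E) := by
    have h1 := (isDiv_nsmul S hH k0).add hE.neg
    refine h1.congr fun ν _ => ?_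
    rw [Pi.sub_apply]
    exact (sub_eq_add_neg _ _).symm
  have hcl : S.cl (k0 • H - E) = k0 • S.A + - (S.cl E) := by
    rw [cl_sub S (isDiv_nsmul S hH k0) hE, cl_nsmul S hH, hHA, sub_eq_add_neg]
  obtain ⟨-, -, h3⟩ := hk0 k0 le_rfl (k0 • H - E) hdiv hcl
  refine ⟨k0, fun x hx => ?_⟩
  obtain ⟨q, hq1, hq2, hq3⟩ := h3 x hx
  refine ⟨q, hq2, fun ν hν => ?_, fun ν hν hxν => ?_⟩
  · have h4 : 0 ≤ ν.ord q + (k0 • H - E) ν := hq1 ν hν hq2
    rw [Pi.sub_apply, Pi.smul_apply, nsmul_eq_mul] at h4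
    linarith
  · have h4 : ν.ord q + (k0 • H - E) ν = 0 := hq3 ν hν hxν
    rw [Pi.sub_apply, Pi.smul_apply, nsmul_eq_mul] at h4
    linarith

theorem poles (S : PSurf L) {H : DVal L → ℤ} (hH : IsDiv S.prm H) (hHA : S.cl H = S.A)
    {E : DVal L → ℤ} (hE : IsDiv S.prm E) {T : DVal L} (hT : T ∈ S.prm) (hET : E T = 0) :
    ∃ (k : ℕ) (q : L), q ≠ 0 ∧ (∀ ν ∈ S.prm, E ν ≤ ν.ord q + k * H ν) ∧
      T.ord q + k * H T = 0 := by
  obtain ⟨k, hk⟩ := u0_key S hH hHA hE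
  obtain ⟨x, hx1, hx2⟩ := (S.infPts T hT).nonempty
  obtain ⟨q, hq1, hq2, hq3⟩ := hk x hx1
  refine ⟨k, q, hq1, hq2, ?_⟩
  rw [hq3 T hT hx2, hET]

/-- Without the condition at `T`. -/
theorem poles' (S : PSurf L) {H : DVal L → ℤ} (hH : IsDiv S.prm H) (hHA : S.cl H = S.A)
    {E : DVal L → ℤ} (hE : IsDiv S.prm E) :
    ∃ (k : ℕ) (q : L), q ≠ 0 ∧ ∀ ν ∈ S.prm, E ν ≤ ν.ord q + k * H ν := by
  obtain ⟨k, hk⟩ := u0_key S hH hHA hE
  obtain ⟨x, hx⟩ := S.ptsNe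
  obtain ⟨q, hq1, hq2, -⟩ := hk x hx
  exact ⟨k, q, hq1, hq2⟩

end Pool.Agent.LibK3
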