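import Pool.Agent.LibK3.UDefs

/-!
ROW [K3 U1].

Valuations of `M` over `L`.

Proofs. (a) `int_iff_ring`: `←` is `LibCov80.integral_of_over` (LibCov80/Norm.lean); `→`: a monic equation over `ν.ring` and `P.ord < 0` is impossible (the ring of `P` is integrally closed: if `P.ord z < 0` compare the orders in `z ^ n = - ∑ a_i z ^ i`, or `z⁻¹` is in the maximal ideal of `P.ring` and
`1 = - ∑ a_i z⁻¹ ^ (n - i)`). (b) `fibre_finite`: the valuations over `ν` correspond to maximal ideals of the integral closure of `ν.ring` (a Dedekind domain with finitely many maximal ideals over the one of `ν.ring`); or: pairwise different valuations over `ν` are at most `[M : L]` many; look for an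
existing lemma: `grep -rn 'Finite' Pool/Agent/LibCov80 Pool/Agent/LibGMC Pool/Agent/LibGMM | grep -i over`. `fibre_nonempty`: `LibCov80` or: a maximal ideal of the integral closure; otherwise `t⁻¹` (`ν.ord t = 1`) would be integral by (a). (c) `finDivM`: for `f ≠ 0` in `M` let `N` be the product of the nonzero coefficients of a polynomial
equation of `f` and of one for `f⁻¹` over `L`: outside the finitely many primes `ν` where one of these coefficients has nonzero order (`S.finDiv`) `f` and `f⁻¹` are integral over `ν.ring`, so `P.ord f = 0`; and (b). (d) `int_iff_pt`: `→` as in (a). `←`: let `p = minpoly L z`. For every `ν ∈ Ess x` (`ν ∈ S.prm`, `x ≤ ν.ring`; `S.ess`), `z` is integral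
over `ν.ring` by (a), so the coefficients of `p` are in `ν.ring` (`minpoly.isIntegrallyClosed_eq_field_fractions'` or `isIntegrallyClosed`, `ν.ring` is a PID: `ring_pid`, `ring_frac`). By `RLR.mem_iff` (LibLB/Loc.lean; `S.coord x hx`) they are in `x`, so `z` is integral over `x`.
-/

set_option autoImplicit false
set_option linter.unusedSectionVars false

open Pool.Agent.LibGMM Pool.Agent.LibK Pool.Agent.LibKB Pool.Agent.LibCov80
open Pool.Agent.LibLB (PSurf RLR)
open Pool.Agent.LibCUR2

namespace Pool.Agent.LibK3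

variable {L : Type} [Field L] [Algebra ℂ L] {M : Type} [Field M] [Algebra ℂ M] [Algebra L M]
  [IsScalarTower ℂ L M] [FiniteDimensional L M]

/-- An element integral over a ring of elements regular below is regular. -/
private theorem u1_nonneg {P : DVal M} {ν : DVal L} {e : ℕ} (h : LibCov80.Over P ν e)
    {A : Subalgebra ℂ L} (hA : ∀ a ∈ A, 0 ≤ ν.ord a) {x : M} (hx : IsIntegral A x) :
    0 ≤ P.ord x := by
  obtain ⟨f, hf, hf0⟩ := hx
  let φ : A →+* P.toVal := (algebraMap A M).codRestrict P.toVal.toSubring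
    fun a => (P.mem_toVal).2 ((h.nonneg_iff _).2 (hA a a.2))
  have h2 : IsIntegral P.toVal x := by
    refine ⟨f.map φ, hf.map _, ?_⟩
    rw [Polynomial.eval₂_map]
    exact hf0
  obtain ⟨z, hz⟩ := IsIntegrallyClosed.isIntegral_iff.1 h2
  rw [← hz]
  exact (P.mem_toVal).1 z.2

theorem int_iff_ring (ν : DVal L) (z : M) :
    IsIntegral ν.ring z ↔ ∀ P : DVal M, bel L P = ν → 0 ≤ P.ord z := by
  constructor
  · intro hz P hP
    have h1 := over_bel (L := L) P
    rw [hP] at h1
    exact u1_nonneg h1 (A := ν.ring) (fun a ha => ha) hz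
  · intro h
    apply integral_of_over ν z
    intro Q e hQ
    exact h Q (bel_eq hQ)

/-- The prime ideal of a valuation in a subalgebra of its ring. -/
private def u1_ctr (B : Subalgebra ℂ M) (P : DVal M) (hB : ∀ b ∈ B, 0 ≤ P.ord b) : Ideal B where
  carrier := {b | (b : M) = 0 ∨ 0 < P.ord (b : M)}
  zero_mem' := Or.inl rfl
  add_mem' := by
    intro a b ha hb
    by_cases hab : (a : M) + b = 0
    · exact Or.inl hab
    right
    have h1 := P.ord_add_ge (a := (a : M)) (b := (b : M)) (n := 1)
      (ha.imp id fun h => by omega) (hb.imp id fun h => by omega)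
    rcases h1 with h1 | h1
    · exact absurd h1 hab
    · change 0 < P.ord ((a : M) + b)
      omega
  smul_mem' := by
    intro a b hb
    by_cases ha : (a : M) = 0
    · left
      change (a : M) * b = 0
      rw [ha, zero_mul]
    rcases hb with hb | hb
    · left
      change (a : M) * b = 0
      rw [hb, mul_zero]
    · right
      change 0 < P.ord ((a : M) * b)
      have hb0 : (b : M) ≠ 0 := by
        intro h0
        rw [h0, P.ord_zero] at hb
        exact lt_irrefl _ hb
      have h1 := hB a a.2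
      rw [P.ord_mul _ _ ha hb0]
      omega

private theorem u1_ctr_prime (B : Subalgebra ℂ M) (P : DVal M) (hB : ∀ b ∈ B, 0 ≤ P.ord b) :
    (u1_ctr B P hB).IsPrime := by
  refine ⟨?_, ?_⟩
  · rw [Ne, Ideal.eq_top_iff_one]
    intro h
    rcases h with h | h
    · exact one_ne_zero h
    · have h1 : P.ord (1 : M) = 0 := P.ord_one
      change 0 < P.ord (1 : M) at h
      omega
  · intro a b hab
    by_cases ha : (a : M) = 0
    · exact Or.inl (Or.inl ha)
    by_cases hb : (b : M) = 0
    · exact Or.inr (Or.inl hb)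
    rcases hab with h | h
    · exact absurd h (mul_ne_zero ha hb)
    · change 0 < P.ord ((a : M) * b) at h
      rw [P.ord_mul _ _ ha hb] at h
      have h1 := hB a a.2
      have h2 := hB b b.2
      rcases lt_or_ge 0 (P.ord (a : M)) with h3 | h3
      · exact Or.inl (Or.inr h3)
      · exact Or.inr (Or.inr (by omega))

theorem fibre_finite (ν : DVal L) : {P : DVal M | bel L P = ν}.Finite := by
  classical
  have hsep := isSeparable (k := L) (K := M)
  have hpid := ring_pid ν
  have hfr := ring_frac ν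
  let B₀ := integralClosure ν.ring M
  let B : Subalgebra ℂ M := B₀.restrictScalars ℂ
  have hmem : ∀ x : M, x ∈ B ↔ IsIntegral ν.ring x := fun x => Iff.rfl
  have hF : IsFractionRing B₀ M := integralClosure.isFractionRing_of_finite_extension L M
  have hDD : IsDedekindDomain B₀ := integralClosure.isDedekindDomain ν.ring L M
  have hDD' : IsDedekindDomain B := hDD
  have hF' : IsFractionRing B M := hF
  have hfrac : ∀ x : M, ∃ a ∈ B, ∃ b ∈ B, b ≠ 0 ∧ x = a / b := by
    intro x
    obtain ⟨a, b, hb, hab⟩ := IsFractionRing.div_surjective (A := B) x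
    refine ⟨a, a.2, b, b.2, ?_, hab.symm⟩
    intro h0
    exact nonZeroDivisors.ne_zero hb (Subtype.ext h0)
  have hBP : ∀ P : DVal M, bel L P = ν → ∀ b ∈ B, 0 ≤ P.ord b := fun P hP b hb =>
    (int_iff_ring ν b).1 ((hmem b).1 hb) P hP
  -- a uniformiser
  obtain ⟨t, ht⟩ := ν.exists_ord_one
  have ht0 : t ≠ 0 := by
    rintro rfl
    rw [ν.ord_zero] at ht
    exact zero_ne_one ht
  have htr : 0 ≤ ν.ord t := by omega
  have htB : algebraMap L M t ∈ B := by
    rw [hmem]
    exact isIntegral_algebraMap (R := ν.ring) (A := M) (x := ⟨t, htr⟩)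
  set τ : B := ⟨algebraMap L M t, htB⟩ with hτ
  have hτ0 : (τ : M) ≠ 0 := (map_ne_zero _).2 ht0
  have hτP : ∀ P : DVal M, bel L P = ν → 0 < P.ord (τ : M) := by
    intro P hP
    have h1 := ord_map (L := L) P t
    rw [hP, ht, mul_one] at h1
    have h2 := ram_pos (L := L) P
    change 0 < P.ord (algebraMap L M t)
    rw [h1]
    exact_mod_cast h2
  have hI : Ideal.span ({τ} : Set B) ≠ 0 := by
    intro h0
    rw [Ideal.zero_eq_bot, Ideal.span_singleton_eq_bot] at h0
    apply hτ0
    rw [h0]
    rfl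
  -- the centre
  have hctr : ∀ P : {P : DVal M // bel L P = ν}, ∃ v : IsDedekindDomain.HeightOneSpectrum B,
      v.asIdeal = u1_ctr B P.1 (hBP P.1 P.2) := by
    intro P
    refine ⟨⟨u1_ctr B P.1 (hBP P.1 P.2), u1_ctr_prime B P.1 _, ?_⟩, rfl⟩
    intro h0
    have h1 : τ ∈ u1_ctr B P.1 (hBP P.1 P.2) := Or.inr (hτP P.1 P.2)
    rw [h0, Ideal.mem_bot] at h1
    apply hτ0
    rw [h1]
    rfl
  choose φ hφ using hctr
  have hinj : Function.Injective φ := by
    intro P Q hPQ
    have key : ∀ P : {P : DVal M // bel L P = ν}, ∀ R : DVal M,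
        (∀ y, 0 ≤ R.ord y → ∃ a b : B, b ∉ (φ P).asIdeal ∧ y = (a : M) / b) → R = P.1 := by
      intro P R hR
      apply DVal.ext_ring
      intro x hx
      obtain ⟨a, b, hb, hab⟩ := hR x hx
      rw [hφ P] at hb
      have hb0 : (b : M) ≠ 0 := fun h => hb (Or.inl h)
      have hb1 : ¬ 0 < P.1.ord (b : M) := fun h => hb (Or.inr h)
      have hb2 := hBP P.1 P.2 b b.2
      have ha2 := hBP P.1 P.2 a a.2
      by_cases ha0 : (a : M) = 0
      · rw [hab, ha0, zero_div, P.1.ord_zero]
      · rw [hab, P.1.ord_div ha0 hb0]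
        omega
    have hdvr : IsDiscreteValuationRing (Localization.AtPrime (φ P).asIdeal) :=
      IsLocalization.AtPrime.isDiscreteValuationRing_of_dedekind_domain B (φ P).ne_bot _
    obtain ⟨R, -, hR⟩ := dval_of_dvr B hfrac (φ P).asIdeal
    have h1 := key P R hR
    rw [hPQ] at hR
    have h2 := key Q R hR
    exact Subtype.ext (h1.symm.trans h2)
  have hfin := Ideal.finite_factors hI
  have h1 : (Set.range φ).Finite := by
    apply hfin.subset
    rintro _ ⟨P, rfl⟩
    change (φ P).asIdeal ∣ _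
    rw [Ideal.dvd_span_singleton, hφ P]
    exact Or.inr (hτP P.1 P.2)
  have h2 : Finite {P : DVal M // bel L P = ν} := by
    have := h1.to_subtype
    exact Finite.of_injective (fun P => (⟨φ P, P, rfl⟩ : Set.range φ)) fun P Q h =>
      hinj (congrArg Subtype.val h)
  exact (Set.finite_coe_iff (s := {P : DVal M | bel L P = ν})).1 h2

theorem fibre_nonempty (ν : DVal L) : ∃ P : DVal M, bel L P = ν := by
  by_contra hcon
  push Not at hcon
  have hpid := ring_pid ν
  have hfr := ring_frac ν
  obtain ⟨t, ht⟩ := ν.exists_ord_one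
  have h1 : IsIntegral ν.ring (algebraMap L M t⁻¹) :=
    (int_iff_ring ν _).2 fun P hP => absurd hP (hcon P)
  rw [isIntegral_algebraMap_iff (algebraMap L M).injective] at h1
  obtain ⟨y, hy⟩ := IsIntegrallyClosed.isIntegral_iff.1 h1
  have h2 : 0 ≤ ν.ord t⁻¹ := by
    rw [← hy]
    exact y.2
  rw [ν.ord_inv, ht] at h2
  omega

/-- Integrality from the coefficients of the minimal polynomial. -/
private theorem u1_int {x : Subalgebra ℂ L} {z : M} (h : ∀ i, (minpoly L z).coeff i ∈ x) :
    IsIntegral x z := by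
  have hz : IsIntegral L z := Algebra.IsIntegral.isIntegral z
  have h1 : minpoly L z ∈ Polynomial.lifts (algebraMap x L) := by
    rw [Polynomial.lifts_iff_coeff_lifts]
    intro i
    exact ⟨⟨_, h i⟩, rfl⟩
  obtain ⟨q, hq, -, hqm⟩ := Polynomial.lifts_and_degree_eq_and_monic h1 (minpoly.monic hz)
  refine ⟨q, hqm, ?_⟩
  have h2 : Polynomial.aeval z (minpoly L z) = 0 := minpoly.aeval L z
  rw [← hq, Polynomial.aeval_map_algebraMap] at h2
  exact h2

theorem finDivM (S : PSurf L) (f : M) (hf : f ≠ 0) :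
    {P | P ∈ prmM M S ∧ P.ord f ≠ 0}.Finite := by
  classical
  set A : Set L := {c | c ≠ 0 ∧ ((∃ i, (minpoly L f).coeff i = c) ∨
    ∃ i, (minpoly L f⁻¹).coeff i = c)} with hA
  have hAfin : A.Finite := by
    apply (((minpoly L f).coeffs.finite_toSet).union ((minpoly L f⁻¹).coeffs.finite_toSet)).subset
    rintro c ⟨hc, ⟨i, rfl⟩ | ⟨i, rfl⟩⟩
    · left
      exact Polynomial.coeff_mem_coeffs hc
    · right
      exact Polynomial.coeff_mem_coeffs hc
  set F : Set (DVal L) := ⋃ c ∈ A, {ν | ν ∈ S.prm ∧ ν.ord c ≠ 0} with hF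
  have hFfin : F.Finite := hAfin.biUnion fun c hc => S.finDiv c hc.1
  apply (hFfin.biUnion fun ν _ => fibre_finite (M := M) ν).subset
  rintro P ⟨hP, hPf⟩
  rw [Set.mem_iUnion₂]
  refine ⟨bel L P, ?_, rfl⟩
  by_contra hcon
  have h1 : ∀ c ∈ A, (bel L P).ord c = 0 := by
    intro c hc
    by_contra h2
    apply hcon
    rw [hF, Set.mem_iUnion₂]
    exact ⟨c, hc, hP, h2⟩
  have h2 : ∀ z : M, (∀ i, (minpoly L z).coeff i ≠ 0 → (minpoly L z).coeff i ∈ A) →
      0 ≤ P.ord z := by
    intro z hz
    refine (int_iff_ring (bel L P) z).1 (u1_int ?_) P rfl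
    intro i
    by_cases h0 : (minpoly L z).coeff i = 0
    · rw [h0]
      exact zero_mem _
    · change 0 ≤ (bel L P).ord _
      rw [h1 _ (hz i h0)]
  have h3 := h2 f fun i h0 => ⟨h0, Or.inl ⟨i, rfl⟩⟩
  have h4 := h2 f⁻¹ fun i h0 => ⟨h0, Or.inr ⟨i, rfl⟩⟩
  rw [P.ord_inv] at h4
  omega

theorem int_iff_pt (S : PSurf L) {x : Subalgebra ℂ L} (hx : x ∈ S.pts) (z : M) :
    IsIntegral x z ↔ ∀ P ∈ prmM M S, x ≤ (bel L P).ring → 0 ≤ P.ord z := by
  constructor
  · intro hz P _ hxP
    exact u1_nonneg (over_bel (L := L) P) (A := x) (fun a ha => hxP ha) hz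
  · intro h
    obtain ⟨a, b, hab⟩ := S.coord x hx
    apply u1_int
    intro i
    rw [hab.mem_iff]
    intro ν hν
    obtain ⟨hν1, hν2⟩ := (S.ess x hx ν).1 hν
    have hpid := ring_pid ν
    have hfr := ring_frac ν
    have hz : IsIntegral ν.ring z := (int_iff_ring ν z).2 fun P hP =>
      h P (by change bel L P ∈ S.prm; rw [hP]; exact hν1) (by rw [hP]; exact hν2)
    rw [minpoly.isIntegrallyClosed_eq_field_fractions' L hz, Polynomial.coeff_map]
    exact ((minpoly ν.ring z).coeff i).2

end Pool.Agent.LibK3
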