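import Pool.Agent.LibK3.U1

/-!
ROW [K3 U2S].

The Smith normal form of a principal ideal of the integral closure of `ν.ring`.

Proof. `R = ν.ring` is a principal ideal domain with field of fractions `L`, `B = integralClosure R M` is a free `R`-module of rank `d = [M : L]`. For `I = span {π}` there are a basis `b` of `B` over `R` and `a_i ∈ R` with `a_i b_i` a basis of `π B` and `norm π ~ ∏ a_i` (`associated_norm_prod_smith`). `l i : M → L` are the coordinate
forms of the basis `b` of `M` over `L`, `n i = ν.ord a_i`.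
-/

set_option autoImplicit false
set_option linter.unusedSectionVars false

open Pool.Agent.LibGMM Pool.Agent.LibK Pool.Agent.LibKB Pool.Agent.LibCov80
open Pool.Agent.LibLB (PSurf RLR)
open Pool.Agent.LibCUR2
open scoped nonZeroDivisors

namespace Pool.Agent.LibK3

private theorem U2S_gen {A K L : Type} [CommRing A] [IsDomain A] [IsPrincipalIdealRing A] [Field K]
    [Algebra A K] [IsFractionRing A K] [Field L] [Algebra K L] [Algebra A L] [IsScalarTower A K L]
    [FiniteDimensional K L] [Algebra.IsSeparable K L] (π : L) (h0 : π ≠ 0) (hπ : IsIntegral A π) :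
    ∃ (l : Fin (Module.finrank K L) → (L →ₗ[K] K)) (a : Fin (Module.finrank K L) → A) (u : Aˣ),
      (∀ i, a i ≠ 0) ∧
      Algebra.norm K π * algebraMap A K u = ∏ i, algebraMap A K (a i) ∧
      (∀ z : L, IsIntegral A z ↔ ∀ i, ∃ c, algebraMap A K c = l i z) ∧
      ∀ z : L, IsIntegral A (z / π) ↔ ∀ i, ∃ c, algebraMap A K (c * a i) = l i z := by
  classical
  have hT : Module.IsTorsionFree A L := .trans_faithfulSMul A K L
  have hfree : Module.Free A (integralClosure A L) :=
    IsIntegralClosure.module_free A K L (integralClosure A L)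
  have hfin : Module.Finite A (integralClosure A L) :=
    IsIntegralClosure.finite A K L (integralClosure A L)
  have hrank : Module.finrank A (integralClosure A L) = Module.finrank K L :=
    IsIntegralClosure.rank A K L (integralClosure A L)
  have hloc : IsLocalization (Algebra.algebraMapSubmonoid (integralClosure A L) A⁰) L :=
    IsIntegralClosure.isLocalization A K L (integralClosure A L)
  let b₀ : Module.Basis (Fin (Module.finrank K L)) A (integralClosure A L) :=
    Module.finBasisOfFinrankEq A (integralClosure A L) hrank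
  let p : integralClosure A L := ⟨π, hπ⟩
  have hp : p ≠ 0 := fun h => h0 (congrArg Subtype.val h)
  have hI : Ideal.span {p} ≠ ⊥ := by
    rw [Ne, Ideal.span_singleton_eq_bot]
    exact hp
  let b := Ideal.ringBasis b₀ (Ideal.span {p}) hI
  let c := Ideal.selfBasis b₀ (Ideal.span {p}) hI
  let a := Ideal.smithCoeffs b₀ (Ideal.span {p}) hI
  have hc : ∀ i, (c i : integralClosure A L) = a i • b i :=
    Ideal.selfBasis_def b₀ (Ideal.span {p}) hI
  let bL : Module.Basis (Fin (Module.finrank K L)) K L := b.localizationLocalization K A⁰ L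
  have hbL : ∀ (x : integralClosure A L) i, bL.repr (x : L) i = algebraMap A K (b.repr x i) :=
    fun x i => b.localizationLocalization_repr_algebraMap K A⁰ L x i
  have hbL' : ∀ i, bL i = (b i : L) := fun i => b.localizationLocalization_apply K A⁰ L i
  have hsum : ∀ (x : L) (d : Fin (Module.finrank K L) → A),
      (∀ i, algebraMap A K (d i) = bL.repr x i) → x = ((∑ i, d i • b i : integralClosure A L) : L) := by
    intro x d hd
    rw [AddSubmonoidClass.coe_finsetSum]
    conv_lhs => rw [← bL.sum_repr x]
    refine Finset.sum_congr rfl fun i _ => ?_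
    rw [← hd, hbL', algebraMap_smul]
    rfl
  have hass : Associated (Algebra.norm A p) (∏ i, a i) :=
    associated_norm_prod_smith b₀ hp
  obtain ⟨u, hu⟩ := hass
  refine ⟨fun i => bL.coord i, a, u, Ideal.smithCoeffs_ne_zero b₀ _ hI, ?_, ?_, ?_⟩
  · have h1 : Algebra.norm K π = algebraMap A K (Algebra.norm A p) :=
      Algebra.norm_localization A A⁰ (S := integralClosure A L) p
    rw [h1, ← map_mul, hu, map_prod]
  · intro z
    constructor
    · intro hz i
      exact ⟨b.repr ⟨z, hz⟩ i, (hbL ⟨z, hz⟩ i).symm⟩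
    · intro h
      choose d hd using h
      have h1 := hsum z d hd
      rw [h1]
      exact (∑ i, d i • b i : integralClosure A L).2
  · intro z
    constructor
    · intro hz i
      have hmem : p * ⟨z / π, hz⟩ ∈ Ideal.span {p} :=
        Ideal.mul_mem_right _ _ (Ideal.mem_span_singleton_self p)
      have hz1 : z = ((p * ⟨z / π, hz⟩ : integralClosure A L) : L) := by
        change z = π * (z / π)
        field_simp
      obtain ⟨y, hy⟩ : ∃ y : Ideal.span {p}, (y : integralClosure A L) = p * ⟨z / π, hz⟩ :=
        ⟨⟨_, hmem⟩, rfl⟩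
      refine ⟨c.repr y i, ?_⟩
      change _ = bL.repr z i
      rw [hz1, hbL, ← hy]
      congr 1
      have h2 : (y : integralClosure A L) = ∑ j, (c.repr y j * a j) • b j := by
        conv_lhs => rw [← c.sum_repr y]
        rw [AddSubmonoidClass.coe_finsetSum]
        refine Finset.sum_congr rfl fun j _ => ?_
        rw [mul_smul, ← hc]
        rfl
      rw [h2, b.repr_sum_self]
    · intro h
      choose d hd using h
      have h1 := hsum z (fun i => d i * a i) hd
      have h2 : (∑ i, (d i * a i) • b i : integralClosure A L) ∈ Ideal.span {p} := by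
        refine Ideal.sum_mem _ fun i _ => ?_
        rw [mul_smul, ← hc]
        exact (d i • c i).2
      obtain ⟨w, hw⟩ := Ideal.mem_span_singleton'.1 h2
      have h3 : z / π = (w : L) := by
        rw [h1, ← hw]
        change (w : L) * π / π = w
        field_simp
      rw [h3]
      exact w.2

variable {L : Type} [Field L] [Algebra ℂ L] {M : Type} [Field M] [Algebra ℂ M] [Algebra L M]
  [IsScalarTower ℂ L M] [FiniteDimensional L M]

theorem smith (ν : DVal L) (π : M) (h0 : π ≠ 0) (hπ : IsIntegral ν.ring π) :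
    ∃ (l : Fin (Module.finrank L M) → (M →ₗ[L] L)) (n : Fin (Module.finrank L M) → ℕ),
      (∑ i, (n i : ℤ)) = ν.ord (Algebra.norm L π) ∧
      (∀ z : M, IsIntegral ν.ring z ↔ ∀ i, l i z ∈ ν.ring) ∧
      ∀ z : M, IsIntegral ν.ring (z / π) ↔ ∀ i, l i z = 0 ∨ (n i : ℤ) ≤ ν.ord (l i z) := by
  classical
  have hsep := isSeparable (k := L) (K := M)
  have hpid := ring_pid ν
  have hfr := ring_frac ν
  obtain ⟨l, a, u, ha, hu, h1, h2⟩ := U2S_gen (A := ν.ring) (K := L) (L := M) π h0 hπ
  have hmem : ∀ z : L, z ∈ ν.ring ↔ 0 ≤ ν.ord z := fun z => Iff.rfl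
  have ha0 : ∀ i, ((a i : ν.ring) : L) ≠ 0 := fun i h => ha i (Subtype.ext h)
  have hn : ∀ i, (((ν.ord ((a i : ν.ring) : L)).toNat : ℕ) : ℤ) = ν.ord ((a i : ν.ring) : L) :=
    fun i => Int.toNat_of_nonneg (a i).2
  refine ⟨l, fun i => (ν.ord ((a i : ν.ring) : L)).toNat, ?_, ?_, ?_⟩
  · have hprod : ∀ s : Finset (Fin (Module.finrank L M)),
        ν.ord (∏ i ∈ s, ((a i : ν.ring) : L)) = ∑ i ∈ s, ν.ord ((a i : ν.ring) : L) := by
      intro s
      induction s using Finset.induction_on with
      | empty =>
        rw [Finset.prod_empty, Finset.sum_empty]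
        have := ν.ord_const 1
        rwa [map_one] at this
      | insert i s hi ih =>
        rw [Finset.prod_insert hi, Finset.sum_insert hi,
          ν.ord_mul _ _ (ha0 i) (Finset.prod_ne_zero_iff.2 fun j _ => ha0 j), ih]
    have hu0 : ν.ord ((u : ν.ring) : L) = 0 := by
      have h3 : ((u : ν.ring) : L) * (((u⁻¹ : (ν.ring)ˣ) : ν.ring) : L) = 1 :=
        congrArg Subtype.val (Units.mul_inv u)
      have h4 : ((u : ν.ring) : L) ≠ 0 := left_ne_zero_of_mul_eq_one h3
      have h5 : (((u⁻¹ : (ν.ring)ˣ) : ν.ring) : L) ≠ 0 := right_ne_zero_of_mul_eq_one h3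
      have h6 := ν.ord_mul _ _ h4 h5
      have h7 : ν.ord (1 : L) = 0 := by
        have := ν.ord_const 1
        rwa [map_one] at this
      rw [h3, h7] at h6
      have h8 : 0 ≤ ν.ord ((u : ν.ring) : L) := (u : ν.ring).2
      have h9 : 0 ≤ ν.ord (((u⁻¹ : (ν.ring)ˣ) : ν.ring) : L) := ((u⁻¹ : (ν.ring)ˣ) : ν.ring).2
      omega
    have h3 := hprod Finset.univ
    have h4 : Algebra.norm L π * ((u : ν.ring) : L) = ∏ i, ((a i : ν.ring) : L) := hu
    have hN : Algebra.norm L π ≠ 0 := Algebra.norm_ne_zero_iff.2 h0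
    have hu1 : ((u : ν.ring) : L) ≠ 0 := by
      intro h
      rw [h, mul_zero] at h4
      exact Finset.prod_ne_zero_iff.2 (fun j _ => ha0 j) h4.symm
    rw [← h4, ν.ord_mul _ _ hN hu1, hu0, add_zero] at h3
    rw [h3]
    exact Finset.sum_congr rfl fun i _ => hn i
  · intro z
    rw [h1 z]
    refine forall_congr' fun i => ?_
    constructor
    · rintro ⟨c, hc⟩
      rw [← hc]
      exact c.2
    · intro h
      exact ⟨⟨l i z, h⟩, rfl⟩
  · intro z
    rw [h2 z]
    refine forall_congr' fun i => ?_
    constructor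
    · rintro ⟨c, hc⟩
      by_cases hl : l i z = 0
      · exact Or.inl hl
      right
      have h3 : (c : L) * ((a i : ν.ring) : L) = l i z := hc
      have hc0 : (c : L) ≠ 0 := by
        intro h
        rw [h, zero_mul] at h3
        exact hl h3.symm
      rw [hn, ← h3, ν.ord_mul _ _ hc0 (ha0 i)]
      have : 0 ≤ ν.ord (c : L) := c.2
      omega
    · intro h
      have h3 : l i z / ((a i : ν.ring) : L) ∈ ν.ring := by
        rw [hmem]
        rcases h with h | h
        · rw [h, zero_div, ν.ord_zero]
        · by_cases hl : l i z = 0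
          · rw [hl, zero_div, ν.ord_zero]
          rw [hn] at h
          rw [ν.ord_div hl (ha0 i)]
          omega
      refine ⟨⟨_, h3⟩, ?_⟩
      change l i z / ((a i : ν.ring) : L) * ((a i : ν.ring) : L) = l i z
      rw [div_mul_cancel₀ _ (ha0 i)]

end Pool.Agent.LibK3
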