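import Pool.Agent.LibK3.U2

/-!
ROW [K3 U3].

The divisor of norms of a divisor on `M`, and its class.

`dltN E ν` is the order at `ν` of the norm of an element `π` with `P.ord π = E P` for all `P` over `ν`. Proofs: `dltN_eq`: two such elements differ by `u` with `P.ord u = 0` for all `P` over `ν`; `norm_ord_nonneg` for `u` and `u⁻¹` gives `ν.ord (norm u) = 0` (`map_mul`, `map_inv₀`, `Algebra.norm_ne_zero_iff`). `dltN_isDiv`: if `E P = 0` for all `P`
over `ν` then `dltN E ν = 0` (take `π = 1`). `dltN_pull`: take `c ∈ L`, `ν.ord c = D ν` (a power of a uniformiser, zpow), `π = algebraMap c`, `norm (algebraMap c) = c ^ d` (`Algebra.norm_algebraMap`). `dltN_class`: for `ν ≠ B := bel L Q` the values of `dltN E` and of `d * D₀` agree; at `B` take `π = algebraMap c` and `π'` for `E`: `π / π'` has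
orders `0` over `B` except at `Q` where it is `ram Q * D₀ B ≥ 1`, so `d * D₀ B - dltN E B = B.ord (norm (π / π')) =: r ≥ 1` (`norm_ord_pos`). So `dltN E = d D₀ - r prd B` on `S.prm`; then `S.cl` (`cl_add`, `cl_sub`, `cl_nsmul`, `cl_dlt` / `LibLB.clOf_prd`, `clOf` only depends on the values on `S.prm`).
-/

set_option autoImplicit false
set_option linter.unusedSectionVars false

open Pool.Agent.LibGMM Pool.Agent.LibK Pool.Agent.LibKB Pool.Agent.LibCov80
open Pool.Agent.LibLB (PSurf RLR)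
open Pool.Agent.LibCUR2

namespace Pool.Agent.LibK3

variable {L : Type} [Field L] [Algebra ℂ L] {M : Type} [Field M] [Algebra ℂ M] [Algebra L M]
  [IsScalarTower ℂ L M] [FiniteDimensional L M]

/-- The order of the norm of an element with the divisor `E` over `ν`. -/
noncomputable def dltN (E : DVal M → ℤ) (ν : DVal L) : ℤ :=
  ν.ord (Algebra.norm L (exists_orders ν E).choose)

theorem dltN_eq (E : DVal M → ℤ) (ν : DVal L) (π : M) (h0 : π ≠ 0)
    (h : ∀ P : DVal M, bel L P = ν → P.ord π = E P) : ν.ord (Algebra.norm L π) = dltN E ν := by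
  obtain ⟨h0', h'⟩ := (exists_orders ν E).choose_spec
  obtain ⟨π', hπ'⟩ : ∃ π' : M, π' = (exists_orders ν E).choose := ⟨_, rfl⟩
  have hd : dltN E ν = ν.ord (Algebra.norm L π') := by
    rw [hπ']
    rfl
  rw [← hπ'] at h0' h'
  rw [hd]
  have hu : ∀ P : DVal M, bel L P = ν → P.ord (π / π') = 0 := by
    intro P hP
    rw [P.ord_div h0 h0', h P hP, h' P hP, sub_self]
  have hu0 : π / π' ≠ 0 := div_ne_zero h0 h0'
  have h1 := norm_ord_nonneg ν (π / π') fun P hP => (hu P hP).ge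
  have h2 := norm_ord_nonneg ν (π / π')⁻¹ fun P hP => by
    rw [DVal.ord_inv, hu P hP, neg_zero]
  have h2' : ν.ord (Algebra.norm L (π / π')) + ν.ord (Algebra.norm L (π / π')⁻¹) = 0 := by
    rw [← ν.ord_mul _ _ (Algebra.norm_ne_zero_iff.2 hu0) (Algebra.norm_ne_zero_iff.2 (inv_ne_zero hu0)),
      ← map_mul, mul_inv_cancel₀ hu0, map_one, DVal.ord_one]
  have h3 : Algebra.norm L π = Algebra.norm L (π / π') * Algebra.norm L π' := by
    rw [← map_mul, div_mul_cancel₀ _ h0']
  rw [h3, ν.ord_mul _ _ (Algebra.norm_ne_zero_iff.2 hu0) (Algebra.norm_ne_zero_iff.2 h0')]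
  omega

theorem dltN_isDiv (S : PSurf L) {E : DVal M → ℤ} (hE : EffM S E) :
    IsDiv S.prm (dltN E) ∧ ∀ ν ∈ S.prm, 0 ≤ dltN E ν := by
  constructor
  · refine (hE.fin.image (bel L)).subset ?_
    rintro ν ⟨h1, h2⟩
    by_contra hcon
    refine h2 ?_
    have h3 : ∀ P : DVal M, bel L P = ν → P.ord (1 : M) = E P := by
      intro P hP
      rw [DVal.ord_one]
      by_contra h4
      exact hcon ⟨P, ⟨by
        show bel L P ∈ S.prm
        rw [hP]
        exact h1, fun h5 => h4 h5.symm⟩, hP⟩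
    rw [← dltN_eq E ν 1 one_ne_zero h3, map_one, DVal.ord_one]
  · intro ν hν
    obtain ⟨-, h'⟩ := (exists_orders (M := M) ν E).choose_spec
    refine norm_ord_nonneg ν _ fun P hP => ?_
    rw [h' P hP]
    refine hE.nonneg P ?_
    show bel L P ∈ S.prm
    rw [hP]
    exact hν

theorem dltN_pull (D : DVal L → ℤ) (ν : DVal L) :
    dltN (fun P : DVal M => ram L P * D (bel L P)) ν = Module.finrank L M * D ν := by
  obtain ⟨t, ht⟩ := ν.exists_ord_one
  have ht0 : t ≠ 0 := by
    rintro rfl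
    rw [ν.ord_zero] at ht
    exact zero_ne_one ht
  have hc0 : t ^ D ν ≠ 0 := zpow_ne_zero _ ht0
  have hc : ν.ord (t ^ D ν) = D ν := by
    rw [DVal.ord_zpow, ht, mul_one]
  have h1 := dltN_eq (fun P : DVal M => ram L P * D (bel L P)) ν (algebraMap L M (t ^ D ν))
    (by
      rw [Ne, map_eq_zero]
      exact hc0)
    (fun P hP => by
      show P.ord (algebraMap L M (t ^ D ν)) = ram L P * D (bel L P)
      rw [ord_map, hP, hc])
  rw [← h1, Algebra.norm_algebraMap, DVal.ord_pow, hc]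

theorem dltN_class (S : PSurf L) {D₀ : DVal L → ℤ} (hD₀ : IsDiv S.prm D₀)
    (h0 : ∀ ν ∈ S.prm, 0 ≤ D₀ ν) (Q : DVal M) (hQ : Q ∈ prmM M S) (hQ1 : 1 ≤ D₀ (bel L Q))
    (E : DVal M → ℤ) (hEQ : E Q = 0)
    (hE : ∀ P ∈ prmM M S, P ≠ Q → E P = ram L P * D₀ (bel L P)) :
    ∃ r : ℕ, 1 ≤ r ∧ S.cl (dltN E) =
      (Module.finrank L M : ℤ) • S.cl D₀ - (r : ℤ) • S.cls (bel L Q) := by
  have hB : bel L Q ∈ S.prm := hQ
  -- the values outside of `bel L Q`
  have hne : ∀ ν ∈ S.prm, ν ≠ bel L Q → dltN E ν = Module.finrank L M * D₀ ν := by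
    intro ν hν hνB
    obtain ⟨h0', h'⟩ := (exists_orders (M := M) ν E).choose_spec
    have h1 := dltN_eq (fun P : DVal M => ram L P * D₀ (bel L P)) ν _ h0' (fun P hP => by
      rw [h' P hP]
      refine hE P ?_ ?_
      · show bel L P ∈ S.prm
        rw [hP]
        exact hν
      · rintro rfl
        exact hνB hP.symm)
    rw [dltN_pull] at h1
    exact h1
  -- the value at `bel L Q`
  obtain ⟨r, hr, hrB⟩ : ∃ r : ℕ, 1 ≤ r ∧ dltN E (bel L Q) = Module.finrank L M * D₀ (bel L Q) - r := by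
    obtain ⟨h0', h'⟩ := (exists_orders (M := M) (bel L Q) E).choose_spec
    obtain ⟨π', hπ'⟩ : ∃ π' : M, π' = (exists_orders (M := M) (bel L Q) E).choose := ⟨_, rfl⟩
    have hd : dltN E (bel L Q) = (bel L Q).ord (Algebra.norm L π') := by
      rw [hπ']
      rfl
    rw [← hπ'] at h0' h'
    obtain ⟨π, hπ0, hπ⟩ := exists_orders (M := M) (bel L Q) (fun P : DVal M => ram L P * D₀ (bel L P))
    have h1 := dltN_eq (fun P : DVal M => ram L P * D₀ (bel L P)) (bel L Q) π hπ0 hπ
    rw [dltN_pull] at h1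
    have hz0 : π / π' ≠ 0 := div_ne_zero hπ0 h0'
    have hram : (1 : ℤ) ≤ ram L Q := by exact_mod_cast ram_pos (L := L) Q
    have hQz : 0 < Q.ord (π / π') := by
      rw [Q.ord_div hπ0 h0', hπ Q rfl, h' Q rfl, hEQ, sub_zero]
      exact mul_pos (by omega) (by omega)
    have h2 : 0 < (bel L Q).ord (Algebra.norm L (π / π')) := by
      refine norm_ord_pos (bel L Q) (π / π') hz0 (fun P hP => ?_) Q rfl hQz
      by_cases hPQ : P = Q
      · rw [hPQ]
        exact hQz.le
      · have h5 : P ∈ prmM M S := by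
          show bel L P ∈ S.prm
          rw [hP]
          exact hB
        rw [P.ord_div hπ0 h0', hπ P hP, h' P hP, hE P h5 hPQ, sub_self]
    have h3 : Algebra.norm L π = Algebra.norm L (π / π') * Algebra.norm L π' := by
      rw [← map_mul, div_mul_cancel₀ _ h0']
    have h4 : (bel L Q).ord (Algebra.norm L π) =
        (bel L Q).ord (Algebra.norm L (π / π')) + (bel L Q).ord (Algebra.norm L π') := by
      rw [h3, (bel L Q).ord_mul _ _ (Algebra.norm_ne_zero_iff.2 hz0) (Algebra.norm_ne_zero_iff.2 h0')]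
    refine ⟨((bel L Q).ord (Algebra.norm L (π / π'))).toNat, by omega, ?_⟩
    rw [hd, Int.toNat_of_nonneg h2.le]
    omega
  refine ⟨r, hr, ?_⟩
  have hcl : S.cl (dltN E) = LibLB.clOf S.prm S.cls
      (fun ν => (fun ν => (Module.finrank L M : ℤ) * D₀ ν) ν + (fun ν => (-(r : ℤ)) * prd (bel L Q) ν) ν) := by
    refine LibLB.clOf_congr fun ν hν => ?_
    by_cases h5 : ν = bel L Q
    · rw [h5]
      show dltN E (bel L Q) = (Module.finrank L M : ℤ) * D₀ (bel L Q) + (-(r : ℤ)) * prd (bel L Q) (bel L Q)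
      rw [hrB, prd_self]
      ring
    · show dltN E ν = (Module.finrank L M : ℤ) * D₀ ν + (-(r : ℤ)) * prd (bel L Q) ν
      rw [hne ν hν h5, prd_ne h5]
      ring
  rw [hcl, LibLB.clOf_add (hD₀.zsmul _) ((isDiv_prd _).zsmul _), LibLB.clOf_zsmul _ hD₀,
    LibLB.clOf_zsmul _ (isDiv_prd _), LibLB.clOf_prd hB, neg_smul, ← sub_eq_add_neg]
  rfl

end Pool.Agent.LibK3
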