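import Pool.Agent.LibK3.U0
import Pool.Agent.LibK3.U2S
import Pool.Agent.LibK3.U3

/-!
ROW [K3 U4C].

One condition of block U, in coordinates.

Let `ν ∈ S.prm`, `E` effective on `M`. `π` with `P.ord π = E P` for `P` over `ν` (`exists_orders`; `π` is integral over `ν.ring`), `l i`, `n i` from `smith`: `∑ n i = dltN E ν` (`dltN_eq`). `om := π⁻¹`. `U4C_poles` bounds the poles of finitely many elements of `M` away from `ν`; it is used for `om` (`q1`, `c1`) and for the elements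
`g i` with `l i z = Tr (z g_i)` (`q0`, `c0`; the trace form is nondegenerate). Then `Φ i s := q0 * l i ((q1 * om) ^ j * s)`.
-/

set_option autoImplicit false
set_option linter.unusedSectionVars false

open Pool.Agent.LibGMM Pool.Agent.LibK Pool.Agent.LibKB Pool.Agent.LibCov80
open Pool.Agent.LibLB (PSurf RLR)
open Pool.Agent.LibCUR2

namespace Pool.Agent.LibK3

variable {L : Type} [Field L] [Algebra ℂ L] {M : Type} [Field M] [Algebra ℂ M] [Algebra L M]
  [IsScalarTower ℂ L M] [FiniteDimensional L M]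

/-- A bound for the poles of finitely many elements of `M` away from `ν`. -/
private theorem U4C_poles (S : PSurf L) {H : DVal L → ℤ} (hH : IsDiv S.prm H) (hHA : S.cl H = S.A)
    {ν : DVal L} (hν : ν ∈ S.prm) {m : ℕ} (g : Fin m → M) :
    ∃ (k : ℕ) (q : L) (G : DVal L → ℤ), q ≠ 0 ∧ (∀ μ, 0 ≤ G μ) ∧
      (∀ μ ∈ S.prm, G μ ≤ μ.ord q + k * H μ) ∧ ν.ord q + k * H ν = 0 ∧
      ∀ P : DVal M, bel L P ≠ ν → ∀ i, - P.ord (g i) ≤ G (bel L P) := by
  classical
  let G : DVal L → ℤ := fun μ => if μ = ν then 0 else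
    ∑ i, ∑ P ∈ (fibre_finite (M := M) μ).toFinset, |P.ord (g i)|
  have hGν : G ν = 0 := if_pos rfl
  have hGne : ∀ μ, μ ≠ ν → G μ = ∑ i, ∑ P ∈ (fibre_finite (M := M) μ).toFinset, |P.ord (g i)| :=
    fun μ h => if_neg h
  have hG0 : ∀ μ, 0 ≤ G μ := by
    intro μ
    by_cases h : μ = ν
    · rw [h, hGν]
    · rw [hGne μ h]
      exact Finset.sum_nonneg fun i _ => Finset.sum_nonneg fun P _ => abs_nonneg _
  have hG1 : ∀ P : DVal M, bel L P ≠ ν → ∀ i, - P.ord (g i) ≤ G (bel L P) := by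
    intro P hP i
    rw [hGne _ hP]
    refine (neg_le_abs _).trans ?_
    have h1 : |P.ord (g i)| ≤ ∑ Q ∈ (fibre_finite (M := M) (bel L P)).toFinset, |Q.ord (g i)| :=
      Finset.single_le_sum (f := fun Q : DVal M => |Q.ord (g i)|) (fun Q _ => abs_nonneg _)
        ((Set.Finite.mem_toFinset _).2 rfl)
    refine h1.trans ?_
    exact Finset.single_le_sum
      (f := fun i => ∑ Q ∈ (fibre_finite (M := M) (bel L P)).toFinset, |Q.ord (g i)|)
      (fun i _ => Finset.sum_nonneg fun P _ => abs_nonneg _) (Finset.mem_univ i)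
  have hdiv : IsDiv S.prm G := by
    have hfin : (⋃ i, bel L '' {P : DVal M | P ∈ prmM M S ∧ P.ord (g i) ≠ 0}).Finite := by
      refine Set.finite_iUnion fun i => Set.Finite.image _ ?_
      by_cases h0 : g i = 0
      · refine Set.Finite.subset Set.finite_empty ?_
        rintro P ⟨-, hP⟩
        rw [h0, P.ord_zero] at hP
        exact (hP rfl).elim
      · exact finDivM S (g i) h0
    refine Set.Finite.subset hfin ?_
    rintro μ ⟨hμ, hμ0⟩
    have hne : μ ≠ ν := by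
      rintro rfl
      exact hμ0 hGν
    rw [hGne μ hne] at hμ0
    obtain ⟨i, -, hi⟩ := Finset.exists_ne_zero_of_sum_ne_zero hμ0
    obtain ⟨P, hP, hP0⟩ := Finset.exists_ne_zero_of_sum_ne_zero hi
    rw [Set.Finite.mem_toFinset] at hP
    have hP' : bel L P = μ := hP
    rw [Set.mem_iUnion]
    refine ⟨i, P, ⟨?_, ?_⟩, hP'⟩
    · change bel L P ∈ S.prm
      rw [hP']; exact hμ
    · intro h
      rw [h, abs_zero] at hP0
      exact hP0 rfl
  obtain ⟨k, q, hq, h1, h2⟩ := poles S hH hHA hdiv hν hGν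
  exact ⟨k, q, G, hq, hG0, h1, h2, hG1⟩

/-- An element with a given order. -/
private theorem U4C_ord (μ : DVal L) (n : ℤ) : ∃ y : L, y ≠ 0 ∧ μ.ord y = n := by
  obtain ⟨t, ht⟩ := μ.exists_ord_one
  have ht0 : t ≠ 0 := by
    rintro rfl
    rw [μ.ord_zero] at ht
    exact zero_ne_one ht
  exact ⟨t ^ n, zpow_ne_zero _ ht0, by rw [μ.ord_zpow, ht, mul_one]⟩

/-- Linear forms are traces. -/
private theorem U4C_trace (l : M →ₗ[L] L) : ∃ g : M, ∀ z, l z = Algebra.trace L M (z * g) := by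
  have hsep := isSeparable (k := L) (K := M)
  obtain ⟨g, hg⟩ := ((Algebra.traceForm L M).toDual (traceForm_nondegenerate L M)).surjective l
  refine ⟨g, fun z => ?_⟩
  rw [← hg, LinearMap.BilinForm.toDual_def, Algebra.traceForm_apply, mul_comm]

/-- The trace of an integral element. -/
private theorem U4C_int (μ : DVal L) (z : M) (hz : IsIntegral μ.ring z) :
    0 ≤ μ.ord (Algebra.trace L M z) := by
  have hpid := ring_pid μ
  have hfr := ring_frac μ
  have h1 : IsIntegral μ.ring (Algebra.trace L M z) := Algebra.isIntegral_trace hz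
  obtain ⟨y, hy⟩ := (IsIntegrallyClosed.isIntegral_iff (R := μ.ring) (K := L)).1 h1
  rw [← hy]
  exact y.2

private theorem U4C_bound (μ : DVal L) {l : M →ₗ[L] L} {g : M}
    (hl : ∀ z, l z = Algebra.trace L M (z * g)) {D G : ℤ} (hG : 0 ≤ G)
    (hg : ∀ P : DVal M, bel L P = μ → - P.ord g ≤ G) {w : M}
    (hw : ∀ P : DVal M, bel L P = μ → 0 ≤ P.ord w + ram L P * D) (hlw : l w ≠ 0) :
    0 ≤ μ.ord (l w) + D + G := by
  obtain ⟨y, hy0, hy⟩ := U4C_ord μ (D + G)
  have hg0 : w * g ≠ 0 := by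
    intro h
    rw [hl, h, map_zero] at hlw
    exact hlw rfl
  have hw0 : w ≠ 0 := left_ne_zero_of_mul hg0
  have hg1 : g ≠ 0 := right_ne_zero_of_mul hg0
  have hy1 : algebraMap L M y ≠ 0 := (map_ne_zero _).2 hy0
  have h1 : IsIntegral μ.ring (algebraMap L M y * (w * g)) := by
    rw [int_iff_ring]
    intro P hP
    rw [P.ord_mul _ _ hy1 hg0, P.ord_mul _ _ hw0 hg1, ord_map (L := L), hP, hy]
    have h2 := hg P hP
    have h3 := hw P hP
    have h4 : (1 : ℤ) ≤ ram L P := by exact_mod_cast ram_pos P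
    have h5 : G ≤ ram L P * G := by nlinarith
    have h6 : (ram L P : ℤ) * (D + G) = ram L P * D + ram L P * G := by ring
    rw [h6]
    linarith
  have h2 := U4C_int μ _ h1
  have h3 : Algebra.trace L M (algebraMap L M y * (w * g)) = y * l w := by
    rw [hl, ← Algebra.smul_def, map_smul, smul_eq_mul]
  rw [h3, μ.ord_mul _ _ hy0 hlw, hy] at h2
  linarith

theorem cond_data (S : PSurf L) {H : DVal L → ℤ} (hH : IsDiv S.prm H) (hHA : S.cl H = S.A)
    {E : DVal M → ℤ} (hE : EffM S E) {ν : DVal L} (hν : ν ∈ S.prm) :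
    ∃ (c₀ c₁ : ℕ) (n : Fin (Module.finrank L M) → ℕ), (∑ i, (n i : ℤ)) = dltN E ν ∧
      ∀ (D : DVal L → ℤ) (j : ℕ), ∃ Φ : Fin (Module.finrank L M) → (M →ₗ[ℂ] L),
        (∀ i, ∀ s ∈ secM S D (fun P => j * E P),
          Φ i s ∈ sec S.prm (fun μ => D μ + (j * c₁ + c₀) * H μ)) ∧
        ∀ s ∈ secM S D (fun P => j * E P), s ≠ 0 → (∀ i, Φ i s ∈ sec S.prm
          (fun μ => D μ + (j * c₁ + c₀) * H μ - n i * prd ν μ)) →
          ∀ P : DVal M, bel L P = ν → (j + 1) * E P ≤ P.ord s + ram L P * D (bel L P) := by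
  classical
  obtain ⟨π, hπ0, hπ⟩ := exists_orders ν E
  have hEν : ∀ P : DVal M, bel L P = ν → 0 ≤ E P := by
    intro P hP
    refine hE.nonneg P ?_
    change bel L P ∈ S.prm
    rw [hP]; exact hν
  have hint : IsIntegral ν.ring π := by
    rw [int_iff_ring]
    intro P hP
    rw [hπ P hP]
    exact hEν P hP
  obtain ⟨l, n, hn, hl1, hl2⟩ := smith ν π hπ0 hint
  choose g hg using fun i => U4C_trace (l i)
  obtain ⟨c₀, q₀, G₀, hq₀, hG₀, h01, h02, h03⟩ := U4C_poles S hH hHA hν g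
  obtain ⟨c₁, q₁, G₁, hq₁, hG₁, h11, h12, h13⟩ := U4C_poles S hH hHA hν (fun _ : Fin 1 => π⁻¹)
  refine ⟨c₀, c₁, n, ?_, ?_⟩
  · rw [hn]
    exact dltN_eq E ν π hπ0 hπ
  intro D j
  have hq₁' : algebraMap L M q₁ ≠ 0 := (map_ne_zero _).2 hq₁
  have hπi : π⁻¹ ≠ 0 := inv_ne_zero hπ0
  let p : M := (algebraMap L M q₁ * π⁻¹) ^ j
  have hp0 : p ≠ 0 := pow_ne_zero _ (mul_ne_zero hq₁' hπi)
  have hpo : ∀ P : DVal M, P.ord p = j * (ram L P * (bel L P).ord q₁ - P.ord π) := by
    intro P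
    change P.ord ((algebraMap L M q₁ * π⁻¹) ^ j) = _
    rw [P.ord_pow, P.ord_mul _ _ hq₁' hπi, ord_map (L := L), P.ord_inv]
    ring
  -- the element `w`
  have hwν : ∀ s : M, s ≠ 0 → ∀ P : DVal M, bel L P = ν →
      P.ord (p * s) + ram L P * (D ν + j * c₁ * H ν) = P.ord s + ram L P * D ν - j * E P := by
    intro s hs P hP
    rw [P.ord_mul _ _ hp0 hs, hpo, hP, hπ P hP]
    have h1 : (ν.ord q₁ : ℤ) = - (c₁ * H ν) := by linarith
    rw [h1]
    ring
  have hwne : ∀ s ∈ secM S D (fun P => j * E P), s ≠ 0 → ∀ P ∈ prmM M S, bel L P ≠ ν →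
      0 ≤ P.ord (p * s) + ram L P * (D (bel L P) + j * c₁ * H (bel L P)) := by
    intro s hs hs0 P hP hPν
    rw [P.ord_mul _ _ hp0 hs0, hpo]
    have h1 := hs P hP hs0
    have h2 : -(P.ord π⁻¹) ≤ G₁ (bel L P) := h13 P hPν 0
    rw [P.ord_inv, neg_neg] at h2
    have h3 := h11 (bel L P) hP
    have h4 : (1 : ℤ) ≤ ram L P := by exact_mod_cast ram_pos P
    have h5 := hG₁ (bel L P)
    have h6 : 0 ≤ E P := hE.nonneg P hP
    have h7 : P.ord π ≤ ram L P * ((bel L P).ord q₁ + c₁ * H (bel L P)) := by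
      calc P.ord π ≤ G₁ (bel L P) := h2
        _ ≤ ram L P * G₁ (bel L P) := by nlinarith
        _ ≤ ram L P * ((bel L P).ord q₁ + c₁ * H (bel L P)) := by
          refine mul_le_mul_of_nonneg_left h3 ?_
          linarith
    have hj : (0 : ℤ) ≤ j := Int.natCast_nonneg j
    have h8 : 0 ≤ (j : ℤ) * (ram L P * ((bel L P).ord q₁ + c₁ * H (bel L P)) - P.ord π) :=
      mul_nonneg hj (by linarith)
    have h9 : 0 ≤ (j : ℤ) * E P := mul_nonneg hj h6
    have h10 : (j : ℤ) * (ram L P * (bel L P).ord q₁ - P.ord π) + P.ord s +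
        ram L P * (D (bel L P) + j * c₁ * H (bel L P)) =
        (P.ord s + ram L P * D (bel L P)) +
        (j : ℤ) * (ram L P * ((bel L P).ord q₁ + c₁ * H (bel L P)) - P.ord π) := by ring
    rw [h10]
    linarith
  have hwall : ∀ s ∈ secM S D (fun P => j * E P), s ≠ 0 → ∀ P ∈ prmM M S,
      0 ≤ P.ord (p * s) + ram L P * (D (bel L P) + j * c₁ * H (bel L P)) := by
    intro s hs hs0 P hP
    by_cases hPν : bel L P = ν
    · rw [hPν, hwν s hs0 P hPν]
      have h1 := hs P hP hs0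
      rw [hPν] at h1
      linarith
    · exact hwne s hs hs0 P hP hPν
  -- the maps
  let Φ : Fin (Module.finrank L M) → (M →ₗ[ℂ] L) := fun i =>
    (LinearMap.mulLeft ℂ q₀).comp (((l i).restrictScalars ℂ).comp (LinearMap.mulLeft ℂ p))
  have hΦ : ∀ i s, Φ i s = q₀ * l i (p * s) := fun i s => rfl
  have hcν : ∀ s ∈ secM S D (fun P => j * E P), s ≠ 0 → ∀ c : L, c ≠ 0 →
      ν.ord c = D ν + j * c₁ * H ν → ∀ P : DVal M, bel L P = ν →
      0 ≤ P.ord (algebraMap L M c * (p * s)) := by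
    intro s hs hs0 c hc0 hc P hP
    have hPS : P ∈ prmM M S := by
      change bel L P ∈ S.prm
      rw [hP]; exact hν
    have h1 := hwall s hs hs0 P hPS
    rw [P.ord_mul _ _ ((map_ne_zero _).2 hc0) (mul_ne_zero hp0 hs0), ord_map (L := L), hP, hc]
    rw [hP] at h1
    linarith
  refine ⟨Φ, ?_, ?_⟩
  · intro i s hs μ hμ h0
    rw [hΦ] at h0 ⊢
    have hl0 : l i (p * s) ≠ 0 := right_ne_zero_of_mul h0
    have hs0 : s ≠ 0 := by
      rintro rfl
      rw [mul_zero, map_zero] at hl0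
      exact hl0 rfl
    rw [μ.ord_mul _ _ hq₀ hl0]
    by_cases hμν : μ = ν
    · subst hμν
      obtain ⟨c, hc0, hc⟩ := U4C_ord μ (D μ + j * c₁ * H μ)
      have h1 : IsIntegral μ.ring (algebraMap L M c * (p * s)) := by
        rw [int_iff_ring]
        exact hcν s hs hs0 c hc0 hc
      have h2 := (hl1 _).1 h1 i
      rw [← Algebra.smul_def, map_smul, smul_eq_mul] at h2
      have h3 : 0 ≤ μ.ord (c * l i (p * s)) := h2
      rw [μ.ord_mul _ _ hc0 hl0, hc] at h3
      have h4 : μ.ord q₀ + c₀ * H μ = 0 := h02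
      have h5 : μ.ord q₀ + μ.ord (l i (p * s)) + (D μ + (j * c₁ + c₀) * H μ) =
        (μ.ord q₀ + c₀ * H μ) + (D μ + j * c₁ * H μ + μ.ord (l i (p * s))) := by ring
      rw [h5, h4]
      linarith
    · have h1 := U4C_bound μ (hg i) (D := D μ + j * c₁ * H μ) (hG₀ μ) (w := p * s)
        (fun P hP => by
          have := h03 P (by rw [hP]; exact hμν) i
          rwa [hP] at this)
        (fun P hP => by
          have hPS : P ∈ prmM M S := by
            change bel L P ∈ S.prm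
            rw [hP]; exact hμ
          have := hwall s hs hs0 P hPS
          rwa [hP] at this) hl0
      have h2 := h01 μ hμ
      have h5 : μ.ord q₀ + μ.ord (l i (p * s)) + (D μ + (j * c₁ + c₀) * H μ) =
        (μ.ord q₀ + c₀ * H μ - G₀ μ) +
          (μ.ord (l i (p * s)) + (D μ + j * c₁ * H μ) + G₀ μ) := by ring
      rw [h5]
      linarith
  · intro s hs hs0 hΦs P hP
    obtain ⟨c, hc0, hc⟩ := U4C_ord ν (D ν + j * c₁ * H ν)
    have h1 : IsIntegral ν.ring ((algebraMap L M c * (p * s)) / π) := by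
      rw [hl2]
      intro i
      by_cases hl0 : l i (algebraMap L M c * (p * s)) = 0
      · exact Or.inl hl0
      right
      have h2 : l i (algebraMap L M c * (p * s)) = c * l i (p * s) := by
        rw [← Algebra.smul_def, map_smul, smul_eq_mul]
      rw [h2] at hl0 ⊢
      have hl3 : l i (p * s) ≠ 0 := right_ne_zero_of_mul hl0
      have h3 := hΦs i ν hν (by rw [hΦ]; exact mul_ne_zero hq₀ hl3)
      rw [hΦ, ν.ord_mul _ _ hq₀ hl3] at h3
      change 0 ≤ ν.ord q₀ + ν.ord (l i (p * s)) +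
        (D ν + (j * c₁ + c₀) * H ν - n i * prd ν ν) at h3
      rw [prd_self] at h3
      rw [ν.ord_mul _ _ hc0 hl3, hc]
      have h5 : ν.ord q₀ + ν.ord (l i (p * s)) + (D ν + (j * c₁ + c₀) * H ν - n i * 1) =
        (ν.ord q₀ + c₀ * H ν) + (D ν + j * c₁ * H ν + ν.ord (l i (p * s))) - n i := by ring
      rw [h5, h02] at h3
      linarith
    rw [int_iff_ring] at h1
    have h2 := h1 P hP
    have h3 : algebraMap L M c * (p * s) ≠ 0 :=
      mul_ne_zero ((map_ne_zero _).2 hc0) (mul_ne_zero hp0 hs0)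
    rw [P.ord_div h3 hπ0, P.ord_mul _ _ ((map_ne_zero _).2 hc0) (mul_ne_zero hp0 hs0),
      ord_map (L := L), hP, hc, hπ P hP] at h2
    have h4 := hwν s hs0 P hP
    rw [hP]
    linarith

end Pool.Agent.LibK3
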