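import Pool.Agent.LibK3.U4B
import Pool.Agent.LibK3.U4C

/-!
ROW [K3 U4].

One step: from `j E` to `(j + 1) E`.

Proof. Let `T` be the finite set of the `ν ∈ S.prm` such that some `P` over `ν` has `E P ≠ 0` (image of `hE.fin` under `bel`). For `ν ∈ T` take `c₀ ν`, `c₁ ν`, `n ν` from `cond_data`, and `c₂` from `cond_prime S hν (n ν i)`; let `c0, c1, c2` be maxima (sums) over `ν ∈ T`, `i` [the bound in the statement is monotone: `form (A) (cls ν) ≥ 1 > 0` (`A_pos`), `dltN E ν ≥ 0`].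
For `ν ∈ S.prm` not in `T` there is no condition: `E P = 0` over `ν`, `s ∈ secM S D (j E)` is enough. Apply `codim_aux` with `J = ` pairs `(ν, i)`, `s = T ×ˢ univ`, `Φ` from `cond_data`, `c (ν, i) = n ν i * (form (cl D) (cls ν) + (j c₁ + c₀) form A (cls ν) + c₂)`, `W = secM S D ((j + 1) E)`; `∑ i, n ν i = dltN E ν`; for `ν ∈ S.prm \ T` `dltN E ν = 0`, so the sum over `T`
can be any finite `T' ⊇ T`: the statement is for this `T`.
-/

set_option autoImplicit false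
set_option linter.unusedSectionVars false

open Pool.Agent.LibGMM Pool.Agent.LibK Pool.Agent.LibKB Pool.Agent.LibCov80
open Pool.Agent.LibLB (PSurf RLR)
open Pool.Agent.LibCUR2

namespace Pool.Agent.LibK3

variable {L : Type} [Field L] [Algebra ℂ L] {M : Type} [Field M] [Algebra ℂ M] [Algebra L M]
  [IsScalarTower ℂ L M] [FiniteDimensional L M]

private theorem U4_cl (S : PSurf L) {H : DVal L → ℤ} (hH : IsDiv S.prm H) (hHA : S.cl H = S.A)
    {D : DVal L → ℤ} (hD : IsDiv S.prm D) (N : ℕ) :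
    IsDiv S.prm (fun μ => D μ + (N : ℤ) * H μ) ∧
      ∀ β : S.Λ, S.form (S.cl (fun μ => D μ + (N : ℤ) * H μ)) β =
        S.form (S.cl D) β + N * S.form S.A β := by
  have h1 : (fun μ => D μ + (N : ℤ) * H μ) = D + N • H := by
    funext μ
    rw [Pi.add_apply, Pi.smul_apply, nsmul_eq_mul]
  refine ⟨hD.add (hH.zsmul (N : ℤ)), fun β => ?_⟩
  rw [h1, cl_add S hD (isDiv_nsmul S hH N), cl_nsmul S hH, hHA, map_add, map_nsmul,
    LinearMap.add_apply, LinearMap.smul_apply, nsmul_eq_mul]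

private theorem U4_data (S : PSurf L) {H : DVal L → ℤ} (hH : IsDiv S.prm H) (hHA : S.cl H = S.A)
    {E : DVal M → ℤ} (hE : EffM S E) (ν : DVal L) :
    ∃ (c₀ c₁ c₂ : ℕ) (n : Fin (Module.finrank L M) → ℕ), ν ∈ S.prm →
      (∑ i, (n i : ℤ)) = dltN E ν ∧
      (∀ (D : DVal L → ℤ) (j : ℕ), ∃ Φ : Fin (Module.finrank L M) → (M →ₗ[ℂ] L),
        (∀ i, ∀ s ∈ secM S D (fun P => j * E P),
          Φ i s ∈ sec S.prm (fun μ => D μ + (j * c₁ + c₀) * H μ)) ∧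
        ∀ s ∈ secM S D (fun P => j * E P), s ≠ 0 → (∀ i, Φ i s ∈ sec S.prm
          (fun μ => D μ + (j * c₁ + c₀) * H μ - n i * prd ν μ)) →
          ∀ P : DVal M, bel L P = ν → (j + 1) * E P ≤ P.ord s + ram L P * D (bel L P)) ∧
      ∀ i, ∀ F : DVal L → ℤ, IsDiv S.prm F → 0 ≤ S.form (S.cl F) (S.cls ν) →
        (h0 S.prm F : ℤ) ≤ h0 S.prm (fun μ => F μ - n i * prd ν μ) +
          n i * (S.form (S.cl F) (S.cls ν) + c₂) := by
  by_cases hν : ν ∈ S.prm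
  · obtain ⟨c₀, c₁, n, hn, hd⟩ := cond_data S hH hHA hE hν
    choose c₂ hc₂ hc₂' using fun i => cond_prime S hν (n i)
    refine ⟨c₀, c₁, ∑ i, (c₂ i).toNat, n, fun _ => ⟨hn, hd, fun i F hF hF0 => ?_⟩⟩
    refine (hc₂' i F hF hF0).trans ?_
    have h1 : (c₂ i).toNat ≤ ∑ i, (c₂ i).toNat :=
      Finset.single_le_sum (f := fun i => (c₂ i).toNat) (fun _ _ => Nat.zero_le _)
        (Finset.mem_univ i)
    have h2 : c₂ i ≤ ((∑ i, (c₂ i).toNat : ℕ) : ℤ) := by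
      refine (Int.self_le_toNat (c₂ i)).trans ?_
      exact_mod_cast h1
    gcongr
  · exact ⟨0, 0, 0, 0, fun h => absurd h hν⟩

theorem one_step (S : PSurf L) {H : DVal L → ℤ} (hH : IsDiv S.prm H) (hHA : S.cl H = S.A)
    {E : DVal M → ℤ} (hE : EffM S E) :
    ∃ (T : Finset (DVal L)) (c₀ c₁ c₂ : ℕ), (∀ ν ∈ T, ν ∈ S.prm) ∧
      (∀ ν ∈ S.prm, ν ∉ T → dltN E ν = 0) ∧
      ∀ (D : DVal L → ℤ), IsDiv S.prm D → (∀ ν ∈ S.prm, 0 ≤ S.form (S.cl D) (S.cls ν)) →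
      ∀ (j : ℕ) (V : Submodule ℂ M), FiniteDimensional ℂ V → V ≤ secM S D (fun P => j * E P) →
        (Module.finrank ℂ V : ℤ) ≤
          Module.finrank ℂ (V ⊓ secM S D (fun P => (j + 1) * E P) : Submodule ℂ M) +
          ∑ ν ∈ T, dltN E ν * (S.form (S.cl D) (S.cls ν) +
            (j * c₁ + c₀) * S.form S.A (S.cls ν) + c₂) := by
  classical
  have hTfin : (bel L '' {P | P ∈ prmM M S ∧ E P ≠ 0}).Finite := hE.fin.image _
  choose c₀ c₁ c₂ n hall using U4_data S hH hHA hE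
  set T : Finset (DVal L) := hTfin.toFinset with hT
  have hTmem : ∀ ν, ν ∈ T ↔ ∃ P, (P ∈ prmM M S ∧ E P ≠ 0) ∧ bel L P = ν := by
    intro ν
    rw [hT, Set.Finite.mem_toFinset]
    rfl
  have hTprm : ∀ ν ∈ T, ν ∈ S.prm := by
    intro ν hν
    obtain ⟨P, ⟨hP, -⟩, rfl⟩ := (hTmem ν).mp hν
    exact hP
  have hTout : ∀ P : DVal M, bel L P ∈ S.prm → bel L P ∉ T → E P = 0 := by
    intro P hP hPT
    by_contra h0
    exact hPT ((hTmem _).mpr ⟨P, ⟨hP, h0⟩, rfl⟩)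
  refine ⟨T, ∑ ν ∈ T, c₀ ν, ∑ ν ∈ T, c₁ ν, ∑ ν ∈ T, c₂ ν, hTprm, ?_, ?_⟩
  · intro ν hν hνT
    have h1 := dltN_eq E ν (1 : M) one_ne_zero (by
      intro P hP
      rw [hTout P (by rw [hP]; exact hν) (by rw [hP]; exact hνT)]
      have := P.ord_const 1
      rwa [map_one] at this)
    rw [← h1, map_one]
    have := ν.ord_const 1
    rwa [map_one] at this
  intro D hD hDn j V hV hVle
  have hF : ∀ ν : DVal L, IsDiv S.prm (fun μ => D μ + ((j : ℤ) * c₁ ν + c₀ ν) * H μ) ∧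
      ∀ β : S.Λ, S.form (S.cl (fun μ => D μ + ((j : ℤ) * c₁ ν + c₀ ν) * H μ)) β =
        S.form (S.cl D) β + ((j : ℤ) * c₁ ν + c₀ ν) * S.form S.A β := by
    intro ν
    have h1 := U4_cl S hH hHA hD (j * c₁ ν + c₀ ν)
    push_cast at h1
    exact h1
  have hA : ∀ ν ∈ T, 0 ≤ S.form S.A (S.cls ν) := fun ν hν =>
    zero_le_one.trans (A_pos S (hTprm ν hν))
  have hΦex : ∀ ν : DVal L, ∃ Φ : Fin (Module.finrank L M) → (M →ₗ[ℂ] L), ν ∈ T →
      (∀ i, ∀ s ∈ secM S D (fun P => j * E P),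
          Φ i s ∈ sec S.prm (fun μ => D μ + (j * c₁ ν + c₀ ν) * H μ)) ∧
        ∀ s ∈ secM S D (fun P => j * E P), s ≠ 0 → (∀ i, Φ i s ∈ sec S.prm
          (fun μ => D μ + (j * c₁ ν + c₀ ν) * H μ - n ν i * prd ν μ)) →
          ∀ P : DVal M, bel L P = ν → (j + 1) * E P ≤ P.ord s + ram L P * D (bel L P) := by
    intro ν
    by_cases hν : ν ∈ T
    · obtain ⟨Φ, h⟩ := (hall ν (hTprm ν hν)).2.1 D j
      exact ⟨Φ, fun _ => h⟩
    · exact ⟨0, fun h => absurd h hν⟩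
  choose Φ hΦ using hΦex
  have hmain := codim_aux S (J := DVal L × Fin (Module.finrank L M)) (T ×ˢ Finset.univ)
    (fun p => p.1) (fun p => n p.1 p.2)
    (fun p => fun μ => D μ + ((j : ℤ) * c₁ p.1 + c₀ p.1) * H μ)
    (fun p => n p.1 p.2 * (S.form (S.cl D) (S.cls p.1) +
      ((j : ℤ) * c₁ p.1 + c₀ p.1) * S.form S.A (S.cls p.1) + c₂ p.1))
    (fun p => Φ p.1 p.2) V (secM S D (fun P => (j + 1) * E P)) hV
    (fun p _ => (hF p.1).1)
    (by
      intro p hp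
      have hpT : p.1 ∈ T := (Finset.mem_product.mp hp).1
      have h1 := (hall p.1 (hTprm _ hpT)).2.2 p.2 _ (hF p.1).1 (by
        rw [(hF p.1).2]
        have h2 := hDn p.1 (hTprm _ hpT)
        have h3 := hA p.1 hpT
        positivity)
      rw [(hF p.1).2] at h1
      exact h1)
    (by
      intro p hp v hv
      have hpT : p.1 ∈ T := (Finset.mem_product.mp hp).1
      exact (hΦ p.1 hpT).1 p.2 v (hVle hv))
    (by
      intro v hv hvΦ
      rw [mem_secM]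
      intro P hP hv0
      by_cases hPT : bel L P ∈ T
      · refine (hΦ (bel L P) hPT).2 v (hVle hv) hv0 (fun i => ?_) P rfl
        exact hvΦ (bel L P, i) (Finset.mem_product.mpr ⟨hPT, Finset.mem_univ _⟩)
      · have h1 := (mem_secM.mp (hVle hv)) P hP hv0
        rw [hTout P hP hPT] at h1 ⊢
        simpa using h1)
  refine hmain.trans ?_
  rw [Finset.sum_product]
  gcongr with ν hν
  have hνS := hTprm ν hν
  rw [← (hall ν hνS).1, Finset.sum_mul]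
  refine Finset.sum_le_sum fun i _ => ?_
  have h0 : c₀ ν ≤ ∑ ν ∈ T, c₀ ν :=
    Finset.single_le_sum (f := c₀) (fun _ _ => Nat.zero_le _) hν
  have h1 : c₁ ν ≤ ∑ ν ∈ T, c₁ ν :=
    Finset.single_le_sum (f := c₁) (fun _ _ => Nat.zero_le _) hν
  have h2 : c₂ ν ≤ ∑ ν ∈ T, c₂ ν :=
    Finset.single_le_sum (f := c₂) (fun _ _ => Nat.zero_le _) hν
  have h0' : (c₀ ν : ℤ) ≤ ((∑ ν ∈ T, c₀ ν : ℕ) : ℤ) := by exact_mod_cast h0
  have h1' : (c₁ ν : ℤ) ≤ ((∑ ν ∈ T, c₁ ν : ℕ) : ℤ) := by exact_mod_cast h1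
  have h2' : (c₂ ν : ℤ) ≤ ((∑ ν ∈ T, c₂ ν : ℕ) : ℤ) := by exact_mod_cast h2
  have h3 := hA ν hν
  gcongr

end Pool.Agent.LibK3
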