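import Pool.Agent.LibK3.UDefs

/-!
ROW [K3 U4A].

The number of conditions to vanish to order `n` along a prime divisor of the surface.

Proof. `hh`, `C1`, `C2` of LibCUR2/Main.lean: with `F_l := F - l • prd ν` one step is `h0 (F_l) ≤ h0 (F_(l+1)) + max 0 (form (cl F_l) (cls ν) + 1)` (`C1` if `form < 0`, `C2` if `form ≥ 0`; the translation `h0 ↔ hh` as in `h0_sub` of LibCUR2/Facts.lean), and `form (cl F_l) (cls ν) = form (cl F) (cls ν) - l * form (cls ν) (cls ν)`.
Take `c2 = 1 + n * |form (cls ν) (cls ν)|`; since `form (cl F) (cls ν) ≥ 0` every step is at most `form (cl F) (cls ν) + c2`. Sum over `l < n`.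
-/

set_option autoImplicit false
set_option linter.unusedSectionVars false

open Pool.Agent.LibGMM Pool.Agent.LibK Pool.Agent.LibKB Pool.Agent.LibCov80
open Pool.Agent.LibLB (PSurf RLR)
open Pool.Agent.LibCUR2

namespace Pool.Agent.LibK3

variable {L : Type} [Field L] [Algebra ℂ L]

private theorem U4A_isDiv (S : PSurf L) (ν : DVal L) {F : DVal L → ℤ} (hF : IsDiv S.prm F)
    (l : ℤ) : IsDiv S.prm (fun μ => F μ - l * prd ν μ) := by
  have h := hF.add (IsDiv.neg ((isDiv_prd (P := S.prm) ν).zsmul l))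
  have h2 : (fun μ => F μ - l * prd ν μ) = fun μ => F μ + - (l * prd ν μ) := by
    funext μ
    ring
  rw [h2]
  exact h

private theorem U4A_cl (S : PSurf L) {ν : DVal L} (hν : ν ∈ S.prm) {F : DVal L → ℤ}
    (hF : IsDiv S.prm F) (l : ℤ) :
    S.cl (fun μ => F μ - l * prd ν μ) = S.cl F - l • S.cls ν := by
  have h1 : IsDiv S.prm (fun μ => l * prd ν μ) := (isDiv_prd (P := S.prm) ν).zsmul l
  have h2 := cl_sub S hF h1
  have h3 : S.cl (fun μ => l * prd ν μ) = l • S.cls ν := by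
    have h4 : S.cl (fun μ => l * prd ν μ) = l • S.cl (prd ν) :=
      LibLB.clOf_zsmul l (isDiv_prd ν)
    rw [h4]
    congr 1
    exact LibLB.clOf_prd hν
  rw [h3] at h2
  exact h2

theorem cond_prime (S : PSurf L) {ν : DVal L} (hν : ν ∈ S.prm) (n : ℕ) :
    ∃ c₂ : ℤ, 0 ≤ c₂ ∧ ∀ F : DVal L → ℤ, IsDiv S.prm F → 0 ≤ S.form (S.cl F) (S.cls ν) →
      (h0 S.prm F : ℤ) ≤ h0 S.prm (fun μ => F μ - n * prd ν μ) +
        n * (S.form (S.cl F) (S.cls ν) + c₂) := by
  obtain ⟨s, hs⟩ : ∃ s : ℤ, s = S.form (S.cls ν) (S.cls ν) := ⟨_, rfl⟩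
  refine ⟨1 + n * |s|, by positivity, fun F hF hφ => ?_⟩
  obtain ⟨φ, hφe⟩ : ∃ φ : ℤ, φ = S.form (S.cl F) (S.cls ν) := ⟨_, rfl⟩
  rw [← hφe] at hφ ⊢
  obtain ⟨-, hC1, hC2, -⟩ := curveFacts S ν hν
  have key : ∀ l : ℕ, l ≤ n → (h0 S.prm F : ℤ) ≤ h0 S.prm (fun μ => F μ - l * prd ν μ) +
      l * (φ + (1 + n * |s|)) := by
    intro l
    induction l with
    | zero =>
      intro _
      have h1 : (fun μ => F μ - ((0 : ℕ) : ℤ) * prd ν μ) = F := by
        funext μ
        simp
      rw [h1]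
      simp
    | succ l ih =>
      intro hl
      have h1 := ih (by omega)
      have hdiv := U4A_isDiv S ν hF (l : ℤ)
      have hcl := U4A_cl S hν hF (l : ℤ)
      have hform : S.form (S.cl (fun μ => F μ - (l : ℤ) * prd ν μ)) (S.cls ν) = φ - l * s := by
        rw [hcl, map_sub, LinearMap.sub_apply, map_zsmul, LinearMap.smul_apply, hφe, hs,
          smul_eq_mul]
      have hnext : (fun μ => (fun μ => F μ - (l : ℤ) * prd ν μ) μ - prd ν μ) =
          fun μ => F μ - ((l + 1 : ℕ) : ℤ) * prd ν μ := by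
        funext μ
        push_cast
        ring
      have hls : -(l * s : ℤ) ≤ n * |s| := by
        have h5 : -s ≤ |s| := neg_le_abs s
        have h6 : (0 : ℤ) ≤ |s| := abs_nonneg s
        have h7 : (l : ℤ) ≤ n := by exact_mod_cast (by omega : l ≤ n)
        have h8 : (0 : ℤ) ≤ l := Int.natCast_nonneg l
        nlinarith
      have hnn : (0 : ℤ) ≤ n * |s| := by positivity
      have hstep : (h0 S.prm (fun μ => F μ - (l : ℤ) * prd ν μ) : ℤ) ≤
          h0 S.prm (fun μ => F μ - ((l + 1 : ℕ) : ℤ) * prd ν μ) + (φ + (1 + n * |s|)) := by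
        rcases lt_or_ge (S.form (S.cl (fun μ => F μ - (l : ℤ) * prd ν μ)) (S.cls ν)) 0 with h | h
        · have h2 := hC1 _ hdiv h
          rw [hnext] at h2
          rw [h2]
          linarith
        · have h2 := hC2 _ hdiv h
          rw [hnext, hform] at h2
          linarith
      push_cast at hstep ⊢
      linarith
  exact key n le_rfl

end Pool.Agent.LibK3
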