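import Pool.Agent.LibK3.U4A

/-!
ROW [K3 U4B].

Linear algebra: the codimension of a subspace defined by conditions on the surface.

Proof. Each condition is the kernel of a linear map from `V` to the finite dimensional quotient `sec F / sec (F - n ν)`: `dim V ≤ dim (V ∩ ker) + dim (quotient)` (rank-nullity, `Submodule.finrank_quotient`, `LinearMap.finrank_range_add_finrank_ker`), and `dim quotient = h0 F - h0 (F - n ν)` (`S.finSec`). Induction over the finite set `J` of conditions. Write `Φ j : V →ₗ[ℂ] L`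
with image in `sec S.prm (F j)`; `W = {v ∈ V | ∀ j, Φ j v ∈ sec (F j - n j ν j)}`.
-/

set_option autoImplicit false
set_option linter.unusedSectionVars false

open Pool.Agent.LibGMM Pool.Agent.LibK Pool.Agent.LibKB Pool.Agent.LibCov80
open Pool.Agent.LibLB (PSurf RLR)
open Pool.Agent.LibCUR2

namespace Pool.Agent.LibK3

variable {L : Type} [Field L] [Algebra ℂ L]

private theorem U4B_one {V₀ : Type} [AddCommGroup V₀] [Module ℂ V₀] (Φ : V₀ →ₗ[ℂ] L)
    (V : Submodule ℂ V₀) (hV : FiniteDimensional ℂ V) (A B : Submodule ℂ L)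
    (hA : FiniteDimensional ℂ A) (hBA : B ≤ A) (hΦ : ∀ v ∈ V, Φ v ∈ A) :
    Module.finrank ℂ V + Module.finrank ℂ B ≤
      Module.finrank ℂ (V ⊓ B.comap Φ : Submodule ℂ V₀) + Module.finrank ℂ A := by
  let Ψ : V →ₗ[ℂ] A := (Φ.comp V.subtype).codRestrict A (fun v => hΦ v v.2)
  let B' : Submodule ℂ A := B.comap A.subtype
  let Θ : V →ₗ[ℂ] (A ⧸ B') := B'.mkQ.comp Ψ
  have h1 := LinearMap.finrank_range_add_finrank_ker Θ
  have h2 : Module.finrank ℂ (LinearMap.range Θ) ≤ Module.finrank ℂ (A ⧸ B') :=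
    Submodule.finrank_le _
  have h3 : Module.finrank ℂ (A ⧸ B') + Module.finrank ℂ B' = Module.finrank ℂ A :=
    Submodule.finrank_quotient_add_finrank B'
  have h4 : Module.finrank ℂ B' = Module.finrank ℂ B :=
    (Submodule.comapSubtypeEquivOfLe hBA).finrank_eq
  have h5 : LinearMap.ker Θ = (V ⊓ B.comap Φ : Submodule ℂ V₀).comap V.subtype := by
    ext v
    rw [LinearMap.mem_ker, Submodule.mem_comap, Submodule.mem_inf, Submodule.mem_comap]
    change B'.mkQ (Ψ v) = 0 ↔ _
    rw [Submodule.mkQ_apply, Submodule.Quotient.mk_eq_zero]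
    exact ⟨fun h => ⟨v.2, h⟩, fun h => h.2⟩
  have h6 : Module.finrank ℂ (LinearMap.ker Θ) =
      Module.finrank ℂ (V ⊓ B.comap Φ : Submodule ℂ V₀) := by
    rw [h5]
    exact (Submodule.comapSubtypeEquivOfLe inf_le_left).finrank_eq
  omega

theorem codim_aux (S : PSurf L) {V₀ : Type} [AddCommGroup V₀] [Module ℂ V₀] {J : Type}
    (s : Finset J) (ν : J → DVal L) (n : J → ℕ) (F : J → DVal L → ℤ) (c : J → ℤ)
    (Φ : J → (V₀ →ₗ[ℂ] L)) (V W : Submodule ℂ V₀) (hV : FiniteDimensional ℂ V)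
    (hF : ∀ j ∈ s, IsDiv S.prm (F j))
    (hc : ∀ j ∈ s, (h0 S.prm (F j) : ℤ) ≤ h0 S.prm (fun μ => F j μ - n j * prd (ν j) μ) + c j)
    (hΦ : ∀ j ∈ s, ∀ v ∈ V, Φ j v ∈ sec S.prm (F j))
    (hW : ∀ v ∈ V, (∀ j ∈ s, Φ j v ∈ sec S.prm (fun μ => F j μ - n j * prd (ν j) μ)) → v ∈ W) :
    (Module.finrank ℂ V : ℤ) ≤ Module.finrank ℂ (V ⊓ W : Submodule ℂ V₀) + ∑ j ∈ s, c j := by
  classical
  induction s using Finset.induction_on generalizing V with
  | empty =>
    have h1 : V ⊓ W = V := inf_eq_left.2 fun v hv => hW v hv (fun j hj => absurd hj (by simp))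
    rw [h1, Finset.sum_empty, add_zero]
  | insert a t ha ih =>
    have hat : a ∈ insert a t := Finset.mem_insert_self a t
    have hle : sec S.prm (fun μ => F a μ - n a * prd (ν a) μ) ≤ sec S.prm (F a) := by
      intro f hf μ hμ h0
      have h1 := hf μ hμ h0
      have h2 : 0 ≤ (n a : ℤ) * prd (ν a) μ := mul_nonneg (by positivity) (prd_nonneg _ _)
      change 0 ≤ μ.ord f + (F a μ - n a * prd (ν a) μ) at h1
      linarith
    have hfin : FiniteDimensional ℂ (sec S.prm (F a)) := S.finSec _ (hF a hat)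
    have h1 := U4B_one (Φ a) V hV (sec S.prm (F a))
      (sec S.prm (fun μ => F a μ - n a * prd (ν a) μ)) hfin hle (hΦ a hat)
    have h2 := hc a hat
    unfold h0 at h2
    have hV' : FiniteDimensional ℂ (V ⊓ (sec S.prm (fun μ => F a μ - n a * prd (ν a) μ)).comap
        (Φ a) : Submodule ℂ V₀) :=
      Submodule.finiteDimensional_of_le inf_le_left
    have h3 := ih (V ⊓ (sec S.prm (fun μ => F a μ - n a * prd (ν a) μ)).comap (Φ a)) hV'
      (fun j hj => hF j (Finset.mem_insert_of_mem hj))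
      (fun j hj => hc j (Finset.mem_insert_of_mem hj))
      (fun j hj v hv => hΦ j (Finset.mem_insert_of_mem hj) v hv.1)
      (fun v hv h => hW v hv.1 (fun j hj => by
        rcases Finset.mem_insert.1 hj with rfl | hj
        · exact hv.2
        · exact h j hj))
    have hVW : FiniteDimensional ℂ (V ⊓ W : Submodule ℂ V₀) :=
      Submodule.finiteDimensional_of_le inf_le_left
    have h4 : Module.finrank ℂ ((V ⊓ (sec S.prm (fun μ => F a μ - n a * prd (ν a) μ)).comap
        (Φ a)) ⊓ W : Submodule ℂ V₀) ≤ Module.finrank ℂ (V ⊓ W : Submodule ℂ V₀) :=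
      Submodule.finrank_mono (inf_le_inf_right W inf_le_left)
    rw [Finset.sum_insert ha]
    have h5 : ((Module.finrank ℂ V + Module.finrank ℂ
        (sec S.prm (fun μ => F a μ - n a * prd (ν a) μ)) : ℕ) : ℤ) ≤
        ((Module.finrank ℂ (V ⊓ (sec S.prm (fun μ => F a μ - n a * prd (ν a) μ)).comap
        (Φ a) : Submodule ℂ V₀) + Module.finrank ℂ (sec S.prm (F a)) : ℕ) : ℤ) := by
      exact_mod_cast h1
    push_cast at h5
    have h6 : (Module.finrank ℂ ((V ⊓ (sec S.prm (fun μ => F a μ - n a * prd (ν a) μ)).comap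
        (Φ a)) ⊓ W : Submodule ℂ V₀) : ℤ) ≤ (Module.finrank ℂ (V ⊓ W : Submodule ℂ V₀) : ℤ) := by
      exact_mod_cast h4
    linarith

end Pool.Agent.LibK3
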