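import Pool.Agent.LibK3.U4

/-!
ROW [K3 U4S].

All steps together.

Proof. Induction on `β`: `V ⊓ secM (β E)` (for `β = 0`: `V ≤ secM S D 0`, `0 * E P = 0`), using `one_step` for the subspace `V ⊓ secM S D (β E)` and monotonicity (`(j c₁ + c₀) ≤ (β c₁ + c₀)`, the coefficients `dltN E ν ≥ 0`, `form A ν ≥ 1`); then
`∑ ν ∈ T, dltN E ν * form (cl D) (cls ν) = form (cl D) (cl (dltN E))` (`S.cl (dltN E) = ∑ᶠ ν ∈ S.prm, dltN E ν • cls ν`, a finite sum over `T`; `map_sum`), and `∑ ν ∈ T, dltN E ν * form A (cls ν)`, `∑ ν ∈ T, dltN E ν` are constants.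
-/

set_option autoImplicit false
set_option linter.unusedSectionVars false

open Pool.Agent.LibGMM Pool.Agent.LibK Pool.Agent.LibKB Pool.Agent.LibCov80
open Pool.Agent.LibLB (PSurf RLR)
open Pool.Agent.LibCUR2

namespace Pool.Agent.LibK3

variable {L : Type} [Field L] [Algebra ℂ L] {M : Type} [Field M] [Algebra ℂ M] [Algebra L M]
  [IsScalarTower ℂ L M] [FiniteDimensional L M]

private theorem U4S_cl (S : PSurf L) (E : DVal M → ℤ) (T : Finset (DVal L))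
    (hT : ∀ ν ∈ T, ν ∈ S.prm) (hT0 : ∀ ν ∈ S.prm, ν ∉ T → dltN E ν = 0) (α : S.Λ) :
    S.form α (S.cl (dltN E)) = ∑ ν ∈ T, dltN E ν * S.form α (S.cls ν) := by
  have h1 : S.cl (dltN E) = ∑ ν ∈ T, dltN E ν • S.cls ν := by
    refine finsum_mem_eq_sum_of_subset _ ?_ ?_
    · rintro ν ⟨h2, h3⟩
      by_contra h4
      apply h3
      change dltN E ν • S.cls ν = 0
      rw [hT0 ν h2 h4, zero_smul]
    · intro ν hν
      exact hT ν hν
  rw [h1, map_sum]
  refine Finset.sum_congr rfl fun ν _ => ?_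
  rw [map_zsmul, smul_eq_mul]

theorem all_steps (S : PSurf L) {H : DVal L → ℤ} (hH : IsDiv S.prm H) (hHA : S.cl H = S.A)
    {E : DVal M → ℤ} (hE : EffM S E) :
    ∃ c : ℕ, ∀ (D : DVal L → ℤ), IsDiv S.prm D → (∀ ν ∈ S.prm, 0 ≤ S.form (S.cl D) (S.cls ν)) →
      ∀ (β : ℕ) (V : Submodule ℂ M), FiniteDimensional ℂ V → V ≤ secM S D 0 →
        (Module.finrank ℂ V : ℤ) ≤
          Module.finrank ℂ (V ⊓ secM S D (fun P => β * E P) : Submodule ℂ M) +
          β * S.form (S.cl D) (S.cl (dltN E)) + c * (β ^ 2 + β) := by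
  obtain ⟨T, c₀, c₁, c₂, hT, hT0, hstep⟩ := one_step S hH hHA hE
  obtain ⟨Y, hY⟩ : ∃ Y : ℤ, Y = ∑ ν ∈ T, dltN E ν * S.form S.A (S.cls ν) := ⟨_, rfl⟩
  obtain ⟨Z, hZ⟩ : ∃ Z : ℤ, Z = ∑ ν ∈ T, dltN E ν := ⟨_, rfl⟩
  refine ⟨c₁ * Y.natAbs + c₀ * Y.natAbs + c₂ * Z.natAbs, fun D hD hnef β V hV hVD => ?_⟩
  obtain ⟨c, hc⟩ : ∃ c : ℕ, c = c₁ * Y.natAbs + c₀ * Y.natAbs + c₂ * Z.natAbs := ⟨_, rfl⟩
  rw [← hc]
  induction β with
  | zero =>
    have h1 : V ⊓ secM S D (fun P => ((0 : ℕ) : ℤ) * E P) = V := by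
      refine inf_eq_left.2 ?_
      have h2 : (fun P : DVal M => ((0 : ℕ) : ℤ) * E P) = 0 := by
        funext P
        simp
      rw [h2]
      exact hVD
    rw [h1]
    simp
  | succ β ih =>
    have hV' : FiniteDimensional ℂ (V ⊓ secM S D (fun P => β * E P) : Submodule ℂ M) :=
      Submodule.finiteDimensional_of_le inf_le_left
    have h1 := hstep D hD hnef β (V ⊓ secM S D (fun P => β * E P)) hV' inf_le_right
    have e1 : (fun P : DVal M => ((β : ℤ) + 1) * E P) = fun P => ((β + 1 : ℕ) : ℤ) * E P := by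
      funext P
      push_cast
      rfl
    rw [e1] at h1
    have hVW : FiniteDimensional ℂ
        (V ⊓ secM S D (fun P => ((β + 1 : ℕ) : ℤ) * E P) : Submodule ℂ M) :=
      Submodule.finiteDimensional_of_le inf_le_left
    have h2 : Module.finrank ℂ ((V ⊓ secM S D (fun P => β * E P)) ⊓
        secM S D (fun P => ((β + 1 : ℕ) : ℤ) * E P) : Submodule ℂ M) ≤
        Module.finrank ℂ (V ⊓ secM S D (fun P => ((β + 1 : ℕ) : ℤ) * E P) : Submodule ℂ M) :=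
      Submodule.finrank_mono (inf_le_inf_right _ inf_le_left)
    have h3 : ∑ ν ∈ T, dltN E ν * (S.form (S.cl D) (S.cls ν) +
        (β * c₁ + c₀) * S.form S.A (S.cls ν) + c₂) =
        S.form (S.cl D) (S.cl (dltN E)) + (β * c₁ + c₀) * Y + c₂ * Z := by
      rw [U4S_cl S E T hT hT0, hY, hZ, Finset.mul_sum, Finset.mul_sum, ← Finset.sum_add_distrib,
        ← Finset.sum_add_distrib]
      refine Finset.sum_congr rfl fun ν _ => ?_
      ring
    rw [h3] at h1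
    have h4 : (Y : ℤ) ≤ (Y.natAbs : ℤ) := Int.le_natAbs
    have h5 : (Z : ℤ) ≤ (Z.natAbs : ℤ) := Int.le_natAbs
    have h6 : ((β : ℤ) * c₁ + c₀) * Y ≤ ((β : ℤ) * c₁ + c₀) * Y.natAbs :=
      mul_le_mul_of_nonneg_left h4 (by positivity)
    have h7 : (c₂ : ℤ) * Z ≤ (c₂ : ℤ) * Z.natAbs := mul_le_mul_of_nonneg_left h5 (by positivity)
    have h8 : ((β : ℤ) * c₁ + c₀) * Y.natAbs + c₂ * Z.natAbs ≤ (c : ℤ) * (2 * β + 2) := by
      rw [hc]
      push_cast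
      have a1 : (0 : ℤ) ≤ (β : ℤ) := by positivity
      have a2 : (0 : ℤ) ≤ (c₁ : ℤ) * |Y| := by positivity
      have a3 : (0 : ℤ) ≤ (c₀ : ℤ) * |Y| := by positivity
      have a4 : (0 : ℤ) ≤ (c₂ : ℤ) * |Z| := by positivity
      have b2 := mul_nonneg a1 a2
      have b3 := mul_nonneg a1 a3
      have b4 := mul_nonneg a1 a4
      linarith
    have h9 : (Module.finrank ℂ ((V ⊓ secM S D (fun P => β * E P)) ⊓
        secM S D (fun P => ((β + 1 : ℕ) : ℤ) * E P) : Submodule ℂ M) : ℤ) ≤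
        (Module.finrank ℂ (V ⊓ secM S D (fun P => ((β + 1 : ℕ) : ℤ) * E P) : Submodule ℂ M) : ℤ) := by
      exact_mod_cast h2
    push_cast at h1 h9 ih ⊢
    linarith

end Pool.Agent.LibK3
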