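import Pool.Agent.LibK3.U0
import Pool.Agent.LibK3.U1

/-!
ROW [K3 U5].

Many sections on `M`.

Proof. Let `e_1..e_d` be a basis of `M / L` (`Module.finBasis`). Let `G μ := max` over `i` and the `P` over `μ` of `max 0 (- P.ord e_i)`: `IsDiv S.prm G` (`finDivM`, `fibre_finite`). `poles'` gives `k`, `q` with `G μ ≤ μ.ord q + k * H μ`. Put `a₀ := k` and `V :=` the image of `(f_i) ↦ ∑ f_i q e_i`, `f_i ∈ sec S.prm (D - a₀ H)`: it is injective (basis, `q ≠ 0`), so of dimension
`d * h0`, finite dimensional (`S.finSec`), and `P.ord (f_i q e_i) ≥ ram P * (- D μ + a₀ H μ + μ.ord q) - ram P * G μ`... use `ram ≥ 1`, `G ≥ 0`: `P.ord e_i ≥ - G μ ≥ - ram P * G μ`. So `V ≤ secM S D 0`.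
-/

set_option autoImplicit false
set_option linter.unusedSectionVars false

open Pool.Agent.LibGMM Pool.Agent.LibK Pool.Agent.LibKB Pool.Agent.LibCov80
open Pool.Agent.LibLB (PSurf RLR)
open Pool.Agent.LibCUR2

namespace Pool.Agent.LibK3

variable {L : Type} [Field L] [Algebra ℂ L] {M : Type} [Field M] [Algebra ℂ M] [Algebra L M]
  [IsScalarTower ℂ L M] [FiniteDimensional L M]

theorem many_sections (S : PSurf L) {H : DVal L → ℤ} (hH : IsDiv S.prm H) (hHA : S.cl H = S.A) :
    ∃ a₀ : ℕ, ∀ D : DVal L → ℤ, IsDiv S.prm D → ∃ V : Submodule ℂ M, FiniteDimensional ℂ V ∧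
      V ≤ secM S D 0 ∧ Module.finrank ℂ V =
        Module.finrank L M * h0 S.prm (fun μ => D μ - a₀ * H μ) := by
  classical
  let e := Module.finBasis L M
  have he : ∀ i, e i ≠ 0 := fun i => e.ne_zero i
  let F : DVal L → Finset (DVal M) := fun μ => (fibre_finite (M := M) μ).toFinset
  have hF : ∀ μ P, P ∈ F μ ↔ bel L P = μ := fun μ P => by
    show P ∈ (fibre_finite (M := M) μ).toFinset ↔ _
    rw [Set.Finite.mem_toFinset]
    rfl
  let G : DVal L → ℤ := fun μ => ∑ P ∈ F μ, ∑ i, |P.ord (e i)|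
  have hG0 : ∀ μ, 0 ≤ G μ := fun μ =>
    Finset.sum_nonneg fun P _ => Finset.sum_nonneg fun i _ => abs_nonneg _
  have hGe : ∀ (P : DVal M) i, |P.ord (e i)| ≤ G (bel L P) := by
    intro P i
    calc |P.ord (e i)| ≤ ∑ i, |P.ord (e i)| :=
          Finset.single_le_sum (f := fun i => |P.ord (e i)|) (fun i _ => abs_nonneg _)
            (Finset.mem_univ i)
      _ ≤ G (bel L P) :=
          Finset.single_le_sum (f := fun P : DVal M => ∑ i, |P.ord (e i)|)
            (fun P _ => Finset.sum_nonneg fun i _ => abs_nonneg _) ((hF _ _).2 rfl)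
  have hG : IsDiv S.prm G := by
    have h1 : (⋃ i, bel L '' {P | P ∈ prmM M S ∧ P.ord (e i) ≠ 0}).Finite :=
      Set.finite_iUnion fun i => (finDivM S (e i) (he i)).image _
    refine h1.subset ?_
    rintro μ ⟨hμ, hne⟩
    obtain ⟨P, hP, h2⟩ := Finset.exists_ne_zero_of_sum_ne_zero hne
    obtain ⟨i, -, h3⟩ := Finset.exists_ne_zero_of_sum_ne_zero h2
    have h4 := (hF μ P).1 hP
    refine Set.mem_iUnion.2 ⟨i, P, ⟨?_, fun h => h3 (by rw [h, abs_zero])⟩, h4⟩
    show bel L P ∈ S.prm
    rw [h4]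
    exact hμ
  obtain ⟨k, q, hq, hk⟩ := poles' S hH hHA hG
  refine ⟨k, fun D hD => ?_⟩
  have hD' : IsDiv S.prm fun μ => D μ - (k : ℤ) * H μ := by
    refine (hD.union hH).subset ?_
    rintro μ ⟨hμ, hne⟩
    by_cases h1 : D μ = 0
    · refine Or.inr ⟨hμ, fun h2 => hne ?_⟩
      show D μ - (k : ℤ) * H μ = 0
      rw [h1, h2]
      ring
    · exact Or.inl ⟨hμ, h1⟩
  let W := sec S.prm fun μ => D μ - (k : ℤ) * H μ
  have : Module.Finite ℂ W := S.finSec _ hD'
  let Φ : (Fin (Module.finrank L M) → W) →ₗ[ℂ] M :=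
    { toFun := fun f => ∑ i, ((f i : L) * q) • e i
      map_add' := by
        intro f g
        rw [← Finset.sum_add_distrib]
        refine Finset.sum_congr rfl fun i _ => ?_
        rw [Pi.add_apply, Submodule.coe_add, add_mul, add_smul]
      map_smul' := by
        intro c f
        rw [RingHom.id_apply, Finset.smul_sum]
        refine Finset.sum_congr rfl fun i _ => ?_
        rw [Pi.smul_apply, Submodule.coe_smul, smul_mul_assoc, smul_assoc] }
  have hΦ : Function.Injective Φ := by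
    rw [← LinearMap.ker_eq_bot, LinearMap.ker_eq_bot']
    intro f hf
    have h1 := Fintype.linearIndependent_iff.1 e.linearIndependent (fun i => (f i : L) * q) hf
    funext i
    exact Subtype.ext ((mul_eq_zero.1 (h1 i)).resolve_right hq)
  refine ⟨LinearMap.range Φ, inferInstance, ?_, ?_⟩
  · rintro _ ⟨f, rfl⟩
    show (∑ i, ((f i : L) * q) • e i) ∈ secM S D 0
    refine Submodule.sum_mem _ fun i _ => ?_
    rw [mem_secM]
    intro P hP hne
    have h1 : (f i : L) * q ≠ 0 := fun h => hne (by rw [h, zero_smul])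
    have h2 : (f i : L) ≠ 0 := left_ne_zero_of_mul h1
    have h3 : algebraMap L M ((f i : L) * q) ≠ 0 := by
      rw [Ne, map_eq_zero]
      exact h1
    have h4 : 0 ≤ (bel L P).ord (f i : L) + (D (bel L P) - (k : ℤ) * H (bel L P)) :=
      (f i).2 (bel L P) hP h2
    have h5 := hk (bel L P) hP
    have h6 := hGe P i
    have h7 : (1 : ℤ) ≤ ram L P := by exact_mod_cast ram_pos P
    rw [Algebra.smul_def, P.ord_mul _ _ h3 (he i), ord_map, (bel L P).ord_mul _ _ h2 hq]
    have h8 : G (bel L P) ≤ (bel L P).ord (f i : L) + (bel L P).ord q + D (bel L P) := by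
      linarith
    have h9 : G (bel L P) ≤
        (ram L P : ℤ) * ((bel L P).ord (f i : L) + (bel L P).ord q + D (bel L P)) := by
      nlinarith [hG0 (bel L P)]
    have h10 := neg_abs_le (P.ord (e i))
    show (0 : ℤ) ≤ _
    linarith
  · rw [LinearMap.finrank_range_of_inj hΦ, Module.finrank_pi_fintype, Finset.sum_const,
      Finset.card_univ, Fintype.card_fin, smul_eq_mul]
    rfl

end Pool.Agent.LibK3
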