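import Pool.Agent.LibK3.U0
import Pool.Agent.LibK3.U1

/-!
ROW [K3 U6S].

The divisor `D₀` through a given prime `B`.

Proof. `exists_D0`: `poles'` with `E = prd B` gives `k` and `q ≠ 0` with `prd B ν ≤ ν.ord q + k * H ν` on `S.prm`; `D₀ ν := ν.ord q + k * H ν` is effective, `≥ 1` at `B`, `IsDiv` (`S.finDiv`, `IsDiv.add`), and `S.cl D₀ = k • A` (`S.cl_div q`, `cl_add`, `cl_nsmul`, `hHA`); take `N = k`. One may enlarge `N`: add `m` times an
effective divisor of class `A` (there is one: `S.serre`... simpler: apply `poles'` and then replace `k` by `k + m` if `H ≥ 0` on `S.prm`: hypothesis `hH0`); the statement asks for `N ≥ 1` only: `N = 0` is impossible since `form A (cl D₀) ≥ form A (cls B) ≥ 1` (`A_pos`, `form_effDiv`). `effM_of`: finite support: `hD₀` and finite fibres (`fibre_finite`); for `P ≠ Q` `ram ≥ 0`, `D₀ ≥ 0`.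
-/

set_option autoImplicit false
set_option linter.unusedSectionVars false

open Pool.Agent.LibGMM Pool.Agent.LibK Pool.Agent.LibKB Pool.Agent.LibCov80
open Pool.Agent.LibLB (PSurf RLR)
open Pool.Agent.LibCUR2

namespace Pool.Agent.LibK3

variable {L : Type} [Field L] [Algebra ℂ L] {M : Type} [Field M] [Algebra ℂ M] [Algebra L M]
  [IsScalarTower ℂ L M] [FiniteDimensional L M]

theorem exists_D0 (S : PSurf L) {H : DVal L → ℤ} (hH : IsDiv S.prm H) (hHA : S.cl H = S.A)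
    {B : DVal L} (hB : B ∈ S.prm) : ∃ (q : L) (N : ℕ) (D₀ : DVal L → ℤ), q ≠ 0 ∧ 1 ≤ N ∧
      IsDiv S.prm D₀ ∧ (∀ ν ∈ S.prm, 0 ≤ D₀ ν) ∧ 1 ≤ D₀ B ∧ S.cl D₀ = (N : ℤ) • S.A ∧
      ∀ ν, D₀ ν = ν.ord q + N * H ν := by
  obtain ⟨k, q, hq, h1⟩ := poles' S hH hHA (isDiv_prd (P := S.prm) B)
  have hqd : IsDiv S.prm (fun ν => ν.ord q) := S.finDiv q hq
  have hcl0 : S.cl (fun ν => ν.ord q) = 0 := S.cl_div q hq
  have hD : IsDiv S.prm (fun ν => ν.ord q + (k : ℤ) * H ν) := hqd.add (hH.zsmul k)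
  have hcl : S.cl (fun ν => ν.ord q + (k : ℤ) * H ν) = (k : ℤ) • S.A := by
    have h2 : (fun ν => ν.ord q + (k : ℤ) * H ν) = (fun ν => ν.ord q) + k • H := by
      funext ν
      rw [Pi.add_apply, Pi.smul_apply, nsmul_eq_mul]
    rw [h2, cl_add S hqd (isDiv_nsmul S hH k), cl_nsmul S hH, hHA, hcl0, zero_add, natCast_zsmul]
  have hB1 : 1 ≤ B.ord q + (k : ℤ) * H B := by
    have h2 := h1 B hB
    rwa [prd_self] at h2
  refine ⟨q, k, fun ν => ν.ord q + (k : ℤ) * H ν, hq, ?_, hD, fun ν hν =>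
    le_trans (prd_nonneg B ν) (h1 ν hν), hB1, hcl, fun ν => rfl⟩
  by_contra hk
  obtain rfl : k = 0 := by omega
  have h4 : ∀ ν ∈ S.prm, 0 ≤ ((fun ν => ν.ord q + ((0 : ℕ) : ℤ) * H ν) - prd B) ν := by
    intro ν hν
    have h5 := h1 ν hν
    rw [Pi.sub_apply]
    exact sub_nonneg.2 h5
  have h5 := form_effDiv S (β := S.A) (fun ν hν => zero_le_one.trans (A_pos S hν)) h4
  have h7 : S.cl (prd B) = S.cls B := LibLB.clOf_prd hB
  rw [cl_sub S hD (isDiv_prd B), hcl, map_sub, h7, Nat.cast_zero, zero_smul, map_zero] at h5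
  have h6 := A_pos S hB
  omega

theorem effM_of (S : PSurf L) {D₀ : DVal L → ℤ} (hD₀ : IsDiv S.prm D₀)
    (h0 : ∀ ν ∈ S.prm, 0 ≤ D₀ ν) (Q : DVal M) (E : DVal M → ℤ) (hEQ : E Q = 0)
    (hE : ∀ P ∈ prmM M S, P ≠ Q → E P = ram L P * D₀ (bel L P)) :
    EffM S E := by
  refine ⟨fun P hP => ?_, ?_⟩
  · by_cases hPQ : P = Q
    · rw [hPQ, hEQ]
    · rw [hE P hP hPQ]
      exact mul_nonneg (Int.natCast_nonneg _) (h0 _ hP)
  · have h1 : (⋃ ν ∈ {ν | ν ∈ S.prm ∧ D₀ ν ≠ 0}, {P : DVal M | bel L P = ν}).Finite :=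
      Set.Finite.biUnion hD₀ fun ν _ => fibre_finite ν
    refine h1.subset ?_
    rintro P ⟨hP, hEP⟩
    have hPQ : P ≠ Q := by
      rintro rfl
      exact hEP hEQ
    rw [hE P hP hPQ] at hEP
    exact Set.mem_biUnion (show bel L P ∈ {ν | ν ∈ S.prm ∧ D₀ ν ≠ 0} from
      ⟨hP, right_ne_zero_of_mul hEP⟩) rfl

end Pool.Agent.LibK3
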