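import Pool.Agent.LibK3.U4S
import Pool.Agent.LibK3.U5
import Pool.Agent.LibK3.U6S

/-!
ROW [K3 U6].

The section `s` on `M` which vanishes `β` times along `E`.

Proof (arithmetic). Write `d = [M : L]`, `B = bel L Q`, `Λ = form A α`, `α = cl H'`. `D = u H + β H'`, `u = ⌈β (N - ρ)⌉₊`, class `u A + β α`, nef. RR (`rr'` of LibLB/Api) for `β' = cl D - a₀ A` with `hh (K - β') = 0` for `β` large (otherwise `form A (K - β') ≥ 0` by `form_eff`, but it is `form A K - (u - a₀) A² - β Λ < 0`): `2 h0 (D - a₀ H) ≥ 2 χ + (u - a₀)² A² + 2 (u - a₀) β Λ + β² α² - (u - a₀) AK - β αK`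
`≥ 2 (u - a₀) β Λ - β C_K Λ - u |AK| - const`, using `α² ≥ 0`, `|form α K| ≤ C_K Λ`. So `dim V ≥ d u β Λ - C₁ β Λ - C₂ β - C₃` (constants independent of `H'`). By `all_steps` and `dltN_class` (`cl (dltN E) = d N A - r cls B`, `r ≥ 1`) the conditions are at most `β (u A + β α).(d N A - r B) + c (β² + β) ≤ β² d N Λ - β² r α.B + C₄ β²` (`u ≤ N β + 1`; `A.B ≥ 0`) `≤ β² d N Λ - 2 ρ d β² Λ + C₄ β²`. Difference
`≥ d β² (N - ρ) Λ - d N β² Λ + 2 ρ d β² Λ - C₄ β² - C₁ β Λ - C₂ β - C₃ = (ρ d Λ - C₄) β² - C₁ β Λ - C₂ β - C₃`. For `Λ ≥ Λ₀ := (C₄ + 1) / (ρ d)` this is positive for all large `β`; then `V ⊓ secM S D (β E)` has positive dimension. The statement asks for arbitrarily large `β` (`β ≥ β₀`). It is convenient to prove first a purely numerical lemma (private) and to separate the RR estimate.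
-/

set_option autoImplicit false
set_option linter.unusedSectionVars false

open Pool.Agent.LibGMM Pool.Agent.LibK Pool.Agent.LibKB Pool.Agent.LibCov80
open Pool.Agent.LibLB (PSurf RLR)
open Pool.Agent.LibCUR2

namespace Pool.Agent.LibK3

variable {L : Type} [Field L] [Algebra ℂ L] {M : Type} [Field M] [Algebra ℂ M] [Algebra L M]
  [IsScalarTower ℂ L M] [FiniteDimensional L M]

private theorem U6_num (d N ρ Λ A2 C K1 X cs a u β h F fV r AB αB α2 AK αK : ℝ)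
    (hd : 1 ≤ d) (hN : 0 ≤ N) (hρ : 0 < ρ) (hρN : ρ ≤ N) (hΛ : 1 ≤ Λ) (hA2 : 0 ≤ A2)
    (hK1 : 0 ≤ K1) (hX : 0 ≤ X) (ha : 0 ≤ a) (hβ : 1 ≤ β)
    (hr : 1 ≤ r) (hAB : 0 ≤ AB) (hα2 : 0 ≤ α2) (hAK : |AK| ≤ K1) (hαK : |αK| ≤ C * Λ)
    (hαB : 2 * ρ * d * Λ ≤ αB) (hu1 : β * (N - ρ) ≤ u) (hu2 : u ≤ β * (N - ρ) + 1)
    (hV : fV = d * h)
    (hRR : -2 * X + ((u - a) ^ 2 * A2 + 2 * (u - a) * β * Λ + β ^ 2 * α2) -
      ((u - a) * AK + β * αK) ≤ 2 * h)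
    (hst : fV ≤ F + β * (u * d * N * A2 + β * d * N * Λ - u * r * AB - β * r * αB) +
      cs * (β ^ 2 + β))
    (hbig : 2 * (N + 1) * d * N * A2 + 2 * cs + 1 ≤ 2 * ρ * d * Λ)
    (hβ2 : d * (2 * a + C) * Λ + (d * (N + 1) * K1 + 2 * cs) + d * (2 * X + a * K1) + 1 ≤ β) :
    0 < F := by
  have hβ0 : 0 < β := by linarith
  have hd0 : 0 < d := by linarith
  have hu0 : 0 ≤ u := le_trans (mul_nonneg hβ0.le (by linarith)) hu1
  have hu3 : u ≤ β * (N + 1) := by nlinarith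
  -- lower bound for `2 h`
  have e1 : (u - a) * AK ≤ (β * (N + 1) + a) * K1 := by
    have h1 : (u - a) * AK ≤ |u - a| * |AK| := by
      rw [← abs_mul]; exact le_abs_self _
    have h2 : |u - a| ≤ β * (N + 1) + a := by
      rw [abs_le]; constructor <;> linarith
    have h3 : |u - a| * |AK| ≤ (β * (N + 1) + a) * K1 :=
      mul_le_mul h2 hAK (abs_nonneg _) (by positivity)
    linarith
  have e2 : β * αK ≤ β * (C * Λ) :=
    mul_le_mul_of_nonneg_left ((le_abs_self _).trans hαK) hβ0.le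
  have e3 : 0 ≤ (u - a) ^ 2 * A2 := mul_nonneg (sq_nonneg _) hA2
  have e4 : 0 ≤ β ^ 2 * α2 := mul_nonneg (sq_nonneg _) hα2
  have h1 : 2 * (u - a) * β * Λ - (β * (N + 1) + a) * K1 - β * (C * Λ) - 2 * X ≤ 2 * h := by
    linarith
  -- upper bound for the conditions
  have e5 : 0 ≤ u * r * AB := by positivity
  have e6 : β * (2 * ρ * d * Λ) ≤ β * r * αB := by
    have : 0 ≤ αB := le_trans (by positivity) hαB
    have h2 : αB ≤ r * αB := by nlinarith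
    calc β * (2 * ρ * d * Λ) ≤ β * αB := mul_le_mul_of_nonneg_left hαB hβ0.le
      _ ≤ β * (r * αB) := mul_le_mul_of_nonneg_left h2 hβ0.le
      _ = β * r * αB := by ring
  have e7 : β * (u * d * N * A2 + β * d * N * Λ - u * r * AB - β * r * αB) ≤
      β * (u * d * N * A2 + β * d * N * Λ - β * (2 * ρ * d * Λ)) :=
    mul_le_mul_of_nonneg_left (by linarith) hβ0.le
  have e8 : β * (u * d * N * A2) ≤ β * (β * (N + 1) * d * N * A2) := by
    refine mul_le_mul_of_nonneg_left ?_ hβ0.le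
    have : 0 ≤ d * N * A2 := by positivity
    nlinarith
  have e9 : β * (N - ρ) * (d * β * Λ) ≤ u * (d * β * Λ) :=
    mul_le_mul_of_nonneg_right hu1 (by positivity)
  have h2 : d * (2 * (u - a) * β * Λ - (β * (N + 1) + a) * K1 - β * (C * Λ) - 2 * X) ≤
      2 * fV := by
    rw [hV]
    have := mul_le_mul_of_nonneg_left h1 hd0.le
    linarith
  -- collect
  have h3 : (2 * ρ * d * Λ - (2 * (N + 1) * d * N * A2 + 2 * cs)) * β ^ 2 -
      (d * (2 * a + C) * Λ + (d * (N + 1) * K1 + 2 * cs)) * β - d * (2 * X + a * K1) ≤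
      2 * F := by
    linarith [h2, hst, e7, e8, e9]
  have h4 : β ^ 2 ≤ (2 * ρ * d * Λ - (2 * (N + 1) * d * N * A2 + 2 * cs)) * β ^ 2 :=
    le_mul_of_one_le_left (sq_nonneg _) (by linarith)
  have h5 : (d * (2 * a + C) * Λ + (d * (N + 1) * K1 + 2 * cs) + d * (2 * X + a * K1) + 1) * β ≤
      β ^ 2 := by
    rw [sq]; exact mul_le_mul_of_nonneg_right hβ2 hβ0.le
  have h6 : 0 ≤ d * (2 * X + a * K1) := by positivity
  have h7 : d * (2 * X + a * K1) ≤ d * (2 * X + a * K1) * β := le_mul_of_one_le_right h6 hβ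
  linarith

theorem exists_section (S : PSurf L) {H : DVal L → ℤ} (hH : IsDiv S.prm H) (hHA : S.cl H = S.A)
    {D₀ : DVal L → ℤ} (hD₀ : IsDiv S.prm D₀) (h0 : ∀ ν ∈ S.prm, 0 ≤ D₀ ν) (N : ℕ)
    (hN : S.cl D₀ = (N : ℤ) • S.A)
    (Q : DVal M) (hQ : Q ∈ prmM M S) (hQ1 : 1 ≤ D₀ (bel L Q))
    (E : DVal M → ℤ) (hEQ : E Q = 0)
    (hE : ∀ P ∈ prmM M S, P ≠ Q → E P = ram L P * D₀ (bel L P))
    (ρ : ℝ) (hρ : 0 < ρ) (hρN : ρ ≤ N) (CK : ℝ) :
    ∃ Λ₀ : ℝ, ∀ H' : DVal L → ℤ, IsDiv S.prm H' →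
      (∀ ν ∈ S.prm, 0 ≤ S.form (S.cl H') (S.cls ν)) → 0 ≤ S.form (S.cl H') (S.cl H') →
      |(S.form (S.cl H') S.K : ℝ)| ≤ CK * S.form S.A (S.cl H') →
      2 * ρ * Module.finrank L M * S.form S.A (S.cl H') ≤ S.form (S.cl H') (S.cls (bel L Q)) →
      Λ₀ ≤ S.form S.A (S.cl H') →
      ∀ β₀ : ℕ, ∃ (β u : ℕ) (s : M), β₀ ≤ β ∧ 1 ≤ β ∧ (u : ℝ) ≤ β * (N - ρ) + 1 ∧ s ≠ 0 ∧
        s ∈ secM S (fun ν => u * H ν + β * H' ν) (fun P => β * E P) := by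
  obtain ⟨a₀, hmany⟩ := many_sections (M := M) S hH hHA
  have hEff : EffM S E := effM_of S hD₀ h0 Q E hEQ hE
  obtain ⟨cs, hall⟩ := all_steps S hH hHA hEff
  obtain ⟨r, hr1, hcl⟩ := dltN_class S hD₀ h0 Q hQ hQ1 E hEQ hE
  obtain ⟨d, hd⟩ : ∃ d : ℕ, d = Module.finrank L M := ⟨_, rfl⟩
  have hd1 : 1 ≤ d := by rw [hd]; exact Module.finrank_pos
  have hB : bel L Q ∈ S.prm := hQ
  have hAB := A_pos S hB
  have hnefA : ∀ ν ∈ S.prm, 0 ≤ S.form S.A (S.cls ν) := fun ν hν =>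
    zero_le_one.trans (A_pos S hν)
  have hd0 : (0 : ℝ) < d := by exact_mod_cast hd1
  have hρd : 0 < 2 * ρ * d := by positivity
  refine ⟨max 1 ((2 * (N + 1) * d * N * (S.form S.A S.A : ℝ) + 2 * cs + 1) / (2 * ρ * d)), ?_⟩
  intro H' hH' hnef hsq hK hρ' hΛ₀ β₀
  obtain ⟨α, hα⟩ : ∃ α, α = S.cl H' := ⟨_, rfl⟩
  rw [← hα] at hnef hsq hK hρ' hΛ₀
  obtain ⟨Λ, hΛ⟩ : ∃ Λ : ℝ, Λ = (S.form S.A α : ℝ) := ⟨_, rfl⟩
  rw [← hΛ] at hK hρ' hΛ₀
  have hΛ1 : 1 ≤ Λ := (le_max_left _ _).trans hΛ₀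
  have hΛ2 : 2 * ((N : ℝ) + 1) * d * N * (S.form S.A S.A : ℝ) + 2 * cs + 1 ≤ 2 * ρ * d * Λ := by
    have := (le_max_right _ _).trans hΛ₀
    rw [div_le_iff₀ hρd] at this
    linarith
  have hCK : |(S.form α S.K : ℝ)| ≤ |CK| * Λ := hK.trans
    (mul_le_mul_of_nonneg_right (le_abs_self _) (by linarith))
  obtain ⟨T, hT⟩ : ∃ T : ℝ, T = d * (2 * a₀ + |CK|) * Λ +
    (d * ((N : ℝ) + 1) * |(S.form S.A S.K : ℝ)| + 2 * cs) +
    d * (2 * |(S.chi0 : ℝ)| + a₀ * |(S.form S.A S.K : ℝ)|) + 1 := ⟨_, rfl⟩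
  obtain ⟨β, hβ⟩ := exists_nat_ge (max (max (β₀ : ℝ) 1)
    (max T ((S.form S.A S.K : ℝ) + a₀ * (S.form S.A S.A : ℝ) + 1)))
  have hβ1 : (β₀ : ℝ) ≤ β := ((le_max_left _ _).trans (le_max_left _ _)).trans hβ
  have hβ2 : (1 : ℝ) ≤ β := ((le_max_right _ _).trans (le_max_left _ _)).trans hβ
  have hβ3 : T ≤ β := ((le_max_left _ _).trans (le_max_right _ _)).trans hβ
  have hβ4 : (S.form S.A S.K : ℝ) + a₀ * (S.form S.A S.A : ℝ) + 1 ≤ β :=
    ((le_max_right _ _).trans (le_max_right _ _)).trans hβ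
  have hx0 : 0 ≤ (β : ℝ) * (N - ρ) := mul_nonneg (by linarith) (by linarith)
  obtain ⟨u, hu⟩ : ∃ u : ℕ, u = ⌈(β : ℝ) * (N - ρ)⌉₊ := ⟨_, rfl⟩
  have hu1 : (β : ℝ) * (N - ρ) ≤ u := by rw [hu]; exact Nat.le_ceil _
  have hu2 : (u : ℝ) ≤ β * (N - ρ) + 1 := by rw [hu]; exact (Nat.ceil_lt_add_one hx0).le
  -- the divisor
  obtain ⟨D, hD⟩ : ∃ D : DVal L → ℤ, D = fun ν => (u : ℤ) * H ν + (β : ℤ) * H' ν := ⟨_, rfl⟩
  have hDdiv : IsDiv S.prm D := by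
    rw [hD]; exact (hH.zsmul u).add (hH'.zsmul β)
  have hclD : S.cl D = (u : ℤ) • S.A + (β : ℤ) • α := by
    rw [hD, hα, ← hHA]
    unfold LibLB.PSurf.cl
    rw [LibLB.clOf_add (hH.zsmul u) (hH'.zsmul β), LibLB.clOf_zsmul _ hH, LibLB.clOf_zsmul _ hH']
  have hclD' : S.cl (fun μ => D μ - a₀ * H μ) = ((u : ℤ) - a₀) • S.A + (β : ℤ) • α := by
    have h1 : (fun μ => D μ - a₀ * H μ) = fun μ => ((u : ℤ) - a₀) * H μ + (β : ℤ) * H' μ := by
      rw [hD]; funext μ; ring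
    rw [h1, hα, ← hHA]
    unfold LibLB.PSurf.cl
    rw [LibLB.clOf_add (hH.zsmul _) (hH'.zsmul β), LibLB.clOf_zsmul _ hH, LibLB.clOf_zsmul _ hH']
  have hDdiv' : IsDiv S.prm (fun μ => D μ - a₀ * H μ) := by
    have h1 : (fun μ => D μ - a₀ * H μ) = fun μ => ((u : ℤ) - a₀) * H μ + (β : ℤ) * H' μ := by
      rw [hD]; funext μ; ring
    rw [h1]; exact (hH.zsmul _).add (hH'.zsmul β)
  have hnefD : ∀ ν ∈ S.prm, 0 ≤ S.form (S.cl D) (S.cls ν) := by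
    intro ν hν
    rw [hclD, map_add, LinearMap.add_apply, map_smul, map_smul, LinearMap.smul_apply,
      LinearMap.smul_apply, smul_eq_mul, smul_eq_mul]
    have h1 := hnefA ν hν
    have h2 := hnef ν hν
    positivity
  obtain ⟨V, hVfin, hVle, hVrank⟩ := hmany D hDdiv
  -- Riemann-Roch
  have hvan : S.hh (S.K - (((u : ℤ) - a₀) • S.A + (β : ℤ) • α)) = 0 := by
    by_contra hne
    have h1 := form_eff S hnefA (Nat.pos_of_ne_zero hne)
    rw [map_sub, map_add, map_smul, map_smul, smul_eq_mul, smul_eq_mul] at h1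
    have h2 : (0 : ℝ) ≤ (S.form S.A S.K : ℝ) - (((u : ℝ) - a₀) * (S.form S.A S.A : ℝ) +
        β * Λ) := by
      rw [hΛ]; exact_mod_cast h1
    have h3 : (0 : ℝ) ≤ u * (S.form S.A S.A : ℝ) := by
      have := S.A_sq
      have h4 : (0 : ℝ) ≤ (S.form S.A S.A : ℝ) := by exact_mod_cast (by omega : (0:ℤ) ≤ _)
      positivity
    have h5 : (β : ℝ) ≤ β * Λ := le_mul_of_one_le_right (by linarith) hΛ1
    linarith
  have hRR := S.rr' (((u : ℤ) - a₀) • S.A + (β : ℤ) • α)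
  rw [hvan, ← hclD', LibLB.PSurf.hh_cl hDdiv', hclD'] at hRR
  -- conditions
  have hst := hall D hDdiv hnefD β V hVfin hVle
  rw [hcl, hN, hclD, ← hd] at hst
  -- conclusion
  have hfin : (0 : ℝ) < (Module.finrank ℂ
      (V ⊓ secM S D (fun P => β * E P) : Submodule ℂ M) : ℝ) := by
    refine U6_num d N ρ Λ (S.form S.A S.A) |CK| |(S.form S.A S.K : ℝ)| |(S.chi0 : ℝ)| cs a₀ u β
      (LibKB.h0 S.prm (fun μ => D μ - a₀ * H μ)) _ (Module.finrank ℂ V) r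
      (S.form S.A (S.cls (bel L Q))) (S.form α (S.cls (bel L Q))) (S.form α α)
      (S.form S.A S.K) (S.form α S.K) (by exact_mod_cast hd1) (by positivity) hρ hρN hΛ1
      (by exact_mod_cast (zero_le_one.trans S.A_sq)) (abs_nonneg _) (abs_nonneg _) (by positivity)
      hβ2 (by exact_mod_cast hr1) (by exact_mod_cast (zero_le_one.trans hAB))
      (by exact_mod_cast hsq) le_rfl hCK (by rw [hd]; exact hρ') hu1 hu2
      (by rw [hVrank, ← hd]; push_cast; ring) ?_ ?_ hΛ2 ?_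
    · have h1 : ((2 * S.chi0 + S.form (((u : ℤ) - a₀) • S.A + (β : ℤ) • α)
          (((u : ℤ) - a₀) • S.A + (β : ℤ) • α - S.K) : ℤ) : ℝ) ≤
          ((2 * ((LibKB.h0 S.prm (fun μ => D μ - a₀ * H μ) : ℤ) + (0 : ℕ)) : ℤ) : ℝ) := by
        exact_mod_cast hRR
      simp only [map_add, map_sub, map_smul, LinearMap.add_apply, LinearMap.smul_apply,
        smul_eq_mul] at h1
      rw [S.symm α S.A] at h1
      push_cast at h1
      have h2 : -|(S.chi0 : ℝ)| ≤ S.chi0 := neg_abs_le _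
      rw [← hΛ] at h1
      nlinarith [h1, h2]
    · have h1 : ((Module.finrank ℂ V : ℤ) : ℝ) ≤ ((Module.finrank ℂ
          (V ⊓ secM S D (fun P => β * E P) : Submodule ℂ M) +
          β * S.form ((u : ℤ) • S.A + (β : ℤ) • α)
            ((d : ℤ) • ((N : ℤ) • S.A) - (r : ℤ) • S.cls (bel L Q)) +
          cs * (β ^ 2 + β) : ℤ) : ℝ) := by
        exact_mod_cast hst
      simp only [map_add, map_sub, map_smul, LinearMap.add_apply, LinearMap.smul_apply,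
        smul_eq_mul] at h1
      rw [S.symm α S.A] at h1
      push_cast at h1
      rw [← hΛ] at h1
      linarith [h1]
    · rw [← hT]; exact hβ3
  have hfin' : 0 < Module.finrank ℂ
      (V ⊓ secM S D (fun P => β * E P) : Submodule ℂ M) := by exact_mod_cast hfin
  obtain ⟨s, hs, hs0⟩ := Submodule.exists_mem_ne_zero_of_ne_bot (p := V ⊓ secM S D
    (fun P => β * E P)) (by
      intro h
      rw [h, finrank_bot] at hfin'
      exact lt_irrefl _ hfin')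
  refine ⟨β, u, s, by exact_mod_cast hβ1, by exact_mod_cast hβ2, hu2, hs0, ?_⟩
  rw [← hD]
  exact (Submodule.mem_inf.1 hs).2


end Pool.Agent.LibK3
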