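import Pool.Agent.LibK3.N03
import Pool.Agent.LibK3.U1
import Pool.Agent.LibK3.U7L
import Pool.Agent.LibK3.UR

/-!
ROW [K3 U7A].

The inequality at one place.

Proof. `x = ctr S C v`, `hx : IsCtr S C v x`. `f`, `f₀`: local equations of `D`, `D₀` at `x` (`leq_spec`): `ν.ord f = D ν` for all `ν ∈ S.prm` with `x ≤ ν.ring` (including `C.ν`, so `C.ν.ord f = 0`). `ct S C v D 1 = ordP v (C.ψ f)`, `C.ψ f ≠ 0` (`ct_eq` with `c = 1`). (1) `s f` (with `algebraMap L M f`) is integral over `x` by `int_iff_pt`: for `P ∈ prmM`,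
`x ≤ (bel P).ring`: `P.ord (s f) = P.ord s + ram P * D (bel P) ≥ β * divE D₀ Q P ≥ 0`. `C'.ν.ord s = 0` gives `C'.ψ s ≠ 0` (`RC.zero_iff`; `s ∈ C'.ν.ring`), `C'.ψ (s f) = C'.ψ s * C.ψ f` (`RC.mul`, `Lift.ψ`), `ordP v` of it is `≥ 0` (`lift_int`) and is `ordP v (C'.ψ s) + ct S C v D 1` (`ordP_mul`).
(2) Suppose `¬ MeetsAt`: there is `z` integral over `x`, `0 < Q.ord z`, `C'.ψ z ≠ 0`, `ordP v (C'.ψ z) ≤ 0`, so `= 0` by `lift_int`. Let `N₁ = (ram Q * D₀ (bel Q)).toNat` (`≥ 0`), `y := z ^ (β * N₁) * (s f) / (algebraMap f₀) ^ β`. `y` is integral over `x` (`int_iff_pt`): for `P ≠ Q` `P.ord z ≥ 0` (z integral, `int_iff_pt`), `P.ord (s f) ≥ β * ram P * D₀ (bel P) = P.ord (f₀ ^ β)`;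
for `P = Q`: `Q.ord z ≥ 1`, so `β N₁ Q.ord z + Q.ord (s f) ≥ β N₁ + 0 = Q.ord (f₀ ^ β)`. `y * f₀ ^ β = z ^ (β N₁) * (s f)`, apply `C'.ψ`: `ordP v (C'.ψ y) + β ordP v (C.ψ f₀) = β N₁ * 0 + ordP v (C'.ψ (s f))` (all values are `≠ 0`), `ordP v (C'.ψ y) ≥ 0`.
-/

set_option autoImplicit false
set_option linter.unusedSectionVars false

open Pool.Agent.LibGMM Pool.Agent.LibK Pool.Agent.LibKB
open Pool.Agent.LibLB (PSurf RLR)
open Pool.Agent.LibCov80 (Over)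
open Pool.Agent.LibCUR2

namespace Pool.Agent.LibK3

variable {L : Type} [Field L] [Algebra ℂ L] {M : Type} [Field M] [Algebra ℂ M] [Algebra L M]
  [IsScalarTower ℂ L M] [FiniteDimensional L M]

private theorem divE_nonneg {S : PSurf L} {D₀ : DVal L → ℤ} (h0 : ∀ ν ∈ S.prm, 0 ≤ D₀ ν)
    (Q : DVal M) {P : DVal M} (hP : P ∈ prmM M S) : 0 ≤ divE D₀ Q P := by
  classical
  unfold divE
  split_ifs
  · exact le_refl 0
  · exact mul_nonneg (Int.natCast_nonneg _) (h0 _ hP)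

private theorem divE_ne {D₀ : DVal L → ℤ} {Q P : DVal M} (h : P ≠ Q) :
    divE D₀ Q P = ram L P * D₀ (bel L P) := by
  classical
  unfold divE
  rw [if_neg h]

private theorem divE_self {D₀ : DVal L → ℤ} {Q : DVal M} : divE D₀ Q Q = 0 := by
  classical
  unfold divE
  rw [if_pos rfl]

private theorem U7A_psi_pow (C' : RC M) {z : M} (hz : z ∈ C'.ν.ring) (n : ℕ) :
    C'.ψ (z ^ n) = C'.ψ z ^ n := by
  have := map_pow C'.hom ⟨z, hz⟩ n
  exact this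

theorem place_ineq (S : PSurf L) {C : RC L} (hC : C.ν ∈ S.prm) {C' : RC M} (hl : C'.Lift C)
    (Q : DVal M) {D D₀ : DVal L → ℤ} (hD : IsDiv S.prm D)
    (hD₀ : IsDiv S.prm D₀) (h0 : ∀ ν ∈ S.prm, 0 ≤ D₀ ν) (β : ℕ) {s : M} (hs0 : s ≠ 0)
    (hs : s ∈ secM S D (fun P => β * divE D₀ Q P)) (hsC : C'.ν.ord s = 0) (hDC : D C.ν = 0)
    (hD₀C : D₀ C.ν = 0) (v : Plc) :
    C'.ψ s ≠ 0 ∧ 0 ≤ ordP v (C'.ψ s) + ct S C v D 1 ∧
      (¬ MeetsAt S C C' Q v → β * ct S C v D₀ 1 ≤ ordP v (C'.ψ s) + ct S C v D 1) := by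
  classical
  have hx := isCtr_ctr hC v
  have hf := leq_spec hD hx.pts
  have hf₀ := leq_spec hD₀ hx.pts
  obtain ⟨x, hxe⟩ : ∃ x, x = ctr S C v := ⟨_, rfl⟩
  obtain ⟨f, hfe⟩ : ∃ f, f = leq S D (ctr S C v) := ⟨_, rfl⟩
  obtain ⟨f₀, hf₀e⟩ : ∃ f₀, f₀ = leq S D₀ (ctr S C v) := ⟨_, rfl⟩
  rw [← hfe] at hf
  rw [← hf₀e] at hf₀
  have hf0 : f ≠ 0 := hf.1
  have hf₀0 : f₀ ≠ 0 := hf₀.1
  have hCf : C.ν.ord f = 0 := by rw [hf.2 _ hC hx.le, hDC]
  have hCf₀ : C.ν.ord f₀ = 0 := by rw [hf₀.2 _ hC hx.le, hD₀C]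
  obtain ⟨hct, hψf⟩ := ct_eq hC hx hD hf one_ne_zero (by rw [DVal.ord_one, hDC, neg_zero])
  obtain ⟨hct₀, hψf₀⟩ := ct_eq hC hx hD₀ hf₀ one_ne_zero (by rw [DVal.ord_one, hD₀C, neg_zero])
  rw [one_mul] at hct hψf hct₀ hψf₀
  have hfM : algebraMap L M f ≠ 0 := by rw [Ne, map_eq_zero]; exact hf0
  have hf₀M : algebraMap L M f₀ ≠ 0 := by rw [Ne, map_eq_zero]; exact hf₀0
  have hψ'f : C'.ψ (algebraMap L M f) = C.ψ f := hl.ψ f (by rw [mem_ring, hCf])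
  have hψ'f₀ : C'.ψ (algebraMap L M f₀) = C.ψ f₀ := hl.ψ f₀ (by rw [mem_ring, hCf₀])
  have hord : ∀ z : L, C'.ν.ord (algebraMap L M z) = C.ν.ord z := fun z => by
    rw [hl.isOver.ord]
    push_cast
    ring
  have hfr : algebraMap L M f ∈ C'.ν.ring := by rw [mem_ring, hord, hCf]
  have hf₀r : algebraMap L M f₀ ∈ C'.ν.ring := by rw [mem_ring, hord, hCf₀]
  have hsr : s ∈ C'.ν.ring := by rw [mem_ring, hsC]
  have hψs : C'.ψ s ≠ 0 := by
    intro h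
    rcases (C'.zero_iff s hsr).1 h with h | h
    · exact hs0 h
    · omega
  have hordf : ∀ P ∈ prmM M S, ctr S C v ≤ (bel L P).ring →
      P.ord (algebraMap L M f) = ram L P * D (bel L P) := fun P hP hxP => by
    rw [ord_map, hf.2 _ hP hxP]
  have hordf₀ : ∀ P ∈ prmM M S, ctr S C v ≤ (bel L P).ring →
      P.ord (algebraMap L M f₀) = ram L P * D₀ (bel L P) := fun P hP hxP => by
    rw [ord_map, hf₀.2 _ hP hxP]
  have hsf : ∀ P ∈ prmM M S, ctr S C v ≤ (bel L P).ring →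
      β * divE D₀ Q P ≤ P.ord (s * algebraMap L M f) := fun P hP hxP => by
    rw [P.ord_mul _ _ hs0 hfM, hordf P hP hxP]
    exact hs P hP hs0
  have hint : IsIntegral (ctr S C v) (s * algebraMap L M f) := by
    rw [int_iff_pt S hx.pts]
    intro P hP hxP
    exact le_trans (mul_nonneg (Int.natCast_nonneg _) (divE_nonneg h0 Q hP)) (hsf P hP hxP)
  have hψsf : C'.ψ (s * algebraMap L M f) = C'.ψ s * C.ψ f := by
    rw [C'.mul _ hsr _ hfr, hψ'f]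
  have hordsf : ordP v (C'.ψ (s * algebraMap L M f)) = ordP v (C'.ψ s) + ct S C v D 1 := by
    rw [hψsf, ordP_mul v hψs hψf, hct]
  have hsfr : s * algebraMap L M f ∈ C'.ν.ring := mul_mem hsr hfr
  refine ⟨hψs, ?_, fun hm => ?_⟩
  · rw [← hordsf]
    exact (lift_int hC hl v hint).2
  · unfold MeetsAt at hm
    push Not at hm
    obtain ⟨z, hz1, hz2, hz3, hz4⟩ := hm
    obtain ⟨hzr, hz5⟩ := lift_int hC hl v hz1
    have hz6 : ordP v (C'.ψ z) = 0 := le_antisymm hz4 hz5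
    have hz0 : z ≠ 0 := by
      rintro rfl
      rw [Q.ord_zero] at hz2
      exact lt_irrefl _ hz2
    obtain ⟨N₁, hN₁⟩ : ∃ N₁ : ℕ, N₁ = (ram L Q * D₀ (bel L Q)).toNat := ⟨_, rfl⟩
    have hsf0 : s * algebraMap L M f ≠ 0 := mul_ne_zero hs0 hfM
    have hzp0 : z ^ (β * N₁) ≠ 0 := pow_ne_zero _ hz0
    have hf₀p : algebraMap L M f₀ ^ β ≠ 0 := pow_ne_zero _ hf₀M
    obtain ⟨y, hy⟩ : ∃ y, y = z ^ (β * N₁) * (s * algebraMap L M f) / algebraMap L M f₀ ^ β :=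
      ⟨_, rfl⟩
    have hyf : y * algebraMap L M f₀ ^ β = z ^ (β * N₁) * (s * algebraMap L M f) := by
      rw [hy, div_mul_cancel₀ _ hf₀p]
    have hy0 : y ≠ 0 := by
      rw [hy]
      exact div_ne_zero (mul_ne_zero hzp0 hsf0) hf₀p
    have hyint : IsIntegral (ctr S C v) y := by
      rw [int_iff_pt S hx.pts]
      intro P hP hxP
      have h1 := congrArg P.ord hyf
      rw [P.ord_mul _ _ hy0 hf₀p, P.ord_mul _ _ hzp0 hsf0, DVal.ord_pow, DVal.ord_pow,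
        hordf₀ P hP hxP] at h1
      have h2 := hsf P hP hxP
      have h3 : 0 ≤ P.ord z := (int_iff_pt S hx.pts z).1 hz1 P hP hxP
      by_cases hPQ : P = Q
      · subst hPQ
        rw [divE_self, mul_zero] at h2
        have h4 : (N₁ : ℤ) = ram L P * D₀ (bel L P) := by
          rw [hN₁, Int.toNat_of_nonneg]
          exact mul_nonneg (Int.natCast_nonneg _) (h0 _ hP)
        rw [← h4] at h1
        have h5 : (β * N₁ : ℤ) ≤ (β * N₁ : ℤ) * P.ord z := by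
          have : (0 : ℤ) ≤ β * N₁ := by positivity
          nlinarith
        push_cast at h1
        linarith
      · rw [divE_ne hPQ] at h2
        have h5 : (0 : ℤ) ≤ ((β * N₁ : ℕ) : ℤ) * P.ord z := mul_nonneg (Int.natCast_nonneg _) h3
        linarith
    obtain ⟨hyr, hyo⟩ := lift_int hC hl v hyint
    have hzpr : z ^ (β * N₁) ∈ C'.ν.ring := pow_mem hzr _
    have hf₀pr : algebraMap L M f₀ ^ β ∈ C'.ν.ring := pow_mem hf₀r _
    have h6 := congrArg C'.ψ hyf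
    rw [C'.mul _ hyr _ hf₀pr, C'.mul _ hzpr _ hsfr, U7A_psi_pow C' hzr, U7A_psi_pow C' hf₀r, hψ'f₀] at h6
    have hpow : ∀ (g : RatFunc ℂ) (n : ℕ), ordP v (g ^ n) = n * ordP v g := fun g n => by
      obtain ⟨P, hP⟩ := exists_pl v
      rw [← hP, ← hP]
      exact P.ord_pow g n
    have hψz : C'.ψ z ^ (β * N₁) ≠ 0 := pow_ne_zero _ hz3
    have hψsf0 : C'.ψ (s * algebraMap L M f) ≠ 0 := by
      rw [hψsf]
      exact mul_ne_zero hψs hψf
    have hψf₀p : C.ψ f₀ ^ β ≠ 0 := pow_ne_zero _ hψf₀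
    have hψy : C'.ψ y ≠ 0 := by
      intro h
      rw [h, zero_mul] at h6
      exact mul_ne_zero hψz hψsf0 h6.symm
    have h7 := congrArg (ordP v) h6
    rw [ordP_mul v hψy hψf₀p, ordP_mul v hψz hψsf0, hpow, hpow, hz6, mul_zero, zero_add,
      hordsf] at h7
    rw [hct₀]
    linarith

end Pool.Agent.LibK3
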