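import Pool.Agent.LibK3.N09
import Pool.Agent.LibK3.U7A

/-!
ROW [K3 U7B].

The sum over all places.

Proof. `w v := ordP v (C'.ψ s) + ct S C v D 1 ≥ 0`, finite support (`sum_ordP`, `ct_finite`), `∑ᶠ w = 0 + form (cl D) (cls C.ν)` (`sum_ordP`, `deg_eq` with `c = 1`, `C.ν.ord 1 = 0`). `o v := ct S C v D₀ 1`, finite support, `∑ᶠ o = form (cl D₀) (cls C.ν)`. Split `∑ᶠ o` into the places with `MeetsAt` and the others (`finsum_mem_add_diff` or convert to `Finset` sums over the union of the supports);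
for the others `β o v ≤ w v`, for the places with `MeetsAt` `0 ≤ w v`: so `β * (∑ᶠ o - ∑ᶠ_(MeetsAt) o) ≤ ∑ᶠ w`. (`o v ≥ 0` is not needed.)
-/

set_option autoImplicit false
set_option linter.unusedSectionVars false

open Pool.Agent.LibGMM Pool.Agent.LibK Pool.Agent.LibKB
open Pool.Agent.LibLB (PSurf RLR)
open Pool.Agent.LibCov80 (Over)
open Pool.Agent.LibCUR2

namespace Pool.Agent.LibK3

variable {L : Type} [Field L] [Algebra ℂ L] {M : Type} [Field M] [Algebra ℂ M] [Algebra L M]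
  [IsScalarTower ℂ L M] [FiniteDimensional L M]

theorem sum_ineq (S : PSurf L) {C : RC L} (hC : C.ν ∈ S.prm) {C' : RC M} (hl : C'.Lift C)
    (Q : DVal M) {D D₀ : DVal L → ℤ} (hD : IsDiv S.prm D)
    (hD₀ : IsDiv S.prm D₀) (h0 : ∀ ν ∈ S.prm, 0 ≤ D₀ ν) (β : ℕ) {s : M} (hs0 : s ≠ 0)
    (hs : s ∈ secM S D (fun P => β * divE D₀ Q P)) (hsC : C'.ν.ord s = 0) (hDC : D C.ν = 0)
    (hD₀C : D₀ C.ν = 0) :
    β * (S.form (S.cl D₀) (S.cls C.ν) - ∑ᶠ v ∈ {v | MeetsAt S C C' Q v}, ct S C v D₀ 1) ≤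
      S.form (S.cl D) (S.cls C.ν) := by
  classical
  have hp := fun v => place_ineq S hC hl Q hD hD₀ h0 β hs0 hs hsC hDC hD₀C v
  have hψ : C'.ψ s ≠ 0 := (hp none).1
  have hc1 : C.ν.ord 1 = - D C.ν := by
    rw [hDC, neg_zero]
    have := C.ν.ord_const 1
    rwa [map_one] at this
  have hc2 : C.ν.ord 1 = - D₀ C.ν := by rw [hc1, hDC, hD₀C]
  obtain ⟨hA, hA0⟩ := sum_ordP hψ
  have hB := ct_finite hC hD one_ne_zero hc1
  have hO := ct_finite hC hD₀ one_ne_zero hc2
  have hB0 := deg_eq hC hD one_ne_zero hc1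
  have hO0 := deg_eq hC hD₀ one_ne_zero hc2
  set T : Finset Plc := hA.toFinset ∪ (hB.toFinset ∪ hO.toFinset) with hT
  have e1 : ∑ᶠ v, ordP v (C'.ψ s) = ∑ v ∈ T, ordP v (C'.ψ s) := by
    apply finsum_eq_sum_of_support_subset
    intro v hv
    rw [hT, Finset.coe_union]
    exact Or.inl (by simpa using hv)
  have e2 : ∑ᶠ v, ct S C v D 1 = ∑ v ∈ T, ct S C v D 1 := by
    apply finsum_eq_sum_of_support_subset
    intro v hv
    rw [hT, Finset.coe_union, Finset.coe_union]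
    exact Or.inr (Or.inl (by simpa using hv))
  have e3 : ∑ᶠ v, ct S C v D₀ 1 = ∑ v ∈ T, ct S C v D₀ 1 := by
    apply finsum_eq_sum_of_support_subset
    intro v hv
    rw [hT, Finset.coe_union, Finset.coe_union]
    exact Or.inr (Or.inr (by simpa using hv))
  have e4 : ∑ᶠ v ∈ {v | MeetsAt S C C' Q v}, ct S C v D₀ 1 =
      ∑ v ∈ T, if MeetsAt S C C' Q v then ct S C v D₀ 1 else 0 := by
    rw [finsum_mem_def]
    have e5 : ({v | MeetsAt S C C' Q v}.indicator fun v => ct S C v D₀ 1) =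
        fun v => if MeetsAt S C C' Q v then ct S C v D₀ 1 else 0 := by
      funext v
      simp [Set.indicator_apply]
    rw [e5]
    apply finsum_eq_sum_of_support_subset
    intro v hv
    rw [hT, Finset.coe_union, Finset.coe_union]
    refine Or.inr (Or.inr ?_)
    simp only [Set.Finite.coe_toFinset, Set.mem_ofPred_eq]
    intro h
    apply hv
    show (if MeetsAt S C C' Q v then ct S C v D₀ 1 else 0) = 0
    rw [h]
    simp
  rw [← hO0, e4, e3, ← hB0, e2]
  have e6 : ∑ v ∈ T, ct S C v D 1 = ∑ v ∈ T, (ordP v (C'.ψ s) + ct S C v D 1) := by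
    rw [Finset.sum_add_distrib, ← e1, hA0, zero_add]
  rw [e6, ← Finset.sum_sub_distrib, Finset.mul_sum]
  apply Finset.sum_le_sum
  intro v _
  by_cases hv : MeetsAt S C C' Q v
  · rw [if_pos hv, sub_self, mul_zero]
    exact (hp v).2.1
  · rw [if_neg hv, sub_zero]
    exact (hp v).2.2 hv

end Pool.Agent.LibK3
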