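import Pool.Agent.LibK3.N15
import Pool.Agent.LibK3.U2

/-!
ROW [K3 U8].

Lifts from primes of residue degree one, and finiteness of the ramified primes.

`exists_lift`: define `ψ' z := ψ (w)` where `w ∈ C.ν.ring` is chosen with `z = algebraMap w` or `0 < μ.ord (z - algebraMap w)` if `z ∈ μ.ring`, and `0` otherwise. Well defined: two such `w` differ by an element of positive order (`Over μ C.ν 1`) or zero, so `ψ` agrees (`RC.zero_iff`). Additive, multiplicative, constants, kernel, surjective: immediate.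
`ram_finite`: only finitely many `P ∈ prmM` have `ram L P ≠ 1`. Proof: `M = L(θ)` (`Field.exists_primitive_element`, characteristic zero), `p = minpoly L θ`, `disc p ≠ 0` or: `p' (θ) ≠ 0`. Outside finitely many `ν ∈ S.prm` (`S.finDiv`) the coefficients of `p` are in `ν.ring`, so `θ` is integral, and `norm (p' (θ))` has order `0`. For such `ν` let `P` be over `ν`. If `ram P ≥ 2`: the elements of the
integral closure `B` of `ν.ring` are `(1 / p'(θ))` times elements of `ν.ring[θ]` (`traceForm_dualSubmodule_adjoin` in Mathlib RingTheory/DedekindDomain/Different.lean), and `p' (θ)` is a unit of `B`, so `B = ν.ring[θ]`. A derivation argument: let `t` be a uniformiser of `ν`; `B / t B = κ[X] / (p mod t)` with `p mod t` separable (its derivative is a unit modulo `p`), so `B / t B` is reduced;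
but an element `z` with `P.ord z = 1` and `P'.ord z ≥ ram P'` for the other `P'` over `ν` (`exists_orders` in U2, or the Chinese remainder theorem) is nilpotent and not zero modulo `t`: contradiction. You may import U2. Other ways are welcome (e.g. LibHP2/D1.lean `isIntegral_derivation`, or an existing lemma: `grep -rn -i 'ramif' Pool/Agent/LibCov80 Pool/Agent/LibGM*`).
-/

set_option autoImplicit false
set_option linter.unusedSectionVars false

open Pool.Agent.LibGMM Pool.Agent.LibK Pool.Agent.LibKB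
open Pool.Agent.LibLB (PSurf RLR)
open Pool.Agent.LibCov80 (Over)
open Pool.Agent.LibCUR2

namespace Pool.Agent.LibK3

section

open Polynomial

private theorem u8_deriv_mem {A K B L : Type} [CommRing A] [Field K] [CommRing B] [Field L]
    [Algebra A K] [Algebra B L] [Algebra A B] [Algebra K L] [Algebra A L]
    [IsScalarTower A K L] [IsScalarTower A B L] [IsFractionRing A K] [IsFractionRing B L]
    [IsIntegralClosure B A L] [FiniteDimensional K L] [Algebra.IsSeparable K L]
    [IsDedekindDomain A] [IsDedekindDomain B] [Module.IsTorsionFree A B] [Module.Finite A B]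
    {p : Ideal A} [p.IsMaximal] (hp : p ≠ ⊥) (P : Ideal B)
    (hP : P ^ 2 ∣ p.map (algebraMap A B)) (x : B)
    (hx : Algebra.adjoin K {algebraMap B L x} = ⊤) :
    aeval x (derivative (minpoly A x)) ∈ P := by
  have h1 := pow_sub_one_dvd_differentIdeal_aux A K L P (e := 2) (by norm_num) hp hP
  rw [show (2 : ℕ) - 1 = 1 from rfl, pow_one] at h1
  exact Ideal.dvd_iff_le.1 h1 (aeval_derivative_mem_differentIdeal A K L x hx)

end

variable {L : Type} [Field L] [Algebra ℂ L] {M : Type} [Field M] [Algebra ℂ M] [Algebra L M]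
  [IsScalarTower ℂ L M] [FiniteDimensional L M]

/-- The maximal ideal. -/
private def u8_max (ν : DVal L) : Ideal ν.ring where
  carrier := {a | (a : L) = 0 ∨ 1 ≤ ν.ord (a : L)}
  zero_mem' := Or.inl rfl
  add_mem' := fun {a b} ha hb => ν.ord_add_ge ha hb
  smul_mem' := fun a b hb => by
    change (a : L) * (b : L) = 0 ∨ 1 ≤ ν.ord ((a : L) * (b : L))
    by_cases ha0 : (a : L) = 0
    · left; rw [ha0, zero_mul]
    by_cases hb0 : (b : L) = 0
    · left; rw [hb0, mul_zero]
    right
    rw [ν.ord_mul' ha0 hb0]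
    have h1 : 0 ≤ ν.ord (a : L) := a.2
    have h2 : 1 ≤ ν.ord (b : L) := hb.resolve_left hb0
    omega

private theorem u8_max_isMax (ν : DVal L) : (u8_max ν).IsMaximal := by
  rw [Ideal.isMaximal_iff]
  constructor
  · rintro (h | h)
    · exact one_ne_zero h
    · change 1 ≤ ν.ord (1 : L) at h
      rw [ν.ord_one] at h
      omega
  · intro J x _ hx hxJ
    have hx1 : ¬ ((x : L) = 0 ∨ 1 ≤ ν.ord (x : L)) := hx
    push Not at hx1
    have h2 : 0 ≤ ν.ord (x : L) := x.2
    have h3 : 0 ≤ ν.ord ((x : L)⁻¹) := by rw [ν.ord_inv]; omega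
    have h4 : (⟨(x : L)⁻¹, h3⟩ : ν.ring) * x = 1 := by
      apply Subtype.ext
      change (x : L)⁻¹ * (x : L) = 1
      exact inv_mul_cancel₀ hx1.1
    rw [← h4]
    exact J.mul_mem_left _ hxJ

private theorem u8_max_ne (ν : DVal L) : u8_max ν ≠ ⊥ := by
  obtain ⟨t, ht⟩ := ν.exists_ord_one
  intro h
  have h1 : (⟨t, by change 0 ≤ ν.ord t; omega⟩ : ν.ring) ∈ u8_max ν := Or.inr (by
    change 1 ≤ ν.ord t; omega)
  rw [h, Ideal.mem_bot] at h1
  have h2 : t = 0 := congrArg Subtype.val h1
  rw [h2, ν.ord_zero] at ht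
  omega

/-- The ideal of `P` in the integral closure. -/
private def u8_id (ν : DVal L) (P : DVal M) (hP : ∀ z : M, IsIntegral ν.ring z → 0 ≤ P.ord z) :
    Ideal (integralClosure ν.ring M) where
  carrier := {a | (a : M) = 0 ∨ 1 ≤ P.ord (a : M)}
  zero_mem' := Or.inl rfl
  add_mem' := fun {a b} ha hb => P.ord_add_ge ha hb
  smul_mem' := fun a b hb => by
    change (a : M) * (b : M) = 0 ∨ 1 ≤ P.ord ((a : M) * (b : M))
    by_cases ha0 : (a : M) = 0
    · left; rw [ha0, zero_mul]
    by_cases hb0 : (b : M) = 0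
    · left; rw [hb0, mul_zero]
    right
    rw [P.ord_mul' ha0 hb0]
    have h1 : 0 ≤ P.ord (a : M) := hP _ a.2
    have h2 : 1 ≤ P.ord (b : M) := hb.resolve_left hb0
    omega

open Polynomial Pool.Agent.LibCov80 in
private theorem u8_core (ν : DVal L) (P : DVal M) (e : ℕ) (ho : Over P ν e) (he : 2 ≤ e)
    (hint : ∀ z : M, IsIntegral ν.ring z ↔ ∀ Q : DVal M, (∃ e, Over Q ν e) → 0 ≤ Q.ord z)
    (hz : ∃ z : M, z ≠ 0 ∧ P.ord z = 1 ∧ ∀ Q : DVal M, (∃ e, Over Q ν e) → Q ≠ P → Q.ord z = 0)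
    (θ : M) (hθ : IsIntegral ν.ring θ) (hgen : Algebra.adjoin L {θ} = ⊤) :
    aeval θ (derivative (minpoly L θ)) = 0 ∨
      1 ≤ P.ord (aeval θ (derivative (minpoly L θ))) := by
  obtain ⟨z, hz0, hzP, hzQ⟩ := hz
  have hpid := ring_pid ν
  have hfr := ring_frac ν
  have hsep := isSeparable (k := L) (K := M)
  have hB1 : IsFractionRing (integralClosure ν.ring M) M :=
    integralClosure.isFractionRing_of_finite_extension L M
  have hB2 : IsDedekindDomain (integralClosure ν.ring M) :=
    integralClosure.isDedekindDomain ν.ring L M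
  have hB3 : Module.Finite ν.ring (integralClosure ν.ring M) :=
    IsIntegralClosure.finite ν.ring L M _
  have hmax := u8_max_isMax ν
  have hPint : ∀ w : M, IsIntegral ν.ring w → 0 ≤ P.ord w := fun w hw =>
    (hint w).1 hw P ⟨e, ho⟩
  have hzI : IsIntegral ν.ring z := by
    rw [hint]
    intro Q hQ
    by_cases h : Q = P
    · rw [h, hzP]; omega
    · rw [hzQ Q hQ h]
  have hdvd : (u8_id ν P hPint) ^ 2 ∣
      (u8_max ν).map (algebraMap ν.ring (integralClosure ν.ring M)) := by
    rw [Ideal.dvd_iff_le, Ideal.map_le_iff_le_comap]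
    intro a ha
    rw [Ideal.mem_comap]
    by_cases ha0 : (a : L) = 0
    · have : a = 0 := Subtype.ext ha0
      rw [this, map_zero]
      exact Ideal.zero_mem _
    have ha1 : 1 ≤ ν.ord (a : L) := Or.resolve_left ha ha0
    have ha0' : algebraMap L M a ≠ 0 := (_root_.map_ne_zero _).2 ha0
    have hu : IsIntegral ν.ring (algebraMap L M a / (z * z)) := by
      rw [hint]
      rintro Q ⟨e', hQ⟩
      rw [Q.ord_div ha0' (mul_ne_zero hz0 hz0), Q.ord_mul' hz0 hz0]
      by_cases h : Q = P
      · subst h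
        rw [ho.ord, hzP]
        have : (2 : ℤ) * 1 ≤ e * ν.ord (a : L) := by
          have h2 : (2 : ℤ) ≤ e := by exact_mod_cast he
          nlinarith
        omega
      · rw [hzQ Q ⟨e', hQ⟩ h, hQ.ord]
        have : (0 : ℤ) ≤ e' * ν.ord (a : L) := by positivity
        omega
    have hzm : (⟨z, hzI⟩ : integralClosure ν.ring M) ∈ u8_id ν P hPint := Or.inr (by
      change 1 ≤ P.ord z; omega)
    have h3 : algebraMap ν.ring (integralClosure ν.ring M) a =
        ⟨algebraMap L M a / (z * z), hu⟩ * (⟨z, hzI⟩ * ⟨z, hzI⟩) := by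
      apply Subtype.ext
      change algebraMap L M a = algebraMap L M a / (z * z) * (z * z)
      field_simp
    rw [h3, pow_two]
    exact Ideal.mul_mem_left _ _ (Ideal.mul_mem_mul hzm hzm)
  have h4 := u8_deriv_mem (A := ν.ring) (K := L) (B := integralClosure ν.ring M) (L := M)
    (u8_max_ne ν) (u8_id ν P hPint) hdvd ⟨θ, hθ⟩ hgen
  have h5 : aeval θ (derivative (minpoly L θ)) =
      algebraMap (integralClosure ν.ring M) M (aeval (⟨θ, hθ⟩ : integralClosure ν.ring M)
        (derivative (minpoly ν.ring (⟨θ, hθ⟩ : integralClosure ν.ring M)))) := by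
    have h6 := minpoly.isIntegrallyClosed_eq_field_fractions L M
      (s := (⟨θ, hθ⟩ : integralClosure ν.ring M)) (R := ν.ring)
      (IsIntegralClosure.isIntegral ν.ring M _)
    have h7 : algebraMap (integralClosure ν.ring M) M ⟨θ, hθ⟩ = θ := rfl
    rw [h7] at h6
    rw [h6, derivative_map, aeval_map_algebraMap, ← aeval_algebraMap_apply, h7]
  rw [h5]
  exact h4

/-- `w` is a representative of `z`. -/
private def U8R (C : RC L) (μ : DVal M) (z : M) (w : L) : Prop :=
  w ∈ C.ν.ring ∧ (z - algebraMap L M w = 0 ∨ 0 < μ.ord (z - algebraMap L M w))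

private theorem u8_pos_add {μ : DVal M} {a b : M} (ha : a = 0 ∨ 0 < μ.ord a)
    (hb : b = 0 ∨ 0 < μ.ord b) : a + b = 0 ∨ 0 < μ.ord (a + b) := by
  have := μ.ord_add_ge (n := 1) (a := a) (b := b) (ha.imp_right fun h => h)
    (hb.imp_right fun h => h)
  exact this.imp_right fun h => h

private theorem u8_pos_mul {μ : DVal M} {a b : M} (ha : a = 0 ∨ 0 < μ.ord a)
    (hb : 0 ≤ μ.ord b) : a * b = 0 ∨ 0 < μ.ord (a * b) := by
  by_cases h0 : a = 0
  · left; rw [h0, zero_mul]
  by_cases h1 : b = 0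
  · left; rw [h1, mul_zero]
  right
  rw [μ.ord_mul' h0 h1]
  have := ha.resolve_left h0
  omega

private theorem u8_add {C : RC L} {μ : DVal M} {z z' : M} {w w' : L} (h : U8R C μ z w)
    (h' : U8R C μ z' w') : U8R C μ (z + z') (w + w') := by
  refine ⟨C.ν.ring.add_mem h.1 h'.1, ?_⟩
  have := u8_pos_add h.2 h'.2
  have he : z - algebraMap L M w + (z' - algebraMap L M w') =
      z + z' - algebraMap L M (w + w') := by rw [map_add]; ring
  rwa [he] at this

private theorem u8_mul {C : RC L} {μ : DVal M} (ho : Over μ C.ν 1) {z z' : M} {w w' : L}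
    (h : U8R C μ z w) (h' : U8R C μ z' w') (hz' : z' ∈ μ.ring) : U8R C μ (z * z') (w * w') := by
  refine ⟨C.ν.ring.mul_mem h.1 h'.1, ?_⟩
  have hw : 0 ≤ μ.ord (algebraMap L M w) := (ho.nonneg_iff w).2 h.1
  have := u8_pos_add (u8_pos_mul h.2 (mem_ring.1 hz')) (u8_pos_mul h'.2 hw)
  have he : (z - algebraMap L M w) * z' + (z' - algebraMap L M w') * algebraMap L M w =
      z * z' - algebraMap L M (w * w') := by rw [map_mul]; ring
  rwa [he] at this

private theorem u8_self {C : RC L} {μ : DVal M} {w : L} (hw : w ∈ C.ν.ring) :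
    U8R C μ (algebraMap L M w) w := ⟨hw, Or.inl (sub_self _)⟩

private theorem u8_uniq {C : RC L} {μ : DVal M} (ho : Over μ C.ν 1) {z : M} {w w' : L}
    (h : U8R C μ z w) (h' : U8R C μ z w') : C.ψ w = C.ψ w' := by
  have hd : w - w' ∈ C.ν.ring := C.ν.ring.sub_mem h.1 h'.1
  have h1 : C.ψ (w - w') = 0 := by
    rw [C.zero_iff _ hd]
    have h2 : (-(z - algebraMap L M w)) = 0 ∨ 0 < μ.ord (-(z - algebraMap L M w)) := by
      rw [μ.ord_neg, neg_eq_zero]; exact h.2
    have h3 := u8_pos_add h2 h'.2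
    have he : -(z - algebraMap L M w) + (z - algebraMap L M w') = algebraMap L M (w - w') := by
      rw [map_sub]; ring
    rw [he, ho.ord, map_eq_zero] at h3
    rcases h3 with h3 | h3
    · exact Or.inl h3
    · right
      push_cast at h3
      linarith
  have h2 := C.add _ hd _ h'.1
  rw [sub_add_cancel, h1, zero_add] at h2
  exact h2

theorem exists_lift {C : RC L} {μ : DVal M} (h : Over μ C.ν 1) (hr : ResOne μ C.ν) :
    ∃ C' : RC M, C'.ν = μ ∧ C'.Lift C := by
  classical
  have hex : ∀ z : M, z ∈ μ.ring → ∃ w, U8R C μ z w := by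
    intro z hz
    obtain ⟨w, hw, h1⟩ := hr z hz
    exact ⟨w, hw, h1.imp_left fun h => sub_eq_zero.2 h⟩
  let r : M → L := fun z => if hz : z ∈ μ.ring then (hex z hz).choose else 0
  have hrs : ∀ z ∈ μ.ring, U8R C μ z (r z) := by
    intro z hz
    have h1 := (hex z hz).choose_spec
    have h2 : r z = (hex z hz).choose := dif_pos hz
    rw [h2]; exact h1
  have hval : ∀ z ∈ μ.ring, ∀ w, U8R C μ z w → C.ψ (r z) = C.ψ w := fun z hz w hw =>
    u8_uniq h (hrs z hz) hw
  have hup : ∀ w ∈ C.ν.ring, algebraMap L M w ∈ μ.ring := fun w hw => (h.nonneg_iff w).2 hw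
  have hψ : ∀ z ∈ C.ν.ring, C.ψ (r (algebraMap L M z)) = C.ψ z := fun z hz =>
    hval _ (hup z hz) _ (u8_self hz)
  refine ⟨⟨μ, fun z => C.ψ (r z), ?_, ?_, ?_, ?_, ?_⟩, rfl, ⟨h, hψ⟩⟩
  · intro z hz w hw
    have h1 := hval (z + w) (μ.ring.add_mem hz hw) _ (u8_add (hrs z hz) (hrs w hw))
    rw [h1]
    exact C.add _ (hrs z hz).1 _ (hrs w hw).1
  · intro z hz w hw
    have h1 := hval (z * w) (μ.ring.mul_mem hz hw) _ (u8_mul h (hrs z hz) (hrs w hw) hw)
    rw [h1]
    exact C.mul _ (hrs z hz).1 _ (hrs w hw).1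
  · intro c
    have h1 := hψ (algebraMap ℂ L c) (C.ν.ring.algebraMap_mem c)
    rw [← IsScalarTower.algebraMap_apply] at h1
    change C.ψ (r (algebraMap ℂ M c)) = _
    rw [h1]
    exact C.const c
  · intro z hz
    have h1 := hrs z hz
    rw [C.zero_iff _ h1.1]
    constructor
    · intro h2
      have h3 : algebraMap L M (r z) = 0 ∨ 0 < μ.ord (algebraMap L M (r z)) := by
        rw [h.ord, map_eq_zero]
        refine h2.imp_right fun h4 => ?_
        push_cast
        linarith
      have h4 := u8_pos_add h1.2 h3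
      rwa [sub_add_cancel] at h4
    · intro h2
      have h3 : -(z - algebraMap L M (r z)) = 0 ∨ 0 < μ.ord (-(z - algebraMap L M (r z))) := by
        rw [μ.ord_neg, neg_eq_zero]; exact h1.2
      have h4 := u8_pos_add h3 h2
      have he : -(z - algebraMap L M (r z)) + z = algebraMap L M (r z) := by ring
      rw [he, h.ord, map_eq_zero] at h4
      refine h4.imp_right fun h5 => ?_
      push_cast at h5
      linarith
  · intro f
    obtain ⟨z, hz, hf⟩ := C.surj f
    exact ⟨algebraMap L M z, hup z hz, by rw [hψ z hz, hf]⟩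

private theorem u8_over_iff {Q : DVal M} {ν : DVal L} :
    (∃ e, Over Q ν e) ↔ bel L Q = ν :=
  ⟨fun ⟨_, h⟩ => bel_eq h, fun h => ⟨ram L Q, h ▸ over_bel Q⟩⟩

open Polynomial in
theorem ram_finite (S : PSurf L) : {P | P ∈ prmM M S ∧ ram L P ≠ 1}.Finite := by
  classical
  have hsep : Algebra.IsSeparable L M := LibCov80.isSeparable (k := L) (K := M)
  obtain ⟨θ, hθ⟩ := Field.exists_primitive_element L M
  have hgen : Algebra.adjoin L {θ} = ⊤ :=
    (IntermediateField.adjoin_simple_eq_top_iff_of_isAlgebraic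
      (Algebra.IsAlgebraic.isAlgebraic θ)).1 hθ
  have hD : aeval θ (derivative (minpoly L θ)) ≠ 0 :=
    (Algebra.IsSeparable.isSeparable L θ).aeval_derivative_ne_zero (minpoly.aeval L θ)
  have hf1 : {P : DVal M | P ∈ prmM M S ∧ P.ord θ ≠ 0}.Finite := by
    by_cases h0 : θ = 0
    · refine Set.Finite.subset Set.finite_empty fun P hP => ?_
      exact hP.2 (by rw [h0, P.ord_zero])
    · exact finDivM S θ h0
  have hf2 := finDivM S _ hD
  have hf3 : (⋃ ν ∈ (bel L) '' {P : DVal M | P ∈ prmM M S ∧ P.ord θ ≠ 0},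
      {P : DVal M | bel L P = ν}).Finite :=
    (hf1.image _).biUnion fun ν _ => fibre_finite ν
  refine (hf3.union hf2).subset ?_
  rintro P ⟨hP, hram⟩
  by_cases hin : ∀ Q : DVal M, bel L Q = bel L P → 0 ≤ Q.ord θ
  swap
  · left
    push Not at hin
    obtain ⟨Q, hQ, hQn⟩ := hin
    refine Set.mem_biUnion (x := bel L P) ?_ rfl
    refine ⟨Q, ⟨?_, by omega⟩, hQ⟩
    change bel L Q ∈ S.prm
    rw [hQ]
    exact hP
  right
  refine ⟨hP, ?_⟩
  have hθint : IsIntegral (bel L P).ring θ := (int_iff_ring _ θ).2 hin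
  obtain ⟨z, hz0, hz⟩ := exists_orders (bel L P) fun Q : DVal M => if Q = P then 1 else 0
  have hpos := ram_pos (L := L) P
  have h1 := u8_core (bel L P) P (ram L P) (over_bel P) (by omega)
    (fun w => by
      rw [int_iff_ring]
      exact forall_congr' fun Q => by rw [u8_over_iff])
    ⟨z, hz0, by rw [hz P rfl]; simp, fun Q hQ hne => by
      rw [hz Q (u8_over_iff.1 hQ)]; simp [hne]⟩ θ hθint hgen
  have h2 := h1.resolve_left hD
  omega

/-- For large `m` a prime of residue degree one over `C_m` gives a lift. -/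
theorem exists_lift_large (X : Sys L) {C₀ : RC L} (hC : C₀.ν ∈ X.S.prm) :
    ∃ m₀ : ℕ, ∀ m : ℕ, m₀ ≤ m → (∃ (μ : DVal M) (e : ℕ), Over μ (X.cv C₀ m).ν e ∧
      ResOne μ (X.cv C₀ m).ν) → ∃ C' : RC M, C'.Lift (X.cv C₀ m) := by
  have hfin := (ram_finite (M := M) X.S).image (bel L)
  obtain ⟨m₀, hm₀⟩ := X.cv_avoid hC hfin
  refine ⟨m₀, fun m hm => ?_⟩
  rintro ⟨μ, e, ho, hr⟩
  have h1 : bel L μ = (X.cv C₀ m).ν := bel_eq ho
  have h2 : ram L μ = e := ram_eq ho
  have h3 : e = 1 := by
    by_contra hne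
    apply hm₀ m hm
    refine ⟨μ, ⟨?_, by rw [h2]; exact hne⟩, h1⟩
    change bel L μ ∈ X.S.prm
    rw [h1]
    exact X.cv_mem hC m
  subst h3
  obtain ⟨C', -, hC'⟩ := exists_lift ho hr
  exact ⟨C', hC'⟩

end Pool.Agent.LibK3
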